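import Pool.Agent.Lib.MP_59f35a_mp.Stmts2

/-!
# MP_59f35a_mp, piece B4: the best affinity slope of one proton
-/

set_option autoImplicit false

noncomputable section

open MeasureTheory

namespace MolDis

namespace AH

theorem en_fin1 (h : S_en) (n : ℕ) : En n (fun _ : Fin 1 => (0 : E3)) = En n Hy := by
  obtain ⟨-, -, -, h4, -, -⟩ := h
  exact h4 (Fin 1) Unit (Equiv.ofUnique (Fin 1) Unit) Hy n

theorem en_zero (h : S_en) : En 0 Hy = 0 := by
  obtain ⟨-, -, -, -, -, h6⟩ := h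
  rw [h6]
  simp [repNN, cou, Hy]

theorem two_lt (h : S_en) (h2 : S_en2) (hP : PQ1) : -1 / 2 < En 2 Hy := by
  have h0 := hP 1 1 (fun _ => 0) (fun _ => 0) one_pos one_pos
    (Function.injective_of_subsingleton _) (Function.injective_of_subsingleton _) 0
    (Nat.zero_le _) (by norm_num)
  rw [en_fin1 h, en_fin1 h] at h0
  have h1 : En (1 + 1 - 0) (fun _ : Fin 1 => (0 : E3)) = En 2 Hy := en_fin1 h 2
  rw [h1, en_zero h, h2.2.1] at h0
  linarith

end AH

theorem p_aH (h : S_en) (h2 : S_en2) : S_aH := by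
  intro hP
  have hlt := AH.two_lt h h2 hP
  refine ⟨?_, hlt⟩
  set f : ℕ → ℝ := fun l => (-1 / 4 - En (1 + l) Hy) / l with hf
  have hb : ∀ l : ℕ, 1 ≤ l → f l ≤ -(En 2 Hy) / 2 := by
    intro l hl
    have hl' : (1 : ℝ) ≤ l := by exact_mod_cast hl
    have h3 := h2.2.2 (1 + l) (by omega)
    push_cast at h3
    rw [hf]
    simp only
    rw [div_le_iff₀ (by linarith)]
    nlinarith
  set S : Set ℝ := {x | ∃ l : ℕ, 1 ≤ l ∧ f l = x} with hS
  have hne : S.Nonempty := ⟨f 1, 1, le_rfl, rfl⟩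
  have hbdd : BddAbove S := ⟨-(En 2 Hy) / 2, by rintro x ⟨l, hl, rfl⟩; exact hb l hl⟩
  refine ⟨sSup S, ?_, ?_, ?_, ?_⟩
  · have h1 : f 1 ≤ sSup S := le_csSup hbdd ⟨1, le_rfl, rfl⟩
    have h3 : En 2 Hy ≤ En 1 Hy := h2.1 Unit Hy 1
    have h4 := h2.2.1
    refine le_trans ?_ h1
    simp only [hf]
    norm_num
    linarith
  · have h1 : sSup S ≤ -(En 2 Hy) / 2 := csSup_le hne (by rintro x ⟨l, hl, rfl⟩; exact hb l hl)
    linarith
  · intro l hl
    have hl' : (0 : ℝ) < l := by exact_mod_cast hl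
    have h1 : f l ≤ sSup S := le_csSup hbdd ⟨l, hl, rfl⟩
    simp only [hf] at h1
    rw [div_le_iff₀ hl'] at h1
    linarith
  · intro ε hε
    obtain ⟨x, ⟨l, hl, rfl⟩, hx⟩ := exists_lt_of_lt_csSup hne (show sSup S - ε < sSup S by linarith)
    have hl' : (0 : ℝ) < l := by exact_mod_cast hl
    refine ⟨l, hl, ?_⟩
    simp only [hf] at hx
    rw [lt_div_iff₀ hl'] at hx
    linarith

end MolDis
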