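import Pool.Agent.Lib.MP_59f35a_mp.Stmts1

/-!
# MP_59f35a_mp : piece A1b (closure properties of `LC` and `AdmW`, generic configurations)
(helper81)
-/

set_option autoImplicit false

noncomputable section

open MeasureTheory

namespace MolDis

/-! ### closure properties of `LC` -/

private lemma ab_cou_nonneg (x y : E3) : 0 ≤ cou x y := inv_nonneg.2 (norm_nonneg _)

/-- `LC` functions are bounded -/
private lemma ab_bdd {ι : Type} [Fintype ι] [DecidableEq ι] {ψ : (ι → Om) → ℝ} (h : LC ψ) :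
    ∃ B : ℝ, 0 ≤ B ∧ ∀ X, |ψ X| ≤ B := by
  obtain ⟨K, hK⟩ := h.lip
  obtain ⟨R, hR⟩ := h.supp
  rcases isEmpty_or_nonempty ι with he | ⟨⟨j⟩⟩
  · refine ⟨|ψ (fun i => he.elim i)|, abs_nonneg _, fun X => ?_⟩
    rw [Subsingleton.elim X (fun i => he.elim i)]
  · refine ⟨|K| * (2 * |R| + 1), by positivity, fun X => ?_⟩
    by_cases hX : ψ X = 0
    · rw [hX, abs_zero]
      positivity
    · set y : E3 := EuclideanSpace.single 0 (|R| + 1) with hy
      have hyn : ‖y‖ = |R| + 1 := by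
        rw [hy, PiLp.norm_single, Real.norm_eq_abs, abs_of_nonneg (by positivity)]
      have h0 : ψ (put X j y) = 0 := by
        by_contra hne
        have h1 := hR _ hne j
        have h2 : (put X j y j).1 = y := by simp [put]
        rw [h2, hyn] at h1
        linarith [le_abs_self R]
      have h1 := hK X j y
      rw [h0, zero_sub, abs_neg] at h1
      have h2 : ‖y - (X j).1‖ ≤ 2 * |R| + 1 := by
        have h3 := hR X hX j
        calc ‖y - (X j).1‖ ≤ ‖y‖ + ‖(X j).1‖ := norm_sub_le _ _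
          _ ≤ (|R| + 1) + |R| := by rw [hyn]; linarith [le_abs_self R]
          _ = _ := by ring
      calc |ψ X| ≤ K * ‖y - (X j).1‖ := h1
        _ ≤ |K| * ‖y - (X j).1‖ := mul_le_mul_of_nonneg_right (le_abs_self _) (norm_nonneg _)
        _ ≤ _ := mul_le_mul_of_nonneg_left h2 (abs_nonneg _)

theorem p_lc_closure : S_lc_closure := by
  intro ι _ _ ψ φ hψ hφ
  obtain ⟨K₁, hK₁⟩ := hψ.lip
  obtain ⟨R₁, hR₁⟩ := hψ.supp
  obtain ⟨K₂, hK₂⟩ := hφ.lip
  obtain ⟨R₂, hR₂⟩ := hφ.supp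
  refine ⟨⟨⟨K₁ + K₂, fun X j y => ?_⟩, ⟨max R₁ R₂, fun X hX j => ?_⟩⟩,
    fun c => ⟨⟨|c| * K₁, fun X j y => ?_⟩, ⟨R₁, fun X hX j => ?_⟩⟩, ?_⟩
  · calc |ψ (put X j y) + φ (put X j y) - (ψ X + φ X)|
        = |(ψ (put X j y) - ψ X) + (φ (put X j y) - φ X)| := by congr 1; ring
      _ ≤ |ψ (put X j y) - ψ X| + |φ (put X j y) - φ X| := abs_add_le _ _
      _ ≤ K₁ * ‖y - (X j).1‖ + K₂ * ‖y - (X j).1‖ := add_le_add (hK₁ X j y) (hK₂ X j y)
      _ = _ := by ring
  · by_cases h : ψ X = 0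
    · refine (hR₂ X (fun h2 => hX ?_) j).trans (le_max_right _ _)
      rw [h, h2, add_zero]
    · exact (hR₁ X h j).trans (le_max_left _ _)
  · rw [← mul_sub, abs_mul, mul_assoc]
    exact mul_le_mul_of_nonneg_left (hK₁ X j y) (abs_nonneg _)
  · exact hR₁ X (fun h => hX (by rw [h, mul_zero])) j
  · rintro f ⟨B, hB⟩ ⟨L, hL⟩
    obtain ⟨M, hM0, hM⟩ := ab_bdd hψ
    refine ⟨⟨|B| * |K₁| + M * |L|, fun X j y => ?_⟩, ⟨R₁, fun X hX j => ?_⟩⟩
    · have hn := norm_nonneg (y - (X j).1)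
      have e1 : |ψ (put X j y) - ψ X| ≤ |K₁| * ‖y - (X j).1‖ :=
        (hK₁ X j y).trans (mul_le_mul_of_nonneg_right (le_abs_self _) hn)
      have e2 : |f (put X j y) - f X| ≤ |L| * ‖y - (X j).1‖ :=
        (hL X j y).trans (mul_le_mul_of_nonneg_right (le_abs_self _) hn)
      have e3 : |f (put X j y)| ≤ |B| := (hB _).trans (le_abs_self _)
      calc |f (put X j y) * ψ (put X j y) - f X * ψ X|
          = |f (put X j y) * (ψ (put X j y) - ψ X) + ψ X * (f (put X j y) - f X)| := by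
            congr 1; ring
        _ ≤ |f (put X j y)| * |ψ (put X j y) - ψ X| + |ψ X| * |f (put X j y) - f X| := by
            rw [← abs_mul, ← abs_mul]; exact abs_add_le _ _
        _ ≤ |B| * (|K₁| * ‖y - (X j).1‖) + M * (|L| * ‖y - (X j).1‖) :=
            add_le_add (mul_le_mul e3 e1 (abs_nonneg _) (abs_nonneg _))
              (mul_le_mul (hM X) e2 (abs_nonneg _) hM0)
        _ = _ := by ring
    · exact hR₁ X (fun h => hX (by rw [h, mul_zero])) j

/-! ### closure properties of `AdmW` -/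

section adm

variable {ι : Type} [Fintype ι]

/-- the majorant -/
private def ab_Maj (S : Finset E3) (X : ι → Om) : ℝ :=
  1 + ∑ j, ∑ a ∈ S, cou (X j).1 a + ∑ j, ∑ k, cou (X j).1 (X k).1

private lemma ab_one_le (S : Finset E3) (X : ι → Om) : 1 ≤ ab_Maj S X := by
  unfold ab_Maj
  have h1 : 0 ≤ ∑ j, ∑ a ∈ S, cou (X j).1 a :=
    Finset.sum_nonneg fun j _ => Finset.sum_nonneg fun a _ => ab_cou_nonneg _ _
  have h2 : 0 ≤ ∑ j, ∑ k, cou (X j).1 (X k).1 :=
    Finset.sum_nonneg fun j _ => Finset.sum_nonneg fun a _ => ab_cou_nonneg _ _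
  linarith

private lemma ab_mono {S T : Finset E3} (h : S ⊆ T) (X : ι → Om) : ab_Maj S X ≤ ab_Maj T X := by
  unfold ab_Maj
  have h1 : ∑ j, ∑ a ∈ S, cou (X j).1 a ≤ ∑ j, ∑ a ∈ T, cou (X j).1 a :=
    Finset.sum_le_sum fun j _ => Finset.sum_le_sum_of_subset_of_nonneg h
      fun a _ _ => ab_cou_nonneg _ _
  linarith

private lemma ab_add {W W' : (ι → Om) → ℝ} (h : AdmW W) (h' : AdmW W') :
    AdmW (fun X => W X + W' X) := by
  classical
  refine ⟨h.1.add h'.1, fun R => ?_⟩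
  obtain ⟨C, S, hC⟩ := h.2 R
  obtain ⟨C', S', hC'⟩ := h'.2 R
  refine ⟨|C| + |C'|, S ∪ S', fun X hX => ?_⟩
  have e1 := hC X hX
  have e2 := hC' X hX
  change |W X| ≤ C * ab_Maj S X at e1
  change |W' X| ≤ C' * ab_Maj S' X at e2
  change |W X + W' X| ≤ (|C| + |C'|) * ab_Maj (S ∪ S') X
  have m1 := ab_mono (Finset.subset_union_left (s₁ := S) (s₂ := S')) X
  have m2 := ab_mono (Finset.subset_union_right (s₁ := S) (s₂ := S')) X
  have p1 := ab_one_le S X
  have p2 := ab_one_le S' X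
  calc |W X + W' X| ≤ |W X| + |W' X| := abs_add_le _ _
    _ ≤ C * ab_Maj S X + C' * ab_Maj S' X := add_le_add e1 e2
    _ ≤ |C| * ab_Maj S X + |C'| * ab_Maj S' X :=
        add_le_add (mul_le_mul_of_nonneg_right (le_abs_self _) (by linarith))
          (mul_le_mul_of_nonneg_right (le_abs_self _) (by linarith))
    _ ≤ |C| * ab_Maj (S ∪ S') X + |C'| * ab_Maj (S ∪ S') X :=
        add_le_add (mul_le_mul_of_nonneg_left m1 (abs_nonneg _))
          (mul_le_mul_of_nonneg_left m2 (abs_nonneg _))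
    _ = _ := by ring

private lemma ab_bmul {B W : (ι → Om) → ℝ} (hB : BddW B) (h : AdmW W) :
    AdmW (fun X => B X * W X) := by
  refine ⟨hB.1.mul h.1, fun R => ?_⟩
  obtain ⟨C, S, hC⟩ := h.2 R
  obtain ⟨M, hM⟩ := hB.2 R
  refine ⟨|M| * |C|, S, fun X hX => ?_⟩
  have e1 := hC X hX
  change |W X| ≤ C * ab_Maj S X at e1
  change |B X * W X| ≤ (|M| * |C|) * ab_Maj S X
  have p1 := ab_one_le S X
  rw [abs_mul, mul_assoc]
  refine mul_le_mul ((hM X hX).trans (le_abs_self _)) (e1.trans ?_) (abs_nonneg _) (abs_nonneg _)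
  exact mul_le_mul_of_nonneg_right (le_abs_self _) (by linarith)

private lemma ab_bdd_adm {W : (ι → Om) → ℝ} (h : BddW W) : AdmW W := by
  refine ⟨h.1, fun R => ?_⟩
  obtain ⟨C, hC⟩ := h.2 R
  refine ⟨|C|, ∅, fun X hX => ?_⟩
  change |W X| ≤ |C| * ab_Maj ∅ X
  calc |W X| ≤ |C| * 1 := by rw [mul_one]; exact (hC X hX).trans (le_abs_self _)
    _ ≤ _ := mul_le_mul_of_nonneg_left (ab_one_le _ _) (abs_nonneg _)

private lemma ab_const (c : ℝ) : BddW (fun _ : ι → Om => c) :=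
  ⟨measurable_const, fun _ => ⟨|c|, fun _ _ => le_refl _⟩⟩

private lemma ab_smul (c : ℝ) {W : (ι → Om) → ℝ} (h : AdmW W) : AdmW (fun X => c * W X) :=
  ab_bmul (ab_const c) h

private lemma ab_sum {α : Type*} (s : Finset α) {W : α → (ι → Om) → ℝ} (h : ∀ a, AdmW (W a)) :
    AdmW (fun X => ∑ a ∈ s, W a X) := by
  classical
  induction s using Finset.induction_on with
  | empty =>
    simp only [Finset.sum_empty]
    exact ab_bdd_adm (ab_const 0)
  | insert a s ha ih =>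
    simp only [Finset.sum_insert ha]
    exact ab_add (h a) ih

private lemma ab_cou1 (j : ι) (a : E3) : AdmW (fun X : ι → Om => cou (X j).1 a) := by
  refine ⟨?_, fun R => ⟨1, {a}, fun X _ => ?_⟩⟩
  · unfold cou
    fun_prop
  · rw [abs_of_nonneg (ab_cou_nonneg _ _), one_mul]
    have h1 : cou (X j).1 a ≤ ∑ j, ∑ b ∈ ({a} : Finset E3), cou (X j).1 b := by
      simp only [Finset.sum_singleton]
      exact Finset.single_le_sum (f := fun j => cou (X j).1 a)
        (fun j _ => ab_cou_nonneg _ _) (Finset.mem_univ j)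
    have h2 : 0 ≤ ∑ j, ∑ k, cou (X j).1 (X k).1 :=
      Finset.sum_nonneg fun j _ => Finset.sum_nonneg fun a _ => ab_cou_nonneg _ _
    linarith

private lemma ab_cou2 (j k : ι) : AdmW (fun X : ι → Om => cou (X j).1 (X k).1) := by
  refine ⟨?_, fun R => ⟨1, ∅, fun X _ => ?_⟩⟩
  · unfold cou
    fun_prop
  · rw [abs_of_nonneg (ab_cou_nonneg _ _), one_mul]
    have h1 : cou (X j).1 (X k).1 ≤ ∑ j, ∑ k, cou (X j).1 (X k).1 := by
      have h3 : cou (X j).1 (X k).1 ≤ ∑ k, cou (X j).1 (X k).1 :=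
        Finset.single_le_sum (f := fun k => cou (X j).1 (X k).1)
          (fun k _ => ab_cou_nonneg _ _) (Finset.mem_univ k)
      refine h3.trans ?_
      exact Finset.single_le_sum (f := fun j => ∑ k, cou (X j).1 (X k).1)
        (fun j _ => Finset.sum_nonneg fun k _ => ab_cou_nonneg _ _) (Finset.mem_univ j)
    have h2 : 0 ≤ ∑ j, ∑ a ∈ (∅ : Finset E3), cou (X j).1 a := by simp
    linarith

private lemma ab_attr {κ : Type} [Fintype κ] (Y : κ → E3) : AdmW (attr (ι := ι) Y) := by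
  unfold attr
  exact ab_sum _ fun j => ab_sum _ fun m => ab_cou1 j (Y m)

private lemma ab_repEE : AdmW (repEE (ι := ι)) := by
  unfold repEE
  exact ab_smul _ (ab_sum _ fun j => ab_sum _ fun k => ab_cou2 j k)

private lemma ab_pot {κ : Type} [Fintype κ] (Y : κ → E3) : AdmW (pot (ι := ι) Y) := by
  have h : pot (ι := ι) Y = fun X => (-1 * attr Y X + repEE X) + repNN Y := by
    funext X
    unfold pot
    ring
  rw [h]
  exact ab_add (ab_add (ab_smul _ (ab_attr Y)) ab_repEE) (ab_bdd_adm (ab_const _))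

end adm

/-! ### generic configurations -/

private instance ab_sf : SigmaFinite mu1 := by
  unfold mu1
  infer_instance

/-- the positions of one electron avoid a given point -/
private lemma ab_mu1_ne (a : E3) : ∀ᵐ w ∂mu1, w.1 ≠ a := by
  have h : (volume : Measure E3) {a} = 0 := measure_singleton a
  have h2 : ∀ᵐ x ∂(volume : Measure E3), x ≠ a := by
    rw [ae_iff]
    simp
  exact Measure.quasiMeasurePreserving_fst.ae h2

private lemma ab_ne {ι : Type} [Fintype ι] (j : ι) (a : E3) :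
    ∀ᵐ X ∂(Measure.pi fun _ : ι => mu1), (X j).1 ≠ a :=
  (Measure.quasiMeasurePreserving_eval (fun _ : ι => mu1) j).ae (ab_mu1_ne a)

private lemma ab_ne2 (ι : Type) [Fintype ι] [DecidableEq ι] {j k : ι} (hjk : k ≠ j) :
    ∀ᵐ X ∂(mu ι), (X j).1 ≠ (X k).1 := by
  have hmp := measurePreserving_piEquivPiSubtypeProd (fun _ : ι => mu1) (fun i => i = j)
  have hT : MeasurableSet {q : ({i // i = j} → Om) × ({i // ¬ i = j} → Om) |
      (q.1 ⟨j, rfl⟩).1 ≠ (q.2 ⟨k, hjk⟩).1} := by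
    refine (measurableSet_eq_fun ?_ ?_).compl
    · exact ((measurable_pi_apply _).comp measurable_fst).fst
    · exact ((measurable_pi_apply _).comp measurable_snd).fst
  have := hmp.quasiMeasurePreserving.ae
    (p := fun q : ({i // i = j} → Om) × ({i // ¬ i = j} → Om) =>
      (q.1 ⟨j, rfl⟩).1 ≠ (q.2 ⟨k, hjk⟩).1) (by
        rw [Measure.ae_prod_iff_ae_ae hT]
        refine Filter.Eventually.of_forall fun q1 => ?_
        filter_upwards [ab_ne (ι := {i // ¬ i = j}) ⟨k, hjk⟩ (q1 ⟨j, rfl⟩).1] with q2 hq2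
        exact hq2.symm)
  filter_upwards [this] with X hX
  exact hX

private lemma ab_gen (ι : Type) [Fintype ι] [DecidableEq ι] (F : Finset E3) :
    ∀ᵐ X ∂(mu ι), Gen F X := by
  have h1 : ∀ᵐ X ∂(mu ι), ∀ j, ∀ a ∈ F, (X j).1 ≠ a := by
    rw [ae_all_iff]
    intro j
    rw [Finset.eventually_all]
    exact fun a _ => ab_ne j a
  have h2 : ∀ᵐ X ∂(mu ι), ∀ j k : ι, k ≠ j → (X j).1 ≠ (X k).1 := by
    rw [ae_all_iff]
    intro j
    rw [ae_all_iff]
    intro k
    by_cases hjk : k = j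
    · exact Filter.Eventually.of_forall fun X h => absurd hjk h
    · filter_upwards [ab_ne2 ι hjk] with X hX _
      exact hX
  filter_upwards [h1, h2] with X hX1 hX2
  refine ⟨fun j k hjk => ?_, fun j hj => hX1 j _ hj rfl⟩
  by_contra hne
  exact hX2 j k (fun h => hne h.symm) hjk

theorem p_adm : S_adm := by
  intro ι _ _
  exact ⟨fun W h => ab_bdd_adm h, fun W W' h h' => ab_add h h', fun c W h => ab_smul c h,
    fun B W hB h => ab_bmul hB h, ab_cou1, ab_cou2,
    fun κ _ Y => ⟨ab_attr Y, ab_repEE, ab_pot Y⟩, fun F => ab_gen ι F⟩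

end MolDis
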