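import Pool.Agent.Lib.MP_59f35a_mp.Stmts3

/-!
# MP_59f35a_mp : piece G4, lower bound for the neutral array
-/

set_option autoImplicit false

noncomputable section

open MeasureTheory Filter Topology

namespace MolDis.ArrayLow

theorem ev_div (c ε : ℝ) (hε : 0 < ε) : ∀ᶠ d : ℝ in atTop, c / d ≤ ε := by
  have h1 : Tendsto (fun d : ℝ => c / d) atTop (𝓝 0) := tendsto_const_nhds.div_atTop tendsto_id
  exact (h1.eventually (gt_mem_nhds hε)).mono fun d hd => hd.le

theorem ev_div_sqrt (c ε : ℝ) (hε : 0 < ε) : ∀ᶠ d : ℝ in atTop, c / Real.sqrt d ≤ ε := by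
  have h1 : Tendsto (fun d : ℝ => c / Real.sqrt d) atTop (𝓝 0) :=
    tendsto_const_nhds.div_atTop Real.tendsto_sqrt_atTop
  exact (h1.eventually (gt_mem_nhds hε)).mono fun d hd => hd.le

section pots

variable (K q : ℕ) (d h : ℝ) (P X0 : E3)

theorem tauPot_inl (i : Fin 3 → Fin (2 * K + 1)) (x : E3) :
    tauPot (az K q d h X0) (aP K q P) (Sum.inl i) x = latPot K d P (some i) x := by
  unfold tauPot latPot
  rw [Fintype.sum_sum_type]
  have h2 : ∑ b : Fin 3 → Fin q, (if (Sum.inr b : Sites K q) = Sum.inl i then (0 : ℝ) else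
      cou x (az K q d h X0 (Sum.inr b) + (1 / 2 : ℝ) • aP K q P (Sum.inr b)) -
      cou x (az K q d h X0 (Sum.inr b) - (1 / 2 : ℝ) • aP K q P (Sum.inr b))) = 0 := by
    refine Finset.sum_eq_zero fun b _ => ?_
    simp [aP]
  rw [h2, add_zero]
  refine Finset.sum_congr rfl fun j _ => ?_
  by_cases hj : j = i
  · simp [hj]
  · have h3 : ¬ (Sum.inl j : Sites K q) = Sum.inl i := fun h => hj (Sum.inl.inj h)
    have h4 : ¬ (some i = some j) := fun h => hj (Option.some.inj h).symm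
    rw [if_neg h3, if_neg h4]
    rfl

theorem tauPot_inr (b : Fin 3 → Fin q) (x : E3) :
    tauPot (az K q d h X0) (aP K q P) (Sum.inr b) x = latPot K d P none x := by
  unfold tauPot latPot
  rw [Fintype.sum_sum_type]
  have h2 : ∑ b' : Fin 3 → Fin q, (if (Sum.inr b' : Sites K q) = Sum.inr b then (0 : ℝ) else
      cou x (az K q d h X0 (Sum.inr b') + (1 / 2 : ℝ) • aP K q P (Sum.inr b')) -
      cou x (az K q d h X0 (Sum.inr b') - (1 / 2 : ℝ) • aP K q P (Sum.inr b'))) = 0 := by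
    refine Finset.sum_eq_zero fun b' _ => ?_
    simp [aP]
  rw [h2, add_zero]
  refine Finset.sum_congr rfl fun j _ => ?_
  rw [if_neg (by simp), if_neg (by simp)]
  rfl

theorem tauPotK_eq (Kr : E3 → E3 → ℝ) (x : E3) :
    tauPotK Kr (az K q d h X0) (aP K q P) x =
      ∑ j, (Kr x (zpos K d j + (1 / 2 : ℝ) • P) - Kr x (zpos K d j - (1 / 2 : ℝ) • P)) := by
  unfold tauPotK
  rw [Fintype.sum_sum_type]
  have h2 : ∑ b : Fin 3 → Fin q,
      (Kr x (az K q d h X0 (Sum.inr b) + (1 / 2 : ℝ) • aP K q P (Sum.inr b)) -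
      Kr x (az K q d h X0 (Sum.inr b) - (1 / 2 : ℝ) • aP K q P (Sum.inr b))) = 0 := by
    refine Finset.sum_eq_zero fun b _ => ?_
    simp [aP]
  rw [h2, add_zero]
  rfl

theorem meas_latPot (o : Option (Fin 3 → Fin (2 * K + 1))) : Measurable (latPot K d P o) := by
  unfold latPot
  refine Finset.measurable_sum _ fun j _ => ?_
  by_cases hj : o = some j
  · simp only [hj, if_true]
    exact measurable_const
  · simp only [hj, if_false]
    unfold cou
    exact ((measurable_id.sub_const _).norm.inv).sub ((measurable_id.sub_const _).norm.inv)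

end pots

theorem slope {Z : ℕ} (B : Fin Z → E3) (a η γ V lam u : ℝ) (N : ℕ) (hN : N ≠ Z)
    (hM : Marg B a η) (hγ : 0 < γ) (h1 : a + η + V + γ ≤ lam) (h2 : lam ≤ 1 / 4 - η - V - γ)
    (hu : |u| ≤ V) : En Z B + γ ≤ En N B + (lam - u) * ((N : ℝ) - Z) := by
  have hu' := abs_le.mp hu
  rcases lt_or_gt_of_ne hN with h | h
  · obtain ⟨k, rfl⟩ : ∃ k, Z = N + k := ⟨Z - N, by omega⟩
    have hk : 1 ≤ k := by omega
    have h3 := hM.1 k hk (by omega)
    have h4 : N + k - k = N := by omega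
    rw [h4] at h3
    have hk' : (1 : ℝ) ≤ k := by exact_mod_cast hk
    have h5 : ((N : ℝ) - ((N + k : ℕ) : ℝ)) = -(k : ℝ) := by push_cast; ring
    rw [h5]
    nlinarith
  · obtain ⟨k, rfl⟩ : ∃ k, N = Z + k := ⟨N - Z, by omega⟩
    have hk : 1 ≤ k := by omega
    have h3 := hM.2 k hk
    have hk' : (1 : ℝ) ≤ k := by exact_mod_cast hk
    have h5 : (((Z + k : ℕ) : ℝ) - (Z : ℝ)) = (k : ℝ) := by push_cast; ring
    rw [h5]
    nlinarith

/-- the sum of the errors of the lattice cells -/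
theorem sum_err {I : Type} [Fintype I] (f : I → ℝ) (C C1 C' ε₁ p d G γ' : ℝ)
    (hf0 : ∀ i, 0 ≤ f i) (hd : 1 ≤ d) (hC : 1 ≤ C) (hC1 : 1 ≤ C1) (hC' : 1 ≤ C') (hp : 0 ≤ p)
    (hε0 : 0 < ε₁) (hε : ε₁ ≤ 1)
    (hf : ∀ i, d ^ 2 * f i ≤ G)
    (hsum : ∑ i, f i ≤ C1 * (Fintype.card I) * p / d ^ 3)
    (hG : C' * (G * (C1 * p) + C1 * p / d + (C1 * p) ^ 2 / d + 1 / d) ≤ γ')
    (hG0 : 0 ≤ G) :
    ∑ i, (Real.sqrt ε₁ * p * f i + 256 * C * ε₁ * p ^ 2 / d ^ 3
      + C' * (d ^ 2 * f i ^ 2 + C1 * p / d ^ 4 + (C1 * p / d ^ 4) ^ 2 * d ^ 4 + 1 / d ^ 4)) ≤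
    (C1 + 256 * C) * Real.sqrt ε₁ * p ^ 2 * (Fintype.card I) / d ^ 3
      + γ' * (Fintype.card I) / d ^ 3 := by
  have hd0 : 0 < d := by linarith
  set n : ℝ := (Fintype.card I : ℝ) with hn
  have hn0 : 0 ≤ n := Nat.cast_nonneg _
  have hsq : ε₁ ≤ Real.sqrt ε₁ := by
    have h1 : Real.sqrt ε₁ * Real.sqrt ε₁ = ε₁ := Real.mul_self_sqrt hε0.le
    have h2 : Real.sqrt ε₁ ≤ 1 := Real.sqrt_le_one.mpr hε
    nlinarith [Real.sqrt_nonneg ε₁]
  have hs0 : 0 ≤ Real.sqrt ε₁ := Real.sqrt_nonneg _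
  have e1 : ∑ i, (Real.sqrt ε₁ * p * f i + 256 * C * ε₁ * p ^ 2 / d ^ 3
      + C' * (d ^ 2 * f i ^ 2 + C1 * p / d ^ 4 + (C1 * p / d ^ 4) ^ 2 * d ^ 4 + 1 / d ^ 4)) =
      Real.sqrt ε₁ * p * ∑ i, f i + n * (256 * C * ε₁ * p ^ 2 / d ^ 3)
      + C' * (∑ i, d ^ 2 * f i ^ 2 +
        n * (C1 * p / d ^ 4 + (C1 * p / d ^ 4) ^ 2 * d ^ 4 + 1 / d ^ 4)) := by
    rw [Finset.sum_add_distrib, Finset.sum_add_distrib, ← Finset.mul_sum, ← Finset.mul_sum]
    simp only [Finset.sum_add_distrib, Finset.sum_const, Finset.card_univ, nsmul_eq_mul, ← hn]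
    ring
  rw [e1]
  have t1 : Real.sqrt ε₁ * p * ∑ i, f i ≤ C1 * Real.sqrt ε₁ * p ^ 2 * n / d ^ 3 := by
    refine (mul_le_mul_of_nonneg_left hsum (mul_nonneg hs0 hp)).trans (le_of_eq ?_)
    ring
  have t2 : n * (256 * C * ε₁ * p ^ 2 / d ^ 3) ≤ 256 * C * Real.sqrt ε₁ * p ^ 2 * n / d ^ 3 := by
    have : n * (256 * C * ε₁ * p ^ 2 / d ^ 3) = (256 * C * p ^ 2 * n / d ^ 3) * ε₁ := by ring
    rw [this]
    have h2 : 0 ≤ 256 * C * p ^ 2 * n / d ^ 3 := by positivity
    refine (mul_le_mul_of_nonneg_left hsq h2).trans (le_of_eq ?_)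
    ring
  have t3 : ∑ i, d ^ 2 * f i ^ 2 ≤ n / d ^ 3 * (G * (C1 * p)) := by
    have h1 : ∑ i, d ^ 2 * f i ^ 2 ≤ ∑ i, G * f i := by
      refine Finset.sum_le_sum fun i _ => ?_
      have := mul_le_mul_of_nonneg_right (hf i) (hf0 i)
      nlinarith
    refine h1.trans ?_
    rw [← Finset.mul_sum]
    refine ((mul_le_mul_of_nonneg_left hsum hG0).trans (le_of_eq ?_))
    ring
  have t4 : n * (C1 * p / d ^ 4 + (C1 * p / d ^ 4) ^ 2 * d ^ 4 + 1 / d ^ 4) =
      n / d ^ 3 * (C1 * p / d + (C1 * p) ^ 2 / d + 1 / d) := by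
    field_simp
  rw [t4]
  have t5 : C' * (∑ i, d ^ 2 * f i ^ 2 + n / d ^ 3 * (C1 * p / d + (C1 * p) ^ 2 / d + 1 / d)) ≤
      γ' * n / d ^ 3 := by
    have h1 : C' * (∑ i, d ^ 2 * f i ^ 2 +
        n / d ^ 3 * (C1 * p / d + (C1 * p) ^ 2 / d + 1 / d)) ≤
        n / d ^ 3 * (C' * (G * (C1 * p) + C1 * p / d + (C1 * p) ^ 2 / d + 1 / d)) := by
      have := mul_le_mul_of_nonneg_left t3 (by linarith : (0 : ℝ) ≤ C')
      nlinarith
    refine h1.trans ((mul_le_mul_of_nonneg_left hG (by positivity)).trans (le_of_eq ?_))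
    ring
  have e2 : (C1 + 256 * C) * Real.sqrt ε₁ * p ^ 2 * n / d ^ 3 =
      C1 * Real.sqrt ε₁ * p ^ 2 * n / d ^ 3 + 256 * C * Real.sqrt ε₁ * p ^ 2 * n / d ^ 3 := by
    ring
  rw [e2]
  linarith

/-- the bound of the local fields -/
theorem field_bound (C1 p v d f : ℝ) (K : ℕ) (hd : 1 ≤ d) (hC1 : 1 ≤ C1) (hp : 0 < p)
    (hK : p * K ≤ v * d ^ 2) (hv : 0 < v)
    (hf : f ≤ C1 * p * Real.sqrt (Real.sqrt K) / d ^ 3) :
    d ^ 2 * f ≤ C1 * p * Real.sqrt (Real.sqrt (v / p)) / Real.sqrt d := by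
  have hd0 : 0 < d := by linarith
  have h1 : (K : ℝ) ≤ v / p * d ^ 2 := by
    rw [div_mul_eq_mul_div, le_div_iff₀ hp]
    linarith
  have h2 : Real.sqrt (Real.sqrt K) ≤ Real.sqrt (Real.sqrt (v / p)) * Real.sqrt d := by
    have h3 : Real.sqrt K ≤ Real.sqrt (v / p) * d := by
      refine (Real.sqrt_le_sqrt h1).trans (le_of_eq ?_)
      rw [Real.sqrt_mul (by positivity), Real.sqrt_sq hd0.le]
    refine (Real.sqrt_le_sqrt h3).trans (le_of_eq ?_)
    rw [Real.sqrt_mul (Real.sqrt_nonneg _)]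
  have hsd : 0 < Real.sqrt d := Real.sqrt_pos.mpr hd0
  have h4 : d ^ 2 * f ≤ C1 * p * (Real.sqrt (Real.sqrt (v / p)) * Real.sqrt d) / d := by
    have h5 : d ^ 2 * f ≤ d ^ 2 * (C1 * p * Real.sqrt (Real.sqrt K) / d ^ 3) :=
      mul_le_mul_of_nonneg_left hf (by positivity)
    have h6 : d ^ 2 * (C1 * p * Real.sqrt (Real.sqrt K) / d ^ 3) =
        C1 * p * Real.sqrt (Real.sqrt K) / d := by
      field_simp
    rw [h6] at h5
    refine h5.trans ?_
    gcongr
  refine h4.trans (le_of_eq ?_)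
  have h7 : Real.sqrt d * Real.sqrt d = d := Real.mul_self_sqrt hd0.le
  rw [div_eq_div_iff hd0.ne' hsd.ne']
  have h8 : C1 * p * (Real.sqrt (Real.sqrt (v / p)) * Real.sqrt d) * Real.sqrt d =
      C1 * p * Real.sqrt (Real.sqrt (v / p)) * (Real.sqrt d * Real.sqrt d) := by ring
  rw [h8, h7]

end MolDis.ArrayLow

namespace MolDis

open ArrayLow

private theorem auxA (C C1 : ℝ) (hC : 1 ≤ C) (hC1 : 1 ≤ C1) :
    1 ≤ C1 * C + C1 + 256 * C ∧ C1 ≤ C1 * C + C1 + 256 * C ∧ C1 * C ≤ C1 * C + C1 + 256 * C ∧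
      C1 + 256 * C ≤ C1 * C + C1 + 256 * C := by
  have h : 0 ≤ C1 * C := mul_nonneg (by linarith) (by linarith)
  refine ⟨?_, ?_, ?_, ?_⟩ <;> linarith

private theorem auxd (d : ℝ) (hd : 1 ≤ d) : d ≤ d ^ 2 := by nlinarith

private theorem auxdK (d K : ℝ) (hd : 0 < d) (hK : 1 ≤ K) : d ≤ d * K := by nlinarith

set_option maxHeartbeats 1000000 in
theorem p_arrayLow (hlow : S_lower) (hcB : S_cellB) (hcQ : S_cellQ) (hgeo : S_geom)
    (hgrid : S_grid) (hlat : S_lat) : S_arrayLow := by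
  intro C hC hKer
  obtain ⟨C1, c1, hC1, hc1, hgeo⟩ := hgeo
  obtain ⟨Cg, _, hgrid⟩ := hgrid
  obtain ⟨Cl, _, hlat⟩ := hlat
  obtain ⟨A1, A2, A3, A4⟩ := auxA C C1 hC hC1
  refine ⟨C1 * C + C1 + 256 * C, A1, ?_⟩
  intro Z B P ε₁ CB a η Ms Ys e0 v γ γ' s hB hAH hM hη hYs he0 hv hγ hγ' hs
  set Λ : ℝ := 512 * C + 32 with hΛ
  have hΛ32 : 32 ≤ Λ := by linarith
  have hΛ0 : 0 < Λ := by linarith
  have hΛC : 512 * C ≤ Λ := by linarith
  have hV : 0 ≤ C1 * v := by positivity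
  obtain ⟨d1, C', hd1, hC', hcB⟩ := hcB C Λ Z B P ε₁ CB hC hΛ32 hB
  obtain ⟨d2, ω1, hd2, hω1, hQB⟩ := hcQ C Λ Z B P (C1 * v) γ γ (1 / 4) hC hΛC hV hγ hγ
  obtain ⟨d3, ω2, hd3, hω2, hQY⟩ := hcQ C Λ Ms Ys 0 (C1 * v) γ γ' (1 / 4) hC hΛC hV hγ hγ'
  have hB' := hB
  obtain ⟨hZ1, hCB, hε0, hε1, hP0, hBinj, _⟩ := hB'
  have hp : 0 < ‖P‖ := norm_pos_iff.mpr hP0
  set p : ℝ := ‖P‖ with hpdef
  set G : ℝ := C1 * p * Real.sqrt (Real.sqrt (v / p)) with hG
  have hG0 : 0 ≤ G := by positivity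
  set Mx : ℝ := max (Z : ℝ) (Ms : ℝ) with hMx
  have hMx0 : 0 ≤ Mx := (Nat.cast_nonneg Z).trans (le_max_left _ _)
  have hev : ∀ᶠ d : ℝ in atTop, 1 ≤ d ∧ d1 ≤ d ∧ d2 ≤ d ∧ d3 ≤ d ∧
      (∀ m, ‖B m‖ ≤ d / Λ / 4) ∧ (∀ m, ‖Ys m‖ ≤ d / Λ / 4) ∧ p ≤ d / Λ ∧
      (4 * C + 4 * Mx * Λ + 10 * Λ ^ 2) / d ≤ γ ∧ (G + C1 * p) / d ≤ ω1 ∧
      (C1 * p) / d ≤ ω2 ∧ (C' * G * (C1 * p)) / Real.sqrt d ≤ γ' / 2 ∧
      (C' * (C1 * p + (C1 * p) ^ 2 + 1)) / d ≤ γ' / 2 := by
    have hb : ∀ x : ℝ, ∀ᶠ d : ℝ in atTop, x ≤ d / Λ / 4 := by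
      intro x
      filter_upwards [eventually_ge_atTop (x * Λ * 4)] with d hd
      rw [div_div, le_div_iff₀ (by positivity)]
      linarith
    have hb2 : ∀ᶠ d : ℝ in atTop, p ≤ d / Λ := by
      filter_upwards [eventually_ge_atTop (p * Λ)] with d hd
      rw [le_div_iff₀ hΛ0]
      exact hd
    exact (eventually_ge_atTop 1).and <| (eventually_ge_atTop d1).and <|
      (eventually_ge_atTop d2).and <| (eventually_ge_atTop d3).and <|
      (eventually_all.mpr fun m => hb _).and <| (eventually_all.mpr fun m => hb _).and <|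
      hb2.and <| (ev_div _ _ hγ).and <| (ev_div _ _ hω1).and <| (ev_div _ _ hω2).and <|
      (ev_div_sqrt _ _ (half_pos hγ')).and (ev_div _ _ (half_pos hγ'))
  obtain ⟨d0, hd0⟩ := Filter.eventually_atTop.mp hev
  refine ⟨max d0 1, le_max_right _ _, ?_⟩
  intro d h K q lam hd hK hq hPK hdh hq2 hl1 hl2 hx
  obtain ⟨k1, k2, k3, k4, k5, k6, k7, k8, k9, k10, k11, k12⟩ := hd0 d ((le_max_left _ _).trans hd)
  have hdp : 0 < d := by linarith
  have hρ0 : 0 < d / Λ := by positivity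
  have hρ32 : d / Λ ≤ d / 32 := by gcongr
  have hPd : p ≤ d / 32 := k7.trans hρ32
  have hK' : (1 : ℝ) ≤ K := by exact_mod_cast hK
  have hr0 : 0 < d / 8 := by positivity
  obtain ⟨Kr, hKr⟩ := hKer (d / 8) hr0
  obtain ⟨⟨F, hF1, hF2, hF3⟩, hgK, hgX⟩ := hgeo K d P hK hdp hP0 hPd
  set X0 : E3 := (s * (3 * d * K) / p) • P with hX0
  have hKv : p * K / d ^ 2 ≤ v := by
    rw [div_le_iff₀ (by positivity)]
    exact hPK
  -- the extra cells are far from the lattice
  have hap : ∀ b, ‖apos q h X0 b - X0‖ ≤ 2 * h * q := fun b =>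
    (hgrid q h X0 hq (by linarith)).2.1 b
  have hdK : d ≤ d * K := auxdK d K hdp hK'
  have hfar : ∀ (x : E3), ‖x - X0‖ ≤ d * K / 4 → ∀ j, d * K ≤ ‖x - zpos K d j‖ := by
    intro x hx' j
    exact (hgX s hs x x hx' hx').2.2.2 j
  have hlam0 : 0 ≤ a := hAH.1
  have hAv : C1 * v ≤ (C1 * C + C1 + 256 * C) * v := mul_le_mul_of_nonneg_right A2 hv.le
  have hAv2 : C1 * C * v ≤ (C1 * C + C1 + 256 * C) * v := mul_le_mul_of_nonneg_right A3 hv.le
  have hl1' : a + η + C1 * v + γ ≤ lam := by linarith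
  have hl2' : lam ≤ 1 / 4 - η - C1 * v - γ := by linarith
  have hlam1 : lam ≤ 1 / 4 := by linarith
  have hγ1 : γ ≤ 1 := by linarith
  have hum : C1 * v + γ ≤ lam := by linarith
  -- fields
  have hFb : ∀ i, d ^ 2 * ‖F i‖ ≤ G / Real.sqrt d := fun i =>
    field_bound C1 p v d ‖F i‖ K k1 hC1 hp hPK hv (hF2 i)
  have hsd1 : 1 ≤ Real.sqrt d := Real.one_le_sqrt.mpr k1
  have hFb2 : ∀ i, ‖F i‖ ≤ G / d ^ 2 := by
    intro i
    rw [le_div_iff₀ (by positivity)]
    have h1 : G / Real.sqrt d ≤ G := div_le_self hG0 hsd1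
    have := hFb i
    linarith
  set erri : (Fin 3 → Fin (2 * K + 1)) → ℝ := fun i =>
    Real.sqrt ε₁ * p * ‖F i‖ + 256 * C * ε₁ * p ^ 2 / d ^ 3
      + C' * (d ^ 2 * ‖F i‖ ^ 2 + C1 * p / d ^ 4 + (C1 * p / d ^ 4) ^ 2 * d ^ 4 + 1 / d ^ 4)
    with herri
  have herr0 : ∀ i, 0 ≤ erri i := by
    intro i
    rw [herri]
    positivity
  have key := hlow (Sites K q) (aM K q Z Ms) (aY K q B Ys) (az K q d h X0) (aP K q P) C d
    (d / Λ) Mx lam (Sum.elim erri (fun _ => e0 + γ')) Kr hC hdp hKr hρ0 hρ32 ?_ ?_ ?_ ?_ ?_ ?_ ?_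
  · -- conclusion
    refine le_trans ?_ key
    have hsumE : ∑ k : Sites K q, (En (aM K q Z Ms k) (aY K q B Ys k) -
        (Sum.elim erri (fun _ => e0 + γ') k)) =
        ((2 * K + 1) ^ 3 * En Z B - ∑ i, erri i) + q ^ 3 * (En Ms Ys - e0 - γ') := by
      rw [Fintype.sum_sum_type]
      show (∑ i : Fin 3 → Fin (2 * K + 1), (En Z B - erri i)) +
        (∑ _b : Fin 3 → Fin q, (En Ms Ys - (e0 + γ'))) = _
      rw [Finset.sum_sub_distrib]
      simp only [Finset.sum_const, Finset.card_univ, nsmul_eq_mul, Fintype.card_fun,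
        Fintype.card_fin]
      push_cast
      ring
    rw [hsumE]
    have hcard : (Fintype.card (Fin 3 → Fin (2 * K + 1)) : ℝ) = (2 * K + 1) ^ 3 := by
      simp [Fintype.card_fun]
    have hs1 := sum_err (fun i => ‖F i‖) C C1 C' ε₁ p d (G / Real.sqrt d) γ'
      (fun i => norm_nonneg _) k1 hC hC1 hC' hp.le hε0 hε1 hFb (by
        rw [hcard]
        exact hF3) (by
        have e1 : C' * (G / Real.sqrt d * (C1 * p) + C1 * p / d + (C1 * p) ^ 2 / d + 1 / d) =
          (C' * G * (C1 * p)) / Real.sqrt d + (C' * (C1 * p + (C1 * p) ^ 2 + 1)) / d := by ring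
        rw [e1]
        linarith) (by positivity)
    rw [hcard] at hs1
    have hs2 : (C1 + 256 * C) * Real.sqrt ε₁ * p ^ 2 * (2 * K + 1) ^ 3 / d ^ 3 ≤
        (C1 * C + C1 + 256 * C) * Real.sqrt ε₁ * p ^ 2 * (2 * K + 1) ^ 3 / d ^ 3 := by
      gcongr
    have hs3 : ∑ i, erri i ≤ (C1 * C + C1 + 256 * C) * Real.sqrt ε₁ * p ^ 2 * (2 * K + 1) ^ 3 / d ^ 3
      + γ' * (2 * K + 1) ^ 3 / d ^ 3 := by
      refine le_trans (le_of_eq rfl) (hs1.trans ?_)
      linarith
    linarith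
  · -- separation
    rintro (i | b) (i' | b') hne
    · exact (hlat K d hK hdp).1 i i' (fun h => hne (by rw [h]))
    · show d ≤ ‖zpos K d i - apos q h X0 b'‖
      rw [norm_sub_rev]
      exact hdK.trans (hfar _ ((hap b').trans (by linarith)) i)
    · show d ≤ ‖apos q h X0 b - zpos K d i'‖
      exact hdK.trans (hfar _ ((hap b).trans (by linarith)) i')
    · exact hdh.trans ((hgrid q h X0 hq (by linarith)).1 b b' (fun h => hne (by rw [h])))
  · -- size of the molecules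
    rintro (i | b) m
    · exact k5 m
    · exact k6 m
  · rintro (i | b)
    · exact k7
    · show ‖(0 : E3)‖ ≤ _
      rw [norm_zero]
      exact hρ0.le
  · rintro (i | b)
    · exact le_max_left _ _
    · exact le_max_right _ _
  · rintro (i | b)
    · exact hBinj
    · exact hYs
  · -- the cells
    rintro (i | b) N φ hφ hsupp
    · -- lattice cells
      show (En Z B - erri i) * nsq φ ≤ kin φ +
        expv (cellW Kr (tauPot (az K q d h X0) (aP K q P) (Sum.inl i)) lam (d / Λ) B (zpos K d i) P) φ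
      have hU : tauPot (az K q d h X0) (aP K q P) (Sum.inl i) = latPot K d P (some i) :=
        funext fun x => tauPot_inl K q d h P X0 i x
      rw [hU]
      have hball : ∀ x : E3, ‖x - zpos K d i‖ ≤ d / Λ → ‖x - zpos K d i‖ ≤ d / 8 := fun x hx' =>
        hx'.trans (hρ32.trans (by linarith))
      by_cases hN : N = Z
      · subst hN
        have h1 := hcB d (zpos K d i) (F i) (C1 * p / d ^ 4) lam (latPot K d P (some i)) Kr φ k2 hKr
          (by positivity) (meas_latPot K d P _) (fun x hx' => (hF1 i x (hball x hx')).2) hφ hsupp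
        exact h1
      · have h1 := hQB d (zpos K d i) (latPot K d P (some i) (zpos K d i)) lam (En Z B + γ)
          (latPot K d P (some i)) Kr N φ k3 hKr (meas_latPot K d P _) ?_ hum hlam1 ?_ hφ hsupp
          (by linarith) ?_
        · have h2 : (En Z B - erri i) * nsq φ ≤ (En Z B + γ - γ) * nsq φ := by
            apply mul_le_mul_of_nonneg_right
            · linarith [herr0 i]
            · exact integral_nonneg fun X => sq_nonneg _
          exact h2.trans h1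
        · have h2 := (hF1 i (zpos K d i) (by simp; positivity)).1
          refine h2.trans ?_
          calc C1 * p * K / d ^ 2 = C1 * (p * K / d ^ 2) := by ring
            _ ≤ C1 * v := mul_le_mul_of_nonneg_left hKv (by linarith)
        · intro x hx'
          have h2 := (hF1 i x (hball x hx')).2
          have h3 : |inner ℝ (F i) (x - zpos K d i)| ≤ ‖F i‖ * ‖x - zpos K d i‖ :=
            abs_real_inner_le_norm _ _
          have hx1 : ‖x - zpos K d i‖ ≤ d := hx'.trans (div_le_self hdp.le (by linarith))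
          have h4 : |latPot K d P (some i) x - latPot K d P (some i) (zpos K d i)| ≤
              C1 * p / d ^ 4 * ‖x - zpos K d i‖ ^ 2 + ‖F i‖ * ‖x - zpos K d i‖ := by
            have h5 : latPot K d P (some i) x - latPot K d P (some i) (zpos K d i) =
              (latPot K d P (some i) x - latPot K d P (some i) (zpos K d i) -
                inner ℝ (F i) (x - zpos K d i)) + inner ℝ (F i) (x - zpos K d i) := by ring
            rw [h5]
            exact (abs_add_le _ _).trans (add_le_add h2 h3)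
          refine h4.trans (le_trans ?_ k9)
          have h6 : C1 * p / d ^ 4 * ‖x - zpos K d i‖ ^ 2 ≤ C1 * p / d := by
            have h7 : ‖x - zpos K d i‖ ^ 2 ≤ d ^ 2 := by
              apply pow_le_pow_left₀ (norm_nonneg _) hx1
            calc C1 * p / d ^ 4 * ‖x - zpos K d i‖ ^ 2 ≤ C1 * p / d ^ 4 * d ^ 2 :=
                  mul_le_mul_of_nonneg_left h7 (by positivity)
              _ = C1 * p / d ^ 2 := by field_simp
              _ ≤ C1 * p / d := by
                  exact div_le_div_of_nonneg_left (by positivity) hdp (auxd d k1)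
          have h8 : ‖F i‖ * ‖x - zpos K d i‖ ≤ G / d := by
            calc ‖F i‖ * ‖x - zpos K d i‖ ≤ G / d ^ 2 * d :=
                  mul_le_mul (hFb2 i) hx1 (norm_nonneg _) (by positivity)
              _ = G / d := by field_simp
          rw [add_div]
          linarith
        · refine slope B a η γ (C1 * v) lam _ N hN hM hγ hl1' hl2' ?_
          have h2 := (hF1 i (zpos K d i) (by simp; positivity)).1
          refine h2.trans ?_
          calc C1 * p * K / d ^ 2 = C1 * (p * K / d ^ 2) := by ring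
            _ ≤ C1 * v := mul_le_mul_of_nonneg_left hKv (by linarith)
    · -- extra cells
      show (En Ms Ys - (e0 + γ')) * nsq φ ≤ kin φ +
        expv (cellW Kr (tauPot (az K q d h X0) (aP K q P) (Sum.inr b)) lam (d / Λ) Ys
          (apos q h X0 b) 0) φ
      have hU : tauPot (az K q d h X0) (aP K q P) (Sum.inr b) = latPot K d P none :=
        funext fun x => tauPot_inr K q d h P X0 b x
      rw [hU]
      have hb1 : ‖apos q h X0 b - X0‖ ≤ d * K / 4 := (hap b).trans (by linarith)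
      have h1 := hQY d (apos q h X0 b) (latPot K d P none (apos q h X0 b)) lam (En Ms Ys - e0)
        (latPot K d P none) Kr N φ k4 hKr (meas_latPot K d P _) ?_ hum hlam1 ?_ hφ hsupp
        (by linarith) (hx _ (hap b) N)
      · refine le_trans (le_of_eq ?_) h1
        ring
      · obtain ⟨g1, g2, _, _⟩ := hgX s hs _ _ hb1 hb1
        have g3 : C1 * p * K / d ^ 2 ≤ C1 * v := by
          calc C1 * p * K / d ^ 2 = C1 * (p * K / d ^ 2) := by ring
            _ ≤ C1 * v := mul_le_mul_of_nonneg_left hKv (by linarith)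
        have g4 : 0 ≤ c1 * p * K / d ^ 2 := by positivity
        rw [abs_le]
        rcases hs with rfl | rfl <;> constructor <;> linarith
      · intro x hx'
        have hx2 : ‖x - X0‖ ≤ d * K / 4 := by
          have h2 : ‖x - X0‖ ≤ ‖x - apos q h X0 b‖ + ‖apos q h X0 b - X0‖ := by
            have : x - X0 = (x - apos q h X0 b) + (apos q h X0 b - X0) := by abel
            rw [this]
            exact norm_add_le _ _
          have h3 := hap b
          linarith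
        obtain ⟨_, _, g3, _⟩ := hgX s hs x (apos q h X0 b) hx2 hb1
        refine g3.trans (le_trans ?_ k10)
        have hx1 : ‖x - apos q h X0 b‖ ≤ d := hx'.trans (div_le_self hdp.le (by linarith))
        calc C1 * p / d ^ 3 * ‖x - apos q h X0 b‖ ≤ C1 * p / d ^ 3 * d :=
              mul_le_mul_of_nonneg_left hx1 (by positivity)
          _ = C1 * p / d ^ 2 := by field_simp
          _ ≤ C1 * p / d := div_le_div_of_nonneg_left (by positivity) hdp (auxd d k1)
  · -- vacuum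
    intro x _
    have h1 : tauPotK Kr (az K q d h X0) (aP K q P) x ≤ C1 * C * v := by
      rw [tauPotK_eq]
      refine (le_abs_self _).trans ((hgK C Kr hC hKr x).trans ?_)
      calc C1 * C * p * K / d ^ 2 = C1 * C * (p * K / d ^ 2) := by ring
        _ ≤ C1 * C * v := mul_le_mul_of_nonneg_left hKv (by positivity)
    have h2 : 4 * C / d + 4 * Mx / (d / Λ) + 10 / (d / Λ) ^ 2 ≤ γ := by
      refine le_trans ?_ k8
      have e1 : 4 * C / d + 4 * Mx / (d / Λ) + 10 / (d / Λ) ^ 2 =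
        (4 * C + 4 * Mx * Λ) / d + 10 * Λ ^ 2 / d ^ 2 := by
        field_simp
      rw [e1]
      have e2 : 10 * Λ ^ 2 / d ^ 2 ≤ 10 * Λ ^ 2 / d :=
        div_le_div_of_nonneg_left (by positivity) hdp (auxd d k1)
      have e3 : (4 * C + 4 * Mx * Λ + 10 * Λ ^ 2) / d =
        (4 * C + 4 * Mx * Λ) / d + 10 * Λ ^ 2 / d := by ring
      rw [e3]
      linarith
    linarith

end MolDis
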