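import Pool.Agent.Lib.MP_59f35a_mp.Stmts3

/-!
# MP_59f35a_mp : piece G5 (charged array, upper bound)
-/

set_option autoImplicit false

noncomputable section

open MeasureTheory

namespace MolDis
namespace ArrayUp

/-! ### the probability measure of a wave function -/

/-- the probability measure with density `φ ^ 2` -/
def pr {ι : Type} [Fintype ι] (φ : (ι → Om) → ℝ) : Measure (ι → Om) :=
  (mu ι).withDensity (fun X => ENNReal.ofReal (φ X ^ 2))

section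
variable {ι : Type} [Fintype ι] {φ : (ι → Om) → ℝ}

lemma expv_eq (hφ : Measurable φ) (W : (ι → Om) → ℝ) : expv W φ = ∫ X, W X ∂(pr φ) := by
  unfold expv pr
  rw [integral_withDensity_eq_integral_toReal_smul (hφ.pow_const 2).ennreal_ofReal
    (Filter.Eventually.of_forall fun X => ENNReal.ofReal_lt_top)]
  refine integral_congr_ae (Filter.Eventually.of_forall fun X => ?_)
  show W X * φ X ^ 2 = (ENNReal.ofReal (φ X ^ 2)).toReal • W X
  rw [ENNReal.toReal_ofReal (sq_nonneg _), smul_eq_mul]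
  ring

lemma pr_prob (hi : Integrable (fun X => φ X ^ 2) (mu ι)) (h1 : nsq φ = 1) :
    IsProbabilityMeasure (pr φ) := by
  refine ⟨?_⟩
  unfold pr
  rw [withDensity_apply _ MeasurableSet.univ, Measure.restrict_univ,
    ← ofReal_integral_eq_lintegral_ofReal hi (Filter.Eventually.of_forall fun X => sq_nonneg _)]
  unfold nsq at h1
  rw [h1, ENNReal.ofReal_one]

lemma pr_ae (hφ : Measurable φ) {p : (ι → Om) → Prop} (h : ∀ X, φ X ≠ 0 → p X) :
    ∀ᵐ X ∂(pr φ), p X := by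
  unfold pr
  rw [ae_withDensity_iff (hφ.pow_const 2).ennreal_ofReal]
  refine Filter.Eventually.of_forall fun X hX => h X ?_
  intro h0
  apply hX
  rw [h0]
  simp

end

/-! ### integration of inequalities -/

lemma one_var {Ω : Type} [MeasurableSpace Ω] {π : Measure Ω} {h m e : Ω → ℝ} {mv ev : ℝ}
    (hh : AEStronglyMeasurable h π) (hm : Integrable m π) (he : Integrable e π)
    (hb : ∀ᵐ X ∂π, |h X - m X| ≤ e X) (hmv : ∫ X, m X ∂π = mv) (hev : ∫ X, e X ∂π ≤ ev) :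
    |∫ X, h X ∂π - mv| ≤ ev := by
  have hint : Integrable h π := by
    refine Integrable.mono' (hm.abs.add he) hh ?_
    filter_upwards [hb] with X hX
    rw [Real.norm_eq_abs]
    have := abs_sub_abs_le_abs_sub (h X) (m X)
    simp only [Pi.add_apply]
    linarith
  rw [← hmv, ← integral_sub hint hm]
  calc |∫ X, h X - m X ∂π| ≤ ∫ X, |h X - m X| ∂π := abs_integral_le_integral_abs
    _ ≤ ∫ X, e X ∂π := integral_mono_ae (hint.sub hm).abs he hb
    _ ≤ ev := hev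

lemma two_var {Ω Ω' : Type} [MeasurableSpace Ω] [MeasurableSpace Ω'] {π : Measure Ω}
    {π' : Measure Ω'} [SFinite π'] {h m e : Ω → Ω' → ℝ} {mb eb : Ω → ℝ}
    {mv ev : ℝ} (hh : Measurable (Function.uncurry h))
    (hm : ∀ X, Integrable (m X) π') (he : ∀ X, Integrable (e X) π')
    (hb : ∀ᵐ X ∂π, ∀ᵐ X' ∂π', |h X X' - m X X'| ≤ e X X')
    (hmb : ∀ X, ∫ X', m X X' ∂π' = mb X) (heb : ∀ X, ∫ X', e X X' ∂π' ≤ eb X)
    (hmi : Integrable mb π) (hei : Integrable eb π)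
    (hmv : ∫ X, mb X ∂π = mv) (hev : ∫ X, eb X ∂π ≤ ev) :
    |∫ X, ∫ X', h X X' ∂π' ∂π - mv| ≤ ev := by
  refine one_var (m := mb) (e := eb) ?_ hmi hei ?_ hmv hev
  · exact (StronglyMeasurable.integral_prod_right hh.stronglyMeasurable).aestronglyMeasurable
  · filter_upwards [hb] with X hX
    refine one_var (m := m X) (e := e X) ?_ (hm X) (he X) hX (hmb X) (heb X)
    exact (hh.comp measurable_prodMk_left).aestronglyMeasurable

/-! ### relative positions of a cell -/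

/-- relative positions of the charges of a cell -/
def uu {M n : ℕ} (Y : Fin M → E3) (X : Fin n → Om) : Fin M ⊕ Fin n → E3 :=
  Sum.elim Y (fun j => (X j).1)

/-- first moment -/
def S1 {M n : ℕ} (Y : Fin M → E3) (X : Fin n → Om) : ℝ :=
  ∑ a : Fin M ⊕ Fin n, |bq a| * ‖uu Y X a‖

/-- second moment -/
def S2 {M n : ℕ} (Y : Fin M → E3) (X : Fin n → Om) : ℝ :=
  ∑ a : Fin M ⊕ Fin n, |bq a| * ‖uu Y X a‖ ^ 2

/-- interaction of two cells, relative coordinates -/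
def hh {M n M' n' : ℕ} (Y : Fin M → E3) (z : E3) (Y' : Fin M' → E3) (z' : E3)
    (X : Fin n → Om) (X' : Fin n' → Om) : ℝ :=
  ∑ a : Fin M ⊕ Fin n, ∑ b : Fin M' ⊕ Fin n',
    bq a * bq b * cou (z + uu Y X a) (z' + uu Y' X' b)

/-- translated functions -/
def sh {n : ℕ} (a : E3) (φ : (Fin n → Om) → ℝ) : (Fin n → Om) → ℝ :=
  fun X => φ (fun j => ((X j).1 - a, (X j).2))

section
variable {M n M' n' : ℕ} {Y : Fin M → E3} {Y' : Fin M' → E3} {X : Fin n → Om}
  {X' : Fin n' → Om} {z z' : E3}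

lemma abs_bq (a : Fin M ⊕ Fin n) : |(bq a : ℝ)| = 1 := by
  rcases a with m | j <;> simp [bq]

lemma S1_nonneg : 0 ≤ S1 Y X :=
  Finset.sum_nonneg fun _ _ => mul_nonneg (abs_nonneg _) (norm_nonneg _)

lemma S2_nonneg : 0 ≤ S2 Y X :=
  Finset.sum_nonneg fun _ _ => mul_nonneg (abs_nonneg _) (sq_nonneg _)

lemma S1_eq : S1 Y X = ∑ m, ‖Y m‖ + ∑ j, ‖(X j).1‖ := by
  unfold S1
  rw [Fintype.sum_sum_type]
  simp [bq, uu]

lemma S2_eq : S2 Y X = ∑ m, ‖Y m‖ ^ 2 + ∑ j, ‖(X j).1‖ ^ 2 := by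
  unfold S2
  rw [Fintype.sum_sum_type]
  simp [bq, uu]

lemma sum_bq : ∑ a : Fin M ⊕ Fin n, (bq a : ℝ) = M - n := by
  rw [Fintype.sum_sum_type]
  simp [bq, sub_eq_add_neg]

lemma sum_abs_bq : ∑ a : Fin M ⊕ Fin n, |(bq a : ℝ)| = M + n := by
  rw [Fintype.sum_sum_type]
  simp [bq]

lemma sum_bq_smul : ∑ a : Fin M ⊕ Fin n, (bq a : ℝ) • uu Y X a = vdip Y X := by
  rw [Fintype.sum_sum_type]
  simp [bq, uu, vdip, sub_eq_add_neg]

lemma measurable_uu (a : Fin M ⊕ Fin n) : Measurable fun X : Fin n → Om => uu Y X a := by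
  rcases a with m | j
  · exact measurable_const
  · exact (measurable_pi_apply j).fst

lemma measurable_S1 : Measurable fun X : Fin n → Om => S1 Y X :=
  Finset.measurable_sum _ fun a _ => (measurable_uu a).norm.const_mul _

lemma measurable_S2 : Measurable fun X : Fin n → Om => S2 Y X :=
  Finset.measurable_sum _ fun a _ => ((measurable_uu a).norm.pow_const 2).const_mul _

lemma measurable_vdip : Measurable fun X : Fin n → Om => vdip Y X := by
  have : (fun X : Fin n → Om => vdip Y X) =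
      fun X => ∑ a : Fin M ⊕ Fin n, (bq a : ℝ) • uu Y X a := by
    funext X
    rw [sum_bq_smul]
  rw [this]
  exact Finset.measurable_sum _ fun a _ => (measurable_uu a).fun_const_smul _

lemma measurable_hh : Measurable (Function.uncurry
    (hh (n := n) (n' := n') Y z Y' z')) := by
  unfold Function.uncurry hh
  refine Finset.measurable_sum _ fun a _ => Finset.measurable_sum _ fun b _ => ?_
  refine Measurable.const_mul ?_ _
  unfold cou
  refine Measurable.inv (Measurable.norm ?_)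
  exact (((measurable_uu a).comp measurable_fst).const_add z).sub
    (((measurable_uu b).comp measurable_snd).const_add z')

/-- the interaction of translated cells in relative coordinates -/
lemma crossQ_sh (hs : S_shift) {φ : (Fin n → Om) → ℝ} {φ' : (Fin n' → Om) → ℝ}
    (hφ : Measurable φ) (hφ' : Measurable φ') :
    crossQ Y z (sh z φ) Y' z' (sh z' φ') =
      ∫ X, ∫ X', hh Y z Y' z' X X' ∂(pr φ') ∂(pr φ) := by
  have key : ∀ {n : ℕ} (a : E3) (φ : (Fin n → Om) → ℝ) (W : (Fin n → Om) → ℝ),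
      expv W (sh a φ) = expv (fun X => W (fun j => ((X j).1 + a, (X j).2))) φ := by
    intro n a φ W
    have h := (hs (Fin n) a φ).2.2.2.2.1 (fun X => W (fun j => ((X j).1 + a, (X j).2)))
    rw [← h]
    have e : (fun X : Fin n → Om => (fun X : Fin n → Om => W (fun j => ((X j).1 + a, (X j).2)))
        (fun j => ((X j).1 - a, (X j).2))) = W := by
      funext X
      simp
    rw [e]
    rfl
  unfold crossQ
  rw [key, expv_eq hφ]
  refine integral_congr_ae (Filter.Eventually.of_forall fun X => ?_)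
  show expv _ (sh z' φ') = _
  rw [key, expv_eq hφ']
  refine integral_congr_ae (Filter.Eventually.of_forall fun X' => ?_)
  show (∑ a : Fin M ⊕ Fin n, ∑ b : Fin M' ⊕ Fin n', _) = hh Y z Y' z' X X'
  unfold hh
  refine Finset.sum_congr rfl fun a _ => Finset.sum_congr rfl fun b _ => ?_
  congr 1
  have e1 : ∀ {M n : ℕ} (Y : Fin M → E3) (z : E3) (X : Fin n → Om) (a : Fin M ⊕ Fin n),
      bpos Y z (fun j => ((X j).1 + z, (X j).2)) a = z + uu Y X a := by
    intro M n Y z X a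
    rcases a with m | j
    · simp [bpos, uu]
    · simp [bpos, uu, add_comm]
  rw [e1, e1]

end

/-! ### cells -/

/-- a random cell -/
structure Cell {M n : ℕ} (Y : Fin M → E3) (π : Measure (Fin n → Om)) (ρ : ℝ) (pb : E3)
    (s : ℝ) : Prop where
  prob : IsProbabilityMeasure π
  hY : ∀ m, ‖Y m‖ ≤ ρ
  hX : ∀ᵐ X ∂π, ∀ j, ‖(X j).1‖ ≤ ρ
  mean : ∫ X, vdip Y X ∂π = pb
  m1 : ∫ X, S1 Y X ∂π ≤ s
  m2 : ∫ X, S2 Y X ∂π ≤ s

namespace Cell

variable {M n M' n' : ℕ} {Y : Fin M → E3} {Y' : Fin M' → E3} {π : Measure (Fin n → Om)}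
  {π' : Measure (Fin n' → Om)} {ρ ρ' : ℝ} {pb pb' : E3} {s s' : ℝ} {z z' : E3}

lemma huu (h : Cell Y π ρ pb s) : ∀ᵐ X ∂π, ∀ a, ‖uu Y X a‖ ≤ ρ := by
  filter_upwards [h.hX] with X hX a
  rcases a with m | j
  · exact h.hY m
  · exact hX j

lemma int1 (h : Cell Y π ρ pb s) : Integrable (fun X => S1 Y X) π := by
  have := h.prob
  refine Integrable.of_bound measurable_S1.aestronglyMeasurable
    (∑ a : Fin M ⊕ Fin n, |(bq a : ℝ)| * ρ) ?_
  filter_upwards [h.huu] with X hX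
  rw [Real.norm_eq_abs, abs_of_nonneg S1_nonneg]
  exact Finset.sum_le_sum fun a _ => mul_le_mul_of_nonneg_left (hX a) (abs_nonneg _)

lemma int2 (h : Cell Y π ρ pb s) : Integrable (fun X => S2 Y X) π := by
  have := h.prob
  refine Integrable.of_bound measurable_S2.aestronglyMeasurable
    (∑ a : Fin M ⊕ Fin n, |(bq a : ℝ)| * ρ ^ 2) ?_
  filter_upwards [h.huu] with X hX
  rw [Real.norm_eq_abs, abs_of_nonneg S2_nonneg]
  exact Finset.sum_le_sum fun a _ => mul_le_mul_of_nonneg_left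
    (pow_le_pow_left₀ (norm_nonneg _) (hX a) 2) (abs_nonneg _)

lemma intv (h : Cell Y π ρ pb s) : Integrable (fun X => vdip Y X) π := by
  have := h.prob
  refine Integrable.of_bound measurable_vdip.aestronglyMeasurable
    (∑ a : Fin M ⊕ Fin n, ρ) ?_
  filter_upwards [h.huu] with X hX
  rw [← sum_bq_smul]
  refine (norm_sum_le _ _).trans (Finset.sum_le_sum fun a _ => ?_)
  rw [norm_smul, Real.norm_eq_abs, abs_bq, one_mul]
  exact hX a

end Cell

/-! ### the multipole expansions in relative coordinates -/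

/-- the inequalities of `S_mult` with the constant `C` -/
def MultC (C : ℝ) : Prop :=
  ∀ (n n' : Type) [Fintype n] [Fintype n'] (q : n → ℝ) (q' : n' → ℝ)
    (x : n → E3) (x' : n' → E3) (z z' : E3), z ≠ z' →
    (∀ i, ‖x i - z‖ ≤ ‖z - z'‖ / 4) → (∀ i, ‖x' i - z'‖ ≤ ‖z - z'‖ / 4) →
    ((∑ i, q i = 0 → ∑ i, q' i = 0 →
      |(∑ i, ∑ j, q i * q' j * cou (x i) (x' j))
        - inner ℝ (Tvec (z - z') (∑ i, q i • (x i - z))) (∑ i, q' i • (x' i - z'))|
      ≤ C / ‖z - z'‖ ^ 4 *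
        ((∑ i, |q i| * ‖x i - z‖) * (∑ i, |q' i| * ‖x' i - z'‖ ^ 2)
        + (∑ i, |q i| * ‖x i - z‖ ^ 2) * (∑ i, |q' i| * ‖x' i - z'‖))) ∧
    (∑ i, q i = 0 →
      |(∑ i, ∑ j, q i * q' j * cou (x i) (x' j))
        + (∑ i, q' i) * inner ℝ (∑ i, q i • (x i - z)) (z - z') / ‖z - z'‖ ^ 3|
      ≤ C / ‖z - z'‖ ^ 3 *
        ((∑ i, |q i| * ‖x i - z‖) * (∑ i, |q' i| * ‖x' i - z'‖)
        + (∑ i, |q i| * ‖x i - z‖ ^ 2) * (∑ i, |q' i|))) ∧
    |(∑ i, ∑ j, q i * q' j * cou (x i) (x' j)) - (∑ i, q i) * (∑ i, q' i) / ‖z - z'‖|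
      ≤ C / ‖z - z'‖ ^ 2 *
        ((∑ i, |q i| * ‖x i - z‖) * (∑ i, |q' i|)
        + (∑ i, |q i|) * (∑ i, |q' i| * ‖x' i - z'‖)))

section
variable {M n M' n' : ℕ} {Y : Fin M → E3} {Y' : Fin M' → E3} {X : Fin n → Om}
  {X' : Fin n' → Om} {z z' : E3} {C : ℝ}

lemma hh_comm : hh Y z Y' z' X X' = hh Y' z' Y z X' X := by
  unfold hh
  rw [Finset.sum_comm]
  refine Finset.sum_congr rfl fun b _ => Finset.sum_congr rfl fun a _ => ?_
  rw [mul_comm (bq a : ℝ)]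
  congr 1
  unfold cou
  rw [norm_sub_rev]

lemma hh_pt (hC : MultC C) (hz : z ≠ z') (h : ∀ a, ‖uu Y X a‖ ≤ ‖z - z'‖ / 4)
    (h' : ∀ a, ‖uu Y' X' a‖ ≤ ‖z - z'‖ / 4) :
    ((M : ℝ) = n → (M' : ℝ) = n' →
      |hh Y z Y' z' X X' - inner ℝ (Tvec (z - z') (vdip Y X)) (vdip Y' X')|
      ≤ C / ‖z - z'‖ ^ 4 * (S1 Y X * S2 Y' X' + S2 Y X * S1 Y' X')) ∧
    ((M : ℝ) = n →
      |hh Y z Y' z' X X' + ((M' : ℝ) - n') * inner ℝ (vdip Y X) (z - z') / ‖z - z'‖ ^ 3|
      ≤ C / ‖z - z'‖ ^ 3 * (S1 Y X * S1 Y' X' + S2 Y X * (M' + n'))) ∧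
    |hh Y z Y' z' X X' - ((M : ℝ) - n) * ((M' : ℝ) - n') / ‖z - z'‖|
      ≤ C / ‖z - z'‖ ^ 2 * (S1 Y X * (M' + n') + (M + n) * S1 Y' X') := by
  have H := hC (Fin M ⊕ Fin n) (Fin M' ⊕ Fin n') bq bq (fun a => z + uu Y X a)
    (fun b => z' + uu Y' X' b) z z' hz (by simpa using h) (by simpa using h')
  simp only [add_sub_cancel_left, sum_bq, sum_abs_bq, sum_bq_smul] at H
  refine ⟨fun h1 h2 => H.1 (by linarith) (by linarith), fun h1 => H.2.1 (by linarith), H.2.2⟩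

end

/-- the tensor as a continuous linear map -/
def TL (w : E3) : E3 →L[ℝ] E3 :=
  (1 / ‖w‖ ^ 3) • (ContinuousLinearMap.id ℝ E3 - (3 / ‖w‖ ^ 2) • (innerSL ℝ w).smulRight w)

lemma TL_apply (w a : E3) : TL w a = Tvec w a := by
  unfold TL Tvec
  simp only [_root_.smul_apply, _root_.sub_apply,
    ContinuousLinearMap.id_apply, ContinuousLinearMap.smulRight_apply, innerSL_apply_apply, smul_smul]
  rw [real_inner_comm w a]
  congr 3
  ring

namespace Cell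

variable {M n M' n' : ℕ} {Y : Fin M → E3} {Y' : Fin M' → E3} {π : Measure (Fin n → Om)}
  {π' : Measure (Fin n' → Om)} {ρ ρ' : ℝ} {pb pb' : E3} {s s' : ℝ} {z z' : E3} {C : ℝ}

/-- two neutral cells -/
lemma cross_nn (hC : MultC C) (hC0 : 0 ≤ C) (h : Cell Y π ρ pb s) (h' : Cell Y' π' ρ' pb' s')
    (hz : z ≠ z') (hr : ρ ≤ ‖z - z'‖ / 4) (hr' : ρ' ≤ ‖z - z'‖ / 4)
    (hn : (M : ℝ) = n) (hn' : (M' : ℝ) = n') :
    |∫ X, ∫ X', hh Y z Y' z' X X' ∂π' ∂π - inner ℝ (Tvec (z - z') pb) pb'| ≤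
      C / ‖z - z'‖ ^ 4 * (s * s' + s * s') := by
  have := h.prob
  have := h'.prob
  have hc : 0 ≤ C / ‖z - z'‖ ^ 4 := by positivity
  have hs' : 0 ≤ s' := (integral_nonneg fun _ => S1_nonneg).trans h'.m1
  refine two_var (m := fun X X' => inner ℝ (Tvec (z - z') (vdip Y X)) (vdip Y' X'))
    (e := fun X X' => C / ‖z - z'‖ ^ 4 * (S1 Y X * S2 Y' X' + S2 Y X * S1 Y' X'))
    (mb := fun X => inner ℝ (Tvec (z - z') (vdip Y X)) pb')
    (eb := fun X => C / ‖z - z'‖ ^ 4 * (S1 Y X * s' + S2 Y X * s'))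
    measurable_hh (fun X => h'.intv.const_inner _) ?_ ?_ ?_ ?_ ?_ ?_ ?_ ?_
  · intro X
    exact ((h'.int2.const_mul _).add (h'.int1.const_mul _)).const_mul _
  · filter_upwards [h.huu] with X hX
    filter_upwards [h'.huu] with X' hX'
    exact (hh_pt hC hz (fun a => (hX a).trans hr) (fun a => (hX' a).trans hr')).1 hn hn'
  · intro X
    rw [integral_inner h'.intv, h'.mean]
  · intro X
    rw [integral_const_mul, integral_add (h'.int2.const_mul _) (h'.int1.const_mul _),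
      integral_const_mul, integral_const_mul]
    refine mul_le_mul_of_nonneg_left (add_le_add ?_ ?_) hc
    · exact mul_le_mul_of_nonneg_left h'.m2 S1_nonneg
    · exact mul_le_mul_of_nonneg_left h'.m1 S2_nonneg
  · simp only [← TL_apply]
    exact ((TL (z - z')).integrable_comp h.intv).inner_const _
  · exact ((h.int1.mul_const _).add (h.int2.mul_const _)).const_mul _
  · simp only [← TL_apply]
    have e1 : (fun X : Fin n → Om => inner ℝ (TL (z - z') (vdip Y X)) pb') =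
        fun X => inner ℝ pb' (TL (z - z') (vdip Y X)) := by
      funext X
      rw [real_inner_comm]
    rw [e1, integral_inner ((TL (z - z')).integrable_comp h.intv),
      ContinuousLinearMap.integral_comp_comm _ h.intv, h.mean, real_inner_comm]
  · rw [integral_const_mul, integral_add (h.int1.mul_const _) (h.int2.mul_const _),
      integral_mul_const, integral_mul_const]
    refine mul_le_mul_of_nonneg_left (add_le_add ?_ ?_) hc
    · exact mul_le_mul_of_nonneg_right h.m1 hs'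
    · exact mul_le_mul_of_nonneg_right h.m2 hs'

/-- a neutral and a charged cell -/
lemma cross_nc (hC : MultC C) (hC0 : 0 ≤ C) (h : Cell Y π ρ pb s) (h' : Cell Y' π' ρ' pb' s')
    (hz : z ≠ z') (hr : ρ ≤ ‖z - z'‖ / 4) (hr' : ρ' ≤ ‖z - z'‖ / 4) (hn : (M : ℝ) = n) :
    |∫ X, ∫ X', hh Y z Y' z' X X' ∂π' ∂π
        - (-(((M' : ℝ) - n') * inner ℝ pb (z - z') / ‖z - z'‖ ^ 3))| ≤
      C / ‖z - z'‖ ^ 3 * (s * s' + s * (M' + n')) := by
  have := h.prob
  have := h'.prob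
  have hc : 0 ≤ C / ‖z - z'‖ ^ 3 := by positivity
  have hs' : 0 ≤ s' := (integral_nonneg fun _ => S1_nonneg).trans h'.m1
  have hi : Integrable (fun X => inner ℝ (vdip Y X) (z - z')) π := h.intv.inner_const _
  refine two_var
    (m := fun X _ => -(((M' : ℝ) - n') * inner ℝ (vdip Y X) (z - z') / ‖z - z'‖ ^ 3))
    (e := fun X X' => C / ‖z - z'‖ ^ 3 * (S1 Y X * S1 Y' X' + S2 Y X * (M' + n')))
    (mb := fun X => -(((M' : ℝ) - n') * inner ℝ (vdip Y X) (z - z') / ‖z - z'‖ ^ 3))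
    (eb := fun X => C / ‖z - z'‖ ^ 3 * (S1 Y X * s' + S2 Y X * (M' + n')))
    measurable_hh (fun X => integrable_const _) ?_ ?_ ?_ ?_ ?_ ?_ ?_ ?_
  · intro X
    exact ((h'.int1.const_mul _).add (integrable_const _)).const_mul _
  · filter_upwards [h.huu] with X hX
    filter_upwards [h'.huu] with X' hX'
    have := (hh_pt hC hz (fun a => (hX a).trans hr) (fun a => (hX' a).trans hr')).2.1 hn
    rwa [sub_neg_eq_add]
  · intro X
    simp
  · intro X
    rw [integral_const_mul, integral_add (h'.int1.const_mul _) (integrable_const _),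
      integral_const_mul, integral_const]
    simp only [probReal_univ, one_smul]
    refine mul_le_mul_of_nonneg_left (add_le_add ?_ le_rfl) hc
    exact mul_le_mul_of_nonneg_left h'.m1 S1_nonneg
  · exact ((hi.const_mul _).div_const _).neg
  · exact ((h.int1.mul_const _).add (h.int2.mul_const _)).const_mul _
  · rw [integral_neg, integral_div, integral_const_mul]
    have e1 : (fun X : Fin n → Om => inner ℝ (vdip Y X) (z - z')) =
        fun X => inner ℝ (z - z') (vdip Y X) := by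
      funext X
      rw [real_inner_comm]
    rw [e1, integral_inner h.intv, h.mean, real_inner_comm]
  · rw [integral_const_mul, integral_add (h.int1.mul_const _) (h.int2.mul_const _),
      integral_mul_const, integral_mul_const]
    refine mul_le_mul_of_nonneg_left (add_le_add ?_ ?_) hc
    · exact mul_le_mul_of_nonneg_right h.m1 hs'
    · exact mul_le_mul_of_nonneg_right h.m2 (by positivity)

/-- a charged and a neutral cell -/
lemma cross_cn (hC : MultC C) (hC0 : 0 ≤ C) (h : Cell Y π ρ pb s) (h' : Cell Y' π' ρ' pb' s')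
    (hz : z ≠ z') (hr : ρ ≤ ‖z - z'‖ / 4) (hr' : ρ' ≤ ‖z - z'‖ / 4) (hn : (M' : ℝ) = n') :
    |∫ X, ∫ X', hh Y z Y' z' X X' ∂π' ∂π
        - (-(((M : ℝ) - n) * inner ℝ pb' (z' - z) / ‖z - z'‖ ^ 3))| ≤
      C / ‖z - z'‖ ^ 3 * (s' * s + s' * (M + n)) := by
  have := h.prob
  have := h'.prob
  have hc : 0 ≤ C / ‖z - z'‖ ^ 3 := by positivity
  have hs : 0 ≤ s := (integral_nonneg fun _ => S1_nonneg).trans h.m1
  have hs' : 0 ≤ s' := (integral_nonneg fun _ => S1_nonneg).trans h'.m1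
  have hi : Integrable (fun X => inner ℝ (vdip Y' X) (z' - z)) π' := h'.intv.inner_const _
  refine two_var
    (m := fun _ X' => -(((M : ℝ) - n) * inner ℝ (vdip Y' X') (z' - z) / ‖z - z'‖ ^ 3))
    (e := fun X X' => C / ‖z - z'‖ ^ 3 * (S1 Y' X' * S1 Y X + S2 Y' X' * (M + n)))
    (mb := fun _ => -(((M : ℝ) - n) * inner ℝ pb' (z' - z) / ‖z - z'‖ ^ 3))
    (eb := fun X => C / ‖z - z'‖ ^ 3 * (s' * S1 Y X + s' * (M + n)))
    measurable_hh (fun X => ((hi.const_mul _).div_const _).neg) ?_ ?_ ?_ ?_ ?_ ?_ ?_ ?_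
  · intro X
    exact ((h'.int1.mul_const _).add (h'.int2.mul_const _)).const_mul _
  · filter_upwards [h.huu] with X hX
    filter_upwards [h'.huu] with X' hX'
    have := (hh_pt hC hz.symm (fun a => (hX' a).trans (by rwa [norm_sub_rev]))
      (fun a => (hX a).trans (by rwa [norm_sub_rev]))).2.1 hn
    rw [hh_comm, norm_sub_rev z z']
    rwa [sub_neg_eq_add]
  · intro X
    rw [integral_neg, integral_div, integral_const_mul]
    have e1 : (fun X : Fin n' → Om => inner ℝ (vdip Y' X) (z' - z)) =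
        fun X => inner ℝ (z' - z) (vdip Y' X) := by
      funext X
      rw [real_inner_comm]
    rw [e1, integral_inner h'.intv, h'.mean, real_inner_comm]
  · intro X
    rw [integral_const_mul, integral_add (h'.int1.mul_const _) (h'.int2.mul_const _),
      integral_mul_const, integral_mul_const]
    refine mul_le_mul_of_nonneg_left (add_le_add ?_ ?_) hc
    · exact mul_le_mul_of_nonneg_right h'.m1 S1_nonneg
    · exact mul_le_mul_of_nonneg_right h'.m2 (by positivity)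
  · exact integrable_const _
  · exact ((h.int1.const_mul _).add (integrable_const _)).const_mul _
  · simp
  · rw [integral_const_mul, integral_add (h.int1.const_mul _) (integrable_const _),
      integral_const_mul, integral_const]
    simp only [probReal_univ, one_smul]
    refine mul_le_mul_of_nonneg_left (add_le_add ?_ le_rfl) hc
    exact mul_le_mul_of_nonneg_left h.m1 hs'

/-- two charged cells -/
lemma cross_cc (hC : MultC C) (hC0 : 0 ≤ C) (h : Cell Y π ρ pb s) (h' : Cell Y' π' ρ' pb' s')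
    (hz : z ≠ z') (hr : ρ ≤ ‖z - z'‖ / 4) (hr' : ρ' ≤ ‖z - z'‖ / 4) :
    |∫ X, ∫ X', hh Y z Y' z' X X' ∂π' ∂π - ((M : ℝ) - n) * ((M' : ℝ) - n') / ‖z - z'‖| ≤
      C / ‖z - z'‖ ^ 2 * (s * (M' + n') + (M + n) * s') := by
  have := h.prob
  have := h'.prob
  have hc : 0 ≤ C / ‖z - z'‖ ^ 2 := by positivity
  refine two_var
    (m := fun _ _ => ((M : ℝ) - n) * ((M' : ℝ) - n') / ‖z - z'‖)
    (e := fun X X' => C / ‖z - z'‖ ^ 2 * (S1 Y X * (M' + n') + (M + n) * S1 Y' X'))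
    (mb := fun _ => ((M : ℝ) - n) * ((M' : ℝ) - n') / ‖z - z'‖)
    (eb := fun X => C / ‖z - z'‖ ^ 2 * (S1 Y X * (M' + n') + (M + n) * s'))
    measurable_hh (fun X => integrable_const _) ?_ ?_ ?_ ?_ ?_ ?_ ?_ ?_
  · intro X
    exact ((integrable_const _).add (h'.int1.const_mul _)).const_mul _
  · filter_upwards [h.huu] with X hX
    filter_upwards [h'.huu] with X' hX'
    exact (hh_pt hC hz (fun a => (hX a).trans hr) (fun a => (hX' a).trans hr')).2.2
  · intro X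
    simp
  · intro X
    rw [integral_const_mul, integral_add (integrable_const _) (h'.int1.const_mul _),
      integral_const, integral_const_mul]
    simp only [probReal_univ, one_smul]
    refine mul_le_mul_of_nonneg_left (add_le_add le_rfl ?_) hc
    exact mul_le_mul_of_nonneg_left h'.m1 (by positivity)
  · exact integrable_const _
  · exact ((h.int1.mul_const _).add (integrable_const _)).const_mul _
  · simp
  · rw [integral_const_mul, integral_add (h.int1.mul_const _) (integrable_const _),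
      integral_mul_const, integral_const]
    simp only [probReal_univ, one_smul]
    refine mul_le_mul_of_nonneg_left (add_le_add ?_ le_rfl) hc
    exact mul_le_mul_of_nonneg_right h.m1 (by positivity)

end Cell

/-! ### existence of the cells -/

lemma jensen {Ω : Type} [MeasurableSpace Ω] {π : Measure Ω} [IsProbabilityMeasure π]
    {f : Ω → E3} (hf : Integrable f π) (hf2 : Integrable (fun X => ‖f X‖ ^ 2) π) :
    ‖∫ X, f X ∂π‖ ^ 2 ≤ ∫ X, ‖f X‖ ^ 2 ∂π := by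
  set c := ∫ X, f X ∂π with hc
  have h0 : 0 ≤ ∫ X, ‖f X - c‖ ^ 2 ∂π := integral_nonneg fun X => sq_nonneg _
  have e : (fun X => ‖f X - c‖ ^ 2) = fun X => (‖f X‖ ^ 2 - 2 * inner ℝ c (f X)) + ‖c‖ ^ 2 := by
    funext X
    rw [norm_sub_sq_real, real_inner_comm]
  have hA : Integrable (fun X => ‖f X‖ ^ 2 - 2 * inner ℝ c (f X)) π :=
    hf2.sub ((hf.const_inner c).const_mul 2)
  rw [e, integral_add hA (integrable_const _),
    integral_sub hf2 ((hf.const_inner c).const_mul 2), integral_const_mul, integral_inner hf,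
    integral_const, ← hc, real_inner_self_eq_norm_sq] at h0
  simp only [probReal_univ, one_smul] at h0
  linarith

lemma bdd_int {n : ℕ} {π : Measure (Fin n → Om)} [IsProbabilityMeasure π] {ρ : ℝ}
    (hX : ∀ᵐ X ∂π, ∀ j, ‖(X j).1‖ ≤ ρ) :
    Integrable (fun X : Fin n → Om => ∑ j, ‖(X j).1‖ ^ 4) π := by
  refine Integrable.of_bound (Finset.measurable_sum _ fun j _ =>
    ((measurable_pi_apply j).fst.norm.pow_const 4)).aestronglyMeasurable (∑ _j : Fin n, ρ ^ 4) ?_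
  filter_upwards [hX] with X hX
  rw [Real.norm_eq_abs, abs_of_nonneg (Finset.sum_nonneg fun j _ => by positivity)]
  exact Finset.sum_le_sum fun j _ => pow_le_pow_left₀ (norm_nonneg _) (hX j) 4

lemma S1_le {M n : ℕ} (Y : Fin M → E3) (X : Fin n → Om) :
    S1 Y X ≤ (∑ m, (‖Y m‖ + ‖Y m‖ ^ 2) + n) + ∑ j, ‖(X j).1‖ ^ 4 := by
  have h1 : ∑ m, ‖Y m‖ ≤ ∑ m, (‖Y m‖ + ‖Y m‖ ^ 2) :=
    Finset.sum_le_sum fun m _ => by nlinarith [sq_nonneg ‖Y m‖]
  have h2 : ∑ j, ‖(X j).1‖ ≤ ∑ j : Fin n, (1 + ‖(X j).1‖ ^ 4) :=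
    Finset.sum_le_sum fun j _ => by
      nlinarith [sq_nonneg (‖(X j).1‖ - 1 / 2), sq_nonneg (‖(X j).1‖ ^ 2 - 1 / 2),
        norm_nonneg (X j).1]
  rw [Finset.sum_add_distrib] at h2
  simp only [Finset.sum_const, Finset.card_univ, Fintype.card_fin, nsmul_eq_mul, mul_one] at h2
  rw [S1_eq]
  linarith

lemma S2_le {M n : ℕ} (Y : Fin M → E3) (X : Fin n → Om) :
    S2 Y X ≤ (∑ m, (‖Y m‖ + ‖Y m‖ ^ 2) + n) + ∑ j, ‖(X j).1‖ ^ 4 := by
  have h1 : ∑ m, ‖Y m‖ ^ 2 ≤ ∑ m, (‖Y m‖ + ‖Y m‖ ^ 2) :=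
    Finset.sum_le_sum fun m _ => by linarith [norm_nonneg (Y m)]
  have h2 : ∑ j, ‖(X j).1‖ ^ 2 ≤ ∑ j : Fin n, (1 + ‖(X j).1‖ ^ 4) :=
    Finset.sum_le_sum fun j _ => by
      nlinarith [sq_nonneg (‖(X j).1‖ ^ 2 - 1 / 2)]
  rw [Finset.sum_add_distrib] at h2
  simp only [Finset.sum_const, Finset.card_univ, Fintype.card_fin, nsmul_eq_mul, mul_one] at h2
  rw [S2_eq]
  linarith

/-- the cell of a good molecule -/
lemma exists_cellB (hlc : S_lc) (hmom : S_mom) {Z : ℕ} {B : Fin Z → E3} {P : E3} {ε₁ CB g : ℝ}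
    (hB : GoodB B P ε₁ CB) (hg : 0 < g) (hgap : g ≤ En (Z - 1) B - En Z B) :
    ∃ s e1 δ1 D : ℝ, 0 ≤ s ∧ 0 ≤ e1 ∧ 0 ≤ δ1 ∧ ∀ d : ℝ, D ≤ d → 1 ≤ d →
      ∃ (φ : (Fin Z → Om) → ℝ) (pb : E3), WF φ ∧ nsq φ = 1 ∧
        (∀ X, φ X ≠ 0 → ∀ j, ‖(X j).1‖ ≤ d / 64) ∧ Qf B φ ≤ En Z B + e1 / d ^ 6 ∧
        Cell B (pr φ) (d / 64) pb s ∧ ‖pb - P‖ ≤ Real.sqrt ε₁ * ‖P‖ + δ1 / d ^ 2 := by
  obtain ⟨hZ, hCB, hε, hε1, hP, hinj, hB⟩ := hB
  obtain ⟨CM, hCM, hmom⟩ := hmom Z B g hZ hg hgap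
  refine ⟨∑ m, (‖B m‖ + ‖B m‖ ^ 2) + Z + CB * (1 + CM), CM * 64 ^ 6,
    Real.sqrt (CB * CM) * 64 ^ 2, max (64 * ∑ m, ‖B m‖) (max (64 * CM) (64 * CB)), ?_, ?_, ?_, ?_⟩
  · have : 0 ≤ ∑ m, (‖B m‖ + ‖B m‖ ^ 2) := Finset.sum_nonneg fun m _ => by positivity
    positivity
  · positivity
  · positivity
  intro d hD hd1
  have hD1 : 64 * ∑ m, ‖B m‖ ≤ d := (le_max_left _ _).trans hD
  have hD2 : 64 * CM ≤ d := ((le_max_left _ _).trans (le_max_right _ _)).trans hD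
  have hD3 : 64 * CB ≤ d := ((le_max_right _ _).trans (le_max_right _ _)).trans hD
  have hρ : CM ≤ d / 64 := by linarith
  have hρB : CB ≤ d / 64 := by linarith
  have hρ1 : 1 ≤ d / 64 := by linarith
  have hd0 : 0 < d := by linarith
  obtain ⟨φ, hφ, hφ1, hsupp, hQ⟩ := (hmom (d / 64) hρ).2
  obtain ⟨G1, G2, G3⟩ := hB (d / 64) hρB φ hφ hφ1 hsupp
  obtain ⟨hmeas, -, -, -, -, -, hint⟩ := hlc (Fin Z) φ hφ.toLC
  have hpr := pr_prob hint hφ1
  have hae := pr_ae hmeas hsupp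
  rw [expv_eq hmeas] at G1 G2
  have hexc : (d / 64) ^ 2 * (Qf B φ - En Z B) ≤ CM / (d / 64) ^ 4 := by
    have h1 : Qf B φ - En Z B ≤ CM / (d / 64) ^ 6 := by linarith
    calc (d / 64) ^ 2 * (Qf B φ - En Z B) ≤ (d / 64) ^ 2 * (CM / (d / 64) ^ 6) :=
          mul_le_mul_of_nonneg_left h1 (by positivity)
      _ = CM / (d / 64) ^ 4 := by field_simp
  have hexc4 : (d / 64) ^ 4 * (Qf B φ - En Z B) ≤ CM := by
    have h1 : Qf B φ - En Z B ≤ CM / (d / 64) ^ 6 := by linarith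
    calc (d / 64) ^ 4 * (Qf B φ - En Z B) ≤ (d / 64) ^ 4 * (CM / (d / 64) ^ 6) :=
          mul_le_mul_of_nonneg_left h1 (by positivity)
      _ = CM / (d / 64) ^ 2 := by field_simp
      _ ≤ CM / 1 := by
          apply div_le_div_of_nonneg_left (by positivity) one_pos
          exact one_le_pow₀ hρ1
      _ = CM := div_one _
  have hYr : ∀ m, ‖B m‖ ≤ d / 64 := by
    intro m
    have := Finset.single_le_sum (f := fun m => ‖B m‖) (fun i _ => norm_nonneg _)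
      (Finset.mem_univ m)
    linarith
  have h4 : ∫ X, ∑ j, ‖(X j).1‖ ^ 4 ∂(pr φ) ≤ CB * (1 + CM) := by
    refine G2.trans (mul_le_mul_of_nonneg_left ?_ (by linarith))
    linarith
  have hi4 := bdd_int hae
  have hCell0 : Cell B (pr φ) (d / 64) (∫ X, vdip B X ∂(pr φ))
      (max (∫ X, S1 B X ∂(pr φ)) (∫ X, S2 B X ∂(pr φ))) :=
    ⟨hpr, hYr, hae, rfl, le_max_left _ _, le_max_right _ _⟩
  have hm1 : ∫ X, S1 B X ∂(pr φ) ≤ ∑ m, (‖B m‖ + ‖B m‖ ^ 2) + Z + CB * (1 + CM) := by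
    calc ∫ X, S1 B X ∂(pr φ)
        ≤ ∫ X, ((∑ m, (‖B m‖ + ‖B m‖ ^ 2) + Z) + ∑ j, ‖(X j).1‖ ^ 4) ∂(pr φ) :=
          integral_mono hCell0.int1 ((integrable_const _).add hi4) (fun X => S1_le B X)
      _ = (∑ m, (‖B m‖ + ‖B m‖ ^ 2) + Z) + ∫ X, ∑ j, ‖(X j).1‖ ^ 4 ∂(pr φ) := by
          rw [integral_add (integrable_const _) hi4, integral_const]
          simp only [probReal_univ, one_smul]
      _ ≤ _ := by linarith
  have hm2 : ∫ X, S2 B X ∂(pr φ) ≤ ∑ m, (‖B m‖ + ‖B m‖ ^ 2) + Z + CB * (1 + CM) := by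
    calc ∫ X, S2 B X ∂(pr φ)
        ≤ ∫ X, ((∑ m, (‖B m‖ + ‖B m‖ ^ 2) + Z) + ∑ j, ‖(X j).1‖ ^ 4) ∂(pr φ) :=
          integral_mono hCell0.int2 ((integrable_const _).add hi4) (fun X => S2_le B X)
      _ = (∑ m, (‖B m‖ + ‖B m‖ ^ 2) + Z) + ∫ X, ∑ j, ‖(X j).1‖ ^ 4 ∂(pr φ) := by
          rw [integral_add (integrable_const _) hi4, integral_const]
          simp only [probReal_univ, one_smul]
      _ ≤ _ := by linarith
  refine ⟨φ, ∫ X, vdip B X ∂(pr φ), hφ, hφ1, hsupp, ?_, ⟨hpr, hYr, hae, rfl, hm1, hm2⟩, ?_⟩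
  · refine hQ.trans (le_of_eq ?_)
    congr 1
    field_simp
  · have hv : Integrable (fun X => vdip B X - P) (pr φ) := hCell0.intv.sub (integrable_const _)
    have hv2 : Integrable (fun X => ‖vdip B X - P‖ ^ 2) (pr φ) := by
      refine Integrable.of_bound ((measurable_vdip.sub_const P).norm.pow_const
        2).aestronglyMeasurable ((∑ _a : Fin Z ⊕ Fin Z, d / 64 + ‖P‖) ^ 2) ?_
      filter_upwards [hCell0.huu] with X hX
      rw [Real.norm_eq_abs, abs_of_nonneg (by positivity)]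
      refine pow_le_pow_left₀ (norm_nonneg _) ((norm_sub_le _ _).trans ?_) 2
      gcongr
      rw [← sum_bq_smul]
      refine (norm_sum_le _ _).trans (Finset.sum_le_sum fun a _ => ?_)
      rw [norm_smul, Real.norm_eq_abs, abs_bq, one_mul]
      exact hX a
    have hj := jensen hv hv2
    rw [integral_sub hCell0.intv (integrable_const _), integral_const] at hj
    simp only [probReal_univ, one_smul] at hj
    have h3 : ‖∫ X, vdip B X ∂(pr φ) - P‖ ^ 2 ≤ ε₁ * ‖P‖ ^ 2 + CB * (CM / (d / 64) ^ 4) := by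
      refine (hj.trans G1).trans ?_
      have := mul_le_mul_of_nonneg_left hexc (by linarith : 0 ≤ CB)
      linarith
    have h5 : ε₁ * ‖P‖ ^ 2 + CB * (CM / (d / 64) ^ 4) ≤
        (Real.sqrt ε₁ * ‖P‖ + Real.sqrt (CB * CM) * 64 ^ 2 / d ^ 2) ^ 2 := by
      have e1 : Real.sqrt ε₁ ^ 2 = ε₁ := Real.sq_sqrt hε.le
      have e2 : Real.sqrt (CB * CM) ^ 2 = CB * CM := Real.sq_sqrt (by positivity)
      have e3 : (Real.sqrt (CB * CM) * 64 ^ 2 / d ^ 2) ^ 2 = CB * (CM / (d / 64) ^ 4) := by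
        rw [div_pow, mul_pow, e2]
        field_simp
      rw [add_sq, mul_pow, e1, e3]
      have : 0 ≤ 2 * (Real.sqrt ε₁ * ‖P‖) * (Real.sqrt (CB * CM) * 64 ^ 2 / d ^ 2) := by positivity
      linarith
    exact (pow_le_pow_iff_left₀ (norm_nonneg _) (by positivity) two_ne_zero).1 (h3.trans h5)

/-! ### reference dipoles -/

/-- charges of a reference dipole -/
def dq : Bool → ℝ := fun b => if b then 1 else -1

/-- positions of the charges of a reference dipole -/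
def dpos (z P : E3) : Bool → E3 := fun b => if b then z + (1 / 2 : ℝ) • P else z - (1 / 2 : ℝ) • P

section
variable {z z' x P : E3} {C : ℝ}

lemma norm_half (P : E3) : ‖(1 / 2 : ℝ) • P‖ = ‖P‖ / 2 := by
  rw [norm_smul, Real.norm_eq_abs, abs_of_pos (by norm_num : (0 : ℝ) < 1 / 2)]
  ring

lemma dpos_sub (z P : E3) (b : Bool) : dpos z P b - z = dq b • ((1 / 2 : ℝ) • P) := by
  cases b <;> simp [dpos, dq, sub_eq_add_neg, add_comm, add_left_comm]

lemma norm_dpos_sub (z P : E3) (b : Bool) : ‖dpos z P b - z‖ = ‖P‖ / 2 := by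
  rw [dpos_sub, norm_smul, norm_half]
  cases b <;> simp [dq]

lemma sum_dq : ∑ b, dq b = 0 := by
  rw [Fintype.sum_bool]
  simp [dq]

lemma sum_dq_smul (z P : E3) : ∑ b, dq b • (dpos z P b - z) = P := by
  rw [Fintype.sum_bool, dpos_sub, dpos_sub]
  simp only [dq, if_true, Bool.false_eq_true, if_false, one_smul, neg_smul, smul_neg, neg_neg]
  rw [← add_smul]
  norm_num

lemma sum_dq_norm (z P : E3) : ∑ b, |dq b| * ‖dpos z P b - z‖ = ‖P‖ := by
  rw [Fintype.sum_bool, norm_dpos_sub, norm_dpos_sub]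
  simp only [dq, if_true, Bool.false_eq_true, if_false, abs_neg, abs_one]
  ring

lemma sum_dq_norm2 (z P : E3) : ∑ b, |dq b| * ‖dpos z P b - z‖ ^ 2 = ‖P‖ ^ 2 / 2 := by
  rw [Fintype.sum_bool, norm_dpos_sub, norm_dpos_sub]
  simp only [dq, if_true, Bool.false_eq_true, if_false, abs_neg, abs_one]
  ring

lemma DD_pt (hC : MultC C) (hz : z ≠ z') (hP : ‖P‖ / 2 ≤ ‖z - z'‖ / 4) :
    |DDk z P z' P - inner ℝ (Tvec (z - z') P) P| ≤ C / ‖z - z'‖ ^ 4 * ‖P‖ ^ 3 := by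
  have H := (hC Bool Bool dq dq (dpos z P) (dpos z' P) z z' hz
    (fun b => by rw [norm_dpos_sub]; exact hP) (fun b => by rw [norm_dpos_sub]; exact hP)).1
    sum_dq sum_dq
  rw [sum_dq_smul, sum_dq_smul, sum_dq_norm, sum_dq_norm, sum_dq_norm2, sum_dq_norm2] at H
  have e : (∑ i, ∑ j, dq i * dq j * cou (dpos z P i) (dpos z' P j)) = DDk z P z' P := by
    simp only [Fintype.sum_bool, dq, dpos, if_true, Bool.false_eq_true, if_false, DDk]
    ring
  rw [e] at H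
  refine H.trans (le_of_eq ?_)
  ring

lemma D_pt (hC : MultC C) (hz : z ≠ x) (hP : ‖P‖ / 2 ≤ ‖z - x‖ / 4) :
    |(cou x (z + (1 / 2 : ℝ) • P) - cou x (z - (1 / 2 : ℝ) • P))
      + inner ℝ P (z - x) / ‖z - x‖ ^ 3| ≤ C / ‖z - x‖ ^ 3 * (‖P‖ ^ 2 / 2) := by
  have H := (hC Bool Unit dq (fun _ => 1) (dpos z P) (fun _ => x) z x hz
    (fun b => by rw [norm_dpos_sub]; exact hP)
    (fun b => by simp only [sub_self, norm_zero]; positivity)).2.1 sum_dq
  rw [sum_dq_smul, sum_dq_norm, sum_dq_norm2] at H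
  have e : (∑ i : Bool, ∑ _j : Unit, dq i * 1 * cou (dpos z P i) x) =
      cou x (z + (1 / 2 : ℝ) • P) - cou x (z - (1 / 2 : ℝ) • P) := by
    simp only [Fintype.sum_bool, dq, dpos, if_true, Bool.false_eq_true, if_false, cou,
      Finset.univ_unique, Finset.sum_const, Finset.card_singleton, one_smul]
    rw [norm_sub_rev (z + _) x, norm_sub_rev (z - _) x]
    ring
  rw [e] at H
  simpa using H

end

lemma Tvec_symm (w a b : E3) : (inner ℝ (Tvec w a) b : ℝ) = inner ℝ (Tvec w b) a := by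
  unfold Tvec
  rw [inner_smul_left, inner_smul_left, inner_sub_left, inner_sub_left, inner_smul_left,
    inner_smul_left, real_inner_comm b a, real_inner_comm b w, real_inner_comm a w]
  simp only [map_div₀, map_mul, conj_trivial]
  ring

lemma Tvec_diff (w a b : E3) :
    (inner ℝ (Tvec w a) a : ℝ) - inner ℝ (Tvec w b) b = inner ℝ (Tvec w (a - b)) (a + b) := by
  rw [← TL_apply, ← TL_apply, ← TL_apply, map_sub, inner_sub_left, inner_add_right,
    inner_add_right, TL_apply, TL_apply, Tvec_symm w b a]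
  ring

/-! ### the three sums -/

lemma claimA {I : Type} [Fintype I] [DecidableEq I] {z : I → E3} {LL DD : I → I → ℝ}
    {pb P : E3} {a4 b4 t4 tT : ℝ} (ha : 0 ≤ a4) (hb : 0 ≤ b4)
    (hLL : ∀ i j, i ≠ j → LL i j ≤ inner ℝ (Tvec (z i - z j) pb) pb + a4 / ‖z i - z j‖ ^ 4)
    (hDD : ∀ i j, i ≠ j → inner ℝ (Tvec (z i - z j) P) P - b4 / ‖z i - z j‖ ^ 4 ≤ DD i j)
    (h4 : ∀ i, (∑ j, if j = i then 0 else 1 / ‖z i - z j‖ ^ 4) ≤ t4)
    (hT : ∑ i, ‖∑ j, if j = i then 0 else Tvec (z i - z j) (pb - P)‖ ≤ tT) :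
    (∑ i, ∑ j, if i = j then 0 else LL i j) ≤ (∑ i, ∑ j, if i = j then 0 else DD i j)
      + tT * ‖pb + P‖ + (a4 + b4) * (Fintype.card I * t4) := by
  have h1 : ∀ i j, (if i = j then 0 else LL i j) ≤ (if i = j then 0 else DD i j) +
      inner ℝ (if j = i then 0 else Tvec (z i - z j) (pb - P)) (pb + P) +
      (a4 + b4) * (if j = i then 0 else 1 / ‖z i - z j‖ ^ 4) := by
    intro i j
    by_cases hij : i = j
    · subst hij
      simp
    · rw [if_neg hij, if_neg hij, if_neg (Ne.symm hij), if_neg (Ne.symm hij), ← Tvec_diff]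
      have e1 := hLL i j hij
      have e2 := hDD i j hij
      have e3 : (a4 + b4) * (1 / ‖z i - z j‖ ^ 4) =
        a4 / ‖z i - z j‖ ^ 4 + b4 / ‖z i - z j‖ ^ 4 := by ring
      rw [e3]
      linarith
  calc (∑ i, ∑ j, if i = j then 0 else LL i j)
      ≤ ∑ i, ∑ j, ((if i = j then 0 else DD i j) +
      inner ℝ (if j = i then 0 else Tvec (z i - z j) (pb - P)) (pb + P) +
      (a4 + b4) * (if j = i then 0 else 1 / ‖z i - z j‖ ^ 4)) :=
        Finset.sum_le_sum fun i _ => Finset.sum_le_sum fun j _ => h1 i j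
    _ = (∑ i, ∑ j, if i = j then 0 else DD i j)
        + ∑ i, inner ℝ (∑ j, if j = i then 0 else Tvec (z i - z j) (pb - P)) (pb + P)
        + ∑ i, (a4 + b4) * (∑ j, if j = i then 0 else 1 / ‖z i - z j‖ ^ 4) := by
        rw [← Finset.sum_add_distrib, ← Finset.sum_add_distrib]
        refine Finset.sum_congr rfl fun i _ => ?_
        rw [Finset.sum_add_distrib, Finset.sum_add_distrib, sum_inner, Finset.mul_sum]
    _ ≤ (∑ i, ∑ j, if i = j then 0 else DD i j) + tT * ‖pb + P‖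
        + (a4 + b4) * (Fintype.card I * t4) := by
        refine add_le_add (add_le_add le_rfl ?_) ?_
        · calc ∑ i, inner ℝ (∑ j, if j = i then 0 else Tvec (z i - z j) (pb - P)) (pb + P)
              ≤ ∑ i, ‖∑ j, if j = i then 0 else Tvec (z i - z j) (pb - P)‖ * ‖pb + P‖ :=
                Finset.sum_le_sum fun i _ => real_inner_le_norm _ _
            _ = (∑ i, ‖∑ j, if j = i then 0 else Tvec (z i - z j) (pb - P)‖) * ‖pb + P‖ := by
                rw [Finset.sum_mul]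
            _ ≤ tT * ‖pb + P‖ := mul_le_mul_of_nonneg_right hT (norm_nonneg _)
        · rw [← Finset.mul_sum]
          refine mul_le_mul_of_nonneg_left ?_ (by positivity)
          calc ∑ i, (∑ j, if j = i then 0 else 1 / ‖z i - z j‖ ^ 4) ≤ ∑ _i : I, t4 :=
                Finset.sum_le_sum fun i _ => h4 i
            _ = Fintype.card I * t4 := by simp

lemma claimB {I J : Type} [Fintype I] [Fintype J] {z : I → E3} {x : J → E3}
    {LE D : I → J → ℝ} {pb P : E3} {l a3 b3 r : ℝ} (ha : 0 ≤ a3) (hb : 0 ≤ b3) (hr : 0 < r)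
    (hLE : ∀ i b, LE i b ≤ l * inner ℝ pb (z i - x b) / ‖z i - x b‖ ^ 3
      + a3 / ‖z i - x b‖ ^ 3)
    (hD : ∀ i b, |D i b + inner ℝ P (z i - x b) / ‖z i - x b‖ ^ 3| ≤ b3 / ‖z i - x b‖ ^ 3)
    (hdist : ∀ i b, r ≤ ‖z i - x b‖) :
    (∑ i, ∑ b, LE i b) ≤ - l * (∑ b, ∑ i, D i b)
      + Fintype.card J * (Fintype.card I * (|l| * ‖pb - P‖ / r ^ 2 + (a3 + |l| * b3) / r ^ 3)) := by
  have h1 : ∀ i b, LE i b ≤ - l * D i b +
      (|l| * ‖pb - P‖ / r ^ 2 + (a3 + |l| * b3) / r ^ 3) := by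
    intro i b
    set w := z i - x b with hw
    have hwr : r ≤ ‖w‖ := hdist i b
    have hw0 : 0 < ‖w‖ := lt_of_lt_of_le hr hwr
    have e1 : l * inner ℝ pb w / ‖w‖ ^ 3 = - l * D i b + l * (inner ℝ (pb - P) w / ‖w‖ ^ 3)
        + l * (D i b + inner ℝ P w / ‖w‖ ^ 3) := by
      rw [inner_sub_left]
      ring
    have e2 : l * (inner ℝ (pb - P) w / ‖w‖ ^ 3) ≤ |l| * ‖pb - P‖ / r ^ 2 := by
      calc l * (inner ℝ (pb - P) w / ‖w‖ ^ 3) ≤ |l * (inner ℝ (pb - P) w / ‖w‖ ^ 3)| :=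
            le_abs_self _
        _ = |l| * (|inner ℝ (pb - P) w| / ‖w‖ ^ 3) := by
            rw [abs_mul, abs_div, abs_of_pos (pow_pos hw0 3)]
        _ ≤ |l| * (‖pb - P‖ * ‖w‖ / ‖w‖ ^ 3) := by
            gcongr
            exact abs_real_inner_le_norm _ _
        _ = |l| * ‖pb - P‖ / ‖w‖ ^ 2 := by
            field_simp
        _ ≤ |l| * ‖pb - P‖ / r ^ 2 := by gcongr
    have e3 : l * (D i b + inner ℝ P w / ‖w‖ ^ 3) ≤ |l| * b3 / r ^ 3 := by
      calc l * (D i b + inner ℝ P w / ‖w‖ ^ 3) ≤ |l * (D i b + inner ℝ P w / ‖w‖ ^ 3)| :=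
            le_abs_self _
        _ = |l| * |D i b + inner ℝ P w / ‖w‖ ^ 3| := abs_mul _ _
        _ ≤ |l| * (b3 / ‖w‖ ^ 3) := mul_le_mul_of_nonneg_left (hD i b) (abs_nonneg _)
        _ ≤ |l| * (b3 / r ^ 3) := by gcongr
        _ = |l| * b3 / r ^ 3 := by ring
    have e4 : a3 / ‖w‖ ^ 3 ≤ a3 / r ^ 3 := by gcongr
    have e5 := hLE i b
    rw [← hw, e1] at e5
    rw [add_div]
    linarith
  calc (∑ i, ∑ b, LE i b) ≤ ∑ i, ∑ b, (- l * D i b +
      (|l| * ‖pb - P‖ / r ^ 2 + (a3 + |l| * b3) / r ^ 3)) :=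
        Finset.sum_le_sum fun i _ => Finset.sum_le_sum fun b _ => h1 i b
    _ = _ := by
        simp only [Finset.sum_add_distrib, Finset.sum_const, Finset.card_univ, nsmul_eq_mul,
          ← Finset.mul_sum]
        rw [Finset.sum_comm]
        ring

lemma claimC {J : Type} [Fintype J] [DecidableEq J] {x : J → E3} {EE : J → J → ℝ}
    {l c2 t1 t2 : ℝ} (hc : 0 ≤ c2)
    (hEE : ∀ a b, a ≠ b → EE a b ≤ l ^ 2 / ‖x a - x b‖ + c2 / ‖x a - x b‖ ^ 2)
    (h1 : (∑ a, ∑ b, if a = b then 0 else 1 / ‖x a - x b‖) ≤ t1)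
    (h2 : (∑ a, ∑ b, if a = b then 0 else 1 / ‖x a - x b‖ ^ 2) ≤ t2) :
    (∑ a, ∑ b, if a = b then 0 else EE a b) ≤ l ^ 2 * t1 + c2 * t2 := by
  have h3 : ∀ a b, (if a = b then 0 else EE a b) ≤
      l ^ 2 * (if a = b then 0 else 1 / ‖x a - x b‖) +
      c2 * (if a = b then 0 else 1 / ‖x a - x b‖ ^ 2) := by
    intro a b
    by_cases hab : a = b
    · simp [hab]
    · rw [if_neg hab, if_neg hab, if_neg hab]
      refine (hEE a b hab).trans (le_of_eq ?_)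
      ring
  calc (∑ a, ∑ b, if a = b then 0 else EE a b)
      ≤ ∑ a, ∑ b, (l ^ 2 * (if a = b then 0 else 1 / ‖x a - x b‖) +
      c2 * (if a = b then 0 else 1 / ‖x a - x b‖ ^ 2)) :=
        Finset.sum_le_sum fun a _ => Finset.sum_le_sum fun b _ => h3 a b
    _ = l ^ 2 * (∑ a, ∑ b, if a = b then 0 else 1 / ‖x a - x b‖) +
        c2 * (∑ a, ∑ b, if a = b then 0 else 1 / ‖x a - x b‖ ^ 2) := by
        simp only [Finset.sum_add_distrib, ← Finset.mul_sum]
    _ ≤ l ^ 2 * t1 + c2 * t2 := by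
        gcongr

/-! ### arithmetic -/

lemma arith_D {D S t p δ1 d : ℝ} (hD0 : 0 ≤ D) (hD : D ≤ t * p + δ1 / d ^ 2) (hS : S ≤ 2 * p + D)
    (ht1 : t ≤ 1) (hp : 0 ≤ p) (hδ : 0 ≤ δ1) (hd : 1 ≤ d) :
    D * S ≤ 3 * t * p ^ 2 + (4 * p * δ1 + δ1 ^ 2) / d := by
  have hd0 : 0 < d := by linarith
  set δ := δ1 / d ^ 2 with hδd
  have hδ0 : 0 ≤ δ := by positivity
  have h1 : D * S ≤ (t * p + δ) * (3 * p + δ) := by
    have htp : t * p ≤ p := by nlinarith
    have hS2 : S ≤ 3 * p + δ := by linarith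
    calc D * S ≤ D * (3 * p + δ) := mul_le_mul_of_nonneg_left hS2 hD0
      _ ≤ (t * p + δ) * (3 * p + δ) := mul_le_mul_of_nonneg_right hD (by positivity)
  have h2 : δ ≤ δ1 / d := by
    rw [hδd]
    apply div_le_div_of_nonneg_left hδ hd0
    nlinarith
  have h3 : δ ^ 2 ≤ δ1 ^ 2 / d := by
    rw [hδd, div_pow]
    apply div_le_div_of_nonneg_left (by positivity) hd0
    calc d = d ^ 1 := (pow_one d).symm
      _ ≤ d ^ 4 := pow_le_pow_right₀ hd (by norm_num)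
      _ = (d ^ 2) ^ 2 := by ring
  have h4 : (t * p + δ) * (3 * p + δ) ≤ 3 * t * p ^ 2 + 4 * p * δ + δ ^ 2 := by
    have : t * p * δ ≤ p * δ := by
      have : t * p ≤ p := by nlinarith
      exact mul_le_mul_of_nonneg_right this hδ0
    nlinarith
  have h5 : 4 * p * δ ≤ 4 * p * (δ1 / d) := mul_le_mul_of_nonneg_left h2 (by positivity)
  have h6 : (4 * p * δ1 + δ1 ^ 2) / d = 4 * p * (δ1 / d) + δ1 ^ 2 / d := by ring
  rw [h6]
  linarith

lemma arith_LE {n3 K d D t p δ1 v a E3 : ℝ} (hK : 1 ≤ K) (hn3 : n3 ≤ 27 * K ^ 3)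
    (hd : 1 ≤ d) (hD0 : 0 ≤ D) (hD : D ≤ t * p + δ1 / d ^ 2) (ht : 0 ≤ t) (hp : 0 < p)
    (hδ : 0 ≤ δ1) (hv : p * K ≤ v * d ^ 2) (ha : 0 ≤ a) (hE : 0 ≤ E3) :
    n3 * (a * D / (d * K) ^ 2 + E3 / (d * K) ^ 3) ≤
      27 * a * t * v + (27 * a * δ1 * v / p + 27 * E3) / d := by
  have hd0 : 0 < d := by linarith
  have hK0 : 0 < K := by linarith
  have h1 : n3 * (a * D / (d * K) ^ 2 + E3 / (d * K) ^ 3) ≤
      27 * K ^ 3 * (a * D / (d * K) ^ 2 + E3 / (d * K) ^ 3) :=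
    mul_le_mul_of_nonneg_right hn3 (by positivity)
  have h2 : 27 * K ^ 3 * (a * D / (d * K) ^ 2 + E3 / (d * K) ^ 3) =
      27 * a * (D * K / d ^ 2) + 27 * E3 / d ^ 3 := by
    field_simp
  have h3 : D * K / d ^ 2 ≤ t * v + δ1 * v / p / d := by
    have e1 : D * K / d ^ 2 ≤ (t * p + δ1 / d ^ 2) * K / d ^ 2 := by gcongr
    have e2 : (t * p + δ1 / d ^ 2) * K / d ^ 2 =
        t * (p * K / d ^ 2) + δ1 / p * (p * K / d ^ 2) / d ^ 2 := by
      field_simp
    have e3 : p * K / d ^ 2 ≤ v := by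
      rw [div_le_iff₀ (by positivity)]
      exact hv
    have hv0 : 0 ≤ v := le_trans (by positivity) e3
    have e4 : t * (p * K / d ^ 2) ≤ t * v := mul_le_mul_of_nonneg_left e3 ht
    have e5 : δ1 / p * (p * K / d ^ 2) / d ^ 2 ≤ δ1 / p * v / d := by
      calc δ1 / p * (p * K / d ^ 2) / d ^ 2 ≤ δ1 / p * v / d ^ 2 := by gcongr
        _ ≤ δ1 / p * v / d := by
          apply div_le_div_of_nonneg_left (by positivity) hd0
          nlinarith
    have e6 : δ1 / p * v / d = δ1 * v / p / d := by ring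
    linarith
  have h4 : 27 * E3 / d ^ 3 ≤ 27 * E3 / d := by
    apply div_le_div_of_nonneg_left (by positivity) hd0
    calc d = d ^ 1 := (pow_one d).symm
      _ ≤ d ^ 3 := pow_le_pow_right₀ hd (by norm_num)
  have h5 : 27 * a * (D * K / d ^ 2) ≤ 27 * a * (t * v + δ1 * v / p / d) :=
    mul_le_mul_of_nonneg_left h3 (by positivity)
  have h6 : 27 * a * t * v + (27 * a * δ1 * v / p + 27 * E3) / d =
      27 * a * (t * v + δ1 * v / p / d) + 27 * E3 / d := by ring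
  rw [h6]
  linarith

/-! ### sums over the sites -/

lemma sum_sites {I J : Type} [Fintype I] [Fintype J] [DecidableEq I] [DecidableEq J]
    (F : I ⊕ J → I ⊕ J → ℝ) : (∑ k, ∑ k', if k = k' then 0 else F k k') =
      (∑ i, ∑ j, if i = j then 0 else F (Sum.inl i) (Sum.inl j))
      + (∑ i, ∑ b, F (Sum.inl i) (Sum.inr b)) + (∑ b, ∑ i, F (Sum.inr b) (Sum.inl i))
      + (∑ b, ∑ c, if b = c then 0 else F (Sum.inr b) (Sum.inr c)) := by
  rw [Fintype.sum_sum_type]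
  have h1 : ∀ i : I, (∑ k', if (Sum.inl i : I ⊕ J) = k' then 0 else F (Sum.inl i) k') =
      (∑ j, if i = j then 0 else F (Sum.inl i) (Sum.inl j)) + ∑ b, F (Sum.inl i) (Sum.inr b) := by
    intro i
    rw [Fintype.sum_sum_type]
    congr 1
    · refine Finset.sum_congr rfl fun j _ => ?_
      by_cases h : i = j
      · rw [if_pos h, if_pos (by rw [h])]
      · rw [if_neg h, if_neg (fun h' => h (Sum.inl.inj h'))]
  have h2 : ∀ b : J, (∑ k', if (Sum.inr b : I ⊕ J) = k' then 0 else F (Sum.inr b) k') =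
      (∑ i, F (Sum.inr b) (Sum.inl i)) + ∑ c, if b = c then 0 else F (Sum.inr b) (Sum.inr c) := by
    intro b
    rw [Fintype.sum_sum_type]
    congr 1
    · refine Finset.sum_congr rfl fun j _ => ?_
      by_cases h : b = j
      · rw [if_pos h, if_pos (by rw [h])]
      · rw [if_neg h, if_neg (fun h' => h (Sum.inr.inj h'))]
  simp only [h1, h2, Finset.sum_add_distrib]
  ring

/-- the trial functions -/
def aPhi (K q : ℕ) (d h : ℝ) (X0 : E3) {Z Ns : ℕ} (φB : (Fin Z → Om) → ℝ)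
    (φs : (Fin Ns → Om) → ℝ) : ∀ k : Sites K q, (Fin (aM K q Z Ns k) → Om) → ℝ
  | Sum.inl i => sh (zpos K d i) φB
  | Sum.inr b => sh (apos q h X0 b) φs

lemma DDk_zero_right (z P z' : E3) : DDk z P z' 0 = 0 := by
  unfold DDk
  simp

lemma DDk_zero_left (z z' P' : E3) : DDk z 0 z' P' = 0 := by
  unfold DDk
  simp

lemma DDsum_sites (K q : ℕ) (d h : ℝ) (X0 P : E3) :
    DDsum (az K q d h X0) (aP K q P) =
      (1 / 2) * ∑ i, ∑ j, if i = j then 0 else DDk (zpos K d i) P (zpos K d j) P := by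
  unfold DDsum
  rw [sum_sites]
  have h1 : (∑ i : Fin 3 → Fin (2 * K + 1), ∑ b : Fin 3 → Fin q,
      DDk (az K q d h X0 (Sum.inl i)) (aP K q P (Sum.inl i)) (az K q d h X0 (Sum.inr b))
        (aP K q P (Sum.inr b))) = 0 :=
    Finset.sum_eq_zero fun i _ => Finset.sum_eq_zero fun b _ => DDk_zero_right _ _ _
  have h2 : (∑ b : Fin 3 → Fin q, ∑ i : Fin 3 → Fin (2 * K + 1),
      DDk (az K q d h X0 (Sum.inr b)) (aP K q P (Sum.inr b)) (az K q d h X0 (Sum.inl i))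
        (aP K q P (Sum.inl i))) = 0 :=
    Finset.sum_eq_zero fun i _ => Finset.sum_eq_zero fun b _ => DDk_zero_left _ _ _
  have h3 : (∑ b : Fin 3 → Fin q, ∑ c : Fin 3 → Fin q, if b = c then 0 else
      DDk (az K q d h X0 (Sum.inr b)) (aP K q P (Sum.inr b)) (az K q d h X0 (Sum.inr c))
        (aP K q P (Sum.inr c))) = 0 := by
    refine Finset.sum_eq_zero fun i _ => Finset.sum_eq_zero fun b _ => ?_
    split_ifs
    · rfl
    · exact DDk_zero_left _ _ _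
  rw [h1, h2, h3]
  simp only [add_zero]
  rfl

lemma latPot_none (K : ℕ) (d : ℝ) (P x : E3) :
    latPot K d P none x = ∑ i, (cou x (zpos K d i + (1 / 2 : ℝ) • P)
      - cou x (zpos K d i - (1 / 2 : ℝ) • P)) := by
  unfold latPot
  refine Finset.sum_congr rfl fun i _ => ?_
  rw [if_neg (by simp)]
/-! ### the array -/

/-- all estimates for a given array -/
lemma array_bound (hlc : S_lc) (hshift : S_shift) (hup : S_upper) {C1 C2 C3 : ℝ}
    (hC1 : 1 ≤ C1) (hmult : MultC C1)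
    {Z : ℕ} {B : Fin Z → E3} {P : E3} {Ms Ns : ℕ} {Ys : Fin Ms → E3} {K q : ℕ} {d h : ℝ} {X0 : E3}
    {φB : (Fin Z → Om) → ℝ} {φs : (Fin Ns → Om) → ℝ} {pb ps : E3} {sB sS : ℝ}
    (hd : 0 < d) (hK : 1 ≤ K)
    (hB : WF φB) (hB1 : nsq φB = 1) (hBs : ∀ X, φB X ≠ 0 → ∀ j, ‖(X j).1‖ ≤ d / 64)
    (hS : WF φs) (hS1 : nsq φs = 1) (hSs : ∀ X, φs X ≠ 0 → ∀ j, ‖(X j).1‖ ≤ d / 64)
    (cB : Cell B (pr φB) (d / 64) pb sB) (cS : Cell Ys (pr φs) (d / 64) ps sS)
    (hP : 2 * ‖P‖ ≤ d)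
    (h11 : ∀ i j, i ≠ j → d ≤ ‖zpos K d i - zpos K d j‖)
    (h12 : ∀ i b, d * K ≤ ‖zpos K d i - apos q h X0 b‖)
    (h22 : ∀ a b, a ≠ b → d ≤ ‖apos q h X0 a - apos q h X0 b‖)
    (h4 : ∀ i, (∑ j, if j = i then 0 else 1 / ‖zpos K d i - zpos K d j‖ ^ 4) ≤ C2 / d ^ 4)
    (hT : ∀ a : E3, (∑ i, ‖∑ j, if j = i then 0 else Tvec (zpos K d i - zpos K d j) a‖)
      ≤ C2 * (2 * K + 1) ^ 3 * ‖a‖ / d ^ 3)
    (hg1 : (∑ a, ∑ b, if a = b then 0 else 1 / ‖apos q h X0 a - apos q h X0 b‖) ≤ C3 * q ^ 5 / h)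
    (hg2 : (∑ a, ∑ b, if a = b then 0 else 1 / ‖apos q h X0 a - apos q h X0 b‖ ^ 2)
      ≤ C3 * q ^ 4 / h ^ 2) :
    En (∑ k, aM K q Z Ns k) (cl (az K q d h X0) (aY K q B Ys)) ≤
      (2 * K + 1) ^ 3 * Qf B φB + q ^ 3 * Qf Ys φs + DDsum (az K q d h X0) (aP K q P)
      - ((Ns : ℝ) - Ms) * (∑ b, latPot K d P none (apos q h X0 b))
      + (1 / 2) * (C2 * (2 * K + 1) ^ 3 * ‖pb - P‖ / d ^ 3 * ‖pb + P‖
        + (C1 * (sB * sB + sB * sB) + C1 * ‖P‖ ^ 3) * ((2 * K + 1) ^ 3 * (C2 / d ^ 4)))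
      + q ^ 3 * ((2 * K + 1) ^ 3 * (|(Ns : ℝ) - Ms| * ‖pb - P‖ / (d * K) ^ 2
          + (C1 * (sB * sS + sB * (Ms + Ns)) + |(Ns : ℝ) - Ms| * (C1 * (‖P‖ ^ 2 / 2))) /
            (d * K) ^ 3))
      + (1 / 2) * (((Ns : ℝ) - Ms) ^ 2 * (C3 * q ^ 5 / h)
        + (C1 * (sS * (Ms + Ns) + (Ms + Ns) * sS)) * (C3 * q ^ 4 / h ^ 2)) := by
  have hC0 : 0 ≤ C1 := by linarith
  have hK' : (1 : ℝ) ≤ K := by exact_mod_cast hK
  have hdK : d ≤ d * K := by nlinarith
  have hsB : 0 ≤ sB := (integral_nonneg fun _ => S1_nonneg).trans cB.m1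
  have hsS : 0 ≤ sS := (integral_nonneg fun _ => S1_nonneg).trans cS.m1
  have mB := (hlc (Fin Z) φB hB.toLC).1
  have mS := (hlc (Fin Ns) φs hS.toLC).1
  have hP0 : 0 ≤ ‖P‖ := norm_nonneg _
  -- distances
  have hne : ∀ {w w' : E3}, d ≤ ‖w - w'‖ → w ≠ w' := by
    intro w w' hw e
    rw [e, sub_self, norm_zero] at hw
    linarith
  have hdist : ∀ k k' : Sites K q, k ≠ k' →
      d ≤ ‖az K q d h X0 k - az K q d h X0 k'‖ := by
    intro k k' hk
    rcases k with i | a <;> rcases k' with j | b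
    · exact h11 i j (fun e => hk (by rw [e]))
    · exact hdK.trans (h12 i b)
    · rw [norm_sub_rev]
      exact hdK.trans (h12 j a)
    · exact h22 a b (fun e => hk (by rw [e]))
  -- the upper bound with trial functions
  have up := hup (Sites K q) (aM K q Z Ms) (aM K q Z Ns) (aY K q B Ys) (az K q d h X0)
    (fun k => Metric.closedBall (az K q d h X0 k) (d / 64)) (aPhi K q d h X0 φB φs) ?_ ?_
  rotate_left
  · intro k k' hk
    rw [Set.disjoint_left]
    intro y hy hy'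
    rw [Metric.mem_closedBall, dist_eq_norm] at hy hy'
    have := hdist k k' hk
    have h5 : ‖az K q d h X0 k - az K q d h X0 k'‖ ≤ d / 64 + d / 64 := by
      calc ‖az K q d h X0 k - az K q d h X0 k'‖
          = ‖(y - az K q d h X0 k') - (y - az K q d h X0 k)‖ := by congr 1; abel
        _ ≤ ‖y - az K q d h X0 k'‖ + ‖y - az K q d h X0 k‖ := norm_sub_le _ _
        _ ≤ d / 64 + d / 64 := add_le_add hy' hy
    linarith
  · intro k
    rcases k with i | b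
    · obtain ⟨-, s2, s3, -, -, -⟩ := hshift (Fin Z) (zpos K d i) φB
      refine ⟨s2 hB, s3.trans hB1, ?_⟩
      intro X hX j
      rw [Metric.mem_closedBall, dist_eq_norm]
      exact hBs _ hX j
    · obtain ⟨-, s2, s3, -, -, -⟩ := hshift (Fin Ns) (apos q h X0 b) φs
      refine ⟨s2 hS, s3.trans hS1, ?_⟩
      intro X hX j
      rw [Metric.mem_closedBall, dist_eq_norm]
      exact hSs _ hX j
  -- the self energies
  have hself : (∑ k : Sites K q, Qf (fun m => az K q d h X0 k + aY K q B Ys k m)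
      (aPhi K q d h X0 φB φs k)) = (2 * K + 1) ^ 3 * Qf B φB + q ^ 3 * Qf Ys φs := by
    rw [Fintype.sum_sum_type]
    have e1 : ∀ i : Fin 3 → Fin (2 * K + 1), Qf (fun m => az K q d h X0 (Sum.inl i)
        + aY K q B Ys (Sum.inl i) m) (aPhi K q d h X0 φB φs (Sum.inl i)) = Qf B φB :=
      fun i => (hshift (Fin Z) (zpos K d i) φB).2.2.2.2.2 (Fin Z) B
    have e2 : ∀ b : Fin 3 → Fin q, Qf (fun m => az K q d h X0 (Sum.inr b)
        + aY K q B Ys (Sum.inr b) m) (aPhi K q d h X0 φB φs (Sum.inr b)) = Qf Ys φs :=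
      fun b => (hshift (Fin Ns) (apos q h X0 b) φs).2.2.2.2.2 (Fin Ms) Ys
    rw [Finset.sum_congr rfl fun i _ => e1 i, Finset.sum_congr rfl fun b _ => e2 b]
    simp
  rw [hself, sum_sites] at up
  -- lattice - lattice
  have hA := claimA (z := zpos K d)
    (LL := fun i j => crossQ (aY K q B Ys (Sum.inl i)) (az K q d h X0 (Sum.inl i))
      (aPhi K q d h X0 φB φs (Sum.inl i)) (aY K q B Ys (Sum.inl j)) (az K q d h X0 (Sum.inl j))
      (aPhi K q d h X0 φB φs (Sum.inl j)))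
    (DD := fun i j => DDk (zpos K d i) P (zpos K d j) P) (pb := pb) (P := P)
    (a4 := C1 * (sB * sB + sB * sB)) (b4 := C1 * ‖P‖ ^ 3) (t4 := C2 / d ^ 4)
    (tT := C2 * (2 * K + 1) ^ 3 * ‖pb - P‖ / d ^ 3) (by positivity) (by positivity)
    (by
      intro i j hij
      have hw := h11 i j hij
      have e := crossQ_sh (Y := B) (Y' := B) (z := zpos K d i) (z' := zpos K d j) hshift mB mB
      have hb := cB.cross_nn hmult hC0 cB (hne hw) (by linarith) (by linarith) rfl rfl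
      show crossQ B (zpos K d i) (sh (zpos K d i) φB) B (zpos K d j) (sh (zpos K d j) φB) ≤ _
      rw [e]
      have := (abs_le.1 hb).2
      have e2 : C1 / ‖zpos K d i - zpos K d j‖ ^ 4 * (sB * sB + sB * sB) =
        C1 * (sB * sB + sB * sB) / ‖zpos K d i - zpos K d j‖ ^ 4 := by ring
      rw [e2] at this
      linarith)
    (by
      intro i j hij
      have hw := h11 i j hij
      have hb := DD_pt (P := P) hmult (hne hw) (by linarith)
      have := (abs_le.1 hb).1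
      have e2 : C1 / ‖zpos K d i - zpos K d j‖ ^ 4 * ‖P‖ ^ 3 =
        C1 * ‖P‖ ^ 3 / ‖zpos K d i - zpos K d j‖ ^ 4 := by ring
      rw [e2] at this
      linarith)
    h4 (hT _)
  -- lattice - extra
  have hD : ∀ (i : Fin 3 → Fin (2 * K + 1)) (b : Fin 3 → Fin q),
      |(cou (apos q h X0 b) (zpos K d i + (1 / 2 : ℝ) • P)
        - cou (apos q h X0 b) (zpos K d i - (1 / 2 : ℝ) • P))
        + inner ℝ P (zpos K d i - apos q h X0 b) / ‖zpos K d i - apos q h X0 b‖ ^ 3| ≤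
      C1 * (‖P‖ ^ 2 / 2) / ‖zpos K d i - apos q h X0 b‖ ^ 3 := by
    intro i b
    have hw := hdK.trans (h12 i b)
    have hb := D_pt (P := P) hmult (hne hw) (by linarith)
    refine hb.trans (le_of_eq ?_)
    ring
  have hLE := claimB (z := zpos K d) (x := apos q h X0)
    (LE := fun i b => crossQ (aY K q B Ys (Sum.inl i)) (az K q d h X0 (Sum.inl i))
      (aPhi K q d h X0 φB φs (Sum.inl i)) (aY K q B Ys (Sum.inr b)) (az K q d h X0 (Sum.inr b))
      (aPhi K q d h X0 φB φs (Sum.inr b)))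
    (D := fun i b => cou (apos q h X0 b) (zpos K d i + (1 / 2 : ℝ) • P)
        - cou (apos q h X0 b) (zpos K d i - (1 / 2 : ℝ) • P))
    (pb := pb) (P := P) (l := (Ns : ℝ) - Ms) (a3 := C1 * (sB * sS + sB * (Ms + Ns)))
    (b3 := C1 * (‖P‖ ^ 2 / 2)) (r := d * K) (by positivity) (by positivity) (by positivity)
    (by
      intro i b
      have hw := hdK.trans (h12 i b)
      have e := crossQ_sh (Y := B) (Y' := Ys) (z := zpos K d i) (z' := apos q h X0 b) hshift mB mS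
      have hb := cB.cross_nc hmult hC0 cS (hne hw) (by linarith) (by linarith) rfl
      show crossQ B (zpos K d i) (sh (zpos K d i) φB) Ys (apos q h X0 b)
        (sh (apos q h X0 b) φs) ≤ _
      rw [e]
      have := (abs_le.1 hb).2
      have e2 : C1 / ‖zpos K d i - apos q h X0 b‖ ^ 3 * (sB * sS + sB * (Ms + Ns)) =
        C1 * (sB * sS + sB * (Ms + Ns)) / ‖zpos K d i - apos q h X0 b‖ ^ 3 := by ring
      have e3 : -(((Ms : ℝ) - Ns) * inner ℝ pb (zpos K d i - apos q h X0 b) /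
          ‖zpos K d i - apos q h X0 b‖ ^ 3) = ((Ns : ℝ) - Ms) *
          inner ℝ pb (zpos K d i - apos q h X0 b) / ‖zpos K d i - apos q h X0 b‖ ^ 3 := by ring
      rw [e2, e3] at this
      linarith)
    hD h12
  have hEL := claimB (z := zpos K d) (x := apos q h X0)
    (LE := fun i b => crossQ (aY K q B Ys (Sum.inr b)) (az K q d h X0 (Sum.inr b))
      (aPhi K q d h X0 φB φs (Sum.inr b)) (aY K q B Ys (Sum.inl i)) (az K q d h X0 (Sum.inl i))
      (aPhi K q d h X0 φB φs (Sum.inl i)))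
    (D := fun i b => cou (apos q h X0 b) (zpos K d i + (1 / 2 : ℝ) • P)
        - cou (apos q h X0 b) (zpos K d i - (1 / 2 : ℝ) • P))
    (pb := pb) (P := P) (l := (Ns : ℝ) - Ms) (a3 := C1 * (sB * sS + sB * (Ms + Ns)))
    (b3 := C1 * (‖P‖ ^ 2 / 2)) (r := d * K) (by positivity) (by positivity) (by positivity)
    (by
      intro i b
      have hw := hdK.trans (h12 i b)
      have hw' : d ≤ ‖apos q h X0 b - zpos K d i‖ := by rwa [norm_sub_rev]
      have e := crossQ_sh (Y := Ys) (Y' := B) (z := apos q h X0 b) (z' := zpos K d i) hshift mS mB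
      have hb := cS.cross_cn hmult hC0 cB (hne hw') (by linarith) (by linarith) rfl
      show crossQ Ys (apos q h X0 b) (sh (apos q h X0 b) φs) B (zpos K d i)
        (sh (zpos K d i) φB) ≤ _
      rw [e]
      have := (abs_le.1 hb).2
      rw [norm_sub_rev (apos q h X0 b)] at this
      have e2 : C1 / ‖zpos K d i - apos q h X0 b‖ ^ 3 * (sB * sS + sB * (Ms + Ns)) =
        C1 * (sB * sS + sB * (Ms + Ns)) / ‖zpos K d i - apos q h X0 b‖ ^ 3 := by ring
      have e3 : -(((Ms : ℝ) - Ns) * inner ℝ pb (zpos K d i - apos q h X0 b) /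
          ‖zpos K d i - apos q h X0 b‖ ^ 3) = ((Ns : ℝ) - Ms) *
          inner ℝ pb (zpos K d i - apos q h X0 b) / ‖zpos K d i - apos q h X0 b‖ ^ 3 := by ring
      rw [e2, e3] at this
      linarith)
    hD h12
  -- extra - extra
  have hC := claimC (x := apos q h X0)
    (EE := fun b c => crossQ (aY K q B Ys (Sum.inr b)) (az K q d h X0 (Sum.inr b))
      (aPhi K q d h X0 φB φs (Sum.inr b)) (aY K q B Ys (Sum.inr c)) (az K q d h X0 (Sum.inr c))
      (aPhi K q d h X0 φB φs (Sum.inr c)))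
    (l := (Ns : ℝ) - Ms) (c2 := C1 * (sS * (Ms + Ns) + (Ms + Ns) * sS)) (by positivity)
    (by
      intro b c hbc
      have hw := h22 b c hbc
      have e := crossQ_sh (Y := Ys) (Y' := Ys) (z := apos q h X0 b) (z' := apos q h X0 c)
        hshift mS mS
      have hb := cS.cross_cc hmult hC0 cS (hne hw) (by linarith) (by linarith)
      show crossQ Ys (apos q h X0 b) (sh (apos q h X0 b) φs) Ys (apos q h X0 c)
        (sh (apos q h X0 c) φs) ≤ _
      rw [e]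
      have := (abs_le.1 hb).2
      have e2 : C1 / ‖apos q h X0 b - apos q h X0 c‖ ^ 2 * (sS * (Ms + Ns) + (Ms + Ns) * sS) =
        C1 * (sS * (Ms + Ns) + (Ms + Ns) * sS) / ‖apos q h X0 b - apos q h X0 c‖ ^ 2 := by ring
      have e3 : ((Ms : ℝ) - Ns) * ((Ms : ℝ) - Ns) / ‖apos q h X0 b - apos q h X0 c‖ =
        ((Ns : ℝ) - Ms) ^ 2 / ‖apos q h X0 b - apos q h X0 c‖ := by ring
      rw [e2, e3] at this
      linarith)
    hg1 hg2
  -- assembly
  have hlp : (∑ b, latPot K d P none (apos q h X0 b)) =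
      ∑ b, ∑ i, (cou (apos q h X0 b) (zpos K d i + (1 / 2 : ℝ) • P)
        - cou (apos q h X0 b) (zpos K d i - (1 / 2 : ℝ) • P)) :=
    Finset.sum_congr rfl fun b _ => latPot_none K d P _
  have hcI : (Fintype.card (Fin 3 → Fin (2 * K + 1)) : ℝ) = (2 * K + 1) ^ 3 := by
    simp
  have hcJ : (Fintype.card (Fin 3 → Fin q) : ℝ) = (q : ℝ) ^ 3 := by
    simp
  rw [← hlp, hcI, hcJ] at hLE hEL
  rw [hcI] at hA
  rw [Finset.sum_comm] at hEL
  rw [DDsum_sites]
  linarith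

lemma arith_final {n3 q3 q d h K D S t p δ1 v a E3 C2 C3 ab c2 γ' e1 l : ℝ}
    (hn3' : n3 ≤ 27 * K ^ 3) (hn3 : 0 ≤ n3) (hq3 : q3 = q ^ 3) (hq : 0 ≤ q) (hd : 1 ≤ d)
    (hdh : d ≤ h) (hqh : q ≤ h) (hK : 1 ≤ K) (hD0 : 0 ≤ D) (hD : D ≤ t * p + δ1 / d ^ 2)
    (hS : S ≤ 2 * p + D) (ht : 0 ≤ t) (ht1 : t ≤ 1) (hp : 0 < p) (hδ : 0 ≤ δ1)
    (hv : p * K ≤ v * d ^ 2) (ha : a = |l|) (hE : 0 ≤ E3) (hC2 : 1 ≤ C2) (hC3 : 1 ≤ C3)
    (hc2 : 0 ≤ c2) (hγ : 0 < γ') (he1 : 0 ≤ e1)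
    (hG1 : (e1 + (1 / 2) * C2 * (4 * p * δ1 + δ1 ^ 2) + (1 / 2) * ab * C2) / γ' ≤ d)
    (hG2 : (27 * a * δ1 * v / p + 27 * E3 + (1 / 2) * c2 * C3) / γ' ≤ d) :
    n3 * (e1 / d ^ 6) + (1 / 2) * (C2 * n3 * D / d ^ 3 * S + ab * (n3 * (C2 / d ^ 4)))
      + q3 * (n3 * (a * D / (d * K) ^ 2 + E3 / (d * K) ^ 3))
      + (1 / 2) * (l ^ 2 * (C3 * q ^ 5 / h) + c2 * (C3 * q ^ 4 / h ^ 2)) ≤
    (2 * C2 + 27 + C3) * l ^ 2 * q ^ 5 / h + (2 * C2 + 27 + C3) * t * p ^ 2 * n3 / d ^ 3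
      + (2 * C2 + 27 + C3) * a * t * v * q3 + γ' * (n3 / d ^ 3 + q3) := by
  have hd0 : 0 < d := by linarith
  have hh0 : 0 < h := by linarith
  have hX : 0 ≤ n3 / d ^ 3 := by positivity
  set X := n3 / d ^ 3 with hXd
  have hv0 : 0 ≤ v := by
    by_contra hneg
    push Not at hneg
    have h1 : 0 < p * K := by positivity
    have h2 : v * d ^ 2 < 0 := mul_neg_of_neg_of_pos hneg (by positivity)
    linarith
  have ha0 : 0 ≤ a := by rw [ha]; exact abs_nonneg _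
  have hq30 : 0 ≤ q3 := by rw [hq3]; positivity
  have hDS := arith_D hD0 hD hS ht1 hp.le hδ hd
  have hLE := arith_LE (a := a) (E3 := E3) hK hn3' hd hD0 hD ht hp hδ hv ha0 hE
  -- first error
  have r1 : n3 * (e1 / d ^ 6) ≤ X * (e1 / d) := by
    have : n3 * (e1 / d ^ 6) = X * (e1 / d ^ 3) := by
      rw [hXd]
      field_simp
    rw [this]
    refine mul_le_mul_of_nonneg_left ?_ hX
    apply div_le_div_of_nonneg_left he1 hd0
    calc d = d ^ 1 := (pow_one d).symm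
      _ ≤ d ^ 3 := pow_le_pow_right₀ hd (by norm_num)
  have r2 : C2 * n3 * D / d ^ 3 * S = X * C2 * (D * S) := by
    rw [hXd]
    ring
  have r3 : ab * (n3 * (C2 / d ^ 4)) = X * (ab * C2 / d) := by
    rw [hXd]
    field_simp
  have r4 : X * C2 * (D * S) ≤ X * C2 * (3 * t * p ^ 2 + (4 * p * δ1 + δ1 ^ 2) / d) :=
    mul_le_mul_of_nonneg_left hDS (by positivity)
  have r5 : (e1 + (1 / 2) * C2 * (4 * p * δ1 + δ1 ^ 2) + (1 / 2) * ab * C2) / d ≤ γ' := by
    rw [div_le_iff₀ hγ] at hG1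
    rw [div_le_iff₀ hd0]
    linarith
  have r6 := mul_le_mul_of_nonneg_left r5 hX
  have r7 : X * ((e1 + (1 / 2) * C2 * (4 * p * δ1 + δ1 ^ 2) + (1 / 2) * ab * C2) / d) =
      X * (e1 / d) + (1 / 2) * (X * C2 * ((4 * p * δ1 + δ1 ^ 2) / d)) +
        (1 / 2) * (X * (ab * C2 / d)) := by ring
  have r8 : (2 * C2 + 27 + C3) * t * p ^ 2 * n3 / d ^ 3 = (2 * C2 + 27 + C3) * (t * p ^ 2 * X) := by
    rw [hXd]
    ring
  have r9 : 0 ≤ t * p ^ 2 * X := by positivity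
  have r10 : (1 / 2) * (X * C2 * (3 * t * p ^ 2)) ≤ (2 * C2 + 27 + C3) * (t * p ^ 2 * X) := by
    have : (1 / 2) * (X * C2 * (3 * t * p ^ 2)) = (3 / 2 * C2) * (t * p ^ 2 * X) := by ring
    rw [this]
    exact mul_le_mul_of_nonneg_right (by linarith) r9
  -- second error
  have w1 := mul_le_mul_of_nonneg_left hLE hq30
  have w2 : q ^ 4 / h ^ 2 ≤ q3 / d := by
    rw [hq3]
    have e : q ^ 4 / h ^ 2 = q ^ 3 * (q / h) * (1 / h) := by
      field_simp
    rw [e]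
    have e1 : q / h ≤ 1 := (div_le_one hh0).2 hqh
    have e2 : 1 / h ≤ 1 / d := one_div_le_one_div_of_le hd0 hdh
    calc q ^ 3 * (q / h) * (1 / h) ≤ q ^ 3 * 1 * (1 / d) := by gcongr
      _ = q ^ 3 / d := by ring
  have w3 : (1 / 2) * (c2 * (C3 * q ^ 4 / h ^ 2)) ≤ q3 * ((1 / 2) * c2 * C3 / d) := by
    have e : (1 / 2) * (c2 * (C3 * q ^ 4 / h ^ 2)) = (1 / 2) * c2 * C3 * (q ^ 4 / h ^ 2) := by ring
    rw [e]
    have e2 : q3 * ((1 / 2) * c2 * C3 / d) = (1 / 2) * c2 * C3 * (q3 / d) := by ring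
    rw [e2]
    exact mul_le_mul_of_nonneg_left w2 (by positivity)
  have w4 : (27 * a * δ1 * v / p + 27 * E3 + (1 / 2) * c2 * C3) / d ≤ γ' := by
    rw [div_le_iff₀ hγ] at hG2
    rw [div_le_iff₀ hd0]
    linarith
  have w5 := mul_le_mul_of_nonneg_left w4 hq30
  have w6 : q3 * ((27 * a * δ1 * v / p + 27 * E3 + (1 / 2) * c2 * C3) / d) =
      q3 * ((27 * a * δ1 * v / p + 27 * E3) / d) + q3 * ((1 / 2) * c2 * C3 / d) := by ring
  have w7 : q3 * (27 * a * t * v) ≤ (2 * C2 + 27 + C3) * a * t * v * q3 := by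
    have e : q3 * (27 * a * t * v) = 27 * (a * t * v * q3) := by ring
    have e2 : (2 * C2 + 27 + C3) * a * t * v * q3 = (2 * C2 + 27 + C3) * (a * t * v * q3) := by ring
    rw [e, e2]
    exact mul_le_mul_of_nonneg_right (by linarith) (by positivity)
  -- third error
  have u1 : (1 / 2) * (l ^ 2 * (C3 * q ^ 5 / h)) ≤ (2 * C2 + 27 + C3) * l ^ 2 * q ^ 5 / h := by
    have e : (1 / 2) * (l ^ 2 * (C3 * q ^ 5 / h)) = (1 / 2 * C3) * (l ^ 2 * q ^ 5 / h) := by ring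
    have e2 : (2 * C2 + 27 + C3) * l ^ 2 * q ^ 5 / h =
      (2 * C2 + 27 + C3) * (l ^ 2 * q ^ 5 / h) := by ring
    rw [e, e2]
    exact mul_le_mul_of_nonneg_right (by linarith) (by positivity)
  rw [r2, r3, r8]
  have x1 : X * C2 * (3 * t * p ^ 2 + (4 * p * δ1 + δ1 ^ 2) / d) =
    X * C2 * (3 * t * p ^ 2) + X * C2 * ((4 * p * δ1 + δ1 ^ 2) / d) := by ring
  have x2 : q3 * (27 * a * t * v + (27 * a * δ1 * v / p + 27 * E3) / d) =
    q3 * (27 * a * t * v) + q3 * ((27 * a * δ1 * v / p + 27 * E3) / d) := by ring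
  rw [x1] at r4
  rw [x2] at w1
  rw [r7] at r6
  rw [w6] at w5
  linarith

end ArrayUp

/-- **G5** -/
theorem p_arrayUp (hlc : S_lc) (hshift : S_shift) (hen : S_en) (hup : S_upper) (hmom : S_mom)
    (hmult : S_mult) (hlat : S_lat) (hgrid : S_grid) : S_arrayUp := by
  obtain ⟨C1, hC1, hmult⟩ := hmult
  obtain ⟨C2, hC2, hlat⟩ := hlat
  obtain ⟨C3, hC3, hgrid⟩ := hgrid
  refine ⟨2 * C2 + 27 + C3, by linarith, ?_⟩
  intro Z B P ε₁ CB a η Ms Ns Ys v η' γ' s hB hAH hMarg hη hη4 hv hη' hγ' hs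
  have hZ : 1 ≤ Z := hB.1
  have hε0 : 0 < ε₁ := hB.2.2.1
  have hε1 : ε₁ ≤ 1 := hB.2.2.2.1
  have hP : P ≠ 0 := hB.2.2.2.2.1
  have hp : 0 < ‖P‖ := norm_pos_iff.2 hP
  have hgap : 1 / 4 - η ≤ En (Z - 1) B - En Z B := by
    have := hMarg.1 1 le_rfl hZ
    simpa using this
  obtain ⟨sB, e1, δ1, D, hsB, he1, hδ1, hcell⟩ :=
    ArrayUp.exists_cellB hlc hmom hB (by linarith : 0 < 1 / 4 - η) hgap
  obtain ⟨φs, hS, hS1, hSQ⟩ := hen.2.2.1 (Fin Ms) Ys Ns η' hη'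
  obtain ⟨Rs, hRs⟩ := hS.supp
  obtain ⟨mS, -, -, -, -, -, hintS⟩ := hlc (Fin Ns) φs hS.toLC
  have hprS := ArrayUp.pr_prob hintS hS1
  set sS : ℝ := max (∫ X, ArrayUp.S1 Ys X ∂(ArrayUp.pr φs))
    (∫ X, ArrayUp.S2 Ys X ∂(ArrayUp.pr φs)) with hsSd
  have hsS : 0 ≤ sS :=
    (integral_nonneg fun _ => ArrayUp.S1_nonneg).trans (le_max_left _ _)
  set R0 : ℝ := |Rs| + ∑ m, ‖Ys m‖ with hR0
  set a3 : ℝ := C1 * (sB * sS + sB * (Ms + Ns)) with ha3
  set b3 : ℝ := C1 * (‖P‖ ^ 2 / 2) with hb3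
  set ab : ℝ := C1 * (sB * sB + sB * sB) + C1 * ‖P‖ ^ 3 with hab
  set c2 : ℝ := C1 * (sS * (Ms + Ns) + (Ms + Ns) * sS) with hc2
  set l : ℝ := (Ns : ℝ) - Ms with hl
  set G1 : ℝ := (e1 + (1 / 2) * C2 * (4 * ‖P‖ * δ1 + δ1 ^ 2) + (1 / 2) * ab * C2) / γ' with hG1
  set G2 : ℝ := (27 * |l| * δ1 * v / ‖P‖ + 27 * (a3 + |l| * b3) + (1 / 2) * c2 * C3) / γ' with hG2
  refine ⟨max 1 (max D (max (64 * R0) (max (2 * ‖P‖) (max G1 G2)))), le_max_left _ _, ?_⟩
  intro d h K q hd0 hK hq hPK hdh hqh hhq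
  have hd1 : 1 ≤ d := (le_max_left _ _).trans hd0
  have hd2 := (le_max_right _ _).trans hd0
  have hdD : D ≤ d := (le_max_left _ _).trans hd2
  have hd3 := (le_max_right _ _).trans hd2
  have hdR : 64 * R0 ≤ d := (le_max_left _ _).trans hd3
  have hd4 := (le_max_right _ _).trans hd3
  have hdP : 2 * ‖P‖ ≤ d := (le_max_left _ _).trans hd4
  have hd5 := (le_max_right _ _).trans hd4
  have hdG1 : G1 ≤ d := (le_max_left _ _).trans hd5
  have hdG2 : G2 ≤ d := (le_max_right _ _).trans hd5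
  have hdpos : 0 < d := by linarith
  have hhpos : 0 < h := by linarith
  have hK' : (1 : ℝ) ≤ K := by exact_mod_cast hK
  obtain ⟨φB, pb, hφB, hφB1, hφBs, hφBQ, cB, hpb⟩ := hcell d hdD hd1
  -- the extra cell
  have hSs : ∀ X, φs X ≠ 0 → ∀ j, ‖(X j).1‖ ≤ d / 64 := by
    intro X hX j
    have h1 := hRs X hX j
    have h2 : 0 ≤ ∑ m, ‖Ys m‖ := Finset.sum_nonneg fun m _ => norm_nonneg _
    have h3 := le_abs_self Rs
    linarith
  have hYs : ∀ m, ‖Ys m‖ ≤ d / 64 := by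
    intro m
    have h1 := Finset.single_le_sum (f := fun m => ‖Ys m‖) (fun i _ => norm_nonneg _)
      (Finset.mem_univ m)
    have h3 := abs_nonneg Rs
    have h4 : ‖Ys m‖ ≤ ∑ m, ‖Ys m‖ := h1
    linarith
  have cS : ArrayUp.Cell Ys (ArrayUp.pr φs) (d / 64) (∫ X, vdip Ys X ∂(ArrayUp.pr φs)) sS :=
    ⟨hprS, hYs, ArrayUp.pr_ae mS hSs, rfl, le_max_left _ _, le_max_right _ _⟩
  -- geometry
  obtain ⟨g1, g2, g3, -, g5, -⟩ := hlat K d hK hdpos
  set X0 : E3 := (s * (3 * d * K) / ‖P‖) • P with hX0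
  obtain ⟨k1, k2, k3, k4⟩ := hgrid q h X0 hq hhpos
  have hX0n : ‖X0‖ = 3 * d * K := by
    rw [hX0, norm_smul, Real.norm_eq_abs, abs_div, abs_mul, abs_of_pos hp]
    have hs1 : |s| = 1 := by
      rcases hs with hs | hs <;> rw [hs] <;> simp
    rw [hs1, abs_of_pos (by positivity : 0 < 3 * d * K)]
    field_simp
  have h12 : ∀ i b, d * K ≤ ‖zpos K d i - apos q h X0 b‖ := by
    intro i b
    have e1 := g2 i
    have e2 := k2 b
    have e3 : ‖X0‖ ≤ ‖zpos K d i - apos q h X0 b‖ + ‖zpos K d i‖ + ‖apos q h X0 b - X0‖ := by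
      calc ‖X0‖ = ‖-(zpos K d i - apos q h X0 b) + zpos K d i - (apos q h X0 b - X0)‖ := by
            congr 1
            abel
        _ ≤ ‖-(zpos K d i - apos q h X0 b) + zpos K d i‖ + ‖apos q h X0 b - X0‖ :=
            norm_sub_le _ _
        _ ≤ ‖-(zpos K d i - apos q h X0 b)‖ + ‖zpos K d i‖ + ‖apos q h X0 b - X0‖ := by
            gcongr
            exact norm_add_le _ _
        _ = _ := by rw [norm_neg]
    have hs3 : Real.sqrt 3 ≤ 7 / 4 := by
      rw [Real.sqrt_le_left (by norm_num)]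
      norm_num
    have h5 : Real.sqrt 3 * (d * K) ≤ 7 / 4 * (d * K) :=
      mul_le_mul_of_nonneg_right hs3 (by positivity)
    have h6 : 0 < d * K := by positivity
    rw [hX0n] at e3
    nlinarith
  have hbound := ArrayUp.array_bound (K := K) (q := q) (h := h) (X0 := X0) (P := P) hlc hshift hup
    hC1 hmult hdpos hK hφB hφB1 hφBs hS hS1 hSs cB cS hdP g1 h12
    (fun a b hab' => hdh.trans (k1 a b hab')) g3 g5 k3 k4
  have hn3 : ((2 : ℝ) * K + 1) ^ 3 ≤ 27 * (K : ℝ) ^ 3 := by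
    calc ((2 : ℝ) * K + 1) ^ 3 ≤ (3 * (K : ℝ)) ^ 3 := by
          apply pow_le_pow_left₀ (by positivity)
          linarith
      _ = 27 * (K : ℝ) ^ 3 := by ring
  have hS2 : ‖pb + P‖ ≤ 2 * ‖P‖ + ‖pb - P‖ := by
    calc ‖pb + P‖ = ‖(pb - P) + (P + P)‖ := by congr 1; abel
      _ ≤ ‖pb - P‖ + ‖P + P‖ := norm_add_le _ _
      _ ≤ ‖pb - P‖ + (‖P‖ + ‖P‖) := by gcongr; exact norm_add_le _ _
      _ = 2 * ‖P‖ + ‖pb - P‖ := by ring
  have hfin := ArrayUp.arith_final (n3 := ((2 : ℝ) * K + 1) ^ 3) (q3 := (q : ℝ) ^ 3) (q := q)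
    (d := d) (h := h) (K := K) (D := ‖pb - P‖) (S := ‖pb + P‖) (t := Real.sqrt ε₁) (p := ‖P‖)
    (δ1 := δ1) (v := v) (a := |l|) (E3 := a3 + |l| * b3) (C2 := C2) (C3 := C3) (ab := ab)
    (c2 := c2) (γ' := γ') (e1 := e1) (l := l) hn3 (by positivity) rfl (by positivity) hd1 hdh hqh
    hK' (norm_nonneg _) hpb hS2 (Real.sqrt_nonneg _) (Real.sqrt_le_one.2 hε1) hp hδ1 hPK rfl
    (by positivity) hC2 hC3 (by positivity) hγ' he1 hdG1 hdG2
  have hQB : ((2 : ℝ) * K + 1) ^ 3 * Qf B φB ≤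
      ((2 : ℝ) * K + 1) ^ 3 * En Z B + ((2 : ℝ) * K + 1) ^ 3 * (e1 / d ^ 6) := by
    rw [← mul_add]
    exact mul_le_mul_of_nonneg_left hφBQ (by positivity)
  have hQS : (q : ℝ) ^ 3 * Qf Ys φs ≤ (q : ℝ) ^ 3 * (En Ns Ys + η') :=
    mul_le_mul_of_nonneg_left hSQ (by positivity)
  linarith

end MolDis
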