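import Pool.Agent.Lib.MP_59f35a_mp.States

/-!
# MP_59f35a_mp : bridge, `molEnergy N Y 1 = En N Y` and `NeutralDissociation → PQ1` (helper99)
-/

open MeasureTheory Filter Topology
set_option linter.unusedSectionVars false
noncomputable section
namespace MolDis
namespace Bridge

variable {ι : Type} [Fintype ι] [DecidableEq ι]

/-- bump of radius `1/(n+1)` -/
def bmp (n : ℕ) : ContDiffBump (0 : E3) :=
  ⟨1 / (2 * ((n : ℝ) + 1)), 1 / ((n : ℝ) + 1), by positivity, by
    apply one_div_lt_one_div_of_lt (by positivity); linarith [(Nat.cast_nonneg n : (0:ℝ) ≤ n)]⟩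

/-- product kernel -/
def kerN (ι : Type) [Fintype ι] (n : ℕ) (t : ι → E3) : ℝ := ∏ j, (bmp n).normed volume (t j)

theorem kerN_ne {n : ℕ} {t : ι → E3} (h : kerN ι n t ≠ 0) : ‖t‖ ≤ 1 / ((n : ℝ) + 1) := by
  rw [pi_norm_le_iff_of_nonneg (by positivity)]
  intro j
  have h1 : (bmp n).normed volume (t j) ≠ 0 := by
    intro h0
    exact h (Finset.prod_eq_zero (Finset.mem_univ j) h0)
  have h2 : t j ∈ Function.support ((bmp n).normed volume) := h1
  rw [ContDiffBump.support_normed_eq, mem_ball_zero_iff] at h2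
  exact h2.le

theorem kerN_ker (n : ℕ) : Ker (kerN ι n) where
  smooth := by
    unfold kerN
    refine contDiff_prod fun j _ => ?_
    exact ((bmp n).contDiff_normed (n := (⊤ : ℕ∞))).comp (contDiff_apply ℝ E3 j)
  supp := by
    refine HasCompactSupport.intro (isCompact_closedBall (0 : ι → E3) (1 / ((n : ℝ) + 1)))
      fun x hx => ?_
    by_contra hne
    exact hx (mem_closedBall_zero_iff.mpr (kerN_ne hne))
  nonneg := fun t => Finset.prod_nonneg fun j _ => (bmp n).nonneg_normed _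
  one := by
    unfold kerN
    rw [integral_fintype_prod_volume_eq_prod (fun (_ : ι) (y : E3) => (bmp n).normed volume y)]
    simp [ContDiffBump.integral_normed]

theorem kerN_perm (n : ℕ) (σ : Equiv.Perm ι) (t : ι → E3) : kerN ι n (t ∘ σ) = kerN ι n t := by
  unfold kerN
  exact Equiv.prod_comp σ (fun j => (bmp n).normed volume (t j))

/-- mollified wave function -/
def mol (n : ℕ) (ψ : (ι → Om) → ℝ) (X : ι → Om) : ℝ :=
  moll (kerN ι n) (sl ψ (fun j => (X j).2)) (fun j => (X j).1)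

theorem sl_mol (n : ℕ) (ψ : (ι → Om) → ℝ) (s : ι → Bool) :
    sl (mol n ψ) s = moll (kerN ι n) (sl ψ s) := rfl

theorem integral_perm (σ : Equiv.Perm ι) (g : (ι → E3) → ℝ) :
    ∫ x : ι → E3, g (x ∘ σ) = ∫ x, g x := by
  have h1 : MeasurePreserving (fun x : ι → E3 => x ∘ σ) volume volume :=
    volume_preserving_arrowCongr' σ.symm (MeasurableEquiv.refl E3) (MeasurePreserving.id _)
  have h2 : MeasurableEmbedding (fun x : ι → E3 => x ∘ σ) :=
    (MeasurableEquiv.arrowCongr' σ.symm (MeasurableEquiv.refl E3)).measurableEmbedding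
  exact h1.integral_comp h2 g

theorem mol_lc {ψ : (ι → Om) → ℝ} (hψ : LC ψ) (n : ℕ) : LC (mol n ψ) := by
  refine lc_of_smooth (fun s => ?_) fun s => ?_
  · rw [sl_mol]
    obtain ⟨C, hC⟩ := sl_lip hψ s
    exact moll_contDiff (kerN_ker n) hC.continuous
  · rw [sl_mol]
    exact moll_supp (kerN_ker n) (sl_supp hψ s)

theorem mol_wf {ψ : (ι → Om) → ℝ} (hψ : WF ψ) (n : ℕ) : WF (mol n ψ) := by
  refine { toLC := mol_lc hψ.toLC n, anti := fun σ X => ?_ }
  unfold mol moll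
  rw [← integral_const_mul]
  rw [← integral_perm σ]
  refine integral_congr_ae (ae_of_all _ fun t => ?_)
  show sl ψ (fun j => ((X ∘ σ) j).2) (t ∘ σ) * kerN ι n ((fun j => ((X ∘ σ) j).1) - t ∘ σ)
    = ((Equiv.Perm.sign σ : ℤ) : ℝ) * (sl ψ (fun j => (X j).2) t * kerN ι n ((fun j => (X j).1) - t))
  have e1 : sl ψ (fun j => ((X ∘ σ) j).2) (t ∘ σ)
      = ((Equiv.Perm.sign σ : ℤ) : ℝ) * sl ψ (fun j => (X j).2) t := by
    have := hψ.anti σ (conf t (fun j => (X j).2))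
    exact this
  have e2 : kerN ι n ((fun j => ((X ∘ σ) j).1) - t ∘ σ) = kerN ι n ((fun j => (X j).1) - t) := by
    rw [← kerN_perm n σ ((fun j => (X j).1) - t)]
    rfl
  rw [e1, e2]
  ring

theorem mol_tendsto {ψ : (ι → Om) → ℝ} (hψ : LC ψ) (X : ι → Om) :
    Tendsto (fun n => mol n ψ X) atTop (𝓝 (ψ X)) := by
  obtain ⟨C, hC⟩ := sl_lip hψ (fun j => (X j).2)
  rw [tendsto_iff_norm_sub_tendsto_zero]
  have h1 : ∀ n, ‖mol n ψ X - ψ X‖ ≤ C * (1 / ((n : ℝ) + 1)) := fun n =>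
    moll_close (kerN_ker n) hC (sl_supp hψ _) (fun t ht => kerN_ne ht) (fun j => (X j).1)
  have h2 : Tendsto (fun n : ℕ => (C : ℝ) * (1 / ((n : ℝ) + 1))) atTop (𝓝 0) := by
    have := tendsto_one_div_add_atTop_nhds_zero_nat (𝕜 := ℝ)
    simpa using this.const_mul (C : ℝ)
  exact squeeze_zero (fun n => norm_nonneg _) h1 h2

theorem mol_bound {ψ : (ι → Om) → ℝ} {B : ℝ} (hB : ∀ X, |ψ X| ≤ B) (n : ℕ) (X : ι → Om) :
    |mol n ψ X| ≤ B :=
  moll_bound (kerN_ker n) (fun t => hB (conf t fun j => (X j).2)) _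

theorem mol_supp {ψ : (ι → Om) → ℝ} {R : ℝ} (hR : ∀ X, ψ X ≠ 0 → ∀ j, ‖(X j).1‖ ≤ R) (n : ℕ)
    (X : ι → Om) (hX : mol n ψ X ≠ 0) (j : ι) : ‖(X j).1‖ ≤ R + 1 := by
  by_contra hlt
  apply hX
  unfold mol moll
  have : ∀ t : ι → E3, sl ψ (fun j => (X j).2) t * kerN ι n ((fun j => (X j).1) - t) = 0 := by
    intro t
    by_contra hne
    have h1 := hR (conf t fun j => (X j).2) (left_ne_zero_of_mul hne) j
    have h2 := kerN_ne (right_ne_zero_of_mul hne)
    have h3 : ‖(X j).1 - t j‖ ≤ 1 / ((n : ℝ) + 1) :=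
      (norm_le_pi_norm ((fun j => (X j).1) - t) j).trans h2
    have h4 : 1 / ((n : ℝ) + 1) ≤ 1 := by
      rw [div_le_one (by positivity)]
      linarith [(Nat.cast_nonneg n : (0:ℝ) ≤ n)]
    apply hlt
    have h5 : (X j).1 = t j + ((X j).1 - t j) := by abel
    rw [h5]
    have h6 : ‖t j‖ ≤ R := h1
    linarith [norm_add_le (t j) ((X j).1 - t j)]
  simp only [this, integral_zero]

/-- cut-off -/
def chi (ι : Type) [Fintype ι] (R : ℝ) (X : ι → Om) : ℝ :=
  min 1 (max 0 (R + 1 - ‖fun j => (X j).1‖))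

theorem chi_lc (R : ℝ) : LC (chi ι R) := by
  refine ⟨⟨1, fun X j y => ?_⟩, ⟨R + 1, fun X hX j => ?_⟩⟩
  · rw [one_mul]
    unfold chi
    have h1 : |‖fun i => (put X j y i).1‖ - ‖fun i => (X i).1‖| ≤ ‖y - (X j).1‖ := by
      refine (abs_norm_sub_norm_le _ _).trans ?_
      rw [pi_norm_le_iff_of_nonneg (norm_nonneg _)]
      intro i
      unfold put
      by_cases h : i = j
      · subst h; simp
      · simp [Function.update_of_ne h]
    refine (abs_min_sub_min_le_max _ _ _ _).trans ?_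
    rw [sub_self, abs_zero]
    refine max_le (norm_nonneg _) ((abs_max_sub_max_le_max _ _ _ _).trans ?_)
    rw [sub_self, abs_zero]
    refine max_le (norm_nonneg _) ?_
    have h2 : R + 1 - ‖fun i => (put X j y i).1‖ - (R + 1 - ‖fun i => (X i).1‖)
      = -(‖fun i => (put X j y i).1‖ - ‖fun i => (X i).1‖) := by ring
    rw [h2, abs_neg]
    exact h1
  · by_contra hlt
    apply hX
    unfold chi
    have h1 : R + 1 < ‖fun j => (X j).1‖ :=
      (not_le.mp hlt).trans_le (norm_le_pi_norm (fun j => (X j).1) j)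
    rw [max_eq_left (by linarith), min_eq_right zero_le_one]

theorem chi_one {R : ℝ} (hR : 0 ≤ R) {X : ι → Om} (h : ∀ j, ‖(X j).1‖ ≤ R) : chi ι R X = 1 := by
  have h1 : ‖fun j => (X j).1‖ ≤ R := (pi_norm_le_iff_of_nonneg hR).mpr h
  unfold chi
  rw [min_eq_left]
  exact le_max_of_le_right (by linarith)

theorem expv_mol {ψ : (ι → Om) → ℝ} (hψ : LC ψ) {W : (ι → Om) → ℝ} (hW : AdmW W) :
    Tendsto (fun n => expv W (mol n ψ)) atTop (𝓝 (expv W ψ)) := by
  obtain ⟨B, hB⟩ := (p_lc ι ψ hψ).2.1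
  obtain ⟨R, hR⟩ := hψ.supp
  have hR' : ∀ X, ψ X ≠ 0 → ∀ j, ‖(X j).1‖ ≤ |R| := fun X hX j => (hR X hX j).trans (le_abs_self _)
  have hi := (p_lc ι _ (chi_lc (ι := ι) (|R| + 1))).2.2.2.2.2.1 W hW
  unfold expv
  refine tendsto_integral_of_dominated_convergence
    (fun X => B ^ 2 * ‖W X * chi ι (|R| + 1) X ^ 2‖) (fun n => ?_) (hi.norm.const_mul _)
    (fun n => ae_of_all _ fun X => ?_) (ae_of_all _ fun X => ?_)
  · exact (hW.1.mul ((p_lc ι _ (mol_lc hψ n)).1.pow_const 2)).aestronglyMeasurable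
  · rw [norm_mul, norm_mul]
    by_cases h0 : mol n ψ X = 0
    · rw [h0]; simp; positivity
    · have h1 : chi ι (|R| + 1) X = 1 := chi_one (by positivity) (mol_supp hR' n X h0)
      rw [h1]
      have h2 : ‖mol n ψ X ^ 2‖ ≤ B ^ 2 := by
        rw [norm_pow]
        exact pow_le_pow_left₀ (norm_nonneg _) (mol_bound hB n X) 2
      simp only [one_pow, norm_one, mul_one]
      rw [mul_comm]
      exact mul_le_mul_of_nonneg_right h2 (norm_nonneg _)
  · exact ((mol_tendsto hψ X).pow 2).const_mul _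

theorem nsq_mol {ψ : (ι → Om) → ℝ} (hψ : LC ψ) :
    Tendsto (fun n => nsq (mol n ψ)) atTop (𝓝 (nsq ψ)) := by
  have hW : AdmW (fun _ : ι → Om => (1 : ℝ)) :=
    (p_adm ι).1 _ ⟨measurable_const, fun _ => ⟨1, fun _ _ => by simp⟩⟩
  have := expv_mol hψ hW
  simpa [expv, nsq] using this

/-- a real wave function with smooth slices as a complex state -/
def stOf {N : ℕ} (F : (Fin N → Om) → ℝ) (x : Fin N → E3) (s : Fin N → Bool) : ℂ :=
  (sl F s x : ℂ)

theorem stOf_state {N : ℕ} {F : (Fin N → Om) → ℝ} (hF : WF F)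
    (hs : ∀ s, ContDiff ℝ (⊤ : ℕ∞) (sl F s)) : IsState N (stOf F) where
  smooth := fun s => Complex.ofRealCLM.contDiff.comp (hs s)
  compact := fun s => (sl_supp hF.toLC s).comp_left (g := fun r : ℝ => (r : ℂ)) Complex.ofReal_zero
  anti := fun σ x s => by
    have h := hF.anti σ (conf x s)
    unfold stOf
    have h2 : sl F (s ∘ σ) (x ∘ σ) = ((Equiv.Perm.sign σ : ℤ) : ℝ) * sl F s x := h
    rw [h2]
    push_cast
    rfl

theorem part_zero_Qf {N M : ℕ} (Y : Fin M → E3) :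
    nsq (fun _ : Fin N → Om => (0 : ℝ)) = 0 ∧ Qf Y (fun _ : Fin N → Om => (0 : ℝ)) = 0 := by
  constructor
  · simp [nsq]
  · unfold Qf kin kin1 expv gradSq
    simp

theorem stOf_eq {N M : ℕ} (Y : Fin M → E3) {F : (Fin N → Om) → ℝ} (hF : WF F)
    (hs : ∀ s, ContDiff ℝ (⊤ : ℕ∞) (sl F s)) :
    stNorm (stOf F) = nsq F ∧ stEnergy Y (fun _ => 1) (stOf F) = Qf Y F := by
  have h := st_split Y (stOf_state hF hs)
  have e1 : part Complex.reCLM (stOf F) = F := by
    funext X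
    unfold part stOf
    simp only [Complex.reCLM_apply, Complex.ofReal_re]
    rfl
  have e2 : part Complex.imCLM (stOf F) = fun _ => 0 := by
    funext X
    unfold part stOf
    simp
  rw [e1, e2, (part_zero_Qf Y).1, (part_zero_Qf Y).2, add_zero, add_zero] at h
  exact h

theorem Qf_smul {κ : Type} [Fintype κ] (Y : κ → E3) (F : (ι → Om) → ℝ) (c : ℝ) :
    Qf Y (fun X => c * F X) = c ^ 2 * Qf Y F ∧ nsq (fun X => c * F X) = c ^ 2 * nsq F := by
  constructor
  · unfold Qf kin kin1 expv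
    have h1 : ∀ j X, gradSq (fun X => c * F X) j X = c ^ 2 * gradSq F j X := by
      intro j X
      unfold gradSq
      have : fderiv ℝ (fun y => c * F (put X j y)) (X j).1
          = c • fderiv ℝ (fun y => F (put X j y)) (X j).1 := by
        have := congrFun (fderiv_const_smul_field (𝕜 := ℝ) (f := fun y => F (put X j y)) c) (X j).1
        exact this
      rw [this, norm_smul, mul_pow, Real.norm_eq_abs, sq_abs]
    simp only [h1, integral_const_mul]
    rw [← Finset.mul_sum]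
    have h2 : ∫ X, pot Y X * (c * F X) ^ 2 ∂(mu ι) = c ^ 2 * ∫ X, pot Y X * F X ^ 2 ∂(mu ι) := by
      rw [← integral_const_mul]
      refine integral_congr_ae (ae_of_all _ fun X => ?_)
      simp only
      ring
    rw [h2]
    ring
  · unfold nsq
    rw [← integral_const_mul]
    refine integral_congr_ae (ae_of_all _ fun X => ?_)
    simp only
    ring

/-- the two energies agree for protons -/
theorem mol_eq_En (hen : S_en) {N M : ℕ} (Y : Fin M → E3) :
    molEnergy N Y (fun _ => 1) = En N Y := by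
  obtain ⟨hen1, hen2, -⟩ := hen
  -- lower bound for all states
  have hlow : ∀ ψ : (Fin N → E3) → (Fin N → Bool) → ℂ, IsState N ψ → stNorm ψ = 1 →
      En N Y ≤ stEnergy Y (fun _ => 1) ψ := by
    intro ψ hψ h1
    obtain ⟨e1, e2⟩ := st_split Y hψ
    have h3 := hen2 (Fin N) (Fin M) Y _ (part_wf Complex.reCLM hψ)
    have h4 := hen2 (Fin N) (Fin M) Y _ (part_wf Complex.imCLM hψ)
    rw [Fintype.card_fin] at h3 h4
    rw [e2]
    rw [e1] at h1
    calc En N Y = En N Y * (nsq (part Complex.reCLM ψ) + nsq (part Complex.imCLM ψ)) := by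
          rw [h1, mul_one]
      _ ≤ _ := by rw [mul_add]; exact add_le_add h3 h4
  have hbdd : BddBelow {e | ∃ ψ : (Fin N → E3) → (Fin N → Bool) → ℂ,
      IsState N ψ ∧ stNorm ψ = 1 ∧ e = stEnergy Y (fun _ => 1) ψ} := by
    refine ⟨En N Y, ?_⟩
    rintro e ⟨ψ, h1, h2, rfl⟩
    exact hlow ψ h1 h2
  -- upper bound
  have hup : ∀ ψ : (Fin N → Om) → ℝ, WF ψ → nsq ψ = 1 →
      {e | ∃ ψ : (Fin N → E3) → (Fin N → Bool) → ℂ,
      IsState N ψ ∧ stNorm ψ = 1 ∧ e = stEnergy Y (fun _ => 1) ψ}.Nonempty ∧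
      molEnergy N Y (fun _ => 1) ≤ Qf Y ψ := by
    intro ψ hψ h1
    have hn := nsq_mol hψ.toLC
    rw [h1] at hn
    have hW : AdmW (pot (ι := Fin N) Y) := ((p_adm (Fin N)).2.2.2.2.2.2.1 (Fin M) Y).2.2
    have hp := expv_mol hψ.toLC hW
    have hpos : ∀ᶠ n in atTop, 0 < nsq (mol n ψ) := hn.eventually (lt_mem_nhds one_pos)
    have hmem : ∀ n, 0 < nsq (mol n ψ) → (nsq (mol n ψ))⁻¹ * Qf Y (mol n ψ) ∈
        {e | ∃ ψ : (Fin N → E3) → (Fin N → Bool) → ℂ,
        IsState N ψ ∧ stNorm ψ = 1 ∧ e = stEnergy Y (fun _ => 1) ψ} := by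
      intro n hn0
      set c := Real.sqrt (nsq (mol n ψ))⁻¹ with hc
      have hc2 : c ^ 2 = (nsq (mol n ψ))⁻¹ := Real.sq_sqrt (inv_nonneg.mpr hn0.le)
      have hw := mol_wf hψ n
      have hwf : WF (fun X => c * mol n ψ X) := by
        refine { toLC := (p_lc_closure (Fin N) _ _ hw.toLC hw.toLC).2.1 c, anti := fun σ X => ?_ }
        show c * mol n ψ (X ∘ σ) = _ * (c * mol n ψ X)
        rw [hw.anti σ X]
        ring
      have hsm : ∀ s, ContDiff ℝ (⊤ : ℕ∞) (sl (fun X => c * mol n ψ X) s) := by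
        intro s
        have h5 : ContDiff ℝ (⊤ : ℕ∞) (sl (mol n ψ) s) := by
          rw [sl_mol]
          obtain ⟨C, hC⟩ := sl_lip hψ.toLC s
          exact moll_contDiff (kerN_ker n) hC.continuous
        exact contDiff_const.mul h5
      obtain ⟨e1, e2⟩ := stOf_eq Y hwf hsm
      obtain ⟨q1, q2⟩ := Qf_smul Y (mol n ψ) c
      refine ⟨stOf (fun X => c * mol n ψ X), stOf_state hwf hsm, ?_, ?_⟩
      · rw [e1, q2, hc2, inv_mul_cancel₀ hn0.ne']
      · rw [e2, q1, hc2]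
    refine ⟨?_, ?_⟩
    · obtain ⟨n, hn0⟩ := hpos.exists
      exact ⟨_, hmem n hn0⟩
    · have hlim : Tendsto (fun n => (nsq (mol n ψ))⁻¹ * (kin ψ + expv (pot Y) (mol n ψ))) atTop
          (𝓝 (Qf Y ψ)) := by
        have h5 := (hn.inv₀ one_ne_zero).mul (hp.const_add (kin ψ))
        simpa [Qf] using h5
      refine ge_of_tendsto hlim ?_
      filter_upwards [hpos] with n hn0
      refine (csInf_le hbdd (hmem n hn0)).trans ?_
      refine mul_le_mul_of_nonneg_left ?_ (inv_nonneg.mpr hn0.le)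
      unfold Qf
      have := kin_moll hψ.toLC (mol_lc hψ.toLC n) (kerN_ker n) (fun s => sl_mol n ψ s)
      linarith
  obtain ⟨ψ0, hψ0, hψ1⟩ := (hen1 (Fin M) Y N).1
  refine le_antisymm ?_ ?_
  · unfold En
    refine le_csInf ⟨_, ψ0, hψ0, hψ1, rfl⟩ ?_
    rintro e ⟨ψ, h1, h2, rfl⟩
    exact (hup ψ h1 h2).2
  · unfold molEnergy
    refine le_csInf (hup ψ0 hψ0 hψ1).1 ?_
    rintro e ⟨ψ, h1, h2, rfl⟩
    exact hlow ψ h1 h2

end Bridge

open Bridge

/-- **Bridge.** -/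
theorem p_bridge (hen : S_en) : NeutralDissociation → PQ1 := by
  intro h M₁ M₂ Y₁ Y₂ hM1 hM2 hY1 hY2 N₁ hN1 hN2
  -- a translation which separates the two groups
  obtain ⟨a, ha⟩ : ∃ a : E3, ∀ m m', Y₁ m ≠ a + Y₂ m' := by
    set S : Finset E3 := Finset.univ.image (fun p : Fin M₁ × Fin M₂ => Y₁ p.1 - Y₂ p.2) with hS
    obtain ⟨a, ha⟩ := Infinite.exists_notMem_finset S
    refine ⟨a, fun m m' hmm => ha ?_⟩
    rw [hS, Finset.mem_image]
    exact ⟨(m, m'), Finset.mem_univ _, by simp only; rw [hmm]; abel⟩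
  have hinj : Function.Injective (Sum.elim Y₁ (fun m => a + Y₂ m)) := by
    refine Function.Injective.sumElim hY1 (fun x y hxy => hY2 (add_left_cancel hxy)) ha
  have h1 := h M₁ M₂ Y₁ (fun m => a + Y₂ m) (fun _ => 1) (fun _ => 1) hM1 hM2 (fun _ => le_rfl)
    (fun _ => le_rfl) hinj N₁
  simp only [Finset.sum_const, Finset.card_univ, Fintype.card_fin, smul_eq_mul, mul_one] at h1
  have h2 := h1 hN1 hN2
  rw [mol_eq_En hen, mol_eq_En hen, mol_eq_En hen, mol_eq_En hen] at h2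
  obtain ⟨-, -, -, -, htr, -⟩ := hen
  rw [htr (Fin M₂) Y₂ M₂ a, htr (Fin M₂) Y₂ (M₁ + M₂ - N₁) a] at h2
  exact h2

end MolDis
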