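import Pool.Agent.Lib.MP_59f35a_mp.Stmts4

/-!
# MP_59f35a_mp : piece I2, the three cases (helper99)
-/

set_option autoImplicit false

noncomputable section

open MeasureTheory

namespace MolDis

namespace Cases

/-- one proton, indexed by `Fin 1` -/
def one1 : Fin 1 → E3 := fun _ => 0

theorem one1_inj : Function.Injective one1 := fun x y _ => Subsingleton.elim x y

theorem En_one1 (hen : S_en) (n : ℕ) : En n one1 = En n Hy := by
  obtain ⟨-, -, -, hre, -, -⟩ := hen
  exact hre (Fin 1) Unit (Equiv.ofUnique (Fin 1) Unit) Hy n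

theorem En_zero_Hy (hen : S_en) : En 0 Hy = 0 := by
  obtain ⟨-, -, -, -, -, h0⟩ := hen
  rw [h0 Unit Hy]
  simp [repNN, cou, Hy]

/-- the set of affinity slopes -/
def slopeSet : Set ℝ :=
  {t | ∃ (M l : ℕ) (Y : Fin M → E3), 1 ≤ M ∧ 1 ≤ l ∧ Function.Injective Y ∧
    t = (En M Y - En (M + l) Y) / l}

theorem slope_le (hsl : S_slopes) (hQ : PQ1) {t : ℝ}
    (ht : t ∈ slopeSet) (M k : ℕ) (Y : Fin M → E3) (hk : 1 ≤ k) (hkM : k ≤ M)
    (hY : Function.Injective Y) : (k : ℝ) * t ≤ En (M - k) Y - En M Y := by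
  obtain ⟨M₂, l, Y₂, hM2, hl, hY2, rfl⟩ := ht
  have h := hsl hQ M M₂ k l Y Y₂ hY hY2 hk hkM hM2 hl
  have hl0 : (0 : ℝ) < l := by exact_mod_cast hl
  rw [← mul_div_assoc, div_le_iff₀ hl0]
  linarith

set_option maxHeartbeats 1600000 in
theorem main (hen : S_en) (hen2 : S_en2) (hsl : S_slopes) (haH : S_aH) : S_cases := by
  intro hstep hD hQ
  obtain ⟨A, c, hA, hc, hc1, H⟩ := hstep hD
  obtain ⟨⟨a, ha⟩, -⟩ := haH hQ
  have ha' := ha
  obtain ⟨ha0, ha4, ha1, ha2⟩ := ha'
  have h1Hy : En 1 Hy = -1 / 4 := hen2.2.1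
  have h0Hy : En 0 Hy = 0 := En_zero_Hy hen
  have e1 : ∀ n, En n one1 = En n Hy := En_one1 hen
  -- the supremum of the slopes
  have hbd : ∀ t ∈ slopeSet, t ≤ 1 / 4 := by
    intro t ht
    have := slope_le hsl hQ ht 1 1 one1 le_rfl le_rfl one1_inj
    rw [e1, e1] at this
    simp only [Nat.cast_one, one_mul, Nat.sub_self] at this
    rw [h0Hy, h1Hy] at this
    linarith
  have hbdd : BddAbove slopeSet := ⟨1 / 4, hbd⟩
  have hne : slopeSet.Nonempty := ⟨_, 1, 1, one1, le_rfl, le_rfl, one1_inj, rfl⟩
  obtain ⟨cm, hcm⟩ : ∃ cm, cm = sSup slopeSet := ⟨_, rfl⟩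
  have hcm4 : cm ≤ 1 / 4 := hcm ▸ csSup_le hne hbd
  have haff : ∀ (M l : ℕ) (Y : Fin M → E3), 1 ≤ M → Function.Injective Y →
      En M Y - En (M + l) Y ≤ l * cm := by
    intro M l Y hM hY
    rcases Nat.eq_zero_or_pos l with h | h
    · subst h; simp
    · have h2 : (En M Y - En (M + l) Y) / l ≤ cm := by
        rw [hcm]; exact le_csSup hbdd ⟨M, l, Y, hM, h, hY, rfl⟩
      have hl0 : (0 : ℝ) < l := by exact_mod_cast h
      rw [div_le_iff₀ hl0] at h2
      linarith
  have hion : ∀ (M k : ℕ) (Y : Fin M → E3), k ≤ M → Function.Injective Y →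
      (k : ℝ) * cm ≤ En (M - k) Y - En M Y := by
    intro M k Y hkM hY
    rcases Nat.eq_zero_or_pos k with h | h
    · subst h; simp
    · have hk0 : (0 : ℝ) < k := by exact_mod_cast h
      have h2 : cm ≤ (En (M - k) Y - En M Y) / k := by
        rw [hcm]
        refine csSup_le hne fun t ht => ?_
        rw [le_div_iff₀ hk0]
        have := slope_le hsl hQ ht M k Y h hkM hY
        linarith
      rw [le_div_iff₀ hk0] at h2
      linarith
  have hacm : a ≤ cm := by
    refine le_of_forall_pos_le_add fun ε hε => ?_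
    obtain ⟨l, hl, h⟩ := ha2 ε hε
    have h2 := haff 1 l one1 le_rfl one1_inj
    rw [e1, e1, h1Hy] at h2
    have hl0 : (0 : ℝ) < l := by exact_mod_cast hl
    have h3 : (l : ℝ) * (a - ε) ≤ l * cm := h.trans h2
    have h4 := le_of_mul_le_mul_left h3 hl0
    linarith
  have hA0 : 0 < A := by linarith
  rcases lt_or_ge cm (1 / 4) with hlt | hge
  · rcases lt_or_ge a cm with hlt2 | hge2
    · -- Case 1
      obtain ⟨Δ, hΔ⟩ : ∃ Δ, Δ = min (cm - a) (1 / 4 - cm) := ⟨_, rfl⟩
      have hΔ0 : 0 < Δ := by rw [hΔ]; exact lt_min (by linarith) (by linarith)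
      have hΔ1 : Δ ≤ cm - a := by rw [hΔ]; exact min_le_left _ _
      have hΔ2 : Δ ≤ 1 / 4 - cm := by rw [hΔ]; exact min_le_right _ _
      obtain ⟨v, hv⟩ : ∃ v, v = Δ / (16 * (A + 1)) := ⟨_, rfl⟩
      have hv0 : 0 < v := by rw [hv]; positivity
      have hvΔ : 16 * (A + 1) * v = Δ := by rw [hv]; field_simp
      have hAv0 : 0 < A * v := by positivity
      have hcv : 0 < c * v := by positivity
      obtain ⟨t, ht, hlt3⟩ := exists_lt_of_lt_csSup hne (b := cm - c * v / 16)
        (by rw [← hcm]; linarith)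
      obtain ⟨Ms, l, Ys, hMs, hl, hYs, rfl⟩ := ht
      have hl0 : (0 : ℝ) < l := by exact_mod_cast hl
      have hM0 : (0 : ℝ) < Ms := by exact_mod_cast hMs
      rw [lt_div_iff₀ hl0] at hlt3
      obtain ⟨δ, hδ⟩ : ∃ δ, δ = min (1 / 8) (l * c / (64 * A * Ms)) := ⟨_, rfl⟩
      have hδ0 : 0 < δ := by rw [hδ]; exact lt_min (by norm_num) (by positivity)
      have hδ8 : δ ≤ 1 / 8 := by rw [hδ]; exact min_le_left _ _
      have hδ2 : 64 * A * Ms * δ ≤ l * c := by
        have : δ ≤ l * c / (64 * A * Ms) := by rw [hδ]; exact min_le_right _ _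
        rw [le_div_iff₀ (by positivity)] at this
        linarith
      have hAδv0 : 0 < A * δ * v := by positivity
      have hNs : (((Ms + l : ℕ) : ℝ) - Ms) = l := by push_cast; ring
      have hAδv : A * δ * v ≤ A * v := by
        have := mul_le_mul_of_nonneg_left hδ8 hAv0.le
        linarith
      have hγ4 : v < 1 / 4 := by linarith
      obtain ⟨Mt, Nt, q, Y, hMt, hq, hYi, hN, hfin⟩ := H a v δ v (2 * A * Ms * δ * v) 1 Ms (Ms + l) Ys ha hv0
        hγ4 hδ0 hδ8 hv0 (by positivity) (Or.inl rfl) hYs hMs (by rw [hNs]; linarith)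
        (by
          rw [hNs, abs_of_pos hl0]
          have : 2 * A * Ms * δ * v = 64 * A * Ms * δ * v / 32 := by ring
          rw [this]
          have h5 := mul_le_mul_of_nonneg_right hδ2 hv0.le
          linarith)
        (by
          intro u0 hu1 hu2
          rw [one_mul] at hu1 hu2
          refine ⟨cm + u0 + A * δ * v, by linarith, by linarith, fun u hu N => ?_⟩
          rw [abs_le] at hu
          rcases le_total Ms N with hN | hN
          · obtain ⟨l', rfl⟩ := Nat.exists_eq_add_of_le hN
            have h5 := haff Ms l' Ys hMs hYs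
            have h6 : (((Ms + l' : ℕ) : ℝ) - Ms) = l' := by push_cast; ring
            rw [h6]
            have h7 : cm ≤ cm + u0 + A * δ * v - u := by linarith
            have h8 : (l' : ℝ) * cm ≤ (cm + u0 + A * δ * v - u) * l' := by
              rw [mul_comm]
              exact mul_le_mul_of_nonneg_right h7 (Nat.cast_nonneg _)
            have h9 : 0 ≤ 2 * A * Ms * δ * v := by positivity
            linarith
          · obtain ⟨k, rfl⟩ := Nat.exists_eq_add_of_le hN
            have h5 := hion (N + k) k Ys (by omega) hYs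
            rw [Nat.add_sub_cancel] at h5
            have h6 : ((N : ℝ) - ((N + k : ℕ) : ℝ)) = -k := by push_cast; ring
            rw [h6]
            have h7 : cm + u0 + A * δ * v - u ≤ cm + 2 * (A * δ * v) := by linarith
            have h8 : (k : ℝ) * (cm + u0 + A * δ * v - u) ≤ k * (cm + 2 * (A * δ * v)) :=
              mul_le_mul_of_nonneg_left h7 (Nat.cast_nonneg _)
            have h9 : (k : ℝ) ≤ ((N + k : ℕ) : ℝ) := by push_cast; linarith [(Nat.cast_nonneg N : (0:ℝ) ≤ N)]
            have h10 : (k : ℝ) * (2 * (A * δ * v)) ≤ ((N + k : ℕ) : ℝ) * (2 * (A * δ * v)) :=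
              mul_le_mul_of_nonneg_right h9 (by positivity)
            have h11 : 2 * A * ((N + k : ℕ) : ℝ) * δ * v = ((N + k : ℕ) : ℝ) * (2 * (A * δ * v)) := by ring
            rw [h11]
            linarith)
      have hNt : Nt = Mt + q * l := by
        have : (Nt : ℤ) = Mt + q * l := by push_cast at hN; linarith
        exact_mod_cast this
      subst hNt
      have h5 := haff Mt (q * l) Y hMt hYi
      rw [hNs, abs_of_pos hl0] at hfin
      have hq0 : (0 : ℝ) < q := by exact_mod_cast hq
      have h6 : (q : ℝ) * ((En Ms Ys - En (Ms + l) Ys) + l * c * v / 4) ≤ q * (l * cm) := by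
        have h7 : (((q * l : ℕ) : ℝ)) * cm = q * (l * cm) := by push_cast; ring
        rw [← h7]
        linarith
      have h8 := le_of_mul_le_mul_left h6 hq0
      have h9 : 0 < l * c * v := by positivity
      linarith
    · -- Case 2
      have hce : cm = a := le_antisymm hge2 hacm
      obtain ⟨v, hv⟩ : ∃ v, v = (1 / 4 - a) / (16 * (A + 1)) := ⟨_, rfl⟩
      have hv0 : 0 < v := by rw [hv]; exact div_pos (by linarith) (by positivity)
      have hva : 16 * (A + 1) * v = 1 / 4 - a := by rw [hv]; field_simp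
      have hAv0 : 0 < A * v := by positivity
      have hcv : 0 < c * v := by positivity
      have hγ4 : v < 1 / 4 := by linarith
      obtain ⟨l, hl, h⟩ := ha2 (c * v / 16) (by positivity)
      have hl0 : (0 : ℝ) < l := by exact_mod_cast hl
      have hNs : (((1 + l : ℕ) : ℝ) - (1 : ℕ)) = l := by push_cast; ring
      obtain ⟨Mt, Nt, q, Y, hMt, hq, hYi, hN, hfin⟩ := H a v (1 / 8) v 0 1 1 (1 + l) one1 ha hv0
        hγ4 (by norm_num) le_rfl hv0 le_rfl (Or.inl rfl) one1_inj le_rfl (by rw [hNs]; linarith)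
        (by rw [hNs]; positivity)
        (by
          intro u0 hu1 hu2
          rw [one_mul] at hu1 hu2
          refine ⟨(a + 1 / 4) / 2, by linarith, by linarith, fun u hu N => ?_⟩
          rw [abs_le] at hu
          rw [e1, e1, h1Hy]
          rcases Nat.eq_zero_or_pos N with h0 | h0
          · subst h0
            rw [h0Hy]
            push_cast
            linarith
          · obtain ⟨l', rfl⟩ := Nat.exists_eq_add_of_le h0
            have h6 : (((0 + 1 + l' : ℕ) : ℝ) - (1 : ℕ)) = l' := by push_cast; ring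
            rw [h6]
            have h7 : a ≤ (a + 1 / 4) / 2 - u := by linarith
            have h8 : (l' : ℝ) * a ≤ ((a + 1 / 4) / 2 - u) * l' := by
              rw [mul_comm]
              exact mul_le_mul_of_nonneg_right h7 (Nat.cast_nonneg _)
            have h9 : -1 / 4 - En (0 + 1 + l') Hy ≤ l' * a := by
              rcases Nat.eq_zero_or_pos l' with hl' | hl'
              · subst hl'
                simp [h1Hy]
              · have := ha1 l' hl'
                rwa [zero_add]
            linarith)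
      have hNt : Nt = Mt + q * l := by
        have : (Nt : ℤ) = Mt + q * l := by push_cast at hN; linarith
        exact_mod_cast this
      subst hNt
      have h5 := haff Mt (q * l) Y hMt hYi
      rw [hNs, abs_of_pos hl0, e1, e1, h1Hy] at hfin
      have hq0 : (0 : ℝ) < q := by exact_mod_cast hq
      have h6 : (q : ℝ) * ((-1 / 4 - En (1 + l) Hy) + l * c * v / 4) ≤ q * (l * cm) := by
        have h7 : (((q * l : ℕ) : ℝ)) * cm = q * (l * cm) := by push_cast; ring
        rw [← h7]
        linarith
      have h8 := le_of_mul_le_mul_left h6 hq0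
      have h9 : 0 < l * c * v := by positivity
      rw [hce] at h8
      linarith
  · -- Case 3
    have hce : cm = 1 / 4 := le_antisymm hcm4 hge
    obtain ⟨v, hv⟩ : ∃ v, v = (1 / 4 - a) / (16 * (A + 1)) := ⟨_, rfl⟩
    have hv0 : 0 < v := by rw [hv]; exact div_pos (by linarith) (by positivity)
    have hva : 16 * (A + 1) * v = 1 / 4 - a := by rw [hv]; field_simp
    have hAv0 : 0 < A * v := by positivity
    have hcv : 0 < c * v := by positivity
    have hγ4 : v < 1 / 4 := by linarith
    have hNs : (((0 : ℕ) : ℝ) - (1 : ℕ)) = -1 := by push_cast; ring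
    obtain ⟨Mt, Nt, q, Y, hMt, hq, hYi, hN, hfin⟩ := H a v (1 / 8) v 0 (-1) 1 0 one1 ha hv0
      hγ4 (by norm_num) le_rfl hv0 le_rfl (Or.inr rfl) one1_inj le_rfl (by rw [hNs]; norm_num)
      (by rw [hNs]; positivity)
      (by
        intro u0 hu1 hu2
        refine ⟨(a + 1 / 4) / 2, by linarith, by linarith, fun u hu N => ?_⟩
        rw [abs_le] at hu
        rw [e1, e1, h1Hy]
        rcases Nat.eq_zero_or_pos N with h0 | h0
        · subst h0
          rw [h0Hy]
          push_cast
          linarith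
        · obtain ⟨l', rfl⟩ := Nat.exists_eq_add_of_le h0
          have h6 : (((0 + 1 + l' : ℕ) : ℝ) - (1 : ℕ)) = l' := by push_cast; ring
          rw [h6]
          have h7 : a ≤ (a + 1 / 4) / 2 - u := by linarith
          have h8 : (l' : ℝ) * a ≤ ((a + 1 / 4) / 2 - u) * l' := by
            rw [mul_comm]
            exact mul_le_mul_of_nonneg_right h7 (Nat.cast_nonneg _)
          have h9 : -1 / 4 - En (0 + 1 + l') Hy ≤ l' * a := by
            rcases Nat.eq_zero_or_pos l' with hl' | hl'
            · subst hl'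
              simp [h1Hy]
            · have := ha1 l' hl'
              rwa [zero_add]
          linarith)
    have hMt2 : Mt = Nt + q := by
      have : (Mt : ℤ) = Nt + q := by push_cast at hN; linarith
      exact_mod_cast this
    subst hMt2
    have h5 := hion (Nt + q) q Y (by omega) hYi
    rw [Nat.add_sub_cancel] at h5
    rw [hNs, e1, e1, h1Hy, h0Hy] at hfin
    have hq0 : (0 : ℝ) < q := by exact_mod_cast hq
    have habs : |(-1 : ℝ)| = 1 := by norm_num
    rw [habs] at hfin
    rw [hce] at h5
    have : 0 < (q : ℝ) * (c * v) := by positivity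
    linarith

end Cases

/-- **I2 (the three cases).** -/
theorem p_cases (hen : S_en) (hen2 : S_en2) (hsl : S_slopes) (haH : S_aH) : S_cases :=
  Cases.main hen hen2 hsl haH

end MolDis
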