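import Pool.Agent.Lib.MP_59f35a_mp.Stmts1

/-!
# MP_59f35a_mp : elementary facts on the energies (piece A2)
-/

set_option autoImplicit false
set_option linter.unusedSectionVars false

noncomputable section

open MeasureTheory

namespace MolDis

namespace EnBasic

instance : SigmaFinite mu1 := by unfold mu1; infer_instance
instance : IsFiniteMeasureOnCompacts mu1 := by unfold mu1; infer_instance
instance : Measure.IsOpenPosMeasure mu1 := by unfold mu1; infer_instance

section measure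
variable {ι ι' : Type} [Fintype ι] [Fintype ι']

instance : Measure.IsOpenPosMeasure (mu ι) := by unfold mu; infer_instance
instance : IsFiniteMeasureOnCompacts (mu ι) := by unfold mu; infer_instance

/-- reindexing of the electrons -/
theorem integral_reindex (e : ι' ≃ ι) (g : (ι → Om) → ℝ) :
    ∫ X, g (X ∘ e.symm) ∂(mu ι') = ∫ X, g X ∂(mu ι) := by
  have h := measurePreserving_piCongrLeft (α := fun _ : ι => Om) (fun _ => mu1) e
  have h1 := h.integral_comp' g
  have h2 : ∀ X : ι' → Om, MeasurableEquiv.piCongrLeft (fun _ : ι => Om) e X = X ∘ e.symm := by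
    intro X
    funext j
    obtain ⟨i, rfl⟩ := e.surjective j
    rw [MeasurableEquiv.coe_piCongrLeft]
    change (Equiv.piCongrLeft (fun _ : ι => Om) e) X (e i) = X (e.symm (e i))
    rw [Equiv.piCongrLeft_apply_apply, Equiv.symm_apply_apply]
  simp only [h2] at h1
  exact h1

/-- translation of all positions -/
def tr (a : E3) (X : ι → Om) : ι → Om := fun j => (a + (X j).1, (X j).2)

theorem mp_tr (a : E3) : MeasurePreserving (tr (ι := ι) a) (mu ι) (mu ι) := by
  have h1 : MeasurePreserving (fun x : Om => ((a + x.1, x.2) : Om)) mu1 mu1 :=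
    (measurePreserving_add_left (volume : Measure E3) a).prod
      (MeasurePreserving.id (Measure.count : Measure Bool))
  exact measurePreserving_pi (fun _ : ι => mu1) (fun _ : ι => mu1) (fun _ => h1)

/-- translation as an equivalence -/
def trE (a : E3) : (ι → Om) ≃ᵐ (ι → Om) where
  toFun := tr a
  invFun := tr (-a)
  left_inv X := by funext j; simp [tr]
  right_inv X := by funext j; simp [tr]
  measurable_toFun := (mp_tr a).measurable
  measurable_invFun := (mp_tr (-a)).measurable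

theorem integral_tr (a : E3) (g : (ι → Om) → ℝ) :
    ∫ X, g (tr a X) ∂(mu ι) = ∫ X, g X ∂(mu ι) := by
  have h : MeasurePreserving (trE (ι := ι) a) (mu ι) (mu ι) := mp_tr a
  exact h.integral_comp' g

end measure

section basic
variable {ι κ : Type} [Fintype ι] [DecidableEq ι] [Fintype κ]

theorem integrable_sq (h1 : S_lc) {ψ : (ι → Om) → ℝ} (hψ : LC ψ) :
    Integrable (fun X => ψ X ^ 2) (mu ι) := (h1 ι ψ hψ).2.2.2.2.2.2

theorem integrable_W (h1 : S_lc) {ψ : (ι → Om) → ℝ} (hψ : LC ψ) {W : (ι → Om) → ℝ}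
    (hW : AdmW W) : Integrable (fun X => W X * ψ X ^ 2) (mu ι) := (h1 ι ψ hψ).2.2.2.2.2.1 W hW

theorem adm_cou (h3 : S_adm) (j : ι) (a : E3) : AdmW (fun X : ι → Om => cou (X j).1 a) :=
  (h3 ι).2.2.2.2.1 j a

theorem adm_attr (h3 : S_adm) (Y : κ → E3) : AdmW (attr (ι := ι) Y) :=
  ((h3 ι).2.2.2.2.2.2.1 κ Y).1

theorem adm_rep (h3 : S_adm) : AdmW (repEE (ι := ι)) :=
  ((h3 ι).2.2.2.2.2.2.1 Unit Hy).2.1

theorem cou_nonneg (x y : E3) : 0 ≤ cou x y := inv_nonneg.mpr (norm_nonneg _)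

theorem repEE_nonneg (X : ι → Om) : 0 ≤ repEE X :=
  mul_nonneg (by norm_num)
    (Finset.sum_nonneg fun _ _ => Finset.sum_nonneg fun _ _ => cou_nonneg _ _)

theorem nsq_nonneg (ψ : (ι → Om) → ℝ) : 0 ≤ nsq ψ := integral_nonneg fun _ => sq_nonneg _

theorem expv_pot (h1 : S_lc) (h3 : S_adm) (Y : κ → E3) {ψ : (ι → Om) → ℝ} (hψ : LC ψ) :
    expv (pot Y) ψ = - expv (attr Y) ψ + expv repEE ψ + repNN Y * nsq ψ := by
  have e1 : ∀ X : ι → Om, pot Y X * ψ X ^ 2 =
      (-(attr Y X * ψ X ^ 2) + repEE X * ψ X ^ 2) + repNN Y * ψ X ^ 2 := by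
    intro X; unfold pot; ring
  have i1 := integrable_W h1 hψ (adm_attr (ι := ι) h3 Y)
  have i2 := integrable_W h1 hψ (adm_rep (ι := ι) h3)
  have i3 := (integrable_sq h1 hψ).const_mul (repNN Y)
  have i1' : Integrable (fun X => -(attr Y X * ψ X ^ 2)) (mu ι) := i1.neg
  have i12 : Integrable (fun X => -(attr Y X * ψ X ^ 2) + repEE X * ψ X ^ 2) (mu ι) := i1'.add i2
  unfold expv nsq
  simp only [e1]
  rw [integral_add i12 i3, integral_add i1' i2, integral_neg, integral_const_mul]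

theorem expv_attr (h1 : S_lc) (h3 : S_adm) (Y : κ → E3) {ψ : (ι → Om) → ℝ} (hψ : LC ψ) :
    expv (attr Y) ψ = ∑ j, ∑ m, expv (fun X => cou (X j).1 (Y m)) ψ := by
  unfold expv attr
  have e1 : ∀ X : ι → Om, (∑ j, ∑ m, cou (X j).1 (Y m)) * ψ X ^ 2 =
      ∑ j, ∑ m, cou (X j).1 (Y m) * ψ X ^ 2 := by
    intro X
    rw [Finset.sum_mul]
    exact Finset.sum_congr rfl fun j _ => Finset.sum_mul _ _ _
  simp only [e1]
  rw [integral_finsetSum _ fun j _ => integrable_finsetSum _ fun m _ =>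
    integrable_W h1 hψ (adm_cou (ι := ι) h3 j (Y m))]
  refine Finset.sum_congr rfl fun j _ => ?_
  rw [integral_finsetSum _ fun m _ => integrable_W h1 hψ (adm_cou (ι := ι) h3 j (Y m))]

/-- the lower bound from the hydrogen inequality -/
theorem qf_lower (h1 : S_lc) (h3 : S_adm) (h4 : S_hyd) (Y : κ → E3) {ψ : (ι → Om) → ℝ}
    (hψ : LC ψ) :
    (repNN Y - Fintype.card ι * (Fintype.card κ : ℝ) ^ 2 / 4) * nsq ψ ≤ Qf Y ψ := by
  have hrep : 0 ≤ expv repEE ψ :=
    integral_nonneg fun X => mul_nonneg (repEE_nonneg X) (sq_nonneg _)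
  have hn := nsq_nonneg ψ
  have hkin : ∀ j, 0 ≤ kin1 j ψ := fun j => integral_nonneg fun X => sq_nonneg _
  have hj : ∀ j, ∑ m, expv (fun X => cou (X j).1 (Y m)) ψ ≤
      kin1 j ψ + (Fintype.card κ : ℝ) ^ 2 / 4 * nsq ψ := by
    intro j
    rcases Nat.eq_zero_or_pos (Fintype.card κ) with h0 | h0
    · have : IsEmpty κ := Fintype.card_eq_zero_iff.mp h0
      rw [Finset.univ_eq_empty, Finset.sum_empty, h0]
      have := hkin j
      push_cast
      linarith
    · have hM : (0 : ℝ) < Fintype.card κ := by exact_mod_cast h0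
      have h := fun m => h4 ι ψ j (Y m) (Fintype.card κ) hψ hM.le
      have hs := Finset.sum_le_sum fun m (_ : m ∈ (Finset.univ : Finset κ)) => h m
      rw [← Finset.mul_sum, Finset.sum_const, Finset.card_univ, nsmul_eq_mul] at hs
      exact le_of_mul_le_mul_left hs hM
  have hA : expv (attr Y) ψ ≤ kin ψ + Fintype.card ι * ((Fintype.card κ : ℝ) ^ 2 / 4 * nsq ψ) := by
    rw [expv_attr h1 h3 Y hψ]
    refine (Finset.sum_le_sum fun j _ => hj j).trans ?_
    rw [Finset.sum_add_distrib, Finset.sum_const, Finset.card_univ, nsmul_eq_mul]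
    exact le_rfl
  unfold Qf
  rw [expv_pot h1 h3 Y hψ]
  nlinarith

/-! ### scaling -/

theorem nsq_smul (c : ℝ) (ψ : (ι → Om) → ℝ) : nsq (fun X => c * ψ X) = c ^ 2 * nsq ψ := by
  unfold nsq
  rw [← integral_const_mul]
  exact integral_congr_ae (Filter.Eventually.of_forall fun X => by ring)

theorem expv_smul (c : ℝ) (W ψ : (ι → Om) → ℝ) :
    expv W (fun X => c * ψ X) = c ^ 2 * expv W ψ := by
  unfold expv
  rw [← integral_const_mul]
  exact integral_congr_ae (Filter.Eventually.of_forall fun X => by ring)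

theorem gradSq_smul (c : ℝ) (ψ : (ι → Om) → ℝ) (j : ι) (X : ι → Om) :
    gradSq (fun X => c * ψ X) j X = c ^ 2 * gradSq ψ j X := by
  unfold gradSq
  have h : fderiv ℝ (fun y => c * ψ (put X j y)) = c • fderiv ℝ (fun y => ψ (put X j y)) :=
    fderiv_const_smul_field (f := fun y => ψ (put X j y)) c
  rw [h, Pi.smul_apply, norm_smul, mul_pow, Real.norm_eq_abs, sq_abs]

theorem kin_smul (c : ℝ) (ψ : (ι → Om) → ℝ) : kin (fun X => c * ψ X) = c ^ 2 * kin ψ := by
  unfold kin
  rw [Finset.mul_sum]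
  refine Finset.sum_congr rfl fun j _ => ?_
  unfold kin1
  rw [← integral_const_mul]
  exact integral_congr_ae (Filter.Eventually.of_forall fun X => gradSq_smul c ψ j X)

theorem Qf_smul (c : ℝ) (Y : κ → E3) (ψ : (ι → Om) → ℝ) :
    Qf Y (fun X => c * ψ X) = c ^ 2 * Qf Y ψ := by
  unfold Qf
  rw [kin_smul, expv_smul]
  ring

theorem WF_smul (h2 : S_lc_closure) (c : ℝ) {ψ : (ι → Om) → ℝ} (hψ : WF ψ) :
    WF (fun X => c * ψ X) := by
  refine ⟨((h2 ι ψ ψ hψ.toLC hψ.toLC).2.1 c), ?_⟩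
  intro σ X
  change c * ψ (X ∘ σ) = _
  rw [hψ.anti σ X]
  ring

end basic

/-! ### reindexing of the electrons -/

section reindex
variable {ι ι' κ : Type} [Fintype ι] [DecidableEq ι] [Fintype ι'] [DecidableEq ι'] [Fintype κ]

theorem put_comp (e : ι' ≃ ι) (X : ι' → Om) (j : ι') (y : E3) :
    (put X j y) ∘ e.symm = put (X ∘ e.symm) (e j) y := by
  funext i
  unfold put
  by_cases h : i = e j
  · subst h
    simp
  · have h' : e.symm i ≠ j := fun h0 => h (by rw [← h0, Equiv.apply_symm_apply])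
    simp [Function.update_of_ne h, Function.update_of_ne h']

theorem WF_reindex (e : ι' ≃ ι) {ψ : (ι → Om) → ℝ} (hψ : WF ψ) :
    WF (fun X : ι' → Om => ψ (X ∘ e.symm)) := by
  refine ⟨⟨?_, ?_⟩, ?_⟩
  · obtain ⟨K, hK⟩ := hψ.lip
    refine ⟨K, fun X j y => ?_⟩
    have h := hK (X ∘ e.symm) (e j) y
    rw [put_comp]
    simpa using h
  · obtain ⟨R, hR⟩ := hψ.supp
    refine ⟨R, fun X hX j => ?_⟩
    have h := hR _ hX (e j)
    simpa using h
  · intro σ X
    have h := hψ.anti ((e.symm.trans σ).trans e) (X ∘ e.symm)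
    rw [Equiv.Perm.sign_symm_trans_trans] at h
    change ψ ((X ∘ σ) ∘ e.symm) = _ * ψ (X ∘ e.symm)
    rw [← h]
    congr 1
    funext i
    simp

theorem nsq_reindex (e : ι' ≃ ι) (ψ : (ι → Om) → ℝ) :
    nsq (fun X : ι' → Om => ψ (X ∘ e.symm)) = nsq ψ :=
  integral_reindex e (fun X => ψ X ^ 2)

theorem pot_reindex (e : ι' ≃ ι) (Y : κ → E3) (X : ι' → Om) :
    pot Y (X ∘ e.symm) = pot Y X := by
  unfold pot attr repEE
  have h1 : ∑ j, ∑ m, cou ((X ∘ e.symm) j).1 (Y m) = ∑ j, ∑ m, cou (X j).1 (Y m) :=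
    Equiv.sum_comp e.symm (fun j => ∑ m, cou (X j).1 (Y m))
  have h2 : ∑ j, ∑ k, cou ((X ∘ e.symm) j).1 ((X ∘ e.symm) k).1 =
      ∑ j, ∑ k, cou (X j).1 (X k).1 := by
    have h3 : ∀ j, ∑ k, cou ((X ∘ e.symm) j).1 ((X ∘ e.symm) k).1 =
        ∑ k, cou (X (e.symm j)).1 (X k).1 := fun j =>
      Equiv.sum_comp e.symm (fun k => cou (X (e.symm j)).1 (X k).1)
    simp only [h3]
    exact Equiv.sum_comp e.symm (fun j => ∑ k, cou (X j).1 (X k).1)
  rw [h1, h2]

theorem Qf_reindex (e : ι' ≃ ι) (Y : κ → E3) (ψ : (ι → Om) → ℝ) :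
    Qf Y (fun X : ι' → Om => ψ (X ∘ e.symm)) = Qf Y ψ := by
  unfold Qf
  have h1 : expv (pot Y) (fun X : ι' → Om => ψ (X ∘ e.symm)) = expv (pot Y) ψ := by
    have := integral_reindex e (fun X => pot Y X * ψ X ^ 2)
    simp only [pot_reindex] at this
    exact this
  have h2 : kin (fun X : ι' → Om => ψ (X ∘ e.symm)) = kin ψ := by
    unfold kin
    rw [← Equiv.sum_comp e (fun j => kin1 j ψ)]
    refine Finset.sum_congr rfl fun j _ => ?_
    unfold kin1
    rw [← integral_reindex e (fun X => gradSq ψ (e j) X)]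
    refine integral_congr_ae (Filter.Eventually.of_forall fun X => ?_)
    simp only [gradSq, put_comp, Function.comp_apply, Equiv.symm_apply_apply]
  rw [h1, h2]

end reindex

/-! ### translations -/

section translate
variable {ι κ : Type} [Fintype ι] [DecidableEq ι] [Fintype κ]

theorem tr_put (a : E3) (X : ι → Om) (j : ι) (y : E3) :
    tr a (put X j y) = put (tr a X) j (a + y) := by
  funext i
  unfold tr put
  by_cases h : i = j
  · subst h; simp
  · simp [Function.update_of_ne h]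

theorem WF_tr (a : E3) {ψ : (ι → Om) → ℝ} (hψ : WF ψ) : WF (fun X => ψ (tr a X)) := by
  refine ⟨⟨?_, ?_⟩, ?_⟩
  · obtain ⟨K, hK⟩ := hψ.lip
    refine ⟨K, fun X j y => ?_⟩
    have h := hK (tr a X) j (a + y)
    rw [tr_put]
    simpa [tr] using h
  · obtain ⟨R, hR⟩ := hψ.supp
    refine ⟨R + ‖a‖, fun X hX j => ?_⟩
    have h := hR _ hX j
    have h2 : (X j).1 = (a + (X j).1) - a := by abel
    rw [h2]
    refine (norm_sub_le _ _).trans ?_
    simpa [tr] using h
  · intro σ X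
    exact hψ.anti σ (tr a X)

theorem pot_tr (a : E3) (Y : κ → E3) (X : ι → Om) :
    pot (fun k => a + Y k) (tr a X) = pot Y X := by
  unfold pot attr repEE repNN cou tr
  simp only [add_sub_add_left_eq_sub]

theorem Qf_tr (a : E3) (Y : κ → E3) (ψ : (ι → Om) → ℝ) :
    Qf Y (fun X => ψ (tr a X)) = Qf (fun k => a + Y k) ψ := by
  unfold Qf
  have h1 : expv (pot Y) (fun X => ψ (tr a X)) = expv (pot fun k => a + Y k) ψ := by
    have := integral_tr a (fun X => pot (fun k => a + Y k) X * ψ X ^ 2)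
    simp only [pot_tr] at this
    exact this
  have h2 : kin (fun X => ψ (tr a X)) = kin ψ := by
    unfold kin
    refine Finset.sum_congr rfl fun j _ => ?_
    unfold kin1
    rw [← integral_tr a (fun X => gradSq ψ j X)]
    refine integral_congr_ae (Filter.Eventually.of_forall fun X => ?_)
    simp only [gradSq, tr_put]
    rw [fderiv_comp_add_left (f := fun y => ψ (put (tr a X) j y)) a]
    rfl
  rw [h1, h2]

theorem nsq_tr (a : E3) (ψ : (ι → Om) → ℝ) : nsq (fun X => ψ (tr a X)) = nsq ψ :=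
  integral_tr a (fun X => ψ X ^ 2)

end translate

/-! ### existence of wave functions -/

section exist
variable {n : ℕ}

/-- a bump -/
def bump (j : Fin n) (x : E3) : ℝ := max 0 (1 - ‖x - EuclideanSpace.single 0 (3 * (j : ℝ))‖)

theorem bump_nonneg (j : Fin n) (x : E3) : 0 ≤ bump j x := le_max_left _ _

theorem bump_le (j : Fin n) (x : E3) : bump j x ≤ 1 :=
  max_le zero_le_one (by linarith [norm_nonneg (x - EuclideanSpace.single 0 (3 * (j : ℝ)))])

theorem bump_cont (j : Fin n) : Continuous (bump j) := by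
  unfold bump
  fun_prop

theorem bump_lip (j : Fin n) (x y : E3) : |bump j y - bump j x| ≤ ‖y - x‖ := by
  unfold bump
  refine (abs_max_sub_max_le_max _ _ _ _).trans ?_
  rw [sub_self, abs_zero]
  refine max_le (norm_nonneg _) ?_
  have := abs_norm_sub_norm_le (x - EuclideanSpace.single 0 (3 * (j : ℝ)))
    (y - EuclideanSpace.single 0 (3 * (j : ℝ)))
  rw [sub_sub_sub_cancel_right, norm_sub_rev x y] at this
  refine le_trans (le_of_eq ?_) this
  congr 1
  ring

theorem bump_supp (j : Fin n) (x : E3) (h : bump j x ≠ 0) : ‖x‖ ≤ 1 + 3 * n := by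
  have h1 : ‖x - EuclideanSpace.single 0 (3 * (j : ℝ))‖ < 1 := by
    by_contra h0
    push Not at h0
    exact h (max_eq_left (by linarith))
  have h2 : x = (x - EuclideanSpace.single 0 (3 * (j : ℝ))) + EuclideanSpace.single 0 (3 * (j : ℝ)) := by
    abel
  rw [h2]
  refine (norm_add_le _ _).trans ?_
  rw [PiLp.norm_single, Real.norm_of_nonneg (by positivity)]
  have : (j : ℝ) ≤ n := by exact_mod_cast j.2.le
  linarith

theorem bump_site (i j : Fin n) :
    bump j (EuclideanSpace.single 0 (3 * (i : ℝ))) = if i = j then 1 else 0 := by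
  unfold bump
  split_ifs with h
  · subst h; simp
  · have h1 : (EuclideanSpace.single 0 (3 * (i : ℝ)) - EuclideanSpace.single 0 (3 * (j : ℝ)) : E3) =
        EuclideanSpace.single 0 (3 * ((i : ℝ) - j)) := by
      ext k
      fin_cases k <;> simp <;> ring
    rw [h1, PiLp.norm_single, Real.norm_eq_abs, abs_mul, abs_of_pos (by norm_num : (0:ℝ) < 3)]
    have h2 : (1 : ℝ) ≤ |(i : ℝ) - j| := by
      have h3 : ((i : ℕ) : ℤ) - (j : ℕ) ≠ 0 := by
        intro h0
        apply h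
        apply Fin.ext
        omega
      have h4 : (1 : ℤ) ≤ |((i : ℕ) : ℤ) - (j : ℕ)| := Int.one_le_abs h3
      exact_mod_cast h4
    exact max_eq_left (by linarith)

/-- the determinant of the bumps -/
def slater (n : ℕ) (X : Fin n → Om) : ℝ := Matrix.det (Matrix.of fun i k : Fin n => bump i (X k).1)

theorem slater_anti : Anti (slater n) := by
  intro σ X
  unfold slater
  rw [← Matrix.det_permute']
  rfl

theorem slater_cont : Continuous (slater n) := by
  unfold slater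
  refine Continuous.matrix_det ?_
  refine continuous_pi fun i => continuous_pi fun k => ?_
  exact (bump_cont i).comp ((continuous_fst).comp (continuous_apply k))

theorem prod_lip {ι : Type} [Fintype ι] [DecidableEq ι] (u : ι → E3 → ℝ)
    (h0 : ∀ i x, 0 ≤ u i x) (h1 : ∀ i x, u i x ≤ 1) (hl : ∀ i x y, |u i y - u i x| ≤ ‖y - x‖)
    (X : ι → Om) (j : ι) (y : E3) :
    |∏ i, u i (put X j y i).1 - ∏ i, u i (X i).1| ≤ ‖y - (X j).1‖ := by
  have e1 : ∏ i, u i (put X j y i).1 = u j y * ∏ i ∈ Finset.univ.erase j, u i (X i).1 := by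
    rw [← Finset.mul_prod_erase Finset.univ _ (Finset.mem_univ j)]
    congr 1
    · simp [put]
    · refine Finset.prod_congr rfl fun i hi => ?_
      unfold put
      rw [Function.update_of_ne (Finset.ne_of_mem_erase hi)]
  have e2 : ∏ i, u i (X i).1 = u j (X j).1 * ∏ i ∈ Finset.univ.erase j, u i (X i).1 :=
    (Finset.mul_prod_erase Finset.univ _ (Finset.mem_univ j)).symm
  rw [e1, e2, ← sub_mul, abs_mul]
  have h2 : |∏ i ∈ Finset.univ.erase j, u i (X i).1| ≤ 1 := by
    rw [abs_of_nonneg (Finset.prod_nonneg fun i _ => h0 _ _)]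
    exact Finset.prod_le_one (fun i _ => h0 _ _) (fun i _ => h1 _ _)
  calc |u j y - u j (X j).1| * |∏ i ∈ Finset.univ.erase j, u i (X i).1|
      ≤ ‖y - (X j).1‖ * 1 := mul_le_mul (hl _ _ _) h2 (abs_nonneg _) (norm_nonneg _)
    _ = ‖y - (X j).1‖ := mul_one _

theorem slater_LC (n : ℕ) : LC (slater n) := by
  refine ⟨⟨(Nat.factorial n : ℝ), fun X j y => ?_⟩, ⟨1 + 3 * n, fun X hX j => ?_⟩⟩
  · unfold slater
    rw [Matrix.det_apply', Matrix.det_apply', ← Finset.sum_sub_distrib]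
    refine (Finset.abs_sum_le_sum_abs _ _).trans ?_
    have : ∀ σ ∈ (Finset.univ : Finset (Equiv.Perm (Fin n))),
        |(((Equiv.Perm.sign σ : ℤ) : ℝ) * ∏ i, Matrix.of (fun i k : Fin n => bump i (put X j y k).1) (σ i) i -
          ((Equiv.Perm.sign σ : ℤ) : ℝ) * ∏ i, Matrix.of (fun i k : Fin n => bump i (X k).1) (σ i) i)| ≤
          ‖y - (X j).1‖ := by
      intro σ _
      rw [← mul_sub, abs_mul]
      have h1 : |((Equiv.Perm.sign σ : ℤ) : ℝ)| = 1 := by
        rcases Int.units_eq_one_or (Equiv.Perm.sign σ) with h | h <;> simp [h]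
      rw [h1, one_mul]
      exact prod_lip (fun i => bump (σ i)) (fun i x => bump_nonneg _ x) (fun i x => bump_le _ x)
        (fun i x y => bump_lip _ x y) X j y
    refine (Finset.sum_le_sum this).trans ?_
    rw [Finset.sum_const, Finset.card_univ, Fintype.card_perm, Fintype.card_fin, nsmul_eq_mul]
  · by_contra hj
    apply hX
    unfold slater
    refine Matrix.det_eq_zero_of_column_eq_zero j fun i => ?_
    by_contra h0
    exact hj (bump_supp i _ h0)

theorem slater_WF (n : ℕ) : WF (slater n) := ⟨slater_LC n, slater_anti⟩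

theorem slater_pos (n : ℕ) : 0 < nsq (slater n) := by
  unfold nsq
  refine Continuous.integral_pos_of_hasCompactSupport_nonneg_nonzero
    (x := fun k : Fin n => ((EuclideanSpace.single 0 (3 * (k : ℝ)) : E3), true))
    (slater_cont.pow 2) ?_ (fun X => sq_nonneg _) ?_
  · obtain ⟨R, hR⟩ := (slater_LC n).supp
    refine HasCompactSupport.intro
      (K := Set.univ.pi fun _ : Fin n => (Metric.closedBall (0 : E3) R) ×ˢ (Set.univ : Set Bool))
      (isCompact_univ_pi fun _ => (isCompact_closedBall _ _).prod isCompact_univ) ?_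
    intro X hX
    by_contra h0
    apply hX
    intro j _
    refine ⟨?_, Set.mem_univ _⟩
    rw [mem_closedBall_zero_iff]
    exact hR X (fun h => h0 (by simp [h])) j
  · unfold slater
    have : Matrix.of (fun i k : Fin n => bump i (EuclideanSpace.single 0 (3 * (k : ℝ)) : E3)) =
        (1 : Matrix (Fin n) (Fin n) ℝ) := by
      ext i k
      rw [Matrix.of_apply, bump_site, Matrix.one_apply]
      by_cases h : i = k
      · simp [h]
      · simp [h, Ne.symm h]
    change (Matrix.det (Matrix.of (fun i k : Fin n => bump i (EuclideanSpace.single 0 (3 * (k : ℝ)) : E3)))) ^ 2 ≠ 0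
    rw [this]
    simp

end exist

/-! ### the energy -/

section energy

/-- the set of energies -/
def Es {κ : Type} [Fintype κ] (n : ℕ) (Y : κ → E3) : Set ℝ :=
  {e | ∃ ψ : (Fin n → Om) → ℝ, WF ψ ∧ nsq ψ = 1 ∧ e = Qf Y ψ}

theorem En_eq {κ : Type} [Fintype κ] (n : ℕ) (Y : κ → E3) : En n Y = sInf (Es n Y) := rfl

theorem exists_WF (h2 : S_lc_closure) (n : ℕ) :
    ∃ ψ : (Fin n → Om) → ℝ, WF ψ ∧ nsq ψ = 1 := by
  refine ⟨_, WF_smul h2 (Real.sqrt (nsq (slater n)))⁻¹ (slater_WF n), ?_⟩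
  rw [nsq_smul, inv_pow, Real.sq_sqrt (slater_pos n).le, inv_mul_cancel₀ (slater_pos n).ne']

theorem Es_nonempty (h2 : S_lc_closure) {κ : Type} [Fintype κ] (n : ℕ) (Y : κ → E3) :
    (Es n Y).Nonempty := by
  obtain ⟨ψ, h, h'⟩ := exists_WF h2 n
  exact ⟨_, ψ, h, h', rfl⟩

theorem Es_lower (h1 : S_lc) (h3 : S_adm) (h4 : S_hyd) {κ : Type} [Fintype κ] (n : ℕ)
    (Y : κ → E3) (ψ : (Fin n → Om) → ℝ) (hψ : WF ψ) (hn : nsq ψ = 1) :
    repNN Y - Fintype.card (Fin n) * (Fintype.card κ : ℝ) ^ 2 / 4 ≤ Qf Y ψ := by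
  have := qf_lower h1 h3 h4 Y hψ.toLC
  rwa [hn, mul_one] at this

theorem Es_bdd (h1 : S_lc) (h3 : S_adm) (h4 : S_hyd) {κ : Type} [Fintype κ] (n : ℕ)
    (Y : κ → E3) : BddBelow (Es n Y) := by
  refine ⟨repNN Y - Fintype.card (Fin n) * (Fintype.card κ : ℝ) ^ 2 / 4, ?_⟩
  rintro e ⟨ψ, hψ, hn, rfl⟩
  exact Es_lower h1 h3 h4 n Y ψ hψ hn

theorem En_le (h1 : S_lc) (h2 : S_lc_closure) (h3 : S_adm) (h4 : S_hyd) {ι κ : Type} [Fintype ι]
    [DecidableEq ι] [Fintype κ] (Y : κ → E3) (ψ : (ι → Om) → ℝ) (hψ : WF ψ) :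
    En (Fintype.card ι) Y * nsq ψ ≤ Qf Y ψ := by
  rcases (nsq_nonneg ψ).eq_or_lt with h0 | h0
  · have := qf_lower h1 h3 h4 Y hψ.toLC
    rw [← h0] at this ⊢
    linarith
  · let e : Fin (Fintype.card ι) ≃ ι := (Fintype.equivFin ι).symm
    have hw := WF_smul h2 (Real.sqrt (nsq ψ))⁻¹ (WF_reindex e hψ)
    have hm : Qf Y (fun X : Fin (Fintype.card ι) → Om => (Real.sqrt (nsq ψ))⁻¹ * ψ (X ∘ e.symm)) ∈
        Es (Fintype.card ι) Y := by
      refine ⟨_, hw, ?_, rfl⟩
      rw [nsq_smul, nsq_reindex, inv_pow, Real.sq_sqrt h0.le, inv_mul_cancel₀ h0.ne']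
    have h := csInf_le (Es_bdd h1 h3 h4 _ Y) hm
    rw [Qf_smul, Qf_reindex, inv_pow, Real.sq_sqrt h0.le, ← En_eq] at h
    rw [← le_div_iff₀ h0, div_eq_inv_mul]
    exact h

theorem Es_tr {κ : Type} [Fintype κ] (n : ℕ) (Y : κ → E3) (a : E3) :
    Es n (fun k => a + Y k) ⊆ Es n Y := by
  rintro e ⟨ψ, hψ, hn, rfl⟩
  exact ⟨_, WF_tr a hψ, (nsq_tr a ψ).trans hn, (Qf_tr a Y ψ).symm⟩

theorem En_tr {κ : Type} [Fintype κ] (n : ℕ) (Y : κ → E3) (a : E3) :
    En n (fun k => a + Y k) = En n Y := by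
  rw [En_eq, En_eq]
  congr 1
  refine Set.Subset.antisymm (Es_tr n Y a) ?_
  have h := Es_tr n (fun k => a + Y k) (-a)
  simpa using h

theorem repNN_comp {κ κ' : Type} [Fintype κ] [Fintype κ'] (e : κ ≃ κ') (Y : κ' → E3) :
    repNN (fun k => Y (e k)) = repNN Y := by
  unfold repNN
  congr 1
  have h : ∀ l, ∑ m, cou (Y (e l)) (Y (e m)) = ∑ m, cou (Y (e l)) (Y m) := fun l =>
    Equiv.sum_comp e (fun m => cou (Y (e l)) (Y m))
  simp only [h]
  exact Equiv.sum_comp e (fun l => ∑ m, cou (Y l) (Y m))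

theorem pot_comp {ι κ κ' : Type} [Fintype ι] [Fintype κ] [Fintype κ'] (e : κ ≃ κ')
    (Y : κ' → E3) : pot (ι := ι) (fun k => Y (e k)) = pot Y := by
  funext X
  unfold pot
  rw [repNN_comp]
  congr 2
  unfold attr
  congr 1
  refine Finset.sum_congr rfl fun j _ => ?_
  exact Equiv.sum_comp e (fun m => cou (X j).1 (Y m))

theorem En_comp {κ κ' : Type} [Fintype κ] [Fintype κ'] (e : κ ≃ κ') (Y : κ' → E3) (n : ℕ) :
    En n (fun k => Y (e k)) = En n Y := by
  unfold En Qf
  rw [pot_comp]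

theorem En_zero (h2 : S_lc_closure) {κ : Type} [Fintype κ] (Y : κ → E3) : En 0 Y = repNN Y := by
  rw [En_eq]
  have hs : Es 0 Y = {repNN Y} := by
    refine (Es_nonempty h2 0 Y).subset_singleton_iff.mp ?_
    rintro e ⟨ψ, hψ, hn, rfl⟩
    have hmu : mu (Fin 0) = Measure.dirac (fun a => isEmptyElim a) := Measure.pi_of_empty _ _
    have h1 : nsq ψ = ψ (fun a => isEmptyElim a) ^ 2 := by
      unfold nsq
      rw [hmu, integral_dirac]
    have h3 : Qf Y ψ = repNN Y * ψ (fun a => isEmptyElim a) ^ 2 := by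
      unfold Qf kin expv
      rw [hmu, integral_dirac, Finset.univ_eq_empty, Finset.sum_empty, zero_add]
      unfold pot attr repEE
      simp
    rw [Set.mem_singleton_iff, h3, ← h1, hn, mul_one]
  rw [hs, csInf_singleton]

end energy

end EnBasic

open EnBasic in
theorem p_en (h1 : S_lc) (h2 : S_lc_closure) (h3 : S_adm) (h4 : S_hyd) : S_en := by
  refine ⟨?_, ?_, ?_, ?_, ?_, ?_⟩
  · intro κ _ Y n
    exact ⟨exists_WF h2 n, _, fun ψ hψ hn => Es_lower h1 h3 h4 n Y ψ hψ hn⟩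
  · intro ι κ _ _ _ Y ψ hψ
    exact En_le h1 h2 h3 h4 Y ψ hψ
  · intro κ _ Y n ε hε
    obtain ⟨e, ⟨ψ, hψ, hn, rfl⟩, he⟩ :=
      exists_lt_of_csInf_lt (Es_nonempty h2 n Y) (b := En n Y + ε) (by rw [← En_eq]; linarith)
    exact ⟨ψ, hψ, hn, he.le⟩
  · intro κ κ' _ _ e Y n
    exact En_comp e Y n
  · intro κ _ Y n a
    exact En_tr n Y a
  · intro κ _ Y
    exact En_zero h2 Y

end MolDis
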