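import Pool.Agent.Lib.MP_59f35a_mp.Stmts2
import Pool.Agent.Lib.MP_59f35a_mp.EnBasic

/-!
# MP_59f35a_mp : the neutral polar cell (piece E2)
-/

set_option autoImplicit false

noncomputable section

open MeasureTheory

namespace MolDis

namespace CellB

open EnBasic

variable {Z : ℕ}

/-! ### real inequalities -/

lemma ineq1 {f p ε ε₁ CB ρ E t E1 : ℝ} (hf : 0 ≤ f) (hp : 0 ≤ p) (hε : 0 ≤ ε) (hε₁ : 0 < ε₁)
    (hCB : 1 ≤ CB) (hρ : 0 < ρ) (hE : E = ε₁ * p ^ 2 + CB * ρ ^ 2 * ε) (hE0 : 0 < E)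
    (ht : t = Real.sqrt E) (hE1 : E1 ≤ E) :
    f * t / 2 + f / (2 * t) * E1 ≤ Real.sqrt ε₁ * p * f + ε / 8 + 2 * CB * ρ ^ 2 * f ^ 2 := by
  have ht0 : 0 < t := by rw [ht]; exact Real.sqrt_pos.2 hE0
  have htt : t ^ 2 = E := by rw [ht]; exact Real.sq_sqrt hE0.le
  have h1 : f / (2 * t) * E1 ≤ f * t / 2 := by
    calc f / (2 * t) * E1 ≤ f / (2 * t) * E :=
          mul_le_mul_of_nonneg_left hE1 (by positivity)
      _ = f * t / 2 := by rw [← htt]; field_simp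
  have h2 : t ≤ Real.sqrt ε₁ * p + Real.sqrt (CB * ρ ^ 2 * ε) := by
    rw [ht]
    apply Real.sqrt_le_iff.2
    constructor
    · positivity
    · have ha : Real.sqrt ε₁ ^ 2 = ε₁ := Real.sq_sqrt hε₁.le
      have hb : Real.sqrt (CB * ρ ^ 2 * ε) ^ 2 = CB * ρ ^ 2 * ε := Real.sq_sqrt (by positivity)
      have hc : 0 ≤ Real.sqrt ε₁ * p * Real.sqrt (CB * ρ ^ 2 * ε) := by positivity
      calc E = ε₁ * p ^ 2 + CB * ρ ^ 2 * ε := hE
        _ = (Real.sqrt ε₁ * p) ^ 2 + Real.sqrt (CB * ρ ^ 2 * ε) ^ 2 := by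
            rw [mul_pow, ha, hb]
        _ ≤ (Real.sqrt ε₁ * p + Real.sqrt (CB * ρ ^ 2 * ε)) ^ 2 := by nlinarith
  have h3 : f * Real.sqrt (CB * ρ ^ 2 * ε) ≤ ε / 8 + 2 * CB * ρ ^ 2 * f ^ 2 := by
    have e1 : Real.sqrt (CB * ρ ^ 2 * ε) = Real.sqrt (CB * ρ ^ 2) * Real.sqrt ε :=
      Real.sqrt_mul (by positivity) _
    have e2 : Real.sqrt ε ^ 2 = ε := Real.sq_sqrt hε
    have e3 : Real.sqrt (CB * ρ ^ 2) ^ 2 = CB * ρ ^ 2 := Real.sq_sqrt (by positivity)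
    have e4 := sq_nonneg (Real.sqrt ε - 4 * (f * Real.sqrt (CB * ρ ^ 2)))
    rw [e1]
    nlinarith
  calc f * t / 2 + f / (2 * t) * E1 ≤ f * t := by linarith
    _ ≤ f * (Real.sqrt ε₁ * p + Real.sqrt (CB * ρ ^ 2 * ε)) := mul_le_mul_of_nonneg_left h2 hf
    _ ≤ _ := by linarith

lemma ineq2 {C d ρ ε ε₁ p CB E1 : ℝ} (hC : 1 ≤ C) (hd : 1 ≤ d) (hCB : 1 ≤ CB) (hε : 0 ≤ ε)
    (hρ : 0 < ρ) (hρd : ρ ≤ d) (hdd : 2048 * C * CB ≤ d)
    (hE1 : E1 ≤ ε₁ * p ^ 2 + CB * ρ ^ 2 * ε) :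
    256 * C / d ^ 3 * E1 ≤ 256 * C * ε₁ * p ^ 2 / d ^ 3 + ε / 8 := by
  have hd0 : 0 < d := by linarith
  have h1 : 256 * C / d ^ 3 * E1 ≤ 256 * C / d ^ 3 * (ε₁ * p ^ 2 + CB * ρ ^ 2 * ε) :=
    mul_le_mul_of_nonneg_left hE1 (by positivity)
  have h2 : 256 * C / d ^ 3 * (CB * ρ ^ 2 * ε) ≤ ε / 8 := by
    have : 256 * C / d ^ 3 * (CB * ρ ^ 2 * ε) ≤ 256 * C / d ^ 3 * (CB * d ^ 2 * ε) := by
      gcongr
    refine this.trans ?_
    have e : 256 * C / d ^ 3 * (CB * d ^ 2 * ε) = (256 * C * CB) * ε / d := by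
      field_simp
    rw [e, div_le_iff₀ hd0]
    nlinarith
  calc 256 * C / d ^ 3 * E1 ≤ 256 * C / d ^ 3 * (ε₁ * p ^ 2 + CB * ρ ^ 2 * ε) := h1
    _ = 256 * C * ε₁ * p ^ 2 / d ^ 3 + 256 * C / d ^ 3 * (CB * ρ ^ 2 * ε) := by ring
    _ ≤ _ := by linarith

lemma ineq3 {H K0 z s CB ρ M4 ε d : ℝ} (hH : 0 ≤ H) (hz : 0 ≤ z) (hCB : 1 ≤ CB)
    (hρ : 0 < ρ) (hρd : ρ ≤ d) (hε : 0 ≤ ε) (hs : s = 1 + 4 * H * CB * ρ ^ 4)
    (hM4 : M4 ≤ CB * (1 + ρ ^ 4 * ε)) :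
    H * (K0 + z * s / 2) + H / (2 * s) * M4 ≤
      (K0 + z / 2 + CB / 2) * H + 2 * z * CB * (H ^ 2 * d ^ 4) + ε / 8 := by
  have hs1 : 1 ≤ s := by rw [hs]; have : 0 ≤ 4 * H * CB * ρ ^ 4 := by positivity
                         linarith
  have hs0 : 0 < s := by linarith
  have h1 : H / (2 * s) * M4 ≤ H / (2 * s) * (CB * (1 + ρ ^ 4 * ε)) :=
    mul_le_mul_of_nonneg_left hM4 (by positivity)
  have h2 : H / (2 * s) * (CB * (1 + ρ ^ 4 * ε)) ≤ CB / 2 * H + ε / 8 := by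
    have e : H / (2 * s) * (CB * (1 + ρ ^ 4 * ε)) = (CB / 2 * H + H * CB * ρ ^ 4 * ε / 2) / s := by
      field_simp
    rw [e, div_le_iff₀ hs0]
    have e1 : CB / 2 * H ≤ CB / 2 * H * s := le_mul_of_one_le_right (by positivity) hs1
    have e2 : H * CB * ρ ^ 4 * ε / 2 ≤ ε / 8 * s := by
      rw [hs]
      nlinarith
    linarith
  have h3 : z * s / 2 * H ≤ z / 2 * H + 2 * z * CB * (H ^ 2 * d ^ 4) := by
    have e1 : ρ ^ 4 ≤ d ^ 4 := by gcongr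
    have e2 : 2 * z * CB * (H ^ 2 * ρ ^ 4) ≤ 2 * z * CB * (H ^ 2 * d ^ 4) := by gcongr
    calc z * s / 2 * H = z / 2 * H + 2 * z * CB * (H ^ 2 * ρ ^ 4) := by rw [hs]; ring
      _ ≤ _ := by linarith
  linarith

lemma ineq4 {C z K0 CB ρ M4 ε d : ℝ} (hC : 1 ≤ C) (hz : 0 ≤ z) (hCB : 1 ≤ CB) (hd : 1 ≤ d)
    (hρ : 0 < ρ) (hρd : ρ ≤ d) (hε : 0 ≤ ε) (hM4 : M4 ≤ CB * (1 + ρ ^ 4 * ε))
    (hdd : 262144 * C * z * CB ≤ d) :
    32768 * C * K0 ^ 2 / d ^ 5 + 32768 * C * z / d ^ 5 * M4 ≤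
      (32768 * C * K0 ^ 2 + 32768 * C * z * CB) * (1 / d ^ 4) + ε / 8 := by
  have hd0 : 0 < d := by linarith
  have h0 : (1 : ℝ) / d ^ 5 ≤ 1 / d ^ 4 := by
    apply one_div_le_one_div_of_le (by positivity)
    calc d ^ 4 = d ^ 4 * 1 := by ring
      _ ≤ d ^ 4 * d := by gcongr
      _ = d ^ 5 := by ring
  have h1 : 32768 * C * z / d ^ 5 * M4 ≤ 32768 * C * z / d ^ 5 * (CB * (1 + ρ ^ 4 * ε)) :=
    mul_le_mul_of_nonneg_left hM4 (by positivity)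
  have h2 : 32768 * C * z / d ^ 5 * (CB * (ρ ^ 4 * ε)) ≤ ε / 8 := by
    have : 32768 * C * z / d ^ 5 * (CB * (ρ ^ 4 * ε)) ≤
        32768 * C * z / d ^ 5 * (CB * (d ^ 4 * ε)) := by gcongr
    refine this.trans ?_
    have e : 32768 * C * z / d ^ 5 * (CB * (d ^ 4 * ε)) = (32768 * C * z * CB) * ε / d := by
      field_simp
    rw [e, div_le_iff₀ hd0]
    nlinarith
  have h3 : (32768 * C * K0 ^ 2 + 32768 * C * z * CB) * (1 / d ^ 5) ≤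
      (32768 * C * K0 ^ 2 + 32768 * C * z * CB) * (1 / d ^ 4) :=
    mul_le_mul_of_nonneg_left h0 (by positivity)
  calc 32768 * C * K0 ^ 2 / d ^ 5 + 32768 * C * z / d ^ 5 * M4
      ≤ 32768 * C * K0 ^ 2 / d ^ 5 + 32768 * C * z / d ^ 5 * (CB * (1 + ρ ^ 4 * ε)) := by linarith
    _ = (32768 * C * K0 ^ 2 + 32768 * C * z * CB) * (1 / d ^ 5)
        + 32768 * C * z / d ^ 5 * (CB * (ρ ^ 4 * ε)) := by ring
    _ ≤ _ := by linarith

lemma ineq5 {CB Λ ρ ε d No : ℝ} (hCB : 1 ≤ CB) (hΛ : 32 ≤ Λ) (hd : 1 ≤ d) (hρ : ρ = d / Λ)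
    (hε : 0 ≤ ε) (hNo : No ≤ CB * (ε + 1 / ρ ^ 6)) (hdd : 80 * CB * Λ ^ 2 ≤ d) :
    10 / ρ ^ 2 * No ≤ 10 * CB * Λ ^ 8 * (1 / d ^ 4) + ε / 8 := by
  have hd0 : 0 < d := by linarith
  have hL0 : 0 < Λ := by linarith
  have hρ0 : 0 < ρ := by rw [hρ]; positivity
  have h1 : 10 / ρ ^ 2 * No ≤ 10 / ρ ^ 2 * (CB * (ε + 1 / ρ ^ 6)) :=
    mul_le_mul_of_nonneg_left hNo (by positivity)
  have h2 : 10 / ρ ^ 2 * (CB * (ε + 1 / ρ ^ 6)) =
      10 * CB * Λ ^ 2 * ε / d ^ 2 + 10 * CB * Λ ^ 8 * (1 / d ^ 8) := by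
    rw [hρ]; field_simp
  have h3 : 10 * CB * Λ ^ 2 * ε / d ^ 2 ≤ ε / 8 := by
    rw [div_le_iff₀ (by positivity)]
    have : d ≤ d ^ 2 := by nlinarith
    nlinarith
  have h4 : (1 : ℝ) / d ^ 8 ≤ 1 / d ^ 4 := by
    apply one_div_le_one_div_of_le (by positivity)
    exact pow_le_pow_right₀ hd (by norm_num)
  have h5 : 10 * CB * Λ ^ 8 * (1 / d ^ 8) ≤ 10 * CB * Λ ^ 8 * (1 / d ^ 4) :=
    mul_le_mul_of_nonneg_left h4 (by positivity)
  linarith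

/-! ### the observables -/

/-- fourth moment -/
def q4 (X : Fin Z → Om) : ℝ := ∑ j, ‖(X j).1‖ ^ 4

/-- number of outside electrons -/
def cn (t : ℝ) (X : Fin Z → Om) : ℝ := ∑ j, if t ≤ ‖(X j).1‖ then (1 : ℝ) else 0

/-- deviation of the dipole moment -/
def pp (B : Fin Z → E3) (P : E3) (X : Fin Z → Om) : ℝ := ‖vdip B X - P‖ ^ 2

lemma bdd_const (c : ℝ) : BddW (fun _ : Fin Z → Om => c) :=
  ⟨measurable_const, fun _ => ⟨|c|, fun _ _ => le_rfl⟩⟩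

lemma bdd_q4 : BddW (q4 (Z := Z)) := by
  refine ⟨?_, fun R => ⟨Z * |R| ^ 4, fun X hX => ?_⟩⟩
  · unfold q4
    exact Finset.measurable_sum _ fun j _ => ((measurable_pi_apply j).fst.norm.pow_const 4)
  · unfold q4
    rw [abs_of_nonneg (Finset.sum_nonneg fun j _ => by positivity)]
    calc ∑ j, ‖(X j).1‖ ^ 4 ≤ ∑ _j : Fin Z, |R| ^ 4 := by
          refine Finset.sum_le_sum fun j _ => ?_
          exact pow_le_pow_left₀ (norm_nonneg _) ((hX j).trans (le_abs_self R)) 4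
      _ = Z * |R| ^ 4 := by simp

lemma cn_nonneg (t : ℝ) (X : Fin Z → Om) : 0 ≤ cn t X :=
  Finset.sum_nonneg fun j _ => by split_ifs <;> norm_num

lemma cn_le (t : ℝ) (X : Fin Z → Om) : cn t X ≤ Z := by
  unfold cn
  calc ∑ j, (if t ≤ ‖(X j).1‖ then (1 : ℝ) else 0) ≤ ∑ _j : Fin Z, (1 : ℝ) := by
        refine Finset.sum_le_sum fun j _ => ?_
        split_ifs <;> norm_num
    _ = Z := by simp

lemma meas_cn (t : ℝ) : Measurable (cn (Z := Z) t) := by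
  unfold cn
  refine Finset.measurable_sum _ fun j _ => ?_
  refine Measurable.ite ?_ measurable_const measurable_const
  exact measurableSet_le measurable_const (measurable_pi_apply j).fst.norm

lemma bdd_cn (t : ℝ) : BddW (cn (Z := Z) t) := by
  refine ⟨meas_cn t, fun R => ⟨Z, fun X hX => ?_⟩⟩
  rw [abs_of_nonneg (cn_nonneg t X)]
  exact cn_le t X

lemma meas_vdip (B : Fin Z → E3) : Measurable (fun X : Fin Z → Om => vdip B X) := by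
  unfold vdip
  exact measurable_const.sub (Finset.measurable_sum _ fun j _ => (measurable_pi_apply j).fst)

lemma bdd_pp (B : Fin Z → E3) (P : E3) : BddW (pp B P) := by
  refine ⟨?_, fun R => ⟨(∑ m, ‖B m‖ + Z * |R| + ‖P‖) ^ 2, fun X hX => ?_⟩⟩
  · unfold pp
    exact ((meas_vdip B).sub_const P).norm.pow_const 2
  · unfold pp
    rw [abs_of_nonneg (by positivity)]
    refine pow_le_pow_left₀ (norm_nonneg _) ?_ 2
    refine (norm_sub_le _ _).trans ?_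
    refine add_le_add ?_ le_rfl
    unfold vdip
    refine (norm_sub_le _ _).trans (add_le_add (norm_sum_le _ _) ?_)
    refine (norm_sum_le _ _).trans ?_
    calc ∑ j, ‖(X j).1‖ ≤ ∑ _j : Fin Z, |R| :=
          Finset.sum_le_sum fun j _ => (hX j).trans (le_abs_self R)
      _ = Z * |R| := by simp

/-- the lower bound function -/
def gg (B : Fin Z → E3) (P : E3) (a0 a1 a2 a3 t : ℝ) (X : Fin Z → Om) : ℝ :=
  a0 + a1 * pp B P X + a2 * q4 X + a3 * cn t X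

lemma int_bdd (hlc : S_lc) (hadm : S_adm) {W : (Fin Z → Om) → ℝ} (hW : BddW W)
    {φ : (Fin Z → Om) → ℝ} (hφ : LC φ) : Integrable (fun X => W X * φ X ^ 2) (mu (Fin Z)) :=
  integrable_W hlc hφ ((hadm (Fin Z)).1 W hW)

lemma expv_gg (hlc : S_lc) (hadm : S_adm) (B : Fin Z → E3) (P : E3) (a0 a1 a2 a3 t : ℝ)
    {φ : (Fin Z → Om) → ℝ} (hφ : LC φ) :
    expv (gg B P a0 a1 a2 a3 t) φ =
      a0 * nsq φ + a1 * expv (pp B P) φ + a2 * expv q4 φ + a3 * expv (cn t) φ := by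
  have h0 := integrable_sq hlc hφ
  have h1 := int_bdd hlc hadm (bdd_pp B P) hφ
  have h2 := int_bdd hlc hadm (bdd_q4 (Z := Z)) hφ
  have h3 := int_bdd hlc hadm (bdd_cn (Z := Z) t) hφ
  have key : ∀ X, gg B P a0 a1 a2 a3 t X * φ X ^ 2 = ((a0 * φ X ^ 2 + a1 * (pp B P X * φ X ^ 2))
      + a2 * (q4 X * φ X ^ 2)) + a3 * (cn t X * φ X ^ 2) := by
    intro X; unfold gg; ring
  unfold expv nsq
  simp only [key]
  have i0 := h0.const_mul a0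
  have i1 := h1.const_mul a1
  have i2 := h2.const_mul a2
  have i3 := h3.const_mul a3
  have i01 : Integrable (fun X => a0 * φ X ^ 2 + a1 * (pp B P X * φ X ^ 2)) (mu (Fin Z)) :=
    i0.add i1
  have i012 : Integrable (fun X => a0 * φ X ^ 2 + a1 * (pp B P X * φ X ^ 2)
      + a2 * (q4 X * φ X ^ 2)) (mu (Fin Z)) := i01.add i2
  rw [integral_add i012 i3, integral_add i01 i2, integral_add i0 i1,
    integral_const_mul, integral_const_mul, integral_const_mul, integral_const_mul]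

lemma bdd_gg (B : Fin Z → E3) (P : E3) (a0 a1 a2 a3 t : ℝ) : BddW (gg B P a0 a1 a2 a3 t) := by
  refine ⟨?_, fun R => ?_⟩
  · unfold gg
    exact ((measurable_const.add ((bdd_pp B P).1.const_mul a1)).add
      (bdd_q4.1.const_mul a2)).add ((bdd_cn t).1.const_mul a3)
  · obtain ⟨C1, h1⟩ := (bdd_pp B P).2 R
    obtain ⟨C2, h2⟩ := (bdd_q4 (Z := Z)).2 R
    obtain ⟨C3, h3⟩ := (bdd_cn (Z := Z) t).2 R
    refine ⟨|a0| + |a1| * C1 + |a2| * C2 + |a3| * C3, fun X hX => ?_⟩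
    unfold gg
    refine (abs_add_le _ _).trans (add_le_add ((abs_add_le _ _).trans (add_le_add
      ((abs_add_le _ _).trans (add_le_add le_rfl ?_)) ?_)) ?_)
    · rw [abs_mul]; exact mul_le_mul_of_nonneg_left (h1 X hX) (abs_nonneg _)
    · rw [abs_mul]; exact mul_le_mul_of_nonneg_left (h2 X hX) (abs_nonneg _)
    · rw [abs_mul]; exact mul_le_mul_of_nonneg_left (h3 X hX) (abs_nonneg _)

/-! ### the pointwise bound -/

variable {B : Fin Z → E3} {P z : E3}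

lemma sum_cq : ∑ a : Fin Z ⊕ (Fin Z ⊕ Bool), cq (M := Z) (ι := Fin Z) a = 0 := by
  simp [Fintype.sum_sum_type, cq]

lemma abs_cq (a : Fin Z ⊕ (Fin Z ⊕ Bool)) : |cq (M := Z) (ι := Fin Z) a| = 1 := by
  rcases a with m | j | b
  · simp [cq]
  · simp [cq]
  · cases b <;> simp [cq]

lemma sum_cq_pos (X : Fin Z → Om) :
    ∑ a : Fin Z ⊕ (Fin Z ⊕ Bool), cq (M := Z) (ι := Fin Z) a • (cpos B z P X a - z) =
      vdip B (tr (-z) X) - P := by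
  simp only [Fintype.sum_sum_type, cq, cpos, Sum.elim_inl, Sum.elim_inr, Fintype.sum_bool, vdip, tr]
  simp only [one_smul, neg_smul, add_sub_cancel_left, if_true, Bool.false_eq_true, if_false,
    Finset.sum_neg_distrib]
  have e1 : ∑ j : Fin Z, ((X j).1 - z) = ∑ j : Fin Z, (-z + (X j).1) :=
    Finset.sum_congr rfl fun j _ => by abel
  have e3 : z - (1 / 2 : ℝ) • P - z = -((1 / 2 : ℝ) • P) := by abel
  rw [e1, e3]
  have e4 : P = (1 / 2 : ℝ) • P + (1 / 2 : ℝ) • P := by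
    rw [← add_smul]; norm_num
  conv_rhs => rw [e4]
  abel

lemma sum_sq_pos (X : Fin Z → Om) :
    ∑ a : Fin Z ⊕ (Fin Z ⊕ Bool), ‖cpos B z P X a - z‖ ^ 2 =
      (∑ m, ‖B m‖ ^ 2 + ‖P‖ ^ 2 / 2) + ∑ j, ‖(tr (-z) X j).1‖ ^ 2 := by
  simp only [Fintype.sum_sum_type, cpos, Sum.elim_inl, Sum.elim_inr, Fintype.sum_bool, tr]
  simp only [add_sub_cancel_left, if_true, Bool.false_eq_true, if_false]
  have e1 : ∀ j : Fin Z, (X j).1 - z = -z + (X j).1 := fun j => by abel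
  have e3 : z - (1 / 2 : ℝ) • P - z = -((1 / 2 : ℝ) • P) := by abel
  simp only [e1]
  rw [e3, norm_neg, norm_smul]
  norm_num
  ring

lemma pos_le {ρ : ℝ} (hB : ∀ m, ‖B m‖ ≤ ρ) (hP : ‖P‖ ≤ ρ) {X : Fin Z → Om}
    (hX : ∀ j, ‖(X j).1 - z‖ ≤ ρ) (a : Fin Z ⊕ (Fin Z ⊕ Bool)) :
    ‖cpos B z P X a - z‖ ≤ ρ := by
  rcases a with m | j | b
  · simpa [cpos] using hB m
  · simpa [cpos] using hX j
  · have h1 : ‖(1 / 2 : ℝ) • P‖ ≤ ρ := by
      rw [norm_smul]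
      have : 0 ≤ ‖P‖ := norm_nonneg P
      norm_num
      linarith
    cases b
    · have e3 : z - (1 / 2 : ℝ) • P - z = -((1 / 2 : ℝ) • P) := by abel
      simp only [cpos, Sum.elim_inr, Bool.false_eq_true, if_false]
      rw [e3, norm_neg]; exact h1
    · simp only [cpos, Sum.elim_inr, if_true, add_sub_cancel_left]
      exact h1

lemma linE_ge {U : E3 → ℝ} {F : E3} {H ρ : ℝ} (hB : ∀ m, ‖B m‖ ≤ ρ) (hP : ‖P‖ ≤ ρ)
    (hU : ∀ x, ‖x - z‖ ≤ ρ → |U x - U z - inner ℝ F (x - z)| ≤ H * ‖x - z‖ ^ 2)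
    {X : Fin Z → Om} (hX : ∀ j, ‖(X j).1 - z‖ ≤ ρ) :
    - (‖F‖ * ‖vdip B (tr (-z) X) - P‖)
      - H * ((∑ m, ‖B m‖ ^ 2 + ‖P‖ ^ 2 / 2) + ∑ j, ‖(tr (-z) X j).1‖ ^ 2)
      ≤ linE U B z P X := by
  have h1 : linE U B z P X = ∑ a : Fin Z ⊕ (Fin Z ⊕ Bool), cq (M := Z) (ι := Fin Z) a *
      (U (cpos B z P X a) - U z) := by
    unfold linE
    simp only [mul_sub, Finset.sum_sub_distrib]
    rw [← Finset.sum_mul, sum_cq]
    ring
  have h2 : ∑ a : Fin Z ⊕ (Fin Z ⊕ Bool), cq (M := Z) (ι := Fin Z) a *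
      inner ℝ F (cpos B z P X a - z) = inner ℝ F (vdip B (tr (-z) X) - P) := by
    rw [← sum_cq_pos, inner_sum]
    refine Finset.sum_congr rfl fun a _ => ?_
    rw [inner_smul_right]
  have h3 : ∀ a : Fin Z ⊕ (Fin Z ⊕ Bool), cq (M := Z) (ι := Fin Z) a *
      inner ℝ F (cpos B z P X a - z) - H * ‖cpos B z P X a - z‖ ^ 2 ≤
      cq (M := Z) (ι := Fin Z) a * (U (cpos B z P X a) - U z) := by
    intro a
    have h4 := hU _ (pos_le hB hP hX a)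
    have h5 : |cq (M := Z) (ι := Fin Z) a * (U (cpos B z P X a) - U z) -
        cq (M := Z) (ι := Fin Z) a * inner ℝ F (cpos B z P X a - z)| ≤
        H * ‖cpos B z P X a - z‖ ^ 2 := by
      rw [← mul_sub, abs_mul, abs_cq, one_mul]
      exact h4
    have h6 := (abs_le.1 h5).1
    linarith
  have h7 := Finset.sum_le_sum (s := Finset.univ) fun a _ => h3 a
  rw [Finset.sum_sub_distrib, h2, ← Finset.mul_sum, sum_sq_pos, ← h1] at h7
  have h8 : -(‖F‖ * ‖vdip B (tr (-z) X) - P‖) ≤ inner ℝ F (vdip B (tr (-z) X) - P) :=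
    (abs_le.1 (abs_real_inner_le_norm _ _)).1
  linarith

lemma selfE_le {C d ρ : ℝ} {Kr : E3 → E3 → ℝ} (hK : Ker C (d / 8) Kr) (hρd : ρ ≤ d / 8)
    (hB : ∀ m, ‖B m‖ ≤ ρ) (hP : ‖P‖ ≤ ρ) {X : Fin Z → Om} (hX : ∀ j, ‖(X j).1 - z‖ ≤ ρ) :
    selfE Kr B z P X ≤ C * (‖vdip B (tr (-z) X) - P‖ ^ 2 / (d / 8) ^ 3 +
      ((∑ m, ‖B m‖ ^ 2 + ‖P‖ ^ 2 / 2) + ∑ j, ‖(tr (-z) X j).1‖ ^ 2) ^ 2 / (d / 8) ^ 5) := by
  have h := hK.neut (Fin Z ⊕ (Fin Z ⊕ Bool)) (cq (M := Z) (ι := Fin Z)) (cpos B z P X) z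
    sum_cq (fun a => (pos_le hB hP hX a).trans hρd)
  rw [sum_cq_pos] at h
  simp only [abs_cq, one_mul] at h
  rw [sum_sq_pos] at h
  exact h

/-! ### measurability and boundedness of the cell potential -/

/-- the cell potential without the Coulomb potential and the chemical potential -/
def GG (Kr : E3 → E3 → ℝ) (U : E3 → ℝ) (ρ : ℝ) (B : Fin Z → E3) (z P : E3)
    (X : Fin Z → Om) : ℝ :=
  linE U B z P X - (1 / 2) * selfE Kr B z P X - 10 / ρ ^ 2 * cntOut (ρ / 2) z X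

lemma cellW_eq (Kr : E3 → E3 → ℝ) (U : E3 → ℝ) (lam ρ : ℝ) (B : Fin Z → E3) (z P : E3)
    (X : Fin Z → Om) :
    cellW Kr U lam ρ B z P X = pot (fun m => z + B m) X + GG Kr U ρ B z P X := by
  unfold cellW GG
  simp only [Fintype.card_fin, sub_self, mul_zero, add_zero]
  ring

lemma cntOut_eq (t : ℝ) (z : E3) (X : Fin Z → Om) : cntOut t z X = cn t (tr (-z) X) := by
  unfold cntOut cn tr
  refine Finset.sum_congr rfl fun j _ => ?_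
  have : (X j).1 - z = -z + (X j).1 := by abel
  simp only [this]

lemma meas_cpos (B : Fin Z → E3) (z P : E3) (a : Fin Z ⊕ (Fin Z ⊕ Bool)) :
    Measurable (fun X : Fin Z → Om => cpos B z P X a) := by
  rcases a with m | j | b
  · exact measurable_const
  · exact (measurable_pi_apply j).fst
  · exact measurable_const

lemma ker_cont {C r0 : ℝ} {Kr : E3 → E3 → ℝ} (hK : Ker C r0 Kr) :
    Continuous (fun p : E3 × E3 => Kr p.1 p.2) := by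
  have hL : LipschitzWith (Real.toNNReal (2 * |C / r0 ^ 2|)) (fun p : E3 × E3 => Kr p.1 p.2) := by
    refine LipschitzWith.of_dist_le_mul fun p q => ?_
    rw [Real.dist_eq, Real.coe_toNNReal _ (by positivity)]
    have h1 := hK.lip p.1 q.1 p.2
    have h2 := hK.lip p.2 q.2 q.1
    have h3 : Kr p.1 p.2 - Kr q.1 q.2 = (Kr p.1 p.2 - Kr q.1 p.2) + (Kr p.2 q.1 - Kr q.2 q.1) := by
      rw [hK.symm q.1 p.2, hK.symm q.1 q.2]; ring
    have h4 : ‖p.1 - q.1‖ ≤ dist p q := by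
      rw [← dist_eq_norm]; exact (le_max_left _ _)
    have h5 : ‖p.2 - q.2‖ ≤ dist p q := by
      rw [← dist_eq_norm]; exact (le_max_right _ _)
    have h6 : C * ‖p.1 - q.1‖ / r0 ^ 2 ≤ |C / r0 ^ 2| * dist p q := by
      calc C * ‖p.1 - q.1‖ / r0 ^ 2 = (C / r0 ^ 2) * ‖p.1 - q.1‖ := by ring
        _ ≤ |C / r0 ^ 2| * ‖p.1 - q.1‖ := mul_le_mul_of_nonneg_right (le_abs_self _) (norm_nonneg _)
        _ ≤ _ := mul_le_mul_of_nonneg_left h4 (abs_nonneg _)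
    have h7 : C * ‖p.2 - q.2‖ / r0 ^ 2 ≤ |C / r0 ^ 2| * dist p q := by
      calc C * ‖p.2 - q.2‖ / r0 ^ 2 = (C / r0 ^ 2) * ‖p.2 - q.2‖ := by ring
        _ ≤ |C / r0 ^ 2| * ‖p.2 - q.2‖ := mul_le_mul_of_nonneg_right (le_abs_self _) (norm_nonneg _)
        _ ≤ _ := mul_le_mul_of_nonneg_left h5 (abs_nonneg _)
    rw [h3]
    calc |(Kr p.1 p.2 - Kr q.1 p.2) + (Kr p.2 q.1 - Kr q.2 q.1)|
        ≤ |Kr p.1 p.2 - Kr q.1 p.2| + |Kr p.2 q.1 - Kr q.2 q.1| := abs_add_le _ _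
      _ ≤ |C / r0 ^ 2| * dist p q + |C / r0 ^ 2| * dist p q :=
          add_le_add (h1.trans h6) (h2.trans h7)
      _ = 2 * |C / r0 ^ 2| * dist p q := by ring
  exact hL.continuous

lemma meas_GG {C r0 ρ : ℝ} {Kr : E3 → E3 → ℝ} (hK : Ker C r0 Kr) {U : E3 → ℝ} (hU : Measurable U)
    (B : Fin Z → E3) (z P : E3) : Measurable (GG Kr U ρ B z P) := by
  have h1 : Measurable (fun X : Fin Z → Om => linE U B z P X) := by
    unfold linE
    exact Finset.measurable_sum _ fun a _ => (hU.comp (meas_cpos B z P a)).const_mul _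
  have h2 : Measurable (fun X : Fin Z → Om => selfE Kr B z P X) := by
    unfold selfE
    refine Finset.measurable_sum _ fun a _ => Finset.measurable_sum _ fun b _ => ?_
    exact ((ker_cont hK).measurable.comp
      ((meas_cpos B z P a).prodMk (meas_cpos B z P b))).const_mul _
  have h3 : Measurable (fun X : Fin Z → Om => cntOut (ρ / 2) z X) := by
    unfold cntOut
    refine Finset.measurable_sum _ fun j _ => ?_
    refine Measurable.ite ?_ measurable_const measurable_const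
    exact measurableSet_le measurable_const ((measurable_pi_apply j).fst.sub_const z).norm
  exact (h1.sub (h2.const_mul _)).sub (h3.const_mul _)

lemma bdd_GG {C r0 ρ H : ℝ} {Kr : E3 → E3 → ℝ} (hK : Ker C r0 Kr) {U : E3 → ℝ} {F z : E3}
    (hB : ∀ m, ‖B m‖ ≤ ρ) (hP : ‖P‖ ≤ ρ) (hH : 0 ≤ H) (hρ : 0 ≤ ρ)
    (hU : ∀ x, ‖x - z‖ ≤ ρ → |U x - U z - inner ℝ F (x - z)| ≤ H * ‖x - z‖ ^ 2) :
    ∃ A : ℝ, 0 ≤ A ∧ ∀ X : Fin Z → Om, (∀ j, ‖(X j).1 - z‖ ≤ ρ) → |GG Kr U ρ B z P X| ≤ A := by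
  refine ⟨(∑ _a : Fin Z ⊕ (Fin Z ⊕ Bool), (|U z| + ‖F‖ * ρ + H * ρ ^ 2))
    + (1 / 2) * (∑ _a : Fin Z ⊕ (Fin Z ⊕ Bool), ∑ _b : Fin Z ⊕ (Fin Z ⊕ Bool), |C / r0|)
    + 10 / ρ ^ 2 * Z, by positivity, fun X hX => ?_⟩
  have h1 : |linE U B z P X| ≤
      ∑ _a : Fin Z ⊕ (Fin Z ⊕ Bool), (|U z| + ‖F‖ * ρ + H * ρ ^ 2) := by
    unfold linE
    refine (Finset.abs_sum_le_sum_abs _ _).trans (Finset.sum_le_sum fun a _ => ?_)
    rw [abs_mul, abs_cq, one_mul]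
    have ha := pos_le (z := z) hB hP hX a
    have hu := hU _ ha
    have hi : |inner ℝ F (cpos B z P X a - z)| ≤ ‖F‖ * ρ :=
      (abs_real_inner_le_norm _ _).trans (mul_le_mul_of_nonneg_left ha (norm_nonneg _))
    have hq : H * ‖cpos B z P X a - z‖ ^ 2 ≤ H * ρ ^ 2 := by gcongr
    have e : U (cpos B z P X a) = U z + inner ℝ F (cpos B z P X a - z) +
        (U (cpos B z P X a) - U z - inner ℝ F (cpos B z P X a - z)) := by ring
    rw [e]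
    refine (abs_add_le _ _).trans (add_le_add ((abs_add_le _ _).trans (add_le_add le_rfl hi)) ?_)
    exact hu.trans hq
  have h2 : |selfE Kr B z P X| ≤
      ∑ _a : Fin Z ⊕ (Fin Z ⊕ Bool), ∑ _b : Fin Z ⊕ (Fin Z ⊕ Bool), |C / r0| := by
    unfold selfE
    refine (Finset.abs_sum_le_sum_abs _ _).trans (Finset.sum_le_sum fun a _ => ?_)
    refine (Finset.abs_sum_le_sum_abs _ _).trans (Finset.sum_le_sum fun b _ => ?_)
    rw [abs_mul, abs_mul, abs_cq, abs_cq, one_mul, one_mul, abs_of_nonneg (hK.nonneg _ _)]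
    exact (hK.le _ _).trans (le_abs_self _)
  have h3 : |10 / ρ ^ 2 * cntOut (ρ / 2) z X| ≤ 10 / ρ ^ 2 * Z := by
    rw [cntOut_eq, abs_mul, abs_of_nonneg (by positivity : (0 : ℝ) ≤ 10 / ρ ^ 2),
      abs_of_nonneg (cn_nonneg _ _)]
    exact mul_le_mul_of_nonneg_left (cn_le _ _) (by positivity)
  unfold GG
  have h4 : |1 / 2 * selfE Kr B z P X| ≤ (1 / 2) *
      (∑ _a : Fin Z ⊕ (Fin Z ⊕ Bool), ∑ _b : Fin Z ⊕ (Fin Z ⊕ Bool), |C / r0|) := by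
    rw [abs_mul, abs_of_nonneg (by norm_num : (0 : ℝ) ≤ 1 / 2)]
    exact mul_le_mul_of_nonneg_left h2 (by norm_num)
  have e : ∀ a b c : ℝ, |a - b - c| ≤ |a| + |b| + |c| := fun a b c =>
    (abs_sub _ _).trans (add_le_add (abs_sub _ _) le_rfl)
  exact (e _ _ _).trans (add_le_add (add_le_add h1 h4) h3)

lemma sq_sum_le (Y : Fin Z → Om) : (∑ j, ‖(Y j).1‖ ^ 2) ^ 2 ≤ Z * q4 Y := by
  have h := sq_sum_le_card_mul_sum_sq (s := (Finset.univ : Finset (Fin Z)))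
    (f := fun j => ‖(Y j).1‖ ^ 2)
  simp only [Finset.card_univ, Fintype.card_fin] at h
  refine h.trans (le_of_eq ?_)
  unfold q4
  congr 1
  refine Finset.sum_congr rfl fun j _ => ?_
  ring

lemma sum_sq_le {s : ℝ} (hs : 0 < s) (Y : Fin Z → Om) :
    ∑ j, ‖(Y j).1‖ ^ 2 ≤ Z * s / 2 + q4 Y / (2 * s) := by
  have h : ∀ j : Fin Z, ‖(Y j).1‖ ^ 2 ≤ s / 2 + ‖(Y j).1‖ ^ 4 / (2 * s) := by
    intro j
    have e : s / 2 + ‖(Y j).1‖ ^ 4 / (2 * s) - ‖(Y j).1‖ ^ 2 =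
        (s - ‖(Y j).1‖ ^ 2) ^ 2 / (2 * s) := by
      field_simp
      ring
    have e2 : 0 ≤ (s - ‖(Y j).1‖ ^ 2) ^ 2 / (2 * s) := by positivity
    linarith
  calc ∑ j, ‖(Y j).1‖ ^ 2 ≤ ∑ j, (s / 2 + ‖(Y j).1‖ ^ 4 / (2 * s)) :=
        Finset.sum_le_sum fun j _ => h j
    _ = Z * s / 2 + q4 Y / (2 * s) := by
        rw [Finset.sum_add_distrib]
        have e1 : ∑ j, ‖(Y j).1‖ ^ 4 / (2 * s) = q4 Y / (2 * s) := by
          unfold q4; rw [Finset.sum_div]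
        rw [e1]
        simp only [Finset.sum_const, Finset.card_univ, Fintype.card_fin, nsmul_eq_mul]
        ring

lemma GG_ge {C d ρ H t s : ℝ} {Kr : E3 → E3 → ℝ} (hK : Ker C (d / 8) Kr) (hρd : ρ ≤ d / 8)
    (hC : 1 ≤ C) (hd : 0 < d) (ht : 0 < t) (hs : 0 < s) (hH : 0 ≤ H)
    {U : E3 → ℝ} {F z : E3} (hB : ∀ m, ‖B m‖ ≤ ρ) (hP : ‖P‖ ≤ ρ)
    (hU : ∀ x, ‖x - z‖ ≤ ρ → |U x - U z - inner ℝ F (x - z)| ≤ H * ‖x - z‖ ^ 2)
    {X : Fin Z → Om} (hX : ∀ j, ‖(X j).1 - z‖ ≤ ρ) :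
    - gg B P
      (‖F‖ * t / 2 + H * ((∑ m, ‖B m‖ ^ 2 + ‖P‖ ^ 2 / 2) + Z * s / 2)
        + 32768 * C * (∑ m, ‖B m‖ ^ 2 + ‖P‖ ^ 2 / 2) ^ 2 / d ^ 5)
      (‖F‖ / (2 * t) + 256 * C / d ^ 3) (H / (2 * s) + 32768 * C * Z / d ^ 5) (10 / ρ ^ 2)
      (ρ / 2) (tr (-z) X) ≤ GG Kr U ρ B z P X := by
  have h1 := linE_ge hB hP hU hX
  have h2 := selfE_le hK hρd hB hP hX
  unfold GG gg pp
  rw [cntOut_eq]
  generalize hv : ‖vdip B (tr (-z) X) - P‖ = v at h1 h2 ⊢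
  generalize hK0 : (∑ m, ‖B m‖ ^ 2 + ‖P‖ ^ 2 / 2) = K0 at h1 h2 ⊢
  have h3 := sum_sq_le hs (tr (-z) X)
  have h4 := sq_sum_le (tr (-z) X)
  generalize hq : q4 (tr (-z) X) = q at h3 h4 ⊢
  generalize hS : ∑ j, ‖(tr (-z) X j).1‖ ^ 2 = S at h1 h2 h3 h4
  generalize cn (ρ / 2) (tr (-z) X) = c
  generalize linE U B z P X = l at h1 ⊢
  generalize selfE Kr B z P X = e at h2 ⊢
  have hv0 : 0 ≤ v := by rw [← hv]; exact norm_nonneg _
  have hf0 : 0 ≤ ‖F‖ := norm_nonneg _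
  generalize ‖F‖ = f at h1 hf0 ⊢
  have h5 : f * v ≤ f * t / 2 + f / (2 * t) * v ^ 2 := by
    have e1 : f * t / 2 + f / (2 * t) * v ^ 2 - f * v = f * (t - v) ^ 2 / (2 * t) := by
      field_simp
      ring
    have e2 : 0 ≤ f * (t - v) ^ 2 / (2 * t) := by positivity
    linarith
  have h6 : H * (K0 + S) ≤ H * (K0 + Z * s / 2) + H / (2 * s) * q := by
    calc H * (K0 + S) ≤ H * (K0 + (Z * s / 2 + q / (2 * s))) := by gcongr
      _ = _ := by ring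
  have h7 : (1 / 2) * e ≤ 256 * C / d ^ 3 * v ^ 2 + 32768 * C * K0 ^ 2 / d ^ 5
      + 32768 * C * Z / d ^ 5 * q := by
    have e1 : (1 / 2) * (C * (v ^ 2 / (d / 8) ^ 3 + (K0 + S) ^ 2 / (d / 8) ^ 5)) =
        256 * C / d ^ 3 * v ^ 2 + 16384 * C / d ^ 5 * (K0 + S) ^ 2 := by
      field_simp
      ring
    have e2 : (K0 + S) ^ 2 ≤ 2 * K0 ^ 2 + 2 * (Z * q) := by nlinarith [sq_nonneg (K0 - S)]
    have e3 : 16384 * C / d ^ 5 * (K0 + S) ^ 2 ≤ 16384 * C / d ^ 5 * (2 * K0 ^ 2 + 2 * (Z * q)) := by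
      gcongr
    calc (1 / 2) * e ≤ (1 / 2) * (C * (v ^ 2 / (d / 8) ^ 3 + (K0 + S) ^ 2 / (d / 8) ^ 5)) := by
          linarith
      _ = _ := e1
      _ ≤ 256 * C / d ^ 3 * v ^ 2 + 16384 * C / d ^ 5 * (2 * K0 ^ 2 + 2 * (Z * q)) := by linarith
      _ = _ := by ring
  linarith

/-! ### the normalised estimate -/

lemma core {Λ C H d ρ t s ε₁ CB f C' : ℝ} (hlc : S_lc) (hadm : S_adm) (hen : S_en)
    (hgood : GoodB B P ε₁ CB) (hC : 1 ≤ C) (hΛ : 32 ≤ Λ) (hH : 0 ≤ H) (hf : 0 ≤ f)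
    (hd : 1 ≤ d) (hρ : ρ = d / Λ) (hCBρ : CB ≤ ρ)
    (hd1 : 2048 * C * CB ≤ d) (hd2 : 262144 * C * Z * CB ≤ d) (hd3 : 80 * CB * Λ ^ 2 ≤ d)
    {φ : (Fin Z → Om) → ℝ} (hφ : WF φ) (hn : nsq φ = 1)
    (hsupp : ∀ X, φ X ≠ 0 → ∀ j, ‖(X j).1‖ ≤ ρ)
    (ht : t = Real.sqrt (ε₁ * ‖P‖ ^ 2 + CB * ρ ^ 2 * (Qf B φ - En Z B)))
    (hs : s = 1 + 4 * H * CB * ρ ^ 4)
    (hC1 : 2 * CB ≤ C') (hC2 : (∑ m, ‖B m‖ ^ 2 + ‖P‖ ^ 2 / 2) + Z / 2 + CB / 2 ≤ C')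
    (hC3 : 2 * Z * CB ≤ C')
    (hC4 : 32768 * C * (∑ m, ‖B m‖ ^ 2 + ‖P‖ ^ 2 / 2) ^ 2 + 32768 * C * Z * CB
      + 10 * CB * Λ ^ 8 ≤ C') :
    En Z B - (Real.sqrt ε₁ * ‖P‖ * f + 256 * C * ε₁ * ‖P‖ ^ 2 / d ^ 3
          + C' * (d ^ 2 * f ^ 2 + H + H ^ 2 * d ^ 4 + 1 / d ^ 4)) ≤
      Qf B φ - expv (gg B P
      (f * t / 2 + H * ((∑ m, ‖B m‖ ^ 2 + ‖P‖ ^ 2 / 2) + Z * s / 2)
        + 32768 * C * (∑ m, ‖B m‖ ^ 2 + ‖P‖ ^ 2 / 2) ^ 2 / d ^ 5)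
      (f / (2 * t) + 256 * C / d ^ 3) (H / (2 * s) + 32768 * C * Z / d ^ 5) (10 / ρ ^ 2)
      (ρ / 2)) φ := by
  obtain ⟨hZ, hCB, hε₁, -, hP0, -, hG⟩ := hgood
  have hd0 : 0 < d := by linarith
  have hL0 : 0 < Λ := by linarith
  have hρ0 : 0 < ρ := by rw [hρ]; positivity
  have hρd : ρ ≤ d := by
    rw [hρ, div_le_iff₀ hL0]; nlinarith
  obtain ⟨g1, g2, g3⟩ := hG ρ hCBρ φ hφ hn hsupp
  have hε : 0 ≤ Qf B φ - En Z B := by
    have := hen.2.1 (Fin Z) (Fin Z) B φ hφ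
    rw [hn, mul_one, Fintype.card_fin] at this
    linarith
  rw [expv_gg hlc hadm B P _ _ _ _ _ hφ.toLC, hn]
  have e1 : expv (pp B P) φ ≤ ε₁ * ‖P‖ ^ 2 + CB * ρ ^ 2 * (Qf B φ - En Z B) := g1
  have e2 : expv q4 φ ≤ CB * (1 + ρ ^ 4 * (Qf B φ - En Z B)) := g2
  have e3 : expv (cn (ρ / 2)) φ ≤ CB * ((Qf B φ - En Z B) + 1 / ρ ^ 6) := g3
  have hP : 0 < ‖P‖ := norm_pos_iff.2 hP0
  generalize hEE : Qf B φ - En Z B = ε at *
  have i1 := ineq1 (t := t) hf hP.le hε hε₁ hCB hρ0 rfl (by positivity) ht e1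
  have i2 := ineq2 hC hd hCB hε hρ0 hρd hd1 e1
  have i3 := ineq3 (K0 := (∑ m, ‖B m‖ ^ 2 + ‖P‖ ^ 2 / 2)) (z := (Z : ℝ)) hH (Nat.cast_nonneg Z)
    hCB hρ0 hρd hε hs e2
  have i4 := ineq4 (K0 := (∑ m, ‖B m‖ ^ 2 + ‖P‖ ^ 2 / 2)) (z := (Z : ℝ)) hC (Nat.cast_nonneg Z)
    hCB hd hρ0 hρd hε e2 hd2
  have i5 := ineq5 hCB hΛ hd hρ hε e3 hd3
  generalize (∑ m, ‖B m‖ ^ 2 + ‖P‖ ^ 2 / 2) = K0 at *
  have j1 : 2 * CB * ρ ^ 2 * f ^ 2 ≤ C' * (d ^ 2 * f ^ 2) := by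
    calc 2 * CB * ρ ^ 2 * f ^ 2 ≤ 2 * CB * d ^ 2 * f ^ 2 := by gcongr
      _ = 2 * CB * (d ^ 2 * f ^ 2) := by ring
      _ ≤ _ := mul_le_mul_of_nonneg_right hC1 (by positivity)
  have j2 : (K0 + Z / 2 + CB / 2) * H ≤ C' * H := mul_le_mul_of_nonneg_right hC2 hH
  have j3 : 2 * Z * CB * (H ^ 2 * d ^ 4) ≤ C' * (H ^ 2 * d ^ 4) :=
    mul_le_mul_of_nonneg_right hC3 (by positivity)
  have j4 : (32768 * C * K0 ^ 2 + 32768 * C * Z * CB + 10 * CB * Λ ^ 8) * (1 / d ^ 4) ≤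
      C' * (1 / d ^ 4) := mul_le_mul_of_nonneg_right hC4 (by positivity)
  have hQ : Qf B φ = En Z B + ε := by linarith
  rw [hQ]
  linarith

end CellB

/-! ### the theorem -/

open CellB EnBasic in
theorem p_cellB (hlc : S_lc) (hcl : S_lc_closure) (hadm : S_adm) (hen : S_en) : S_cellB := by
  intro C Λ Z B P ε₁ CB hC hΛ hgood
  have hCB : 1 ≤ CB := hgood.2.1
  set K0 : ℝ := (∑ m, ‖B m‖ ^ 2 + ‖P‖ ^ 2 / 2) with hK0
  have hK00 : 0 ≤ K0 := by positivity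
  have hL0 : 0 < Λ := by linarith
  have hsB : 0 ≤ ∑ m, ‖B m‖ := by positivity
  refine ⟨1 + Λ * CB + Λ * (∑ m, ‖B m‖) + Λ * ‖P‖ + 2048 * C * CB + 262144 * C * Z * CB
      + 80 * CB * Λ ^ 2,
    1 + 2 * CB + (K0 + Z / 2 + CB / 2) + 2 * Z * CB
      + (32768 * C * K0 ^ 2 + 32768 * C * Z * CB + 10 * CB * Λ ^ 8), ?_, ?_, ?_⟩
  · have : 0 ≤ Λ * CB + Λ * (∑ m, ‖B m‖) + Λ * ‖P‖ + 2048 * C * CB + 262144 * C * Z * CB
      + 80 * CB * Λ ^ 2 := by positivity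
    linarith
  · have : 0 ≤ 2 * CB + (K0 + Z / 2 + CB / 2) + 2 * Z * CB
      + (32768 * C * K0 ^ 2 + 32768 * C * Z * CB + 10 * CB * Λ ^ 8) := by positivity
    linarith
  intro d z F H lam U Kr φ hd hK hH hUm hU hφ hsupp
  have p1 : 0 ≤ Λ * CB := by positivity
  have p2 : 0 ≤ Λ * (∑ m, ‖B m‖) := by positivity
  have p3 : 0 ≤ Λ * ‖P‖ := by positivity
  have p4 : 0 ≤ 2048 * C * CB := by positivity
  have p5 : 0 ≤ 262144 * C * Z * CB := by positivity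
  have p6 : 0 ≤ 80 * CB * Λ ^ 2 := by positivity
  have hd1 : 1 ≤ d := by linarith
  have hd0 : 0 < d := by linarith
  set ρ : ℝ := d / Λ with hρ
  have hρ0 : 0 < ρ := by positivity
  have hCBρ : CB ≤ ρ := by rw [hρ, le_div_iff₀ hL0]; nlinarith
  have hPρ : ‖P‖ ≤ ρ := by rw [hρ, le_div_iff₀ hL0]; nlinarith
  have hBρ : ∀ m, ‖B m‖ ≤ ρ := by
    intro m
    have h1 : ‖B m‖ ≤ ∑ m, ‖B m‖ :=
      Finset.single_le_sum (f := fun m => ‖B m‖) (fun i _ => norm_nonneg _) (Finset.mem_univ m)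
    rw [hρ, le_div_iff₀ hL0]
    nlinarith
  have hρd8 : ρ ≤ d / 8 := by
    rw [hρ]; gcongr; linarith
  -- splitting of the energy
  have hGm : Measurable (GG Kr U ρ B z P) := meas_GG hK hUm B z P
  obtain ⟨A, hA0, hA⟩ := bdd_GG (B := B) (P := P) hK hBρ hPρ hH hρ0.le hU
  have hsq := integrable_sq hlc hφ.toLC
  have hφm : Measurable φ := (hlc (Fin Z) φ hφ.toLC).1
  have iG : Integrable (fun X => GG Kr U ρ B z P X * φ X ^ 2) (mu (Fin Z)) := by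
    refine Integrable.mono' (hsq.const_mul A) (hGm.mul (hφm.pow_const 2)).aestronglyMeasurable
      (Filter.Eventually.of_forall fun X => ?_)
    rw [Real.norm_eq_abs, abs_mul, abs_of_nonneg (sq_nonneg (φ X))]
    by_cases h0 : φ X = 0
    · simp [h0]
    · exact mul_le_mul_of_nonneg_right (hA X (hsupp X h0)) (sq_nonneg _)
  have iP : Integrable (fun X => pot (fun m => z + B m) X * φ X ^ 2) (mu (Fin Z)) :=
    integrable_W hlc hφ.toLC ((hadm (Fin Z)).2.2.2.2.2.2.1 (Fin Z) _).2.2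
  have hsplit : kin φ + expv (cellW Kr U lam ρ B z P) φ =
      Qf (fun m => z + B m) φ + expv (GG Kr U ρ B z P) φ := by
    have : expv (cellW Kr U lam ρ B z P) φ = expv (pot fun m => z + B m) φ
        + expv (GG Kr U ρ B z P) φ := by
      unfold expv
      rw [← integral_add iP iG]
      refine integral_congr_ae (Filter.Eventually.of_forall fun X => ?_)
      simp only [cellW_eq]
      ring
    rw [this]
    unfold Qf
    ring
  rw [hsplit]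
  -- the trivial case
  rcases eq_or_lt_of_le (nsq_nonneg φ) with h0 | hpos
  · have hz : (fun X => φ X ^ 2) =ᵐ[mu (Fin Z)] 0 :=
      (integral_eq_zero_iff_of_nonneg (fun X => sq_nonneg (φ X)) hsq).1 h0.symm
    have hg0 : expv (GG Kr U ρ B z P) φ = 0 := by
      unfold expv
      rw [← integral_zero (Fin Z → Om) ℝ (μ := mu (Fin Z))]
      refine integral_congr_ae ?_
      filter_upwards [hz] with X hX
      simp only [Pi.zero_apply] at hX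
      rw [hX, mul_zero]
    have hQ := hen.2.1 (Fin Z) (Fin Z) (fun m => z + B m) φ hφ
    rw [← h0, mul_zero] at hQ
    rw [← h0, mul_zero, hg0, add_zero]
    exact hQ
  -- normalisation and translation
  set N : ℝ := nsq φ with hN
  set c : ℝ := (Real.sqrt N)⁻¹ with hc
  have hcN : c ^ 2 * N = 1 := by
    rw [hc, inv_pow, Real.sq_sqrt hpos.le, inv_mul_cancel₀ hpos.ne']
  set χ : (Fin Z → Om) → ℝ := fun X => c * φ (tr z X) with hχ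
  have hχW : WF χ := WF_smul hcl c (WF_tr z hφ)
  have hχn : nsq χ = 1 := by
    rw [hχ, nsq_smul c (fun X => φ (tr z X)), nsq_tr, ← hN, hcN]
  have hχQ : Qf B χ = c ^ 2 * Qf (fun m => z + B m) φ := by
    rw [hχ, Qf_smul c B (fun X => φ (tr z X)), Qf_tr]
  have hχs : ∀ X, χ X ≠ 0 → ∀ j, ‖(X j).1‖ ≤ ρ := by
    intro X hX j
    have h1 : φ (tr z X) ≠ 0 := fun h => hX (by simp [hχ, h])
    have h2 := hsupp _ h1 j
    simpa [tr] using h2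
  set t : ℝ := Real.sqrt (ε₁ * ‖P‖ ^ 2 + CB * ρ ^ 2 * (Qf B χ - En Z B)) with ht
  set s : ℝ := 1 + 4 * H * CB * ρ ^ 4 with hs
  have hε : 0 ≤ Qf B χ - En Z B := by
    have := hen.2.1 (Fin Z) (Fin Z) B χ hχW
    rw [hχn, mul_one, Fintype.card_fin] at this
    linarith
  have ht0 : 0 < t := by
    have h1 : 0 < ε₁ := hgood.2.2.1
    have h2 : 0 < ‖P‖ := norm_pos_iff.2 hgood.2.2.2.2.1
    rw [ht]; apply Real.sqrt_pos.2; positivity
  have hs0 : 0 < s := by rw [hs]; positivity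
  have q1 : 0 ≤ 32768 * C * K0 ^ 2 := by positivity
  have q2 : 0 ≤ 32768 * C * Z * CB := by positivity
  have q3 : 0 ≤ 10 * CB * Λ ^ 8 := by positivity
  have q4' : 0 ≤ 2 * (Z : ℝ) * CB := by positivity
  have q5 : 0 ≤ (Z : ℝ) / 2 := by positivity
  have hcore := core (C' := 1 + 2 * CB + (K0 + Z / 2 + CB / 2) + 2 * Z * CB
      + (32768 * C * K0 ^ 2 + 32768 * C * Z * CB + 10 * CB * Λ ^ 8)) hlc hadm hen hgood hC hΛ hH
    (norm_nonneg F) hd1 hρ hCBρ (by linarith) (by linarith) (by linarith) hχW hχn hχs ht hs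
    (by linarith) (by linarith) (by linarith) (by rw [← hK0]; linarith)
  rw [← hK0] at hcore
  -- back to the state `φ`
  have hpt := fun (X : Fin Z → Om) (hX : ∀ j, ‖(X j).1 - z‖ ≤ ρ) =>
    GG_ge (B := B) (P := P) (t := t) (s := s) hK hρd8 hC hd0 ht0 hs0 hH hBρ hPρ hU hX
  rw [← hK0] at hpt
  set g : (Fin Z → Om) → ℝ := gg B P
      (‖F‖ * t / 2 + H * (K0 + Z * s / 2) + 32768 * C * K0 ^ 2 / d ^ 5)
      (‖F‖ / (2 * t) + 256 * C / d ^ 3) (H / (2 * s) + 32768 * C * Z / d ^ 5) (10 / ρ ^ 2)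
      (ρ / 2) with hg
  have hgb : BddW g := bdd_gg B P _ _ _ _ _
  have ig : Integrable (fun X => g (tr (-z) X) * φ X ^ 2) (mu (Fin Z)) := by
    obtain ⟨A2, hA2⟩ := hgb.2 ρ
    refine Integrable.mono' (hsq.const_mul A2)
      ((hgb.1.comp (mp_tr (-z)).measurable).mul (hφm.pow_const 2)).aestronglyMeasurable
      (Filter.Eventually.of_forall fun X => ?_)
    rw [Real.norm_eq_abs, abs_mul, abs_of_nonneg (sq_nonneg (φ X))]
    by_cases h0 : φ X = 0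
    · simp [h0]
    · refine mul_le_mul_of_nonneg_right (hA2 _ fun j => ?_) (sq_nonneg _)
      have h1 := hsupp X h0 j
      have h2 : (tr (-z) X j).1 = (X j).1 - z := neg_add_eq_sub z (X j).1
      rw [h2]
      exact h1
  have hshift : expv g χ = c ^ 2 * expv (fun X => g (tr (-z) X)) φ := by
    rw [hχ, expv_smul c g (fun X => φ (tr z X))]
    congr 1
    unfold expv
    rw [← integral_tr z (fun X => g (tr (-z) X) * φ X ^ 2)]
    refine integral_congr_ae (Filter.Eventually.of_forall fun X => ?_)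
    have : tr (-z) (tr z X) = X := by funext j; simp [tr]
    simp only [this]
  have hGlow : - expv (fun X => g (tr (-z) X)) φ ≤ expv (GG Kr U ρ B z P) φ := by
    unfold expv
    rw [← integral_neg]
    refine integral_mono ig.neg iG fun X => ?_
    simp only []
    by_cases h0 : φ X = 0
    · simp [h0]
    · have := hpt X (hsupp X h0)
      have h2 := mul_le_mul_of_nonneg_right this (sq_nonneg (φ X))
      linarith
  have hNc : N * c ^ 2 = 1 := by rw [mul_comm]; exact hcN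
  have hfin := mul_le_mul_of_nonneg_left hcore hpos.le
  rw [hχQ, hshift] at hfin
  have e1 : N * (c ^ 2 * Qf (fun m => z + B m) φ - c ^ 2 * expv (fun X => g (tr (-z) X)) φ) =
      Qf (fun m => z + B m) φ - expv (fun X => g (tr (-z) X)) φ := by
    rw [← mul_sub, ← mul_assoc, hNc, one_mul]
  rw [e1] at hfin
  rw [mul_comm]
  linarith

end MolDis
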