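import Pool.Agent.Lib.MP_59f35a_mp.Stmts2

/-!
# MP_59f35a_mp, piece E3: any cell, any number of electrons
-/

set_option autoImplicit false

noncomputable section

open MeasureTheory

namespace MolDis
namespace CellQ

private lemma ker_meas {C r0 : ℝ} {K : E3 → E3 → ℝ} (h : Ker C r0 K) :
    Measurable (fun p : E3 × E3 => K p.1 p.2) := by
  have hL : ∀ x y x' y' : E3, |K x y - K x' y'| ≤ (|C / r0 ^ 2|) * ‖x - x'‖ + (|C / r0 ^ 2|) * ‖y - y'‖ := by
    intro x y x' y'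
    have h1 := h.lip x x' y
    have h2 := h.lip y y' x'
    rw [h.symm y x', h.symm y' x'] at h2
    have e1 : C * ‖x - x'‖ / r0 ^ 2 ≤ |C / r0 ^ 2| * ‖x - x'‖ := by
      rw [mul_div_right_comm]
      exact mul_le_mul_of_nonneg_right (le_abs_self _) (norm_nonneg _)
    have e2 : C * ‖y - y'‖ / r0 ^ 2 ≤ |C / r0 ^ 2| * ‖y - y'‖ := by
      rw [mul_div_right_comm]
      exact mul_le_mul_of_nonneg_right (le_abs_self _) (norm_nonneg _)
    have h3 : K x y - K x' y' = (K x y - K x' y) + (K x' y - K x' y') := by ring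
    rw [h3]
    exact (abs_add_le _ _).trans (add_le_add (h1.trans e1) (h2.trans e2))
  apply Continuous.measurable
  rw [continuous_iff_continuousAt]
  intro p
  rw [ContinuousAt, tendsto_iff_norm_sub_tendsto_zero]
  refine squeeze_zero (g := fun q : E3 × E3 => |C / r0 ^ 2| * ‖q.1 - p.1‖ + |C / r0 ^ 2| * ‖q.2 - p.2‖)
    (fun q => norm_nonneg _) (fun q => hL q.1 q.2 p.1 p.2) ?_
  have hc : Continuous (fun q : E3 × E3 => |C / r0 ^ 2| * ‖q.1 - p.1‖ + |C / r0 ^ 2| * ‖q.2 - p.2‖) := by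
    fun_prop
  have := hc.tendsto p
  simpa using this

private lemma meas_cpos {M : ℕ} {ι : Type} [Fintype ι] (Y : Fin M → E3) (z P : E3)
    (a : Fin M ⊕ (ι ⊕ Bool)) : Measurable (fun X : ι → Om => cpos Y z P X a) := by
  rcases a with m | j | b
  · simp only [cpos, Sum.elim_inl]; exact measurable_const
  · simp only [cpos, Sum.elim_inl, Sum.elim_inr]
    exact (measurable_pi_apply j).fst
  · simp only [cpos, Sum.elim_inr]; exact measurable_const

private lemma meas_linE {M : ℕ} {ι : Type} [Fintype ι] (U : E3 → ℝ) (hU : Measurable U)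
    (Y : Fin M → E3) (z P : E3) : Measurable (fun X : ι → Om => linE U Y z P X) := by
  unfold linE
  refine Finset.measurable_sum _ (fun a _ => ?_)
  exact (hU.comp (meas_cpos Y z P a)).const_mul _

private lemma meas_selfE {M : ℕ} {ι : Type} [Fintype ι] (C r0 : ℝ) (Kr : E3 → E3 → ℝ)
    (hK : Ker C r0 Kr) (Y : Fin M → E3) (z P : E3) :
    Measurable (fun X : ι → Om => selfE Kr Y z P X) := by
  unfold selfE
  refine Finset.measurable_sum _ (fun a _ => Finset.measurable_sum _ (fun b _ => ?_))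
  exact ((ker_meas hK).comp ((meas_cpos Y z P a).prodMk (meas_cpos Y z P b))).const_mul _

private lemma meas_cntOut {ι : Type} [Fintype ι] (t : ℝ) (z : E3) :
    Measurable (fun X : ι → Om => cntOut t z X) := by
  unfold cntOut
  refine Finset.measurable_sum _ (fun j _ => ?_)
  refine Measurable.ite ?_ measurable_const measurable_const
  exact measurableSet_le measurable_const (((measurable_pi_apply j).fst).sub_const z).norm

private lemma meas_cellW {M : ℕ} {ι : Type} [Fintype ι] [DecidableEq ι] (h_adm : S_adm)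
    (C r0 : ℝ) (Kr : E3 → E3 → ℝ)
    (hK : Ker C r0 Kr) (U : E3 → ℝ) (hU : Measurable U) (lam ρ : ℝ) (Y : Fin M → E3) (z P : E3) :
    Measurable (fun X : ι → Om => cellW Kr U lam ρ Y z P X) := by
  unfold cellW
  have h1 : Measurable (fun X : ι → Om => pot (fun m => z + Y m) X) :=
    (((h_adm ι).2.2.2.2.2.2.1 (Fin M) (fun m => z + Y m)).2.2).1
  exact (((h1.add (meas_linE U hU Y z P)).sub ((meas_selfE C r0 Kr hK Y z P).const_mul _)).sub
    ((meas_cntOut (ρ / 2) z).const_mul _)).add measurable_const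

/-- total charge -/
private lemma sum_cq {M : ℕ} {ι : Type} [Fintype ι] :
    ∑ a : Fin M ⊕ (ι ⊕ Bool), (cq a : ℝ) = (M : ℝ) - Fintype.card ι := by
  rw [Fintype.sum_sum_type, Fintype.sum_sum_type]
  simp [cq]
  ring

private lemma abs_cq {M : ℕ} {ι : Type} (a : Fin M ⊕ (ι ⊕ Bool)) : |(cq a : ℝ)| = 1 := by
  rcases a with m | j | b
  · simp [cq]
  · simp [cq]
  · cases b <;> simp [cq]

private lemma card_cells {M : ℕ} {ι : Type} [Fintype ι] :
    (Fintype.card (Fin M ⊕ (ι ⊕ Bool)) : ℝ) = (M : ℝ) + Fintype.card ι + 2 := by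
  simp [Fintype.card_sum]
  ring

private lemma linE_bd {M : ℕ} {ι : Type} [Fintype ι] (U : E3 → ℝ) (u ω : ℝ)
    (Y : Fin M → E3) (z P : E3) (X : ι → Om)
    (h : ∀ a : Fin M ⊕ (ι ⊕ Bool), |U (cpos Y z P X a) - u| ≤ ω) :
    |linE U Y z P X + u * ((Fintype.card ι : ℝ) - M)| ≤ ω * ((M : ℝ) + Fintype.card ι + 2) := by
  have e : linE U Y z P X + u * ((Fintype.card ι : ℝ) - M)
      = ∑ a : Fin M ⊕ (ι ⊕ Bool), cq a * (U (cpos Y z P X a) - u) := by
    unfold linE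
    simp only [mul_sub, Finset.sum_sub_distrib, ← Finset.sum_mul, sum_cq]
    ring
  rw [e]
  refine (Finset.abs_sum_le_sum_abs _ _).trans ?_
  have : ∀ a ∈ (Finset.univ : Finset (Fin M ⊕ (ι ⊕ Bool))),
      |cq a * (U (cpos Y z P X a) - u)| ≤ ω := by
    intro a _
    rw [abs_mul, abs_cq, one_mul]
    exact h a
  refine (Finset.sum_le_sum this).trans ?_
  rw [Finset.sum_const, nsmul_eq_mul, Finset.card_univ, card_cells]
  linarith [mul_comm ω ((M : ℝ) + Fintype.card ι + 2)]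

private lemma selfE_bd {M : ℕ} {ι : Type} [Fintype ι] (C r0 : ℝ) (Kr : E3 → E3 → ℝ)
    (hK : Ker C r0 Kr) (Y : Fin M → E3) (z P : E3) (X : ι → Om) :
    |selfE Kr Y z P X| ≤ C / r0 * ((M : ℝ) + Fintype.card ι + 2) ^ 2 := by
  unfold selfE
  refine (Finset.abs_sum_le_sum_abs _ _).trans ?_
  have h2 : ∀ a ∈ (Finset.univ : Finset (Fin M ⊕ (ι ⊕ Bool))),
      |∑ b : Fin M ⊕ (ι ⊕ Bool), cq a * cq b * Kr (cpos Y z P X a) (cpos Y z P X b)|
        ≤ C / r0 * ((M : ℝ) + Fintype.card ι + 2) := by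
    intro a _
    refine (Finset.abs_sum_le_sum_abs _ _).trans ?_
    have h3 : ∀ b ∈ (Finset.univ : Finset (Fin M ⊕ (ι ⊕ Bool))),
        |cq a * cq b * Kr (cpos Y z P X a) (cpos Y z P X b)| ≤ C / r0 := by
      intro b _
      rw [abs_mul, abs_mul, abs_cq, abs_cq, one_mul, one_mul, abs_of_nonneg (hK.nonneg _ _)]
      exact hK.le _ _
    refine (Finset.sum_le_sum h3).trans ?_
    rw [Finset.sum_const, nsmul_eq_mul, Finset.card_univ, card_cells]
    linarith [mul_comm (C / r0) ((M : ℝ) + Fintype.card ι + 2)]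
  refine (Finset.sum_le_sum h2).trans ?_
  rw [Finset.sum_const, nsmul_eq_mul, Finset.card_univ, card_cells]
  apply le_of_eq; ring

private lemma cntOut_bd {ι : Type} [Fintype ι] (t : ℝ) (z : E3) (X : ι → Om) :
    0 ≤ cntOut t z X ∧ cntOut t z X ≤ Fintype.card ι := by
  unfold cntOut
  constructor
  · refine Finset.sum_nonneg (fun j _ => ?_)
    split_ifs <;> norm_num
  · have : ∀ j ∈ (Finset.univ : Finset ι), (if t ≤ ‖(X j).1 - z‖ then (1 : ℝ) else 0) ≤ 1 := by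
      intro j _
      split_ifs <;> norm_num
    refine (Finset.sum_le_sum this).trans ?_
    simp

private lemma repEE_lb {ι : Type} [Fintype ι] [DecidableEq ι] (ρ : ℝ) (z : E3) (X : ι → Om)
    (hinj : Function.Injective (fun j => (X j).1)) (hρ : 0 < ρ) (h : ∀ j, ‖(X j).1 - z‖ ≤ ρ) :
    (Fintype.card ι : ℝ) * ((Fintype.card ι : ℝ) - 1) / (4 * ρ) ≤ repEE X := by
  unfold repEE
  have h1 : ∀ j k : ι, (if j = k then 0 else 1 / (2 * ρ)) ≤ cou (X j).1 (X k).1 := by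
    intro j k
    split_ifs with hjk
    · unfold cou; positivity
    · unfold cou
      have hne : (X j).1 - (X k).1 ≠ 0 := by
        intro h0
        exact hjk (hinj (sub_eq_zero.mp h0))
      have hle : ‖(X j).1 - (X k).1‖ ≤ 2 * ρ := by
        have : (X j).1 - (X k).1 = ((X j).1 - z) - ((X k).1 - z) := by abel
        rw [this]
        refine (norm_sub_le _ _).trans ?_
        linarith [h j, h k]
      rw [one_div]
      exact inv_anti₀ (norm_pos_iff.mpr hne) hle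
  have h2 : ∑ j : ι, ∑ k : ι, (if j = k then (0 : ℝ) else 1 / (2 * ρ))
      = (Fintype.card ι : ℝ) * ((Fintype.card ι : ℝ) - 1) / (2 * ρ) := by
    have : ∀ j : ι, ∑ k : ι, (if j = k then (0 : ℝ) else 1 / (2 * ρ))
        = ((Fintype.card ι : ℝ) - 1) / (2 * ρ) := by
      intro j
      have e : ∀ k : ι, (if j = k then (0 : ℝ) else 1 / (2 * ρ))
          = 1 / (2 * ρ) - (if j = k then 1 / (2 * ρ) else 0) := by
        intro k; split_ifs <;> simp
      simp only [e, Finset.sum_sub_distrib, Finset.sum_ite_eq, Finset.mem_univ, if_true,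
        Finset.sum_const, nsmul_eq_mul, Finset.card_univ]
      ring
    simp only [this, Finset.sum_const, nsmul_eq_mul, Finset.card_univ]
    ring
  have h3 := Finset.sum_le_sum (fun j (_ : j ∈ (Finset.univ : Finset ι)) =>
    Finset.sum_le_sum (fun k (_ : k ∈ (Finset.univ : Finset ι)) => h1 j k))
  rw [h2] at h3
  have e4 : (Fintype.card ι : ℝ) * ((Fintype.card ι : ℝ) - 1) / (4 * ρ)
      = (1 / 2) * ((Fintype.card ι : ℝ) * ((Fintype.card ι : ℝ) - 1) / (2 * ρ)) := by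
    field_simp; ring
  rw [e4]
  linarith

private lemma expv_ge {ι : Type} [Fintype ι] [DecidableEq ι] (h_lc : S_lc)
    (φ : (ι → Om) → ℝ) (hφ : LC φ) (W1 W2 W3 : (ι → Om) → ℝ) (h1 : AdmW W1) (h2 : Measurable W2)
    (h3 : AdmW W3) (h12 : ∀ᵐ X ∂(mu ι), φ X ≠ 0 → W1 X ≤ W2 X ∧ W2 X ≤ W3 X) :
    expv W1 φ ≤ expv W2 φ := by
  obtain ⟨hm, -, -, -, -, hint, -⟩ := h_lc ι φ hφ
  have i1 := hint W1 h1
  have i3 := hint W3 h3
  have i2 : Integrable (fun X => W2 X * φ X ^ 2) (mu ι) := by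
    refine Integrable.mono' (i1.norm.add i3.norm) ((h2.mul (hm.pow_const 2)).aestronglyMeasurable) ?_
    filter_upwards [h12] with X hX
    by_cases h0 : φ X = 0
    · simp [h0]
    · obtain ⟨a, b⟩ := hX h0
      have p := sq_nonneg (φ X)
      have a' := mul_le_mul_of_nonneg_right a p
      have b' := mul_le_mul_of_nonneg_right b p
      simp only [Pi.add_apply, Real.norm_eq_abs]
      refine abs_le.mpr ⟨?_, ?_⟩
      · have := neg_abs_le (W1 X * φ X ^ 2)
        have := abs_nonneg (W3 X * φ X ^ 2)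
        linarith
      · have := le_abs_self (W3 X * φ X ^ 2)
        have := abs_nonneg (W1 X * φ X ^ 2)
        linarith
  unfold expv
  refine integral_mono_ae i1 i2 ?_
  filter_upwards [h12] with X hX
  by_cases h0 : φ X = 0
  · simp [h0]
  · exact mul_le_mul_of_nonneg_right (hX h0).1 (sq_nonneg _)

private lemma expv_add_const {ι : Type} [Fintype ι] [DecidableEq ι] (h_lc : S_lc)
    (φ : (ι → Om) → ℝ) (hφ : LC φ) (W : (ι → Om) → ℝ) (h : AdmW W) (c : ℝ) :
    expv (fun X => W X + c) φ = expv W φ + c * nsq φ := by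
  obtain ⟨-, -, -, -, -, hint, hi⟩ := h_lc ι φ hφ
  unfold expv nsq
  simp only [add_mul]
  rw [integral_add (hint W h) (hi.const_mul c), integral_const_mul]

private lemma admW_const {ι : Type} [Fintype ι] [DecidableEq ι] (h_adm : S_adm) (c : ℝ) :
    AdmW (fun _ : ι → Om => c) :=
  (h_adm ι).1 _ ⟨measurable_const, fun _ => ⟨|c|, fun _ _ => le_rfl⟩⟩

/-- translated configuration -/
private def tr {ι : Type} (z : E3) (X : ι → Om) : ι → Om := fun j => ((X j).1 - (-z), (X j).2)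

private lemma pot_tr {ι κ : Type} [Fintype ι] [Fintype κ] (Y : κ → E3) (z : E3) (X : ι → Om) :
    pot (fun m => z + Y m) (tr z X) = pot Y X := by
  have e1 : ∀ x y : E3, x - -z - (z + y) = x - y := by intro x y; abel
  have e2 : ∀ x y : E3, x - -z - (y - -z) = x - y := by intro x y; abel
  have e3 : ∀ x y : E3, z + x - (z + y) = x - y := by intro x y; abel
  simp only [pot, attr, repEE, repNN, tr, cou, e1, e2, e3]

/-- the rest of the cell potential -/
private def rest {M : ℕ} {ι : Type} [Fintype ι] (Kr : E3 → E3 → ℝ) (U : E3 → ℝ) (lam ρ : ℝ)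
    (Y : Fin M → E3) (z P : E3) (X : ι → Om) : ℝ :=
  linE U Y z P X - (1 / 2) * selfE Kr Y z P X
    - 10 / ρ ^ 2 * cntOut (ρ / 2) z X + lam * ((Fintype.card ι : ℝ) - M)

private lemma cellW_tr {M : ℕ} {ι : Type} [Fintype ι] (Kr : E3 → E3 → ℝ) (U : E3 → ℝ) (lam ρ : ℝ)
    (Y : Fin M → E3) (z P : E3) (X : ι → Om) :
    cellW Kr U lam ρ Y z P (tr z X) = pot Y X + rest Kr U lam ρ Y z P (tr z X) := by
  unfold cellW rest
  rw [pot_tr]
  ring

/-- deterministic bounds for the rest -/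
private lemma rest_bd {M : ℕ} {ι : Type} [Fintype ι] (C d : ℝ) (Kr : E3 → E3 → ℝ)
    (hK : Ker C (d / 8) Kr) (U : E3 → ℝ) (u ω lam ρ : ℝ) (Y : Fin M → E3) (z P : E3) (X : ι → Om)
    (h : ∀ a : Fin M ⊕ (ι ⊕ Bool), |U (cpos Y z P X a) - u| ≤ ω) :
    |rest Kr U lam ρ Y z P X - (lam - u) * ((Fintype.card ι : ℝ) - M)| ≤
      ω * ((M : ℝ) + Fintype.card ι + 2)
        + 4 * C / d * ((M : ℝ) + Fintype.card ι + 2) ^ 2
        + 10 / ρ ^ 2 * Fintype.card ι := by
  have h1 := linE_bd U u ω Y z P X h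
  have h2 := selfE_bd C (d / 8) Kr hK Y z P X
  obtain ⟨h3, h4⟩ := cntOut_bd (ρ / 2) z X
  have e : rest Kr U lam ρ Y z P X - (lam - u) * ((Fintype.card ι : ℝ) - M)
      = (linE U Y z P X + u * ((Fintype.card ι : ℝ) - M)) + (-(1 / 2) * selfE Kr Y z P X)
        + (-(10 / ρ ^ 2 * cntOut (ρ / 2) z X)) := by
    unfold rest; ring
  rw [e]
  refine (abs_add_le _ _).trans (add_le_add ((abs_add_le _ _).trans (add_le_add h1 ?_)) ?_)
  · rw [abs_mul]
    have e2 : |(-(1 / 2) : ℝ)| = 1 / 2 := by norm_num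
    rw [e2]
    have e3 : C / (d / 8) = 8 * C / d := by
      rw [div_div_eq_mul_div]; ring
    rw [e3] at h2
    have e4 : 4 * C / d * ((M : ℝ) + Fintype.card ι + 2) ^ 2
      = 1 / 2 * (8 * C / d * ((M : ℝ) + Fintype.card ι + 2) ^ 2) := by ring
    rw [e4]
    exact mul_le_mul_of_nonneg_left h2 (by norm_num)
  · rw [abs_neg, abs_mul, abs_of_nonneg h3, abs_of_nonneg (by positivity : (0 : ℝ) ≤ 10 / ρ ^ 2)]
    exact mul_le_mul_of_nonneg_left h4 (by positivity)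

private lemma cpos_near {M : ℕ} {ι : Type} [Fintype ι] (ρ : ℝ) (Y : Fin M → E3) (z P : E3)
    (X : ι → Om) (hY : ∀ m, ‖Y m‖ ≤ ρ) (hP : ‖P‖ ≤ ρ) (hX : ∀ j, ‖(X j).1 - z‖ ≤ ρ)
    (a : Fin M ⊕ (ι ⊕ Bool)) : ‖cpos Y z P X a - z‖ ≤ ρ := by
  have hh : ‖(1 / 2 : ℝ) • P‖ ≤ ρ := by
    rw [norm_smul]
    have : ‖(1 / 2 : ℝ)‖ = 1 / 2 := by norm_num
    rw [this]
    linarith [norm_nonneg P]
  rcases a with m | j | b
  · simp only [cpos, Sum.elim_inl, add_sub_cancel_left]; exact hY m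
  · simp only [cpos, Sum.elim_inl, Sum.elim_inr]; exact hX j
  · simp only [cpos, Sum.elim_inr]
    cases b
    · simp only [Bool.false_eq_true, if_false]
      rw [sub_sub_cancel_left, norm_neg]; exact hh
    · simp only [if_true, add_sub_cancel_left]; exact hh

private lemma small_num {C Λ γ' T d N0 N S ω : ℝ} (hC : 1 ≤ C) (hγ' : 0 < γ') (hT : 0 < T)
    (hN0 : 0 ≤ N) (hN : N ≤ N0) (hS0 : 0 ≤ S) (hS : S ≤ T) (hω0 : 0 < ω) (hω : ω ≤ γ' / (3 * T))
    (hd1 : 1 ≤ d) (hd2 : 12 * C * T ^ 2 / γ' ≤ d) (hd3 : 30 * Λ ^ 2 * N0 / γ' ≤ d) :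
    ω * S + 4 * C / d * S ^ 2 + 10 * Λ ^ 2 / d ^ 2 * N ≤ γ' := by
  have hd0 : 0 < d := by linarith
  have b1 : ω * S ≤ γ' / 3 := by
    calc ω * S ≤ γ' / (3 * T) * T := mul_le_mul hω hS hS0 (by positivity)
      _ = γ' / 3 := by field_simp
  have b2 : 4 * C / d * S ^ 2 ≤ γ' / 3 := by
    have : 4 * C / d * S ^ 2 ≤ 4 * C / d * T ^ 2 := by
      apply mul_le_mul_of_nonneg_left _ (by positivity)
      exact pow_le_pow_left₀ hS0 hS 2
    refine this.trans ?_
    rw [div_mul_eq_mul_div, div_le_iff₀ hd0]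
    rw [div_le_iff₀ hγ'] at hd2
    linarith
  have b3 : 10 * Λ ^ 2 / d ^ 2 * N ≤ γ' / 3 := by
    have h1 : 10 * Λ ^ 2 / d ^ 2 * N ≤ 10 * Λ ^ 2 / d ^ 2 * N0 :=
      mul_le_mul_of_nonneg_left hN (by positivity)
    refine h1.trans ?_
    rw [div_mul_eq_mul_div, div_le_iff₀ (by positivity)]
    rw [div_le_iff₀ hγ'] at hd3
    have h2 : d * γ' ≤ d ^ 2 * γ' := by
      apply mul_le_mul_of_nonneg_right _ hγ'.le
      nlinarith
    linarith
  linarith

private lemma big_num {N M d C Λ γ ω v rep r NN att q Ch e E : ℝ} (hC : 1 ≤ C)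
    (hΛ : 512 * C ≤ Λ) (hd : 0 < d) (hM : 0 ≤ M) (hMN : M + 1 ≤ N) (hNN : 0 ≤ NN)
    (h1 : -(ω * (M + N + 2) + 4 * C / d * (M + N + 2) ^ 2 + q * N) ≤ r - v * (N - M))
    (h2 : N * (N - 1) / (4 * (d / Λ)) ≤ rep) (hq : q ≤ γ / 8) (hc1 : 8 * C / d ≤ γ / 16)
    (hω : ω ≤ γ / 8) (hv : γ ≤ v)
    (hbig : Ch + γ * M + γ / 8 * (M + 2) + γ / 16 * (M + 2) ^ 2 + e + 1 ≤ 3 / 8 * γ * N)
    (hE : E ≤ e + 1) :
    (-att + 7 / 8 * rep) + (γ / 4 * N + Ch + E) ≤ (-att + rep + NN) + r := by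
  have hN0 : 0 ≤ N := by linarith
  have hΛ0 : 0 < Λ := by linarith
  have hc10 : 0 ≤ 8 * C / d := by positivity
  have h4 : 2 * (8 * C / d) * (N ^ 2 - N) ≤ 1 / 8 * rep := by
    have e5 : N * (N - 1) / (4 * (d / Λ)) = Λ / (4 * d) * (N ^ 2 - N) := by
      field_simp
    rw [e5] at h2
    have e6 : 2 * (8 * C / d) * (N ^ 2 - N)
      = 1 / 8 * (512 * C / (4 * d) * (N ^ 2 - N)) := by
      field_simp; ring
    rw [e6]
    have hpos : 0 ≤ N ^ 2 - N := by nlinarith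
    have h7 : 512 * C / (4 * d) * (N ^ 2 - N) ≤ Λ / (4 * d) * (N ^ 2 - N) := by
      apply mul_le_mul_of_nonneg_right _ hpos
      exact div_le_div_of_nonneg_right hΛ (by positivity)
    linarith
  have h5 : 4 * C / d * (M + N + 2) ^ 2 ≤ 8 * C / d * (N ^ 2 + (M + 2) ^ 2) := by
    have e6 : 4 * C / d * (M + N + 2) ^ 2 = 8 * C / d * ((M + N + 2) ^ 2 / 2) := by
      ring
    rw [e6]
    apply mul_le_mul_of_nonneg_left _ hc10
    nlinarith [sq_nonneg (N - (M + 2))]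
  have h6 : ω * (M + N + 2) ≤ γ / 8 * (M + N + 2) :=
    mul_le_mul_of_nonneg_right hω (by linarith)
  have h7 : q * N ≤ γ / 8 * N := mul_le_mul_of_nonneg_right hq hN0
  have h8 : γ * (N - M) ≤ v * (N - M) := mul_le_mul_of_nonneg_right hv (by linarith)
  have h9 : 8 * C / d * (M + 2) ^ 2 ≤ γ / 16 * (M + 2) ^ 2 :=
    mul_le_mul_of_nonneg_right hc1 (by positivity)
  have h10' : 8 * C / d * N ≤ γ / 16 * N :=
    mul_le_mul_of_nonneg_right hc1 hN0
  have h11 : 0 ≤ 8 * C / d * N ^ 2 := by positivity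
  generalize 8 * C / d = c at *
  have e1 : 2 * c * (N ^ 2 - N) = 2 * (c * N ^ 2) - 2 * (c * N) := by ring
  have e2 : c * (N ^ 2 + (M + 2) ^ 2) = c * N ^ 2 + c * (M + 2) ^ 2 := by ring
  rw [e1] at h4
  rw [e2] at h5
  generalize c * N ^ 2 = x1 at *
  generalize c * N = x2 at *
  generalize c * (M + 2) ^ 2 = x3 at *
  linarith

/-- the core after translation -/
private lemma core_small (h_lc : S_lc) (h_adm : S_adm) {M N : ℕ} (Y : Fin M → E3)
    (hq : ∀ ψ : (Fin N → Om) → ℝ, WF ψ → En N Y * nsq ψ ≤ Qf Y ψ)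
    (φ0 : (Fin N → Om) → ℝ) (hwf : WF φ0) (W' rst : (Fin N → Om) → ℝ) (hmeasW : Measurable W')
    (hW : ∀ X, W' X = pot Y X + rst X) (v γ' E : ℝ)
    (hr : ∀ X, φ0 X ≠ 0 → |rst X - v * ((N : ℝ) - M)| ≤ γ')
    (hE : E ≤ En N Y + v * ((N : ℝ) - M)) :
    (E - γ') * nsq φ0 ≤ kin φ0 + expv W' φ0 := by
  have hpot : AdmW (pot (ι := Fin N) Y) := ((h_adm (Fin N)).2.2.2.2.2.2.1 (Fin M) Y).2.2
  have hnn : 0 ≤ nsq φ0 := by
    unfold nsq
    exact integral_nonneg (fun X => sq_nonneg _)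
  have key : expv (fun X => pot Y X + (v * ((N : ℝ) - M) - γ')) φ0 ≤ expv W' φ0 := by
    refine expv_ge h_lc φ0 hwf.toLC _ _ (fun X => pot Y X + (v * ((N : ℝ) - M) + γ'))
      ((h_adm (Fin N)).2.1 _ _ hpot (admW_const h_adm _)) hmeasW
      ((h_adm (Fin N)).2.1 _ _ hpot (admW_const h_adm _)) ?_
    refine Filter.Eventually.of_forall (fun X hX => ?_)
    have h1 := abs_le.mp (hr X hX)
    rw [hW]
    constructor <;> linarith [h1.1, h1.2]
  rw [expv_add_const h_lc φ0 hwf.toLC _ hpot] at key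
  have hq' := hq φ0 hwf
  unfold Qf at hq'
  have hE3 : (E - γ') * nsq φ0 ≤ (En N Y + (v * ((N : ℝ) - M) - γ')) * nsq φ0 :=
    mul_le_mul_of_nonneg_right (by linarith) hnn
  linarith

/-- the core after translation, many electrons -/
private lemma core_big (h_lc : S_lc) (h_adm : S_adm) {M N : ℕ} (Y : Fin M → E3)
    (φ0 : (Fin N → Om) → ℝ) (hwf : WF φ0) (W' rst : (Fin N → Om) → ℝ) (hmeasW : Measurable W')
    (hW : ∀ X, W' X = pot Y X + rst X) (B E Ch ε : ℝ)
    (hheavy : -(Ch + ε * N) * nsq φ0 ≤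
        kin φ0 + expv (fun X => - attr Y X + (7 / 8) * repEE X) φ0)
    (hr : ∀ X, φ0 X ≠ 0 → rst X ≤ B)
    (hr2 : ∀ X, φ0 X ≠ 0 → Function.Injective (fun j => (X j).1) →
      (-attr Y X + 7 / 8 * repEE X) + (ε * N + Ch + E) ≤ pot Y X + rst X) :
    E * nsq φ0 ≤ kin φ0 + expv W' φ0 := by
  have hpot : AdmW (pot (ι := Fin N) Y) := ((h_adm (Fin N)).2.2.2.2.2.2.1 (Fin M) Y).2.2
  have hattr : AdmW (attr (ι := Fin N) Y) := ((h_adm (Fin N)).2.2.2.2.2.2.1 (Fin M) Y).1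
  have hrep : AdmW (repEE (ι := Fin N)) := ((h_adm (Fin N)).2.2.2.2.2.2.1 (Fin M) Y).2.1
  have hadm2 : AdmW (fun X : Fin N → Om => - attr Y X + (7 / 8) * repEE X) := by
    refine (h_adm (Fin N)).2.1 _ _ ?_ ((h_adm (Fin N)).2.2.1 _ _ hrep)
    have := (h_adm (Fin N)).2.2.1 (-1) _ hattr
    simpa only [neg_mul, one_mul] using this
  have key : expv (fun X => (- attr Y X + (7 / 8) * repEE X) + (ε * N + Ch + E)) φ0
      ≤ expv W' φ0 := by
    refine expv_ge h_lc φ0 hwf.toLC _ _ (fun X => pot Y X + B)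
      ((h_adm (Fin N)).2.1 _ _ hadm2 (admW_const h_adm _)) hmeasW
      ((h_adm (Fin N)).2.1 _ _ hpot (admW_const h_adm _)) ?_
    filter_upwards [(h_adm (Fin N)).2.2.2.2.2.2.2 ∅] with X hG hX
    rw [hW]
    exact ⟨hr2 X hX hG.1, by linarith [hr X hX]⟩
  rw [expv_add_const h_lc φ0 hwf.toLC _ hadm2] at key
  have e : -(Ch + ε * N) * nsq φ0 + (ε * N + Ch + E) * nsq φ0 = E * nsq φ0 := by ring
  linarith

end CellQ

open CellQ in
theorem p_cellQ (h_lc : S_lc) (h_adm : S_adm) (h_en : S_en) (h_shift : S_shift)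
    (h_heavy : S_heavy) : S_cellQ := by
  intro C Λ M Y P um γ γ' lmax hC hΛ hum hγ hγ'
  obtain ⟨-, h_enb, -, -, -, -⟩ := h_en
  obtain ⟨Ch, hCh, hheavy⟩ := h_heavy (Fin M) Y (γ / 4) (by positivity)
  obtain ⟨N0, hN0⟩ := exists_nat_ge (((M : ℝ) + 1) + (Ch + γ * M + γ / 8 * (M + 2)
    + γ / 16 * (M + 2) ^ 2 + |En M Y| + 1) * (8 / (3 * γ)))
  have hΛ0 : 0 < Λ := by linarith
  obtain ⟨T, hT⟩ : ∃ T : ℝ, T = (M : ℝ) + N0 + 2 := ⟨_, rfl⟩
  have hT0 : 0 < T := by rw [hT]; positivity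
  obtain ⟨Rt, hRt⟩ : ∃ Rt : ℝ, Rt = (∑ m, ‖Y m‖) + ‖P‖ := ⟨_, rfl⟩
  have hRt0 : 0 ≤ Rt := by rw [hRt]; positivity
  have hYR : ∀ m, ‖Y m‖ ≤ Rt := by
    intro m
    have := Finset.single_le_sum (f := fun m => ‖Y m‖) (fun i _ => norm_nonneg _)
      (Finset.mem_univ m)
    have h2 := norm_nonneg P
    rw [hRt]
    linarith
  have hPR : ‖P‖ ≤ Rt := by
    have : 0 ≤ ∑ m, ‖Y m‖ := by positivity
    rw [hRt]
    linarith
  have t1 : 0 ≤ Λ * Rt := by positivity
  have t2 : 0 ≤ 12 * C * T ^ 2 / γ' := by positivity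
  have t3 : 0 ≤ 30 * Λ ^ 2 * N0 / γ' := by positivity
  have t4 : 0 ≤ 128 * C / γ := by positivity
  have t5 : 0 ≤ 80 * Λ ^ 2 / γ := by positivity
  obtain ⟨ω, hω⟩ : ∃ ω : ℝ, ω = min (γ' / (3 * T)) (γ / 8) := ⟨_, rfl⟩
  have hω0 : 0 < ω := by rw [hω]; positivity
  have hω1 : ω ≤ γ' / (3 * T) := by rw [hω]; exact min_le_left _ _
  have hω2 : ω ≤ γ / 8 := by rw [hω]; exact min_le_right _ _
  refine ⟨1 + Λ * Rt + 12 * C * T ^ 2 / γ' + 30 * Λ ^ 2 * N0 / γ' + 128 * C / γ + 80 * Λ ^ 2 / γ,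
    ω, by linarith, hω0, ?_⟩
  intro d z u lam E U Kr N φ hd hK hU hu hlam hlmax hUb hφ hsupp hE1 hE2
  have hd1 : 1 ≤ d := by linarith
  have hd0 : 0 < d := by linarith
  have hdR : Λ * Rt ≤ d := by linarith
  have hd2 : 12 * C * T ^ 2 / γ' ≤ d := by linarith
  have hd3 : 30 * Λ ^ 2 * N0 / γ' ≤ d := by linarith
  have hd4 : 128 * C / γ ≤ d := by linarith
  have hd5 : 80 * Λ ^ 2 / γ ≤ d := by linarith
  clear hd t1 t2 t3 t4 t5
  have hdd : d ≤ d ^ 2 := by nlinarith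
  have hρ0 : 0 < d / Λ := by positivity
  have hρR : Rt ≤ d / Λ := by
    rw [le_div_iff₀ hΛ0]; linarith
  -- the shifted function
  obtain ⟨-, hwf, hn, hk, hexp, -⟩ := h_shift (Fin N) (-z) φ
  have hwf := hwf hφ
  have hexpW := hexp (fun X => cellW Kr U lam (d / Λ) Y z P X)
  rw [← hn, ← hk, ← hexpW]
  clear hn hk hexpW hexp
  have hsup0 : ∀ X, φ (fun j => ((X j).1 - (-z), (X j).2)) ≠ 0 →
      ∀ j, ‖(tr z X j).1 - z‖ ≤ d / Λ := fun X hX => hsupp _ hX
  generalize hφ0 : (fun X : Fin N → Om => φ (fun j => ((X j).1 - (-z), (X j).2))) = φ0 at *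
  have hsup1 : ∀ X, φ0 X ≠ 0 → ∀ j, ‖(tr z X j).1 - z‖ ≤ d / Λ := by
    intro X hX
    apply hsup0 X
    rw [← hφ0] at hX
    exact hX
  clear hsup0 hφ0 hsupp hφ
  have hmeasW : Measurable (fun X : Fin N → Om => cellW Kr U lam (d / Λ) Y z P (tr z X)) := by
    refine (meas_cellW h_adm C (d / 8) Kr hK U hU lam (d / Λ) Y z P).comp ?_
    refine measurable_pi_lambda _ (fun j => ?_)
    exact Measurable.prodMk ((measurable_pi_apply j).fst.sub_const _) (measurable_pi_apply j).snd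
  change (E - γ') * nsq φ0 ≤ kin φ0 +
    expv (fun X => cellW Kr U lam (d / Λ) Y z P (tr z X)) φ0
  have hnn : 0 ≤ nsq φ0 := by
    unfold nsq
    exact integral_nonneg (fun X => sq_nonneg _)
  have hrest : ∀ X, φ0 X ≠ 0 →
      |rest Kr U lam (d / Λ) Y z P (tr z X) - (lam - u) * ((N : ℝ) - M)| ≤
      ω * ((M : ℝ) + N + 2) + 4 * C / d * ((M : ℝ) + N + 2) ^ 2 + 10 / (d / Λ) ^ 2 * N := by
    intro X hX
    have := rest_bd C d Kr hK U u ω lam (d / Λ) Y z P (tr z X) (fun a => hUb _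
      (cpos_near (d / Λ) Y z P (tr z X) (fun m => (hYR m).trans hρR) (hPR.trans hρR)
        (hsup1 X hX) a))
    simpa only [Fintype.card_fin] using this
  have h10 : 10 / (d / Λ) ^ 2 = 10 * Λ ^ 2 / d ^ 2 := by
    field_simp
  by_cases hN : N ≤ N0
  · -- few electrons
    have hNr : (N : ℝ) ≤ N0 := by exact_mod_cast hN
    have hNT : (M : ℝ) + N + 2 ≤ T := by rw [hT]; linarith
    refine core_small h_lc h_adm Y ?_ φ0 hwf _ _ hmeasW
      (fun X => cellW_tr Kr U lam (d / Λ) Y z P X) (lam - u) γ' E ?_ hE2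
    · intro ψ hψ
      have := h_enb (Fin N) (Fin M) Y ψ hψ
      rwa [Fintype.card_fin] at this
    · intro X hX
      refine (hrest X hX).trans ?_
      rw [h10]
      exact small_num hC hγ' hT0 (by positivity) hNr (by positivity) hNT hω0 hω1 hd1 hd2 hd3
  · -- many electrons
    push Not at hN
    have hNr : (N0 : ℝ) ≤ N := by exact_mod_cast hN.le
    have hK0 : 0 ≤ (Ch + γ * M + γ / 8 * (M + 2) + γ / 16 * (M + 2) ^ 2 + |En M Y| + 1)
        * (8 / (3 * γ)) := by positivity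
    have hMN : (M : ℝ) + 1 ≤ N := by linarith
    have hM0 : (0 : ℝ) ≤ M := by positivity
    have hbig : Ch + γ * M + γ / 8 * (M + 2) + γ / 16 * (M + 2) ^ 2 + |En M Y| + 1
        ≤ 3 / 8 * γ * N := by
      have h1 : (Ch + γ * M + γ / 8 * (M + 2) + γ / 16 * (M + 2) ^ 2 + |En M Y| + 1)
        * (8 / (3 * γ)) ≤ N := by linarith
      rw [← le_div_iff₀ (by positivity)] at h1
      refine h1.trans (le_of_eq ?_)
      field_simp
    have b3 : 10 / (d / Λ) ^ 2 ≤ γ / 8 := by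
      rw [h10, div_le_iff₀ (by positivity)]
      rw [div_le_iff₀ hγ] at hd5
      have : d * γ ≤ d ^ 2 * γ := mul_le_mul_of_nonneg_right hdd hγ.le
      linarith
    have hc1 : 8 * C / d ≤ γ / 16 := by
      rw [div_le_iff₀ hd0]
      rw [div_le_iff₀ hγ] at hd4
      linarith
    have hh := hheavy (Fin N) φ0 hwf.toLC
    rw [Fintype.card_fin] at hh
    have hfin : E * nsq φ0 ≤ kin φ0 +
        expv (fun X => cellW Kr U lam (d / Λ) Y z P (tr z X)) φ0 := by
      refine core_big h_lc h_adm Y φ0 hwf _ _ hmeasW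
        (fun X => cellW_tr Kr U lam (d / Λ) Y z P X) ((lam - u) * ((N : ℝ) - M) +
          (ω * ((M : ℝ) + N + 2) + 4 * C / d * ((M : ℝ) + N + 2) ^ 2 + 10 / (d / Λ) ^ 2 * N))
        E Ch (γ / 4) hh ?_ ?_
      · intro X hX
        linarith [(abs_le.mp (hrest X hX)).2]
      · intro X hX hinj
        have h1 := (abs_le.mp (hrest X hX)).1
        have h2 := repEE_lb (d / Λ) z (tr z X) (by
          intro i j hij
          apply hinj
          simpa [tr] using hij) hρ0 (hsup1 X hX)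
        have h3 : repEE (tr z X) = repEE X := by
          have e2 : ∀ x y : E3, x - -z - (y - -z) = x - y := by intro x y; abel
          simp only [repEE, tr, cou, e2]
        rw [h3, Fintype.card_fin] at h2
        have hNN : 0 ≤ repNN Y := by
          unfold repNN cou; positivity
        have hpe : pot Y X = - attr Y X + repEE X + repNN Y := rfl
        rw [hpe]
        exact big_num hC hΛ hd0 hM0 hMN hNN h1 h2 b3 hc1 hω2 (by linarith [le_abs_self u]) hbig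
          (by linarith [le_abs_self (En M Y)])
    have hg : 0 ≤ γ' * nsq φ0 := by positivity
    have e : (E - γ') * nsq φ0 = E * nsq φ0 - γ' * nsq φ0 := by ring
    linarith

end MolDis
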