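import Pool.Agent.Lib.MP_59f35a_mp.Stmts3

/-!
# MP_59f35a_mp : piece H5 (the polar molecule)
-/

set_option autoImplicit false

noncomputable section

open MeasureTheory Filter

namespace MolDis

namespace CompProof

lemma pot_comp {ι κ κ' : Type} [Fintype ι] [Fintype κ] [Fintype κ'] (e : κ' ≃ κ) (Y : κ → E3)
    (X : ι → Om) : pot (fun k => Y (e k)) X = pot Y X := by
  have h1 : attr (fun k => Y (e k)) X = attr Y X := by
    unfold attr
    refine Finset.sum_congr rfl fun j _ => ?_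
    exact Equiv.sum_comp e (fun m => cou (X j).1 (Y m))
  have h2 : repNN (fun k => Y (e k)) = repNN Y := by
    unfold repNN
    congr 1
    rw [← Equiv.sum_comp e (fun l => ∑ m, cou (Y l) (Y m))]
    refine Finset.sum_congr rfl fun l _ => ?_
    exact Equiv.sum_comp e (fun m => cou (Y (e l)) (Y m))
  unfold pot
  rw [h1, h2]

lemma Qf_comp {ι κ κ' : Type} [Fintype ι] [DecidableEq ι] [Fintype κ] [Fintype κ'] (e : κ' ≃ κ)
    (Y : κ → E3) (φ : (ι → Om) → ℝ) : Qf (fun k => Y (e k)) φ = Qf Y φ := by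
  unfold Qf expv
  congr 1
  refine integral_congr_ae (Eventually.of_forall fun X => ?_)
  simp only [pot_comp e Y X]

lemma vdip_comp {ι κ κ' : Type} [Fintype ι] [Fintype κ] [Fintype κ'] (e : κ' ≃ κ) (B : κ → E3)
    (X : ι → Om) : vdip (fun k => B (e k)) X = vdip B X := by
  unfold vdip
  rw [Equiv.sum_comp e B]

lemma nsq_nonneg {ι : Type} [Fintype ι] (ψ : (ι → Om) → ℝ) : 0 ≤ nsq ψ :=
  integral_nonneg fun _ => sq_nonneg _

lemma expv_nonneg {ι : Type} [Fintype ι] (W ψ : (ι → Om) → ℝ) (h : ∀ X, 0 ≤ W X) :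
    0 ≤ expv W ψ := integral_nonneg fun X => mul_nonneg (h X) (sq_nonneg _)

lemma expv_mono (hlc : S_lc) {ι : Type} [Fintype ι] [DecidableEq ι] {ψ : (ι → Om) → ℝ}
    (hψ : LC ψ) {W W' : (ι → Om) → ℝ} (hW : AdmW W) (hW' : AdmW W') (h : ∀ X, W X ≤ W' X) :
    expv W ψ ≤ expv W' ψ := by
  obtain ⟨_, _, _, _, _, hint, _⟩ := hlc ι ψ hψ
  exact integral_mono (hint W hW) (hint W' hW')
    (fun X => mul_le_mul_of_nonneg_right (h X) (sq_nonneg _))

lemma expv_aff (hlc : S_lc) {ι : Type} [Fintype ι] [DecidableEq ι] {ψ : (ι → Om) → ℝ}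
    (hψ : LC ψ) {T : (ι → Om) → ℝ} (hT : AdmW T) (c D : ℝ) :
    expv (fun X => c + D * T X) ψ = c * nsq ψ + D * expv T ψ := by
  obtain ⟨_, _, _, _, _, hint, hn⟩ := hlc ι ψ hψ
  unfold expv nsq
  rw [← integral_const_mul, ← integral_const_mul,
    ← integral_add (hn.const_mul c) ((hint T hT).const_mul D)]
  refine integral_congr_ae (Eventually.of_forall fun X => ?_)
  simp only
  ring

/-- `Σ_j |x_j|² 1_{|x_j| ≥ s}` -/
def Tf {ι : Type} [Fintype ι] (s : ℝ) (X : ι → Om) : ℝ :=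
  ∑ j, if s ≤ ‖(X j).1‖ then ‖(X j).1‖ ^ 2 else 0

lemma Tf_nonneg {ι : Type} [Fintype ι] (s : ℝ) (X : ι → Om) : 0 ≤ Tf s X := by
  unfold Tf
  refine Finset.sum_nonneg fun j _ => ?_
  split_ifs <;> positivity

lemma meas_pos {ι : Type} [Fintype ι] (j : ι) : Measurable (fun X : ι → Om => (X j).1) :=
  measurable_fst.comp (measurable_pi_apply j)

lemma Tf_bdd {ι : Type} [Fintype ι] (s : ℝ) : BddW (Tf (ι := ι) s) := by
  constructor
  · unfold Tf
    refine Finset.measurable_sum _ fun j _ => ?_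
    have hm : Measurable (fun X : ι → Om => ‖(X j).1‖) := (meas_pos j).norm
    refine Measurable.ite ?_ (hm.pow_const 2) measurable_const
    exact measurableSet_le measurable_const hm
  · intro R
    refine ⟨∑ _j : ι, R ^ 2, fun X hX => ?_⟩
    rw [abs_of_nonneg (Tf_nonneg s X)]
    unfold Tf
    refine Finset.sum_le_sum fun j _ => ?_
    split_ifs
    · have h := hX j
      have h0 := norm_nonneg (X j).1
      nlinarith
    · positivity

lemma Vf_bdd {ι κ : Type} [Fintype ι] [Fintype κ] (B : κ → E3) (P : E3) :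
    BddW (fun X : ι → Om => ‖vdip B X - P‖ ^ 2) := by
  constructor
  · unfold vdip
    have : Measurable (fun X : ι → Om => ∑ m, B m - ∑ j, (X j).1 - P) := by
      refine Measurable.sub (Measurable.sub measurable_const ?_) measurable_const
      exact Finset.measurable_sum _ fun j _ => meas_pos j
    exact this.norm.pow_const 2
  · intro R
    refine ⟨(‖∑ m, B m‖ + ∑ _j : ι, R + ‖P‖) ^ 2, fun X hX => ?_⟩
    rw [abs_of_nonneg (by positivity)]
    have h1 : ‖vdip B X - P‖ ≤ ‖∑ m, B m‖ + ∑ _j : ι, R + ‖P‖ := by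
      unfold vdip
      refine (norm_sub_le _ _).trans (add_le_add ?_ le_rfl)
      refine (norm_sub_le _ _).trans (add_le_add le_rfl ?_)
      exact (norm_sum_le _ _).trans (Finset.sum_le_sum fun j _ => hX j)
    exact pow_le_pow_left₀ (norm_nonneg _) h1 2

lemma cz_dist (M : ℕ) (L : ℝ) (hL : 0 ≤ L) (i j : Fin M) (h : i ≠ j) : L ≤ ‖cz M L i - cz M L j‖ := by
  unfold cz
  rw [← dist_eq_norm, PiLp.dist_single_same, dist_eq_norm, ← sub_mul, norm_mul,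
    Real.norm_of_nonneg hL]
  have h1 : (1 : ℝ) ≤ ‖((i : ℕ) : ℝ) - ((j : ℕ) : ℝ)‖ := by
    have h2 : ((i : ℕ) : ℤ) ≠ ((j : ℕ) : ℤ) := by
      intro h3
      exact h (Fin.ext (by exact_mod_cast h3))
    have h3 : (1 : ℤ) ≤ |((i : ℕ) : ℤ) - ((j : ℕ) : ℤ)| := Int.one_le_abs (sub_ne_zero.mpr h2)
    rw [Real.norm_eq_abs]
    exact_mod_cast h3
  nlinarith

lemma cz_norm (M : ℕ) (L : ℝ) (hL : 0 ≤ L) (i : Fin M) : ‖cz M L i‖ ≤ M * L := by
  unfold cz
  rw [PiLp.norm_single, norm_mul, Real.norm_of_nonneg hL, Real.norm_of_nonneg (by positivity)]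
  have : ((i : ℕ) : ℝ) ≤ M := by exact_mod_cast i.2.le
  nlinarith

/-- the crude bound on the dipole moment -/
lemma vdip_crude {ι κ : Type} [Fintype ι] [Fintype κ] (B : κ → E3) (P : E3) (s A : ℝ) (hs : 0 ≤ s)
    (hA : ‖∑ m, B m‖ + ‖P‖ + Fintype.card ι * s ≤ A) (X : ι → Om) :
    ‖vdip B X - P‖ ^ 2 ≤ 2 * A ^ 2 + 2 * Fintype.card ι * Tf s X := by
  have h1 : ‖vdip B X - P‖ ≤ A + ∑ j, (if s ≤ ‖(X j).1‖ then ‖(X j).1‖ else 0) := by
    have h2 : ‖vdip B X - P‖ ≤ ‖∑ m, B m‖ + ∑ j, ‖(X j).1‖ + ‖P‖ := by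
      unfold vdip
      refine (norm_sub_le _ _).trans (add_le_add ?_ le_rfl)
      exact (norm_sub_le _ _).trans (add_le_add le_rfl (norm_sum_le _ _))
    have h3 : ∑ j, ‖(X j).1‖ ≤ ∑ j, (s + (if s ≤ ‖(X j).1‖ then ‖(X j).1‖ else 0)) := by
      refine Finset.sum_le_sum fun j _ => ?_
      split_ifs with h
      · linarith
      · linarith [not_le.mp h]
    rw [Finset.sum_add_distrib, Finset.sum_const, Finset.card_univ, nsmul_eq_mul] at h3
    linarith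
  have h4 : (∑ j, (if s ≤ ‖(X j).1‖ then ‖(X j).1‖ else 0)) ^ 2 ≤ Fintype.card ι * Tf s X := by
    have h6 := sq_sum_le_card_mul_sum_sq (s := (Finset.univ : Finset ι))
      (f := fun j => (if s ≤ ‖(X j).1‖ then ‖(X j).1‖ else 0))
    rw [Finset.card_univ] at h6
    refine h6.trans (mul_le_mul_of_nonneg_left ?_ (by positivity))
    unfold Tf
    refine Finset.sum_le_sum fun j _ => ?_
    split_ifs <;> simp
  have h7 : 0 ≤ ∑ j, (if s ≤ ‖(X j).1‖ then ‖(X j).1‖ else 0) :=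
    Finset.sum_nonneg fun j _ => by split_ifs <;> positivity
  have h8 := norm_nonneg (vdip B X - P)
  have h9 : ‖vdip B X - P‖ ^ 2 ≤ (A + ∑ j, (if s ≤ ‖(X j).1‖ then ‖(X j).1‖ else 0)) ^ 2 :=
    pow_le_pow_left₀ h8 h1 2
  nlinarith [sq_nonneg (A - ∑ j, (if s ≤ ‖(X j).1‖ then ‖(X j).1‖ else 0))]

lemma big_aux (x y z Cm r : ℝ) (hx : 0 ≤ x) (hy : 0 ≤ y) (hCm : 0 ≤ Cm)
    (hr : 1 ≤ r) : x + y + z * r ≤ (Cm + (x + y + z)) * r := by
  nlinarith

lemma add_aux {Cm CBr x : ℝ} (h0 : 0 ≤ CBr) (hx : 0 ≤ x) : Cm * x ≤ (Cm + CBr) * x := by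
  nlinarith

lemma main_aux {M C2 u δs : ℝ} (hM : 0 < M) (hC2 : 1 ≤ C2) (hMC : 64 * C2 ≤ M * u)
    (hs : δs ≤ u / 64) (hu : 0 ≤ u) :
    M * (2 * C2 + 2) + M ^ 2 * (3 * δs + u / 8) ≤ M ^ 2 * u / 2 := by
  have h1 : M * (2 * C2 + 2) ≤ M ^ 2 * u / 16 := by
    have h2 : M * (2 * C2 + 2) ≤ M * (4 * C2) :=
      mul_le_mul_of_nonneg_left (by linarith) hM.le
    have h3 : M * (64 * C2) ≤ M * (M * u) := mul_le_mul_of_nonneg_left hMC hM.le
    nlinarith
  have h2 : M ^ 2 * (3 * δs) ≤ M ^ 2 * (3 * (u / 64)) := by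
    refine mul_le_mul_of_nonneg_left ?_ (by positivity)
    linarith
  have h3 : 0 ≤ M ^ 2 * u := by positivity
  nlinarith

open Classical in
/-- the decomposition into sectors -/
lemma sectors (hlc : S_lc) (hadm : S_adm) (hims : S_ims) {M : ℕ} (Y : (Σ _ : Fin M, Fin 3) → E3)
    (b : Fin 3 → E3) (P : E3) (L t s A A' C' : ℝ) (φ : (Fin (3 * M) → Om) → ℝ)
    (hPU : PU (cellPU t (cz M L))) (hφ : LC φ) (hn : nsq φ = 1) (hs : 0 ≤ s) (hA' : 0 ≤ A')
    (hA : ‖∑ m, Y m‖ + ‖P‖ + (3 * M : ℕ) * s ≤ A)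
    (hgood : ∀ α, goodA α →
      expv (fun X => ‖vdip Y X - P‖ ^ 2) (sector (cellPU t (cz M L)) α φ) ≤
        A' * nsq (sector (cellPU t (cz M L)) α φ)
        + C' * (kin (sector (cellPU t (cz M L)) α φ)
            + expv (clPot b M L α) (sector (cellPU t (cz M L)) α φ)
            - M * En 3 b * nsq (sector (cellPU t (cz M L)) α φ))) :
    expv (fun X => ‖vdip Y X - P‖ ^ 2) φ ≤
      A' + C' * goodE b M L t φ + 2 * A ^ 2 * badW M L t φ
        + 2 * (3 * M : ℕ) * expv (Tf s) φ := by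
  obtain ⟨hLC, hns, hW, -, -, -⟩ := hims (Fin (3 * M)) (Option (Fin M)) (cellPU t (cz M L)) φ hPU hφ
  have hbddA := (hadm (Fin (3 * M))).1
  have hV : AdmW (fun X : Fin (3 * M) → Om => ‖vdip Y X - P‖ ^ 2) := hbddA _ (Vf_bdd Y P)
  have hT : AdmW (Tf (ι := Fin (3 * M)) s) := hbddA _ (Tf_bdd s)
  rw [hW _ hV, hW _ hT]
  have key : ∀ α : Fin (3 * M) → Option (Fin M),
      expv (fun X => ‖vdip Y X - P‖ ^ 2) (sector (cellPU t (cz M L)) α φ) ≤
        A' * nsq (sector (cellPU t (cz M L)) α φ)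
        + C' * (if goodA α then kin (sector (cellPU t (cz M L)) α φ)
            + expv (clPot b M L α) (sector (cellPU t (cz M L)) α φ)
            - M * En 3 b * nsq (sector (cellPU t (cz M L)) α φ) else 0)
        + 2 * A ^ 2 * (if goodA α then 0 else nsq (sector (cellPU t (cz M L)) α φ))
        + 2 * (3 * M : ℕ) * expv (Tf s) (sector (cellPU t (cz M L)) α φ) := by
    intro α
    have hn0 := nsq_nonneg (sector (cellPU t (cz M L)) α φ)
    have hT0 : 0 ≤ expv (Tf s) (sector (cellPU t (cz M L)) α φ) :=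
      expv_nonneg _ _ (Tf_nonneg s)
    have hT1 : 0 ≤ 2 * ((3 * M : ℕ) : ℝ) * expv (Tf s) (sector (cellPU t (cz M L)) α φ) :=
      mul_nonneg (by positivity) hT0
    by_cases hα : goodA α
    · rw [if_pos hα, if_pos hα, mul_zero, add_zero]
      linarith [hgood α hα]
    · rw [if_neg hα, if_neg hα, mul_zero, add_zero]
      have h1 : expv (fun X => ‖vdip Y X - P‖ ^ 2) (sector (cellPU t (cz M L)) α φ) ≤
          expv (fun X => 2 * A ^ 2 + 2 * (3 * M : ℕ) * Tf s X)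
            (sector (cellPU t (cz M L)) α φ) := by
        refine expv_mono hlc (hLC α) hV ?_ ?_
        · refine hbddA _ ⟨((Tf_bdd s).1.const_mul _).const_add _, fun R => ?_⟩
          obtain ⟨c, hc⟩ := (Tf_bdd (ι := Fin (3 * M)) s).2 R
          refine ⟨2 * A ^ 2 + 2 * (3 * M : ℕ) * c, fun X hX => ?_⟩
          have := hc X hX
          rw [abs_of_nonneg (Tf_nonneg s X)] at this
          have h0 := Tf_nonneg s X
          rw [abs_of_nonneg (by positivity)]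
          have h5 : 2 * ((3 * M : ℕ) : ℝ) * Tf s X ≤ 2 * ((3 * M : ℕ) : ℝ) * c :=
            mul_le_mul_of_nonneg_left this (by positivity)
          linarith
        · intro X
          have := vdip_crude Y P s A hs (by simpa using hA) X
          simpa using this
      rw [expv_aff hlc (hLC α) hT] at h1
      have h2 : 0 ≤ A' * nsq (sector (cellPU t (cz M L)) α φ) := mul_nonneg hA' hn0
      linarith
  refine (Finset.sum_le_sum fun α _ => key α).trans (le_of_eq ?_)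
  rw [Finset.sum_add_distrib, Finset.sum_add_distrib, Finset.sum_add_distrib, ← Finset.mul_sum,
    ← Finset.mul_sum, ← Finset.mul_sum, ← Finset.mul_sum, ← hns, hn]
  unfold goodE badW
  ring

end CompProof

open CompProof

theorem p_comp (hlc : S_lc) (hadm : S_adm) (hen : S_en) (hims : S_ims) (hcut : S_cut)
    (hmarg : S_marg) (hmom : S_mom) (hcM : S_compMarg) (hcT : S_compTail) (hcG : S_compGood) :
    S_comp := by
  intro hD a η ε₁ hAH hη hε₁ hε₁1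
  obtain ⟨ha0, ha4, -, -⟩ := id hAH
  -- parameters
  obtain ⟨η1, hη1, hη1η, hη18⟩ : ∃ η1 : ℝ, 0 < η1 ∧ η1 ≤ η ∧ η1 ≤ 1 / 8 :=
    ⟨min η (1 / 8), lt_min hη (by norm_num), min_le_left _ _, min_le_right _ _⟩
  obtain ⟨η0, hη0, hη01, hη0a⟩ : ∃ η0 : ℝ, 0 < η0 ∧ η0 ≤ η1 / 2 ∧ η0 ≤ (1 / 4 - a) / 8 :=
    ⟨min (η1 / 2) ((1 / 4 - a) / 8), lt_min (by linarith) (by linarith), min_le_left _ _,
      min_le_right _ _⟩
  obtain ⟨Lm, hLm⟩ := hmarg 3 a η0 (by norm_num) hAH hη0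
  obtain ⟨b, p0, δ0, C2, C, hp0, hp1, hδ0, hC2, hC, hδC, hsep, hpol⟩ :=
    hD (ε₁ / 64) (max 1 Lm) (by positivity)
  have hbM : Marg b a η0 := (hLm b fun i j hij => (le_max_right _ _).trans (hsep i j hij)).1
  have hp0' : 0 < ‖p0‖ := norm_pos_iff.mpr hp0
  obtain ⟨M, hM1, hMC⟩ : ∃ M : ℕ, 1 ≤ M ∧ 64 * C2 ≤ M * (ε₁ * ‖p0‖ ^ 2) := by
    obtain ⟨n, hn⟩ := exists_nat_ge (64 * C2 / (ε₁ * ‖p0‖ ^ 2))
    refine ⟨n + 1, by omega, ?_⟩
    have h1 : 0 < ε₁ * ‖p0‖ ^ 2 := by positivity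
    rw [div_le_iff₀ h1] at hn
    push_cast
    nlinarith
  have hM0 : (0 : ℝ) < M := by exact_mod_cast hM1
  have hM1' : (1 : ℝ) ≤ M := by exact_mod_cast hM1
  -- constants of the pieces
  obtain ⟨L1, hL1, hMar⟩ := hcM b M a η0 η1 hM1 hAH hbM hη0 (by linarith) (by linarith)
  obtain ⟨CT, L2, hCT, hL2, hTail⟩ := hcT b M a η0 ((1 / 4 - a) / 2) hM1 hAH hbM hη0 (by linarith)
    (by linarith) (by linarith)
  have hsC2 : 1 ≤ Real.sqrt C2 := by
    rw [Real.one_le_sqrt]; exact hC2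
  have hδ1 : δ0 ≤ 1 := by
    have h1 : ε₁ / 64 * ‖p0‖ ^ 2 ≤ 1 := by
      have : ‖p0‖ ^ 2 ≤ 1 := pow_le_one₀ (norm_nonneg _) hp1
      nlinarith
    nlinarith
  obtain ⟨C', hC', hGood⟩ := hcG b p0 δ0 C2 C (ε₁ * ‖p0‖ ^ 2 / 8) M hM1 hp1 hδ0 hδ1 hC2 hC
    (by positivity) hpol
  -- the radius of `b`
  obtain ⟨rb, hrb0, hrb⟩ : ∃ rb : ℝ, 0 ≤ rb ∧ ∀ m, ‖b m‖ ≤ rb :=
    ⟨∑ m, ‖b m‖, Finset.sum_nonneg fun _ _ => norm_nonneg _,
      fun m => Finset.single_le_sum (f := fun m => ‖b m‖) (fun _ _ => norm_nonneg _)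
        (Finset.mem_univ m)⟩
  set KK : ℝ := 3 * M * (M + rb) + M + 3 * M * CT with hKK
  set δ : ℝ := M ^ 2 * ε₁ * ‖p0‖ ^ 2 / 2 with hδ
  have hδpos : 0 < δ := by positivity
  -- choice of `L`
  obtain ⟨L, hLL1, hLL2, hL1', hLt, hL16, hLrb, hLδ⟩ : ∃ L : ℝ, L1 ≤ L ∧ L2 ≤ L ∧ 1 ≤ L ∧
      C ≤ L ^ (3 / 8 : ℝ) ∧ 16 * L ^ (3 / 8 : ℝ) ≤ L ∧ 2 * rb + 1 ≤ L ∧
      (C' * CT + 2 * KK ^ 2 * CT + 2 * (3 * M) * CT) * L ^ (-(1 / 4 : ℝ)) ≤ δ := by
    have e1 : ∀ᶠ L : ℝ in atTop, 16 * L ^ (3 / 8 : ℝ) ≤ L := by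
      have h1 := (tendsto_rpow_atTop (show (0 : ℝ) < 5 / 8 by norm_num)).eventually_ge_atTop 16
      filter_upwards [h1, eventually_gt_atTop 0] with L h2 h3
      calc 16 * L ^ (3 / 8 : ℝ) ≤ L ^ (5 / 8 : ℝ) * L ^ (3 / 8 : ℝ) :=
            mul_le_mul_of_nonneg_right h2 (Real.rpow_nonneg h3.le _)
        _ = L := by
            rw [← Real.rpow_add h3]
            norm_num
    have e2 : ∀ᶠ L : ℝ in atTop,
        (C' * CT + 2 * KK ^ 2 * CT + 2 * (3 * M) * CT) * L ^ (-(1 / 4 : ℝ)) ≤ δ := by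
      have h1 := (tendsto_rpow_neg_atTop (show (0 : ℝ) < 1 / 4 by norm_num)).const_mul
        (C' * CT + 2 * KK ^ 2 * CT + 2 * (3 * M) * CT)
      rw [mul_zero] at h1
      filter_upwards [h1.eventually_lt_const hδpos] with L hL
      exact hL.le
    have e3 := (tendsto_rpow_atTop (show (0 : ℝ) < 3 / 8 by norm_num)).eventually_ge_atTop C
    obtain ⟨L, h⟩ := ((eventually_ge_atTop L1).and ((eventually_ge_atTop L2).and
      ((eventually_ge_atTop 1).and (e3.and (e1.and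
        ((eventually_ge_atTop (2 * rb + 1)).and e2)))))).exists
    exact ⟨L, h.1, h.2.1, h.2.2.1, h.2.2.2.1, h.2.2.2.2.1, h.2.2.2.2.2.1, h.2.2.2.2.2.2⟩
  have hL0 : 0 < L := by linarith
  have htpos : 0 < L ^ (3 / 8 : ℝ) := Real.rpow_pos_of_pos hL0 _
  have hczd := cz_dist M L hL0.le
  obtain ⟨hPU, -⟩ := hcut (Fin M) (L ^ (3 / 8 : ℝ)) (cz M L) htpos
    (fun k k' hk => by linarith [hczd k k' hk])
  -- the molecule
  have hcard : Fintype.card (Σ _ : Fin M, Fin 3) = 3 * M := by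
    rw [Fintype.card_sigma]
    simp [mul_comm]
  set e : Fin (3 * M) ≃ (Σ _ : Fin M, Fin 3) := (Fintype.equivFinOfCardEq hcard).symm with he
  set Y := cY b M L with hY
  have hEn : ∀ n : ℕ, En n (fun k => Y (e k)) = En n Y := fun n => hen.2.2.2.1 _ _ e Y n
  obtain ⟨hMar1, hMar2⟩ := hMar L hLL1
  have hMargB : Marg (fun k => Y (e k)) a η1 := by
    constructor
    · intro k hk hk'
      rw [hEn, hEn]
      exact hMar1 k hk hk'
    · intro k hk
      rw [hEn, hEn]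
      exact hMar2 k hk
  have hYnorm : ∀ p, ‖Y p‖ ≤ M * L + rb := by
    intro p
    rw [hY]
    unfold cY cl
    exact (norm_add_le _ _).trans (add_le_add (cz_norm M L hL0.le p.1) (hrb p.2))
  have hYinj : Function.Injective Y := by
    rintro ⟨i, m⟩ ⟨j, n⟩ hij
    rw [hY] at hij
    unfold cY cl at hij
    simp only at hij
    by_cases hij' : i = j
    · subst hij'
      have h1 : b m = b n := by simpa using hij
      by_contra h2
      have h3 : m ≠ n := fun h => h2 (by rw [h])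
      have h4 := (le_max_left (1 : ℝ) Lm).trans (hsep m n h3)
      rw [h1, sub_self, norm_zero] at h4
      linarith
    · exfalso
      have h1 := hczd i j hij'
      have h2 : cz M L i - cz M L j = b n - b m := by
        rw [sub_eq_sub_iff_add_eq_add, hij, add_comm]
      rw [h2] at h1
      have h3 := (norm_sub_le (b n) (b m)).trans (add_le_add (hrb n) (hrb m))
      linarith
  -- `S_mom`
  obtain ⟨Cm, hCm, hmm⟩ := hmom (3 * M) (fun k => Y (e k)) (1 / 8) (by omega) (by norm_num)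
    (by
      have h1 := hMargB.1 1 le_rfl (by omega)
      push_cast at h1
      linarith)
  set CBr : ℝ := C' * CT * (L ^ (3 / 8 : ℝ)) ^ 2 + 2 * (KK * L) ^ 2 * CT + 2 * (3 * M) * CT
    with hCBr
  have hCBr0 : 0 ≤ CBr := by positivity
  refine ⟨3 * M, fun k => Y (e k), (M : ℝ) • p0, Cm + CBr, ?_, ?_⟩
  swap
  · -- margins
    constructor
    · intro k hk hk'
      have h1 := hMargB.1 k hk hk'
      have h2 : (0 : ℝ) ≤ k := by positivity
      exact (mul_le_mul_of_nonneg_left (by linarith) h2).trans h1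
    · intro k hk
      have h1 := hMargB.2 k hk
      have h2 : (0 : ℝ) ≤ k := by positivity
      exact h1.trans (mul_le_mul_of_nonneg_left (by linarith) h2)
  refine ⟨by omega, by linarith, hε₁, hε₁1, smul_ne_zero hM0.ne' hp0,
    hYinj.comp e.injective, ?_⟩
  intro ρ hρ φ hφ hn hsupp
  have hCmρ : Cm ≤ ρ := by linarith
  have hρ1 : 1 ≤ ρ := by linarith
  obtain ⟨hm4, hmo⟩ := (hmm ρ hCmρ).1 φ hφ hn hsupp
  have hQ : Qf (fun k => Y (e k)) φ = Qf Y φ := Qf_comp e Y φ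
  have hEQ : 0 ≤ Qf (fun k => Y (e k)) φ - En (3 * M) (fun k => Y (e k)) := by
    have h1 := hen.2.1 (Fin (3 * M)) (Fin (3 * M)) (fun k => Y (e k)) φ hφ
    rw [hn, mul_one, Fintype.card_fin] at h1
    linarith
  refine ⟨?_, ?_, ?_⟩
  · -- the dipole moment
    have hV : (fun X : Fin (3 * M) → Om => ‖vdip (fun k => Y (e k)) X - (M : ℝ) • p0‖ ^ 2)
        = fun X => ‖vdip Y X - (M : ℝ) • p0‖ ^ 2 := by
      funext X
      rw [vdip_comp]
    rw [hV, hQ, hEn]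
    rw [hQ, hEn] at hEQ
    obtain ⟨hbad, hgE, hfar⟩ := hTail L φ hLL2 hφ hn
    have hfar' := hfar ρ hρ1 hsupp
    have hs : (0 : ℝ) ≤ CT * L := by positivity
    have hA : ‖∑ m, Y m‖ + ‖(M : ℝ) • p0‖ + ((3 * M : ℕ) : ℝ) * (CT * L) ≤ KK * L := by
      have h1 : ‖∑ m, Y m‖ ≤ 3 * M * (M * L + rb) := by
        refine (norm_sum_le _ _).trans ((Finset.sum_le_sum fun p _ => hYnorm p).trans ?_)
        rw [Finset.sum_const, Finset.card_univ, hcard, nsmul_eq_mul]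
        push_cast
        exact le_rfl
      have h2 : ‖(M : ℝ) • p0‖ ≤ M := by
        rw [norm_smul, Real.norm_of_nonneg hM0.le]
        exact mul_le_of_le_one_right hM0.le hp1
      have h3 : 3 * (M : ℝ) * rb ≤ 3 * M * rb * L :=
        le_mul_of_one_le_right (by positivity) hL1'
      have h4 : (M : ℝ) ≤ M * L := le_mul_of_one_le_right hM0.le hL1'
      push_cast
      calc ‖∑ m, Y m‖ + ‖(M : ℝ) • p0‖ + 3 * (M : ℝ) * (CT * L)
          ≤ (3 * M * (M * L) + 3 * (M : ℝ) * rb * L) + M * L + 3 * (M : ℝ) * (CT * L) := by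
            refine add_le_add (add_le_add ?_ (h2.trans h4)) le_rfl
            refine h1.trans ?_
            rw [mul_add]
            exact add_le_add le_rfl h3
        _ = KK * L := by rw [hKK]; ring
    have hsec := sectors hlc hadm hims Y b ((M : ℝ) • p0) L (L ^ (3 / 8 : ℝ)) (CT * L) (KK * L)
      (M * (2 * C2 + 2) + M ^ 2 * (3 * δ0 * Real.sqrt C2 + ε₁ * ‖p0‖ ^ 2 / 8))
      (C' * (L ^ (3 / 8 : ℝ)) ^ 2) φ hPU hφ.toLC hn hs (by positivity) hA
      (fun α hα => hGood L (L ^ (3 / 8 : ℝ)) φ α hLt hL16 hφ hα)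
    refine hsec.trans ?_
    set εε : ℝ := Qf Y φ - En (3 * M) Y with hεε
    have hT2 : (L ^ (3 / 8 : ℝ)) ^ 2 = L ^ (3 / 4 : ℝ) := by
      rw [← Real.rpow_natCast, ← Real.rpow_mul hL0.le]
      norm_num
    have hw1 : (L ^ (3 / 8 : ℝ)) ^ 2 * L ^ (-(9 / 4 : ℝ)) ≤ L ^ (-(1 / 4 : ℝ)) := by
      rw [hT2, ← Real.rpow_add hL0]
      exact Real.rpow_le_rpow_of_exponent_le hL1' (by norm_num)
    have hw2 : L ^ 2 * L ^ (-(9 / 4 : ℝ)) = L ^ (-(1 / 4 : ℝ)) := by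
      rw [← Real.rpow_natCast, ← Real.rpow_add hL0]
      norm_num
    have hw0 : 0 < L ^ (-(1 / 4 : ℝ)) := Real.rpow_pos_of_pos hL0 _
    have hw9 : 0 < L ^ (-(9 / 4 : ℝ)) := Real.rpow_pos_of_pos hL0 _
    -- main term
    have hmain : M * (2 * C2 + 2) + M ^ 2 * (3 * δ0 * Real.sqrt C2 + ε₁ * ‖p0‖ ^ 2 / 8)
        ≤ M ^ 2 * ε₁ * ‖p0‖ ^ 2 / 2 := by
      have h1 := main_aux (δs := δ0 * Real.sqrt C2) hM0 hC2 hMC (by linarith)
        (by positivity)
      calc M * (2 * C2 + 2) + M ^ 2 * (3 * δ0 * Real.sqrt C2 + ε₁ * ‖p0‖ ^ 2 / 8)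
          = M * (2 * C2 + 2) + M ^ 2 * (3 * (δ0 * Real.sqrt C2) + ε₁ * ‖p0‖ ^ 2 / 8) := by ring
        _ ≤ _ := h1
        _ = _ := by ring
    have hnP : ‖(M : ℝ) • p0‖ ^ 2 = M ^ 2 * ‖p0‖ ^ 2 := by
      rw [norm_smul, Real.norm_of_nonneg hM0.le, mul_pow]
    have hg1 : C' * (L ^ (3 / 8 : ℝ)) ^ 2 * goodE b M L (L ^ (3 / 8 : ℝ)) φ ≤
        C' * (L ^ (3 / 8 : ℝ)) ^ 2 * (CT * (εε + L ^ (-(9 / 4 : ℝ)))) :=
      mul_le_mul_of_nonneg_left hgE (by positivity)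
    have hg2 : 2 * (KK * L) ^ 2 * badW M L (L ^ (3 / 8 : ℝ)) φ ≤
        2 * (KK * L) ^ 2 * (CT * (εε + L ^ (-(9 / 4 : ℝ)))) :=
      mul_le_mul_of_nonneg_left hbad (by positivity)
    have hg3 : 2 * ((3 * M : ℕ) : ℝ) * expv (Tf (CT * L)) φ ≤
        2 * (3 * M) * (CT * (L ^ (-(1 / 4 : ℝ)) + ρ ^ 2 * εε)) := by
      push_cast
      exact mul_le_mul_of_nonneg_left hfar' (by positivity)
    have hρ2 : 1 ≤ ρ ^ 2 := one_le_pow₀ hρ1
    have hεε0 : 0 ≤ εε := hEQ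
    have hsmall : C' * (L ^ (3 / 8 : ℝ)) ^ 2 * (CT * L ^ (-(9 / 4 : ℝ)))
        + 2 * (KK * L) ^ 2 * (CT * L ^ (-(9 / 4 : ℝ)))
        + 2 * (3 * M) * (CT * L ^ (-(1 / 4 : ℝ))) ≤ δ := by
      refine le_trans ?_ hLδ
      have h1 : C' * (L ^ (3 / 8 : ℝ)) ^ 2 * (CT * L ^ (-(9 / 4 : ℝ)))
          ≤ C' * CT * L ^ (-(1 / 4 : ℝ)) := by
        calc C' * (L ^ (3 / 8 : ℝ)) ^ 2 * (CT * L ^ (-(9 / 4 : ℝ)))
            = C' * CT * ((L ^ (3 / 8 : ℝ)) ^ 2 * L ^ (-(9 / 4 : ℝ))) := by ring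
          _ ≤ _ := mul_le_mul_of_nonneg_left hw1 (by positivity)
      have h2 : 2 * (KK * L) ^ 2 * (CT * L ^ (-(9 / 4 : ℝ)))
          = 2 * KK ^ 2 * CT * L ^ (-(1 / 4 : ℝ)) := by
        rw [← hw2]
        ring
      rw [h2]
      calc _ ≤ C' * CT * L ^ (-(1 / 4 : ℝ)) + 2 * KK ^ 2 * CT * L ^ (-(1 / 4 : ℝ))
            + 2 * (3 * M) * (CT * L ^ (-(1 / 4 : ℝ))) := by
              exact add_le_add (add_le_add h1 le_rfl) le_rfl
        _ = _ := by ring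
    have hbig : εε * (C' * (L ^ (3 / 8 : ℝ)) ^ 2 * CT + 2 * (KK * L) ^ 2 * CT
        + 2 * (3 * M) * CT * ρ ^ 2) ≤ (Cm + CBr) * ρ ^ 2 * εε := by
      rw [mul_comm εε]
      refine mul_le_mul_of_nonneg_right ?_ hεε0
      have h1 : 0 ≤ C' * (L ^ (3 / 8 : ℝ)) ^ 2 * CT := by positivity
      have h2 : 0 ≤ 2 * (KK * L) ^ 2 * CT := by positivity
      have h3 := big_aux _ _ (2 * (3 * M) * CT) Cm (ρ ^ 2) h1 h2 (by linarith) hρ2
      rw [hCBr]
      calc _ ≤ _ := h3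
        _ = _ := by ring
    rw [hnP]
    rw [hδ] at hsmall
    linarith
  · -- fourth moment
    refine hm4.trans ?_
    have h1 : 0 ≤ 1 + ρ ^ 4 * (Qf (fun k => Y (e k)) φ - En (3 * M) (fun k => Y (e k))) := by
      have : 0 ≤ ρ ^ 4 * (Qf (fun k => Y (e k)) φ - En (3 * M) (fun k => Y (e k))) :=
        mul_nonneg (by positivity) hEQ
      linarith
    exact add_aux hCBr0 h1
  · refine hmo.trans ?_
    have h1 : 0 ≤ (Qf (fun k => Y (e k)) φ - En (3 * M) (fun k => Y (e k))) + 1 / ρ ^ 6 := by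
      have : 0 ≤ 1 / ρ ^ 6 := by positivity
      linarith
    exact add_aux hCBr0 h1

end MolDis
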