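import Pool.Agent.Lib.MP_59f35a_mp.Stmts1

/-!
# MP_59f35a_mp : piece A5, the master sector inequality
-/

set_option autoImplicit false

noncomputable section

open MeasureTheory

namespace MolDis.Master

theorem cou_nonneg (x y : E3) : 0 ≤ cou x y := inv_nonneg.mpr (norm_nonneg _)

theorem sum_sub_le {ι : Type} [Fintype ι] (p : ι → Prop) [DecidablePred p] (f : ι → ℝ)
    (hf : ∀ j, 0 ≤ f j) : ∑ j : {j // p j}, f j.1 ≤ ∑ j, f j := by
  rw [← Fintype.sum_subtype_add_sum_subtype p f]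
  have : 0 ≤ ∑ i : {x // ¬ p x}, f i := Finset.sum_nonneg fun i _ => hf i
  linarith

theorem adm_restrict {ι : Type} [Fintype ι] (p : ι → Prop) [DecidablePred p]
    (W : ({j // p j} → Om) → ℝ) (h : AdmW W) :
    AdmW (fun X : ι → Om => W (fun j => X j.1)) := by
  refine ⟨h.1.comp (measurable_pi_lambda _ fun j => measurable_pi_apply _), fun R => ?_⟩
  obtain ⟨C, S, hC⟩ := h.2 R
  refine ⟨max C 0, S, fun X hX => ?_⟩
  have h1 := hC (fun j => X j.1) (fun j => hX j.1)
  have h2 : ∑ j : {j // p j}, ∑ a ∈ S, cou (X j.1).1 a ≤ ∑ j, ∑ a ∈ S, cou (X j).1 a :=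
    sum_sub_le p (fun j => ∑ a ∈ S, cou (X j).1 a)
      fun j => Finset.sum_nonneg fun a _ => cou_nonneg _ _
  have h3 : ∑ j : {j // p j}, ∑ k : {j // p j}, cou (X j.1).1 (X k.1).1 ≤
      ∑ j, ∑ k, cou (X j).1 (X k).1 := by
    refine le_trans ?_ (sum_sub_le p (fun j => ∑ k, cou (X j).1 (X k).1)
      fun j => Finset.sum_nonneg fun a _ => cou_nonneg _ _)
    exact Finset.sum_le_sum fun j _ => sum_sub_le p (fun k => cou (X j.1).1 (X k).1)
      fun k => cou_nonneg _ _
  have h0 : 0 ≤ ∑ j : {j // p j}, ∑ a ∈ S, cou (X j.1).1 a :=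
    Finset.sum_nonneg fun j _ => Finset.sum_nonneg fun a _ => cou_nonneg _ _
  have h0' : 0 ≤ ∑ j : {j // p j}, ∑ k : {j // p j}, cou (X j.1).1 (X k.1).1 :=
    Finset.sum_nonneg fun j _ => Finset.sum_nonneg fun a _ => cou_nonneg _ _
  refine h1.trans ?_
  refine le_trans (mul_le_mul_of_nonneg_right (le_max_left C 0) (by linarith)) ?_
  exact mul_le_mul_of_nonneg_left (by linarith) (le_max_right C 0)

section
variable {ι : Type} [Fintype ι] [DecidableEq ι] {ψ : (ι → Om) → ℝ}

theorem int_adm (hlc : S_lc) (hψ : LC ψ) {W : (ι → Om) → ℝ} (hW : AdmW W) :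
    Integrable (fun X => W X * ψ X ^ 2) (mu ι) := (hlc ι ψ hψ).2.2.2.2.2.1 W hW

theorem int_sq (hlc : S_lc) (hψ : LC ψ) : Integrable (fun X => ψ X ^ 2) (mu ι) :=
  (hlc ι ψ hψ).2.2.2.2.2.2

end

/-- a permutation fixing everything outside a fibre preserves the fibres -/
theorem perm_fibre {ι K : Type} (α : ι → K) (k : K) (σ : Equiv.Perm ι)
    (h : ∀ j, ¬ α j = k → σ j = j) (j : ι) : α (σ j) = α j := by
  by_cases h1 : α j = k
  · by_contra h2
    have h3 : ¬ α (σ j) = k := fun h4 => h2 (h4.trans h1.symm)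
    have h4 := σ.injective (h (σ j) h3)
    rw [h4] at h3
    exact h3 h1
  · rw [h j h1]

theorem sector_anti {ι K : Type} [Fintype ι] [DecidableEq ι] (θ : K → E3 → ℝ) (α : ι → K)
    (k : K) (ψ : (ι → Om) → ℝ) (hψ : Anti ψ) (σ : Equiv.Perm ι)
    (h : ∀ j, ¬ α j = k → σ j = j) (X : ι → Om) :
    sector θ α ψ (X ∘ σ) = ((Equiv.Perm.sign σ : ℤ) : ℝ) * sector θ α ψ X := by
  unfold sector
  rw [hψ σ X]
  have h1 : ∏ j, θ (α j) ((X ∘ σ) j).1 = ∏ j, θ (α j) (X j).1 := by
    rw [← Equiv.prod_comp σ (fun j => θ (α j) (X j).1)]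
    refine Finset.prod_congr rfl fun j _ => ?_
    rw [perm_fibre α k σ h j]
    rfl
  rw [h1]
  ring

end MolDis.Master

namespace MolDis

open Master

theorem p_master (hims : S_ims) (hslice : S_slice) (hlc : S_lc) (hadm : S_adm) : S_master := by
  intro ι K _ _ _ _ θ ψ T F W e w hθ hψ hW hw hT hpt hbd
  obtain ⟨i1, i2, i3, i4, ⟨Cg, hCg⟩, i6⟩ := hims ι K θ ψ hθ hψ.toLC
  obtain ⟨a1, a2, a3, a4, a5, a6, a7, a8⟩ := hadm ι
  -- the localisation error is admissible
  have hG : ∀ j : ι, AdmW (fun X : ι → Om => puG θ (X j).1) := by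
    intro j
    apply a1
    exact ⟨i6.comp (measurable_fst.comp (measurable_pi_apply j)),
      fun R => ⟨Cg, fun X _ => hCg _⟩⟩
  -- the right side as a sum over the sectors
  have hsum : kin ψ + expv W ψ = ∑ α : ι → K, (kin (sector θ α ψ) + expv W (sector θ α ψ) -
      ∑ j, expv (fun X => puG θ (X j).1) (sector θ α ψ)) := by
    rw [i4, i3 W hW, Finset.sum_sub_distrib, Finset.sum_add_distrib]
    have h1 : ∑ j, expv (fun X => puG θ (X j).1) ψ =
        ∑ α : ι → K, ∑ j, expv (fun X => puG θ (X j).1) (sector θ α ψ) := by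
      rw [Finset.sum_comm]
      exact Finset.sum_congr rfl fun j _ => i3 _ (hG j)
    rw [h1]
    ring
  rw [hsum]
  refine Finset.sum_le_sum fun α _ => ?_
  set φ := sector θ α ψ with hφ
  have hLC : LC φ := i1 α
  have hne : ∀ X, φ X ≠ 0 → (∀ j, (X j).1 ∈ T ∧ θ (α j) (X j).1 ≠ 0) := by
    intro X hX j
    have h1 : (∏ j, θ (α j) (X j).1) ≠ 0 ∧ ψ X ≠ 0 := mul_ne_zero_iff.mp hX
    exact ⟨hT X h1.2 j, (Finset.prod_ne_zero_iff.mp h1.1) j (Finset.mem_univ j)⟩
  -- the restricted potentials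
  have hwr : ∀ k, AdmW (fun X : ι → Om => w α k (fun j => X j.1)) := fun k =>
    adm_restrict (fun j => α j = k) (w α k) (hw α k)
  -- the one-sector inequality from the slices
  have hk : ∀ k, 0 ≤ (∑ j ∈ Finset.univ.filter (fun j => α j = k), kin1 j φ) +
      expv (fun X : ι → Om => w α k (fun j => X j.1)) φ := by
    intro k
    refine hslice ι (fun j => α j = k) φ {X | ∀ j, (X j).1 ∈ T ∧ θ (α j) (X j).1 ≠ 0}
      (fun X : ι → Om => w α k (fun j => X j.1)) hLC (hwr k)
      (fun σ hσ X => sector_anti θ α k ψ hψ.anti σ hσ X) hne ?_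
    intro X0 _ χ hχ hsupp
    have hres : ∀ Z : {j // α j = k} → Om,
        (fun j : {j // α j = k} => glue (fun j => α j = k) Z X0 j.1) = Z := by
      intro Z
      funext j
      unfold glue
      rw [dif_pos j.2]
    have h1 := hbd α k χ hχ (fun Z hZ j => by
      have h2 := hsupp Z hZ j.1
      have h3 : glue (fun j => α j = k) Z X0 j.1 = Z j := congrFun (hres Z) j
      rw [h3, j.2] at h2
      exact h2)
    have h4 : (fun Z : {j // α j = k} → Om =>
        w α k (fun j => glue (fun j => α j = k) Z X0 j.1)) = w α k := by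
      funext Z
      rw [hres Z]
    show 0 ≤ kin χ + expv (fun Z : {j // α j = k} → Om =>
        w α k (fun j => glue (fun j => α j = k) Z X0 j.1)) χ
    rw [h4]
    exact h1
  -- sum over `k`
  have hksum : 0 ≤ kin φ + ∑ k, expv (fun X : ι → Om => w α k (fun j => X j.1)) φ := by
    have h1 : kin φ = ∑ k, ∑ j ∈ Finset.univ.filter (fun j => α j = k), kin1 j φ :=
      (Finset.sum_fiberwise Finset.univ α fun j => kin1 j φ).symm
    rw [h1, ← Finset.sum_add_distrib]
    exact Finset.sum_nonneg fun k _ => hk k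
  -- the potential inequality
  have hpot : e α * nsq φ + ∑ k, expv (fun X : ι → Om => w α k (fun j => X j.1)) φ ≤
      expv W φ - ∑ j, expv (fun X => puG θ (X j).1) φ := by
    have hi1 : Integrable (fun X => e α * φ X ^ 2) (mu ι) := (int_sq hlc hLC).const_mul _
    have hi2 : ∀ k, Integrable (fun X => w α k (fun j => X j.1) * φ X ^ 2) (mu ι) :=
      fun k => int_adm hlc hLC (hwr k)
    have hi3 : Integrable (fun X => W X * φ X ^ 2) (mu ι) := int_adm hlc hLC hW
    have hi4 : ∀ j, Integrable (fun X => puG θ (X j).1 * φ X ^ 2) (mu ι) :=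
      fun j => int_adm hlc hLC (hG j)
    have hL : e α * nsq φ + ∑ k, expv (fun X : ι → Om => w α k (fun j => X j.1)) φ =
        ∫ X, (e α * φ X ^ 2 + ∑ k, w α k (fun j => X j.1) * φ X ^ 2) ∂(mu ι) := by
      rw [integral_add hi1 (integrable_finsetSum _ fun k _ => hi2 k), integral_const_mul,
        integral_finsetSum _ fun k _ => hi2 k]
      rfl
    have hR : expv W φ - ∑ j, expv (fun X => puG θ (X j).1) φ =
        ∫ X, (W X * φ X ^ 2 - ∑ j, puG θ (X j).1 * φ X ^ 2) ∂(mu ι) := by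
      rw [integral_sub hi3 (integrable_finsetSum _ fun j _ => hi4 j),
        integral_finsetSum _ fun j _ => hi4 j]
      rfl
    rw [hL, hR]
    refine integral_mono_ae (hi1.add (integrable_finsetSum _ fun k _ => hi2 k))
      (hi3.sub (integrable_finsetSum _ fun j _ => hi4 j)) ?_
    filter_upwards [a8 F] with X hX
    show e α * φ X ^ 2 + ∑ k, w α k (fun j => X j.1) * φ X ^ 2 ≤
      W X * φ X ^ 2 - ∑ j, puG θ (X j).1 * φ X ^ 2
    by_cases h0 : φ X = 0
    · simp [h0]
    · have h1 := hne X h0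
      have h2 := hpt α X hX (fun j => (h1 j).1) (fun j => (h1 j).2)
      rw [← Finset.sum_mul, ← Finset.sum_mul, ← add_mul, ← sub_mul]
      exact mul_le_mul_of_nonneg_right h2 (sq_nonneg _)
  linarith

end MolDis
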