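import Pool.Agent.Lib.MP_59f35a_mp.Stmts2

/-!
# MP_59f35a_mp : tail recursion (C1)
-/

set_option autoImplicit false

noncomputable section

open MeasureTheory

namespace MolDis

namespace TailF

/-- the potentials of the two groups -/
def wT {Z : ℕ} (Y : Fin Z → E3) (α : Fin Z → Option Unit) :
    (k : Option Unit) → ({j // α j = k} → Om) → ℝ
  | none => fun _ => 0
  | some u => fun X => pot Y X - En (Fintype.card {j // α j = some u}) Y

lemma cou_nonneg (x y : E3) : 0 ≤ cou x y := inv_nonneg.2 (norm_nonneg _)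

lemma cou_le {x y : E3} {t : ℝ} (ht : 0 < t) (h : t ≤ ‖x - y‖) : cou x y ≤ t⁻¹ :=
  inv_anti₀ ht h

/-- the potential is at least the potential of the inner electrons minus the attraction of the
outer ones -/
lemma pot_ge {Z : ℕ} (Y : Fin Z → E3) {R t : ℝ} (hY : ∀ m, ‖Y m‖ ≤ R) (ht : 0 < t)
    (hRt : 2 * R ≤ t) (p : Fin Z → Prop) [DecidablePred p] (X : Fin Z → Om)
    (hX : ∀ j, ¬ p j → t < ‖(X j).1‖) :
    pot Y (fun j : {j // p j} => X j.1) -
      2 / t * Z * (Fintype.card {j // ¬ p j} : ℝ) ≤ pot Y X := by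
  have h1 : attr Y X = attr Y (fun j : {j // p j} => X j.1) +
      attr Y (fun j : {j // ¬ p j} => X j.1) := by
    unfold attr
    rw [← Fintype.sum_subtype_add_sum_subtype p]
  have h2 : repEE (fun j : {j // p j} => X j.1) ≤ repEE X := by
    unfold repEE
    have e1 : ∑ j, ∑ k, cou (X j).1 (X k).1 =
        (∑ j : {j // p j}, ∑ k : {j // p j}, cou (X j.1).1 (X k.1).1 +
          ∑ j : {j // p j}, ∑ k : {j // ¬ p j}, cou (X j.1).1 (X k.1).1) +
          ∑ j : {j // ¬ p j}, ∑ k, cou (X j.1).1 (X k).1 := by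
      rw [← Fintype.sum_subtype_add_sum_subtype p, ← Finset.sum_add_distrib]
      congr 1
      refine Finset.sum_congr rfl fun j _ => ?_
      rw [← Fintype.sum_subtype_add_sum_subtype p]
    rw [e1]
    have e2 : 0 ≤ ∑ j : {j // p j}, ∑ k : {j // ¬ p j}, cou (X j.1).1 (X k.1).1 :=
      Finset.sum_nonneg fun j _ => Finset.sum_nonneg fun k _ => cou_nonneg _ _
    have e3 : 0 ≤ ∑ j : {j // ¬ p j}, ∑ k, cou (X j.1).1 (X k).1 :=
      Finset.sum_nonneg fun j _ => Finset.sum_nonneg fun k _ => cou_nonneg _ _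
    linarith
  have h3 : attr Y (fun j : {j // ¬ p j} => X j.1) ≤
      2 / t * Z * (Fintype.card {j // ¬ p j} : ℝ) := by
    unfold attr
    have e1 : ∀ j : {j // ¬ p j}, ∀ m, cou (X j.1).1 (Y m) ≤ 2 / t := by
      intro j m
      have k1 : t / 2 ≤ ‖(X j.1).1 - Y m‖ := by
        have := norm_sub_norm_le (X j.1).1 (Y m)
        have k2 := hX j.1 j.2
        have k3 := hY m
        linarith
      refine (cou_le (by positivity) k1).trans_eq ?_
      rw [inv_div]
    calc ∑ j : {j // ¬ p j}, ∑ m, cou (X j.1).1 (Y m)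
        ≤ ∑ _j : {j // ¬ p j}, ∑ _m : Fin Z, 2 / t :=
          Finset.sum_le_sum fun j _ => Finset.sum_le_sum fun m _ => e1 j m
      _ = _ := by
          simp only [Finset.sum_const, Finset.card_univ, Fintype.card_fin, nsmul_eq_mul]
          ring
  unfold pot
  linarith

lemma expv_sub_const {ι : Type} [Fintype ι] [DecidableEq ι] (hlc : S_lc) {W : (ι → Om) → ℝ}
    (hW : AdmW W) (c : ℝ) {ψ : (ι → Om) → ℝ} (hψ : LC ψ) :
    expv (fun X => W X - c) ψ = expv W ψ - c * nsq ψ := by
  obtain ⟨-, -, -, -, -, h1, h2⟩ := hlc ι ψ hψ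
  unfold expv nsq
  rw [← integral_const_mul, ← integral_sub (h1 W hW) (h2.const_mul c)]
  refine integral_congr_ae (Filter.Eventually.of_forall fun X => ?_)
  show (W X - c) * ψ X ^ 2 = W X * ψ X ^ 2 - c * ψ X ^ 2
  ring

lemma expv_add {ι : Type} [Fintype ι] [DecidableEq ι] (hlc : S_lc) {W W' : (ι → Om) → ℝ}
    (hW : AdmW W) (hW' : AdmW W') {ψ : (ι → Om) → ℝ} (hψ : LC ψ) :
    expv (fun X => W X + W' X) ψ = expv W ψ + expv W' ψ := by
  obtain ⟨-, -, -, -, -, h1, h2⟩ := hlc ι ψ hψ
  unfold expv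
  rw [← integral_add (h1 W hW) (h1 W' hW')]
  refine integral_congr_ae (Filter.Eventually.of_forall fun X => ?_)
  show (W X + W' X) * ψ X ^ 2 = W X * ψ X ^ 2 + W' X * ψ X ^ 2
  ring

lemma expv_mono {ι : Type} [Fintype ι] [DecidableEq ι] (hlc : S_lc) {W W' : (ι → Om) → ℝ}
    (hW : AdmW W) (hW' : AdmW W') {ψ : (ι → Om) → ℝ} (hψ : LC ψ) (h : ∀ X, W X ≤ W' X) :
    expv W ψ ≤ expv W' ψ := by
  obtain ⟨-, -, -, -, -, h1, h2⟩ := hlc ι ψ hψ
  unfold expv
  exact integral_mono (h1 W hW) (h1 W' hW') fun X => mul_le_mul_of_nonneg_right (h X) (sq_nonneg _)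

lemma expv_cmul {ι : Type} [Fintype ι] (c : ℝ) (W : (ι → Om) → ℝ) (ψ : (ι → Om) → ℝ) :
    expv (fun X => c * W X) ψ = c * expv W ψ := by
  unfold expv
  rw [← integral_const_mul]
  refine integral_congr_ae (Filter.Eventually.of_forall fun X => ?_)
  show c * W X * ψ X ^ 2 = c * (W X * ψ X ^ 2)
  ring

lemma kin_nonneg {ι : Type} [Fintype ι] [DecidableEq ι] (ψ : (ι → Om) → ℝ) : 0 ≤ kin ψ := by
  unfold kin kin1 gradSq
  exact Finset.sum_nonneg fun j _ => integral_nonneg fun X => sq_nonneg _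

/-- measurability and boundedness of counting functions -/
lemma cnt_bdd {ι : Type} [Fintype ι] (t : ℝ) :
    BddW (fun X : ι → Om => ∑ j, if t ≤ ‖(X j).1‖ then (1 : ℝ) else 0) := by
  refine ⟨?_, fun R => ⟨Fintype.card ι, fun X _ => ?_⟩⟩
  · refine Finset.measurable_fun_sum _ fun j _ => ?_
    refine Measurable.ite ?_ measurable_const measurable_const
    have h1 : Measurable fun X : ι → Om => ‖(X j).1‖ :=
      (measurable_fst.comp (measurable_pi_apply j)).norm
    exact measurableSet_le measurable_const h1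
  · rw [abs_of_nonneg (Finset.sum_nonneg fun j _ => by split_ifs <;> norm_num)]
    calc ∑ j, (if t ≤ ‖(X j).1‖ then (1 : ℝ) else 0) ≤ ∑ _j : ι, (1 : ℝ) :=
          Finset.sum_le_sum fun j _ => by split_ifs <;> norm_num
      _ = _ := by simp

lemma En_anti {κ : Type} [Fintype κ] (hen2 : S_en2) (Y : κ → E3) : Antitone fun n => En n Y :=
  antitone_nat_of_succ_le fun n => hen2.1 κ Y n

/-- the sectors with an outside electron see the far electrons -/
lemma sector_out (hlc : S_lc) (hadm : S_adm) (hims : S_ims) {Z : ℕ} (hZ : 1 ≤ Z) {t : ℝ}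
    {θ : Option Unit → E3 → ℝ} (hθ : PU θ) (h0 : ∀ x, θ (some ()) x ≠ 0 → ‖x‖ < 2 * t)
    {φ : (Fin Z → Om) → ℝ} (hφ : LC φ) :
    nout (2 * t) φ / Z ≤
      nsq φ - nsq (sector θ (fun _ : Fin Z => some ()) φ) := by
  obtain ⟨i1, -, -, -, -, -⟩ := hims (Fin Z) (Option Unit) θ φ hθ hφ
  have hs := i1 (fun _ => some ())
  obtain ⟨-, -, -, -, -, a1, a2⟩ := hlc (Fin Z) φ hφ
  obtain ⟨-, -, -, -, -, -, b2⟩ := hlc (Fin Z) _ hs
  have hcnt : AdmW (fun X : Fin Z → Om => ∑ j, if 2 * t ≤ ‖(X j).1‖ then (1 : ℝ) else 0) :=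
    (hadm (Fin Z)).1 _ (cnt_bdd _)
  have hZ0 : (0 : ℝ) < Z := by exact_mod_cast hZ
  unfold nout expv nsq
  rw [← integral_sub a2 b2, div_eq_inv_mul, ← integral_const_mul]
  refine integral_mono ((a1 _ hcnt).const_mul _) (a2.sub b2) fun X => ?_
  show (Z : ℝ)⁻¹ * ((∑ j, if 2 * t ≤ ‖(X j).1‖ then (1 : ℝ) else 0) * φ X ^ 2) ≤
    φ X ^ 2 - (sector θ (fun _ : Fin Z => some ()) φ X) ^ 2
  have e1 : (sector θ (fun _ : Fin Z => some ()) φ X) ^ 2 =
      (∏ j, θ (some ()) (X j).1) ^ 2 * φ X ^ 2 := by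
    unfold sector
    rw [mul_pow]
  rw [e1]
  have hle1 : ∀ x, θ (some ()) x ^ 2 ≤ 1 := by
    intro x
    have h1 := hθ.sq x
    rw [Fintype.sum_option] at h1
    simp at h1
    nlinarith [sq_nonneg (θ none x)]
  have e2 : (Z : ℝ)⁻¹ * (∑ j, if 2 * t ≤ ‖(X j).1‖ then (1 : ℝ) else 0) ≤
      1 - (∏ j, θ (some ()) (X j).1) ^ 2 := by
    by_cases hj : ∃ j, 2 * t ≤ ‖(X j).1‖
    · obtain ⟨j0, hj0⟩ := hj
      have hz : θ (some ()) (X j0).1 = 0 := by
        by_contra hne
        exact absurd (h0 _ hne) (not_lt.2 hj0)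
      rw [Finset.prod_eq_zero (Finset.mem_univ j0) hz]
      have h2 : (∑ j, if 2 * t ≤ ‖(X j).1‖ then (1 : ℝ) else 0) ≤ Z := by
        calc ∑ j, (if 2 * t ≤ ‖(X j).1‖ then (1 : ℝ) else 0) ≤ ∑ _j : Fin Z, (1 : ℝ) :=
              Finset.sum_le_sum fun j _ => by split_ifs <;> norm_num
          _ = _ := by simp
      rw [inv_mul_le_iff₀ hZ0]
      linarith
    · push Not at hj
      have h2 : (∑ j, if 2 * t ≤ ‖(X j).1‖ then (1 : ℝ) else 0) = 0 :=
        Finset.sum_eq_zero fun j _ => if_neg (not_le.2 (hj j))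
      rw [h2, mul_zero, ← Finset.prod_pow]
      have h3 : ∏ j, θ (some ()) (X j).1 ^ 2 ≤ 1 :=
        Finset.prod_le_one (fun j _ => sq_nonneg _) fun j _ => hle1 _
      linarith
  nlinarith [sq_nonneg (φ X), mul_le_mul_of_nonneg_right e2 (sq_nonneg (φ X))]

end TailF

open TailF in
theorem p_tail (hlc : S_lc) (hadm : S_adm) (hims : S_ims) (hmaster : S_master) (hcut : S_cut)
    (hen : S_en) (hen2 : S_en2) : S_tail := by
  intro Z Y R g t φ hZ hY hg hgap ht hRt hZt hφ hnsq
  have hlcφ : LC φ := hφ.toLC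
  set θ : Option Unit → E3 → ℝ := cellPU (2 * t) (fun _ : Unit => (0 : E3)) with hθdef
  obtain ⟨c1, c2, c3, -, c5, c6, c7⟩ := hcut Unit (2 * t) (fun _ => 0) (by positivity)
    (fun k k' h => absurd (Subsingleton.elim k k') h)
  rw [← hθdef] at c1 c2 c3 c5 c6 c7
  obtain ⟨i1, i2, -, -, ⟨Cp, hCp⟩, i6⟩ := hims (Fin Z) (Option Unit) θ φ c1 hlcφ
  obtain ⟨ad1, ad2, ad3, ad4, ad5, ad6, ad7, ad8⟩ := hadm (Fin Z)
  have hpotA : AdmW (pot (ι := Fin Z) Y) := (ad7 (Fin Z) Y).2.2
  have hpuB : BddW (fun X : Fin Z → Om => ∑ j, puG θ (X j).1) := by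
    refine ⟨Finset.measurable_fun_sum _ fun j _ =>
      i6.comp (measurable_fst.comp (measurable_pi_apply j)), fun R => ⟨∑ _j : Fin Z, Cp,
      fun X _ => ?_⟩⟩
    exact (Finset.abs_sum_le_sum_abs _ _).trans (Finset.sum_le_sum fun j _ => hCp _)
  have hpuA : AdmW (fun X : Fin Z → Om => ∑ j, puG θ (X j).1) := ad1 _ hpuB
  have hanti := En_anti hen2 Y
  have hcardI : ∀ α : Fin Z → Option Unit,
      Fintype.card {j // α j = some ()} + Fintype.card {j // ¬ α j = some ()} = Z := by
    intro α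
    have h1 := Fintype.card_subtype_compl (fun j => α j = some ())
    have h2 := Fintype.card_subtype_le (fun j => α j = some ())
    rw [Fintype.card_fin] at h1 h2
    omega
  -- the master inequality
  have key := hmaster (Fin Z) (Option Unit) θ φ Set.univ ∅
    (fun X => pot Y X + ∑ j, puG θ (X j).1)
    (fun α => if α = (fun _ => some ()) then En Z Y else En Z Y + g / 2)
    (fun α k => wT Y α k) c1 hφ (ad2 _ _ hpotA hpuA) ?_ (fun X _ j => Set.mem_univ _) ?_ ?_
  rotate_left
  · -- admissibility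
    intro α k
    match k with
    | none =>
      refine (hadm _).1 _ ⟨measurable_const, fun R => ⟨0, fun X _ => ?_⟩⟩
      simp [wT]
    | some u =>
      have h1 : AdmW (fun X : {j // α j = some u} → Om =>
          pot Y X + (- En (Fintype.card {j // α j = some u}) Y)) := by
        refine (hadm _).2.1 _ _ ((hadm _).2.2.2.2.2.2.1 (Fin Z) Y).2.2 ((hadm _).1 _ ?_)
        exact ⟨measurable_const, fun R => ⟨_, fun X _ => le_rfl⟩⟩
      have h2 : wT Y α (some u) = fun X : {j // α j = some u} → Om =>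
          pot Y X + (- En (Fintype.card {j // α j = some u}) Y) := by
        funext X
        simp [wT, sub_eq_add_neg]
      rw [h2]
      exact h1
  · -- the pointwise inequality
    intro α X _ _ hX
    rw [add_sub_cancel_right, Fintype.sum_option, Fintype.sum_unique]
    have hX' : ∀ j, ¬ α j = some () → t < ‖(X j).1‖ := by
      intro j hj
      have h1 : α j = none := by
        match h : α j with
        | none => rfl
        | some u => exact absurd h hj
      have h2 := hX j
      rw [h1] at h2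
      have := c3 _ h2 ()
      simp only [sub_zero] at this
      linarith
    have h1 := pot_ge Y hY ht hRt (fun j => α j = some ()) X hX'
    have h2 : wT Y α none (fun j : {j // α j = none} => X j.1) = 0 := rfl
    have h3 : wT Y α (some default) (fun j : {j // α j = some default} => X j.1) =
        pot Y (fun j : {j // α j = some ()} => X j.1) -
          En (Fintype.card {j // α j = some ()}) Y := rfl
    rw [h2, h3]
    have hc := hcardI α
    by_cases hα : α = fun _ => some ()
    · rw [if_pos hα]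
      have h4 : Fintype.card {j // ¬ α j = some ()} = 0 := by
        rw [Fintype.card_eq_zero_iff]
        exact ⟨fun j => j.2 (congrFun hα j.1)⟩
      rw [h4] at hc h1
      rw [add_zero] at hc
      rw [hc]
      simp only [Nat.cast_zero, mul_zero, sub_zero] at h1
      linarith
    · rw [if_neg hα]
      have h4 : 1 ≤ Fintype.card {j // ¬ α j = some ()} := by
        rw [Nat.one_le_iff_ne_zero, Ne, Fintype.card_eq_zero_iff]
        intro hE
        apply hα
        funext j
        by_contra hj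
        exact hE.false ⟨j, hj⟩
      have h5 : En (Z - 1) Y ≤ En (Fintype.card {j // α j = some ()}) Y := hanti (by omega)
      have h6 : (Fintype.card {j // ¬ α j = some ()} : ℝ) ≤ Z := by
        exact_mod_cast (by omega : Fintype.card {j // ¬ α j = some ()} ≤ Z)
      have h7 : 2 / t * Z * (Fintype.card {j // ¬ α j = some ()} : ℝ) ≤ g / 2 := by
        calc 2 / t * Z * (Fintype.card {j // ¬ α j = some ()} : ℝ) ≤ 2 / t * Z * Z := by gcongr
          _ ≤ g / 2 := by
            rw [div_le_iff₀ hg] at hZt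
            rw [div_mul_eq_mul_div, div_mul_eq_mul_div, div_le_div_iff₀ ht (by norm_num)]
            nlinarith
      linarith
  · -- the groups
    intro α k φ' hφ' _
    match k with
    | none =>
      have h1 : expv (wT Y α none) φ' = 0 := by
        unfold expv wT
        simp
      rw [h1, add_zero]
      exact kin_nonneg _
    | some u =>
      have h1 : expv (wT Y α (some u)) φ' = expv (pot Y) φ' -
          En (Fintype.card {j // α j = some u}) Y * nsq φ' := by
        have : wT Y α (some u) = fun X => pot Y X - En (Fintype.card {j // α j = some u}) Y := rfl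
        rw [this]
        exact expv_sub_const hlc ((hadm _).2.2.2.2.2.2.1 (Fin Z) Y).2.2 _ hφ'.toLC
      rw [h1]
      have h2 := hen.2.1 {j // α j = some u} (Fin Z) Y φ' hφ'
      unfold Qf at h2
      linarith
  -- the right-hand side
  have hR : kin φ + expv (fun X => pot Y X + ∑ j, puG θ (X j).1) φ ≤
      Qf Y φ + 3 / t ^ 2 * nout t φ := by
    rw [expv_add hlc hpotA hpuA hlcφ]
    have h1 : expv (fun X => ∑ j, puG θ (X j).1) φ ≤
        expv (fun X => 3 / t ^ 2 * ∑ j, if t ≤ ‖(X j).1‖ then (1 : ℝ) else 0) φ := by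
      refine expv_mono hlc hpuA (ad3 _ _ (ad1 _ (cnt_bdd t))) hlcφ fun X => ?_
      rw [Finset.mul_sum]
      refine Finset.sum_le_sum fun j _ => ?_
      split_ifs with h2
      · refine (c5 _).trans ?_
        rw [mul_one, mul_pow, div_le_div_iff₀ (by positivity) (by positivity)]
        nlinarith [sq_nonneg t]
      · have := c7 (X j).1 (fun _ => Or.inl (by rw [sub_zero]; push Not at h2; linarith))
        rw [this, mul_zero]
    rw [expv_cmul] at h1
    unfold Qf nout
    linarith
  -- the left-hand side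
  have hL : En Z Y + g / 2 * (nsq φ - nsq (sector θ (fun _ : Fin Z => some ()) φ)) =
      ∑ α : Fin Z → Option Unit, (if α = (fun _ => some ()) then En Z Y else En Z Y + g / 2) *
        nsq (sector θ α φ) := by
    have h1 : ∀ α : Fin Z → Option Unit,
        (if α = (fun _ => some ()) then En Z Y else En Z Y + g / 2) * nsq (sector θ α φ) =
        (En Z Y + g / 2) * nsq (sector θ α φ) -
          (if α = (fun _ => some ()) then g / 2 * nsq (sector θ α φ) else 0) := by
      intro α
      split_ifs <;> ring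
    simp only [h1]
    rw [Finset.sum_sub_distrib, ← Finset.mul_sum, ← i2, Finset.sum_ite_eq', hnsq]
    simp only [Finset.mem_univ, if_true]
    ring
  have hS := sector_out hlc hadm hims hZ c1 (fun x hx => by
    have := c2 () x hx
    rwa [sub_zero] at this) hlcφ
  rw [← hL] at key
  have h1 : En Z Y + g / 2 * (nout (2 * t) φ / Z) ≤ Qf Y φ + 3 / t ^ 2 * nout t φ := by
    have := mul_le_mul_of_nonneg_left hS (by positivity : 0 ≤ g / 2)
    linarith
  have hZ0 : (0 : ℝ) < Z := by exact_mod_cast hZ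
  have h2 : g / 2 * (nout (2 * t) φ / Z) ≤ Qf Y φ - En Z Y + 3 / t ^ 2 * nout t φ := by linarith
  calc nout (2 * t) φ = 2 * Z / g * (g / 2 * (nout (2 * t) φ / Z)) := by field_simp
    _ ≤ _ := by gcongr

end MolDis
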