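import Pool.Agent.Lib.MP_59f35a_mp.Stmts3
import Pool.Agent.Lib.MP_59f35a_mp.EnBasic
import Pool.Agent.Lib.MP_59f35a_mp.Tail
import Pool.Agent.Lib.MP_59f35a_mp.Master

/-!
# MP_59f35a_mp : H4 (dipole of a good sector)
-/

set_option autoImplicit false

noncomputable section

open MeasureTheory

namespace MolDis

namespace CompGood

/-! ### admissible functions -/

section adm
variable {ι : Type} [Fintype ι] [DecidableEq ι]

theorem bdd_cont {f : (ι → E3) → ℝ} (hf : Continuous f) :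
    BddW (fun X : ι → Om => f (fun j => (X j).1)) := by
  refine ⟨hf.measurable.comp (measurable_pi_lambda _ fun j =>
    measurable_fst.comp (measurable_pi_apply j)), fun R => ?_⟩
  obtain ⟨C, hC⟩ := (isCompact_univ_pi fun _ : ι =>
    isCompact_closedBall (0 : E3) R).exists_bound_of_continuousOn hf.continuousOn
  refine ⟨C, fun X hX => ?_⟩
  have := hC (fun j => (X j).1) (fun j _ => by simpa using hX j)
  simpa using this

theorem glue_in (p : ι → Prop) [DecidablePred p] (Z : {j // p j} → Om) (X : ι → Om) :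
    (fun j : {j // p j} => glue p Z X j.1) = Z := by
  funext j
  unfold glue
  rw [dif_pos j.2]

theorem glue_out (p q : ι → Prop) [DecidablePred p] (h : ∀ j, q j → ¬ p j)
    (Z : {j // p j} → Om) (X : ι → Om) :
    (fun j : {j // q j} => glue p Z X j.1) = fun j => X j.1 := by
  funext j
  unfold glue
  rw [dif_neg (h j.1 j.2)]

theorem glue_bdd (p : ι → Prop) [DecidablePred p] {G : (ι → Om) → ℝ} (hG : BddW G)
    (X0 : ι → Om) : BddW (fun Z : {j // p j} → Om => G (glue p Z X0)) := by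
  refine ⟨hG.1.comp (measurable_pi_lambda _ fun j => ?_), fun R => ?_⟩
  · by_cases h : p j
    · simp only [glue, dif_pos h]
      exact measurable_pi_apply _
    · simp only [glue, dif_neg h]
      exact measurable_const
  · obtain ⟨C, hC⟩ := hG.2 (max R (∑ j, ‖(X0 j).1‖))
    refine ⟨C, fun Z hZ => hC _ fun j => ?_⟩
    by_cases h : p j
    · simp only [glue, dif_pos h]
      exact (hZ _).trans (le_max_left _ _)
    · simp only [glue, dif_neg h]
      exact (Finset.single_le_sum (f := fun j => ‖(X0 j).1‖) (fun j _ => norm_nonneg _)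
        (Finset.mem_univ j)).trans (le_max_right _ _)

theorem adm_const (hadm : S_adm) (c : ℝ) : AdmW (fun _ : ι → Om => c) :=
  (hadm ι).1 _ ⟨measurable_const, fun R => ⟨|c|, fun X _ => le_rfl⟩⟩

theorem adm_sub (hadm : S_adm) {W W' : (ι → Om) → ℝ} (h : AdmW W) (h' : AdmW W') :
    AdmW (fun X => W X - W' X) := by
  have h1 := (hadm ι).2.1 _ _ h ((hadm ι).2.2.1 (-1) W' h')
  refine (congrArg AdmW ?_).mp h1
  funext X
  ring

theorem adm_bdd (hadm : S_adm) {G : (ι → Om) → ℝ} (hG : BddW G) : AdmW G := (hadm ι).1 G hG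

end adm

/-! ### slices -/

section slice
variable {ι : Type} [Fintype ι] [DecidableEq ι]

theorem slice_gen (hlc : S_lc) (hadm : S_adm) (hslice : S_slice) {K : Type} [DecidableEq K]
    (θ : K → E3 → ℝ) (α : ι → K) (k : K) (φ : (ι → Om) → ℝ) (hφ : WF φ)
    (hLC : LC (sector θ α φ)) (Y : Fin 3 → E3) (E : ℝ) {G : (ι → Om) → ℝ} (hG : BddW G)
    (h : ∀ (X0 : ι → Om) (χ : ({j // α j = k} → Om) → ℝ), WF χ →
      (∀ Z, χ Z ≠ 0 → ∀ j, θ k (Z j).1 ≠ 0) →
      0 ≤ Qf Y χ - E * nsq χ + expv (fun Z => G (glue (fun j => α j = k) Z X0)) χ) :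
    0 ≤ (∑ j ∈ Finset.univ.filter (fun j => α j = k), kin1 j (sector θ α φ)) +
      expv (fun X => pot Y (fun j : {j // α j = k} => X j.1)) (sector θ α φ) -
      E * nsq (sector θ α φ) + expv G (sector θ α φ) := by
  have hp1 : AdmW (fun X : ι → Om => pot Y (fun j : {j // α j = k} => X j.1)) :=
    Master.adm_restrict (fun j => α j = k) _ ((hadm _).2.2.2.2.2.2.1 _ Y).2.2
  have hc1 : AdmW (fun _ : ι → Om => E) := adm_const hadm E
  have hG1 : AdmW G := adm_bdd hadm hG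
  have hW1 : AdmW (fun X : ι → Om => pot Y (fun j : {j // α j = k} => X j.1) - E) :=
    adm_sub hadm hp1 hc1
  have hW : AdmW (fun X : ι → Om => (pot Y (fun j : {j // α j = k} => X j.1) - E) + G X) :=
    (hadm ι).2.1 _ _ hW1 hG1
  have hmain := hslice ι (fun j => α j = k) (sector θ α φ) {X | ∀ j, θ (α j) (X j).1 ≠ 0}
    (fun X : ι → Om => (pot Y (fun j : {j // α j = k} => X j.1) - E) + G X) hLC hW
    (fun σ hσ X => Master.sector_anti θ α k φ hφ.anti σ hσ X)
    (fun X hX j => (Finset.prod_ne_zero_iff.mp (mul_ne_zero_iff.mp hX).1) j (Finset.mem_univ j))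
    ?_
  · rw [TailF.expv_add hlc hW1 hG1 hLC, TailF.expv_sub_const hlc hp1 E hLC] at hmain
    linarith
  · intro X0 _ χ hχ hsupp
    have h1 := h X0 χ hχ (fun Z hZ j => by
      have h2 := hsupp Z hZ j.1
      have h3 : glue (fun j => α j = k) Z X0 j.1 = Z j :=
        congrFun (glue_in (fun j => α j = k) Z X0) j
      rw [h3, j.2] at h2
      exact h2)
    have hp2 : AdmW (pot (ι := {j // α j = k}) Y) := ((hadm _).2.2.2.2.2.2.1 _ Y).2.2
    have hG2 : AdmW (fun Z : {j // α j = k} → Om => G (glue (fun j => α j = k) Z X0)) :=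
      adm_bdd hadm (glue_bdd _ hG X0)
    have hW2 : AdmW (fun Z : {j // α j = k} → Om => pot Y Z - E) :=
      adm_sub hadm hp2 (adm_const hadm E)
    have e1 : (fun Z : {j // α j = k} → Om =>
        (pot Y (fun j : {j // α j = k} => glue (fun j => α j = k) Z X0 j.1) - E) +
          G (glue (fun j => α j = k) Z X0)) =
        fun Z => (pot Y Z - E) + G (glue (fun j => α j = k) Z X0) := by
      funext Z
      rw [glue_in]
    show 0 ≤ kin χ + expv (fun Z : {j // α j = k} → Om =>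
        (pot Y (fun j : {j // α j = k} => glue (fun j => α j = k) Z X0 j.1) - E) +
          G (glue (fun j => α j = k) Z X0)) χ
    rw [e1, TailF.expv_add hlc hW2 hG2 hχ.toLC, TailF.expv_sub_const hlc hp2 E hχ.toLC]
    unfold Qf at h1
    linarith

end slice

/-! ### one copy -/

section one
variable {ι : Type} [Fintype ι] [DecidableEq ι]

/-- the hypothesis on `b` -/
def Hyp (b : Fin 3 → E3) (p0 : E3) (δ0 C2 C : ℝ) : Prop :=
  ∀ r : ℝ, C ≤ r → ∀ ψ : (Fin 3 → Om) → ℝ, WF ψ → nsq ψ = 1 →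
      (∀ X, ψ X ≠ 0 → ∀ j, ‖(X j).1‖ ≤ r) →
      (∀ t : E3, |expv (fun X => inner ℝ t (vdip b X)) ψ - inner ℝ t p0|
        ≤ ‖t‖ * (δ0 + C * r * Real.sqrt (Qf b ψ - En 3 b))) ∧
      expv (fun X => ‖vdip b X‖ ^ 2) ψ ≤ C2 + C * r ^ 2 * (Qf b ψ - En 3 b)

theorem bdd_vdip {κ : Type} [Fintype κ] (B : κ → E3) {F : E3 → ℝ} (hF : Continuous F) :
    BddW (fun X : ι → Om => F (vdip B X)) := by
  have h := bdd_cont (ι := ι) (f := fun x : ι → E3 => F (∑ m, B m - ∑ j, x j))
    (hF.comp (continuous_const.sub (continuous_finsetSum _ fun j _ => continuous_apply j)))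
  exact h

theorem expv_zero (hlc : S_lc) {χ : (ι → Om) → ℝ} (hχ : LC χ) (h0 : nsq χ = 0)
    (W : (ι → Om) → ℝ) : expv W χ = 0 := by
  have h1 : (fun X => χ X ^ 2) =ᵐ[mu ι] 0 :=
    (integral_eq_zero_iff_of_nonneg (fun X => sq_nonneg (χ X))
      ((hlc ι χ hχ).2.2.2.2.2.2)).1 h0
  unfold expv
  rw [integral_eq_zero_of_ae]
  filter_upwards [h1] with X hX
  have hX' : χ X ^ 2 = 0 := hX
  show W X * χ X ^ 2 = 0
  rw [hX', mul_zero]

/-- centred, three electrons, not normalised -/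
theorem cell3c (hlc : S_lc) (hcl : S_lc_closure) (hadm : S_adm) (hen : S_en) {b : Fin 3 → E3}
    {p0 : E3} {δ0 C2 C : ℝ} (hC2 : 1 ≤ C2) (hC : 1 ≤ C) (hyp : Hyp b p0 δ0 C2 C) {t : ℝ} (ht : C ≤ t)
    {χ : (Fin 3 → Om) → ℝ} (hχ : WF χ) (hs : ∀ X, χ X ≠ 0 → ∀ j, ‖(X j).1‖ ≤ t) :
    0 ≤ Qf b χ - En 3 b * nsq χ ∧
    expv (fun X => ‖vdip b X‖ ^ 2) χ ≤ C2 * nsq χ + C * t ^ 2 * (Qf b χ - En 3 b * nsq χ) ∧
    ∀ (τ : E3) (β' : ℝ), 0 < β' → expv (fun X => inner ℝ τ (vdip b X - p0)) χ ≤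
      (‖τ‖ * δ0 + β' * ‖τ‖ ^ 2) * nsq χ + C ^ 2 * t ^ 2 / (4 * β') *
        (Qf b χ - En 3 b * nsq χ) := by
  have he : 0 ≤ Qf b χ - En 3 b * nsq χ := by
    have h1 := hen.2.1 (Fin 3) (Fin 3) b χ hχ
    rw [Fintype.card_fin] at h1
    linarith
  refine ⟨he, ?_⟩
  have hn0 : 0 ≤ nsq χ := EnBasic.nsq_nonneg χ
  have ht0 : 0 < t := by linarith
  rcases hn0.eq_or_lt with hn | hn
  · refine ⟨?_, fun τ β' hβ' => ?_⟩
    · rw [expv_zero hlc hχ.toLC hn.symm]
      positivity
    · rw [expv_zero hlc hχ.toLC hn.symm, ← hn, mul_zero, zero_add]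
      rw [← hn] at he
      positivity
  · set c : ℝ := (Real.sqrt (nsq χ))⁻¹ with hc
    have hcn : c ^ 2 * nsq χ = 1 := by
      rw [hc, inv_pow, Real.sq_sqrt hn0]
      exact inv_mul_cancel₀ hn.ne'
    have hc0 : 0 < c := by positivity
    have hψ : WF (fun X => c * χ X) := EnBasic.WF_smul hcl c hχ
    have hψn : nsq (fun X => c * χ X) = 1 := by rw [EnBasic.nsq_smul, hcn]
    obtain ⟨h1, h2⟩ := hyp t ht (fun X => c * χ X) hψ hψn
      (fun X hX => hs X (mul_ne_zero_iff.1 hX).2)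
    have hE : Qf b (fun X => c * χ X) - En 3 b = c ^ 2 * (Qf b χ - En 3 b * nsq χ) := by
      rw [EnBasic.Qf_smul, mul_sub, mul_left_comm, hcn, mul_one]
    rw [hE, EnBasic.expv_smul] at h2
    set e := Qf b χ - En 3 b * nsq χ with hed
    have hback : ∀ x y : ℝ, c ^ 2 * x ≤ y → x ≤ y * nsq χ := by
      intro x y hxy
      have h3 := mul_le_mul_of_nonneg_right hxy hn0
      have h4 : c ^ 2 * x * nsq χ = x * (c ^ 2 * nsq χ) := by ring
      rw [h4, hcn, mul_one] at h3
      exact h3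
    have hcc : ∀ x : ℝ, x * (c ^ 2 * e) * nsq χ = x * e := by
      intro x
      have h4 : x * (c ^ 2 * e) * nsq χ = x * e * (c ^ 2 * nsq χ) := by ring
      rw [h4, hcn, mul_one]
    refine ⟨?_, fun τ β' hβ' => ?_⟩
    · have h3 := hback _ _ h2
      rw [add_mul, hcc] at h3
      exact h3
    · have h3 := (le_abs_self _).trans (h1 τ)
      rw [hE, EnBasic.expv_smul] at h3
      have hb1 : BddW (fun X : Fin 3 → Om => inner ℝ τ (vdip b X)) :=
        bdd_vdip b (F := fun v => inner ℝ τ v) (by fun_prop)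
      have h4 : expv (fun X => inner ℝ τ (vdip b X - p0)) χ =
          expv (fun X => inner ℝ τ (vdip b X)) χ - inner ℝ τ p0 * nsq χ := by
        rw [← TailF.expv_sub_const hlc (adm_bdd hadm hb1) _ hχ.toLC]
        congr 1
        funext X
        rw [inner_sub_right]
      -- the arithmetic - geometric mean
      have h5 : ‖τ‖ * (C * t * Real.sqrt (c ^ 2 * e)) ≤
          β' * ‖τ‖ ^ 2 + C ^ 2 * t ^ 2 / (4 * β') * (c ^ 2 * e) := by
        set q := Real.sqrt (c ^ 2 * e) with hq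
        have hq2 : c ^ 2 * e = q ^ 2 := (Real.sq_sqrt (by positivity)).symm
        rw [hq2]
        have h6 : β' * ‖τ‖ ^ 2 + C ^ 2 * t ^ 2 / (4 * β') * q ^ 2 - ‖τ‖ * (C * t * q) =
            (2 * β' * ‖τ‖ - C * t * q) ^ 2 / (4 * β') := by
          field_simp
          ring
        have h7 : 0 ≤ (2 * β' * ‖τ‖ - C * t * q) ^ 2 / (4 * β') := by positivity
        linarith
      have h8 : c ^ 2 * (expv (fun X => inner ℝ τ (vdip b X)) χ - inner ℝ τ p0 * nsq χ) ≤
          (‖τ‖ * δ0 + β' * ‖τ‖ ^ 2) + C ^ 2 * t ^ 2 / (4 * β') * (c ^ 2 * e) := by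
        have h9 : c ^ 2 * (expv (fun X => inner ℝ τ (vdip b X)) χ - inner ℝ τ p0 * nsq χ) =
            c ^ 2 * expv (fun X => inner ℝ τ (vdip b X)) χ - inner ℝ τ p0 * (c ^ 2 * nsq χ) := by
          ring
        rw [h9, hcn, mul_one]
        rw [mul_add] at h3
        linarith
      have h10 := hback _ _ h8
      rw [add_mul, hcc] at h10
      rw [h4]
      exact h10

/-- three electrons near `z` -/
theorem cell3 (hlc : S_lc) (hcl : S_lc_closure) (hadm : S_adm) (hen : S_en) (hre : S_reindex)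
    (hsh : S_shift) {b : Fin 3 → E3} {p0 : E3} {δ0 C2 C : ℝ} (hC2 : 1 ≤ C2) (hC : 1 ≤ C)
    (hyp : Hyp b p0 δ0 C2 C) {t : ℝ} (ht : C ≤ t) (hcard : Fintype.card ι = 3) (z : E3)
    {χ : (ι → Om) → ℝ} (hχ : WF χ) (hs : ∀ X, χ X ≠ 0 → ∀ j, ‖(X j).1 - z‖ ≤ t) :
    0 ≤ Qf (fun m => z + b m) χ - En 3 b * nsq χ ∧
    expv (fun X => ‖vdip (fun m => z + b m) X‖ ^ 2) χ ≤
      C2 * nsq χ + C * t ^ 2 * (Qf (fun m => z + b m) χ - En 3 b * nsq χ) ∧
    ∀ (τ : E3) (β' : ℝ), 0 < β' →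
      expv (fun X => inner ℝ τ (vdip (fun m => z + b m) X - p0)) χ ≤
      (‖τ‖ * δ0 + β' * ‖τ‖ ^ 2) * nsq χ + C ^ 2 * t ^ 2 / (4 * β') *
        (Qf (fun m => z + b m) χ - En 3 b * nsq χ) := by
  have e : ι ≃ Fin 3 := Fintype.equivFinOfCardEq hcard
  set χ₁ : (Fin 3 → Om) → ℝ := fun X' => χ (fun j => X' (e j)) with hχ₁
  obtain ⟨-, r2, r3, -, r5, r6⟩ := hre ι (Fin 3) e χ
  obtain ⟨-, s2, s3, -, s5, s6⟩ := hsh (Fin 3) (-z) χ₁
  set χ₂ : (Fin 3 → Om) → ℝ := fun X => χ₁ (fun j => ((X j).1 - -z, (X j).2)) with hχ₂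
  have hW1 : WF χ₁ := r2 hχ
  have hW2 : WF χ₂ := s2 hW1
  have hn : nsq χ₂ = nsq χ := s3.trans r3
  have hQ : Qf b χ₂ = Qf (fun m => z + b m) χ := by
    have h1 := s6 (Fin 3) (fun m => z + b m)
    have h2 : (fun m => -z + (z + b m)) = b := by
      funext m
      abel
    rw [h2] at h1
    exact h1.trans (r6 (Fin 3) (fun m => z + b m))
  have hexp : ∀ F : E3 → ℝ, expv (fun X => F (vdip b X)) χ₂ =
      expv (fun X => F (vdip (fun m => z + b m) X)) χ := by
    intro F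
    have h1 := s5 (fun X => F (vdip (fun m => z + b m) X))
    have h2 : (fun X : Fin 3 → Om => F (vdip (fun m => z + b m)
        (fun j => ((X j).1 - -z, (X j).2)))) = fun X => F (vdip b X) := by
      funext X
      congr 1
      unfold vdip
      simp only [Finset.sum_add_distrib, sub_neg_eq_add, Finset.sum_const, Finset.card_univ,
        Fintype.card_fin]
      abel
    rw [h2] at h1
    rw [h1]
    have h3 := r5 (fun X => F (vdip (fun m => z + b m) X))
    have h4 : (fun X' : Fin 3 → Om => F (vdip (fun m => z + b m)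
        (fun j : ι => X' (e j)))) = fun X' => F (vdip (fun m => z + b m) X') := by
      funext X'
      congr 1
      unfold vdip
      rw [Equiv.sum_comp e (fun j => (X' j).1)]
    rw [h4] at h3
    exact h3
  have hs2 : ∀ X, χ₂ X ≠ 0 → ∀ j, ‖(X j).1‖ ≤ t := by
    intro X hX j
    have h1 := hs _ hX (e.symm j)
    simpa using h1
  obtain ⟨h1, h2, h3⟩ := cell3c hlc hcl hadm hen hC2 hC hyp ht hW2 hs2
  rw [hQ, hn] at h1 h2 h3
  rw [hexp (fun v => ‖v‖ ^ 2)] at h2
  refine ⟨h1, h2, fun τ β' hβ' => ?_⟩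
  have h4 := h3 τ β' hβ'
  rw [hexp (fun v => inner ℝ τ (v - p0))] at h4
  exact h4

end one

/-! ### expectations -/

section expv
variable {ι : Type} [Fintype ι] [DecidableEq ι]

theorem expv_sum (hlc : S_lc) {A : Type} (s : Finset A) {W : A → (ι → Om) → ℝ}
    (hW : ∀ a, AdmW (W a)) {ψ : (ι → Om) → ℝ} (hψ : LC ψ) :
    expv (fun X => ∑ a ∈ s, W a X) ψ = ∑ a ∈ s, expv (W a) ψ := by
  unfold expv
  rw [← integral_finsetSum s fun a _ => (hlc ι ψ hψ).2.2.2.2.2.1 (W a) (hW a)]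
  refine integral_congr_ae (Filter.Eventually.of_forall fun X => ?_)
  show (∑ a ∈ s, W a X) * ψ X ^ 2 = ∑ a ∈ s, W a X * ψ X ^ 2
  rw [Finset.sum_mul]

theorem expv_sub (hlc : S_lc) {W W' : (ι → Om) → ℝ}
    (hW : AdmW W) (hW' : AdmW W') {ψ : (ι → Om) → ℝ} (hψ : LC ψ) :
    expv (fun X => W X - W' X) ψ = expv W ψ - expv W' ψ := by
  obtain ⟨-, -, -, -, -, h1, h2⟩ := hlc ι ψ hψ
  unfold expv
  rw [← integral_sub (h1 W hW) (h1 W' hW')]
  refine integral_congr_ae (Filter.Eventually.of_forall fun X => ?_)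
  show (W X - W' X) * ψ X ^ 2 = W X * ψ X ^ 2 - W' X * ψ X ^ 2
  ring

end expv

/-! ### good sectors -/

section good
variable {M : ℕ}

theorem sum_cls {ι K : Type} [Fintype ι] [Fintype K] [DecidableEq K] {V : Type}
    [AddCommMonoid V] (α : ι → Option K) (h : ∀ j, α j ≠ none) (f : ι → V) :
    ∑ j, f j = ∑ i, ∑ j : {j // α j = some i}, f j.1 := by
  classical
  have h1 : ∑ j, f j = ∑ o : Option K, ∑ j : {j // α j = o}, f j.1 := by
    rw [← Finset.sum_fiberwise Finset.univ α f]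
    refine Finset.sum_congr rfl fun o _ => ?_
    exact (Finset.sum_subtype _ (fun j => by simp) f)
  rw [h1, Fintype.sum_option]
  have h2 : ∑ j : {j // α j = none}, f j.1 = 0 := by
    have : IsEmpty {j // α j = none} := ⟨fun j => h j.1 j.2⟩
    exact Finset.sum_of_isEmpty _
  rw [h2, zero_add]

theorem sum_cls' {ι K : Type} [Fintype ι] [Fintype K] [DecidableEq K] {V : Type}
    [AddCommMonoid V] (α : ι → Option K) (h : ∀ j, α j ≠ none) (f : ι → V) :
    ∑ j, f j = ∑ i, ∑ j ∈ Finset.univ.filter (fun j => α j = some i), f j := by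
  rw [sum_cls α h f]
  refine Finset.sum_congr rfl fun i _ => ?_
  exact (Finset.sum_subtype _ (fun j => by simp) f).symm

theorem no_none {α : Fin (3 * M) → Option (Fin M)} (hα : goodA α) (j : Fin (3 * M)) :
    α j ≠ none := by
  intro hj
  have h1 : ∑ o : Option (Fin M), Fintype.card {j // α j = o} = 3 * M := by
    rw [← Fintype.card_sigma, Fintype.card_congr (Equiv.sigmaFiberEquiv α), Fintype.card_fin]
  rw [Fintype.sum_option, Finset.sum_congr rfl fun i _ => hα i, Finset.sum_const,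
    Finset.card_univ, Fintype.card_fin, smul_eq_mul, mul_comm M 3] at h1
  have h2 : 0 < Fintype.card {j // α j = none} := Fintype.card_pos_iff.2 ⟨⟨j, hj⟩⟩
  omega

/-- dipole moment of the copy `i` -/
def pH (b : Fin 3 → E3) (z : Fin M → E3) (α : Fin (3 * M) → Option (Fin M)) (i : Fin M)
    (X : Fin (3 * M) → Om) : E3 :=
  vdip (fun m => z i + b m) (fun j : {j // α j = some i} => X j.1)

theorem bdd_pH (b : Fin 3 → E3) (z : Fin M → E3) (α : Fin (3 * M) → Option (Fin M))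
    (i k : Fin M) {F : E3 × E3 → ℝ} (hF : Continuous F) :
    BddW (fun X => F (pH b z α i X, pH b z α k X)) := by
  have hv : ∀ i : Fin M, Continuous (fun x : Fin (3 * M) → E3 =>
      ∑ m, (z i + b m) - ∑ j : {j // α j = some i}, x j.1) := fun i =>
    continuous_const.sub (continuous_finsetSum _ fun j _ => continuous_apply j.1)
  exact bdd_cont (f := fun x : Fin (3 * M) → E3 =>
    F (∑ m, (z i + b m) - ∑ j : {j // α j = some i}, x j.1,
      ∑ m, (z k + b m) - ∑ j : {j // α j = some k}, x j.1)) (hF.comp ((hv i).prodMk (hv k)))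

theorem vdip_eq (b : Fin 3 → E3) (L : ℝ) {α : Fin (3 * M) → Option (Fin M)} (hα : goodA α)
    (X : Fin (3 * M) → Om) (p0 : E3) :
    vdip (cY b M L) X - (M : ℝ) • p0 = ∑ i, (pH b (cz M L) α i X - p0) := by
  have h1 : ∑ i, pH b (cz M L) α i X = vdip (cY b M L) X := by
    unfold pH vdip
    rw [Finset.sum_sub_distrib, ← sum_cls α (no_none hα) (fun j => (X j).1)]
    congr 1
    unfold cY
    rw [Fintype.sum_sigma]
    rfl
  rw [Finset.sum_sub_distrib, h1, Finset.sum_const, Finset.card_univ, Fintype.card_fin,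
    ← Nat.cast_smul_eq_nsmul ℝ]

theorem norm_sum_sq {A : Type} [Fintype A] (v : A → E3) :
    ‖∑ i, v i‖ ^ 2 = ∑ i, ∑ k, inner ℝ (v k) (v i) := by
  rw [← real_inner_self_eq_norm_sq, inner_sum]
  refine Finset.sum_congr rfl fun i _ => ?_
  rw [sum_inner]

theorem cz_dist {L : ℝ} (hL : 0 ≤ L) (k k' : Fin M) (h : k ≠ k') :
    L ≤ ‖cz M L k - cz M L k'‖ := by
  unfold cz
  have h1 : (EuclideanSpace.single (0 : Fin 3) (((k : ℕ) : ℝ) * L) : E3) -
      EuclideanSpace.single 0 (((k' : ℕ) : ℝ) * L) =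
      EuclideanSpace.single 0 ((((k : ℕ) : ℝ) - ((k' : ℕ) : ℝ)) * L) := by
    ext m
    by_cases hm : m = 0
    · subst hm
      simp [sub_mul]
    · simp [hm]
  rw [h1, EuclideanSpace.norm_single, Real.norm_eq_abs, abs_mul, abs_of_nonneg hL]
  have h2 : (1 : ℝ) ≤ |((k : ℕ) : ℝ) - ((k' : ℕ) : ℝ)| := by
    have h3 : ((k : ℕ) : ℤ) - ((k' : ℕ) : ℤ) ≠ 0 := by
      intro h4
      apply h
      apply Fin.ext
      omega
    have h4 : (1 : ℤ) ≤ |((k : ℕ) : ℤ) - ((k' : ℕ) : ℤ)| := Int.one_le_abs h3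
    exact_mod_cast h4
  nlinarith

end good

end CompGood

open CompGood

theorem p_compGood (hlc : S_lc) (hcl : S_lc_closure) (hadm : S_adm) (hen : S_en)
    (hre : S_reindex) (hsh : S_shift) (hslice : S_slice) (hims : S_ims) (hcut : S_cut) :
    S_compGood := by
  intro b p0 δ0 C2 C β M hM hp0 hδ0 hδ1 hC2 hC hβ hyp
  have hyp' : Hyp b p0 δ0 C2 C := hyp
  set β' : ℝ := β / (2 * C2 + 2) with hβ'd
  have hC2p : 0 < 2 * C2 + 2 := by linarith
  have hβ' : 0 < β' := div_pos hβ hC2p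
  have hββ : β' * (2 * C2 + 2) = β := div_mul_cancel₀ _ hC2p.ne'
  set A1 : ℝ := C + 2 * β' * C with hA1
  set A2 : ℝ := C ^ 2 / (4 * β') with hA2
  have hC0 : 0 < C := by linarith
  have hA10 : 0 ≤ A1 := by positivity
  have hA20 : 0 ≤ A2 := by positivity
  have hM0 : (0 : ℝ) ≤ M := Nat.cast_nonneg _
  refine ⟨2 * C + M * (A1 + A2), ?_, ?_⟩
  · have : 0 ≤ (M : ℝ) * (A1 + A2) := by positivity
    linarith
  intro L t φ α ht hL hφ hα
  have ht0 : 0 < t := by linarith
  have hL0 : 0 ≤ L := by linarith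
  set z : Fin M → E3 := cz M L with hz
  obtain ⟨hPU, hin, -⟩ := hcut (Fin M) t z ht0
    (fun k k' h => by have := cz_dist (M := M) hL0 k k' h; linarith)
  set Φ := sector (cellPU t z) α φ with hΦ
  have hLC : LC Φ := (hims _ _ (cellPU t z) φ hPU hφ.toLC).1 α
  have hn0 : 0 ≤ nsq Φ := EnBasic.nsq_nonneg Φ
  set n := nsq Φ with hn
  set E := En 3 b with hE
  -- the excess of a copy
  set a : Fin M → ℝ := fun i =>
    (∑ j ∈ Finset.univ.filter (fun j => α j = some i), kin1 j Φ) +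
      expv (fun X => pot (fun m => z i + b m) (fun j : {j // α j = some i} => X j.1)) Φ -
      E * n with ha
  -- slices
  have hsl : ∀ (i : Fin M) {G : (Fin (3 * M) → Om) → ℝ}, BddW G →
      (∀ (X0 : Fin (3 * M) → Om) (χ : ({j // α j = some i} → Om) → ℝ), WF χ →
        (∀ Z, χ Z ≠ 0 → ∀ j, ‖(Z j).1 - z i‖ ≤ t) →
        0 ≤ Qf (fun m => z i + b m) χ - E * nsq χ +
          expv (fun Z => G (glue (fun j => α j = some i) Z X0)) χ) →
      0 ≤ a i + expv G Φ := by
    intro i G hG h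
    exact slice_gen hlc hadm hslice (cellPU t z) α (some i) φ hφ hLC (fun m => z i + b m) E hG
      (fun X0 χ hχ hs => h X0 χ hχ (fun Z hZ j => (hin i _ (hs Z hZ j)).le))
  have hcell := fun (i : Fin M) (χ : ({j // α j = some i} → Om) → ℝ) (hχ : WF χ)
    (hs : ∀ Z, χ Z ≠ 0 → ∀ j, ‖(Z j).1 - z i‖ ≤ t) =>
    cell3 hlc hcl hadm hen hre hsh hC2 hC hyp' ht (hα i) (z i) hχ hs
  have hpHin : ∀ (i : Fin M) (Z : {j // α j = some i} → Om) (X0 : Fin (3 * M) → Om),
      pH b z α i (glue (fun j => α j = some i) Z X0) = vdip (fun m => z i + b m) Z := by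
    intro i Z X0
    unfold pH
    rw [glue_in]
  have hpHout : ∀ (i k : Fin M), i ≠ k → ∀ (Z : {j // α j = some i} → Om)
      (X0 : Fin (3 * M) → Om),
      pH b z α k (glue (fun j => α j = some i) Z X0) = pH b z α k X0 := by
    intro i k hik Z X0
    unfold pH
    rw [glue_out (fun j => α j = some i) (fun j => α j = some k)]
    intro j hj hj'
    rw [hj] at hj'
    exact hik (Option.some_injective _ hj').symm
  have ha0 : ∀ i, 0 ≤ a i := by
    intro i
    have h1 := hsl i (G := fun _ => 0) ⟨measurable_const, fun R => ⟨0, fun X _ => by simp⟩⟩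
      (fun X0 χ hχ hs => by
        have h2 := (hcell i χ hχ hs).1
        have h3 : expv (fun _ : ({j // α j = some i} → Om) => (0 : ℝ)) χ = 0 := by
          unfold expv; simp
        rw [h3, add_zero]
        exact h2)
    have h3 : expv (fun _ : (Fin (3 * M) → Om) => (0 : ℝ)) Φ = 0 := by
      unfold expv; simp
    rw [h3, add_zero] at h1
    exact h1
  have hCt : 0 < C * t ^ 2 := by positivity
  -- second moments
  have hb2 : ∀ i, BddW (fun X => ‖pH b z α i X‖ ^ 2) := fun i =>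
    bdd_pH b z α i i (F := fun v => ‖v.1‖ ^ 2) (by fun_prop)
  have hP2 : ∀ i, expv (fun X => ‖pH b z α i X‖ ^ 2) Φ ≤ C2 * n + C * t ^ 2 * a i := by
    intro i
    have h1 := hsl i (G := fun X => (-(1 / (C * t ^ 2))) * (‖pH b z α i X‖ ^ 2 - C2))
      (bdd_pH b z α i i (F := fun v => (-(1 / (C * t ^ 2))) * (‖v.1‖ ^ 2 - C2)) (by fun_prop))
      (fun X0 χ hχ hs => by
        obtain ⟨h2, h3, -⟩ := hcell i χ hχ hs
        have e1 : (fun Z : {j // α j = some i} → Om => (-(1 / (C * t ^ 2))) *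
            (‖pH b z α i (glue (fun j => α j = some i) Z X0)‖ ^ 2 - C2)) =
            fun Z => (-(1 / (C * t ^ 2))) * (‖vdip (fun m => z i + b m) Z‖ ^ 2 - C2) := by
          funext Z
          rw [hpHin]
        rw [e1, TailF.expv_cmul, TailF.expv_sub_const hlc
          (adm_bdd hadm (bdd_vdip _ (F := fun v => ‖v‖ ^ 2) (by fun_prop))) _ hχ.toLC]
        have h4 : (1 / (C * t ^ 2)) * (expv (fun X => ‖vdip (fun m => z i + b m) X‖ ^ 2) χ -
            C2 * nsq χ) ≤ Qf (fun m => z i + b m) χ - E * nsq χ := by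
          rw [one_div, inv_mul_le_iff₀ hCt]
          linarith
        linarith)
    rw [TailF.expv_cmul, TailF.expv_sub_const hlc (adm_bdd hadm (hb2 i)) _ hLC] at h1
    have h4 : (1 / (C * t ^ 2)) * (expv (fun X => ‖pH b z α i X‖ ^ 2) Φ - C2 * n) ≤ a i := by
      linarith
    rw [one_div, inv_mul_le_iff₀ hCt] at h4
    linarith
  have hbt2 : ∀ i, BddW (fun X => ‖pH b z α i X - p0‖ ^ 2) := fun i =>
    bdd_pH b z α i i (F := fun v => ‖v.1 - p0‖ ^ 2) (by fun_prop)
  have hbt1 : ∀ i, BddW (fun X => ‖pH b z α i X - p0‖) := fun i =>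
    bdd_pH b z α i i (F := fun v => ‖v.1 - p0‖) (by fun_prop)
  have hconst : ∀ c : ℝ, expv (fun _ : (Fin (3 * M) → Om) => c) Φ = c * n := by
    intro c
    unfold expv
    rw [integral_const_mul]
    rfl
  have hT2 : ∀ i, expv (fun X => ‖pH b z α i X - p0‖ ^ 2) Φ ≤
      (2 * C2 + 2) * n + 2 * C * t ^ 2 * a i := by
    intro i
    have hadm2 : AdmW (fun X => 2 * ‖pH b z α i X‖ ^ 2) :=
      (hadm _).2.2.1 2 _ (adm_bdd hadm (hb2 i))
    have h1 : expv (fun X => ‖pH b z α i X - p0‖ ^ 2) Φ ≤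
        expv (fun X => 2 * ‖pH b z α i X‖ ^ 2 + 2) Φ := by
      refine TailF.expv_mono hlc (adm_bdd hadm (hbt2 i))
        ((hadm _).2.1 _ _ hadm2 (adm_const hadm 2)) hLC fun X => ?_
      have h2 : ‖pH b z α i X - p0‖ ≤ ‖pH b z α i X‖ + 1 := (norm_sub_le _ _).trans (by linarith)
      have h3 := norm_nonneg (pH b z α i X - p0)
      nlinarith [sq_nonneg (‖pH b z α i X‖ - 1)]
    rw [TailF.expv_add hlc hadm2 (adm_const hadm 2) hLC, TailF.expv_cmul, hconst] at h1
    have h2 := hP2 i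
    linarith
  -- first moments
  have hs1 : 1 ≤ Real.sqrt C2 := by
    rw [show (1 : ℝ) = Real.sqrt 1 from Real.sqrt_one.symm]
    exact Real.sqrt_le_sqrt hC2
  have hs2 : Real.sqrt C2 ^ 2 = C2 := Real.sq_sqrt (by linarith)
  have hT1 : ∀ i, expv (fun X => ‖pH b z α i X - p0‖) Φ ≤
      2 * Real.sqrt C2 * n + C * t ^ 2 * a i := by
    intro i
    set s := Real.sqrt C2 with hs
    have hadm2 : AdmW (fun X => (1 / (4 * s)) * ‖pH b z α i X - p0‖ ^ 2) :=
      (hadm _).2.2.1 _ _ (adm_bdd hadm (hbt2 i))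
    have h1 : expv (fun X => ‖pH b z α i X - p0‖) Φ ≤
        expv (fun X => (1 / (4 * s)) * ‖pH b z α i X - p0‖ ^ 2 + s) Φ := by
      refine TailF.expv_mono hlc (adm_bdd hadm (hbt1 i))
        ((hadm _).2.1 _ _ hadm2 (adm_const hadm s)) hLC fun X => ?_
      have h3 : (1 / (4 * s)) * ‖pH b z α i X - p0‖ ^ 2 + s - ‖pH b z α i X - p0‖ =
          (1 / (4 * s)) * (‖pH b z α i X - p0‖ - 2 * s) ^ 2 := by
        field_simp
        ring
      have h4 : 0 ≤ (1 / (4 * s)) * (‖pH b z α i X - p0‖ - 2 * s) ^ 2 := by positivity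
      linarith
    rw [TailF.expv_add hlc hadm2 (adm_const hadm s) hLC, TailF.expv_cmul, hconst] at h1
    have h2 := hT2 i
    have h5 : (1 / (4 * s)) * expv (fun X => ‖pH b z α i X - p0‖ ^ 2) Φ ≤
        s * n + C * t ^ 2 * a i := by
      rw [one_div, inv_mul_le_iff₀ (by positivity)]
      have h6 : 4 * s * (s * n + C * t ^ 2 * a i) = 4 * C2 * n + 4 * s * (C * t ^ 2 * a i) := by
        rw [← hs2]; ring
      rw [h6]
      have h7 : 0 ≤ C * t ^ 2 * a i := mul_nonneg hCt.le (ha0 i)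
      have h8 : C * t ^ 2 * a i ≤ s * (C * t ^ 2 * a i) := le_mul_of_one_le_left h7 hs1
      have h9 : (2 * C2 + 2) * n ≤ 4 * C2 * n := mul_le_mul_of_nonneg_right (by linarith) hn0
      linarith
    linarith
  -- off-diagonal terms
  have hbi : ∀ i k, BddW (fun X => inner ℝ (pH b z α k X - p0) (pH b z α i X - p0)) := fun i k =>
    bdd_pH b z α i k (F := fun v => inner ℝ (v.2 - p0) (v.1 - p0)) (by fun_prop)
  set κ2 : ℝ := -(4 * β' / (C ^ 2 * t ^ 2)) with hκ2
  have hO : ∀ i k, i ≠ k →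
      expv (fun X => inner ℝ (pH b z α k X - p0) (pH b z α i X - p0)) Φ ≤
        (3 * δ0 * Real.sqrt C2 + β) * n + A1 * t ^ 2 * a k + A2 * t ^ 2 * a i := by
    intro i k hik
    have hbr : BddW (fun X => ‖pH b z α k X - p0‖ * δ0 + β' * ‖pH b z α k X - p0‖ ^ 2) :=
      bdd_pH b z α k k (F := fun v => ‖v.1 - p0‖ * δ0 + β' * ‖v.1 - p0‖ ^ 2) (by fun_prop)
    have hA2t : 0 < C ^ 2 * t ^ 2 / (4 * β') := by positivity
    have hκ : ∀ x : ℝ, κ2 * x = -((C ^ 2 * t ^ 2 / (4 * β'))⁻¹ * x) := by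
      intro x
      rw [hκ2, inv_div]
      ring
    have h1 := hsl i (G := fun X => κ2 * (inner ℝ (pH b z α k X - p0) (pH b z α i X - p0) -
        (‖pH b z α k X - p0‖ * δ0 + β' * ‖pH b z α k X - p0‖ ^ 2)))
      (bdd_pH b z α i k (F := fun v => κ2 * (inner ℝ (v.2 - p0) (v.1 - p0) -
        (‖v.2 - p0‖ * δ0 + β' * ‖v.2 - p0‖ ^ 2))) (by fun_prop))
      (fun X0 χ hχ hs => by
        obtain ⟨-, -, h3⟩ := hcell i χ hχ hs
        have h4 := h3 (pH b z α k X0 - p0) β' hβ'
        set τ := pH b z α k X0 - p0 with hτ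
        have e1 : (fun Z : {j // α j = some i} → Om => κ2 *
            (inner ℝ (pH b z α k (glue (fun j => α j = some i) Z X0) - p0)
              (pH b z α i (glue (fun j => α j = some i) Z X0) - p0) -
            (‖pH b z α k (glue (fun j => α j = some i) Z X0) - p0‖ * δ0 +
              β' * ‖pH b z α k (glue (fun j => α j = some i) Z X0) - p0‖ ^ 2))) =
            fun Z => κ2 * (inner ℝ τ (vdip (fun m => z i + b m) Z - p0) -
              (‖τ‖ * δ0 + β' * ‖τ‖ ^ 2)) := by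
          funext Z
          rw [hpHin, hpHout i k hik]
        rw [e1, TailF.expv_cmul, TailF.expv_sub_const hlc
          (adm_bdd hadm (bdd_vdip _ (F := fun v => inner ℝ τ (v - p0)) (by fun_prop))) _ hχ.toLC,
          hκ]
        have h5 : (C ^ 2 * t ^ 2 / (4 * β'))⁻¹ *
            (expv (fun X => inner ℝ τ (vdip (fun m => z i + b m) X - p0)) χ -
              (‖τ‖ * δ0 + β' * ‖τ‖ ^ 2) * nsq χ) ≤
            Qf (fun m => z i + b m) χ - E * nsq χ := by
          rw [inv_mul_le_iff₀ hA2t]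
          linarith
        linarith)
    rw [TailF.expv_cmul, expv_sub hlc (adm_bdd hadm (hbi i k)) (adm_bdd hadm hbr) hLC, hκ] at h1
    have h5 : (C ^ 2 * t ^ 2 / (4 * β'))⁻¹ *
        (expv (fun X => inner ℝ (pH b z α k X - p0) (pH b z α i X - p0)) Φ -
          expv (fun X => ‖pH b z α k X - p0‖ * δ0 + β' * ‖pH b z α k X - p0‖ ^ 2) Φ) ≤ a i := by
      linarith
    rw [inv_mul_le_iff₀ hA2t] at h5
    have hadmA : AdmW (fun X => δ0 * ‖pH b z α k X - p0‖) :=
      (hadm _).2.2.1 _ _ (adm_bdd hadm (hbt1 k))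
    have hadmB : AdmW (fun X => β' * ‖pH b z α k X - p0‖ ^ 2) :=
      (hadm _).2.2.1 _ _ (adm_bdd hadm (hbt2 k))
    have h6 : expv (fun X => ‖pH b z α k X - p0‖ * δ0 + β' * ‖pH b z α k X - p0‖ ^ 2) Φ =
        δ0 * expv (fun X => ‖pH b z α k X - p0‖) Φ +
          β' * expv (fun X => ‖pH b z α k X - p0‖ ^ 2) Φ := by
      rw [← TailF.expv_cmul, ← TailF.expv_cmul, ← TailF.expv_add hlc hadmA hadmB hLC]
      congr 1
      funext X
      rw [mul_comm δ0]
    have h7 : δ0 * expv (fun X => ‖pH b z α k X - p0‖) Φ ≤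
        3 * δ0 * Real.sqrt C2 * n + C * t ^ 2 * a k := by
      have h8 := mul_le_mul_of_nonneg_left (hT1 k) hδ0
      have h9 : 0 ≤ C * t ^ 2 * a k := mul_nonneg hCt.le (ha0 k)
      have h10 : δ0 * (C * t ^ 2 * a k) ≤ C * t ^ 2 * a k := mul_le_of_le_one_left h9 hδ1
      have h11 : 0 ≤ δ0 * Real.sqrt C2 * n := by positivity
      nlinarith
    have h8 : β' * expv (fun X => ‖pH b z α k X - p0‖ ^ 2) Φ ≤
        β * n + 2 * β' * C * t ^ 2 * a k := by
      have h9 := mul_le_mul_of_nonneg_left (hT2 k) hβ'.le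
      have h10 : β' * ((2 * C2 + 2) * n + 2 * C * t ^ 2 * a k) =
          (β' * (2 * C2 + 2)) * n + 2 * β' * C * t ^ 2 * a k := by ring
      rw [h10, hββ] at h9
      exact h9
    have h9 : C ^ 2 * t ^ 2 / (4 * β') * a i = A2 * t ^ 2 * a i := by
      rw [hA2]; ring
    rw [h9] at h5
    have h10 : A1 * t ^ 2 * a k = C * t ^ 2 * a k + 2 * β' * C * t ^ 2 * a k := by
      rw [hA1]; ring
    rw [h10]
    linarith
  -- the total excess
  have hatot : ∑ i, a i = kin Φ + expv (clPot b M L α) Φ - M * E * n := by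
    have h1 : kin Φ = ∑ i, ∑ j ∈ Finset.univ.filter (fun j => α j = some i), kin1 j Φ :=
      sum_cls' α (no_none hα) (fun j => kin1 j Φ)
    have h2 : expv (clPot b M L α) Φ = ∑ i, expv (fun X => pot (fun m => z i + b m)
        (fun j : {j // α j = some i} => X j.1)) Φ := by
      rw [← expv_sum hlc Finset.univ (fun i => Master.adm_restrict (fun j => α j = some i) _
        ((hadm _).2.2.2.2.2.2.1 _ (fun m => z i + b m)).2.2) hLC]
      rfl
    rw [h1, h2, ha, Finset.sum_sub_distrib, Finset.sum_add_distrib, Finset.sum_const,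
      Finset.card_univ, Fintype.card_fin, nsmul_eq_mul]
    ring
  -- the square of the sum
  have hexp : expv (fun X => ‖vdip (cY b M L) X - (M : ℝ) • p0‖ ^ 2) Φ =
      ∑ i, ∑ k, expv (fun X => inner ℝ (pH b z α k X - p0) (pH b z α i X - p0)) Φ := by
    have h1 : (fun X => ‖vdip (cY b M L) X - (M : ℝ) • p0‖ ^ 2) =
        fun X => ∑ i, ∑ k, inner ℝ (pH b z α k X - p0) (pH b z α i X - p0) := by
      funext X
      rw [vdip_eq b L hα X p0, norm_sum_sq]
    rw [h1]
    have h2 : ∀ i, BddW (fun X => ∑ k, inner ℝ (pH b z α k X - p0) (pH b z α i X - p0)) := by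
      intro i
      refine ⟨Finset.measurable_fun_sum _ fun k _ => (hbi i k).1, fun R => ?_⟩
      choose c hc using fun k => (hbi i k).2 R
      refine ⟨∑ k, c k, fun X hX => ?_⟩
      exact (Finset.abs_sum_le_sum_abs _ _).trans (Finset.sum_le_sum fun k _ => hc k X hX)
    rw [expv_sum hlc Finset.univ (fun i => adm_bdd hadm (h2 i)) hLC]
    refine Finset.sum_congr rfl fun i _ => ?_
    exact expv_sum hlc Finset.univ (fun k => adm_bdd hadm (hbi i k)) hLC
  rw [hexp, ← hatot]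
  set B : ℝ := 3 * δ0 * Real.sqrt C2 + β with hB
  have hB0 : 0 ≤ B := by positivity
  have hterm : ∀ i k, expv (fun X => inner ℝ (pH b z α k X - p0) (pH b z α i X - p0)) Φ ≤
      (if i = k then (2 * C2 + 2) * n + 2 * C * t ^ 2 * a i else 0) +
        (B * n + A1 * t ^ 2 * a k + A2 * t ^ 2 * a i) := by
    intro i k
    have hpos : 0 ≤ B * n + A1 * t ^ 2 * a k + A2 * t ^ 2 * a i := by
      have h1 := ha0 i
      have h2 := ha0 k
      positivity
    by_cases h : i = k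
    · subst h
      rw [if_pos rfl]
      have h1 := hT2 i
      have h2 : (fun X => inner ℝ (pH b z α i X - p0) (pH b z α i X - p0)) =
          fun X => ‖pH b z α i X - p0‖ ^ 2 := by
        funext X
        rw [real_inner_self_eq_norm_sq]
      rw [h2]
      linarith
    · rw [if_neg h, zero_add]
      exact hO i k h
  have hsum : ∑ i, ∑ k, ((if i = k then (2 * C2 + 2) * n + 2 * C * t ^ 2 * a i else 0) +
      (B * n + A1 * t ^ 2 * a k + A2 * t ^ 2 * a i)) =
      (M * (2 * C2 + 2) + M ^ 2 * B) * n + (2 * C + M * (A1 + A2)) * t ^ 2 * ∑ i, a i := by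
    simp only [Finset.sum_add_distrib, Finset.sum_ite_eq, Finset.mem_univ, if_true,
      Finset.sum_const, Finset.card_univ, Fintype.card_fin, nsmul_eq_mul, ← Finset.mul_sum]
    ring
  calc _ ≤ ∑ i, ∑ k, ((if i = k then (2 * C2 + 2) * n + 2 * C * t ^ 2 * a i else 0) +
      (B * n + A1 * t ^ 2 * a k + A2 * t ^ 2 * a i)) :=
        Finset.sum_le_sum fun i _ => Finset.sum_le_sum fun k _ => hterm i k
    _ = _ := hsum

end MolDis
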