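import Pool.Agent.Lib.MP_59f35a_mp.Stmts3

/-!
# MP_59f35a_mp : piece H2b, slopes of the composite
-/

set_option autoImplicit false

noncomputable section

open MeasureTheory

namespace MolDis

namespace CompMarg

theorem site1 (b : Fin 3 → E3) (a η0 : ℝ) (hm : Marg b a η0) (h2 : 2 * η0 ≤ 1 / 4 - a) (n : ℕ) :
    ((3 : ℝ) - n) * (1 / 4 - η0) ≤ En n b - En 3 b := by
  rcases lt_trichotomy n 3 with h | h | h
  · obtain ⟨k, hk⟩ : ∃ k, k = 3 - n := ⟨_, rfl⟩
    have h1 := hm.1 k (by omega) (by omega)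
    have h3 : 3 - k = n := by omega
    rw [h3] at h1
    have h4 : (k : ℝ) = 3 - n := by
      have : k + n = 3 := by omega
      have h5 : ((k + n : ℕ) : ℝ) = 3 := by rw [this]; norm_num
      push_cast at h5
      linarith
    rw [h4] at h1
    exact h1
  · subst h
    norm_num
  · obtain ⟨k, hk⟩ : ∃ k, n = 3 + k := ⟨n - 3, by omega⟩
    have h1 := hm.2 k (by omega)
    rw [hk]
    push_cast
    have h5 : (0 : ℝ) ≤ k := Nat.cast_nonneg k
    nlinarith

theorem site2 (b : Fin 3 → E3) (a η0 : ℝ) (hm : Marg b a η0) (h2 : 2 * η0 ≤ 1 / 4 - a) (n : ℕ) :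
    ((3 : ℝ) - n) * (a + η0) ≤ En n b - En 3 b := by
  rcases lt_trichotomy n 3 with h | h | h
  · obtain ⟨k, hk⟩ : ∃ k, k = 3 - n := ⟨_, rfl⟩
    have h1 := hm.1 k (by omega) (by omega)
    have h3 : 3 - k = n := by omega
    rw [h3] at h1
    have h4 : (k : ℝ) = 3 - n := by
      have : k + n = 3 := by omega
      have h5 : ((k + n : ℕ) : ℝ) = 3 := by rw [this]; norm_num
      push_cast at h5
      linarith
    have h5 : (0 : ℝ) ≤ k := Nat.cast_nonneg k
    rw [← h4]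
    nlinarith
  · subst h
    norm_num
  · obtain ⟨k, hk⟩ : ∃ k, n = 3 + k := ⟨n - 3, by omega⟩
    have h1 := hm.2 k (by omega)
    rw [hk]
    push_cast
    have h5 : (0 : ℝ) ≤ k := Nat.cast_nonneg k
    nlinarith

theorem cz_dist (M : ℕ) (L : ℝ) (hL : 0 ≤ L) (i j : Fin M) (hij : i ≠ j) :
    L ≤ ‖cz M L i - cz M L j‖ := by
  have h1 : cz M L i - cz M L j
      = EuclideanSpace.single 0 (((i : ℕ) : ℝ) * L - ((j : ℕ) : ℝ) * L) := by
    ext t
    fin_cases t <;> simp [cz]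
  rw [h1, EuclideanSpace.norm_single, ← sub_mul, Real.norm_eq_abs, abs_mul, abs_of_nonneg hL]
  have h2 : (1 : ℝ) ≤ |((i : ℕ) : ℝ) - ((j : ℕ) : ℝ)| := by
    have h3 : ((i : ℕ) : ℤ) - ((j : ℕ) : ℤ) ≠ 0 := by
      intro h
      apply hij
      apply Fin.ext
      omega
    have h4 := Int.one_le_abs h3
    have h5 : ((1 : ℤ) : ℝ) ≤ ((|((i : ℕ) : ℤ) - ((j : ℕ) : ℤ)| : ℤ) : ℝ) := by exact_mod_cast h4
    push_cast at h5
    exact h5
  nlinarith

end CompMarg

theorem p_compMarg (hlow : S_far_lower) (hup : S_far_upper) : S_compMarg := by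
  intro b M a η0 η hM hAH hm hη0 hη h2
  obtain ⟨C, hC, hlow⟩ := hlow
  obtain ⟨L1, hL1⟩ := hup (Fin M) (fun _ => 3) (fun _ => 3) (fun _ => b) ((η - η0) / 2)
    (by linarith)
  obtain ⟨r, hr⟩ : ∃ r : ℝ, ∀ m, ‖b m‖ ≤ r := by
    refine ⟨∑ m, ‖b m‖, fun m => ?_⟩
    exact Finset.single_le_sum (f := fun m => ‖b m‖) (fun _ _ => norm_nonneg _)
      (Finset.mem_univ m)
  have hdel : 0 < η - η0 := by linarith
  set D : ℝ := 2 * C * (3 * M + 1) ^ 2 / (η - η0) with hD
  have hD0 : 0 ≤ D := by positivity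
  refine ⟨max 1 (max (16 * r) (max L1 D)), le_max_left _ _, fun L hL => ?_⟩
  have hLa : 1 ≤ L := le_trans (le_max_left _ _) hL
  have hLb : 16 * r ≤ L := le_trans (le_trans (le_max_left _ _) (le_max_right _ _)) hL
  have hLc : L1 ≤ L := le_trans (le_trans (le_trans (le_max_left _ _) (le_max_right _ _))
    (le_max_right _ _)) hL
  have hLd : D ≤ L := le_trans (le_trans (le_trans (le_max_right _ _) (le_max_right _ _))
    (le_max_right _ _)) hL
  have hdist : ∀ i j : Fin M, i ≠ j → L ≤ ‖cz M L i - cz M L j‖ := fun i j hij =>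
    CompMarg.cz_dist M L (by linarith) i j hij
  haveI : Nonempty (Fin M) := ⟨⟨0, hM⟩⟩
  have hupL := hL1 (cz M L) (fun k k' h => le_trans hLc (hdist k k' h))
  have hsum3 : (∑ _k : Fin M, 3) = 3 * M := by
    simp [mul_comm]
  have hupL2 : En (3 * M) (cY b M L) ≤ M * En 3 b + (η - η0) / 2 := by
    rw [hsum3] at hupL
    have h3 : (∑ _k : Fin M, En 3 b) = M * En 3 b := by
      rw [Finset.sum_const, Finset.card_univ, Fintype.card_fin, nsmul_eq_mul]
    rw [h3] at hupL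
    exact hupL
  have hlowL : ∀ N : ℕ, ∃ n : Fin M → ℕ, ∑ k, n k = N ∧
      (∑ k, En (n k) b) - C * N * (3 * M + 1) / L ≤ En N (cY b M L) := by
    intro N
    obtain ⟨n, hn, hn2⟩ := hlow (Fin M) (fun _ => 3) (fun _ => b) (cz M L) r L
      (fun _ m => hr m) hLa hLb hdist N
    refine ⟨n, hn, ?_⟩
    have h4 : (((∑ _k : Fin M, 3 : ℕ) : ℝ) + 1) = 3 * M + 1 := by
      rw [hsum3]; push_cast; ring
    rw [h4] at hn2
    exact hn2
  have hLpos : 0 < L := by linarith
  have hM0 : (1 : ℝ) ≤ M := by exact_mod_cast hM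
  -- error bound
  have herr : ∀ N k : ℕ, 1 ≤ k → N ≤ 3 * M + k →
      C * N * (3 * M + 1) / L ≤ k * ((η - η0) / 2) := by
    intro N k hk hN
    have hk0 : (1 : ℝ) ≤ k := by exact_mod_cast hk
    have hNr : (N : ℝ) ≤ k * (3 * M + 1) := by
      have h5 : (N : ℝ) ≤ 3 * M + k := by exact_mod_cast hN
      nlinarith
    have h6 : C * N * (3 * M + 1) ≤ C * (3 * M + 1) ^ 2 * k := by
      have h7 : C * N * (3 * M + 1) ≤ C * (k * (3 * M + 1)) * (3 * M + 1) := by
        have : 0 ≤ (3 * (M : ℝ) + 1) := by positivity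
        exact mul_le_mul_of_nonneg_right (mul_le_mul_of_nonneg_left hNr hC) this
      calc _ ≤ _ := h7
        _ = _ := by ring
    rw [div_le_iff₀ hLpos]
    have h8 : C * (3 * M + 1) ^ 2 = D * ((η - η0) / 2) := by
      rw [hD]
      field_simp
    calc C * N * (3 * M + 1) ≤ C * (3 * M + 1) ^ 2 * k := h6
      _ = D * ((η - η0) / 2) * k := by rw [h8]
      _ ≤ L * ((η - η0) / 2) * k := by
        apply mul_le_mul_of_nonneg_right _ (by positivity)
        exact mul_le_mul_of_nonneg_right hLd (by linarith)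
      _ = k * ((η - η0) / 2) * L := by ring
  constructor
  · intro k hk hk2
    obtain ⟨n, hn, hn2⟩ := hlowL (3 * M - k)
    have h9 : ∑ i, (((3 : ℝ) - n i) * (1 / 4 - η0)) ≤ ∑ i, (En (n i) b - En 3 b) :=
      Finset.sum_le_sum (fun i _ => CompMarg.site1 b a η0 hm h2 (n i))
    rw [← Finset.sum_mul, Finset.sum_sub_distrib, Finset.sum_sub_distrib, Finset.sum_const,
      Finset.sum_const, Finset.card_univ, Fintype.card_fin, nsmul_eq_mul, nsmul_eq_mul,
      ← Nat.cast_sum, hn, Nat.cast_sub hk2] at h9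
    have h10 := herr (3 * M - k) k hk (by omega)
    rw [Nat.cast_sub hk2] at hn2 h10
    push_cast at h9 hn2 h10
    have hk0 : (1 : ℝ) ≤ k := by exact_mod_cast hk
    nlinarith
  · intro k hk
    obtain ⟨n, hn, hn2⟩ := hlowL (3 * M + k)
    have h9 : ∑ i, (((3 : ℝ) - n i) * (a + η0)) ≤ ∑ i, (En (n i) b - En 3 b) :=
      Finset.sum_le_sum (fun i _ => CompMarg.site2 b a η0 hm h2 (n i))
    rw [← Finset.sum_mul, Finset.sum_sub_distrib, Finset.sum_sub_distrib, Finset.sum_const,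
      Finset.sum_const, Finset.card_univ, Fintype.card_fin, nsmul_eq_mul, nsmul_eq_mul,
      ← Nat.cast_sum, hn] at h9
    have h10 := herr (3 * M + k) k hk le_rfl
    push_cast at h9 hn2 h10
    have hk0 : (1 : ℝ) ≤ k := by exact_mod_cast hk
    nlinarith

end MolDis
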