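import Pool.Agent.Lib.MP_59f35a_mp.Stmts2

/-!
# MP_59f35a_mp : B1 (far clusters, lower bound)
-/

set_option autoImplicit false

noncomputable section

open MeasureTheory

namespace MolDis

namespace FarLower

lemma cou_nonneg (x y : E3) : 0 ≤ cou x y := by
  unfold cou; positivity

lemma sum_sub {ι : Type} [Fintype ι] (p : ι → Prop) [DecidablePred p] (f : ι → ℝ) :
    ∑ j : {j // p j}, f j.1 = ∑ j, if p j then f j else 0 := by
  rw [← Finset.sum_filter]
  exact (Finset.sum_subtype (Finset.univ.filter p) (by simp) f).symm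

lemma sum_ind_le_one {K : Type} [Fintype K] [DecidableEq K] (o : Option K) :
    ∑ k : K, (if o = some k then (1 : ℝ) else 0) ≤ 1 := by
  cases o with
  | none => simp
  | some a => simp

/-- electron-electron part -/
lemma ee_le {K ι : Type} [Fintype K] [DecidableEq K] [Fintype ι] (α : ι → Option K)
    (g : ι → ι → ℝ) (hg : ∀ i j, 0 ≤ g i j) :
    ∑ k : K, ∑ j : {j // α j = some k}, ∑ j' : {j // α j = some k}, g j.1 j'.1 ≤
      ∑ j, ∑ j', g j j' := by
  have h1 : ∀ k : K, ∑ j : {j // α j = some k}, ∑ j' : {j // α j = some k}, g j.1 j'.1 =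
      ∑ j, ∑ j', (if α j = some k then (1 : ℝ) else 0) * (if α j' = some k then (1 : ℝ) else 0)
        * g j j' := by
    intro k
    rw [sum_sub (fun j => α j = some k) (fun j => ∑ j' : {j // α j = some k}, g j j'.1)]
    refine Finset.sum_congr rfl fun j _ => ?_
    rw [sum_sub (fun j' => α j' = some k) (fun j' => g j j')]
    split_ifs with h
    · refine Finset.sum_congr rfl fun j' _ => ?_
      split_ifs <;> simp
    · simp
  simp_rw [h1]
  rw [Finset.sum_comm]
  refine Finset.sum_le_sum fun j _ => ?_
  rw [Finset.sum_comm]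
  refine Finset.sum_le_sum fun j' _ => ?_
  rw [← Finset.sum_mul]
  have h2 : ∑ k : K, (if α j = some k then (1 : ℝ) else 0) * (if α j' = some k then (1 : ℝ) else 0)
      ≤ 1 := by
    refine le_trans (Finset.sum_le_sum fun k _ => ?_) (sum_ind_le_one (α j))
    split_ifs <;> norm_num
  calc _ ≤ 1 * g j j' := mul_le_mul_of_nonneg_right h2 (hg j j')
    _ = g j j' := one_mul _

/-- nuclear part -/
lemma nn_le {K : Type} [Fintype K] {M : K → ℕ} (g : (Σ k, Fin (M k)) → (Σ k, Fin (M k)) → ℝ)
    (hg : ∀ i j, 0 ≤ g i j) :
    ∑ k : K, ∑ m : Fin (M k), ∑ m' : Fin (M k), g ⟨k, m⟩ ⟨k, m'⟩ ≤ ∑ p, ∑ q, g p q := by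
  rw [Fintype.sum_sigma]
  refine Finset.sum_le_sum fun k _ => Finset.sum_le_sum fun m _ => ?_
  rw [Fintype.sum_sigma]
  exact Finset.single_le_sum (f := fun k' => ∑ m' : Fin (M k'), g ⟨k, m⟩ ⟨k', m'⟩)
    (fun k' _ => Finset.sum_nonneg fun m' _ => hg _ _) (Finset.mem_univ k)

lemma pot_lower {K ι : Type} [Fintype K] [DecidableEq K] [Fintype ι] (M : K → ℕ)
    (Y : ∀ k, Fin (M k) → E3) (z : K → E3) (L : ℝ) (hL : 0 < L) (α : ι → Option K) (X : ι → Om)
    (hc : ∀ j k m, α j ≠ some k → cou (X j).1 (z k + Y k m) ≤ 16 / L) :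
    ∑ k, pot (fun m => z k + Y k m) (fun j : {j // α j = some k} => X j.1)
      - 16 * Fintype.card ι * ((∑ k, M k : ℕ) : ℝ) / L ≤ pot (cl z Y) X := by
  have hatt : attr (cl z Y) X ≤ ∑ k, attr (fun m => z k + Y k m)
      (fun j : {j // α j = some k} => X j.1) + 16 * Fintype.card ι * ((∑ k, M k : ℕ) : ℝ) / L := by
    have h1 : ∀ k : K, attr (fun m => z k + Y k m) (fun j : {j // α j = some k} => X j.1) =
        ∑ j, if α j = some k then ∑ m, cou (X j).1 (z k + Y k m) else 0 := by
      intro k
      unfold attr
      rw [← sum_sub (fun j => α j = some k) (fun j => ∑ m, cou (X j).1 (z k + Y k m))]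
    simp_rw [h1]
    rw [Finset.sum_comm]
    have h2 : 16 * (Fintype.card ι : ℝ) * ((∑ k, M k : ℕ) : ℝ) / L =
        ∑ _j : ι, ∑ k : K, ∑ _m : Fin (M k), 16 / L := by
      simp only [Finset.sum_const, Finset.card_univ, Fintype.card_fin, nsmul_eq_mul]
      rw [← Finset.sum_mul]
      push_cast
      ring
    rw [h2, ← Finset.sum_add_distrib]
    unfold attr
    refine Finset.sum_le_sum fun j _ => ?_
    rw [Fintype.sum_sigma, ← Finset.sum_add_distrib]
    refine Finset.sum_le_sum fun k _ => ?_
    unfold cl
    simp only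
    split_ifs with h
    · rw [← Finset.sum_add_distrib]
      refine Finset.sum_le_sum fun m _ => ?_
      have : 0 ≤ 16 / L := by positivity
      linarith
    · rw [zero_add]
      exact Finset.sum_le_sum fun m _ => hc j k m h
  have hee : ∑ k, repEE (fun j : {j // α j = some k} => X j.1) ≤ repEE X := by
    unfold repEE
    rw [← Finset.mul_sum]
    refine mul_le_mul_of_nonneg_left ?_ (by norm_num)
    exact ee_le α (fun i j => cou (X i).1 (X j).1) (fun _ _ => cou_nonneg _ _)
  have hnn : ∑ k, repNN (fun m => z k + Y k m) ≤ repNN (cl z Y) := by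
    unfold repNN
    rw [← Finset.mul_sum]
    refine mul_le_mul_of_nonneg_left ?_ (by norm_num)
    exact nn_le (M := M) (fun p q => cou (cl z Y p) (cl z Y q)) (fun _ _ => cou_nonneg _ _)
  unfold pot
  rw [Finset.sum_add_distrib, Finset.sum_add_distrib, Finset.sum_neg_distrib]
  linarith

end FarLower

open FarLower in
theorem p_far_lower (h_master : S_master) (h_ims : S_ims) (h_cut : S_cut) (h_lc : S_lc)
    (h_adm : S_adm) (h_en : S_en) (h_en2 : S_en2) : S_far_lower := by
  refine ⟨160, by norm_num, ?_⟩
  intro K _ _ _ M Y z r L hY hL hr hz N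
  obtain ⟨en_a, en_b, -, -, en_e, -⟩ := h_en
  obtain ⟨en2_a, -, -⟩ := h_en2
  have hL0 : (0 : ℝ) < L := by linarith
  obtain ⟨hPU, hin, hout, -, hg1, -, -⟩ := h_cut K (L / 4) z (by positivity)
    (fun k k' h => by have := hz k k' h; linarith)
  -- the number of electrons of a cluster
  let cnt : (Fin N → Option K) → K → ℕ := fun α k => Fintype.card {j // α j = some k}
  let Zt : ℝ := ((∑ k, M k : ℕ) : ℝ)
  let e : (Fin N → Option K) → ℝ := fun α =>
    (∑ k, En (cnt α k) (Y k)) - 160 * N * (Zt + 1) / L
  let w : ∀ (α : Fin N → Option K) (k : Option K), ({j // α j = k} → Om) → ℝ :=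
    fun α k => match k with
      | some k => fun Z => pot (fun m => z k + Y k m) Z - En (cnt α k) (Y k)
      | none => fun _ => 0
  have hmaster : ∀ ψ : (Fin N → Om) → ℝ, WF ψ →
      ∑ α : Fin N → Option K, e α * nsq (sector (cellPU (L / 4) z) α ψ) ≤ Qf (cl z Y) ψ := by
    intro ψ hψ
    refine h_master (Fin N) (Option K) (cellPU (L / 4) z) ψ Set.univ ∅ (pot (cl z Y)) e w hPU hψ
      (((h_adm (Fin N)).2.2.2.2.2.2.1 _ (cl z Y)).2.2) ?_ (fun _ _ _ => Set.mem_univ _) ?_ ?_
    · -- admissible
      intro α k
      cases k with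
      | none =>
        have h0 : AdmW (fun _ : ({j // α j = none} → Om) => (0 : ℝ)) :=
          (h_adm {j // α j = none}).1 _ ⟨measurable_const, fun R => ⟨0, fun X _ => by simp⟩⟩
        exact h0
      | some k =>
        have h1 := ((h_adm {j // α j = some k}).2.2.2.2.2.2.1 _ (fun m => z k + Y k m)).2.2
        have h2 : AdmW (fun _ : ({j // α j = some k} → Om) => -En (cnt α k) (Y k)) :=
          (h_adm {j // α j = some k}).1 _ ⟨measurable_const, fun R =>
            ⟨|-En (cnt α k) (Y k)|, fun X _ => le_refl _⟩⟩
        have h3 := (h_adm {j // α j = some k}).2.1 _ _ h1 h2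
        simpa only [w, sub_eq_add_neg] using h3
    · -- the potential
      intro α X _ _ hθ
      rw [Fintype.sum_option]
      have hw : ∑ k, w α (some k) (fun j => X j.1) =
          ∑ k, pot (fun m => z k + Y k m) (fun j : {j // α j = some k} => X j.1)
            - ∑ k, En (cnt α k) (Y k) := by
        rw [← Finset.sum_sub_distrib]
      rw [hw]
      have hw0 : w α none (fun j => X j.1) = 0 := rfl
      rw [hw0]
      have hc : ∀ j k m, α j ≠ some k → cou (X j).1 (z k + Y k m) ≤ 16 / L := by
        intro j k m hjk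
        have hdist : L / 16 ≤ ‖(X j).1 - (z k + Y k m)‖ := by
          have hYr := hY k m
          have hθj := hθ j
          cases hα : α j with
          | none =>
            rw [hα] at hθj
            have h1 := hout _ hθj k
            have h2 : ‖(X j).1 - z k‖ ≤ ‖(X j).1 - (z k + Y k m)‖ + ‖Y k m‖ := by
              have : (X j).1 - z k = ((X j).1 - (z k + Y k m)) + Y k m := by abel
              rw [this]
              exact norm_add_le _ _
            linarith
          | some k' =>
            rw [hα] at hθj hjk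
            have hk : k' ≠ k := fun h => hjk (by rw [h])
            have h1 := hin k' _ hθj
            have h2 := hz k' k hk
            have h3 : ‖z k' - z k‖ ≤ ‖(X j).1 - z k'‖ + ‖(X j).1 - (z k + Y k m)‖ + ‖Y k m‖ := by
              have : z k' - z k = -((X j).1 - z k') + ((X j).1 - (z k + Y k m)) + Y k m := by abel
              rw [this]
              refine (norm_add_le _ _).trans ?_
              gcongr
              refine (norm_add_le _ _).trans ?_
              rw [norm_neg]
            linarith
        unfold cou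
        calc ‖(X j).1 - (z k + Y k m)‖⁻¹ ≤ (L / 16)⁻¹ := inv_anti₀ (by positivity) hdist
          _ = 16 / L := by rw [inv_div]
      have hp := pot_lower M Y z L hL0 α X hc
      have hg : ∑ j, puG (cellPU (L / 4) z) (X j).1 ≤ N * (160 / L) := by
        calc ∑ j, puG (cellPU (L / 4) z) (X j).1 ≤ ∑ _j : Fin N, 160 / L := by
              refine Finset.sum_le_sum fun j _ => (hg1 _).trans ?_
              have h1 : (10 : ℝ) / (L / 4) ^ 2 = 160 / L / L := by
                field_simp
                norm_num
              rw [h1]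
              exact div_le_self (by positivity) hL
          _ = N * (160 / L) := by simp
      have he : e α = (∑ k, En (cnt α k) (Y k)) - 160 * N * (Zt + 1) / L := rfl
      rw [he]
      have h5 : (16 : ℝ) * Fintype.card (Fin N) * ((∑ k, M k : ℕ) : ℝ) / L + N * (160 / L) ≤
          160 * N * (Zt + 1) / L := by
        have hZ : (0 : ℝ) ≤ Zt := Nat.cast_nonneg _
        have hZ' : ((∑ k, M k : ℕ) : ℝ) = Zt := rfl
        rw [hZ', Fintype.card_fin]
        have : 160 * (N : ℝ) * (Zt + 1) / L - (16 * (N : ℝ) * Zt / L + N * (160 / L)) =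
            144 * (N : ℝ) * Zt / L := by ring
        have h6 : 0 ≤ 144 * (N : ℝ) * Zt / L := by positivity
        linarith
      linarith
    · -- the cells
      intro α k φ hφ _
      cases k with
      | none =>
        have hk : 0 ≤ kin φ := by
          unfold kin
          refine Finset.sum_nonneg fun j _ => ?_
          unfold kin1
          refine integral_nonneg fun X => ?_
          unfold gradSq
          positivity
        have h0 : expv (w α none) φ = 0 := by
          unfold expv
          simp [w]
        rw [h0, add_zero]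
        exact hk
      | some k =>
        have h1 := en_b {j // α j = some k} _ (fun m => z k + Y k m) φ hφ
        rw [en_e _ (Y k) _ (z k)] at h1
        have hlc := h_lc {j // α j = some k} φ hφ.toLC
        have hi1 := hlc.2.2.2.2.2.1 _
          ((h_adm {j // α j = some k}).2.2.2.2.2.2.1 _ (fun m => z k + Y k m)).2.2
        have hi2 := hlc.2.2.2.2.2.2
        have h2 : expv (w α (some k)) φ =
            expv (pot (fun m => z k + Y k m)) φ - En (cnt α k) (Y k) * nsq φ := by
          unfold expv nsq
          rw [← integral_const_mul, ← integral_sub hi1 (hi2.const_mul _)]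
          refine integral_congr_ae (Filter.Eventually.of_forall fun X => ?_)
          simp only [w]
          ring
        rw [h2]
        unfold Qf at h1
        have h3 : cnt α k = Fintype.card {j // α j = some k} := rfl
        rw [h3]
        linarith
  obtain ⟨α0, hα0⟩ := Finite.exists_min e
  have hlow : e α0 ≤ En N (cl z Y) := by
    unfold En
    refine le_csInf ?_ ?_
    · obtain ⟨⟨ψ, h1, h2⟩, -⟩ := en_a _ (cl z Y) N
      exact ⟨_, ψ, h1, h2, rfl⟩
    · rintro b ⟨ψ, hψ, hn, rfl⟩
      have h1 := hmaster ψ hψ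
      have h2 := (h_ims (Fin N) (Option K) (cellPU (L / 4) z) ψ hPU hψ.toLC).2.1
      calc e α0 = e α0 * ∑ α : Fin N → Option K, nsq (sector (cellPU (L / 4) z) α ψ) := by
            rw [← h2, hn, mul_one]
        _ = ∑ α : Fin N → Option K, e α0 * nsq (sector (cellPU (L / 4) z) α ψ) :=
            Finset.mul_sum _ _ _
        _ ≤ ∑ α : Fin N → Option K, e α * nsq (sector (cellPU (L / 4) z) α ψ) := by
            refine Finset.sum_le_sum fun α _ => mul_le_mul_of_nonneg_right (hα0 α) ?_
            unfold nsq
            exact integral_nonneg fun X => sq_nonneg _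
        _ ≤ _ := h1
  have hanti : ∀ (k : K) (a b : ℕ), En (a + b) (Y k) ≤ En a (Y k) := by
    intro k a b
    induction b with
    | zero => exact le_refl _
    | succ b ih => exact (en2_a _ (Y k) (a + b)).trans ih
  let k0 : K := Classical.arbitrary K
  refine ⟨fun k => cnt α0 k + if k = k0 then Fintype.card {j // α0 j = none} else 0, ?_, ?_⟩
  · rw [Finset.sum_add_distrib, Finset.sum_ite_eq' Finset.univ k0]
    simp only [Finset.mem_univ, if_true]
    have h1 : ∑ o : Option K, Fintype.card {j // α0 j = o} = N := by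
      rw [← Fintype.card_sigma, Fintype.card_congr (Equiv.sigmaFiberEquiv α0), Fintype.card_fin]
    rw [Fintype.sum_option] at h1
    rw [add_comm]
    exact h1
  · refine le_trans ?_ hlow
    have he : e α0 = (∑ k, En (cnt α0 k) (Y k)) - 160 * N * (Zt + 1) / L := rfl
    rw [he]
    have h2 : ∑ k, En (cnt α0 k + if k = k0 then Fintype.card {j // α0 j = none} else 0) (Y k) ≤
        ∑ k, En (cnt α0 k) (Y k) := Finset.sum_le_sum fun k _ => hanti k _ _
    have hZ' : ((∑ k, M k : ℕ) : ℝ) = Zt := rfl
    rw [hZ']
    linarith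

end MolDis
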