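import Pool.Agent.Lib.MP_59f35a_mp.Stmts3
import Pool.Agent.Lib.MP_59f35a_mp.FarLower

/-!
# MP_59f35a_mp : H2 (sectors of the composite)
-/

set_option autoImplicit false

noncomputable section

open MeasureTheory

namespace MolDis

namespace CompSec

open FarLower

lemma cou_comm (x y : E3) : cou x y = cou y x := by
  unfold cou; rw [norm_sub_rev]

/-! ### expectations -/

lemma expv_mono {ι : Type} [Fintype ι] [DecidableEq ι] (h_lc : S_lc) (ψ : (ι → Om) → ℝ)
    (hψ : LC ψ) (W W' : (ι → Om) → ℝ) (hW : AdmW W) (hW' : AdmW W')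
    (h : ∀ X, ψ X ≠ 0 → W X ≤ W' X) : expv W ψ ≤ expv W' ψ := by
  unfold expv
  refine integral_mono ((h_lc ι ψ hψ).2.2.2.2.2.1 W hW) ((h_lc ι ψ hψ).2.2.2.2.2.1 W' hW') ?_
  intro X
  by_cases h0 : ψ X = 0
  · simp [h0]
  · exact mul_le_mul_of_nonneg_right (h X h0) (sq_nonneg _)

lemma expv_add {ι : Type} [Fintype ι] [DecidableEq ι] (h_lc : S_lc) (ψ : (ι → Om) → ℝ)
    (hψ : LC ψ) (W W' : (ι → Om) → ℝ) (hW : AdmW W) (hW' : AdmW W') :
    expv (fun X => W X + W' X) ψ = expv W ψ + expv W' ψ := by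
  unfold expv
  rw [← integral_add ((h_lc ι ψ hψ).2.2.2.2.2.1 W hW) ((h_lc ι ψ hψ).2.2.2.2.2.1 W' hW')]
  refine integral_congr_ae (Filter.Eventually.of_forall fun X => ?_)
  simp only
  ring

lemma expv_const {ι : Type} [Fintype ι] (ψ : (ι → Om) → ℝ) (c : ℝ) :
    expv (fun _ => c) ψ = c * nsq ψ := by
  unfold expv nsq
  rw [← integral_const_mul]

lemma adm_const {ι : Type} [Fintype ι] [DecidableEq ι] (h_adm : S_adm) (c : ℝ) :
    AdmW (fun _ : (ι → Om) => c) :=
  (h_adm ι).1 _ ⟨measurable_const, fun _ => ⟨|c|, fun _ _ => le_refl _⟩⟩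

lemma adm_sum {ι K : Type} [Fintype ι] [DecidableEq ι] (h_adm : S_adm)
    (s : Finset K) (W : K → (ι → Om) → ℝ) (hW : ∀ k ∈ s, AdmW (W k)) :
    AdmW (fun X => ∑ k ∈ s, W k X) := by
  classical
  induction s using Finset.induction_on with
  | empty => simpa using adm_const h_adm 0
  | insert a s ha ih =>
    simp only [Finset.sum_insert ha]
    exact (h_adm ι).2.1 _ _ (hW a (Finset.mem_insert_self a s))
      (ih fun k hk => hW k (Finset.mem_insert_of_mem hk))

lemma expv_sum {ι K : Type} [Fintype ι] [DecidableEq ι] (h_lc : S_lc) (h_adm : S_adm)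
    (ψ : (ι → Om) → ℝ) (hψ : LC ψ)
    (s : Finset K) (W : K → (ι → Om) → ℝ) (hW : ∀ k ∈ s, AdmW (W k)) :
    expv (fun X => ∑ k ∈ s, W k X) ψ = ∑ k ∈ s, expv (W k) ψ := by
  classical
  induction s using Finset.induction_on with
  | empty => simp [expv]
  | insert a s ha ih =>
    simp only [Finset.sum_insert ha]
    rw [expv_add h_lc ψ hψ (W a) (fun X => ∑ k ∈ s, W k X) (hW a (Finset.mem_insert_self a s))
      (adm_sum h_adm s W fun k hk => hW k (Finset.mem_insert_of_mem hk)),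
      ih fun k hk => hW k (Finset.mem_insert_of_mem hk)]

lemma adm_restr {ι κ : Type} [Fintype ι] [DecidableEq ι] [Fintype κ] (h_adm : S_adm)
    (p : ι → Prop) [DecidablePred p] (Y : κ → E3) :
    AdmW (fun X : ι → Om => pot Y (fun j : {j // p j} => X j.1)) := by
  obtain ⟨-, h2, h3, -, h5, h6, -, -⟩ := h_adm ι
  have a1 : AdmW (fun X : ι → Om => attr Y (fun j : {j // p j} => X j.1)) := by
    unfold attr
    exact adm_sum h_adm _ (fun j : {j // p j} => fun X : ι → Om => ∑ m, cou (X j.1).1 (Y m))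
      fun j _ => adm_sum h_adm _ (fun m => fun X : ι → Om => cou (X j.1).1 (Y m))
        fun m _ => h5 j.1 (Y m)
  have a2 : AdmW (fun X : ι → Om => repEE (fun j : {j // p j} => X j.1)) := by
    unfold repEE
    refine h3 (1 / 2) _ ?_
    exact adm_sum h_adm _ (fun j : {j // p j} => fun X : ι → Om =>
        ∑ k : {j // p j}, cou (X j.1).1 (X k.1).1)
      fun j _ => adm_sum h_adm _ (fun k : {j // p j} => fun X : ι → Om => cou (X j.1).1 (X k.1).1)
        fun k _ => h6 j.1 k.1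
  have a3 : AdmW (fun _ : ι → Om => repNN Y) := adm_const h_adm _
  have a4 := h2 _ _ (h2 _ _ (h3 (-1) _ a1) a2) a3
  have : (fun X : ι → Om => pot Y (fun j : {j // p j} => X j.1)) =
      fun X => -1 * attr Y (fun j : {j // p j} => X j.1) + repEE (fun j : {j // p j} => X j.1)
        + repNN Y := by
    funext X
    unfold pot
    ring
  rw [this]
  exact a4

/-! ### sectors -/

lemma sector_anti {ι K : Type} [Fintype ι] [DecidableEq ι] (θ : K → E3 → ℝ) (α : ι → K)
    (ψ : (ι → Om) → ℝ) (hψ : Anti ψ) (k : K) (σ : Equiv.Perm ι)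
    (hσ : ∀ j, ¬ (α j = k) → σ j = j) (X : ι → Om) :
    sector θ α ψ (X ∘ σ) = ((Equiv.Perm.sign σ : ℤ) : ℝ) * sector θ α ψ X := by
  have h1 : ∀ j, α (σ j) = α j := by
    intro j
    by_cases hj : α j = k
    · by_contra hne
      have h2 : ¬ (α (σ j) = k) := fun h => hne (h.trans hj.symm)
      have h3 := hσ _ h2
      have h4 := σ.injective h3
      rw [h4] at h2
      exact h2 hj
    · rw [hσ j hj]
  unfold sector
  have h2 : ∏ j, θ (α j) ((X ∘ σ) j).1 = ∏ j, θ (α j) (X j).1 := by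
    rw [← Equiv.prod_comp σ (fun j => θ (α j) (X j).1)]
    refine Finset.prod_congr rfl fun j _ => ?_
    rw [h1 j]
    rfl
  rw [h2, hψ σ X]
  ring

lemma kin1_nonneg {ι : Type} [Fintype ι] [DecidableEq ι] (j : ι) (ψ : (ι → Om) → ℝ) :
    0 ≤ kin1 j ψ := by
  unfold kin1
  refine integral_nonneg fun X => ?_
  unfold gradSq
  positivity

lemma nsq_nonneg {ι : Type} [Fintype ι] (ψ : (ι → Om) → ℝ) : 0 ≤ nsq ψ := by
  unfold nsq
  exact integral_nonneg fun X => sq_nonneg _

lemma restr_glue {ι : Type} (p : ι → Prop) [DecidablePred p] (Z : {j // p j} → Om)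
    (X : ι → Om) : (fun j : {j // p j} => glue p Z X j.1) = Z := by
  funext j
  unfold glue
  rw [dif_pos j.2]

/-- lower bound of a sector -/
lemma sector_low (h_slice : S_slice) (h_lc : S_lc) (h_adm : S_adm) (h_en : S_en)
    {K ι : Type} [Fintype K] [DecidableEq K] [Fintype ι] [DecidableEq ι] (M : K → ℕ)
    (Y : ∀ k, Fin (M k) → E3) (z : K → E3) (θ : Option K → E3 → ℝ) (α : ι → Option K)
    (ψ : (ι → Om) → ℝ) (hψ : Anti ψ) (hs : LC (sector θ α ψ)) :
    (∑ k, En (Fintype.card {j // α j = some k}) (Y k)) * nsq (sector θ α ψ) ≤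
      kin (sector θ α ψ) + expv (fun X => ∑ k, pot (fun m => z k + Y k m)
        (fun j : {j // α j = some k} => X j.1)) (sector θ α ψ) := by
  obtain ⟨-, en_b, -, -, en_e, -⟩ := h_en
  set Φ := sector θ α ψ with hΦ
  have hk : ∀ k : K, En (Fintype.card {j // α j = some k}) (Y k) * nsq Φ ≤
      (∑ j ∈ Finset.univ.filter (fun j => α j = some k), kin1 j Φ) +
        expv (fun X => pot (fun m => z k + Y k m) (fun j : {j // α j = some k} => X j.1)) Φ := by
    intro k
    have hA := adm_restr h_adm (fun j => α j = some k) (fun m => z k + Y k m)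
    have hB := adm_const (ι := ι) h_adm (-En (Fintype.card {j // α j = some k}) (Y k))
    have h1 := h_slice ι (fun j => α j = some k) Φ Set.univ
      (fun X => pot (fun m => z k + Y k m) (fun j : {j // α j = some k} => X j.1)
        + -En (Fintype.card {j // α j = some k}) (Y k)) hs ((h_adm ι).2.1 _ _ hA hB)
      (fun σ hσ X => sector_anti θ α ψ hψ (some k) σ hσ X) (fun _ _ => Set.mem_univ _) ?_
    · rw [expv_add h_lc Φ hs _ _ hA hB, expv_const] at h1
      linarith
    · intro X0 _ φ hφ _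
      have h2 := en_b {j // α j = some k} _ (fun m => z k + Y k m) φ hφ
      rw [en_e _ (Y k) _ (z k)] at h2
      have h3 : (fun Z => pot (fun m => z k + Y k m)
          (fun j : {j // α j = some k} => glue (fun j => α j = some k) Z X0 j.1)
            + -En (Fintype.card {j // α j = some k}) (Y k)) =
          fun Z => pot (fun m => z k + Y k m) Z
            + -En (Fintype.card {j // α j = some k}) (Y k) := by
        funext Z
        rw [restr_glue]
      rw [h3]
      rw [expv_add h_lc φ hφ.toLC _ _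
        ((h_adm {j // α j = some k}).2.2.2.2.2.2.1 _ (fun m => z k + Y k m)).2.2
        (adm_const h_adm _), expv_const]
      unfold Qf at h2
      linarith
  have hkin : kin Φ = (∑ j ∈ Finset.univ.filter (fun j => α j = none), kin1 j Φ) +
      ∑ k : K, ∑ j ∈ Finset.univ.filter (fun j => α j = some k), kin1 j Φ := by
    unfold kin
    rw [← Finset.sum_fiberwise Finset.univ α (fun j => kin1 j Φ), Fintype.sum_option]
  have h0 : 0 ≤ ∑ j ∈ Finset.univ.filter (fun j => α j = none), kin1 j Φ :=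
    Finset.sum_nonneg fun j _ => kin1_nonneg j Φ
  have hex : expv (fun X => ∑ k, pot (fun m => z k + Y k m)
      (fun j : {j // α j = some k} => X j.1)) Φ =
      ∑ k, expv (fun X => pot (fun m => z k + Y k m)
        (fun j : {j // α j = some k} => X j.1)) Φ :=
    expv_sum h_lc h_adm Φ hs Finset.univ (fun k X => pot (fun m => z k + Y k m)
      (fun j : {j // α j = some k} => X j.1)) fun k _ =>
        adm_restr h_adm (fun j => α j = some k) (fun m => z k + Y k m)
  rw [hex, hkin, Finset.sum_mul]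
  have := Finset.sum_le_sum (s := Finset.univ) fun k (_ : k ∈ Finset.univ) => hk k
  rw [Finset.sum_add_distrib] at this
  linarith

/-! ### interaction of the copies -/

lemma sum_part {K ι : Type} [Fintype K] [DecidableEq K] [Fintype ι] (α : ι → Option K)
    (hα : ∀ j, α j ≠ none) (f : ι → ℝ) :
    ∑ j, f j = ∑ k : K, ∑ j : {j // α j = some k}, f j.1 := by
  have h1 : ∀ k : K, ∑ j : {j // α j = some k}, f j.1 = ∑ j, if α j = some k then f j else 0 :=
    fun k => sum_sub (fun j => α j = some k) f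
  simp_rw [h1]
  rw [Finset.sum_comm]
  refine Finset.sum_congr rfl fun j _ => ?_
  obtain ⟨k, hk⟩ := Option.ne_none_iff_exists'.1 (hα j)
  simp [hk]

/-- interaction of two groups -/
def DD {M M' : ℕ} {ι ι' : Type} [Fintype ι] [Fintype ι'] (Y : Fin M → E3) (z : E3) (X : ι → Om)
    (Y' : Fin M' → E3) (z' : E3) (X' : ι' → Om) : ℝ :=
  ∑ a : Fin M ⊕ ι, ∑ b : Fin M' ⊕ ι', bq a * bq b * cou (bpos Y z X a) (bpos Y' z' X' b)

lemma DD_eq {M M' : ℕ} {ι ι' : Type} [Fintype ι] [Fintype ι'] (Y : Fin M → E3) (z : E3)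
    (X : ι → Om) (Y' : Fin M' → E3) (z' : E3) (X' : ι' → Om) :
    DD Y z X Y' z' X' = (∑ m, ∑ m', cou (z + Y m) (z' + Y' m'))
      - (∑ m, ∑ j', cou (z + Y m) (X' j').1) - (∑ j, ∑ m', cou (X j).1 (z' + Y' m'))
      + ∑ j, ∑ j', cou (X j).1 (X' j').1 := by
  unfold DD
  simp only [Fintype.sum_sum_type, bq, bpos, Sum.elim_inl, Sum.elim_inr, Finset.sum_add_distrib]
  simp only [one_mul, mul_one, neg_mul, mul_neg, neg_neg, Finset.sum_neg_distrib]
  ring

lemma DD_self {M : ℕ} {ι : Type} [Fintype ι] (Y : Fin M → E3) (z : E3) (X : ι → Om) :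
    DD Y z X Y z X = 2 * pot (fun m => z + Y m) X := by
  rw [DD_eq]
  unfold pot attr repEE repNN
  have h1 : ∑ m, ∑ j', cou (z + Y m) (X j').1 = ∑ j, ∑ m, cou (X j).1 (z + Y m) := by
    rw [Finset.sum_comm]
    exact Finset.sum_congr rfl fun j _ => Finset.sum_congr rfl fun m _ => cou_comm _ _
  rw [h1]
  ring

lemma pot_split {K ι : Type} [Fintype K] [DecidableEq K] [Fintype ι] (M : K → ℕ)
    (Y : ∀ k, Fin (M k) → E3) (z : K → E3) (α : ι → Option K) (hα : ∀ j, α j ≠ none)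
    (X : ι → Om) :
    pot (cl z Y) X = ∑ k, pot (fun m => z k + Y k m) (fun j : {j // α j = some k} => X j.1)
      + (1 / 2) * ∑ k, ∑ k', if k = k' then 0 else
        DD (Y k) (z k) (fun j : {j // α j = some k} => X j.1)
          (Y k') (z k') (fun j : {j // α j = some k'} => X j.1) := by
  have e1 : attr (cl z Y) X = ∑ k, ∑ k', ∑ j : {j // α j = some k}, ∑ m,
      cou (X j.1).1 (z k' + Y k' m) := by
    unfold attr
    rw [sum_part α hα]
    refine Finset.sum_congr rfl fun k _ => ?_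
    symm
    rw [Finset.sum_comm]
    refine Finset.sum_congr rfl fun j _ => ?_
    rw [Fintype.sum_sigma]
    rfl
  have e1' : attr (cl z Y) X = ∑ k, ∑ k', ∑ m, ∑ j : {j // α j = some k'},
      cou (z k + Y k m) (X j.1).1 := by
    rw [e1, Finset.sum_comm]
    refine Finset.sum_congr rfl fun k _ => ?_
    refine Finset.sum_congr rfl fun k' _ => ?_
    rw [Finset.sum_comm]
    refine Finset.sum_congr rfl fun j _ => ?_
    exact Finset.sum_congr rfl fun m _ => cou_comm _ _
  have e2 : ∑ j, ∑ j', cou (X j).1 (X j').1 = ∑ k, ∑ k', ∑ j : {j // α j = some k},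
      ∑ j' : {j // α j = some k'}, cou (X j.1).1 (X j'.1).1 := by
    rw [sum_part α hα]
    refine Finset.sum_congr rfl fun k _ => ?_
    symm
    rw [Finset.sum_comm]
    refine Finset.sum_congr rfl fun j _ => ?_
    exact (sum_part α hα (fun j' => cou (X j.1).1 (X j').1)).symm
  have e3 : ∑ l, ∑ m, cou (cl z Y l) (cl z Y m) = ∑ k, ∑ k', ∑ m, ∑ m',
      cou (z k + Y k m) (z k' + Y k' m') := by
    rw [Fintype.sum_sigma]
    refine Finset.sum_congr rfl fun k _ => ?_
    symm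
    rw [Finset.sum_comm]
    refine Finset.sum_congr rfl fun m _ => ?_
    rw [Fintype.sum_sigma]
    rfl
  have e4 : ∑ k, ∑ k', DD (Y k) (z k) (fun j : {j // α j = some k} => X j.1)
          (Y k') (z k') (fun j : {j // α j = some k'} => X j.1) = 2 * pot (cl z Y) X := by
    simp only [DD_eq, Finset.sum_add_distrib, Finset.sum_sub_distrib]
    rw [← e1, ← e1', ← e2, ← e3]
    unfold pot repEE repNN
    ring
  have e5 : ∑ k, ∑ k', DD (Y k) (z k) (fun j : {j // α j = some k} => X j.1)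
          (Y k') (z k') (fun j : {j // α j = some k'} => X j.1) =
      ∑ k, 2 * pot (fun m => z k + Y k m) (fun j : {j // α j = some k} => X j.1)
      + ∑ k, ∑ k', if k = k' then 0 else
        DD (Y k) (z k) (fun j : {j // α j = some k} => X j.1)
          (Y k') (z k') (fun j : {j // α j = some k'} => X j.1) := by
    rw [← Finset.sum_add_distrib]
    refine Finset.sum_congr rfl fun k _ => ?_
    rw [← DD_self]
    rw [← Finset.add_sum_erase Finset.univ _ (Finset.mem_univ k)]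
    congr 1
    rw [← Finset.add_sum_erase Finset.univ (fun k' => if k = k' then 0 else
        DD (Y k) (z k) (fun j : {j // α j = some k} => X j.1)
          (Y k') (z k') (fun j : {j // α j = some k'} => X j.1)) (Finset.mem_univ k)]
    rw [if_pos rfl, zero_add]
    refine Finset.sum_congr rfl fun k' hk' => ?_
    rw [if_neg (Finset.ne_of_mem_erase hk').symm]
  rw [← Finset.mul_sum] at e5
  linarith

lemma Tvec_norm (w a : E3) (hw : w ≠ 0) : ‖Tvec w a‖ ≤ 4 * ‖a‖ / ‖w‖ ^ 3 := by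
  have hw0 : 0 < ‖w‖ := norm_pos_iff.2 hw
  unfold Tvec
  rw [norm_smul, Real.norm_of_nonneg (by positivity)]
  have h1 : ‖a - (3 * inner ℝ a w / ‖w‖ ^ 2) • w‖ ≤ 4 * ‖a‖ := by
    refine (norm_sub_le _ _).trans ?_
    rw [norm_smul, Real.norm_eq_abs, abs_div, abs_mul, abs_of_pos (by norm_num : (0 : ℝ) < 3),
      abs_of_pos (by positivity : 0 < ‖w‖ ^ 2)]
    have h2 := abs_real_inner_le_norm a w
    have h3 : 3 * |inner ℝ a w| / ‖w‖ ^ 2 * ‖w‖ ≤ 3 * (‖a‖ * ‖w‖) / ‖w‖ ^ 2 * ‖w‖ := by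
      gcongr
    have h4 : 3 * (‖a‖ * ‖w‖) / ‖w‖ ^ 2 * ‖w‖ = 3 * ‖a‖ := by
      field_simp
    linarith
  calc 1 / ‖w‖ ^ 3 * ‖a - (3 * inner ℝ a w / ‖w‖ ^ 2) • w‖ ≤ 1 / ‖w‖ ^ 3 * (4 * ‖a‖) :=
        mul_le_mul_of_nonneg_left h1 (by positivity)
    _ = 4 * ‖a‖ / ‖w‖ ^ 3 := by ring

lemma inner_Tvec_le (w a c : E3) (L A : ℝ) (hL : 0 < L) (hw : L ≤ ‖w‖) (ha : ‖a‖ ≤ A)
    (hc : ‖c‖ ≤ A) : |inner ℝ (Tvec w a) c| ≤ 4 * A ^ 2 / L ^ 3 := by
  have hw0 : 0 < ‖w‖ := lt_of_lt_of_le hL hw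
  have hA : 0 ≤ A := le_trans (norm_nonneg _) ha
  refine (abs_real_inner_le_norm _ _).trans ?_
  calc ‖Tvec w a‖ * ‖c‖ ≤ (4 * ‖a‖ / ‖w‖ ^ 3) * ‖c‖ :=
        mul_le_mul_of_nonneg_right (Tvec_norm w a (norm_pos_iff.1 hw0)) (norm_nonneg _)
    _ ≤ (4 * A / L ^ 3) * A := by gcongr
    _ = 4 * A ^ 2 / L ^ 3 := by ring

lemma num_bound {C t L w S0 S1 A1 A2 B1 B2 : ℝ} (hC : 1 ≤ C) (ht : 0 < t) (hL : 4 * t ≤ L)
    (hw : L ≤ w) (a5 : A1 ≤ 6 * t) (a5' : 0 ≤ A1) (a6 : A2 ≤ 6 * t ^ 2) (a6' : 0 ≤ A2)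
    (b5 : B1 ≤ 6 * t) (b5' : 0 ≤ B1) (b6 : B2 ≤ 6 * t ^ 2) (b6' : 0 ≤ B2)
    (key : |S0 - S1| ≤ C / w ^ 4 * (A1 * B2 + A2 * B1))
    (hT : |S1| ≤ 4 * (6 * t) ^ 2 / L ^ 3) :
    |S0| ≤ (144 + 432 * C) * t ^ 2 / L ^ 3 := by
  have hL0 : 0 < L := by linarith
  have hw0 : 0 < w := by linarith
  have h1 : A1 * B2 + A2 * B1 ≤ (6 * t) * (6 * t ^ 2) + (6 * t ^ 2) * (6 * t) := by
    gcongr
  have h2 : C / w ^ 4 ≤ C / L ^ 4 := by gcongr
  have hE : C / w ^ 4 * (A1 * B2 + A2 * B1) ≤ 432 * C * t ^ 2 / L ^ 3 := by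
    calc _ ≤ C / L ^ 4 * ((6 * t) * (6 * t ^ 2) + (6 * t ^ 2) * (6 * t)) :=
          mul_le_mul h2 h1 (by positivity) (by positivity)
      _ = 72 * C * t ^ 2 / L ^ 3 * (t / L) := by
          field_simp
          ring
      _ ≤ 72 * C * t ^ 2 / L ^ 3 * 1 := by
          refine mul_le_mul_of_nonneg_left ?_ (by positivity)
          rw [div_le_one hL0]
          linarith
      _ ≤ 432 * C * t ^ 2 / L ^ 3 := by
          rw [mul_one]
          gcongr
          norm_num
  have h4 := abs_sub_abs_le_abs_sub S0 S1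
  calc |S0| ≤ 4 * (6 * t) ^ 2 / L ^ 3 + 432 * C * t ^ 2 / L ^ 3 := by linarith
    _ = (144 + 432 * C) * t ^ 2 / L ^ 3 := by ring

/-- neutral - neutral interaction -/
lemma DD_bound {C : ℝ} (hC : 1 ≤ C) (h_mult : ∀ (n n' : Type) [Fintype n] [Fintype n'] (q : n → ℝ)
    (q' : n' → ℝ) (x : n → E3) (x' : n' → E3) (z z' : E3), z ≠ z' →
    (∀ i, ‖x i - z‖ ≤ ‖z - z'‖ / 4) → (∀ i, ‖x' i - z'‖ ≤ ‖z - z'‖ / 4) →
    (∑ i, q i = 0 → ∑ i, q' i = 0 →
      |(∑ i, ∑ j, q i * q' j * cou (x i) (x' j))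
        - inner ℝ (Tvec (z - z') (∑ i, q i • (x i - z))) (∑ i, q' i • (x' i - z'))|
      ≤ C / ‖z - z'‖ ^ 4 *
        ((∑ i, |q i| * ‖x i - z‖) * (∑ i, |q' i| * ‖x' i - z'‖ ^ 2)
        + (∑ i, |q i| * ‖x i - z‖ ^ 2) * (∑ i, |q' i| * ‖x' i - z'‖))))
    {ι ι' : Type} [Fintype ι] [Fintype ι'] (hι : Fintype.card ι = 3) (hι' : Fintype.card ι' = 3)
    (Y Y' : Fin 3 → E3) (z z' : E3) (X : ι → Om) (X' : ι' → Om) (t L : ℝ) (ht : 0 < t)
    (hL : 4 * t ≤ L) (hz : L ≤ ‖z - z'‖) (hY : ∀ m, ‖Y m‖ ≤ t) (hY' : ∀ m, ‖Y' m‖ ≤ t)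
    (hX : ∀ j, ‖(X j).1 - z‖ ≤ t) (hX' : ∀ j, ‖(X' j).1 - z'‖ ≤ t) :
    |DD Y z X Y' z' X'| ≤ (144 + 432 * C) * t ^ 2 / L ^ 3 := by
  have hL0 : 0 < L := by linarith
  have hzz : z ≠ z' := by
    rintro rfl
    simp at hz
    linarith
  have gen : ∀ {κ : Type} [Fintype κ] (_ : Fintype.card κ = 3) (V : Fin 3 → E3) (y : E3)
      (U : κ → Om), (∀ m, ‖V m‖ ≤ t) → (∀ j, ‖(U j).1 - y‖ ≤ t) →
      (∀ a : Fin 3 ⊕ κ, ‖bpos V y U a - y‖ ≤ t) ∧ (∑ a : Fin 3 ⊕ κ, bq a = (0 : ℝ)) ∧
      (∀ a : Fin 3 ⊕ κ, |bq a| = 1) ∧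
      ‖∑ a : Fin 3 ⊕ κ, bq a • (bpos V y U a - y)‖ ≤ 6 * t ∧
      (∑ a : Fin 3 ⊕ κ, |bq a| * ‖bpos V y U a - y‖ ≤ 6 * t) ∧
      (0 ≤ ∑ a : Fin 3 ⊕ κ, |bq a| * ‖bpos V y U a - y‖) ∧
      (∑ a : Fin 3 ⊕ κ, |bq a| * ‖bpos V y U a - y‖ ^ 2 ≤ 6 * t ^ 2) ∧
      (0 ≤ ∑ a : Fin 3 ⊕ κ, |bq a| * ‖bpos V y U a - y‖ ^ 2) := by
    intro κ _ hκ V y U hV hU
    have h1 : ∀ a : Fin 3 ⊕ κ, ‖bpos V y U a - y‖ ≤ t := by
      rintro (m | j)
      · simpa [bpos] using hV m
      · simpa [bpos] using hU j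
    have h2 : ∀ a : Fin 3 ⊕ κ, |bq a| = 1 := by
      rintro (m | j) <;> simp [bq]
    have hcard : Fintype.card (Fin 3 ⊕ κ) = 6 := by simp [hκ]
    have h3 : ∑ a : Fin 3 ⊕ κ, |bq a| * ‖bpos V y U a - y‖ ≤ 6 * t := by
      calc ∑ a : Fin 3 ⊕ κ, |bq a| * ‖bpos V y U a - y‖ ≤ ∑ _a : Fin 3 ⊕ κ, t := by
            refine Finset.sum_le_sum fun a _ => ?_
            rw [h2 a, one_mul]
            exact h1 a
        _ = 6 * t := by rw [Finset.sum_const, Finset.card_univ, hcard]; simp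
    have h4 : ∑ a : Fin 3 ⊕ κ, |bq a| * ‖bpos V y U a - y‖ ^ 2 ≤ 6 * t ^ 2 := by
      calc ∑ a : Fin 3 ⊕ κ, |bq a| * ‖bpos V y U a - y‖ ^ 2 ≤ ∑ _a : Fin 3 ⊕ κ, t ^ 2 := by
            refine Finset.sum_le_sum fun a _ => ?_
            rw [h2 a, one_mul]
            exact pow_le_pow_left₀ (norm_nonneg _) (h1 a) 2
        _ = 6 * t ^ 2 := by rw [Finset.sum_const, Finset.card_univ, hcard]; simp
    refine ⟨h1, ?_, h2, ?_, h3, Finset.sum_nonneg fun a _ => by positivity, h4,
      Finset.sum_nonneg fun a _ => by positivity⟩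
    · simp [bq, Fintype.sum_sum_type, hκ]
    · refine (norm_sum_le _ _).trans (le_trans (le_of_eq ?_) h3)
      refine Finset.sum_congr rfl fun a _ => ?_
      rw [norm_smul, Real.norm_eq_abs]
  obtain ⟨a1, a2, -, a4, a5, a5', a6, a6'⟩ := gen hι Y z X hY hX
  obtain ⟨b1, b2, -, b4, b5, b5', b6, b6'⟩ := gen hι' Y' z' X' hY' hX'
  have hq : t ≤ ‖z - z'‖ / 4 := by linarith
  have key := h_mult (Fin 3 ⊕ ι) (Fin 3 ⊕ ι') bq bq (bpos Y z X) (bpos Y' z' X') z z' hzz
    (fun a => (a1 a).trans hq) (fun a => (b1 a).trans hq) a2 b2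
  have hT := inner_Tvec_le (z - z') _ _ L (6 * t) hL0 hz a4 b4
  unfold DD
  generalize (∑ a : Fin 3 ⊕ ι, ∑ b : Fin 3 ⊕ ι', bq a * bq b *
    cou (bpos Y z X a) (bpos Y' z' X' b)) = S0 at key ⊢
  generalize (inner ℝ (Tvec (z - z') (∑ a : Fin 3 ⊕ ι, bq a • (bpos Y z X a - z)))
    (∑ a : Fin 3 ⊕ ι', bq a • (bpos Y' z' X' a - z'))) = S1 at key hT
  generalize (∑ a : Fin 3 ⊕ ι, |bq a| * ‖bpos Y z X a - z‖) = A1 at key a5 a5'
  generalize (∑ a : Fin 3 ⊕ ι, |bq a| * ‖bpos Y z X a - z‖ ^ 2) = A2 at key a6 a6'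
  generalize (∑ a : Fin 3 ⊕ ι', |bq a| * ‖bpos Y' z' X' a - z'‖) = B1 at key b5 b5'
  generalize (∑ a : Fin 3 ⊕ ι', |bq a| * ‖bpos Y' z' X' a - z'‖ ^ 2) = B2 at key b6 b6'
  generalize ‖z - z'‖ = w at key hz
  exact num_bound hC ht hL hz a5 a5' a6 a6' b5 b5' b6 b6' key hT

/-- good sectors: the potential -/
lemma good_pot {C : ℝ} (hC : 1 ≤ C) (h_mult : ∀ (n n' : Type) [Fintype n] [Fintype n'] (q : n → ℝ)
    (q' : n' → ℝ) (x : n → E3) (x' : n' → E3) (z z' : E3), z ≠ z' →
    (∀ i, ‖x i - z‖ ≤ ‖z - z'‖ / 4) → (∀ i, ‖x' i - z'‖ ≤ ‖z - z'‖ / 4) →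
    (∑ i, q i = 0 → ∑ i, q' i = 0 →
      |(∑ i, ∑ j, q i * q' j * cou (x i) (x' j))
        - inner ℝ (Tvec (z - z') (∑ i, q i • (x i - z))) (∑ i, q' i • (x' i - z'))|
      ≤ C / ‖z - z'‖ ^ 4 *
        ((∑ i, |q i| * ‖x i - z‖) * (∑ i, |q' i| * ‖x' i - z'‖ ^ 2)
        + (∑ i, |q i| * ‖x i - z‖ ^ 2) * (∑ i, |q' i| * ‖x' i - z'‖))))
    {ι : Type} [Fintype ι] [DecidableEq ι] (b : Fin 3 → E3) (M : ℕ) (L t : ℝ) (ht : 0 < t)
    (hL : 4 * t ≤ L) (hb : ∀ m, ‖b m‖ ≤ t)
    (hz : ∀ i i' : Fin M, i ≠ i' → L ≤ ‖cz M L i - cz M L i'‖)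
    (α : ι → Option (Fin M)) (hα : goodA α) (hn : ∀ j, α j ≠ none) (X : ι → Om)
    (hX : ∀ j i, α j = some i → ‖(X j).1 - cz M L i‖ ≤ t) :
    clPot b M L α X - (72 + 216 * C) * M ^ 2 * (t ^ 2 / L ^ 3) ≤ pot (cY b M L) X := by
  have hL0 : 0 < L := by linarith
  have h1 := pot_split (fun _ : Fin M => 3) (fun _ => b) (cz M L) α hn X
  have h2 : ∀ k k' : Fin M, -((144 + 432 * C) * t ^ 2 / L ^ 3) ≤ (if k = k' then 0 else
        DD b (cz M L k) (fun j : {j // α j = some k} => X j.1)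
          b (cz M L k') (fun j : {j // α j = some k'} => X j.1)) := by
    intro k k'
    split_ifs with h
    · rw [neg_nonpos]
      positivity
    · have := DD_bound hC h_mult (hα k) (hα k') b b (cz M L k) (cz M L k')
        (fun j : {j // α j = some k} => X j.1) (fun j : {j // α j = some k'} => X j.1) t L ht hL
        (hz k k' h) hb hb (fun j => hX j.1 k j.2) (fun j => hX j.1 k' j.2)
      exact (abs_le.1 this).1
  have h3 : -((144 + 432 * C) * t ^ 2 / L ^ 3) * M ^ 2 ≤ ∑ k : Fin M, ∑ k' : Fin M,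
      (if k = k' then 0 else
        DD b (cz M L k) (fun j : {j // α j = some k} => X j.1)
          b (cz M L k') (fun j : {j // α j = some k'} => X j.1)) := by
    calc -((144 + 432 * C) * t ^ 2 / L ^ 3) * M ^ 2
        = ∑ k : Fin M, ∑ k' : Fin M, -((144 + 432 * C) * t ^ 2 / L ^ 3) := by
          simp only [Finset.sum_const, Finset.card_univ, Fintype.card_fin, nsmul_eq_mul]
          ring
      _ ≤ _ := Finset.sum_le_sum fun k _ => Finset.sum_le_sum fun k' _ => h2 k k'
  have h4 : cY b M L = cl (cz M L) (fun _ => b) := rfl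
  rw [h4, h1]
  unfold clPot
  have h5 : (72 + 216 * C) * M ^ 2 * (t ^ 2 / L ^ 3) =
      1 / 2 * (((144 + 432 * C) * t ^ 2 / L ^ 3) * M ^ 2) := by ring
  rw [h5]
  linarith

lemma cz_dist (M : ℕ) (L : ℝ) (hL : 0 < L) (i i' : Fin M) (h : i ≠ i') :
    L ≤ ‖cz M L i - cz M L i'‖ := by
  unfold cz
  have h1 : EuclideanSpace.single (0 : Fin 3) (((i : ℕ) : ℝ) * L)
      - EuclideanSpace.single (0 : Fin 3) (((i' : ℕ) : ℝ) * L) =
      EuclideanSpace.single (0 : Fin 3) ((((i : ℕ) : ℝ) - ((i' : ℕ) : ℝ)) * L) := by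
    ext j
    fin_cases j <;> simp [sub_mul]
  rw [h1, PiLp.norm_single, Real.norm_eq_abs, abs_mul, abs_of_pos hL]
  have h2 : (1 : ℝ) ≤ |((i : ℕ) : ℝ) - ((i' : ℕ) : ℝ)| := by
    have h3 : ((i : ℕ) : ℤ) - ((i' : ℕ) : ℤ) ≠ 0 := by
      intro h0
      apply h
      ext
      omega
    have h4 : (1 : ℤ) ≤ |((i : ℕ) : ℤ) - ((i' : ℕ) : ℤ)| := Int.one_le_abs h3
    exact_mod_cast h4
  nlinarith

/-- slopes of a family of copies -/
lemma slopes {M : ℕ} (b : Fin 3 → E3) (a η g0 : ℝ) (ha : 0 ≤ a) (hm : Marg b a η) (hη : 0 < η)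
    (hg : 0 < g0) (hg0 : g0 ≤ 1 / 4 - a - 2 * η) (n : Fin M → ℕ) (hn : ∑ i, n i ≤ 3 * M)
    (hbad : ∃ i, n i ≠ 3) : M * En 3 b + g0 ≤ ∑ i, En (n i) b := by
  obtain ⟨m1, m2⟩ := hm
  have h1 : ∀ i, En 3 b + ((3 - n i : ℕ) : ℝ) * (1 / 4 - η) - ((n i - 3 : ℕ) : ℝ) * (a + η)
      ≤ En (n i) b := by
    intro i
    rcases lt_trichotomy (n i) 3 with h | h | h
    · have h2 := m1 (3 - n i) (by omega) (by omega)
      have h3 : 3 - (3 - n i) = n i := by omega
      rw [h3] at h2
      have h4 : n i - 3 = 0 := by omega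
      rw [h4]
      push_cast
      linarith
    · rw [h]
      simp
    · have h2 := m2 (n i - 3) (by omega)
      have h3 : 3 + (n i - 3) = n i := by omega
      rw [h3] at h2
      have h4 : 3 - n i = 0 := by omega
      rw [h4]
      push_cast
      linarith
  set D : ℕ := ∑ i, (3 - n i) with hD
  set E : ℕ := ∑ i, (n i - 3) with hE
  have h2 : ∑ i, (En 3 b + ((3 - n i : ℕ) : ℝ) * (1 / 4 - η) - ((n i - 3 : ℕ) : ℝ) * (a + η))
      = M * En 3 b + D * (1 / 4 - η) - E * (a + η) := by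
    rw [Finset.sum_sub_distrib, Finset.sum_add_distrib, ← Finset.sum_mul, ← Finset.sum_mul, hD, hE]
    push_cast
    simp
  have h3 : E ≤ D := by
    have h4 : ∑ i, n i + D = 3 * M + E := by
      rw [hD, hE, ← Finset.sum_add_distrib]
      have h5 : 3 * M = ∑ _i : Fin M, 3 := by simp [mul_comm]
      rw [h5, ← Finset.sum_add_distrib]
      refine Finset.sum_congr rfl fun i _ => ?_
      omega
    omega
  have h4 : 1 ≤ D := by
    by_contra h0
    have h5 : D = 0 := by omega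
    have h6 : E = 0 := by omega
    obtain ⟨i, hi⟩ := hbad
    have h7 := (Finset.sum_eq_zero_iff.1 (hD.symm.trans h5)) i (Finset.mem_univ i)
    have h8 := (Finset.sum_eq_zero_iff.1 (hE.symm.trans h6)) i (Finset.mem_univ i)
    omega
  have h5 : M * En 3 b + D * (1 / 4 - η) - E * (a + η) ≤ ∑ i, En (n i) b := by
    rw [← h2]
    exact Finset.sum_le_sum fun i _ => h1 i
  have h3' : (E : ℝ) ≤ D := by exact_mod_cast h3
  have h4' : (1 : ℝ) ≤ D := by exact_mod_cast h4
  have h6 : (E : ℝ) * (a + η) ≤ D * (a + η) := mul_le_mul_of_nonneg_right h3' (by linarith)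
  have h7 : g0 ≤ D * (1 / 4 - η - (a + η)) := by
    have h8 : g0 ≤ 1 / 4 - η - (a + η) := by linarith
    calc g0 ≤ 1 * (1 / 4 - η - (a + η)) := by linarith
      _ ≤ D * (1 / 4 - η - (a + η)) := mul_le_mul_of_nonneg_right h4' (by linarith)
  linarith

/-- number of far electrons -/
def Ft {ι : Type} [Fintype ι] (M : ℕ) (L t : ℝ) (X : ι → Om) : ℝ :=
  ∑ j, if ∀ i : Fin M, t ≤ ‖(X j).1 - cz M L i‖ then (1 : ℝ) else 0

lemma Ft_adm {ι : Type} [Fintype ι] [DecidableEq ι] (h_adm : S_adm) (M : ℕ) (L t : ℝ) :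
    AdmW (Ft (ι := ι) M L t) := by
  refine (h_adm ι).1 _ ⟨?_, fun R => ⟨Fintype.card ι, fun X _ => ?_⟩⟩
  · unfold Ft
    refine Finset.measurable_sum _ fun j _ => ?_
    refine Measurable.ite ?_ measurable_const measurable_const
    have : {X : ι → Om | ∀ i : Fin M, t ≤ ‖(X j).1 - cz M L i‖} =
        ⋂ i : Fin M, {X : ι → Om | t ≤ ‖(X j).1 - cz M L i‖} := by
      ext X
      simp
    rw [this]
    refine MeasurableSet.iInter fun i => ?_
    refine measurableSet_le measurable_const ?_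
    exact (((measurable_pi_apply j).fst).sub_const _).norm
  · unfold Ft
    rw [abs_of_nonneg (Finset.sum_nonneg fun j _ => by split_ifs <;> norm_num)]
    calc ∑ j, (if ∀ i : Fin M, t ≤ ‖(X j).1 - cz M L i‖ then (1 : ℝ) else 0) ≤ ∑ _j : ι, (1 : ℝ) :=
          Finset.sum_le_sum fun j _ => by split_ifs <;> norm_num
      _ = Fintype.card ι := by simp

end CompSec

open FarLower CompSec in
theorem p_compSec (h_slice : S_slice) (h_ims : S_ims) (h_cut : S_cut) (h_mult : S_mult)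
    (h_lc : S_lc) (h_adm : S_adm) (h_en : S_en) : S_compSec := by
  obtain ⟨C, hC, hm⟩ := h_mult
  intro b M a η g0 hM ha hmarg hη hg hg0
  have hM' : (1 : ℝ) ≤ M := by exact_mod_cast hM
  obtain ⟨R, hR1, hR⟩ : ∃ R : ℝ, 1 ≤ R ∧ ∀ m, ‖b m‖ ≤ R := by
    refine ⟨1 + ∑ m, ‖b m‖, ?_, fun m => ?_⟩
    · have : 0 ≤ ∑ m, ‖b m‖ := Finset.sum_nonneg fun m _ => norm_nonneg _
      linarith
    · have := Finset.single_le_sum (f := fun m => ‖b m‖) (fun m _ => norm_nonneg _)
        (Finset.mem_univ m)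
      linarith
  refine ⟨1 + (72 + 216 * C) * M ^ 2, 4 * R + 72 * M ^ 2 / g0, ?_, ?_, ?_⟩
  · have : 0 ≤ (72 + 216 * C) * (M : ℝ) ^ 2 := by positivity
    linarith
  · have : 0 ≤ 72 * (M : ℝ) ^ 2 / g0 := by positivity
    linarith
  intro L t φ ht hL hφ hn
  have hq : 0 ≤ 72 * (M : ℝ) ^ 2 / g0 := by positivity
  have ht0 : 0 < t := by linarith
  have hRt : 4 * R ≤ t := by linarith
  have hL0 : 0 < L := by linarith
  have htg : 36 * (M : ℝ) ^ 2 / t ≤ g0 / 2 := by
    rw [div_le_iff₀ ht0]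
    have h1 : 72 * (M : ℝ) ^ 2 / g0 ≤ t := by linarith
    rw [div_le_iff₀ hg] at h1
    linarith
  have hbt : ∀ m, ‖b m‖ ≤ t / 4 := fun m => by
    have := hR m
    linarith
  have hz := cz_dist M L hL0
  obtain ⟨hPU, hin, hout, -, hg1, -, hg0'⟩ := h_cut (Fin M) t (cz M L) ht0
    (fun k k' h => by have := hz k k' h; linarith)
  obtain ⟨i1, i2, i3, i4, i5, i6⟩ := h_ims (Fin (3 * M)) (Option (Fin M)) (cellPU t (cz M L)) φ hPU
    hφ.toLC
  -- support of the sectors
  have hsupp : ∀ (α : Fin (3 * M) → Option (Fin M)) (X : Fin (3 * M) → Om),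
      sector (cellPU t (cz M L)) α φ X ≠ 0 → ∀ j, cellPU t (cz M L) (α j) (X j).1 ≠ 0 := by
    intro α X h j hj
    apply h
    unfold sector
    rw [Finset.prod_eq_zero (Finset.mem_univ j) hj, zero_mul]
  have hnone : ∀ α : Fin (3 * M) → Option (Fin M), goodA α → ∀ j, α j ≠ none := by
    intro α hα j hj
    have h1 : ∑ o : Option (Fin M), Fintype.card {j // α j = o} = 3 * M := by
      rw [← Fintype.card_sigma, Fintype.card_congr (Equiv.sigmaFiberEquiv α), Fintype.card_fin]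
    rw [Fintype.sum_option] at h1
    have h2 : ∑ i : Fin M, Fintype.card {j // α j = some i} = 3 * M := by
      rw [Finset.sum_congr rfl fun i _ => hα i]
      simp [mul_comm]
    have h3 : Fintype.card {j // α j = none} = 0 := by omega
    exact (Fintype.card_eq_zero_iff.1 h3).false ⟨j, hj⟩
  have hbadn : ∀ α : Fin (3 * M) → Option (Fin M),
      ∑ i : Fin M, Fintype.card {j // α j = some i} ≤ 3 * M := by
    intro α
    have h1 : ∑ o : Option (Fin M), Fintype.card {j // α j = o} = 3 * M := by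
      rw [← Fintype.card_sigma, Fintype.card_congr (Equiv.sigmaFiberEquiv α), Fintype.card_fin]
    rw [Fintype.sum_option] at h1
    omega
  have hlow : ∀ α : Fin (3 * M) → Option (Fin M),
      (∑ k, En (Fintype.card {j // α j = some k}) b) * nsq (sector (cellPU t (cz M L)) α φ) ≤
        kin (sector (cellPU t (cz M L)) α φ)
          + expv (clPot b M L α) (sector (cellPU t (cz M L)) α φ) := fun α =>
    sector_low h_slice h_lc h_adm h_en (fun _ : Fin M => 3) (fun _ => b) (cz M L)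
      (cellPU t (cz M L)) α φ hφ.anti (i1 α)
  have hclA : ∀ α : Fin (3 * M) → Option (Fin M), AdmW (clPot (ι := Fin (3 * M)) b M L α) := by
    intro α
    unfold clPot
    exact adm_sum h_adm _ (fun i X => pot (fun m => cz M L i + b m)
      (fun j : {j // α j = some i} => X j.1)) fun i _ =>
        adm_restr h_adm (fun j => α j = some i) (fun m => cz M L i + b m)
  have hpotA : AdmW (pot (ι := Fin (3 * M)) (cY b M L)) :=
    ((h_adm (Fin (3 * M))).2.2.2.2.2.2.1 _ (cY b M L)).2.2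
  have hgood : ∀ α : Fin (3 * M) → Option (Fin M), goodA α →
      kin (sector (cellPU t (cz M L)) α φ)
        + expv (clPot b M L α) (sector (cellPU t (cz M L)) α φ)
        - M * En 3 b * nsq (sector (cellPU t (cz M L)) α φ)
        - (72 + 216 * C) * M ^ 2 * (t ^ 2 / L ^ 3) * nsq (sector (cellPU t (cz M L)) α φ) ≤
      kin (sector (cellPU t (cz M L)) α φ)
        + expv (pot (cY b M L)) (sector (cellPU t (cz M L)) α φ)
        - M * En 3 b * nsq (sector (cellPU t (cz M L)) α φ) := by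
    intro α hα
    have h1 := expv_mono h_lc (sector (cellPU t (cz M L)) α φ) (i1 α)
      (fun X => clPot b M L α X + -((72 + 216 * C) * M ^ 2 * (t ^ 2 / L ^ 3)))
      (pot (cY b M L)) ((h_adm _).2.1 _ _ (hclA α) (adm_const h_adm _)) hpotA ?_
    · rw [expv_add h_lc _ (i1 α) _ _ (hclA α) (adm_const h_adm _), expv_const] at h1
      linarith
    · intro X hX
      have h2 := good_pot hC (fun n n' _ _ q q' x x' z z' hz' h1 h2 => (hm n n' q q' x x' z z' hz' h1 h2).1)
        b M L t ht0 (by linarith) (fun m => by have := hbt m; linarith) hz α hα (hnone α hα) X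
        (fun j i hji => by
          have h3 := hsupp α X hX j
          rw [hji] at h3
          exact (hin i _ h3).le)
      linarith
  have hbad : ∀ α : Fin (3 * M) → Option (Fin M), ¬ goodA α →
      g0 / 2 * nsq (sector (cellPU t (cz M L)) α φ) ≤
      kin (sector (cellPU t (cz M L)) α φ)
        + expv (pot (cY b M L)) (sector (cellPU t (cz M L)) α φ)
        - M * En 3 b * nsq (sector (cellPU t (cz M L)) α φ) := by
    intro α hα
    have h1 := expv_mono h_lc (sector (cellPU t (cz M L)) α φ) (i1 α)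
      (fun X => clPot b M L α X + -(36 * (M : ℝ) ^ 2 / t))
      (pot (cY b M L)) ((h_adm _).2.1 _ _ (hclA α) (adm_const h_adm _)) hpotA ?_
    · rw [expv_add h_lc _ (i1 α) _ _ (hclA α) (adm_const h_adm _), expv_const] at h1
      have h2 := slopes b a η g0 ha.1 hmarg hη hg hg0
        (fun i : Fin M => Fintype.card {j // α j = some i}) (hbadn α) (by
          unfold goodA at hα
          push Not at hα
          exact hα)
      have h3 := hlow α
      have h4 := nsq_nonneg (sector (cellPU t (cz M L)) α φ)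
      have h5 := mul_le_mul_of_nonneg_right h2 h4
      have h6 := mul_le_mul_of_nonneg_right htg h4
      linarith
    · intro X hX
      have hc : ∀ (j : Fin (3 * M)) (k : Fin M) (m : Fin 3), α j ≠ some k →
          cou (X j).1 (cz M L k + b m) ≤ 16 / (4 * t) := by
        intro j k m hjk
        have hθj := hsupp α X hX j
        have hYr := hbt m
        have hdist : t / 4 ≤ ‖(X j).1 - (cz M L k + b m)‖ := by
          cases hα : α j with
          | none =>
            rw [hα] at hθj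
            have h1 := hout _ hθj k
            have h2 : ‖(X j).1 - cz M L k‖ ≤ ‖(X j).1 - (cz M L k + b m)‖ + ‖b m‖ := by
              have : (X j).1 - cz M L k = ((X j).1 - (cz M L k + b m)) + b m := by abel
              rw [this]
              exact norm_add_le _ _
            linarith
          | some k' =>
            rw [hα] at hθj hjk
            have hk : k' ≠ k := fun h => hjk (by rw [h])
            have h1 := hin k' _ hθj
            have h2 := hz k' k hk
            have h3 : ‖cz M L k' - cz M L k‖ ≤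
                ‖(X j).1 - cz M L k'‖ + ‖(X j).1 - (cz M L k + b m)‖ + ‖b m‖ := by
              have : cz M L k' - cz M L k =
                -((X j).1 - cz M L k') + ((X j).1 - (cz M L k + b m)) + b m := by abel
              rw [this]
              refine (norm_add_le _ _).trans ?_
              gcongr
              refine (norm_add_le _ _).trans ?_
              rw [norm_neg]
            linarith
        unfold cou
        calc ‖(X j).1 - (cz M L k + b m)‖⁻¹ ≤ (t / 4)⁻¹ := inv_anti₀ (by positivity) hdist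
          _ = 16 / (4 * t) := by field_simp; norm_num
      have h2 := pot_lower (fun _ : Fin M => 3) (fun _ => b) (cz M L) (4 * t) (by positivity) α X hc
      have h3 : (16 : ℝ) * Fintype.card (Fin (3 * M)) * ((∑ k : Fin M, 3 : ℕ) : ℝ) / (4 * t) =
          36 * (M : ℝ) ^ 2 / t := by
        simp only [Fintype.card_fin, Finset.sum_const, Finset.card_univ, smul_eq_mul]
        push_cast
        field_simp
        ring
      rw [h3] at h2
      have h4 : clPot b M L α X = ∑ k : Fin M, pot (fun m => cz M L k + b m)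
        (fun j : {j // α j = some k} => X j.1) := rfl
      have h5 : pot (cY b M L) X = pot (cl (cz M L) (fun _ => b)) X := rfl
      rw [h4, h5]
      linarith
  refine ⟨?_, ?_, ?_⟩
  · -- (i)
    have hsum : ∑ α : Fin (3 * M) → Option (Fin M), (kin (sector (cellPU t (cz M L)) α φ)
        + expv (pot (cY b M L)) (sector (cellPU t (cz M L)) α φ)
        - M * En 3 b * nsq (sector (cellPU t (cz M L)) α φ)) =
        Qf (cY b M L) φ - M * En 3 b
          + ∑ j, expv (fun X => puG (cellPU t (cz M L)) (X j).1) φ := by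
      rw [Finset.sum_sub_distrib, Finset.sum_add_distrib, ← Finset.mul_sum, ← i2, hn,
        ← i3 _ hpotA]
      unfold Qf
      rw [i4]
      ring
    have hloc : ∑ j, expv (fun X => puG (cellPU t (cz M L)) (X j).1) φ ≤
        10 / t ^ 2 * nfar M L (t / 2) φ := by
      obtain ⟨C5, hC5⟩ := i5
      have hpA : ∀ j, AdmW (fun X : Fin (3 * M) → Om => puG (cellPU t (cz M L)) (X j).1) := by
        intro j
        refine (h_adm _).1 _ ⟨i6.comp ((measurable_pi_apply j).fst), fun R => ⟨C5, fun X _ =>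
          hC5 _⟩⟩
      rw [← expv_sum h_lc h_adm φ hφ.toLC Finset.univ
        (fun j X => puG (cellPU t (cz M L)) (X j).1) fun j _ => hpA j]
      have h1 : 10 / t ^ 2 * nfar M L (t / 2) φ =
          expv (fun X => 10 / t ^ 2 * Ft M L (t / 2) X) φ := by
        unfold nfar expv
        rw [← integral_const_mul]
        refine integral_congr_ae (Filter.Eventually.of_forall fun X => ?_)
        simp only [Ft]
        ring
      rw [h1]
      refine expv_mono h_lc φ hφ.toLC _ _ (adm_sum h_adm _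
        (fun j X => puG (cellPU t (cz M L)) (X j).1) fun j _ => hpA j)
        ((h_adm _).2.2.1 _ _ (Ft_adm h_adm M L (t / 2))) fun X _ => ?_
      unfold Ft
      rw [Finset.mul_sum]
      refine Finset.sum_le_sum fun j _ => ?_
      split_ifs with h
      · rw [mul_one]
        exact hg1 _
      · rw [mul_zero]
        push Not at h
        obtain ⟨i, hi⟩ := h
        refine (hg0' _ fun k => ?_).le
        by_cases hk : k = i
        · rw [hk]
          left
          exact hi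
        · right
          have h2 := hz k i hk
          have h3 : ‖cz M L k - cz M L i‖ ≤ ‖(X j).1 - cz M L k‖ + ‖(X j).1 - cz M L i‖ := by
            have : cz M L k - cz M L i = -((X j).1 - cz M L k) + ((X j).1 - cz M L i) := by abel
            rw [this]
            refine (norm_add_le _ _).trans ?_
            rw [norm_neg]
          linarith
    have hterm : g0 / 2 * badW M L t φ + goodE b M L t φ
        - (72 + 216 * C) * M ^ 2 * (t ^ 2 / L ^ 3) ≤
        ∑ α : Fin (3 * M) → Option (Fin M), (kin (sector (cellPU t (cz M L)) α φ)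
        + expv (pot (cY b M L)) (sector (cellPU t (cz M L)) α φ)
        - M * En 3 b * nsq (sector (cellPU t (cz M L)) α φ)) := by
      have h1 : (72 + 216 * C) * M ^ 2 * (t ^ 2 / L ^ 3) =
          ∑ α : Fin (3 * M) → Option (Fin M), (72 + 216 * C) * M ^ 2 * (t ^ 2 / L ^ 3)
            * nsq (sector (cellPU t (cz M L)) α φ) := by
        rw [← Finset.mul_sum, ← i2, hn, mul_one]
      rw [h1]
      unfold badW goodE
      rw [Finset.mul_sum, ← Finset.sum_add_distrib, ← Finset.sum_sub_distrib]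
      refine Finset.sum_le_sum fun α _ => ?_
      have h4 := nsq_nonneg (sector (cellPU t (cz M L)) α φ)
      have h5 : 0 ≤ (72 + 216 * C) * (M : ℝ) ^ 2 * (t ^ 2 / L ^ 3)
          * nsq (sector (cellPU t (cz M L)) α φ) := by positivity
      by_cases hα : goodA α
      · rw [if_pos hα, if_pos hα]
        have := hgood α hα
        linarith
      · rw [if_neg hα, if_neg hα]
        have := hbad α hα
        linarith
    rw [hsum] at hterm
    have h6 : (72 + 216 * C) * (M : ℝ) ^ 2 * (t ^ 2 / L ^ 3) ≤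
        (1 + (72 + 216 * C) * M ^ 2) * t ^ 2 / L ^ 3 := by
      have : (1 + (72 + 216 * C) * (M : ℝ) ^ 2) * t ^ 2 / L ^ 3 =
        (72 + 216 * C) * (M : ℝ) ^ 2 * (t ^ 2 / L ^ 3) + t ^ 2 / L ^ 3 := by ring
      rw [this]
      have : 0 ≤ t ^ 2 / L ^ 3 := by positivity
      linarith
    linarith
  · -- (ii)
    have h1 : nfar M L t φ = ∑ α : Fin (3 * M) → Option (Fin M),
        expv (Ft M L t) (sector (cellPU t (cz M L)) α φ) := by
      rw [← i3 _ (Ft_adm h_adm M L t)]
      rfl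
    rw [h1]
    unfold badW
    rw [Finset.mul_sum]
    refine Finset.sum_le_sum fun α _ => ?_
    by_cases hα : goodA α
    · rw [if_pos hα, mul_zero]
      have h2 := expv_mono h_lc (sector (cellPU t (cz M L)) α φ) (i1 α) (Ft M L t) (fun _ => 0)
        (Ft_adm h_adm M L t) (adm_const h_adm 0) ?_
      · rw [expv_const, zero_mul] at h2
        exact h2
      · intro X hX
        unfold Ft
        refine le_of_eq (Finset.sum_eq_zero fun j _ => ?_)
        rw [if_neg]
        intro h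
        have h3 := hsupp α X hX j
        obtain ⟨i, hi⟩ := Option.ne_none_iff_exists'.1 (hnone α hα j)
        rw [hi] at h3
        have h4 := hin i _ h3
        have h5 := h i
        linarith
    · rw [if_neg hα]
      have h2 := expv_mono h_lc (sector (cellPU t (cz M L)) α φ) (i1 α) (Ft M L t)
        (fun _ => 3 * (M : ℝ)) (Ft_adm h_adm M L t) (adm_const h_adm _) ?_
      · rw [expv_const] at h2
        exact h2
      · intro X _
        unfold Ft
        calc ∑ j, (if ∀ i : Fin M, t ≤ ‖(X j).1 - cz M L i‖ then (1 : ℝ) else 0)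
            ≤ ∑ _j : Fin (3 * M), (1 : ℝ) :=
              Finset.sum_le_sum fun j _ => by split_ifs <;> norm_num
          _ = 3 * (M : ℝ) := by simp
  · -- (iii)
    unfold goodE
    refine Finset.sum_nonneg fun α _ => ?_
    split_ifs with hα
    · have h1 := hlow α
      have h2 : ∑ k : Fin M, En (Fintype.card {j // α j = some k}) b = M * En 3 b := by
        rw [Finset.sum_congr rfl fun k _ => by rw [hα k]]
        simp
      rw [h2] at h1
      linarith
    · exact le_refl _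

end MolDis
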