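import Pool.Agent.Lib.MP_59f35a_mp.Stmts3

/-!
# MP_59f35a_mp : tails of the composite (H3)
-/

set_option autoImplicit false

noncomputable section

open MeasureTheory

namespace MolDis

namespace CompTailF

/-- monotonicity of expectation values, pointwise comparison on the support -/
lemma expv_mono {ι : Type} [Fintype ι] [DecidableEq ι] (hlc : S_lc) {W W' : (ι → Om) → ℝ}
    (hW : AdmW W) (hW' : AdmW W') {ψ : (ι → Om) → ℝ} (hψ : LC ψ)
    (h : ∀ X, ψ X ≠ 0 → W X ≤ W' X) : expv W ψ ≤ expv W' ψ := by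
  obtain ⟨-, -, -, -, -, h1, h2⟩ := hlc ι ψ hψ
  unfold expv
  refine integral_mono (h1 W hW) (h1 W' hW') fun X => ?_
  by_cases hX : ψ X = 0
  · simp [hX]
  · exact mul_le_mul_of_nonneg_right (h X hX) (sq_nonneg _)

lemma expv_const {ι : Type} [Fintype ι] (c : ℝ) (u : (ι → Om) → ℝ) :
    expv (fun _ => c) u = c * nsq u := by
  unfold expv nsq
  rw [integral_const_mul]

lemma expv_cmul {ι : Type} [Fintype ι] (c : ℝ) (W : (ι → Om) → ℝ) (ψ : (ι → Om) → ℝ) :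
    expv (fun X => c * W X) ψ = c * expv W ψ := by
  unfold expv
  rw [← integral_const_mul]
  refine integral_congr_ae (Filter.Eventually.of_forall fun X => ?_)
  show c * W X * ψ X ^ 2 = c * (W X * ψ X ^ 2)
  ring

lemma expv_nonneg {ι : Type} [Fintype ι] {W : (ι → Om) → ℝ} {ψ : (ι → Om) → ℝ}
    (h : ∀ X, 0 ≤ W X) : 0 ≤ expv W ψ :=
  integral_nonneg fun X => mul_nonneg (h X) (sq_nonneg _)

lemma nsq_nonneg {ι : Type} [Fintype ι] (ψ : (ι → Om) → ℝ) : 0 ≤ nsq ψ :=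
  integral_nonneg fun _ => sq_nonneg _

lemma meas_norm {ι : Type} (j : ι) (a : E3) : Measurable fun X : ι → Om => ‖(X j).1 - a‖ :=
  ((measurable_fst.comp (measurable_pi_apply j)).sub_const a).norm

lemma meas_norm' {ι : Type} (j : ι) : Measurable fun X : ι → Om => ‖(X j).1‖ :=
  (measurable_fst.comp (measurable_pi_apply j)).norm

/-- measurability and boundedness of counting functions -/
lemma cnt_bdd {ι : Type} [Fintype ι] (t : ℝ) :
    BddW (fun X : ι → Om => ∑ j, if t ≤ ‖(X j).1‖ then (1 : ℝ) else 0) := by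
  refine ⟨?_, fun R => ⟨Fintype.card ι, fun X _ => ?_⟩⟩
  · refine Finset.measurable_fun_sum _ fun j _ => ?_
    refine Measurable.ite ?_ measurable_const measurable_const
    exact measurableSet_le measurable_const (meas_norm' j)
  · rw [abs_of_nonneg (Finset.sum_nonneg fun j _ => by split_ifs <;> norm_num)]
    calc ∑ j, (if t ≤ ‖(X j).1‖ then (1 : ℝ) else 0) ≤ ∑ _j : ι, (1 : ℝ) :=
          Finset.sum_le_sum fun j _ => by split_ifs <;> norm_num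
      _ = _ := by simp

lemma far_bdd {ι : Type} [Fintype ι] (M : ℕ) (L t : ℝ) :
    BddW (fun X : ι → Om => ∑ j, if ∀ i : Fin M, t ≤ ‖(X j).1 - cz M L i‖ then (1 : ℝ) else 0) := by
  refine ⟨?_, fun R => ⟨Fintype.card ι, fun X _ => ?_⟩⟩
  · refine Finset.measurable_fun_sum _ fun j _ => ?_
    refine Measurable.ite ?_ measurable_const measurable_const
    have : {X : ι → Om | ∀ i : Fin M, t ≤ ‖(X j).1 - cz M L i‖} =
        ⋂ i : Fin M, {X : ι → Om | t ≤ ‖(X j).1 - cz M L i‖} := by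
      ext X; simp
    rw [this]
    exact MeasurableSet.iInter fun i => measurableSet_le measurable_const (meas_norm j _)
  · rw [abs_of_nonneg (Finset.sum_nonneg fun j _ => by split_ifs <;> norm_num)]
    calc ∑ j, (if ∀ i : Fin M, t ≤ ‖(X j).1 - cz M L i‖ then (1 : ℝ) else 0) ≤ ∑ _j : ι, (1 : ℝ) :=
          Finset.sum_le_sum fun j _ => by split_ifs <;> norm_num
      _ = _ := by simp

lemma sq_bdd {ι : Type} [Fintype ι] (t : ℝ) :
    BddW (fun X : ι → Om => ∑ j, if t ≤ ‖(X j).1‖ then ‖(X j).1‖ ^ 2 else 0) := by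
  refine ⟨?_, fun R => ⟨Fintype.card ι * R ^ 2, fun X hX => ?_⟩⟩
  · refine Finset.measurable_fun_sum _ fun j _ => ?_
    refine Measurable.ite ?_ ((meas_norm' j).pow_const 2) measurable_const
    exact measurableSet_le measurable_const (meas_norm' j)
  · rw [abs_of_nonneg (Finset.sum_nonneg fun j _ => by split_ifs <;> positivity)]
    calc ∑ j, (if t ≤ ‖(X j).1‖ then ‖(X j).1‖ ^ 2 else 0) ≤ ∑ _j : ι, R ^ 2 :=
          Finset.sum_le_sum fun j _ => by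
            split_ifs
            · exact pow_le_pow_left₀ (norm_nonneg _) (hX j) 2
            · positivity
      _ = _ := by simp

lemma pot_comp {ι κ κ' : Type} [Fintype ι] [Fintype κ] [Fintype κ'] (e : κ ≃ κ')
    (Y : κ' → E3) (X : ι → Om) : pot (fun k => Y (e k)) X = pot Y X := by
  unfold pot attr repNN
  have h1 : ∀ j : ι, ∑ m, cou (X j).1 (Y (e m)) = ∑ m, cou (X j).1 (Y m) := fun j =>
    Equiv.sum_comp e fun m => cou (X j).1 (Y m)
  have h2 : ∑ l, ∑ m, cou (Y (e l)) (Y (e m)) = ∑ l, ∑ m, cou (Y l) (Y m) := by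
    rw [← Equiv.sum_comp e fun l => ∑ m, cou (Y l) (Y m)]
    exact Finset.sum_congr rfl fun l _ => Equiv.sum_comp e fun m => cou (Y (e l)) (Y m)
  simp only [h1, h2]

/-- dyadic layers -/
lemma layer {T : ℝ} (hT : 0 < T) (m : ℕ) {r : ℝ} (hr0 : 0 ≤ r) (hr : r < 2 ^ (m + 1) * T) :
    (if T ≤ r then r ^ 2 else 0) ≤
      ∑ k ∈ Finset.range (m + 1), 4 ^ (k + 1) * T ^ 2 * (if 2 ^ k * T ≤ r then (1 : ℝ) else 0) := by
  induction m with
  | zero =>
    rw [Finset.sum_range_one]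
    simp only [pow_zero, one_mul, zero_add, pow_one] at hr ⊢
    split_ifs with h
    · rw [mul_one]
      nlinarith
    · simp
  | succ m ih =>
    rw [Finset.sum_range_succ]
    by_cases h : r < 2 ^ (m + 1) * T
    · have h1 := ih h
      have h2 : 0 ≤ 4 ^ (m + 1 + 1) * T ^ 2 * (if 2 ^ (m + 1) * T ≤ r then (1 : ℝ) else 0) := by
        split_ifs <;> positivity
      linarith
    · push Not at h
      rw [if_pos h, mul_one]
      have h1 : 0 ≤ ∑ k ∈ Finset.range (m + 1),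
          4 ^ (k + 1) * T ^ 2 * (if 2 ^ k * T ≤ r then (1 : ℝ) else 0) :=
        Finset.sum_nonneg fun k _ => by split_ifs <;> positivity
      have h2 : (if T ≤ r then r ^ 2 else 0) ≤ r ^ 2 := by
        split_ifs
        · exact le_rfl
        · positivity
      have h3 : r ^ 2 ≤ 4 ^ (m + 1 + 1) * T ^ 2 := by
        have : r ^ 2 ≤ (2 ^ (m + 1 + 1) * T) ^ 2 := pow_le_pow_left₀ hr0 hr.le 2
        rw [mul_pow, ← pow_mul, mul_comm (m + 1 + 1) 2, pow_mul] at this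
        norm_num at this
        exact this
      linarith

/-- the recursion of the weighted tails -/
lemma recur {c ε T : ℝ} (hc : 0 ≤ c) (hε : 0 ≤ ε) (hT1 : 0 < T) (hT : 24 * c ≤ T ^ 2)
    {n : ℕ → ℝ} (hn : ∀ k, 0 ≤ n k)
    (h : ∀ k, n (k + 1) ≤ c * (ε + 3 / (2 ^ k * T) ^ 2 * n k)) (m : ℕ) :
    ∑ k ∈ Finset.range (m + 1), 4 ^ k * T ^ 2 * n k + 4 ^ m * T ^ 2 * n m ≤
      2 * (T ^ 2 * n 0) + 3 * c * ε * (4 ^ m * T ^ 2) := by
  induction m with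
  | zero =>
    rw [Finset.sum_range_one]
    simp only [pow_zero, one_mul]
    have : 0 ≤ 3 * c * ε * T ^ 2 := by positivity
    linarith
  | succ m ih =>
    rw [Finset.sum_range_succ]
    have h1 := h m
    have h4 : ((2 : ℝ) ^ m * T) ^ 2 = 4 ^ m * T ^ 2 := by
      rw [mul_pow, ← pow_mul, mul_comm m 2, pow_mul]; norm_num
    rw [h4] at h1
    have hp : (0 : ℝ) < 4 ^ m := by positivity
    have hp1 : (1 : ℝ) ≤ 4 ^ m := one_le_pow₀ (by norm_num)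
    have hTT : 0 < T ^ 2 := by positivity
    have h2 : 4 ^ (m + 1) * T ^ 2 * n (m + 1) ≤
        4 ^ (m + 1) * T ^ 2 * c * ε + 12 * c * n m := by
      calc 4 ^ (m + 1) * T ^ 2 * n (m + 1) ≤
          4 ^ (m + 1) * T ^ 2 * (c * (ε + 3 / (4 ^ m * T ^ 2) * n m)) := by gcongr
        _ = _ := by
          rw [pow_succ]
          field_simp
          ring
    have h3 : 12 * c * n m ≤ 4 ^ m * T ^ 2 * n m / 2 := by
      have : 24 * c * n m ≤ 4 ^ m * T ^ 2 * n m := by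
        calc 24 * c * n m ≤ T ^ 2 * n m := mul_le_mul_of_nonneg_right hT (hn m)
          _ ≤ 4 ^ m * (T ^ 2 * n m) := le_mul_of_one_le_left (mul_nonneg hTT.le (hn m)) hp1
          _ = _ := by ring
      linarith
    have h5 : 0 ≤ 4 ^ m * T ^ 2 * c * ε := by positivity
    have h6 : (4 : ℝ) ^ (m + 1) * T ^ 2 * c * ε = 4 * (4 ^ m * T ^ 2 * c * ε) := by
      rw [pow_succ]; ring
    have h7 : 3 * c * ε * (4 ^ (m + 1) * T ^ 2) = 12 * (4 ^ m * T ^ 2 * c * ε) := by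
      rw [pow_succ]; ring
    have h8 : 3 * c * ε * (4 ^ m * T ^ 2) = 3 * (4 ^ m * T ^ 2 * c * ε) := by ring
    rw [h6] at h2
    rw [h7]
    rw [h8] at ih
    linarith

/-- the three steps of the inner recursion -/
lemma three {D g A s M B0 G0 B1 G1 B2 G2 f1 f2 f3 : ℝ} (hD : 0 ≤ D) (hg : 0 < g) (hA : 0 ≤ A)
    (hs0 : 0 ≤ s) (hs1 : s ≤ 1) (hs3 : s ^ 3 ≤ A) (hM : 0 ≤ M)
    (hG1 : 0 ≤ G1) (hG2 : 0 ≤ G2) (hf3 : f3 ≤ 3 * M)
    (h0 : g / 2 * B0 + G0 ≤ D * (A + s * f1))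
    (h1 : g / 2 * B1 + G1 ≤ D * (A + s * f2)) (k1 : f1 ≤ 3 * M * B1)
    (h2 : g / 2 * B2 + G2 ≤ D * (A + s * f3)) (k2 : f2 ≤ 3 * M * B2) :
    g / 2 * B0 + G0 ≤ D * (1 + 6 * M * D / g * (1 + 6 * M * D / g) +
      3 * M * (6 * M * D / g) ^ 2) * A := by
  set Q := 6 * M * D / g with hQ
  have hQ0 : 0 ≤ Q := by positivity
  have step : ∀ {f B G f' : ℝ}, 0 ≤ G → g / 2 * B + G ≤ D * (A + s * f') → f ≤ 3 * M * B →
      f ≤ Q * (A + s * f') := by
    intro f B G f' hG h k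
    have e1 : g / 2 * B ≤ D * (A + s * f') := by linarith
    have e2 : 3 * M * B ≤ Q * (A + s * f') := by
      have : 3 * M * B = 6 * M / g * (g / 2 * B) := by field_simp; ring
      rw [this]
      calc 6 * M / g * (g / 2 * B) ≤ 6 * M / g * (D * (A + s * f')) := by gcongr
        _ = Q * (A + s * f') := by rw [hQ]; field_simp
    linarith
  have a2 := step hG2 h2 k2
  have a1 := step hG1 h1 k1
  have b2 : f2 ≤ Q * (A + s * (3 * M)) := a2.trans (by gcongr)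
  have b1 : f1 ≤ Q * (A + s * (Q * (A + s * (3 * M)))) := a1.trans (by gcongr)
  have b0 : s * f1 ≤ (Q * (1 + Q) + 3 * M * Q ^ 2) * A := by
    calc s * f1 ≤ s * (Q * (A + s * (Q * (A + s * (3 * M))))) := by gcongr
      _ = s * (Q * A) + s ^ 2 * (Q ^ 2 * A) + 3 * M * Q ^ 2 * s ^ 3 := by ring
      _ ≤ 1 * (Q * A) + 1 ^ 2 * (Q ^ 2 * A) + 3 * M * Q ^ 2 * A := by gcongr
      _ = _ := by ring
  calc g / 2 * B0 + G0 ≤ D * (A + s * f1) := h0
    _ ≤ D * (A + (Q * (1 + Q) + 3 * M * Q ^ 2) * A) := by gcongr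
    _ = _ := by ring

lemma pw {L : ℝ} (hL : 0 < L) (a : ℝ) (n : ℕ) : (L ^ a) ^ n = L ^ (a * n) := by
  rw [← Real.rpow_natCast, ← Real.rpow_mul hL.le]

lemma cz_norm {M : ℕ} {L : ℝ} (hL : 0 ≤ L) (i : Fin M) : ‖cz M L i‖ ≤ M * L := by
  unfold cz
  rw [PiLp.norm_single, Real.norm_eq_abs, abs_of_nonneg (by positivity)]
  gcongr
  exact i.2.le

lemma nfar_le {M : ℕ} (hlc : S_lc) (hadm : S_adm) (L t : ℝ) {φ : (Fin (3 * M) → Om) → ℝ}
    (hφ : LC φ) (h1 : nsq φ = 1) : nfar M L t φ ≤ 3 * M := by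
  have : expv (fun _ => ((3 * M : ℕ) : ℝ)) φ = 3 * M := by
    rw [expv_const, h1]; push_cast; ring
  rw [← this]
  unfold nfar
  refine expv_mono hlc ((hadm _).1 _ (far_bdd M L t)) ((hadm _).1 _ ?_) hφ fun X _ => ?_
  · exact ⟨measurable_const, fun R => ⟨_, fun X _ => le_rfl⟩⟩
  · calc ∑ j, (if ∀ i : Fin M, t ≤ ‖(X j).1 - cz M L i‖ then (1 : ℝ) else 0) ≤
        ∑ _j : Fin (3 * M), (1 : ℝ) :=
          Finset.sum_le_sum fun j _ => by split_ifs <;> norm_num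
      _ = _ := by simp

lemma nout_le_nfar {M : ℕ} (hlc : S_lc) (hadm : S_adm) {L t T : ℝ}
    {φ : (Fin (3 * M) → Om) → ℝ} (hφ : LC φ) (hL : 0 ≤ L) (hT : M * L + t ≤ T) :
    nout T φ ≤ nfar M L t φ := by
  unfold nout nfar
  refine expv_mono hlc ((hadm _).1 _ (cnt_bdd T)) ((hadm _).1 _ (far_bdd M L t)) hφ fun X _ => ?_
  refine Finset.sum_le_sum fun j _ => ?_
  by_cases h : T ≤ ‖(X j).1‖
  · rw [if_pos h, if_pos]
    intro i
    have h1 := cz_norm hL i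
    have h2 := norm_sub_norm_le (X j).1 (cz M L i)
    linarith
  · rw [if_neg h]
    split_ifs <;> norm_num

lemma nout_nonneg {ι : Type} [Fintype ι] (t : ℝ) (φ : (ι → Om) → ℝ) : 0 ≤ nout t φ :=
  expv_nonneg fun X => Finset.sum_nonneg fun j _ => by split_ifs <;> norm_num

lemma badW_nonneg (M : ℕ) (L t : ℝ) (φ : (Fin (3 * M) → Om) → ℝ) : 0 ≤ badW M L t φ := by
  unfold badW
  exact Finset.sum_nonneg fun α _ => by
    split_ifs
    · exact le_rfl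
    · exact nsq_nonneg _

/-- weighted tails as a sum over dyadic layers -/
lemma expv_layer {ι : Type} [Fintype ι] [DecidableEq ι] (hlc : S_lc) (hadm : S_adm)
    {φ : (ι → Om) → ℝ} (hφ : LC φ) {T ρ : ℝ} (hT : 0 < T) (m : ℕ) (hρ : ρ < 2 ^ (m + 1) * T)
    (hs : ∀ X, φ X ≠ 0 → ∀ j, ‖(X j).1‖ ≤ ρ) :
    expv (fun X => ∑ j, if T ≤ ‖(X j).1‖ then ‖(X j).1‖ ^ 2 else 0) φ ≤
      4 * ∑ k ∈ Finset.range (m + 1), 4 ^ k * T ^ 2 * nout (2 ^ k * T) φ := by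
  have hA : ∀ k : ℕ, AdmW (fun X : ι → Om => 4 ^ (k + 1) * T ^ 2 *
      ∑ j, if 2 ^ k * T ≤ ‖(X j).1‖ then (1 : ℝ) else 0) := fun k =>
    (hadm ι).2.2.1 _ _ ((hadm ι).1 _ (cnt_bdd _))
  have hsum : ∀ n : ℕ, AdmW (fun X : ι → Om => ∑ k ∈ Finset.range n, (4 ^ (k + 1) * T ^ 2 *
      ∑ j, if 2 ^ k * T ≤ ‖(X j).1‖ then (1 : ℝ) else 0)) ∧
      expv (fun X : ι → Om => ∑ k ∈ Finset.range n, (4 ^ (k + 1) * T ^ 2 *
      ∑ j, if 2 ^ k * T ≤ ‖(X j).1‖ then (1 : ℝ) else 0)) φ =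
      ∑ k ∈ Finset.range n, 4 ^ (k + 1) * T ^ 2 * nout (2 ^ k * T) φ := by
    intro n
    induction n with
    | zero =>
      simp only [Finset.range_zero, Finset.sum_empty]
      refine ⟨(hadm ι).1 _ ⟨measurable_const, fun R => ⟨0, fun X _ => by simp⟩⟩, ?_⟩
      unfold expv; simp
    | succ n ih =>
      simp only [Finset.sum_range_succ]
      refine ⟨(hadm ι).2.1 _ _ ih.1 (hA n), ?_⟩
      obtain ⟨-, -, -, -, -, h1, h2⟩ := hlc ι φ hφ
      rw [← ih.2]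
      have e2 : 4 ^ (n + 1) * T ^ 2 * nout (2 ^ n * T) φ = expv (fun X : ι → Om =>
          4 ^ (n + 1) * T ^ 2 * ∑ j, if 2 ^ n * T ≤ ‖(X j).1‖ then (1 : ℝ) else 0) φ := by
        rw [expv_cmul]; rfl
      rw [e2]
      unfold expv
      rw [← integral_add (h1 _ ih.1) (h1 _ (hA n))]
      refine integral_congr_ae (Filter.Eventually.of_forall fun X => ?_)
      simp only
      ring
  have e : 4 * ∑ k ∈ Finset.range (m + 1), 4 ^ k * T ^ 2 * nout (2 ^ k * T) φ =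
      ∑ k ∈ Finset.range (m + 1), 4 ^ (k + 1) * T ^ 2 * nout (2 ^ k * T) φ := by
    rw [Finset.mul_sum]
    refine Finset.sum_congr rfl fun k _ => ?_
    rw [pow_succ]; ring
  rw [e, ← (hsum (m + 1)).2]
  refine expv_mono hlc ((hadm ι).1 _ (sq_bdd T)) (hsum (m + 1)).1 hφ fun X hX => ?_
  have h1 : ∀ k, 4 ^ (k + 1) * T ^ 2 * ∑ j, (if 2 ^ k * T ≤ ‖(X j).1‖ then (1 : ℝ) else 0) =
      ∑ j, 4 ^ (k + 1) * T ^ 2 * (if 2 ^ k * T ≤ ‖(X j).1‖ then (1 : ℝ) else 0) := fun k => by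
    rw [Finset.mul_sum]
  simp only [h1]
  rw [Finset.sum_comm]
  exact Finset.sum_le_sum fun j _ => layer hT m (norm_nonneg _) ((hs X hX j).trans_lt hρ)

end CompTailF

open CompTailF in
theorem p_compTail (hlc : S_lc) (hadm : S_adm) (hen : S_en) (hup : S_compUp) (hsec : S_compSec)
    (hmarg : S_compMarg) (htail : S_tail) : S_compTail := by
  intro b M a η g0 hM ha hb hη hη4 hg0 hg1
  obtain ⟨C1, L1, hC1, hL1, up⟩ := hup b M a η hM ha hb hη hη4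
  obtain ⟨C2, t0, hC2, ht0, sec⟩ := hsec b M a η g0 hM ha hb hη hg0 hg1
  obtain ⟨L2, hL2, mg⟩ := hmarg b M a η ((η + 1 / 4) / 2) hM ha hb hη (by linarith) (by linarith)
  obtain ⟨Rb, hRb0, hRb⟩ : ∃ Rb : ℝ, 0 ≤ Rb ∧ ∀ m, ‖b m‖ ≤ Rb :=
    ⟨∑ m, ‖b m‖, Finset.sum_nonneg fun m _ => norm_nonneg _,
      fun m => Finset.single_le_sum (f := fun m => ‖b m‖) (fun m _ => norm_nonneg _)
        (Finset.mem_univ m)⟩
  have hM0 : (0 : ℝ) < M := by exact_mod_cast hM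
  obtain ⟨g, hg⟩ : ∃ g : ℝ, g = 1 / 4 - (η + 1 / 4) / 2 := ⟨_, rfl⟩
  have hgpos : 0 < g := by rw [hg]; linarith
  obtain ⟨c, hc⟩ : ∃ c : ℝ, c = 2 * ((3 * M : ℕ) : ℝ) / g := ⟨_, rfl⟩
  have hc0 : 0 ≤ c := by rw [hc]; positivity
  obtain ⟨D, hD⟩ : ∃ D : ℝ, D = C1 + C2 + 160 := ⟨_, rfl⟩
  have hD0 : 0 < D := by rw [hD]; linarith
  obtain ⟨B, hB⟩ : ∃ B : ℝ, B = D * (1 + 6 * M * D / g0 * (1 + 6 * M * D / g0) +
      3 * M * (6 * M * D / g0) ^ 2) := ⟨_, rfl⟩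
  have hB0 : 0 ≤ B := by rw [hB]; positivity
  obtain ⟨Q3, hQ3⟩ : ∃ Q3 : ℝ, Q3 = 3 * M * (2 / g0 * B) := ⟨_, rfl⟩
  have hQ30 : 0 ≤ Q3 := by rw [hQ3]; positivity
  obtain ⟨K0, hK0⟩ : ∃ K0 : ℝ, K0 = 4 * ((M : ℝ) + 1) := ⟨_, rfl⟩
  have hK00 : 4 ≤ K0 := by rw [hK0]; linarith
  obtain ⟨Cf, hCf⟩ : ∃ Cf : ℝ, Cf = 1 + B + 2 / g0 * B + K0 + (8 * K0 ^ 2 * Q3 + 12 * c) := ⟨_, rfl⟩
  have q1 : 0 ≤ 2 / g0 * B := by positivity
  have q2 : 0 ≤ 8 * K0 ^ 2 * Q3 + 12 * c := by positivity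
  refine ⟨Cf, L1 + L2 + 256 + (4 * t0) ^ 8 + Rb + 24 * c + 4 * ((3 * M : ℕ) : ℝ) ^ 2 / g,
    by rw [hCf]; linarith, ?_, ?_⟩
  · have : 0 ≤ 4 * ((3 * M : ℕ) : ℝ) ^ 2 / g := by positivity
    have : 0 ≤ (4 * t0) ^ 8 := by positivity
    linarith
  intro L φ hL hφ hn
  have r1 : 0 ≤ 4 * ((3 * M : ℕ) : ℝ) ^ 2 / g := by positivity
  have r2 : 0 ≤ (4 * t0) ^ 8 := by positivity
  have hL256 : 256 ≤ L := by linarith
  have hL0 : 0 < L := by linarith
  have hL1' : 1 ≤ L := by linarith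
  obtain ⟨x, hx⟩ : ∃ x : ℝ, x = L ^ (3 / 8 : ℝ) := ⟨_, rfl⟩
  obtain ⟨s, hs⟩ : ∃ s : ℝ, s = L ^ (-(3 / 4) : ℝ) := ⟨_, rfl⟩
  have hx0 : 0 < x := by rw [hx]; positivity
  have hs0 : 0 < s := by rw [hs]; positivity
  have hs1 : s ≤ 1 := by
    rw [hs]; exact Real.rpow_le_one_of_one_le_of_nonpos hL1' (by norm_num)
  have hxs : x ^ 2 * s = 1 := by
    rw [hx, hs, pw hL0, ← Real.rpow_add hL0]
    norm_num
  have hs3 : s ^ 3 = L ^ (-(9 / 4) : ℝ) := by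
    rw [hs, pw hL0]; norm_num
  have hxL : x ^ 2 / L ^ 3 = s ^ 3 := by
    rw [hs3, hx, pw hL0, ← Real.rpow_natCast L 3, ← Real.rpow_sub hL0]
    norm_num
  have hx8 : x ^ 8 = L ^ 3 := by
    rw [hx, pw hL0, ← Real.rpow_natCast L 3]; norm_num
  have hL2s : L ^ 2 * s ^ 3 = L ^ (-(1 / 4) : ℝ) := by
    rw [hs3, ← Real.rpow_natCast L 2, ← Real.rpow_add hL0]
    norm_num
  have hxt : 4 * t0 ≤ x := by
    by_contra h
    push Not at h
    have h1 : x ^ 8 < (4 * t0) ^ 8 := pow_lt_pow_left₀ h hx0.le (by norm_num)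
    rw [hx8] at h1
    have h2 : L ≤ L ^ 3 := le_self_pow₀ hL1' (by norm_num)
    linarith
  have h16 : 16 * x ≤ L := by
    by_contra h
    push Not at h
    have h1 : L ^ 8 < (16 * x) ^ 8 := pow_lt_pow_left₀ h hL0.le (by norm_num)
    rw [mul_pow, hx8] at h1
    have h2 : (16 : ℝ) ^ 8 ≤ L ^ 5 := by
      calc (16 : ℝ) ^ 8 ≤ 256 ^ 5 := by norm_num
        _ ≤ L ^ 5 := pow_le_pow_left₀ (by norm_num) hL256 5
    have h3 : (16 : ℝ) ^ 8 * L ^ 3 ≤ L ^ 5 * L ^ 3 := by gcongr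
    have h4 : L ^ 5 * L ^ 3 = L ^ 8 := by ring
    linarith
  have hLC : LC φ := hφ.toLC
  obtain ⟨ε, hε⟩ : ∃ ε : ℝ, ε = Qf (cY b M L) φ - En (3 * M) (cY b M L) := ⟨_, rfl⟩
  have hε0 : 0 ≤ ε := by
    have := hen.2.1 (Fin (3 * M)) _ (cY b M L) φ hφ
    rw [hn, Fintype.card_fin, mul_one] at this
    rw [hε]; linarith
  have hup1 : Qf (cY b M L) φ - M * En 3 b ≤ ε + C1 * s ^ 3 := by
    have := up L (by linarith)
    rw [← hs3] at this
    rw [hε]; linarith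
  obtain ⟨A, hA⟩ : ∃ A : ℝ, A = ε + s ^ 3 := ⟨_, rfl⟩
  have hA0 : 0 ≤ A := by rw [hA]; positivity
  have hfar0 : ∀ t, 0 ≤ nfar M L t φ := fun t =>
    expv_nonneg fun X => Finset.sum_nonneg fun j _ => by split_ifs <;> norm_num
  -- one inner step
  have step : ∀ t : ℝ, x / 4 ≤ t → t ≤ x →
      (g0 / 2 * badW M L t φ + goodE b M L t φ ≤ D * (A + s * nfar M L (t / 2) φ)) ∧
      nfar M L t φ ≤ 3 * M * badW M L t φ ∧ 0 ≤ goodE b M L t φ := by
    intro t ht1 ht2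
    have ht : 0 < t := by linarith
    obtain ⟨s1, s2, s3⟩ := sec L t φ (by linarith) (by linarith) hφ hn
    refine ⟨?_, s2, s3⟩
    have e1 : C2 * t ^ 2 / L ^ 3 ≤ C2 * s ^ 3 := by
      rw [← hxL, mul_div_assoc]
      gcongr
    have e2 : 10 / t ^ 2 ≤ 160 * s := by
      rw [div_le_iff₀ (by positivity)]
      have h1 : (x / 4) ^ 2 ≤ t ^ 2 := pow_le_pow_left₀ (by positivity) ht1 2
      have h2 : s * (x / 4) ^ 2 ≤ s * t ^ 2 := by gcongr
      have h3 : s * (x / 4) ^ 2 = 1 / 16 := by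
        have : s * (x / 4) ^ 2 = (x ^ 2 * s) / 16 := by ring
        rw [this, hxs]
      linarith
    have e3 : 10 / t ^ 2 * nfar M L (t / 2) φ ≤ 160 * s * nfar M L (t / 2) φ :=
      mul_le_mul_of_nonneg_right e2 (hfar0 _)
    have e4 : ε + C1 * s ^ 3 + C2 * s ^ 3 + 160 * s * nfar M L (t / 2) φ ≤
        D * (A + s * nfar M L (t / 2) φ) := by
      have h1 : 0 ≤ s ^ 3 := by positivity
      have h2 : 0 ≤ s * nfar M L (t / 2) φ := mul_nonneg hs0.le (hfar0 _)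
      have h3 : D * (A + s * nfar M L (t / 2) φ) = ε + C1 * s ^ 3 + C2 * s ^ 3 +
          160 * s * nfar M L (t / 2) φ + ((D - 1) * ε + 160 * s ^ 3 +
          (C1 + C2) * (s * nfar M L (t / 2) φ)) := by
        rw [hA, hD]; ring
      have h4 : 0 ≤ (D - 1) * ε := mul_nonneg (by rw [hD]; linarith) hε0
      have h5 : 0 ≤ (C1 + C2) * (s * nfar M L (t / 2) φ) := mul_nonneg (by linarith) h2
      rw [h3]
      linarith
    linarith
  obtain ⟨a0, a1, a2⟩ := step x (by linarith) le_rfl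
  obtain ⟨b0, b1, b2⟩ := step (x / 2) (by linarith) (by linarith)
  obtain ⟨c0, c1, c2⟩ := step (x / 2 / 2) (by linarith) (by linarith)
  have inner := three hD0.le hg0 hA0 hs0.le hs1 (by rw [hA]; linarith) hM0.le b2 c2
    (nfar_le hlc hadm L _ hLC hn) a0 b0 b1 c0 c1
  rw [← hB] at inner
  have hW0 := badW_nonneg M L x φ
  have hbad : badW M L x φ ≤ 2 / g0 * B * A := by
    have h1 : g0 / 2 * badW M L x φ ≤ B * A := by linarith
    calc badW M L x φ = 2 / g0 * (g0 / 2 * badW M L x φ) := by field_simp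
      _ ≤ 2 / g0 * (B * A) := by gcongr
      _ = _ := by ring
  have hgood : goodE b M L x φ ≤ B * A := by
    have : 0 ≤ g0 / 2 * badW M L x φ := by positivity
    linarith
  rw [← hx, ← hs3, ← hε, ← hA]
  refine ⟨hbad.trans ?_, hgood.trans ?_, ?_⟩
  · refine mul_le_mul_of_nonneg_right ?_ hA0
    rw [hCf]; linarith
  · refine mul_le_mul_of_nonneg_right ?_ hA0
    rw [hCf]; linarith
  -- the outer tails
  intro ρ hρ1 hsupp
  rw [← hL2s]
  have hA1 : 0 ≤ L ^ 2 * s ^ 3 + ρ ^ 2 * ε := by positivity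
  obtain ⟨T, hT⟩ : ∃ T : ℝ, T = K0 * L := ⟨_, rfl⟩
  have hTL : L ≤ T := by
    have h1 : 4 * L ≤ K0 * L := mul_le_mul_of_nonneg_right hK00 hL0.le
    rw [hT]; linarith
  have hT0 : 0 < T := by linarith
  have hmono : expv (fun X => ∑ j, if Cf * L ≤ ‖(X j).1‖ then ‖(X j).1‖ ^ 2 else 0) φ ≤
      expv (fun X => ∑ j, if T ≤ ‖(X j).1‖ then ‖(X j).1‖ ^ 2 else 0) φ := by
    refine expv_mono hlc ((hadm _).1 _ (sq_bdd _)) ((hadm _).1 _ (sq_bdd _)) hLC fun X _ => ?_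
    refine Finset.sum_le_sum fun j _ => ?_
    by_cases h : Cf * L ≤ ‖(X j).1‖
    · have h1 : T ≤ Cf * L := by
        rw [hT]
        refine mul_le_mul_of_nonneg_right ?_ hL0.le
        rw [hCf]; linarith
      rw [if_pos h, if_pos (h1.trans h)]
    · rw [if_neg h]
      split_ifs <;> positivity
  refine hmono.trans ?_
  by_cases hρT : ρ < T
  · have : expv (fun X => ∑ j, if T ≤ ‖(X j).1‖ then ‖(X j).1‖ ^ 2 else 0) φ ≤
        expv (fun _ => (0 : ℝ)) φ := by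
      refine expv_mono hlc ((hadm _).1 _ (sq_bdd _)) ((hadm _).1 _
        ⟨measurable_const, fun R => ⟨_, fun X _ => le_rfl⟩⟩) hLC fun X hX => ?_
      refine le_of_eq (Finset.sum_eq_zero fun j _ => if_neg ?_)
      have := hsupp X hX j
      linarith
    rw [expv_const, zero_mul] at this
    refine this.trans (mul_nonneg ?_ hA1)
    rw [hCf]; linarith
  push Not at hρT
  obtain ⟨m, hm1, hm2⟩ := exists_nat_pow_near (x := ρ / T) (y := (2 : ℝ))
    (by rw [le_div_iff₀ hT0]; linarith) (by norm_num)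
  rw [le_div_iff₀ hT0] at hm1
  rw [div_lt_iff₀ hT0] at hm2
  refine (expv_layer hlc hadm hLC hT0 m hm2 hsupp).trans ?_
  -- the tail recursion
  have e : Fin (3 * M) ≃ (Σ _ : Fin M, Fin 3) :=
    Fintype.equivOfCardEq (by simp [mul_comm])
  have hrec : ∀ k : ℕ, nout (2 ^ (k + 1) * T) φ ≤
      c * (ε + 3 / (2 ^ k * T) ^ 2 * nout (2 ^ k * T) φ) := by
    intro k
    have hk : (1 : ℝ) ≤ 2 ^ k := one_le_pow₀ (by norm_num)
    have hkT : T ≤ 2 ^ k * T := le_mul_of_one_le_left hT0.le hk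
    have h := htail (3 * M) (fun m => cY b M L (e m)) ((M + 1) * L) g (2 ^ k * T) φ (by omega)
      (fun m => ?_) hgpos ?_ (by positivity) ?_ ?_ hφ hn
    · have h1 : Qf (fun m => cY b M L (e m)) φ = Qf (cY b M L) φ := by
        unfold Qf
        congr 1
        congr 1
        funext X
        exact pot_comp e _ X
      have h2 : En (3 * M) (fun m => cY b M L (e m)) = En (3 * M) (cY b M L) :=
        hen.2.2.2.1 _ _ e (cY b M L) (3 * M)
      rw [h1, h2, ← hε, ← hc] at h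
      have h3 : (2 : ℝ) ^ (k + 1) * T = 2 * (2 ^ k * T) := by rw [pow_succ]; ring
      rw [h3]
      exact h
    · show ‖cz M L (e m).1 + b (e m).2‖ ≤ (M + 1) * L
      have h1 := norm_add_le (cz M L (e m).1) (b (e m).2)
      have h2 := cz_norm hL0.le (e m).1
      have h3 := hRb (e m).2
      have : (M + 1 : ℝ) * L = M * L + L := by ring
      linarith
    · have h1 := (mg L (by linarith)).1 1 le_rfl (by omega)
      have h2 : En (3 * M) (fun m => cY b M L (e m)) = En (3 * M) (cY b M L) :=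
        hen.2.2.2.1 _ _ e (cY b M L) (3 * M)
      have h3 : En (3 * M - 1) (fun m => cY b M L (e m)) = En (3 * M - 1) (cY b M L) :=
        hen.2.2.2.1 _ _ e (cY b M L) (3 * M - 1)
      rw [h2, h3, hg]
      simpa using h1
    · refine le_trans ?_ hkT
      have h1 : 2 * ((M + 1) * L) = T / 2 := by rw [hT, hK0]; ring
      rw [h1]; linarith
    · refine le_trans ?_ hkT
      linarith
  have hT24 : 24 * c ≤ T ^ 2 := by
    have h1 : 24 * c ≤ T := by linarith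
    have h2 : T ≤ T ^ 2 := le_self_pow₀ (by linarith) (by norm_num)
    linarith
  have hrr := recur hc0 hε0 hT0 hT24 (n := fun k => nout (2 ^ k * T) φ)
    (fun k => nout_nonneg _ _) hrec m
  simp only [pow_zero, one_mul] at hrr
  have hn0 : nout T φ ≤ Q3 * A := by
    refine (nout_le_nfar hlc hadm (t := x) hLC hL0.le ?_).trans (a1.trans ?_)
    · have h1 : (M : ℝ) * L + x ≤ (M + 1) * L := by
        have : ((M : ℝ) + 1) * L = M * L + L := by ring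
        linarith
      have h2 : ((M : ℝ) + 1) * L = T / 4 := by rw [hT, hK0]; ring
      linarith
    · rw [hQ3]
      calc 3 * M * badW M L x φ ≤ 3 * M * (2 / g0 * B * A) := by gcongr
        _ = _ := by ring
  have hlast : 0 ≤ 4 ^ m * T ^ 2 * nout (2 ^ m * T) φ := by
    have := nout_nonneg (2 ^ m * T) φ
    positivity
  have hρ2 : 4 ^ m * T ^ 2 ≤ ρ ^ 2 := by
    have h1 : (2 ^ m * T) ^ 2 ≤ ρ ^ 2 := pow_le_pow_left₀ (by positivity) hm1 2
    have h4 : ((2 : ℝ) ^ m * T) ^ 2 = 4 ^ m * T ^ 2 := by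
      rw [mul_pow, ← pow_mul, mul_comm m 2, pow_mul]; norm_num
    rw [← h4]; exact h1
  have hT2 : T ^ 2 * nout T φ ≤ K0 ^ 2 * Q3 * (L ^ 2 * s ^ 3 + ρ ^ 2 * ε) := by
    have h2 : L ^ 2 ≤ ρ ^ 2 := pow_le_pow_left₀ hL0.le (by linarith) 2
    calc T ^ 2 * nout T φ ≤ T ^ 2 * (Q3 * A) := by gcongr
      _ = K0 ^ 2 * Q3 * (L ^ 2 * s ^ 3 + L ^ 2 * ε) := by rw [hT, hA]; ring
      _ ≤ _ := by gcongr
  have hce : 3 * c * ε * (4 ^ m * T ^ 2) ≤ 3 * c * (L ^ 2 * s ^ 3 + ρ ^ 2 * ε) := by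
    calc 3 * c * ε * (4 ^ m * T ^ 2) ≤ 3 * c * ε * ρ ^ 2 := by gcongr
      _ = 3 * c * (0 + ρ ^ 2 * ε) := by ring
      _ ≤ _ := by gcongr; positivity
  have hS : ∑ k ∈ Finset.range (m + 1), 4 ^ k * T ^ 2 * nout (2 ^ k * T) φ ≤
      (2 * (K0 ^ 2 * Q3) + 3 * c) * (L ^ 2 * s ^ 3 + ρ ^ 2 * ε) := by
    have : (2 * (K0 ^ 2 * Q3) + 3 * c) * (L ^ 2 * s ^ 3 + ρ ^ 2 * ε) =
      2 * (K0 ^ 2 * Q3 * (L ^ 2 * s ^ 3 + ρ ^ 2 * ε)) + 3 * c * (L ^ 2 * s ^ 3 + ρ ^ 2 * ε) := by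
      ring
    rw [this]
    linarith
  calc 4 * ∑ k ∈ Finset.range (m + 1), 4 ^ k * T ^ 2 * nout (2 ^ k * T) φ ≤
      4 * ((2 * (K0 ^ 2 * Q3) + 3 * c) * (L ^ 2 * s ^ 3 + ρ ^ 2 * ε)) := by gcongr
    _ = (8 * K0 ^ 2 * Q3 + 12 * c) * (L ^ 2 * s ^ 3 + ρ ^ 2 * ε) := by ring
    _ ≤ Cf * (L ^ 2 * s ^ 3 + ρ ^ 2 * ε) := by
      refine mul_le_mul_of_nonneg_right ?_ hA1
      rw [hCf]; linarith

end MolDis
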