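import Pool.Agent.Lib.MP_59f35a_mp.Stmts3

/-!
# MP_59f35a_mp, piece H1: composite molecule, upper bound
-/

set_option autoImplicit false

noncomputable section

open MeasureTheory

namespace MolDis

namespace CompUp

/-- an upper bound of `∫ W ψ²` needs no integrability of the left side if the bound is `≥ 0` -/
lemma expv_le {ι : Type} [Fintype ι] {W ψ : (ι → Om) → ℝ} {B : ℝ} (hB : 0 ≤ B)
    (h : ∀ X, ψ X ≠ 0 → W X ≤ B) (hi : Integrable (fun X => ψ X ^ 2) (mu ι)) :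
    expv W ψ ≤ B * nsq ψ := by
  unfold expv nsq
  by_cases hint : Integrable (fun X => W X * ψ X ^ 2) (mu ι)
  · rw [← integral_const_mul]
    refine integral_mono hint (hi.const_mul B) fun X => ?_
    by_cases hX : ψ X = 0
    · simp [hX]
    · exact mul_le_mul_of_nonneg_right (h X hX) (sq_nonneg _)
  · rw [integral_undef hint]
    exact mul_nonneg hB (integral_nonneg fun _ => sq_nonneg _)

lemma cross_le {ι ι' : Type} [Fintype ι] [Fintype ι'] {W : (ι → Om) → (ι' → Om) → ℝ}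
    {φ : (ι → Om) → ℝ} {φ' : (ι' → Om) → ℝ} {B : ℝ} (hB : 0 ≤ B)
    (h : ∀ X X', φ X ≠ 0 → φ' X' ≠ 0 → W X X' ≤ B)
    (hi : Integrable (fun X => φ X ^ 2) (mu ι)) (hi' : Integrable (fun X => φ' X ^ 2) (mu ι'))
    (h1 : nsq φ = 1) (h1' : nsq φ' = 1) :
    expv (fun X => expv (W X) φ') φ ≤ B := by
  have h2 : ∀ X, φ X ≠ 0 → expv (W X) φ' ≤ B := fun X hX => by
    have := expv_le hB (fun X' hX' => h X X' hX hX') hi'
    rwa [h1', mul_one] at this
  have := expv_le hB h2 hi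
  rwa [h1, mul_one] at this

lemma cz_dist {M : ℕ} {L : ℝ} (hL : 0 ≤ L) {i j : Fin M} (h : i ≠ j) :
    L ≤ ‖cz M L i - cz M L j‖ := by
  have e : cz M L i - cz M L j = EuclideanSpace.single 0 ((((i : ℕ) : ℝ) - ((j : ℕ) : ℝ)) * L) := by
    unfold cz
    ext t
    by_cases ht : t = 0
    · subst ht; simp [sub_mul]
    · simp [ht]
  rw [e, PiLp.norm_single, Real.norm_eq_abs, abs_mul, abs_of_nonneg hL]
  have h1 : (1 : ℝ) ≤ |((i : ℕ) : ℝ) - ((j : ℕ) : ℝ)| := by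
    have h2 : ((i : ℕ) : ℤ) - ((j : ℕ) : ℤ) ≠ 0 := by
      intro h0
      apply h
      ext
      omega
    have h3 := Int.one_le_abs h2
    exact_mod_cast h3
  nlinarith

lemma Tvec_le (w a : E3) (hw : w ≠ 0) : ‖Tvec w a‖ ≤ 4 * ‖a‖ / ‖w‖ ^ 3 := by
  have hw0 : 0 < ‖w‖ := norm_pos_iff.mpr hw
  unfold Tvec
  rw [norm_smul, Real.norm_eq_abs, abs_of_nonneg (by positivity)]
  have h1 : ‖a - (3 * inner ℝ a w / ‖w‖ ^ 2) • w‖ ≤ 4 * ‖a‖ := by
    refine (norm_sub_le _ _).trans ?_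
    rw [norm_smul, Real.norm_eq_abs, abs_div, abs_mul, abs_of_pos (show (0 : ℝ) < 3 by norm_num),
      abs_of_nonneg (sq_nonneg ‖w‖)]
    have h2 := abs_real_inner_le_norm a w
    have h3 : 3 * |inner ℝ a w| / ‖w‖ ^ 2 * ‖w‖ ≤ 3 * ‖a‖ := by
      rw [div_mul_eq_mul_div, div_le_iff₀ (by positivity)]
      nlinarith
    linarith
  calc 1 / ‖w‖ ^ 3 * ‖a - (3 * inner ℝ a w / ‖w‖ ^ 2) • w‖ ≤ 1 / ‖w‖ ^ 3 * (4 * ‖a‖) :=
        mul_le_mul_of_nonneg_left h1 (by positivity)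
    _ = 4 * ‖a‖ / ‖w‖ ^ 3 := by ring

lemma real_aux {C N ρ L w S1 S1' S2 S2' : ℝ} (hC : 0 ≤ C) (hN : 0 ≤ N) (hρ : 0 ≤ ρ) (hL : 0 < L)
    (hz : L ≤ w) (n1 : 0 ≤ S1) (n1' : 0 ≤ S1') (n2 : 0 ≤ S2) (n2' : 0 ≤ S2')
    (a1 : S1 ≤ N * ρ) (a1' : S1' ≤ N * ρ) (a2 : S2 ≤ N * ρ ^ 2) (a2' : S2' ≤ N * ρ ^ 2) :
    C / w ^ 4 * (S1 * S2' + S2 * S1') ≤
      C / L ^ 4 * ((N * ρ) * (N * ρ ^ 2) + (N * ρ ^ 2) * (N * ρ)) := by
  have h4 : L ^ 4 ≤ w ^ 4 := pow_le_pow_left₀ hL.le hz 4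
  have h5 : 0 ≤ N * ρ := mul_nonneg hN hρ
  have h6 : 0 ≤ N * ρ ^ 2 := mul_nonneg hN (sq_nonneg ρ)
  refine mul_le_mul (div_le_div₀ hC le_rfl (by positivity) h4)
    (add_le_add (mul_le_mul a1 a2' n2' h5) (mul_le_mul a2 a1' n1' h6))
    (by positivity) (by positivity)

/-- interaction of two neutral cells of radius `ρ` with three protons each -/
lemma neutral_le {C : ℝ}
    (hm : ∀ (n n' : Type) [Fintype n] [Fintype n'] (q : n → ℝ) (q' : n' → ℝ)
      (x : n → E3) (x' : n' → E3) (z z' : E3), z ≠ z' →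
      (∀ i, ‖x i - z‖ ≤ ‖z - z'‖ / 4) → (∀ i, ‖x' i - z'‖ ≤ ‖z - z'‖ / 4) →
      (∑ i, q i = 0 → ∑ i, q' i = 0 →
      |(∑ i, ∑ j, q i * q' j * cou (x i) (x' j))
        - inner ℝ (Tvec (z - z') (∑ i, q i • (x i - z))) (∑ i, q' i • (x' i - z'))|
      ≤ C / ‖z - z'‖ ^ 4 *
        ((∑ i, |q i| * ‖x i - z‖) * (∑ i, |q' i| * ‖x' i - z'‖ ^ 2)
        + (∑ i, |q i| * ‖x i - z‖ ^ 2) * (∑ i, |q' i| * ‖x' i - z'‖))))
    (hC : 0 ≤ C) {n n' : Type} [Fintype n] [Fintype n'] (q : n → ℝ) (q' : n' → ℝ)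
    (x : n → E3) (x' : n' → E3) (z z' : E3) {ρ L N : ℝ} (hρ : 0 ≤ ρ) (hL : 0 < L)
    (hρL : ρ ≤ L / 4) (hz : L ≤ ‖z - z'‖)
    (hx : ∀ i, ‖x i - z‖ ≤ ρ) (hx' : ∀ i, ‖x' i - z'‖ ≤ ρ)
    (hq : ∀ i, |q i| = 1) (hq' : ∀ i, |q' i| = 1)
    (hn : (Fintype.card n : ℝ) = N) (hn' : (Fintype.card n' : ℝ) = N)
    (h0 : ∑ i, q i = 0) (h0' : ∑ i, q' i = 0) :
    (∑ i, ∑ j, q i * q' j * cou (x i) (x' j)) ≤ (4 + C) * N ^ 2 * (ρ ^ 2 / L ^ 3) := by
  have hw0 : 0 < ‖z - z'‖ := hL.trans_le hz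
  have hne : z ≠ z' := fun h => by simp [h] at hw0
  have hN : 0 ≤ N := hn ▸ Nat.cast_nonneg _
  have key := hm n n' q q' x x' z z' hne (fun i => (hx i).trans (by linarith))
    (fun i => (hx' i).trans (by linarith)) h0 h0'
  have s1 : ∀ (m : Type) [Fintype m] (p : m → ℝ) (y : m → E3) (w : E3), (∀ i, |p i| = 1) →
      (∀ i, ‖y i - w‖ ≤ ρ) → (Fintype.card m : ℝ) = N → ∑ i, |p i| * ‖y i - w‖ ≤ N * ρ := by
    intro m _ p y w hp hy hm
    calc ∑ i, |p i| * ‖y i - w‖ ≤ ∑ _i : m, ρ := Finset.sum_le_sum fun i _ => by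
          rw [hp i, one_mul]; exact hy i
      _ = N * ρ := by simp [hm]
  have s2 : ∀ (m : Type) [Fintype m] (p : m → ℝ) (y : m → E3) (w : E3), (∀ i, |p i| = 1) →
      (∀ i, ‖y i - w‖ ≤ ρ) → (Fintype.card m : ℝ) = N →
      ∑ i, |p i| * ‖y i - w‖ ^ 2 ≤ N * ρ ^ 2 := by
    intro m _ p y w hp hy hm
    calc ∑ i, |p i| * ‖y i - w‖ ^ 2 ≤ ∑ _i : m, ρ ^ 2 := Finset.sum_le_sum fun i _ => by
          rw [hp i, one_mul]; exact pow_le_pow_left₀ (norm_nonneg _) (hy i) 2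
      _ = N * ρ ^ 2 := by simp [hm]
  have s3 : ∀ (m : Type) [Fintype m] (p : m → ℝ) (y : m → E3) (w : E3), (∀ i, |p i| = 1) →
      (∀ i, ‖y i - w‖ ≤ ρ) → (Fintype.card m : ℝ) = N → ‖∑ i, p i • (y i - w)‖ ≤ N * ρ := by
    intro m _ p y w hp hy hm
    refine (norm_sum_le _ _).trans (le_trans (Finset.sum_le_sum fun i _ => ?_) (s1 m p y w hp hy hm))
    rw [norm_smul, Real.norm_eq_abs]
  have a1 := s1 n q x z hq hx hn
  have a1' := s1 n' q' x' z' hq' hx' hn'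
  have a2 := s2 n q x z hq hx hn
  have a2' := s2 n' q' x' z' hq' hx' hn'
  have a3 := s3 n q x z hq hx hn
  have a3' := s3 n' q' x' z' hq' hx' hn'
  have n1 : 0 ≤ ∑ i, |q i| * ‖x i - z‖ := Finset.sum_nonneg fun _ _ => by positivity
  have n1' : 0 ≤ ∑ i, |q' i| * ‖x' i - z'‖ := Finset.sum_nonneg fun _ _ => by positivity
  have n2 : 0 ≤ ∑ i, |q i| * ‖x i - z‖ ^ 2 := Finset.sum_nonneg fun _ _ => by positivity
  have n2' : 0 ≤ ∑ i, |q' i| * ‖x' i - z'‖ ^ 2 := Finset.sum_nonneg fun _ _ => by positivity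
  have b1 : inner ℝ (Tvec (z - z') (∑ i, q i • (x i - z))) (∑ i, q' i • (x' i - z')) ≤
      4 * (N * ρ) / L ^ 3 * (N * ρ) := by
    refine (real_inner_le_norm _ _).trans ?_
    refine mul_le_mul ?_ a3' (norm_nonneg _) (by positivity)
    refine (Tvec_le _ _ (sub_ne_zero.mpr hne)).trans ?_
    have h3 : L ^ 3 ≤ ‖z - z'‖ ^ 3 := pow_le_pow_left₀ hL.le hz 3
    exact div_le_div₀ (by positivity) (by linarith) (by positivity) h3
  have b2 : C / ‖z - z'‖ ^ 4 *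
        ((∑ i, |q i| * ‖x i - z‖) * (∑ i, |q' i| * ‖x' i - z'‖ ^ 2)
        + (∑ i, |q i| * ‖x i - z‖ ^ 2) * (∑ i, |q' i| * ‖x' i - z'‖)) ≤
      C / L ^ 4 * ((N * ρ) * (N * ρ ^ 2) + (N * ρ ^ 2) * (N * ρ)) :=
    real_aux hC hN hρ hL hz n1 n1' n2 n2' a1 a1' a2 a2'
  have b3 : C / L ^ 4 * ((N * ρ) * (N * ρ ^ 2) + (N * ρ ^ 2) * (N * ρ)) ≤
      C * N ^ 2 * (ρ ^ 2 / L ^ 3) := by
    have e : C / L ^ 4 * ((N * ρ) * (N * ρ ^ 2) + (N * ρ ^ 2) * (N * ρ)) =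
        C * N ^ 2 * (ρ ^ 2 / L ^ 3) * (2 * ρ / L) := by
      field_simp
      ring
    rw [e]
    have h5 : 2 * ρ / L ≤ 1 := by
      rw [div_le_one hL]; linarith
    exact mul_le_of_le_one_right (by positivity) h5
  have b4 : 4 * (N * ρ) / L ^ 3 * (N * ρ) = 4 * N ^ 2 * (ρ ^ 2 / L ^ 3) := by ring
  have := (abs_le.mp key).2
  rw [b4] at b1
  linarith

end CompUp

theorem p_compUp (hlc : S_lc) (hup : S_upper) (hmom : S_mom) (hmult : S_mult) (hsh : S_shift) :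
    S_compUp := by
  intro b M a η hM _ hmarg hη hη4
  obtain ⟨Cm, hCm, hm⟩ := hmult
  have hg := hmarg.1 1 le_rfl (by norm_num)
  have hg' : 1 / 4 - η ≤ En (3 - 1) b - En 3 b := by simpa using hg
  obtain ⟨C1, hC1, hC1'⟩ := hmom 3 b (1 / 4 - η) (by norm_num) (by linarith) hg'
  set r : ℝ := C1 + ∑ m, ‖b m‖ with hr
  have hb : ∀ m, ‖b m‖ ≤ r := by
    intro m
    have h1 : ‖b m‖ ≤ ∑ m, ‖b m‖ :=
      Finset.single_le_sum (f := fun m => ‖b m‖) (fun _ _ => norm_nonneg _) (Finset.mem_univ m)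
    linarith
  have hC1r : C1 ≤ r := by
    have : 0 ≤ ∑ m, ‖b m‖ := Finset.sum_nonneg fun _ _ => norm_nonneg _
    linarith
  have hr1 : 1 ≤ r := hC1.trans hC1r
  have hM' : (1 : ℝ) ≤ M := by exact_mod_cast hM
  refine ⟨M * C1 + M ^ 2 * ((4 + Cm) * 6 ^ 2), 16 + r ^ 3, ?_, ?_, fun L hL => ?_⟩
  · have : (1 : ℝ) ≤ M * C1 := one_le_mul_of_one_le_of_one_le hM' hC1
    have h2 : (0 : ℝ) ≤ M ^ 2 * ((4 + Cm) * 6 ^ 2) := by positivity
    linarith
  · have : 0 ≤ r ^ 3 := by positivity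
    linarith
  · have hr3 : 0 ≤ r ^ 3 := by positivity
    have hL16 : 16 ≤ L := by linarith
    have hL0 : 0 < L := by linarith
    have hLr : r ^ 3 ≤ L := by linarith
    set ρ : ℝ := L ^ (3 / 8 : ℝ) with hρdef
    have hρ0 : 0 < ρ := Real.rpow_pos_of_pos hL0 _
    have hρ6 : 1 / ρ ^ 6 = L ^ (-(9 / 4 : ℝ)) := by
      rw [hρdef, ← Real.rpow_natCast (L ^ (3 / 8 : ℝ)) 6, ← Real.rpow_mul hL0.le,
        Real.rpow_neg hL0.le, one_div]
      norm_num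
    have hρ2 : ρ ^ 2 / L ^ 3 = L ^ (-(9 / 4 : ℝ)) := by
      rw [hρdef, ← Real.rpow_natCast (L ^ (3 / 8 : ℝ)) 2, ← Real.rpow_mul hL0.le,
        ← Real.rpow_natCast L 3, ← Real.rpow_sub hL0]
      norm_num
    have hρr : r ≤ ρ := by
      have h1 : r = (r ^ 3) ^ (1 / 3 : ℝ) := by
        rw [← Real.rpow_natCast r 3, ← Real.rpow_mul (by linarith)]
        norm_num
      rw [h1]
      calc (r ^ 3) ^ (1 / 3 : ℝ) ≤ L ^ (1 / 3 : ℝ) :=
            Real.rpow_le_rpow hr3 hLr (by norm_num)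
        _ ≤ L ^ (3 / 8 : ℝ) := Real.rpow_le_rpow_of_exponent_le (by linarith) (by norm_num)
    have hρL : ρ ≤ L / 4 := by
      have h1 : (4 : ℝ) ≤ L ^ (1 / 2 : ℝ) := by
        have : (4 : ℝ) = 16 ^ (1 / 2 : ℝ) := by
          rw [show (16 : ℝ) = 4 ^ (2 : ℝ) by norm_num, ← Real.rpow_mul (by norm_num)]
          norm_num
        rw [this]
        exact Real.rpow_le_rpow (by norm_num) hL16 (by norm_num)
      have h2 : ρ ≤ L ^ (1 / 2 : ℝ) :=
        Real.rpow_le_rpow_of_exponent_le (by linarith) (by norm_num)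
      have h3 : L ^ (1 / 2 : ℝ) * L ^ (1 / 2 : ℝ) = L := by
        rw [← Real.rpow_add hL0]
        norm_num
      have h4 : 0 ≤ L ^ (1 / 2 : ℝ) := Real.rpow_nonneg hL0.le _
      nlinarith
    obtain ⟨-, φ, hφ, hφ1, hφs, hφE⟩ := hC1' ρ (hC1r.trans hρr)
    set φz : Fin M → (Fin 3 → Om) → ℝ := fun k X => φ (fun j => ((X j).1 - cz M L k, (X j).2))
      with hφz
    have hwf : ∀ k, WF (φz k) := fun k => (hsh (Fin 3) (cz M L k) φ).2.1 hφ
    have hn1 : ∀ k, nsq (φz k) = 1 := fun k => by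
      rw [← hφ1]; exact (hsh (Fin 3) (cz M L k) φ).2.2.1
    have hQ : ∀ k, Qf (fun m => cz M L k + b m) (φz k) = Qf b φ := fun k =>
      (hsh (Fin 3) (cz M L k) φ).2.2.2.2.2 (Fin 3) b
    have hs : ∀ k X, φz k X ≠ 0 → ∀ j, ‖(X j).1 - cz M L k‖ ≤ ρ := fun k X hX j => hφs _ hX j
    have hi : ∀ k, Integrable (fun X => φz k X ^ 2) (mu (Fin 3)) := fun k =>
      (hlc _ _ (hwf k).toLC).2.2.2.2.2.2
    have key := hup (Fin M) (fun _ => 3) (fun _ => 3) (fun _ => b) (cz M L)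
      (fun k => Metric.closedBall (cz M L k) ρ) φz ?_ ?_
    · have e1 : ∑ _k : Fin M, 3 = 3 * M := by simp [mul_comm]
      rw [e1] at key
      have hcr : ∀ k k', (if k = k' then 0 else
          crossQ b (cz M L k) (φz k) b (cz M L k') (φz k')) ≤
          (4 + Cm) * 6 ^ 2 * L ^ (-(9 / 4 : ℝ)) := by
        intro k k'
        by_cases hk : k = k'
        · rw [if_pos hk]
          have := Real.rpow_nonneg hL0.le (-(9 / 4 : ℝ))
          positivity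
        · rw [if_neg hk, ← hρ2]
          unfold crossQ
          refine CompUp.cross_le (by positivity) (fun X X' hX hX' => ?_) (hi k) (hi k') (hn1 k)
            (hn1 k')
          refine CompUp.neutral_le (C := Cm) (fun n n' _ _ q q' x x' z z' hz hx hx' =>
            (hm n n' q q' x x' z z' hz hx hx').1) (by linarith) bq bq
            (bpos b (cz M L k) X) (bpos b (cz M L k') X') (cz M L k) (cz M L k') hρ0.le hL0 hρL
            (CompUp.cz_dist hL0.le hk) ?_ ?_ ?_ ?_ (by norm_num) (by norm_num) ?_ ?_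
          · rintro (m | j)
            · simpa [bpos] using (hb m).trans hρr
            · simpa [bpos] using hs k X hX j
          · rintro (m | j)
            · simpa [bpos] using (hb m).trans hρr
            · simpa [bpos] using hs k' X' hX' j
          · rintro (m | j) <;> simp [bq]
          · rintro (m | j) <;> simp [bq]
          · simp [bq]
          · simp [bq]
      have hsum : ∑ k, ∑ k', (if k = k' then 0 else
          crossQ b (cz M L k) (φz k) b (cz M L k') (φz k')) ≤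
          M ^ 2 * ((4 + Cm) * 6 ^ 2 * L ^ (-(9 / 4 : ℝ))) := by
        refine (Finset.sum_le_sum fun k _ => Finset.sum_le_sum fun k' _ => hcr k k').trans ?_
        simp only [Finset.sum_const, Finset.card_univ, Fintype.card_fin, nsmul_eq_mul]
        apply le_of_eq
        ring
      have hsum1 : ∑ k : Fin M, Qf (fun m => cz M L k + b m) (φz k) ≤
          M * (En 3 b + C1 * L ^ (-(9 / 4 : ℝ))) := by
        calc _ ≤ ∑ _k : Fin M, (En 3 b + C1 * L ^ (-(9 / 4 : ℝ))) :=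
              Finset.sum_le_sum fun k _ => by
                rw [hQ k]
                refine hφE.trans ?_
                rw [← hρ6]
                apply le_of_eq
                ring
          _ = _ := by simp [mul_add]
      have hLn := Real.rpow_nonneg hL0.le (-(9 / 4 : ℝ))
      have hfin : En (3 * M) (cY b M L) ≤ M * (En 3 b + C1 * L ^ (-(9 / 4 : ℝ))) +
          1 / 2 * (M ^ 2 * ((4 + Cm) * 6 ^ 2 * L ^ (-(9 / 4 : ℝ)))) := by
        refine le_trans key ?_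
        exact add_le_add hsum1 (mul_le_mul_of_nonneg_left hsum (by norm_num))
      have h6 : 0 ≤ (M : ℝ) ^ 2 * ((4 + Cm) * 6 ^ 2 * L ^ (-(9 / 4 : ℝ))) := by positivity
      have e7 : (M : ℝ) * En 3 b + (M * C1 + M ^ 2 * ((4 + Cm) * 6 ^ 2)) * L ^ (-(9 / 4 : ℝ)) =
          M * (En 3 b + C1 * L ^ (-(9 / 4 : ℝ))) +
            M ^ 2 * ((4 + Cm) * 6 ^ 2 * L ^ (-(9 / 4 : ℝ))) := by ring
      rw [e7]
      linarith
    · intro k k' hk
      rw [Set.disjoint_left]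
      intro x hx hx'
      rw [Metric.mem_closedBall, dist_eq_norm] at hx hx'
      have h1 := CompUp.cz_dist hL0.le hk
      have h2 : cz M L k - cz M L k' = (x - cz M L k') - (x - cz M L k) := by abel
      rw [h2] at h1
      have h3 := norm_sub_le (x - cz M L k') (x - cz M L k)
      linarith
    · intro k
      refine ⟨hwf k, hn1 k, fun X hX j => ?_⟩
      rw [Metric.mem_closedBall, dist_eq_norm]
      exact hs k X hX j

end MolDis
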