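import Pool.Agent.Lib.MP_59f35a_mp.Stmts1

/-!
# MP_59f35a_mp : piece A8, radial cut-offs
-/

set_option autoImplicit false

noncomputable section

open MeasureTheory Filter Topology

namespace MolDis

private def tt (r s : ℝ) : ℝ := max 0 (min 1 (2 * s / r - 1))

private lemma tt_nonneg (r s : ℝ) : 0 ≤ tt r s := le_max_left _ _

private lemma tt_le_one (r s : ℝ) : tt r s ≤ 1 := max_le (by norm_num) (min_le_left _ _)

private lemma pIn_eq (r : ℝ) (x : E3) : pIn r x = Real.cos (Real.pi / 2 * tt r ‖x‖) := rfl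

private lemma pOut_eq (r : ℝ) (x : E3) : pOut r x = Real.sin (Real.pi / 2 * tt r ‖x‖) := rfl

private lemma tt_of_ge {r s : ℝ} (hr : 0 < r) (h : r ≤ s) : tt r s = 1 := by
  unfold tt
  have : 1 ≤ 2 * s / r - 1 := by
    rw [le_sub_iff_add_le, le_div_iff₀ hr]; linarith
  rw [min_eq_left this]; norm_num

private lemma tt_of_le {r s : ℝ} (hr : 0 < r) (h : s ≤ r / 2) : tt r s = 0 := by
  unfold tt
  have : 2 * s / r - 1 ≤ 0 := by
    rw [sub_nonpos, div_le_iff₀ hr]; linarith
  rw [max_eq_left]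
  exact (min_le_right _ _).trans this

private lemma tt_of_mid {r s : ℝ} (hr : 0 < r) (h : r / 2 ≤ s) (h' : s ≤ r) :
    tt r s = 2 * s / r - 1 := by
  unfold tt
  have h1 : 2 * s / r - 1 ≤ 1 := by
    rw [sub_le_iff_le_add, div_le_iff₀ hr]; linarith
  have h2 : 0 ≤ 2 * s / r - 1 := by
    rw [sub_nonneg, le_div_iff₀ hr]; linarith
  rw [min_eq_right h1, max_eq_right h2]

private lemma pIn_nonneg (r : ℝ) (x : E3) : 0 ≤ pIn r x := by
  rw [pIn_eq]
  have h1 := tt_nonneg r ‖x‖
  have h2 := tt_le_one r ‖x‖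
  apply Real.cos_nonneg_of_neg_pi_div_two_le_of_le
  · have := Real.pi_pos; nlinarith
  · have := Real.pi_pos; nlinarith

private lemma pIn_le_one (r : ℝ) (x : E3) : pIn r x ≤ 1 := Real.cos_le_one _

private lemma pOut_nonneg (r : ℝ) (x : E3) : 0 ≤ pOut r x := by
  rw [pOut_eq]
  have h1 := tt_nonneg r ‖x‖
  have h2 := tt_le_one r ‖x‖
  apply Real.sin_nonneg_of_nonneg_of_le_pi
  · have := Real.pi_pos; positivity
  · have := Real.pi_pos; nlinarith

private lemma pOut_le_one (r : ℝ) (x : E3) : pOut r x ≤ 1 := Real.sin_le_one _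

private lemma pIn_ge {r : ℝ} (hr : 0 < r) {x : E3} (h : r ≤ ‖x‖) : pIn r x = 0 := by
  rw [pIn_eq, tt_of_ge hr h]; simp

private lemma pIn_lt {r : ℝ} (hr : 0 < r) {x : E3} (h : ‖x‖ ≤ r / 2) : pIn r x = 1 := by
  rw [pIn_eq, tt_of_le hr h]; simp

private lemma pOut_ge {r : ℝ} (hr : 0 < r) {x : E3} (h : r ≤ ‖x‖) : pOut r x = 1 := by
  rw [pOut_eq, tt_of_ge hr h]; simp

private lemma pOut_lt {r : ℝ} (hr : 0 < r) {x : E3} (h : ‖x‖ ≤ r / 2) : pOut r x = 0 := by
  rw [pOut_eq, tt_of_le hr h]; simp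

private lemma pIn_pOut (r : ℝ) (x : E3) : pIn r x ^ 2 + pOut r x ^ 2 = 1 :=
  Real.cos_sq_add_sin_sq _

private lemma tt_lip {r : ℝ} (hr : 0 < r) (s t : ℝ) : |tt r s - tt r t| ≤ 2 / r * |s - t| := by
  unfold tt
  calc |max 0 (min 1 (2 * s / r - 1)) - max 0 (min 1 (2 * t / r - 1))|
      ≤ max |(0 : ℝ) - 0| |min 1 (2 * s / r - 1) - min 1 (2 * t / r - 1)| :=
        abs_max_sub_max_le_max _ _ _ _
    _ = |min 1 (2 * s / r - 1) - min 1 (2 * t / r - 1)| := by simp
    _ ≤ max |(1 : ℝ) - 1| |(2 * s / r - 1) - (2 * t / r - 1)| := abs_min_sub_min_le_max _ _ _ _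
    _ = |(2 * s / r - 1) - (2 * t / r - 1)| := by simp
    _ = 2 / r * |s - t| := by
        rw [show (2 * s / r - 1) - (2 * t / r - 1) = 2 / r * (s - t) by ring, abs_mul,
          abs_of_pos (by positivity)]

private lemma ang_lip {r : ℝ} (hr : 0 < r) (x y z : E3) :
    |Real.pi / 2 * tt r ‖x - z‖ - Real.pi / 2 * tt r ‖y - z‖| ≤ Real.pi / r * ‖x - y‖ := by
  rw [← mul_sub, abs_mul, abs_of_pos (by positivity : (0 : ℝ) < Real.pi / 2)]
  have h1 := tt_lip hr ‖x - z‖ ‖y - z‖
  have h2 : |‖x - z‖ - ‖y - z‖| ≤ ‖x - y‖ := by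
    have := abs_norm_sub_norm_le (x - z) (y - z)
    simpa using this
  calc Real.pi / 2 * |tt r ‖x - z‖ - tt r ‖y - z‖| ≤ Real.pi / 2 * (2 / r * ‖x - y‖) := by
        gcongr
        exact h1.trans (by gcongr)
    _ = _ := by ring

private lemma pIn_lip {r : ℝ} (hr : 0 < r) (x y z : E3) :
    |pIn r (x - z) - pIn r (y - z)| ≤ Real.pi / r * ‖x - y‖ := by
  refine le_trans ?_ (ang_lip hr x y z)
  rw [pIn_eq, pIn_eq]
  exact Real.abs_cos_sub_cos_le _ _

private lemma pOut_lip {r : ℝ} (hr : 0 < r) (x y z : E3) :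
    |pOut r (x - z) - pOut r (y - z)| ≤ Real.pi / r * ‖x - y‖ := by
  refine le_trans ?_ (ang_lip hr x y z)
  rw [pOut_eq, pOut_eq]
  exact Real.abs_sin_sub_sin_le _ _

private lemma prod_lip {K : Type} (s : Finset K) (f g : K → ℝ) {c : ℝ}
    (hf : ∀ k, |f k| ≤ 1) (hg : ∀ k, |g k| ≤ 1) (h : ∀ k, |f k - g k| ≤ c) :
    |∏ k ∈ s, f k - ∏ k ∈ s, g k| ≤ s.card * c := by
  classical
  induction s using Finset.induction_on with
  | empty => simp
  | insert a s ha ih =>
    rw [Finset.prod_insert ha, Finset.prod_insert ha, Finset.card_insert_of_notMem ha]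
    have h1 : f a * ∏ k ∈ s, f k - g a * ∏ k ∈ s, g k =
        f a * (∏ k ∈ s, f k - ∏ k ∈ s, g k) + (f a - g a) * ∏ k ∈ s, g k := by ring
    have h2 : |∏ k ∈ s, g k| ≤ 1 := by
      rw [Finset.abs_prod]
      exact Finset.prod_le_one (fun _ _ => abs_nonneg _) fun k _ => hg k
    rw [h1]
    calc |f a * (∏ k ∈ s, f k - ∏ k ∈ s, g k) + (f a - g a) * ∏ k ∈ s, g k|
        ≤ |f a| * |∏ k ∈ s, f k - ∏ k ∈ s, g k| + |f a - g a| * |∏ k ∈ s, g k| := by
          refine (abs_add_le _ _).trans ?_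
          rw [abs_mul, abs_mul]
      _ ≤ 1 * (s.card * c) + c * 1 := by
          have hc : 0 ≤ c := (abs_nonneg _).trans (h a)
          gcongr
          · exact hf a
          · exact h a
      _ = _ := by push_cast; ring

private lemma fderiv_zero_of_le {f : E3 → ℝ} (h0 : ∀ x, 0 ≤ f x) (h1 : ∀ x, f x ≤ 1) {x : E3}
    (hx : f x = 0 ∨ f x = 1) : fderiv ℝ f x = 0 := by
  rcases hx with hx | hx
  · exact IsLocalMin.fderiv_eq_zero (Eventually.of_forall fun y => by rw [hx]; exact h0 y)
  · exact IsLocalMax.fderiv_eq_zero (Eventually.of_forall fun y => by rw [hx]; exact h1 y)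

theorem p_cut : S_cut := by
  intro K _ _ r z hr hz
  have hfar : ∀ x k, ‖x - z k‖ < r → ∀ k', k' ≠ k → r < ‖x - z k'‖ := by
    intro x k hk k' hkk
    have h1 := hz k' k hkk
    have h2 : ‖z k' - z k‖ ≤ ‖x - z k‖ + ‖x - z k'‖ := by
      have : z k' - z k = (x - z k) - (x - z k') := by abel
      rw [this]; exact norm_sub_le _ _
    linarith
  have hn0 : ∀ x, 0 ≤ cellPU r z none x := fun x =>
    Finset.prod_nonneg fun k _ => pOut_nonneg r _
  have hn1 : ∀ x, cellPU r z none x ≤ 1 := fun x =>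
    Finset.prod_le_one (fun k _ => pOut_nonneg r _) fun k _ => pOut_le_one r _
  have hs0 : ∀ k x, 0 ≤ cellPU r z (some k) x := fun k x => pIn_nonneg r _
  have hs1 : ∀ k x, cellPU r z (some k) x ≤ 1 := fun k x => pIn_le_one r _
  -- the vacuum function near the cell `k`
  have hnk : ∀ x k, (∀ k', k' ≠ k → r ≤ ‖x - z k'‖) → cellPU r z none x = pOut r (x - z k) := by
    intro x k hk
    change ∏ k, pOut r (x - z k) = _
    rw [Finset.prod_eq_single k (fun k' _ hk' => pOut_ge hr (hk k' hk')) (by simp)]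
  have hnall : ∀ x, (∀ k, r ≤ ‖x - z k‖) → cellPU r z none x = 1 := by
    intro x hk
    exact Finset.prod_eq_one fun k _ => pOut_ge hr (hk k)
  have hsall : ∀ x k, r ≤ ‖x - z k‖ → cellPU r z (some k) x = 0 := fun x k h => pIn_ge hr h
  have hsin : ∀ x k, ‖x - z k‖ ≤ r / 2 → cellPU r z (some k) x = 1 := fun x k h => pIn_lt hr h
  have hnin : ∀ x k, ‖x - z k‖ ≤ r / 2 → cellPU r z none x = 0 := fun x k h =>
    Finset.prod_eq_zero (Finset.mem_univ k) (pOut_lt hr h)
  -- the localisation error vanishes away from the annuli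
  have hzero : ∀ x, (∀ k, ‖x - z k‖ ≤ r / 2 ∨ r ≤ ‖x - z k‖) → puG (cellPU r z) x = 0 := by
    intro x hx
    refine Finset.sum_eq_zero fun o _ => ?_
    have : fderiv ℝ (cellPU r z o) x = 0 := by
      cases o with
      | some k =>
        refine fderiv_zero_of_le (hs0 k) (hs1 k) ?_
        rcases hx k with h | h
        · exact Or.inr (hsin x k h)
        · exact Or.inl (hsall x k h)
      | none =>
        refine fderiv_zero_of_le hn0 hn1 ?_
        by_cases h : ∃ k, ‖x - z k‖ ≤ r / 2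
        · obtain ⟨k, hk⟩ := h
          exact Or.inl (hnin x k hk)
        · push Not at h
          exact Or.inr (hnall x fun k => (hx k).resolve_left (not_le.2 (h k)))
    rw [this]; simp
  refine ⟨⟨⟨(Fintype.card K + 1) * (Real.pi / r), ?_⟩, ?_⟩, ?_, ?_, fun k x => hsin x k, ?_, ?_, ?_⟩
  · -- Lipschitz
    intro o x y
    have hp : 0 ≤ Real.pi / r * ‖x - y‖ := by positivity
    cases o with
    | some k =>
      refine (pIn_lip hr x y (z k)).trans ?_
      have : (0 : ℝ) ≤ Fintype.card K := by positivity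
      nlinarith
    | none =>
      change |∏ k, pOut r (x - z k) - ∏ k, pOut r (y - z k)| ≤ _
      refine (prod_lip Finset.univ _ _ (fun k => ?_) (fun k => ?_)
        fun k => pOut_lip hr x y (z k)).trans ?_
      · rw [abs_of_nonneg (pOut_nonneg r _)]; exact pOut_le_one r _
      · rw [abs_of_nonneg (pOut_nonneg r _)]; exact pOut_le_one r _
      · rw [Finset.card_univ]
        nlinarith
  · -- squares
    intro x
    rw [Fintype.sum_option]
    by_cases h : ∃ k, ‖x - z k‖ < r
    · obtain ⟨k, hk⟩ := h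
      have hf := hfar x k hk
      rw [hnk x k fun k' hk' => (hf k' hk').le, Finset.sum_eq_single k
        (fun k' _ hk' => by rw [hsall x k' (hf k' hk').le]; simp) (by simp)]
      rw [add_comm]
      exact pIn_pOut r _
    · push Not at h
      rw [hnall x h, Finset.sum_eq_zero fun k _ => by rw [hsall x k (h k)]; simp]
      norm_num
  · intro k x h
    by_contra hc
    exact h (hsall x k (not_lt.1 hc))
  · intro x h k
    by_contra hc
    exact h (hnin x k (not_lt.1 hc))
  · -- the bound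
    intro x
    by_cases hx : ∀ k, ‖x - z k‖ ≤ r / 2 ∨ r ≤ ‖x - z k‖
    · rw [hzero x hx]; positivity
    · push Not at hx
      obtain ⟨k, hk1, hk2⟩ := hx
      have hf := hfar x k hk2
      have hne : x - z k ≠ 0 := by
        intro h
        rw [h, norm_zero] at hk1
        linarith
      -- the norm
      set N : E3 → ℝ := fun y => ‖y - z k‖ with hN
      have hNd : DifferentiableAt ℝ N x :=
        ((differentiableAt_id.sub_const (z k)).norm ℝ hne)
      have hNl : ‖fderiv ℝ N x‖ ≤ 1 := by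
        refine norm_fderiv_le_of_lip' ℝ (by norm_num) (Eventually.of_forall fun y => ?_)
        rw [Real.norm_eq_abs, one_mul]
        have := abs_norm_sub_norm_le (y - z k) (x - z k)
        simpa using this
      have hev : ∀ᶠ y in 𝓝 x, r / 2 < N y ∧ N y < r := by
        have hc : ContinuousAt N x := hNd.continuousAt
        exact (hc.eventually (lt_mem_nhds hk1)).and (hc.eventually (gt_mem_nhds hk2))
      have hA : HasFDerivAt (fun y => Real.pi / 2 * (2 * N y / r - 1))
          ((Real.pi / r) • fderiv ℝ N x) x := by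
        have h1 := (hNd.hasFDerivAt.const_mul (Real.pi / r)).sub_const (Real.pi / 2)
        refine h1.congr_of_eventuallyEq (Eventually.of_forall fun y => ?_)
        simp only
        field_simp
      have h1 : fderiv ℝ (cellPU r z (some k)) x = (-Real.sin (Real.pi / 2 * (2 * N x / r - 1))) •
          ((Real.pi / r) • fderiv ℝ N x) := by
        refine HasFDerivAt.fderiv (hA.cos.congr_of_eventuallyEq ?_)
        filter_upwards [hev] with y hy
        change pIn r (y - z k) = _
        rw [pIn_eq, tt_of_mid hr hy.1.le hy.2.le]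
      have h2 : fderiv ℝ (cellPU r z none) x = (Real.cos (Real.pi / 2 * (2 * N x / r - 1))) •
          ((Real.pi / r) • fderiv ℝ N x) := by
        refine HasFDerivAt.fderiv (hA.sin.congr_of_eventuallyEq ?_)
        filter_upwards [hev] with y hy
        rw [hnk y k fun k' hk' => (hfar y k hy.2 k' hk').le, pOut_eq,
          tt_of_mid hr hy.1.le hy.2.le]
      unfold puG
      rw [Fintype.sum_option, Finset.sum_eq_single k (fun k' _ hk' => by
        rw [fderiv_zero_of_le (hs0 k') (hs1 k') (Or.inl (hsall x k' (hf k' hk').le))]; simp)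
        (by simp), h1, h2]
      simp only [norm_smul]
      set θ := Real.pi / 2 * (2 * N x / r - 1)
      have e1 := Real.sin_sq_add_cos_sq θ
      simp only [Real.norm_eq_abs, abs_neg, mul_pow, sq_abs]
      calc Real.cos θ ^ 2 * ((Real.pi / r) ^ 2 * ‖fderiv ℝ N x‖ ^ 2) +
            Real.sin θ ^ 2 * ((Real.pi / r) ^ 2 * ‖fderiv ℝ N x‖ ^ 2)
          = (Real.sin θ ^ 2 + Real.cos θ ^ 2) * ((Real.pi / r) ^ 2 * ‖fderiv ℝ N x‖ ^ 2) := by ring
        _ = (Real.pi / r) ^ 2 * ‖fderiv ℝ N x‖ ^ 2 := by rw [e1, one_mul]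
        _ ≤ (Real.pi / r) ^ 2 * 1 := by
            have := norm_nonneg (fderiv ℝ N x)
            gcongr
            nlinarith
        _ ≤ 10 / r ^ 2 := by
            rw [mul_one, div_pow]
            have : Real.pi ^ 2 ≤ 10 := by
              have := Real.pi_lt_d2
              have := Real.pi_pos
              nlinarith
            gcongr
  · intro x
    exact Finset.sum_nonneg fun _ _ => sq_nonneg _
  · intro x hx
    exact hzero x fun k => (hx k).imp le_of_lt le_of_lt

end MolDis
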