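import Pool.Agent.Lib.MP_59f35a_mp.Stmts1

/-!
# MP_59f35a_mp : piece A9 (`S_en2`)
-/

noncomputable section

open MeasureTheory Set Metric

namespace MolDis
namespace En2

/-! ### one-electron functions -/

/-- spin up -/
def sp (b : Bool) : ℝ := if b then 1 else 0

lemma sp_sq (b : Bool) : sp b ^ 2 = sp b := by cases b <;> simp [sp]

lemma int_mu1 (F : E3 → ℝ) : ∫ z, F z.1 * sp z.2 ∂mu1 = ∫ x, F x := by
  unfold mu1
  rw [integral_prod_mul F sp]
  rw [integral_fintype (f := sp) (by simp)]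
  simp [sp]

lemma int_one (F : E3 → ℝ) :
    ∫ X : Fin 1 → Om, F (X 0).1 * sp (X 0).2 ∂(mu (Fin 1)) = ∫ x, F x := by
  have h := (measurePreserving_funUnique mu1 (Fin 1)).integral_comp'
    (fun z : Om => F z.1 * sp z.2)
  rw [← int_mu1 F, ← h]
  rfl

/-- the one-electron wave function with spin up and position part `g` -/
def one (g : E3 → ℝ) : (Fin 1 → Om) → ℝ := fun X => g (X 0).1 * sp (X 0).2

lemma nsq_one (g : E3 → ℝ) : nsq (one g) = ∫ x, g x ^ 2 := by
  rw [← int_one]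
  unfold nsq one
  congr 1
  ext X
  rw [mul_pow, sp_sq]

lemma expv_one (W g : E3 → ℝ) :
    expv (fun X : Fin 1 → Om => W (X 0).1) (one g) = ∫ x, W x * g x ^ 2 := by
  rw [← int_one]
  unfold expv one
  congr 1
  ext X
  rw [mul_pow, sp_sq]
  ring

lemma gradSq_one (g : E3 → ℝ) (X : Fin 1 → Om) :
    gradSq (one g) 0 X = ‖fderiv ℝ g (X 0).1‖ ^ 2 * sp (X 0).2 := by
  unfold gradSq one
  have h : (fun y : E3 => g ((put X 0 y) 0).1 * sp ((put X 0 y) 0).2)
      = fun y => g y * sp (X 0).2 := by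
    ext y
    simp [put]
  rw [h]
  cases hb : (X 0).2
  · simp [sp]
  · simp [sp]

lemma kin_one (g : E3 → ℝ) : kin (one g) = ∫ x, ‖fderiv ℝ g x‖ ^ 2 := by
  rw [← int_one]
  unfold kin kin1
  rw [Fin.sum_univ_one]
  congr 1
  ext X
  exact gradSq_one g X

lemma wf_one (g : E3 → ℝ) (K R : ℝ) (hK : 0 ≤ K) (hlip : ∀ x y, |g x - g y| ≤ K * ‖x - y‖)
    (hs : ∀ x, g x ≠ 0 → ‖x‖ ≤ R) : WF (one g) := by
  refine ⟨⟨⟨K, fun X j y => ?_⟩, ⟨R, fun X hX j => ?_⟩⟩, fun σ X => ?_⟩
  · obtain rfl : j = 0 := Subsingleton.elim _ _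
    simp only [one, put, Function.update_self]
    cases hb : (X 0).2
    · simp [sp]
      positivity
    · simpa [sp] using hlip y (X 0).1
  · obtain rfl : j = 0 := Subsingleton.elim _ _
    refine hs _ fun h => hX ?_
    simp [one, h]
  · obtain rfl : σ = 1 := Subsingleton.elim _ _
    simp

/-! ### a far away electron -/

/-- tent function -/
def tent (a : E3) (t : ℝ) (x : E3) : ℝ := max 0 (1 - ‖x - a‖ / t)

lemma tent_nonneg (a : E3) (t : ℝ) (x : E3) : 0 ≤ tent a t x := le_max_left _ _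

lemma tent_lip (a : E3) {t : ℝ} (ht : 0 < t) (x y : E3) :
    |tent a t x - tent a t y| ≤ t⁻¹ * ‖x - y‖ := by
  unfold tent
  have h1 : |max 0 (1 - ‖x - a‖ / t) - max 0 (1 - ‖y - a‖ / t)|
      ≤ |(1 - ‖x - a‖ / t) - (1 - ‖y - a‖ / t)| := by
    have := abs_max_sub_max_le_max 0 (1 - ‖x - a‖ / t) 0 (1 - ‖y - a‖ / t)
    simpa using this
  refine h1.trans ?_
  have h2 : (1 - ‖x - a‖ / t) - (1 - ‖y - a‖ / t) = t⁻¹ * (‖y - a‖ - ‖x - a‖) := by
    field_simp
    ring
  rw [h2, abs_mul, abs_of_pos (inv_pos.mpr ht)]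
  refine mul_le_mul_of_nonneg_left ?_ (inv_pos.mpr ht).le
  refine (abs_norm_sub_norm_le _ _).trans_eq ?_
  rw [norm_sub_rev]
  congr 1
  abel

lemma tent_supp (a : E3) {t : ℝ} (ht : 0 < t) {x : E3} (hx : tent a t x ≠ 0) :
    ‖x - a‖ < t := by
  by_contra h
  push Not at h
  apply hx
  unfold tent
  have : 1 ≤ ‖x - a‖ / t := by rw [le_div_iff₀ ht]; linarith
  exact max_eq_left (by linarith)

lemma tent_big (a : E3) {t : ℝ} (ht : 0 < t) {x : E3} (hx : x ∈ closedBall a (t / 2)) :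
    1 / 2 ≤ tent a t x := by
  rw [mem_closedBall, dist_eq_norm] at hx
  unfold tent
  refine le_max_of_le_right ?_
  have : ‖x - a‖ / t ≤ 1 / 2 := by rw [div_le_iff₀ ht]; linarith
  linarith

lemma tent_cont (a : E3) (t : ℝ) : Continuous (tent a t) := by
  unfold tent
  fun_prop

lemma tent_zero (a : E3) {t : ℝ} (ht : 0 < t) {x : E3} (hx : x ∉ closedBall a t) :
    tent a t x = 0 := by
  by_contra h
  exact hx (by rw [mem_closedBall, dist_eq_norm]; exact (tent_supp a ht h).le)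

lemma tent_sq_int (a : E3) {t : ℝ} (ht : 0 < t) : Integrable (fun x => tent a t x ^ 2) := by
  have hc : Continuous (fun x => tent a t x ^ 2) := (tent_cont a t).pow 2
  refine hc.integrable_of_hasCompactSupport ?_
  refine HasCompactSupport.intro (isCompact_closedBall a t) fun x hx => ?_
  rw [tent_zero a ht hx]
  simp

lemma tent_grad (a : E3) {t : ℝ} (ht : 0 < t) (x : E3) :
    ‖fderiv ℝ (tent a t) x‖ ^ 2 ≤ (closedBall a t).indicator (fun _ => (t⁻¹) ^ 2) x := by
  by_cases hx : x ∈ closedBall a t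
  · rw [indicator_of_mem hx]
    have hl : LipschitzWith ⟨t⁻¹, (inv_pos.mpr ht).le⟩ (tent a t) := by
      refine LipschitzWith.of_dist_le_mul fun x y => ?_
      rw [Real.dist_eq, dist_eq_norm]
      exact tent_lip a ht x y
    have h1 : ‖fderiv ℝ (tent a t) x‖ ≤ t⁻¹ := norm_fderiv_le_of_lipschitz ℝ hl
    gcongr
  · rw [indicator_of_notMem hx]
    have h1 : tent a t =ᶠ[nhds x] fun _ => (0 : ℝ) := by
      have : (closedBall a t)ᶜ ∈ nhds x := isClosed_closedBall.isOpen_compl.mem_nhds hx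
      filter_upwards [this] with y hy
      exact tent_zero a ht hy
    rw [h1.fderiv_eq]
    simp

lemma vol_ball (a : E3) {t : ℝ} (ht : 0 ≤ t) :
    volume.real (closedBall a t) = t ^ 3 * volume.real (ball (0 : E3) 1) := by
  rw [Measure.addHaar_real_closedBall _ a ht]
  simp

lemma vol_one_pos : 0 < volume.real (ball (0 : E3) 1) := by
  rw [measureReal_def, ENNReal.toReal_pos_iff]
  exact ⟨measure_ball_pos _ _ one_pos, measure_ball_lt_top⟩

lemma tent_kin (a : E3) {t : ℝ} (ht : 0 < t) :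
    ∫ x, ‖fderiv ℝ (tent a t) x‖ ^ 2 ≤ t * volume.real (ball (0 : E3) 1) := by
  have hi : Integrable ((closedBall a t).indicator (fun _ => (t⁻¹) ^ 2)) (volume : Measure E3) := by
    rw [integrable_indicator_iff isClosed_closedBall.measurableSet]
    exact integrableOn_const (hs := (isCompact_closedBall _ _).measure_lt_top.ne)
  refine (integral_mono_of_nonneg (Filter.Eventually.of_forall fun x => sq_nonneg _) hi
    (Filter.Eventually.of_forall fun x => tent_grad a ht x)).trans_eq ?_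
  rw [integral_indicator isClosed_closedBall.measurableSet, setIntegral_const, vol_ball a ht.le]
  simp only [smul_eq_mul]
  field_simp

lemma tent_nsq (a : E3) {t : ℝ} (ht : 0 < t) :
    t ^ 3 * volume.real (ball (0 : E3) 1) / 32 ≤ ∫ x, tent a t x ^ 2 := by
  have h1 : ∫ x, (closedBall a (t / 2)).indicator (fun _ => (1 / 4 : ℝ)) x
      = t ^ 3 * volume.real (ball (0 : E3) 1) / 32 := by
    rw [integral_indicator isClosed_closedBall.measurableSet, setIntegral_const,
      vol_ball a (by positivity)]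
    simp only [smul_eq_mul]
    ring
  rw [← h1]
  refine integral_mono_of_nonneg (Filter.Eventually.of_forall fun x => ?_) (tent_sq_int a ht)
    (Filter.Eventually.of_forall fun x => ?_)
  · exact indicator_nonneg (fun _ _ => by norm_num) _
  · by_cases hx : x ∈ closedBall a (t / 2)
    · rw [indicator_of_mem hx]
      have := tent_big a ht hx
      show (1 / 4 : ℝ) ≤ tent a t x ^ 2
      nlinarith
    · rw [indicator_of_notMem hx]
      exact sq_nonneg _

/-- a normalised electron in the ball of radius `t` around `a` with small kinetic energy -/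
lemma far_electron (a : E3) {t : ℝ} (ht : 0 < t) :
    ∃ φ : (Fin 1 → Om) → ℝ, WF φ ∧ nsq φ = 1 ∧
      (∀ X, φ X ≠ 0 → ∀ j, (X j).1 ∈ closedBall a t) ∧ kin φ ≤ 32 / t ^ 2 := by
  set v := volume.real (ball (0 : E3) 1) with hv
  have hv0 : 0 < v := vol_one_pos
  set N := ∫ x, tent a t x ^ 2 with hN
  have hN1 : t ^ 3 * v / 32 ≤ N := tent_nsq a ht
  have hN0 : 0 < N := lt_of_lt_of_le (by positivity) hN1
  set c := (Real.sqrt N)⁻¹ with hc
  have hc0 : 0 < c := by positivity
  have hc2 : c ^ 2 * N = 1 := by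
    rw [hc, inv_pow, Real.sq_sqrt hN0.le]
    exact inv_mul_cancel₀ hN0.ne'
  set g : E3 → ℝ := fun x => c * tent a t x with hg
  refine ⟨one g, ?_, ?_, ?_, ?_⟩
  · refine wf_one g (c * t⁻¹) (‖a‖ + t) (by positivity) (fun x y => ?_) (fun x hx => ?_)
    · simp only [hg]
      rw [← mul_sub, abs_mul, abs_of_pos hc0, mul_assoc]
      exact mul_le_mul_of_nonneg_left (tent_lip a ht x y) hc0.le
    · have h1 : tent a t x ≠ 0 := fun h => hx (by simp [hg, h])
      have h2 := tent_supp a ht h1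
      have h3 : ‖x‖ ≤ ‖a‖ + ‖x - a‖ := by
        calc ‖x‖ = ‖a + (x - a)‖ := by congr 1; abel
          _ ≤ _ := norm_add_le _ _
      linarith
  · rw [nsq_one]
    simp only [hg, mul_pow]
    rw [integral_const_mul]
    exact hc2
  · intro X hX j
    obtain rfl : j = 0 := Subsingleton.elim _ _
    by_contra h
    apply hX
    simp only [one, hg]
    rw [tent_zero a ht h]
    simp
  · rw [kin_one]
    have h1 : ∀ x, ‖fderiv ℝ g x‖ ^ 2 = c ^ 2 * ‖fderiv ℝ (tent a t) x‖ ^ 2 := by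
      intro x
      have : fderiv ℝ g x = c • fderiv ℝ (tent a t) x := by
        exact congrFun (fderiv_const_smul_field (𝕜 := ℝ) (f := tent a t) c) x
      rw [this, norm_smul, mul_pow, Real.norm_eq_abs, sq_abs]
    simp only [h1]
    rw [integral_const_mul]
    have h2 := tent_kin a ht
    have h3 : c ^ 2 * (t * v) ≤ 32 / t ^ 2 := by
      rw [le_div_iff₀ (by positivity)]
      have : c ^ 2 * (t ^ 3 * v / 32) ≤ 1 := by
        rw [← hc2]
        exact mul_le_mul_of_nonneg_left hN1 (by positivity)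
      nlinarith
    exact (mul_le_mul_of_nonneg_left h2 (by positivity)).trans h3

/-! ### first statement -/

lemma expv_nonneg' {ι : Type} [Fintype ι] {W ψ : (ι → Om) → ℝ} (hW : ∀ X, 0 ≤ W X) :
    0 ≤ expv W ψ :=
  integral_nonneg fun X => mul_nonneg (hW X) (sq_nonneg _)

/-- upper bound of an expectation by a bound on the support -/
lemma expv_le {ι : Type} [Fintype ι] {W ψ : (ι → Om) → ℝ} {B : ℝ} (hW0 : ∀ X, 0 ≤ W X)
    (hW : ∀ X, ψ X ≠ 0 → W X ≤ B) (hi : Integrable (fun X => ψ X ^ 2) (mu ι)) :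
    expv W ψ ≤ B * nsq ψ := by
  unfold expv nsq
  rw [← integral_const_mul]
  refine integral_mono_of_nonneg (Filter.Eventually.of_forall fun X =>
    mul_nonneg (hW0 X) (sq_nonneg _)) (hi.const_mul B) (Filter.Eventually.of_forall fun X => ?_)
  by_cases hX : ψ X = 0
  · simp [hX]
  · exact mul_le_mul_of_nonneg_right (hW X hX) (sq_nonneg _)

lemma cou_nonneg (x y : E3) : 0 ≤ cou x y := inv_nonneg.mpr (norm_nonneg _)

lemma cou_self (x : E3) : cou x x = 0 := by simp [cou]

lemma cou_comm (x y : E3) : cou x y = cou y x := by simp [cou, norm_sub_rev]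

lemma repEE_nonneg {ι : Type} [Fintype ι] (X : ι → Om) : 0 ≤ repEE X := by
  unfold repEE
  exact mul_nonneg (by norm_num) (Finset.sum_nonneg fun _ _ => Finset.sum_nonneg fun _ _ =>
    cou_nonneg _ _)

lemma attr_nonneg {ι κ : Type} [Fintype ι] [Fintype κ] (Y : κ → E3) (X : ι → Om) :
    0 ≤ attr Y X :=
  Finset.sum_nonneg fun _ _ => Finset.sum_nonneg fun _ _ => cou_nonneg _ _

lemma repEE_one (X : Fin 1 → Om) : repEE X = 0 := by
  unfold repEE
  simp [cou_self]

/-- splitting the potential energy -/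
lemma Qf_split (hlc : S_lc) (hadm : S_adm) {ι κ : Type} [Fintype ι] [DecidableEq ι] [Fintype κ]
    (Y : κ → E3) (ψ : (ι → Om) → ℝ) (hψ : LC ψ) :
    Qf Y ψ = kin ψ - expv (attr Y) ψ + expv repEE ψ + repNN Y * nsq ψ := by
  obtain ⟨-, -, -, -, -, hW, hI⟩ := hlc ι ψ hψ
  obtain ⟨-, -, -, -, -, -, hK, -⟩ := hadm ι
  obtain ⟨hA, hR, -⟩ := hK κ Y
  have h1 := hW _ hA
  have h2 := hW _ hR
  have h3 : expv (pot Y) ψ = - expv (attr Y) ψ + expv repEE ψ + repNN Y * nsq ψ := by
    unfold expv nsq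
    have h4 : (fun X : ι → Om => pot Y X * ψ X ^ 2) = fun X =>
        (repEE X * ψ X ^ 2 - attr Y X * ψ X ^ 2) + repNN Y * ψ X ^ 2 := by
      ext X
      simp only [pot]
      ring
    have h5 : Integrable (fun X : ι → Om => repEE X * ψ X ^ 2 - attr Y X * ψ X ^ 2) (mu ι) :=
      h2.sub h1
    rw [h4, integral_add h5 (hI.const_mul _), integral_sub h2 h1, integral_const_mul]
    ring
  unfold Qf
  rw [h3]
  ring

/-- bound of the repulsion between electrons in distant regions -/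
lemma crossEE_le {ι ι' : Type} [Fintype ι] [Fintype ι']
    (φ : (ι → Om) → ℝ) (φ' : (ι' → Om) → ℝ) {D : ℝ} (hD : 0 < D)
    (hi : Integrable (fun X => φ X ^ 2) (mu ι)) (hi' : Integrable (fun X => φ' X ^ 2) (mu ι'))
    (h1 : nsq φ = 1) (h1' : nsq φ' = 1)
    (h : ∀ X X', φ X ≠ 0 → φ' X' ≠ 0 → ∀ j k, D ≤ ‖(X j).1 - (X' k).1‖) :
    crossEE φ φ' ≤ Fintype.card ι * Fintype.card ι' / D := by
  unfold crossEE
  have hc0 : ∀ (X : ι → Om) (X' : ι' → Om), 0 ≤ ∑ j, ∑ k, cou (X j).1 (X' k).1 := fun X X' =>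
    Finset.sum_nonneg fun _ _ => Finset.sum_nonneg fun _ _ => cou_nonneg _ _
  have h2 : ∀ X, φ X ≠ 0 → expv (fun X' => ∑ j, ∑ k, cou (X j).1 (X' k).1) φ'
      ≤ Fintype.card ι * Fintype.card ι' / D := by
    intro X hX
    have := expv_le (W := fun X' => ∑ j, ∑ k, cou (X j).1 (X' k).1) (ψ := φ')
      (B := Fintype.card ι * Fintype.card ι' / D) (hc0 X) (fun X' hX' => ?_) hi'
    · rwa [h1', mul_one] at this
    · have h3 : ∀ j k, cou (X j).1 (X' k).1 ≤ D⁻¹ := fun j k => by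
        unfold cou
        exact inv_anti₀ hD (h X X' hX hX' j k)
      calc ∑ j, ∑ k, cou (X j).1 (X' k).1 ≤ ∑ _j : ι, ∑ _k : ι', D⁻¹ :=
            Finset.sum_le_sum fun j _ => Finset.sum_le_sum fun k _ => h3 j k
        _ = Fintype.card ι * Fintype.card ι' / D := by
            simp only [Finset.sum_const, Finset.card_univ, nsmul_eq_mul]
            rw [div_eq_mul_inv]
            ring
  have := expv_le (W := fun X => expv (fun X' => ∑ j, ∑ k, cou (X j).1 (X' k).1) φ') (ψ := φ)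
    (fun X => expv_nonneg' (hc0 X)) h2 hi
  rwa [h1, mul_one] at this

/-- one electron more lowers the energy -/
theorem en_succ (hen : S_en) (htr : S_trial) (hlc : S_lc) (hadm : S_adm)
    (κ : Type) [Fintype κ] (Y : κ → E3) (n : ℕ) : En (n + 1) Y ≤ En n Y := by
  refine le_of_forall_pos_le_add fun ε hε => ?_
  obtain ⟨-, -, hc, -, -, -⟩ := hen
  obtain ⟨ψ, hψ, hψ1, hψE⟩ := hc κ Y n (ε / 2) (by positivity)
  obtain ⟨R, hR⟩ := hψ.supp
  -- the far electron
  set t : ℝ := max 1 ((64 + 2 * n) / ε) with ht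
  have ht1 : 1 ≤ t := le_max_left _ _
  have ht0 : 0 < t := by linarith
  have ht2 : (32 + n) / t ≤ ε / 2 := by
    rw [div_le_iff₀ ht0]
    have : (64 + 2 * n) / ε ≤ t := le_max_right _ _
    rw [div_le_iff₀ hε] at this
    linarith
  set a : E3 := EuclideanSpace.single 0 (2 * t + |R|) with ha
  have hna : ‖a‖ = 2 * t + |R| := by
    have h0 : 0 ≤ 2 * t + |R| := by positivity
    rw [ha]
    simp [abs_of_nonneg h0]
  obtain ⟨φ, hφ, hφ1, hφs, hφk⟩ := far_electron a ht0
  have hdist : ∀ (x y : E3), ‖x‖ ≤ R → y ∈ closedBall a t → t ≤ ‖x - y‖ := by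
    intro x y hx hy
    rw [mem_closedBall, dist_eq_norm] at hy
    have h1 : ‖a‖ ≤ ‖x‖ + ‖y - a‖ + ‖x - y‖ := by
      calc ‖a‖ = ‖x - (y - a) - (x - y)‖ := by congr 1; abel
        _ ≤ ‖x - (y - a)‖ + ‖x - y‖ := norm_sub_le _ _
        _ ≤ _ := by gcongr; exact norm_sub_le _ _
    have h2 : R ≤ |R| := le_abs_self R
    linarith
  have hψi : Integrable (fun X => ψ X ^ 2) (mu (Fin n)) := (hlc _ ψ hψ.toLC).2.2.2.2.2.2
  have hφi : Integrable (fun X => φ X ^ 2) (mu (Fin 1)) := (hlc _ φ hφ.toLC).2.2.2.2.2.2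
  have hx1 : crossEE ψ φ ≤ n / t := by
    have := crossEE_le ψ φ ht0 hψi hφi hψ1 hφ1 (fun X X' hX hX' j k =>
      hdist _ _ (hR X hX j) (hφs X' hX' k))
    simpa using this
  have hx2 : crossEE φ ψ ≤ n / t := by
    have := crossEE_le φ ψ ht0 hφi hψi hφ1 hψ1 (fun X X' hX hX' j k => by
      rw [norm_sub_rev]
      exact hdist _ _ (hR X' hX' k) (hφs X hX j))
    simpa using this
  -- the trial inequality
  let nn : Bool → ℕ := fun b => match b with | true => 1 | false => n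
  let Φ : ∀ k, (Fin (nn k) → Om) → ℝ := fun b => match b with | true => φ | false => ψ
  let S : Bool → Set E3 := fun b => match b with | true => closedBall a t | false => closedBall 0 R
  have hdisj : Disjoint (closedBall (0 : E3) R) (closedBall a t) := by
    rw [Set.disjoint_left]
    intro x hx hx'
    have := hdist x x (by simpa using hx) hx'
    simp at this
    linarith
  have key := htr Bool κ Y nn S Φ ?_ ?_
  · have hs : ∑ k, nn k = n + 1 := by
      rw [Fintype.sum_bool]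
      show 1 + n = n + 1
      ring
    rw [hs] at key
    simp only [Fintype.sum_bool] at key
    have hrep : expv repEE φ = 0 := by
      unfold expv
      simp [repEE_one]
    have hat : 0 ≤ expv (attr Y) φ := expv_nonneg' (attr_nonneg Y)
    have hQ := Qf_split hlc hadm Y ψ hψ.toLC
    rw [hψ1, mul_one] at hQ
    have key2 : En (n + 1) Y ≤ ((kin φ - expv (attr Y) φ + expv repEE φ)
      + (kin ψ - expv (attr Y) ψ + expv repEE ψ))
      + 1 / 2 * ((0 + crossEE φ ψ) + (crossEE ψ φ + 0)) + repNN Y := by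
      simpa [nn, Φ] using key
    have h3 : 32 / t ^ 2 ≤ 32 / t := by
      apply div_le_div_of_nonneg_left (by norm_num) ht0
      nlinarith
    have h4 : 32 / t + n / t ≤ ε / 2 := by rw [← add_div]; exact ht2
    rw [hrep] at key2
    linarith
  · intro k k' hkk
    cases k <;> cases k'
    · exact absurd rfl hkk
    · exact hdisj
    · exact hdisj.symm
    · exact absurd rfl hkk
  · intro k
    cases k
    · exact ⟨hψ, hψ1, fun X hX j => by simpa [S] using hR X hX j⟩
    · exact ⟨hφ, hφ1, fun X hX j => hφs X hX j⟩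

/-! ### third statement -/

lemma expv_add {ι : Type} [Fintype ι] {W W' ψ : (ι → Om) → ℝ}
    (h : Integrable (fun X => W X * ψ X ^ 2) (mu ι))
    (h' : Integrable (fun X => W' X * ψ X ^ 2) (mu ι)) :
    expv (fun X => W X + W' X) ψ = expv W ψ + expv W' ψ := by
  unfold expv
  rw [← integral_add h h']
  congr 1
  ext X
  ring

lemma expv_const_mul {ι : Type} [Fintype ι] (c : ℝ) (W ψ : (ι → Om) → ℝ) :
    expv (fun X => c * W X) ψ = c * expv W ψ := by
  unfold expv
  rw [← integral_const_mul]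
  congr 1
  ext X
  ring

lemma expv_const {ι : Type} [Fintype ι] (c : ℝ) (ψ : (ι → Om) → ℝ) :
    expv (fun _ => c) ψ = c * nsq ψ := by
  unfold expv nsq
  rw [← integral_const_mul]

lemma expv_sum {ι α : Type} [Fintype ι] (s : Finset α) {W : α → (ι → Om) → ℝ}
    {ψ : (ι → Om) → ℝ} (h : ∀ a ∈ s, Integrable (fun X => W a X * ψ X ^ 2) (mu ι)) :
    expv (fun X => ∑ a ∈ s, W a X) ψ = ∑ a ∈ s, expv (W a) ψ := by
  unfold expv
  rw [← integral_finsetSum s h]
  congr 1
  ext X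
  rw [Finset.sum_mul]

lemma sum_pair_subtype {α : Type} [Fintype α] [DecidableEq α] {j k : α} (hjk : j ≠ k)
    (f : {i // i = j ∨ i = k} → ℝ) :
    ∑ i, f i = f ⟨j, Or.inl rfl⟩ + f ⟨k, Or.inr rfl⟩ := by
  have h : (Finset.univ : Finset {i // i = j ∨ i = k})
      = {⟨j, Or.inl rfl⟩, ⟨k, Or.inr rfl⟩} := by
    ext ⟨i, hi⟩
    simpa using hi
  rw [h, Finset.sum_pair]
  intro h
  exact hjk (congrArg Subtype.val h)

lemma repNN_Hy : repNN Hy = 0 := by
  unfold repNN
  simp [cou_self]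

lemma attr_Hy {ι : Type} [Fintype ι] (X : ι → Om) : attr Hy X = ∑ j, cou (X j).1 0 := by
  unfold attr
  simp [Hy]

/-- pair inequality -/
lemma pair_ineq (hen : S_en) (hsl : S_slice) (hlc : S_lc) (hadm : S_adm) {n : ℕ}
    (ψ : (Fin n → Om) → ℝ) (hψ : WF ψ) {j k : Fin n} (hjk : j ≠ k) :
    0 ≤ (kin1 j ψ - expv (fun X => cou (X j).1 0) ψ) + (kin1 k ψ - expv (fun X => cou (X k).1 0) ψ)
      + expv (fun X => cou (X j).1 (X k).1) ψ - En 2 Hy * nsq ψ := by
  obtain ⟨hbdd, hadd, hcm, -, hc1, hc2, hK, -⟩ := hadm (Fin n)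
  obtain ⟨-, -, -, -, -, hWi, hI⟩ := hlc _ ψ hψ.toLC
  have hA1 := hcm (-1) _ (hc1 j 0)
  have hA2 := hcm (-1) _ (hc1 k 0)
  have hA3 := hc2 j k
  have hA4 : AdmW (fun _ : Fin n → Om => - En 2 Hy) :=
    hbdd _ ⟨measurable_const, fun R => ⟨|- En 2 Hy|, fun X _ => le_rfl⟩⟩
  have hA := hadd _ _ (hadd _ _ (hadd _ _ hA1 hA2) hA3) hA4
  have key := hsl (Fin n) (fun i => i = j ∨ i = k) ψ univ
    (fun X => ((-1 * cou (X j).1 0 + -1 * cou (X k).1 0) + cou (X j).1 (X k).1) + - En 2 Hy)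
    hψ.toLC hA (fun σ _ X => hψ.anti σ X) (fun X _ => mem_univ X) ?_
  · have h1 : ∑ i ∈ Finset.univ.filter (fun i => i = j ∨ i = k), kin1 i ψ
        = kin1 j ψ + kin1 k ψ := by
      have : Finset.univ.filter (fun i => i = j ∨ i = k) = {j, k} := by
        ext i
        simp
      rw [this, Finset.sum_pair hjk]
    have i1 := hWi _ hA1
    have i2 := hWi _ hA2
    have i3 := hWi _ hA3
    have i12 := hWi _ (hadd _ _ hA1 hA2)
    have i123 := hWi _ (hadd _ _ (hadd _ _ hA1 hA2) hA3)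
    have i4 := hWi _ hA4
    rw [h1, expv_add i123 i4, expv_add i12 i3, expv_add i1 i2, expv_const_mul, expv_const_mul,
      expv_const] at key
    linarith
  · intro X0 _ φ hφ _
    obtain ⟨-, hb, -, -, -, -⟩ := hen
    have h2 := hb {i // i = j ∨ i = k} Unit Hy φ hφ
    have hcard : Fintype.card {i // i = j ∨ i = k} = 2 :=
      Fintype.card_subtype_eq_or_eq_of_ne hjk
    rw [hcard] at h2
    obtain ⟨-, -, -, -, -, hWi', hI'⟩ := hlc _ φ hφ.toLC
    obtain ⟨hbdd', -, -, -, -, -, hK', -⟩ := hadm {i // i = j ∨ i = k}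
    obtain ⟨-, -, hP⟩ := hK' Unit Hy
    have hA5 : AdmW (fun _ : {i // i = j ∨ i = k} → Om => - En 2 Hy) :=
      hbdd' _ ⟨measurable_const, fun R => ⟨|- En 2 Hy|, fun X _ => le_rfl⟩⟩
    have h3 : (fun Z : {i // i = j ∨ i = k} → Om =>
        ((-1 * cou (glue (fun i => i = j ∨ i = k) Z X0 j).1 0
          + -1 * cou (glue (fun i => i = j ∨ i = k) Z X0 k).1 0)
          + cou (glue (fun i => i = j ∨ i = k) Z X0 j).1
            (glue (fun i => i = j ∨ i = k) Z X0 k).1) + - En 2 Hy)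
        = fun Z => pot Hy Z + - En 2 Hy := by
      ext Z
      have g1 : glue (fun i => i = j ∨ i = k) Z X0 j = Z ⟨j, Or.inl rfl⟩ := by
        simp [glue]
      have g2 : glue (fun i => i = j ∨ i = k) Z X0 k = Z ⟨k, Or.inr rfl⟩ := by
        simp [glue]
      rw [g1, g2]
      unfold pot
      rw [attr_Hy, repNN_Hy]
      unfold repEE
      rw [sum_pair_subtype hjk, sum_pair_subtype hjk, sum_pair_subtype hjk, sum_pair_subtype hjk,
        cou_self, cou_self, cou_comm (Z ⟨k, Or.inr rfl⟩).1 (Z ⟨j, Or.inl rfl⟩).1]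
      ring
    rw [h3, expv_add (hWi' _ hP) (hWi' _ hA5), expv_const]
    unfold Qf at h2
    linarith

theorem en_pairs (hen : S_en) (hsl : S_slice) (hlc : S_lc) (hadm : S_adm) (n : ℕ) (hn : 2 ≤ n) :
    (n : ℝ) / 2 * En 2 Hy ≤ En n Hy := by
  have ha := (hen.1 Unit Hy n).1
  obtain ⟨ψ0, hψ0, hψ01⟩ := ha
  refine le_csInf ⟨_, ψ0, hψ0, hψ01, rfl⟩ ?_
  rintro e ⟨ψ, hψ, hψ1, rfl⟩
  obtain ⟨-, hadd, hcm, -, hc1, hc2, hK, -⟩ := hadm (Fin n)
  obtain ⟨-, -, -, -, -, hWi, hI⟩ := hlc _ ψ hψ.toLC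
  set E := En 2 Hy with hE
  set a : Fin n → ℝ := fun j => kin1 j ψ - expv (fun X => cou (X j).1 0) ψ with haa
  set r : Fin n → Fin n → ℝ := fun j k => expv (fun X => cou (X j).1 (X k).1) ψ with hr
  have hpair : ∀ j k, j ≠ k → 0 ≤ a j + a k + r j k - E := by
    intro j k hjk
    have := pair_ineq hen hsl hlc hadm ψ hψ hjk
    rw [hψ1, mul_one] at this
    exact this
  have hrjj : ∀ j, r j j = 0 := by
    intro j
    simp only [hr, cou_self]
    rw [expv_const, zero_mul]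
  have hr0 : ∀ j k, 0 ≤ r j k := fun j k => expv_nonneg' fun X => cou_nonneg _ _
  have hsum : 0 ≤ ∑ j, ∑ k, (if j = k then 0 else a j + a k + r j k - E) :=
    Finset.sum_nonneg fun j _ => Finset.sum_nonneg fun k _ => by
      split_ifs with h
      · exact le_rfl
      · exact hpair j k h
  have hsum2 : ∑ j, ∑ k, (if j = k then 0 else a j + a k + r j k - E)
      = 2 * (n - 1) * (∑ j, a j) + (∑ j, ∑ k, r j k) - n * (n - 1) * E := by
    have h1 : ∀ j, ∑ k, (if j = k then 0 else a j + a k + r j k - E)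
        = (n * a j + ∑ k, a k + ∑ k, r j k - n * E) - (2 * a j - E) := by
      intro j
      have h2 : ∀ k, (if j = k then 0 else a j + a k + r j k - E)
          = (a j + a k + r j k - E) - (if j = k then 2 * a j - E else 0) := by
        intro k
        split_ifs with h
        · subst h
          rw [hrjj]
          ring
        · ring
      simp only [h2]
      rw [Finset.sum_sub_distrib, Finset.sum_ite_eq]
      simp only [Finset.mem_univ, if_true]
      rw [Finset.sum_sub_distrib, Finset.sum_add_distrib, Finset.sum_add_distrib]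
      simp
    simp only [h1]
    clear_value a r E
    simp only [Finset.sum_sub_distrib, Finset.sum_add_distrib, Finset.sum_const,
      Finset.card_univ, Fintype.card_fin, nsmul_eq_mul, ← Finset.mul_sum]
    ring
  have hQ := Qf_split hlc hadm Hy ψ hψ.toLC
  have hat : expv (attr Hy) ψ = ∑ j, expv (fun X => cou (X j).1 0) ψ := by
    rw [← expv_sum Finset.univ (fun j _ => hWi _ (hc1 j 0))]
    congr 1
    ext X
    exact attr_Hy X
  have hre : expv repEE ψ = 1 / 2 * ∑ j, ∑ k, r j k := by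
    have h1 : (repEE : (Fin n → Om) → ℝ)
        = fun X => (1 / 2) * ∑ p : Fin n × Fin n, cou (X p.1).1 (X p.2).1 := by
      ext X
      unfold repEE
      rw [Fintype.sum_prod_type]
    rw [h1, expv_const_mul, expv_sum Finset.univ (fun p _ => hWi _ (hc2 p.1 p.2)),
      Fintype.sum_prod_type]
  rw [hQ, repNN_Hy, hat, hre]
  have hkin : kin ψ - ∑ j, expv (fun X => cou (X j).1 0) ψ = ∑ j, a j := by
    simp only [haa]
    rw [Finset.sum_sub_distrib]
    rfl
  have hn1 : (2 : ℝ) ≤ n := by exact_mod_cast hn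
  have hR0 : 0 ≤ ∑ j, ∑ k, r j k :=
    Finset.sum_nonneg fun j _ => Finset.sum_nonneg fun k _ => hr0 j k
  rw [hsum2] at hsum
  set A := ∑ j, a j
  set RR := ∑ j, ∑ k, r j k
  have h5 : 0 ≤ ((n : ℝ) - 1) * (2 * A + RR - n * E) := by nlinarith
  have h6 : 0 ≤ 2 * A + RR - n * E := by
    by_contra h
    push Not at h
    nlinarith
  rw [hkin]
  linarith

/-! ### second statement -/

lemma Qf_Hy_one (hlc : S_lc) (hadm : S_adm) (ψ : (Fin 1 → Om) → ℝ) (hψ : LC ψ) :
    Qf Hy ψ = kin ψ - expv (fun X => cou (X 0).1 0) ψ := by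
  rw [Qf_split hlc hadm Hy ψ hψ, repNN_Hy]
  have h1 : expv repEE ψ = 0 := by
    unfold expv
    simp [repEE_one]
  have h2 : expv (attr Hy) ψ = expv (fun X => cou (X 0).1 0) ψ := by
    congr 1
    ext X
    rw [attr_Hy]
    simp
  rw [h1, h2]
  ring

theorem en_one_ge (hen : S_en) (hhyd : S_hyd) (hlc : S_lc) (hadm : S_adm) :
    -1 / 4 ≤ En 1 Hy := by
  obtain ⟨ψ0, hψ0, hψ01⟩ := (hen.1 Unit Hy 1).1
  refine le_csInf ⟨_, ψ0, hψ0, hψ01, rfl⟩ ?_
  rintro e ⟨ψ, hψ, hψ1, rfl⟩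
  have h1 := hhyd (Fin 1) ψ 0 0 1 hψ.toLC zero_le_one
  rw [Qf_Hy_one hlc hadm ψ hψ.toLC]
  have h2 : kin ψ = kin1 0 ψ := by
    unfold kin
    simp
  rw [h2]
  rw [hψ1] at h1
  linarith

lemma hasDerivAt_maxsq (t : ℝ) :
    HasDerivAt (fun t : ℝ => (max 0 t) ^ 2) (2 * max 0 t) t := by
  rcases lt_trichotomy t 0 with h | h | h
  · rw [max_eq_left h.le, mul_zero]
    refine (hasDerivAt_const t (0 : ℝ)).congr_of_eventuallyEq ?_
    filter_upwards [Iio_mem_nhds h] with s hs
    rw [max_eq_left (le_of_lt hs)]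
    simp
  · subst h
    rw [max_self, mul_zero, hasDerivAt_iff_isLittleO_nhds_zero]
    simp only [zero_add, max_self, smul_zero, sub_zero, ne_eq, OfNat.ofNat_ne_zero,
      not_false_eq_true, zero_pow]
    refine Asymptotics.IsBigO.trans_isLittleO (g := fun h : ℝ => h ^ 2) ?_ ?_
    · refine Asymptotics.IsBigO.of_bound 1 (Filter.Eventually.of_forall fun s => ?_)
      rw [one_mul, Real.norm_eq_abs, Real.norm_eq_abs, abs_of_nonneg (sq_nonneg _),
        abs_of_nonneg (sq_nonneg _)]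
      rcases le_total 0 s with hs | hs
      · rw [max_eq_right hs]
      · rw [max_eq_left hs]
        nlinarith [sq_nonneg s]
    · exact Asymptotics.isLittleO_pow_id one_lt_two
  · rw [max_eq_right h.le]
    have h1 : HasDerivAt (fun s : ℝ => s ^ 2) (2 * t) t := by
      simpa using hasDerivAt_pow 2 t
    refine h1.congr_of_eventuallyEq ?_
    filter_upwards [Ioi_mem_nhds h] with s hs
    rw [max_eq_right (le_of_lt hs)]

/-- the cut-off -/
def cs (R r : ℝ) : ℝ := max 0 (1 - r / R)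

/-- radial profile -/
def prof (R r : ℝ) : ℝ := (cs R r) ^ 2 * Real.exp (-r / 2)

/-- its derivative -/
def prof' (R r : ℝ) : ℝ :=
  (-(2 / R) * cs R r - (1 / 2) * (cs R r) ^ 2) * Real.exp (-r / 2)

lemma cs_nonneg (R r : ℝ) : 0 ≤ cs R r := le_max_left _ _

lemma cs_le_one {R r : ℝ} (hR : 0 < R) (hr : 0 ≤ r) : cs R r ≤ 1 := by
  unfold cs
  refine max_le zero_le_one ?_
  have : 0 ≤ r / R := by positivity
  linarith

lemma cs_zero {R r : ℝ} (hR : 0 < R) (hr : R ≤ r) : cs R r = 0 := by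
  unfold cs
  refine max_eq_left ?_
  have : 1 ≤ r / R := by rw [le_div_iff₀ hR]; linarith
  linarith

lemma cs_eq {R r : ℝ} (hR : 0 < R) (hr : r ≤ R) : cs R r = 1 - r / R := by
  unfold cs
  refine max_eq_right ?_
  have : r / R ≤ 1 := by rw [div_le_iff₀ hR]; linarith
  linarith

lemma cs_cont (R : ℝ) : Continuous (cs R) := by
  unfold cs
  fun_prop

lemma hasDerivAt_prof (R : ℝ) (r : ℝ) : HasDerivAt (prof R) (prof' R r) r := by
  have h1 : HasDerivAt (fun r : ℝ => 1 - r / R) (-(1 / R)) r := by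
    simpa using ((hasDerivAt_id r).div_const R).const_sub 1
  have h2 : HasDerivAt (fun r : ℝ => (max 0 (1 - r / R)) ^ 2)
      (2 * max 0 (1 - r / R) * (-(1 / R))) r :=
    HasDerivAt.comp (h₂ := fun t : ℝ => (max 0 t) ^ 2) r (hasDerivAt_maxsq _) h1
  have h3 : HasDerivAt (fun r : ℝ => Real.exp (-r / 2)) (Real.exp (-r / 2) * (-1 / 2)) r := by
    have h4 : HasDerivAt (fun r : ℝ => -r / 2) (-1 / 2) r := by
      simpa using ((hasDerivAt_id r).neg).div_const 2
    exact h4.exp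
  have h5 := h2.mul h3
  have h6 : 2 * max 0 (1 - r / R) * (-(1 / R)) * Real.exp (-r / 2)
      + (max 0 (1 - r / R)) ^ 2 * (Real.exp (-r / 2) * (-1 / 2)) = prof' R r := by
    unfold prof' cs
    ring
  rw [h6] at h5
  exact h5

lemma prof'_bound {R r : ℝ} (hR : 0 < R) (hr : 0 ≤ r) : |prof' R r| ≤ 2 / R + 1 / 2 := by
  unfold prof'
  have h0 := cs_nonneg R r
  have h1 := cs_le_one hR hr
  have he : Real.exp (-r / 2) ≤ 1 := by
    rw [Real.exp_le_one_iff]
    linarith
  have he0 := Real.exp_pos (-r / 2)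
  have hR2 : 0 < 2 / R := by positivity
  rw [abs_mul, abs_of_pos he0]
  have h2 : |-(2 / R) * cs R r - 1 / 2 * cs R r ^ 2| ≤ 2 / R + 1 / 2 := by
    rw [abs_le]
    constructor
    · nlinarith
    · nlinarith [sq_nonneg (cs R r)]
  calc _ ≤ (2 / R + 1 / 2) * 1 := mul_le_mul h2 he he0.le (by positivity)
    _ = _ := mul_one _

lemma prof_lip {R : ℝ} (hR : 0 < R) (x y : E3) :
    |prof R ‖x‖ - prof R ‖y‖| ≤ (2 / R + 1 / 2) * ‖x - y‖ := by
  have h1 := Convex.norm_image_sub_le_of_norm_hasDerivWithin_le (f := prof R) (f' := prof' R)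
    (s := Ici (0 : ℝ)) (C := 2 / R + 1 / 2)
    (fun r _ => (hasDerivAt_prof R r).hasDerivWithinAt) (fun r hr => prof'_bound hR hr)
    (convex_Ici 0) (norm_nonneg y) (norm_nonneg x)
  rw [Real.norm_eq_abs, Real.norm_eq_abs] at h1
  exact h1.trans (mul_le_mul_of_nonneg_left (abs_norm_sub_norm_le x y) (by positivity))

lemma prof_zero {R r : ℝ} (hR : 0 < R) (hr : R ≤ r) : prof R r = 0 := by
  unfold prof
  rw [cs_zero hR hr]
  simp

lemma prof'_zero {R r : ℝ} (hR : 0 < R) (hr : R ≤ r) : prof' R r = 0 := by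
  unfold prof'
  rw [cs_zero hR hr]
  simp

lemma prof_cont (R : ℝ) : Continuous (prof R) := by
  unfold prof
  have := cs_cont R
  fun_prop

lemma prof'_cont (R : ℝ) : Continuous (prof' R) := by
  unfold prof'
  have := cs_cont R
  fun_prop

/-- polar coordinates for a radial function vanishing beyond `R` -/
lemma polar {R : ℝ} (hR : 0 < R) (F G : ℝ → ℝ) (hF : ∀ r, R < r → G r = 0)
    (hFG : ∀ r, 0 < r → r ^ 2 * F r = G r) :
    ∫ x : E3, F ‖x‖ = 3 * volume.real (ball (0 : E3) 1) * ∫ r in (0 : ℝ)..R, G r := by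
  rw [integral_fun_norm_addHaar]
  have h1 : ∫ y in Ioi (0 : ℝ), y ^ (Module.finrank ℝ E3 - 1) • F y = ∫ y in Ioi (0 : ℝ), G y := by
    refine setIntegral_congr_fun measurableSet_Ioi fun y hy => ?_
    have : Module.finrank ℝ E3 - 1 = 2 := by simp
    simp only [this, smul_eq_mul]
    exact hFG y hy
  have h2 : ∫ y in Ioi (0 : ℝ), G y = ∫ r in (0 : ℝ)..R, G r := by
    rw [intervalIntegral.integral_of_le hR.le]
    refine setIntegral_eq_of_subset_of_forall_sdiff_eq_zero measurableSet_Ioi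
      Ioc_subset_Ioi_self fun y hy => ?_
    refine hF y ?_
    by_contra h
    push Not at h
    exact hy.2 ⟨hy.1, h⟩
  rw [h1, h2]
  simp [mul_assoc]

/-- the trial function -/
def tri (R : ℝ) (x : E3) : ℝ := prof R ‖x‖

lemma tri_wf {R : ℝ} (hR : 0 < R) : WF (one (tri R)) := by
  refine wf_one (tri R) (2 / R + 1 / 2) R (by positivity) (prof_lip hR) fun x hx => ?_
  by_contra h
  push Not at h
  exact hx (prof_zero hR h.le)

lemma tri_nsq {R : ℝ} (hR : 0 < R) :
    nsq (one (tri R)) = 3 * volume.real (ball (0 : E3) 1)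
      * ∫ r in (0 : ℝ)..R, r ^ 2 * prof R r ^ 2 := by
  rw [nsq_one]
  exact polar hR (fun r => prof R r ^ 2) (fun r => r ^ 2 * prof R r ^ 2)
    (fun r hr => by simp [prof_zero hR hr.le]) (fun r _ => rfl)

lemma tri_attr {R : ℝ} (hR : 0 < R) :
    expv (fun X => cou (X 0).1 0) (one (tri R)) = 3 * volume.real (ball (0 : E3) 1)
      * ∫ r in (0 : ℝ)..R, r * prof R r ^ 2 := by
  rw [expv_one (fun x => cou x 0)]
  have h1 : ∀ x : E3, cou x 0 * tri R x ^ 2 = (fun r : ℝ => r⁻¹ * prof R r ^ 2) ‖x‖ := by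
    intro x
    simp [cou, tri]
  simp only [h1]
  refine polar hR (fun r : ℝ => r⁻¹ * prof R r ^ 2) (fun r => r * prof R r ^ 2)
    (fun r hr => by simp [prof_zero hR hr.le]) (fun r hr => ?_)
  field_simp

lemma tri_kin {R : ℝ} (hR : 0 < R) :
    kin (one (tri R)) = 3 * volume.real (ball (0 : E3) 1)
      * ∫ r in (0 : ℝ)..R, r ^ 2 * prof' R r ^ 2 := by
  rw [kin_one, ← polar hR (fun r => prof' R r ^ 2) (fun r => r ^ 2 * prof' R r ^ 2)
    (fun r hr => by simp [prof'_zero hR hr.le]) (fun r _ => rfl)]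
  refine integral_congr_ae ?_
  have h0 : ∀ᵐ x : E3, x ≠ 0 := by
    rw [ae_iff]
    simp
  filter_upwards [h0] with x hx
  have hd : DifferentiableAt ℝ (fun x : E3 => ‖x‖) x := differentiableAt_id.norm ℝ hx
  have h1 : HasFDerivAt (tri R) (prof' R ‖x‖ • fderiv ℝ (fun x : E3 => ‖x‖) x) x :=
    (hasDerivAt_prof R ‖x‖).comp_hasFDerivAt x hd.hasFDerivAt
  rw [h1.fderiv, norm_smul, norm_fderiv_norm hd, mul_one, Real.norm_eq_abs, sq_abs]

lemma sq_exp_le {y : ℝ} (hy : 0 ≤ y) : y ^ 2 * Real.exp (-y) ≤ 2 := by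
  have h1 := Real.quadratic_le_exp_of_nonneg hy
  have h2 : Real.exp (-y) * Real.exp y = 1 := by rw [← Real.exp_add]; simp
  have h3 := Real.exp_pos (-y)
  have h4 : y ^ 2 ≤ 2 * Real.exp y := by nlinarith
  calc y ^ 2 * Real.exp (-y) ≤ (2 * Real.exp y) * Real.exp (-y) :=
        mul_le_mul_of_nonneg_right h4 h3.le
    _ = 2 * (Real.exp (-y) * Real.exp y) := by ring
    _ = 2 := by rw [h2, mul_one]

lemma tri_energy {R : ℝ} (hR : 0 < R) :
    (∫ r in (0 : ℝ)..R, r ^ 2 * prof' R r ^ 2) - (∫ r in (0 : ℝ)..R, r * prof R r ^ 2)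
      + 1 / 4 * (∫ r in (0 : ℝ)..R, r ^ 2 * prof R r ^ 2) ≤ 8 / R := by
  have c1 := prof_cont R
  have c2 := prof'_cont R
  have i1 : IntervalIntegrable (fun r => r ^ 2 * prof' R r ^ 2) volume 0 R :=
    Continuous.intervalIntegrable (by fun_prop) _ _
  have i2 : IntervalIntegrable (fun r => r * prof R r ^ 2) volume 0 R :=
    Continuous.intervalIntegrable (by fun_prop) _ _
  have i3 : IntervalIntegrable (fun r => 1 / 4 * (r ^ 2 * prof R r ^ 2)) volume 0 R :=
    Continuous.intervalIntegrable (by fun_prop) _ _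
  rw [← intervalIntegral.integral_const_mul, ← intervalIntegral.integral_sub i1 i2,
    ← intervalIntegral.integral_add (i1.sub i2) i3]
  -- the exact part
  set G' : ℝ → ℝ := fun r => (-(r * (1 - r / R) ^ 4) + 2 * r ^ 2 * (1 - r / R) ^ 3 / R
    + r ^ 2 * (1 - r / R) ^ 4 / 2) * Real.exp (-r) with hG'
  have hG : ∫ r in (0 : ℝ)..R, G' r = 0 := by
    have hd : ∀ r ∈ uIcc (0 : ℝ) R,
        HasDerivAt (fun r : ℝ => -(1 / 2) * (r ^ 2 * (1 - r / R) ^ 4 * Real.exp (-r))) (G' r) r := by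
      intro r _
      have h1 : HasDerivAt (fun r : ℝ => 1 - r / R) (-(1 / R)) r := by
        simpa using ((hasDerivAt_id r).div_const R).const_sub 1
      have h2 : HasDerivAt (fun r : ℝ => (1 - r / R) ^ 4) (4 * (1 - r / R) ^ 3 * (-(1 / R))) r := by
        simpa using h1.fun_pow 4
      have h3 : HasDerivAt (fun r : ℝ => r ^ 2) (2 * r) r := by
        simpa using hasDerivAt_pow 2 r
      have h4 : HasDerivAt (fun r : ℝ => Real.exp (-r)) (Real.exp (-r) * (-1)) r :=
        ((hasDerivAt_id r).neg).exp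
      have h5 := ((h3.fun_mul h2).fun_mul h4).const_mul (-(1 / 2))
      refine h5.congr_deriv ?_
      simp only [hG']
      ring
    rw [intervalIntegral.integral_eq_sub_of_hasDerivAt hd
      (Continuous.intervalIntegrable (by fun_prop) _ _)]
    have : 1 - R / R = 0 := by rw [div_self hR.ne']; ring
    rw [this]
    simp
  have iG : IntervalIntegrable G' volume 0 R :=
    Continuous.intervalIntegrable (by fun_prop) _ _
  have hle : ∀ r ∈ Icc (0 : ℝ) R,
      (r ^ 2 * prof' R r ^ 2 - r * prof R r ^ 2) + 1 / 4 * (r ^ 2 * prof R r ^ 2)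
        ≤ G' r + 8 / R ^ 2 := by
    intro r hr
    have e1 : Real.exp (-r / 2) ^ 2 = Real.exp (-r) := by
      rw [← Real.exp_nat_mul]
      congr 1
      push_cast
      ring
    have h1 : (r ^ 2 * prof' R r ^ 2 - r * prof R r ^ 2) + 1 / 4 * (r ^ 2 * prof R r ^ 2)
        = G' r + (4 / R ^ 2) * (1 - r / R) ^ 2 * (r ^ 2 * Real.exp (-r)) := by
      simp only [prof, prof', hG', cs_eq hR hr.2, mul_pow, e1]
      ring
    rw [h1]
    have h2 : (1 - r / R) ^ 2 ≤ 1 := by
      have := cs_le_one hR hr.1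
      have h0 := cs_nonneg R r
      rw [cs_eq hR hr.2] at this h0
      nlinarith
    have h3 := sq_exp_le hr.1
    have h4 : 0 ≤ r ^ 2 * Real.exp (-r) := by positivity
    have h5 : (4 / R ^ 2) * (1 - r / R) ^ 2 * (r ^ 2 * Real.exp (-r)) ≤ (4 / R ^ 2) * 1 * 2 := by
      gcongr
    have h6 : (4 / R ^ 2) * 1 * 2 = 8 / R ^ 2 := by ring
    linarith
  have i4 : IntervalIntegrable (fun _ : ℝ => 8 / R ^ 2) volume 0 R := intervalIntegrable_const
  calc _ ≤ ∫ r in (0 : ℝ)..R, (G' r + 8 / R ^ 2) :=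
        intervalIntegral.integral_mono_on hR.le ((i1.sub i2).add i3) (iG.add i4) hle
    _ = 8 / R := by
        rw [intervalIntegral.integral_add iG i4, hG, intervalIntegral.integral_const]
        simp only [smul_eq_mul]
        field_simp
        ring

lemma tri_nsq_low {R : ℝ} (hR : 2 ≤ R) :
    1 / 384 ≤ ∫ r in (0 : ℝ)..R, r ^ 2 * prof R r ^ 2 := by
  have hR0 : 0 < R := by linarith
  have c1 := prof_cont R
  have h1 : ∫ r in (1 / 2 : ℝ)..1, r ^ 2 * prof R r ^ 2
      ≤ ∫ r in (0 : ℝ)..R, r ^ 2 * prof R r ^ 2 := by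
    refine intervalIntegral.integral_mono_interval (by norm_num) (by norm_num) (by linarith) ?_
      (Continuous.intervalIntegrable (by fun_prop) _ _)
    exact Filter.Eventually.of_forall fun r => by
      show 0 ≤ r ^ 2 * prof R r ^ 2
      positivity
  refine le_trans ?_ h1
  have h2 : ∫ _r in (1 / 2 : ℝ)..1, (1 / 192 : ℝ) = 1 / 384 := by
    rw [intervalIntegral.integral_const]
    norm_num
  rw [← h2]
  refine intervalIntegral.integral_mono_on (by norm_num) intervalIntegrable_const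
    (Continuous.intervalIntegrable (by fun_prop) _ _) fun r hr => ?_
  have e1 : Real.exp (-r / 2) ^ 2 = Real.exp (-r) := by
    rw [← Real.exp_nat_mul]
    congr 1
    push_cast
    ring
  have hs : 1 / 2 ≤ 1 - r / R := by
    have : r / R ≤ 1 / 2 := by
      rw [div_le_iff₀ hR0]
      have := hr.2
      linarith
    linarith
  have he : 1 / 3 ≤ Real.exp (-r) := by
    have h3 : Real.exp (-1) ≤ Real.exp (-r) := Real.exp_le_exp.mpr (by linarith [hr.2])
    have h4 : 1 / 3 ≤ Real.exp (-1) := by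
      have h5 := Real.exp_one_lt_d9
      have h6 : Real.exp (-1) * Real.exp 1 = 1 := by rw [← Real.exp_add]; simp
      have h7 := Real.exp_pos (-1)
      nlinarith
    linarith
  have hr2 : (1 / 4 : ℝ) ≤ r ^ 2 := by nlinarith [hr.1]
  have hs4 : (1 / 16 : ℝ) ≤ (1 - r / R) ^ 4 := by
    have h8 : (1 / 4 : ℝ) ≤ (1 - r / R) ^ 2 := by nlinarith
    nlinarith [sq_nonneg (1 - r / R)]
  have h9 : r ^ 2 * prof R r ^ 2 = r ^ 2 * ((1 - r / R) ^ 4 * Real.exp (-r)) := by
    unfold prof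
    rw [cs_eq hR0 (by linarith [hr.2]), mul_pow, e1]
    ring
  rw [h9]
  calc (1 / 192 : ℝ) = 1 / 4 * (1 / 16 * (1 / 3)) := by norm_num
    _ ≤ _ := by gcongr

theorem en_one_le (hen : S_en) (hlc : S_lc) (hadm : S_adm) : En 1 Hy ≤ -1 / 4 := by
  by_contra hcon
  push Not at hcon
  set δ := En 1 Hy + 1 / 4 with hδ
  have hδ0 : 0 < δ := by linarith
  set R : ℝ := max 2 (8 * 384 * 2 / δ) with hR
  have hR2 : 2 ≤ R := le_max_left _ _
  have hR0 : 0 < R := by linarith
  have hR3 : 8 * 384 * 2 ≤ R * δ := by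
    have : 8 * 384 * 2 / δ ≤ R := le_max_right _ _
    rwa [div_le_iff₀ hδ0] at this
  obtain ⟨-, hb, -, -, -, -⟩ := hen
  have h1 := hb (Fin 1) Unit Hy (one (tri R)) (tri_wf hR0)
  rw [Fintype.card_fin, Qf_Hy_one hlc hadm _ (tri_wf hR0).toLC, tri_kin hR0, tri_attr hR0,
    tri_nsq hR0] at h1
  have h2 := tri_energy hR0
  have h3 := tri_nsq_low hR2
  have hv : 0 < 3 * volume.real (ball (0 : E3) 1) := by
    have := vol_one_pos
    positivity
  set v := 3 * volume.real (ball (0 : E3) 1)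
  set I1 := ∫ r in (0 : ℝ)..R, r ^ 2 * prof' R r ^ 2
  set I2 := ∫ r in (0 : ℝ)..R, r * prof R r ^ 2
  set I3 := ∫ r in (0 : ℝ)..R, r ^ 2 * prof R r ^ 2
  have h4 : v * (En 1 Hy * I3) ≤ v * (I1 - I2) := by linarith
  have h5 : En 1 Hy * I3 ≤ I1 - I2 := le_of_mul_le_mul_left h4 hv
  have h6 : δ * I3 ≤ 8 / R := by
    rw [hδ]
    linarith
  have h7 : δ * (1 / 384) ≤ 8 / R := (mul_le_mul_of_nonneg_left h3 hδ0.le).trans h6
  rw [le_div_iff₀ hR0] at h7
  linarith

/-- **piece A9** -/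
theorem _root_.MolDis.p_en2 (hen : S_en) (htr : S_trial) (hhyd : S_hyd) (hsl : S_slice)
    (hlc : S_lc) (hadm : S_adm) : S_en2 :=
  ⟨fun κ _ Y n => en_succ hen htr hlc hadm κ Y n,
    le_antisymm (en_one_le hen hlc hadm) (en_one_ge hen hhyd hlc hadm),
    fun n hn => en_pairs hen hsl hlc hadm n hn⟩

end En2
end MolDis
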