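import Pool.Agent.Lib.MP_59f35a_mp.Stmts2
import Pool.Agent.Lib.MP_59f35a_mp.En2

/-!
# MP_59f35a_mp, piece B2: far clusters, upper bound
-/

set_option autoImplicit false

noncomputable section

open MeasureTheory

namespace MolDis

namespace FarUpper

theorem cou_le {D : ℝ} (hD : 0 < D) {x y : E3} (h : D ≤ ‖x - y‖) : cou x y ≤ D⁻¹ :=
  inv_anti₀ hD h

theorem repNN_add {κ : Type} [Fintype κ] (a : E3) (Y : κ → E3) :
    repNN (fun m => a + Y m) = repNN Y := by
  unfold repNN cou
  simp only [add_sub_add_left_eq_sub]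

/-- repulsion of the nuclei of distant clusters -/
theorem repNN_cl {K : Type} [Fintype K] [DecidableEq K] (M : K → ℕ)
    (Y : ∀ k, Fin (M k) → E3) (z : K → E3) {D : ℝ} (hD : 0 < D)
    (h : ∀ k k', k ≠ k' → ∀ m m', D ≤ ‖(z k + Y k m) - (z k' + Y k' m')‖) :
    repNN (cl z Y) ≤ ∑ k, repNN (Y k) + (1 / 2) * ((∑ k, (M k : ℝ)) ^ 2 / D) := by
  have e1 : repNN (cl z Y) = (1 / 2) * ∑ k, ∑ k', ∑ m, ∑ m',
      cou (z k + Y k m) (z k' + Y k' m') := by
    unfold repNN
    congr 1
    rw [Fintype.sum_sigma]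
    refine Finset.sum_congr rfl fun k _ => ?_
    rw [Finset.sum_comm' (t' := Finset.univ) (s' := fun _ => Finset.univ) (by simp)]
    rw [Fintype.sum_sigma]
    refine Finset.sum_congr rfl fun k' _ => ?_
    rw [Finset.sum_comm]
    rfl
  have e2 : ∀ k k', ∑ m, ∑ m', cou (z k + Y k m) (z k' + Y k' m') ≤
      (if k = k' then 2 * repNN (Y k) else 0) + (M k : ℝ) * M k' / D := by
    intro k k'
    by_cases hk : k = k'
    · subst hk
      have h1 := repNN_add (z k) (Y k)
      rw [if_pos rfl]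
      have h2 : (0 : ℝ) ≤ (M k : ℝ) * M k / D := by positivity
      have h3 : ∑ m, ∑ m', cou (z k + Y k m) (z k + Y k m') = 2 * repNN (Y k) := by
        rw [← h1]
        unfold repNN
        ring
      linarith
    · rw [if_neg hk, zero_add]
      calc ∑ m, ∑ m', cou (z k + Y k m) (z k' + Y k' m')
          ≤ ∑ _m : Fin (M k), ∑ _m' : Fin (M k'), D⁻¹ :=
            Finset.sum_le_sum fun m _ => Finset.sum_le_sum fun m' _ => cou_le hD (h k k' hk m m')
        _ = (M k : ℝ) * M k' / D := by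
            simp only [Finset.sum_const, Finset.card_univ, nsmul_eq_mul, Fintype.card_fin]
            rw [div_eq_mul_inv]
            ring
  rw [e1]
  have e3 : ∑ k, ∑ k', ∑ m, ∑ m', cou (z k + Y k m) (z k' + Y k' m') ≤
      2 * ∑ k, repNN (Y k) + (∑ k, (M k : ℝ)) ^ 2 / D := by
    calc _ ≤ ∑ k, ∑ k', ((if k = k' then 2 * repNN (Y k) else 0) + (M k : ℝ) * M k' / D) :=
          Finset.sum_le_sum fun k _ => Finset.sum_le_sum fun k' _ => e2 k k'
      _ = _ := by
          simp only [Finset.sum_add_distrib, Finset.sum_ite_eq, Finset.mem_univ, if_true,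
            ← Finset.mul_sum, ← Finset.sum_div]
          rw [pow_two, Finset.sum_mul]
  linarith

theorem attr_cl {K : Type} [Fintype K] [DecidableEq K] {M : K → ℕ} {ι : Type} [Fintype ι]
    (Y : ∀ k, Fin (M k) → E3) (z : K → E3) (k : K) (X : ι → Om) :
    attr (fun m => z k + Y k m) X ≤ attr (cl z Y) X := by
  unfold attr
  refine Finset.sum_le_sum fun j _ => ?_
  rw [Fintype.sum_sigma]
  exact Finset.single_le_sum (f := fun k => ∑ m, cou (X j).1 (cl z Y ⟨k, m⟩))
    (fun _ _ => Finset.sum_nonneg fun _ _ => En2.cou_nonneg _ _) (Finset.mem_univ k)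

end FarUpper

theorem p_far_upper (hlc : S_lc) (hadm : S_adm) (hen : S_en) (htr : S_trial) (hsh : S_shift) :
    S_far_upper := by
  intro K _ _ M n Y ε hε
  have hε' : 0 < ε / (2 * ((Fintype.card K : ℝ) + 1)) := by positivity
  choose φ hφ hφ1 hφE using fun k : K =>
    hen.2.2.1 (Fin (M k)) (Y k) (n k) (ε / (2 * ((Fintype.card K : ℝ) + 1))) hε'
  choose R hR using fun k : K => (hφ k).supp
  set r : ℝ := (∑ k, |R k|) + ∑ k, ∑ m, ‖Y k m‖ with hr
  have hr1 : ∀ k, R k ≤ r := by
    intro k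
    have h1 : |R k| ≤ ∑ k, |R k| :=
      Finset.single_le_sum (f := fun k => |R k|) (fun _ _ => abs_nonneg _) (Finset.mem_univ k)
    have h2 : 0 ≤ ∑ k, ∑ m, ‖Y k m‖ :=
      Finset.sum_nonneg fun _ _ => Finset.sum_nonneg fun _ _ => norm_nonneg _
    have h3 := le_abs_self (R k)
    linarith
  have hr2 : ∀ k m, ‖Y k m‖ ≤ r := by
    intro k m
    have h1 : ‖Y k m‖ ≤ ∑ m, ‖Y k m‖ :=
      Finset.single_le_sum (f := fun m => ‖Y k m‖) (fun _ _ => norm_nonneg _) (Finset.mem_univ m)
    have h2 : ∑ m, ‖Y k m‖ ≤ ∑ k, ∑ m, ‖Y k m‖ :=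
      Finset.single_le_sum (f := fun k => ∑ m, ‖Y k m‖)
        (fun _ _ => Finset.sum_nonneg fun _ _ => norm_nonneg _) (Finset.mem_univ k)
    have h3 : 0 ≤ ∑ k, |R k| := Finset.sum_nonneg fun _ _ => abs_nonneg _
    linarith
  set T : ℝ := (∑ k, (M k : ℝ)) ^ 2 + (∑ k, (n k : ℝ)) ^ 2 with hT
  have hT0 : 0 ≤ T := by positivity
  set D : ℝ := 1 + T / ε with hD
  have hD0 : 0 < D := by positivity
  have hTD : T / D ≤ ε := by
    rw [div_le_iff₀ hD0, hD, mul_add, mul_div_cancel₀ _ hε.ne']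
    linarith
  refine ⟨D + 2 * r, fun z hz => ?_⟩
  set φz : ∀ k, (Fin (n k) → Om) → ℝ := fun k X => φ k (fun j => ((X j).1 - z k, (X j).2))
    with hφz
  have hs : ∀ k X, φz k X ≠ 0 → ∀ j, ‖(X j).1 - z k‖ ≤ r := fun k X hX j =>
    (hR k _ hX j).trans (hr1 k)
  have hwf : ∀ k, WF (φz k) := fun k => (hsh (Fin (n k)) (z k) (φ k)).2.1 (hφ k)
  have hn1 : ∀ k, nsq (φz k) = 1 := fun k => by
    rw [← hφ1 k]; exact (hsh (Fin (n k)) (z k) (φ k)).2.2.1
  have hi : ∀ k, Integrable (fun X => φz k X ^ 2) (mu (Fin (n k))) := fun k =>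
    (hlc _ _ (hwf k).toLC).2.2.2.2.2.2
  have hdist : ∀ k k', k ≠ k' → ∀ x y : E3, ‖x - z k‖ ≤ r → ‖y - z k'‖ ≤ r → D ≤ ‖x - y‖ := by
    intro k k' hk x y hx hy
    have h1 := hz k k' hk
    have h2 : z k - z k' = (x - y) - (x - z k) + (y - z k') := by abel
    rw [h2] at h1
    have h3 := norm_add_le ((x - y) - (x - z k)) (y - z k')
    have h4 := norm_sub_le (x - y) (x - z k)
    linarith
  have key := htr K (Σ k, Fin (M k)) (cl z Y) n (fun k => Metric.closedBall (z k) r) φz ?_ ?_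
  · have h1 : ∀ k, kin (φz k) - expv (attr (cl z Y)) (φz k) + expv repEE (φz k) + repNN (Y k)
        ≤ En (n k) (Y k) + ε / (2 * ((Fintype.card K : ℝ) + 1)) := by
      intro k
      have h2 := En2.Qf_split hlc hadm (fun m => z k + Y k m) (φz k) (hwf k).toLC
      have h3 : Qf (fun m => z k + Y k m) (φz k) = Qf (Y k) (φ k) :=
        (hsh (Fin (n k)) (z k) (φ k)).2.2.2.2.2 (Fin (M k)) (Y k)
      rw [h3, hn1 k, mul_one, FarUpper.repNN_add] at h2
      have h4 := hφE k
      have h5 : expv (attr (fun m => z k + Y k m)) (φz k) ≤ expv (attr (cl z Y)) (φz k) := by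
        have hA := ((hadm (Fin (n k))).2.2.2.2.2.2.1 _ (fun m => z k + Y k m)).1
        have hB := ((hadm (Fin (n k))).2.2.2.2.2.2.1 _ (cl z Y)).1
        have hW := (hlc _ _ (hwf k).toLC).2.2.2.2.2.1
        exact integral_mono (hW _ hA) (hW _ hB) fun X =>
          mul_le_mul_of_nonneg_right (FarUpper.attr_cl Y z k X) (sq_nonneg _)
      linarith
    have h2 : ∑ k, (kin (φz k) - expv (attr (cl z Y)) (φz k) + expv repEE (φz k))
        + ∑ k, repNN (Y k) ≤ ∑ k, En (n k) (Y k) + ε / 2 := by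
      rw [← Finset.sum_add_distrib]
      refine (Finset.sum_le_sum fun k _ => h1 k).trans ?_
      rw [Finset.sum_add_distrib]
      simp only [Finset.sum_const, Finset.card_univ, nsmul_eq_mul]
      have h3 : (Fintype.card K : ℝ) * (ε / (2 * ((Fintype.card K : ℝ) + 1))) ≤ ε / 2 := by
        have h0 : (0 : ℝ) ≤ Fintype.card K := Nat.cast_nonneg _
        rw [mul_div_assoc', div_le_div_iff₀ (by positivity) (by norm_num)]
        nlinarith
      linarith
    have h3 : ∑ k, ∑ k', (if k = k' then 0 else crossEE (φz k) (φz k')) ≤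
        (∑ k, (n k : ℝ)) ^ 2 / D := by
      calc _ ≤ ∑ k, ∑ k', (n k : ℝ) * n k' / D := by
            refine Finset.sum_le_sum fun k _ => Finset.sum_le_sum fun k' _ => ?_
            by_cases hk : k = k'
            · rw [if_pos hk]; positivity
            · rw [if_neg hk]
              have := En2.crossEE_le (φz k) (φz k') hD0 (hi k) (hi k') (hn1 k) (hn1 k')
                (fun X X' hX hX' j j' => hdist k k' hk _ _ (hs k X hX j) (hs k' X' hX' j'))
              simpa using this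
        _ = _ := by
            simp only [← Finset.mul_sum, ← Finset.sum_div]
            rw [pow_two, Finset.sum_mul]
    have h4 := FarUpper.repNN_cl M Y z hD0 (fun k k' hk m m' =>
      hdist k k' hk _ _ (by simpa using hr2 k m) (by simpa using hr2 k' m'))
    have h5 : (∑ k, (n k : ℝ)) ^ 2 / D + (∑ k, (M k : ℝ)) ^ 2 / D ≤ ε := by
      rw [← add_div, add_comm]
      exact hTD
    linarith
  · intro k k' hk
    rw [Set.disjoint_left]
    intro x hx hx'
    rw [Metric.mem_closedBall, dist_eq_norm] at hx hx'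
    have := hdist k k' hk x x hx hx'
    rw [sub_self, norm_zero] at this
    linarith
  · intro k
    refine ⟨hwf k, hn1 k, fun X hX j => ?_⟩
    rw [Metric.mem_closedBall, dist_eq_norm]
    exact hs k X hX j

end MolDis
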