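import Pool.Agent.Lib.MP_59f35a_mp.Stmts3

/-!
# MP_59f35a_mp : piece G3 (potentials of the electret)
-/

noncomputable section

open MeasureTheory

namespace MolDis

namespace Geom

/-! ### norms -/

lemma sqn (y h : E3) : ‖y + h‖ ^ 2 = ‖y‖ ^ 2 + 2 * inner ℝ y h + ‖h‖ ^ 2 := norm_add_sq_real y h

lemma dd_norm (y y' h : E3) :
    |(‖y + h‖ - ‖y‖) - (‖y' + h‖ - ‖y'‖)| * (‖y + h‖ + ‖y‖) ≤ 4 * ‖y - y'‖ * ‖h‖ := by
  have e1 := sqn y h
  have e2 := sqn y' h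
  have hA : |‖y' + h‖ - ‖y + h‖| ≤ ‖y - y'‖ := by
    have := abs_norm_sub_norm_le (y' + h) (y + h)
    rw [add_sub_add_right_eq_sub, norm_sub_rev] at this
    exact this
  have ha : |‖y'‖ - ‖y‖| ≤ ‖y - y'‖ := by
    have := abs_norm_sub_norm_le y' y
    rwa [norm_sub_rev y' y] at this
  have hh : |‖y' + h‖ - ‖y'‖| ≤ ‖h‖ := by
    have := abs_norm_sub_norm_le (y' + h) y'
    rwa [add_sub_cancel_left] at this
  have hi : |inner ℝ (y - y') h| ≤ ‖y - y'‖ * ‖h‖ := abs_real_inner_le_norm _ _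
  have key : ((‖y + h‖ - ‖y‖) - (‖y' + h‖ - ‖y'‖)) * (‖y + h‖ + ‖y‖) =
      2 * inner ℝ (y - y') h + (‖y' + h‖ - ‖y'‖) * ((‖y' + h‖ - ‖y + h‖) + (‖y'‖ - ‖y‖)) := by
    rw [inner_sub_left]
    nlinarith
  have h0 : 0 ≤ ‖y + h‖ + ‖y‖ := by positivity
  rw [← abs_of_nonneg h0, ← abs_mul, key]
  have h1 : |(‖y' + h‖ - ‖y'‖) * ((‖y' + h‖ - ‖y + h‖) + (‖y'‖ - ‖y‖))| ≤
      ‖h‖ * (‖y - y'‖ + ‖y - y'‖) := by
    rw [abs_mul]
    exact mul_le_mul hh ((abs_add_le _ _).trans (add_le_add hA ha)) (abs_nonneg _) (norm_nonneg _)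
  calc _ ≤ |2 * inner ℝ (y - y') h| +
        |(‖y' + h‖ - ‖y'‖) * ((‖y' + h‖ - ‖y + h‖) + (‖y'‖ - ‖y‖))| := abs_add_le _ _
    _ ≤ 2 * (‖y - y'‖ * ‖h‖) + ‖h‖ * (‖y - y'‖ + ‖y - y'‖) := by
        rw [abs_mul, abs_two]
        linarith
    _ = _ := by ring

/-- differences of inverse norms -/
lemma inv_sub {y y' : E3} {m : ℝ} (hm : 0 < m) (h : m ≤ ‖y‖) (h' : m ≤ ‖y'‖) :
    |‖y‖⁻¹ - ‖y'‖⁻¹| ≤ ‖y - y'‖ * (m⁻¹) ^ 2 := by
  have h1 : 0 < ‖y‖ := hm.trans_le h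
  have h2 : 0 < ‖y'‖ := hm.trans_le h'
  have e : ‖y‖⁻¹ - ‖y'‖⁻¹ = (‖y'‖ - ‖y‖) * (‖y‖⁻¹ * ‖y'‖⁻¹) := by
    field_simp
  rw [e, abs_mul, abs_of_nonneg (by positivity : 0 ≤ ‖y‖⁻¹ * ‖y'‖⁻¹)]
  have h3 : |‖y'‖ - ‖y‖| ≤ ‖y - y'‖ := by
    have := abs_norm_sub_norm_le y' y
    rwa [norm_sub_rev y' y] at this
  have h4 : ‖y‖⁻¹ * ‖y'‖⁻¹ ≤ (m⁻¹) ^ 2 := by
    rw [sq]
    exact mul_le_mul (inv_anti₀ hm h) (inv_anti₀ hm h') (by positivity) (by positivity)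
  exact mul_le_mul h3 h4 (by positivity) (norm_nonneg _)

lemma inv_le {y : E3} {m : ℝ} (hm : 0 < m) (h : m ≤ ‖y‖) : ‖y‖⁻¹ ≤ m⁻¹ := inv_anti₀ hm h

/-- scalar: cubes -/
lemma cube_sub {u u' μ e : ℝ} (hu : 0 ≤ u) (hu' : 0 ≤ u') (hμ : u ≤ μ) (hμ' : u' ≤ μ)
    (he : |u - u'| ≤ e) : |u ^ 3 - u' ^ 3| ≤ 3 * e * μ ^ 2 := by
  have e1 : u ^ 3 - u' ^ 3 = (u - u') * (u ^ 2 + u * u' + u' ^ 2) := by ring
  have h1 : u ^ 2 + u * u' + u' ^ 2 ≤ 3 * μ ^ 2 := by nlinarith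
  rw [e1, abs_mul, abs_of_nonneg (by positivity : 0 ≤ u ^ 2 + u * u' + u' ^ 2)]
  calc _ ≤ e * (3 * μ ^ 2) := mul_le_mul he h1 (by positivity) ((abs_nonneg _).trans he)
    _ = _ := by ring

/-- the remainder of the first order Taylor expansion of `1/|y|` -/
def Rm (y h : E3) : ℝ := ‖y + h‖⁻¹ - ‖y‖⁻¹ + inner ℝ y h * (‖y‖⁻¹) ^ 3

lemma Rm_eq {y h : E3} (h1 : y ≠ 0) (h2 : y + h ≠ 0) :
    Rm y h = - (‖h‖ ^ 2 * (‖y‖⁻¹) ^ 3 / 2) +
      (‖y + h‖ - ‖y‖) ^ 2 * ((‖y‖⁻¹) ^ 3 / 2 + (‖y‖⁻¹) ^ 2 * ‖y + h‖⁻¹) := by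
  have e1 := sqn y h
  have hs : inner ℝ y h = (‖y + h‖ ^ 2 - ‖y‖ ^ 2 - ‖h‖ ^ 2) / 2 := by linarith
  unfold Rm
  rw [hs]
  have h3 : ‖y‖ ≠ 0 := norm_ne_zero_iff.2 h1
  have h4 : ‖y + h‖ ≠ 0 := norm_ne_zero_iff.2 h2
  generalize ‖y + h‖ = b at *
  generalize ‖y‖ = a at *
  generalize ‖h‖ = q at *
  field_simp
  ring

lemma Rm_lip {y y' h : E3} {m : ℝ} (hm : 0 < m) (h1 : m ≤ ‖y‖) (h2 : m ≤ ‖y + h‖)
    (h1' : m ≤ ‖y'‖) (h2' : m ≤ ‖y' + h‖) :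
    |Rm y h - Rm y' h| ≤ 12 * ‖y - y'‖ * ‖h‖ ^ 2 * (m⁻¹) ^ 4 := by
  have n1 : y ≠ 0 := norm_pos_iff.1 (hm.trans_le h1)
  have n2 : y + h ≠ 0 := norm_pos_iff.1 (hm.trans_le h2)
  have n1' : y' ≠ 0 := norm_pos_iff.1 (hm.trans_le h1')
  have n2' : y' + h ≠ 0 := norm_pos_iff.1 (hm.trans_le h2')
  rw [Rm_eq n1 n2, Rm_eq n1' n2']
  have d1 := inv_sub hm h1 h1'
  have d2 := inv_sub hm h2 h2'
  rw [add_sub_add_right_eq_sub] at d2
  have l1 := inv_le hm h1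
  have l2 := inv_le hm h2
  have l1' := inv_le hm h1'
  have l2' := inv_le hm h2'
  have p1 : 0 ≤ ‖y‖⁻¹ := by positivity
  have p2 : 0 ≤ ‖y + h‖⁻¹ := by positivity
  have p1' : 0 ≤ ‖y'‖⁻¹ := by positivity
  have p2' : 0 ≤ ‖y' + h‖⁻¹ := by positivity
  have c1 := cube_sub p1 p1' l1 l1' d1
  have dd := dd_norm y y' h
  have k1 : |‖y + h‖ - ‖y‖| ≤ ‖h‖ := by
    have := abs_norm_sub_norm_le (y + h) y
    rwa [add_sub_cancel_left] at this
  have k1' : |‖y' + h‖ - ‖y'‖| ≤ ‖h‖ := by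
    have := abs_norm_sub_norm_le (y' + h) y'
    rwa [add_sub_cancel_left] at this
  set u := ‖y‖⁻¹ with hu
  set v := ‖y + h‖⁻¹ with hv
  set u' := ‖y'‖⁻¹ with hu'
  set v' := ‖y' + h‖⁻¹ with hv'
  set μ := m⁻¹ with hμ
  have hμ0 : 0 < μ := inv_pos.2 hm
  set D := ‖y - y'‖ with hD
  have hD0 : 0 ≤ D := norm_nonneg _
  set q := ‖h‖ with hq
  have hq0 : 0 ≤ q := norm_nonneg _
  -- the double difference of the norms
  have dd2 : |(‖y + h‖ - ‖y‖) - (‖y' + h‖ - ‖y'‖)| ≤ 2 * D * q * μ := by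
    have h3 : |(‖y + h‖ - ‖y‖) - (‖y' + h‖ - ‖y'‖)| * (2 * m) ≤ 4 * D * q :=
      (mul_le_mul_of_nonneg_left (by linarith) (abs_nonneg _)).trans dd
    have h4 : |(‖y + h‖ - ‖y‖) - (‖y' + h‖ - ‖y'‖)| ≤ 4 * D * q / (2 * m) := by
      rw [le_div_iff₀ (by positivity)]
      exact h3
    refine h4.trans (le_of_eq ?_)
    rw [hμ]
    field_simp
    ring
  set X := ‖y + h‖ - ‖y‖ with hX
  set X' := ‖y' + h‖ - ‖y'‖ with hX'
  -- k
  have ck : |(u ^ 3 / 2 + u ^ 2 * v) - (u' ^ 3 / 2 + u' ^ 2 * v')| ≤ 9 / 2 * D * μ ^ 4 := by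
    have e1 : (u ^ 3 / 2 + u ^ 2 * v) - (u' ^ 3 / 2 + u' ^ 2 * v') =
        (u ^ 3 - u' ^ 3) / 2 + ((u - u') * ((u + u') * v) + u' ^ 2 * (v - v')) := by ring
    rw [e1]
    have b1 : |(u ^ 3 - u' ^ 3) / 2| ≤ 3 * (D * μ ^ 2) * μ ^ 2 / 2 := by
      rw [abs_div, abs_two]
      exact div_le_div_of_nonneg_right c1 (by norm_num)
    have b2 : |(u - u') * ((u + u') * v)| ≤ (D * μ ^ 2) * ((μ + μ) * μ) := by
      rw [abs_mul, abs_of_nonneg (by positivity : 0 ≤ (u + u') * v)]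
      exact mul_le_mul d1 (mul_le_mul (add_le_add l1 l1') l2 p2 (by positivity)) (by positivity)
        (by positivity)
    have b3 : |u' ^ 2 * (v - v')| ≤ μ ^ 2 * (D * μ ^ 2) := by
      rw [abs_mul, abs_of_nonneg (by positivity : 0 ≤ u' ^ 2)]
      exact mul_le_mul (pow_le_pow_left₀ p1' l1' 2) d2 (abs_nonneg _) (by positivity)
    calc _ ≤ |(u ^ 3 - u' ^ 3) / 2| + (|(u - u') * ((u + u') * v)| + |u' ^ 2 * (v - v')|) :=
          (abs_add_le _ _).trans (add_le_add le_rfl (abs_add_le _ _))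
      _ ≤ 3 * (D * μ ^ 2) * μ ^ 2 / 2 + ((D * μ ^ 2) * ((μ + μ) * μ) + μ ^ 2 * (D * μ ^ 2)) := by
          linarith
      _ = _ := by ring
  have kk : u ^ 3 / 2 + u ^ 2 * v ≤ 3 / 2 * μ ^ 3 := by
    have g1 : u ^ 3 ≤ μ ^ 3 := pow_le_pow_left₀ p1 l1 3
    have g2 : u ^ 2 * v ≤ μ ^ 2 * μ := mul_le_mul (pow_le_pow_left₀ p1 l1 2) l2 p2 (by positivity)
    nlinarith
  have kk0 : 0 ≤ u ^ 3 / 2 + u ^ 2 * v := by positivity
  have sX : |X ^ 2 - X' ^ 2| ≤ 4 * D * q ^ 2 * μ := by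
    have e1 : X ^ 2 - X' ^ 2 = (X - X') * (X + X') := by ring
    rw [e1, abs_mul]
    calc _ ≤ (2 * D * q * μ) * (q + q) :=
          mul_le_mul dd2 ((abs_add_le _ _).trans (add_le_add k1 k1')) (abs_nonneg _)
            (by positivity)
      _ = _ := by ring
  have sX' : X' ^ 2 ≤ q ^ 2 := by
    rw [← sq_abs X']
    exact pow_le_pow_left₀ (abs_nonneg _) k1' 2
  have e2 : -(q ^ 2 * u ^ 3 / 2) + X ^ 2 * (u ^ 3 / 2 + u ^ 2 * v) -
      (-(q ^ 2 * u' ^ 3 / 2) + X' ^ 2 * (u' ^ 3 / 2 + u' ^ 2 * v')) =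
      -(q ^ 2 / 2 * (u ^ 3 - u' ^ 3)) + ((X ^ 2 - X' ^ 2) * (u ^ 3 / 2 + u ^ 2 * v) +
        X' ^ 2 * ((u ^ 3 / 2 + u ^ 2 * v) - (u' ^ 3 / 2 + u' ^ 2 * v'))) := by ring
  rw [e2]
  have b1 : |-(q ^ 2 / 2 * (u ^ 3 - u' ^ 3))| ≤ q ^ 2 / 2 * (3 * (D * μ ^ 2) * μ ^ 2) := by
    rw [abs_neg, abs_mul, abs_of_nonneg (by positivity : 0 ≤ q ^ 2 / 2)]
    exact mul_le_mul_of_nonneg_left c1 (by positivity)
  have b2 : |(X ^ 2 - X' ^ 2) * (u ^ 3 / 2 + u ^ 2 * v)| ≤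
      (4 * D * q ^ 2 * μ) * (3 / 2 * μ ^ 3) := by
    rw [abs_mul, abs_of_nonneg kk0]
    exact mul_le_mul sX kk kk0 (by positivity)
  have b3 : |X' ^ 2 * ((u ^ 3 / 2 + u ^ 2 * v) - (u' ^ 3 / 2 + u' ^ 2 * v'))| ≤
      q ^ 2 * (9 / 2 * D * μ ^ 4) := by
    rw [abs_mul, abs_of_nonneg (sq_nonneg X')]
    exact mul_le_mul sX' ck (abs_nonneg _) (by positivity)
  calc _ ≤ |-(q ^ 2 / 2 * (u ^ 3 - u' ^ 3))| + (|(X ^ 2 - X' ^ 2) * (u ^ 3 / 2 + u ^ 2 * v)| +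
        |X' ^ 2 * ((u ^ 3 / 2 + u ^ 2 * v) - (u' ^ 3 / 2 + u' ^ 2 * v'))|) :=
        (abs_add_le _ _).trans (add_le_add le_rfl (abs_add_le _ _))
    _ ≤ q ^ 2 / 2 * (3 * (D * μ ^ 2) * μ ^ 2) + ((4 * D * q ^ 2 * μ) * (3 / 2 * μ ^ 3) +
        q ^ 2 * (9 / 2 * D * μ ^ 4)) := by linarith
    _ = _ := by ring

/-- the double difference of `1/|y|` -/
lemma dd_inv {y y' h : E3} {m : ℝ} (hm : 0 < m) (h1 : m ≤ ‖y‖) (h2 : m ≤ ‖y + h‖)
    (h1' : m ≤ ‖y'‖) (h2' : m ≤ ‖y' + h‖) :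
    |(‖y‖⁻¹ - ‖y + h‖⁻¹) - (‖y'‖⁻¹ - ‖y' + h‖⁻¹)| ≤ 4 * ‖h‖ * ‖y - y'‖ * (m⁻¹) ^ 3 := by
  have d1 := inv_sub hm h1 h1'
  have d2 := inv_sub hm h2 h2'
  rw [add_sub_add_right_eq_sub] at d2
  have l1 := inv_le hm h1
  have l2 := inv_le hm h2
  have l1' := inv_le hm h1'
  have l2' := inv_le hm h2'
  have p1 : 0 ≤ ‖y‖⁻¹ := by positivity
  have p2 : 0 ≤ ‖y + h‖⁻¹ := by positivity
  have p1' : 0 ≤ ‖y'‖⁻¹ := by positivity
  have p2' : 0 ≤ ‖y' + h‖⁻¹ := by positivity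
  have dd := dd_norm y y' h
  have k1' : |‖y' + h‖ - ‖y'‖| ≤ ‖h‖ := by
    have := abs_norm_sub_norm_le (y' + h) y'
    rwa [add_sub_cancel_left] at this
  have dd2 : |(‖y + h‖ - ‖y‖) - (‖y' + h‖ - ‖y'‖)| ≤ 2 * ‖y - y'‖ * ‖h‖ * m⁻¹ := by
    have h3 : |(‖y + h‖ - ‖y‖) - (‖y' + h‖ - ‖y'‖)| * (2 * m) ≤ 4 * ‖y - y'‖ * ‖h‖ :=
      (mul_le_mul_of_nonneg_left (by linarith) (abs_nonneg _)).trans dd
    have h4 : |(‖y + h‖ - ‖y‖) - (‖y' + h‖ - ‖y'‖)| ≤ 4 * ‖y - y'‖ * ‖h‖ / (2 * m) := by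
      rw [le_div_iff₀ (by positivity)]
      exact h3
    refine h4.trans (le_of_eq ?_)
    field_simp
    ring
  have e1 : ‖y‖⁻¹ - ‖y + h‖⁻¹ = (‖y + h‖ - ‖y‖) * (‖y‖⁻¹ * ‖y + h‖⁻¹) := by
    have : 0 < ‖y‖ := hm.trans_le h1
    have : 0 < ‖y + h‖ := hm.trans_le h2
    field_simp
  have e1' : ‖y'‖⁻¹ - ‖y' + h‖⁻¹ = (‖y' + h‖ - ‖y'‖) * (‖y'‖⁻¹ * ‖y' + h‖⁻¹) := by
    have : 0 < ‖y'‖ := hm.trans_le h1'
    have : 0 < ‖y' + h‖ := hm.trans_le h2'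
    field_simp
  rw [e1, e1']
  set u := ‖y‖⁻¹ with hu
  set v := ‖y + h‖⁻¹ with hv
  set u' := ‖y'‖⁻¹ with hu'
  set v' := ‖y' + h‖⁻¹ with hv'
  set μ := m⁻¹ with hμ
  have hμ0 : 0 < μ := inv_pos.2 hm
  set D := ‖y - y'‖ with hD
  have hD0 : 0 ≤ D := norm_nonneg _
  set q := ‖h‖ with hq
  have hq0 : 0 ≤ q := norm_nonneg _
  set X := ‖y + h‖ - ‖y‖ with hX
  set X' := ‖y' + h‖ - ‖y'‖ with hX'
  have e2 : X * (u * v) - X' * (u' * v') =
      (X - X') * (u * v) + X' * ((u - u') * v + u' * (v - v')) := by ring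
  rw [e2]
  have b1 : |(X - X') * (u * v)| ≤ (2 * D * q * μ) * (μ * μ) := by
    rw [abs_mul, abs_of_nonneg (by positivity : 0 ≤ u * v)]
    exact mul_le_mul dd2 (mul_le_mul l1 l2 p2 hμ0.le) (by positivity) (by positivity)
  have b2 : |(u - u') * v + u' * (v - v')| ≤ (D * μ ^ 2) * μ + μ * (D * μ ^ 2) := by
    refine (abs_add_le _ _).trans (add_le_add ?_ ?_)
    · rw [abs_mul, abs_of_nonneg p2]
      exact mul_le_mul d1 l2 p2 (by positivity)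
    · rw [abs_mul, abs_of_nonneg p1']
      exact mul_le_mul l1' d2 (abs_nonneg _) (by positivity)
  calc _ ≤ |(X - X') * (u * v)| + |X' * ((u - u') * v + u' * (v - v'))| := abs_add_le _ _
    _ ≤ (2 * D * q * μ) * (μ * μ) + q * ((D * μ ^ 2) * μ + μ * (D * μ ^ 2)) := by
        refine add_le_add b1 ?_
        rw [abs_mul]
        exact mul_le_mul k1' b2 (abs_nonneg _) hq0
    _ = _ := by ring

/-! ### the field -/

/-- `y/|y|³` -/
def Vf (y : E3) : E3 := (‖y‖⁻¹) ^ 3 • y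

lemma Vf_lip {y y' : E3} {m : ℝ} (hm : 0 < m) (h1 : m ≤ ‖y‖) (h1' : m ≤ ‖y'‖) :
    ‖Vf y - Vf y'‖ ≤ 4 * ‖y - y'‖ * (m⁻¹) ^ 3 := by
  have d1 : |‖y‖⁻¹ - ‖y'‖⁻¹| ≤ ‖y - y'‖ * (‖y‖⁻¹ * ‖y'‖⁻¹) := by
    have h2 : 0 < ‖y‖ := hm.trans_le h1
    have h2' : 0 < ‖y'‖ := hm.trans_le h1'
    have e : ‖y‖⁻¹ - ‖y'‖⁻¹ = (‖y'‖ - ‖y‖) * (‖y‖⁻¹ * ‖y'‖⁻¹) := by
      field_simp
    rw [e, abs_mul, abs_of_nonneg (by positivity : 0 ≤ ‖y‖⁻¹ * ‖y'‖⁻¹)]
    have h3 : |‖y'‖ - ‖y‖| ≤ ‖y - y'‖ := by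
      have := abs_norm_sub_norm_le y' y
      rwa [norm_sub_rev y' y] at this
    exact mul_le_mul_of_nonneg_right h3 (by positivity)
  have l1 := inv_le hm h1
  have l1' := inv_le hm h1'
  have p1 : 0 ≤ ‖y‖⁻¹ := by positivity
  have p1' : 0 ≤ ‖y'‖⁻¹ := by positivity
  have hμ0 : 0 < m⁻¹ := inv_pos.2 hm
  have e : Vf y - Vf y' = (‖y‖⁻¹) ^ 3 • (y - y') + ((‖y‖⁻¹) ^ 3 - (‖y'‖⁻¹) ^ 3) • y' := by
    unfold Vf
    module
  have b1 : ‖(‖y‖⁻¹) ^ 3 • (y - y')‖ ≤ (m⁻¹) ^ 3 * ‖y - y'‖ := by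
    rw [norm_smul, Real.norm_of_nonneg (by positivity)]
    exact mul_le_mul_of_nonneg_right (pow_le_pow_left₀ p1 l1 3) (norm_nonneg _)
  have b2 : ‖((‖y‖⁻¹) ^ 3 - (‖y'‖⁻¹) ^ 3) • y'‖ ≤ 3 * ‖y - y'‖ * (m⁻¹) ^ 3 := by
    rw [norm_smul, Real.norm_eq_abs]
    have e1 : (‖y‖⁻¹) ^ 3 - (‖y'‖⁻¹) ^ 3 =
        (‖y‖⁻¹ - ‖y'‖⁻¹) * ((‖y‖⁻¹) ^ 2 + ‖y‖⁻¹ * ‖y'‖⁻¹ + (‖y'‖⁻¹) ^ 2) := by ring
    rw [e1, abs_mul, abs_of_nonneg (by positivity :
      0 ≤ (‖y‖⁻¹) ^ 2 + ‖y‖⁻¹ * ‖y'‖⁻¹ + (‖y'‖⁻¹) ^ 2)]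
    have hy' : ‖y'‖⁻¹ * ‖y'‖ = 1 := inv_mul_cancel₀ (hm.trans_le h1').ne'
    have g1 : (‖y‖⁻¹) ^ 2 + ‖y‖⁻¹ * ‖y'‖⁻¹ + (‖y'‖⁻¹) ^ 2 ≤ 3 * (m⁻¹) ^ 2 := by nlinarith
    calc _ ≤ (‖y - y'‖ * (‖y‖⁻¹ * ‖y'‖⁻¹)) * (3 * (m⁻¹) ^ 2) * ‖y'‖ :=
          mul_le_mul_of_nonneg_right (mul_le_mul d1 g1 (by positivity) (by positivity))
            (norm_nonneg _)
      _ = (‖y - y'‖ * ‖y‖⁻¹) * (3 * (m⁻¹) ^ 2) * (‖y'‖⁻¹ * ‖y'‖) := by ring
      _ = (‖y - y'‖ * ‖y‖⁻¹) * (3 * (m⁻¹) ^ 2) := by rw [hy', mul_one]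
      _ ≤ (‖y - y'‖ * m⁻¹) * (3 * (m⁻¹) ^ 2) :=
          mul_le_mul_of_nonneg_right (mul_le_mul_of_nonneg_left l1 (norm_nonneg _))
            (by positivity)
      _ = _ := by ring
  rw [e]
  calc _ ≤ _ := norm_add_le _ _
    _ ≤ (m⁻¹) ^ 3 * ‖y - y'‖ + 3 * ‖y - y'‖ * (m⁻¹) ^ 3 := add_le_add b1 b2
    _ = _ := by ring

/-- first order Taylor expansion of the field -/
lemma Vf_taylor {w p : E3} {m : ℝ} (hm : 0 < m) (h1 : 2 * m = ‖w‖) (h2 : m ≤ ‖w + p‖) :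
    ‖Vf (w + p) - Vf w - Tvec w p‖ ≤ 21 * ‖p‖ ^ 2 * (m⁻¹) ^ 4 := by
  have ha : 0 < ‖w‖ := by rw [← h1]; positivity
  have hb : 0 < ‖w + p‖ := hm.trans_le h2
  have hm1 : m ≤ ‖w‖ := by linarith
  have l1 := inv_le hm hm1
  have l2 := inv_le hm h2
  have p1 : 0 ≤ ‖w‖⁻¹ := by positivity
  have p2 : 0 ≤ ‖w + p‖⁻¹ := by positivity
  have hμ0 : 0 < m⁻¹ := inv_pos.2 hm
  have e1 := sqn w p
  have d1 := inv_sub hm h2 hm1
  rw [add_sub_cancel_left] at d1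
  have c1 := cube_sub p2 p1 l2 l1 d1
  set E := (‖w + p‖⁻¹) ^ 3 - (‖w‖⁻¹) ^ 3 + 3 * inner ℝ w p * (‖w‖⁻¹) ^ 5 with hE
  have k1 : |‖w + p‖ - ‖w‖| ≤ ‖p‖ := by
    have := abs_norm_sub_norm_le (w + p) w
    rwa [add_sub_cancel_left] at this
  have hE2 : E = (‖w + p‖ - ‖w‖) ^ 2 * (3 / 2 * (‖w‖⁻¹) ^ 5 + 3 * (‖w‖⁻¹) ^ 4 * ‖w + p‖⁻¹ +
      2 * (‖w‖⁻¹) ^ 3 * (‖w + p‖⁻¹) ^ 2 + (‖w‖⁻¹) ^ 2 * (‖w + p‖⁻¹) ^ 3) -
      3 / 2 * ‖p‖ ^ 2 * (‖w‖⁻¹) ^ 5 := by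
    have hs : inner ℝ w p = (‖w + p‖ ^ 2 - ‖w‖ ^ 2 - ‖p‖ ^ 2) / 2 := by linarith
    rw [hE, hs]
    generalize ‖w + p‖ = b at *
    generalize ‖w‖ = a at *
    generalize ‖p‖ = q at *
    have : a ≠ 0 := ha.ne'
    have : b ≠ 0 := hb.ne'
    field_simp
    ring
  have hEb : |E| ≤ 9 * ‖p‖ ^ 2 * (m⁻¹) ^ 5 := by
    have s1 : (‖w + p‖ - ‖w‖) ^ 2 ≤ ‖p‖ ^ 2 := by
      rw [← sq_abs (‖w + p‖ - ‖w‖)]
      exact pow_le_pow_left₀ (abs_nonneg _) k1 2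
    have q5 : (‖w‖⁻¹) ^ 5 ≤ (m⁻¹) ^ 5 := pow_le_pow_left₀ p1 l1 5
    have q4 : (‖w‖⁻¹) ^ 4 * ‖w + p‖⁻¹ ≤ (m⁻¹) ^ 4 * m⁻¹ :=
      mul_le_mul (pow_le_pow_left₀ p1 l1 4) l2 p2 (by positivity)
    have q3 : (‖w‖⁻¹) ^ 3 * (‖w + p‖⁻¹) ^ 2 ≤ (m⁻¹) ^ 3 * (m⁻¹) ^ 2 :=
      mul_le_mul (pow_le_pow_left₀ p1 l1 3) (pow_le_pow_left₀ p2 l2 2) (by positivity)
        (by positivity)
    have q2 : (‖w‖⁻¹) ^ 2 * (‖w + p‖⁻¹) ^ 3 ≤ (m⁻¹) ^ 2 * (m⁻¹) ^ 3 :=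
      mul_le_mul (pow_le_pow_left₀ p1 l1 2) (pow_le_pow_left₀ p2 l2 3) (by positivity)
        (by positivity)
    have s2 : 3 / 2 * (‖w‖⁻¹) ^ 5 + 3 * (‖w‖⁻¹) ^ 4 * ‖w + p‖⁻¹ +
      2 * (‖w‖⁻¹) ^ 3 * (‖w + p‖⁻¹) ^ 2 + (‖w‖⁻¹) ^ 2 * (‖w + p‖⁻¹) ^ 3 ≤
        15 / 2 * (m⁻¹) ^ 5 := by
      have : (m⁻¹) ^ 4 * m⁻¹ = (m⁻¹) ^ 5 := by ring
      have : (m⁻¹) ^ 3 * (m⁻¹) ^ 2 = (m⁻¹) ^ 5 := by ring
      have : (m⁻¹) ^ 2 * (m⁻¹) ^ 3 = (m⁻¹) ^ 5 := by ring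
      linarith
    have s3 := mul_le_mul s1 s2 (by positivity) (by positivity)
    have s4 : 0 ≤ (‖w + p‖ - ‖w‖) ^ 2 * (3 / 2 * (‖w‖⁻¹) ^ 5 + 3 * (‖w‖⁻¹) ^ 4 * ‖w + p‖⁻¹ +
      2 * (‖w‖⁻¹) ^ 3 * (‖w + p‖⁻¹) ^ 2 + (‖w‖⁻¹) ^ 2 * (‖w + p‖⁻¹) ^ 3) := by positivity
    have s5 : 3 / 2 * ‖p‖ ^ 2 * (‖w‖⁻¹) ^ 5 ≤ 3 / 2 * ‖p‖ ^ 2 * (m⁻¹) ^ 5 :=
      mul_le_mul_of_nonneg_left q5 (by positivity)
    have s6 : 0 ≤ 3 / 2 * ‖p‖ ^ 2 * (‖w‖⁻¹) ^ 5 := by positivity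
    have s7 : 0 ≤ ‖p‖ ^ 2 * (m⁻¹) ^ 5 := by positivity
    rw [hE2, abs_le]
    constructor <;> nlinarith
  have e : Vf (w + p) - Vf w - Tvec w p =
      E • w + ((‖w + p‖⁻¹) ^ 3 - (‖w‖⁻¹) ^ 3) • p := by
    have t1 : Tvec w p = (‖w‖⁻¹) ^ 3 • p - (3 * inner ℝ w p * (‖w‖⁻¹) ^ 5) • w := by
      unfold Tvec
      rw [smul_sub, smul_smul, real_inner_comm]
      congr 1
      · congr 1
        field_simp
      · congr 1
        field_simp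
    rw [t1, hE]
    unfold Vf
    module
  rw [e]
  have b1 : ‖E • w‖ ≤ (9 * ‖p‖ ^ 2 * (m⁻¹) ^ 5) * (2 * m) := by
    rw [norm_smul, Real.norm_eq_abs, ← h1]
    exact mul_le_mul_of_nonneg_right hEb (by positivity)
  have b2 : ‖((‖w + p‖⁻¹) ^ 3 - (‖w‖⁻¹) ^ 3) • p‖ ≤ (3 * (‖p‖ * (m⁻¹) ^ 2) * (m⁻¹) ^ 2) * ‖p‖ := by
    rw [norm_smul, Real.norm_eq_abs]
    exact mul_le_mul_of_nonneg_right c1 (norm_nonneg _)
  calc _ ≤ _ := norm_add_le _ _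
    _ ≤ (9 * ‖p‖ ^ 2 * (m⁻¹) ^ 5) * (2 * m) + (3 * (‖p‖ * (m⁻¹) ^ 2) * (m⁻¹) ^ 2) * ‖p‖ :=
        add_le_add b1 b2
    _ = 18 * ‖p‖ ^ 2 * (m⁻¹) ^ 4 * (m⁻¹ * m) + 3 * ‖p‖ ^ 2 * (m⁻¹) ^ 4 := by ring
    _ = _ := by
        rw [inv_mul_cancel₀ hm.ne']
        ring

/-! ### one dipole -/

lemma cou_p (x z P : E3) : cou x (z + (1 / 2 : ℝ) • P) = ‖(x - z) - (1 / 2 : ℝ) • P‖⁻¹ := by
  unfold cou
  congr 2
  module

lemma cou_m (x z P : E3) : cou x (z - (1 / 2 : ℝ) • P) = ‖((x - z) - (1 / 2 : ℝ) • P) + P‖⁻¹ := by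
  unfold cou
  congr 2
  module

lemma half_norm (P : E3) : ‖(1 / 2 : ℝ) • P‖ = ‖P‖ / 2 := by
  rw [norm_smul, Real.norm_of_nonneg (by norm_num)]
  ring

lemma low_m (v P : E3) : ‖v‖ - ‖P‖ / 2 ≤ ‖v - (1 / 2 : ℝ) • P‖ := by
  have := norm_sub_norm_le v ((1 / 2 : ℝ) • P)
  rwa [half_norm] at this

lemma low_p (v P : E3) : ‖v‖ - ‖P‖ / 2 ≤ ‖(v - (1 / 2 : ℝ) • P) + P‖ := by
  have := norm_sub_norm_le v (-((1 / 2 : ℝ) • P))
  rw [norm_neg, half_norm] at this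
  have e : (v - (1 / 2 : ℝ) • P) + P = v - -((1 / 2 : ℝ) • P) := by module
  rwa [e]

lemma up_m (v P : E3) : ‖v - (1 / 2 : ℝ) • P‖ ≤ ‖v‖ + ‖P‖ / 2 := by
  have := norm_sub_le v ((1 / 2 : ℝ) • P)
  rwa [half_norm] at this

lemma up_p (v P : E3) : ‖(v - (1 / 2 : ℝ) • P) + P‖ ≤ ‖v‖ + ‖P‖ / 2 := by
  have := norm_add_le v ((1 / 2 : ℝ) • P)
  rw [half_norm] at this
  have e : (v - (1 / 2 : ℝ) • P) + P = v + (1 / 2 : ℝ) • P := by module
  rwa [e]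

/-- potential of one dipole -/
lemma g_abs {x z P : E3} (h0 : 0 < ‖x - z‖) (hP : ‖P‖ ≤ ‖x - z‖ / 4) :
    |cou x (z + (1 / 2 : ℝ) • P) - cou x (z - (1 / 2 : ℝ) • P)| ≤
      2 * ‖P‖ * (1 / ‖x - z‖ ^ 2) := by
  rw [cou_p, cou_m]
  have h1 := low_m (x - z) P
  have h2 := low_p (x - z) P
  have hm : 0 < 3 / 4 * ‖x - z‖ := by positivity
  have h3 := inv_sub hm (y := (x - z) - (1 / 2 : ℝ) • P)
    (y' := ((x - z) - (1 / 2 : ℝ) • P) + P) (by linarith) (by linarith)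
  have e : ‖(x - z) - (1 / 2 : ℝ) • P - (((x - z) - (1 / 2 : ℝ) • P) + P)‖ = ‖P‖ := by
    rw [sub_add_cancel_left, norm_neg]
  rw [e] at h3
  refine h3.trans ?_
  have e2 : ((3 / 4 * ‖x - z‖)⁻¹) ^ 2 = 16 / 9 * (1 / ‖x - z‖ ^ 2) := by
    field_simp
    norm_num
  rw [e2]
  have h4 : 0 ≤ ‖P‖ * (1 / ‖x - z‖ ^ 2) := by positivity
  nlinarith

/-- the double difference for two points -/
lemma g_lip {x x' z P : E3} {m : ℝ} (hm : 0 < m) (h1 : m + ‖P‖ / 2 ≤ ‖x - z‖)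
    (h2 : m + ‖P‖ / 2 ≤ ‖x' - z‖) :
    |(cou x (z + (1 / 2 : ℝ) • P) - cou x (z - (1 / 2 : ℝ) • P)) -
      (cou x' (z + (1 / 2 : ℝ) • P) - cou x' (z - (1 / 2 : ℝ) • P))| ≤
      4 * ‖P‖ * ‖x - x'‖ * (m⁻¹) ^ 3 := by
  simp only [cou_p, cou_m]
  have a1 := low_m (x - z) P
  have a2 := low_p (x - z) P
  have a3 := low_m (x' - z) P
  have a4 := low_p (x' - z) P
  have h3 := dd_inv hm (y := (x - z) - (1 / 2 : ℝ) • P) (y' := (x' - z) - (1 / 2 : ℝ) • P)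
    (h := P) (by linarith) (by linarith) (by linarith) (by linarith)
  have e : (x - z) - (1 / 2 : ℝ) • P - ((x' - z) - (1 / 2 : ℝ) • P) = x - x' := by abel
  rwa [e] at h3

/-- second order remainder -/
lemma g_taylor {x zi z P : E3} {d : ℝ} (hd : 0 < d) (hw : d ≤ ‖zi - z‖) (hP : ‖P‖ ≤ d / 32)
    (hx : ‖x - zi‖ ≤ d / 8) :
    |(cou x (z + (1 / 2 : ℝ) • P) - cou x (z - (1 / 2 : ℝ) • P)) -
      (cou zi (z + (1 / 2 : ℝ) • P) - cou zi (z - (1 / 2 : ℝ) • P)) -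
      inner ℝ (Vf (((zi - z) - (1 / 2 : ℝ) • P) + P) - Vf ((zi - z) - (1 / 2 : ℝ) • P)) (x - zi)| ≤
      192 * ‖P‖ * ‖x - zi‖ ^ 2 * (1 / ‖zi - z‖ ^ 4) := by
  simp only [cou_p, cou_m]
  set w := zi - z with hwd
  set h := x - zi with hh
  have hw0 : 0 < ‖w‖ := hd.trans_le hw
  have e1 : (x - z) - (1 / 2 : ℝ) • P = (w - (1 / 2 : ℝ) • P) + h := by
    rw [hwd, hh]; abel
  have e2 : (w - (1 / 2 : ℝ) • P) + h + P = ((w - (1 / 2 : ℝ) • P) + P) + h := by abel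
  rw [e1, e2]
  have m1 := low_m w P
  have m2 := low_p w P
  have m3 := norm_sub_norm_le (w - (1 / 2 : ℝ) • P) (-h)
  have m4 := norm_sub_norm_le ((w - (1 / 2 : ℝ) • P) + P) (-h)
  rw [norm_neg, sub_neg_eq_add] at m3 m4
  have key := Rm_lip (y := w - (1 / 2 : ℝ) • P) (y' := (w - (1 / 2 : ℝ) • P) + P) (h := h)
    (m := ‖w‖ / 2) (by positivity) (by linarith) (by linarith) (by linarith) (by linarith)
  have e3 : ‖w - (1 / 2 : ℝ) • P - ((w - (1 / 2 : ℝ) • P) + P)‖ = ‖P‖ := by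
    rw [sub_add_cancel_left, norm_neg]
  rw [e3] at key
  have e4 : ((‖w‖ / 2)⁻¹) ^ 4 = 16 * (1 / ‖w‖ ^ 4) := by
    field_simp
    norm_num
  rw [e4] at key
  have e5 : ‖(w - (1 / 2 : ℝ) • P) + h‖⁻¹ - ‖((w - (1 / 2 : ℝ) • P) + P) + h‖⁻¹ -
      (‖w - (1 / 2 : ℝ) • P‖⁻¹ - ‖(w - (1 / 2 : ℝ) • P) + P‖⁻¹) -
      inner ℝ (Vf ((w - (1 / 2 : ℝ) • P) + P) - Vf (w - (1 / 2 : ℝ) • P)) h =
      Rm (w - (1 / 2 : ℝ) • P) h - Rm ((w - (1 / 2 : ℝ) • P) + P) h := by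
    unfold Rm Vf
    rw [inner_sub_left, real_inner_smul_left, real_inner_smul_left]
    ring
  rw [e5]
  refine key.trans (le_of_eq ?_)
  ring

lemma Tvec_half (w P : E3) : Tvec w ((1 / 2 : ℝ) • P) - Tvec w (-((1 / 2 : ℝ) • P)) = Tvec w P := by
  unfold Tvec
  rw [inner_neg_left, real_inner_smul_left]
  rw [← smul_sub]
  congr 1
  module

/-- the field of one dipole -/
lemma F_term {w P : E3} {d : ℝ} (hd : 0 < d) (hw : d ≤ ‖w‖) (hP : ‖P‖ ≤ d / 32) :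
    ‖Vf ((w - (1 / 2 : ℝ) • P) + P) - Vf (w - (1 / 2 : ℝ) • P)‖ ≤ 32 * ‖P‖ * (1 / ‖w‖ ^ 3) ∧
    ‖Vf ((w - (1 / 2 : ℝ) • P) + P) - Vf (w - (1 / 2 : ℝ) • P) - Tvec w P‖ ≤
      6 * ‖P‖ * d * (1 / ‖w‖ ^ 4) := by
  have hw0 : 0 < ‖w‖ := hd.trans_le hw
  have m1 := low_m w P
  have m2 := low_p w P
  constructor
  · have h1 := Vf_lip (m := ‖w‖ / 2) (by positivity) (y := (w - (1 / 2 : ℝ) • P) + P)
      (y' := w - (1 / 2 : ℝ) • P) (by linarith) (by linarith)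
    rw [add_sub_cancel_left] at h1
    refine h1.trans (le_of_eq ?_)
    field_simp
    ring
  · have e0 : (w - (1 / 2 : ℝ) • P) + P = w + (1 / 2 : ℝ) • P := by module
    have e0' : w - (1 / 2 : ℝ) • P = w + -((1 / 2 : ℝ) • P) := by module
    rw [e0] at m2 ⊢
    rw [e0'] at m1 ⊢
    have h1 := Vf_taylor (m := ‖w‖ / 2) (w := w) (p := (1 / 2 : ℝ) • P) (by positivity)
      (by ring) (by linarith)
    have h2 := Vf_taylor (m := ‖w‖ / 2) (w := w) (p := -((1 / 2 : ℝ) • P)) (by positivity)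
      (by ring) (by linarith)
    rw [norm_neg] at h2
    rw [half_norm] at h1 h2
    have e : Vf (w + (1 / 2 : ℝ) • P) - Vf (w + -((1 / 2 : ℝ) • P)) - Tvec w P =
        (Vf (w + (1 / 2 : ℝ) • P) - Vf w - Tvec w ((1 / 2 : ℝ) • P)) -
        (Vf (w + -((1 / 2 : ℝ) • P)) - Vf w - Tvec w (-((1 / 2 : ℝ) • P))) := by
      rw [← Tvec_half w P]
      abel
    rw [e]
    refine (norm_sub_le _ _).trans ((add_le_add h1 h2).trans ?_)
    have e4 : ((‖w‖ / 2)⁻¹) ^ 4 = 16 * (1 / ‖w‖ ^ 4) := by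
      field_simp
      norm_num
    rw [e4]
    have h3 : 0 ≤ 1 / ‖w‖ ^ 4 := by positivity
    have h4 : 0 ≤ ‖P‖ := norm_nonneg _
    have h5 : ‖P‖ * ‖P‖ ≤ ‖P‖ * (d / 32) := mul_le_mul_of_nonneg_left hP h4
    have h6 := mul_le_mul_of_nonneg_right h5 h3
    have h7 : 0 ≤ ‖P‖ * d * (1 / ‖w‖ ^ 4) := by positivity
    nlinarith

/-- the sign of the potential of one dipole -/
lemma g_sign {x z P : E3} {s L : ℝ} (hL : 0 < L)
    (hup : ‖x - z‖ + ‖P‖ / 2 ≤ 6 * L) (hi : L * ‖P‖ ≤ s * inner ℝ (x - z) P) (hP : P ≠ 0)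
    (hPL : ‖P‖ ≤ L / 32) (hv : L ≤ ‖x - z‖) :
    ‖P‖ / (216 * L ^ 2) ≤ s * (cou x (z + (1 / 2 : ℝ) • P) - cou x (z - (1 / 2 : ℝ) • P)) := by
  rw [cou_p, cou_m]
  have m1 := low_m (x - z) P
  have m2 := low_p (x - z) P
  have u1 := up_m (x - z) P
  have u2 := up_p (x - z) P
  have e1 := sqn ((x - z) - (1 / 2 : ℝ) • P) P
  rw [inner_sub_left, real_inner_smul_left, real_inner_self_eq_norm_sq] at e1
  have hP0 : 0 < ‖P‖ := norm_pos_iff.2 hP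
  set v := x - z
  set A := ‖(v - (1 / 2 : ℝ) • P) + P‖
  set B := ‖v - (1 / 2 : ℝ) • P‖
  have hA : 0 < A := by linarith
  have hB : 0 < B := by linarith
  have e2 : (A - B) * (A + B) = 2 * inner ℝ v P := by nlinarith
  have e3 : B⁻¹ - A⁻¹ = (A - B) * (A⁻¹ * B⁻¹) := by
    field_simp
  have h1 : ‖P‖ / 6 ≤ s * (A - B) := by
    have h2 : 2 * L * ‖P‖ ≤ (s * (A - B)) * (A + B) := by
      have : (s * (A - B)) * (A + B) = s * (2 * inner ℝ v P) := by rw [← e2]; ring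
      rw [this]
      linarith
    by_contra hcon
    push Not at hcon
    have h3 : (s * (A - B)) * (A + B) < 2 * L * ‖P‖ := by
      calc (s * (A - B)) * (A + B) < (‖P‖ / 6) * (A + B) :=
            mul_lt_mul_of_pos_right hcon (by positivity)
        _ ≤ (‖P‖ / 6) * (6 * L + 6 * L) :=
            mul_le_mul_of_nonneg_left (by linarith) (by positivity)
        _ = 2 * L * ‖P‖ := by ring
    linarith
  rw [e3, ← mul_assoc]
  have h4 : 1 / (36 * L ^ 2) ≤ A⁻¹ * B⁻¹ := by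
    have h5 : A * B ≤ (6 * L) * (6 * L) := mul_le_mul (by linarith) (by linarith) hB.le (by positivity)
    rw [← mul_inv, ← one_div]
    exact one_div_le_one_div_of_le (by positivity) (by nlinarith)
  calc ‖P‖ / (216 * L ^ 2) = (‖P‖ / 6) * (1 / (36 * L ^ 2)) := by
        field_simp
        norm_num
    _ ≤ (s * (A - B)) * (A⁻¹ * B⁻¹) := mul_le_mul h1 h4 (by positivity) (by
        have : 0 ≤ ‖P‖ / 6 := by positivity
        linarith)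

end Geom

open Geom

theorem p_geom (hlat : S_lat) : S_geom := by
  obtain ⟨C, hC, hlat⟩ := hlat
  refine ⟨192 * C + 2000, 1 / 27, by linarith, by norm_num, ?_⟩
  intro K d P hK hd hP hPd
  obtain ⟨la, lb, lc, ld, le, lf⟩ := hlat K d hK hd
  have hP0 : 0 < ‖P‖ := norm_pos_iff.2 hP
  have hK1 : (1 : ℝ) ≤ K := by exact_mod_cast hK
  have hcard : (Fintype.card (Fin 3 → Fin (2 * K + 1)) : ℝ) = (2 * K + 1) ^ 3 := by
    simp
  refine ⟨⟨fun i => ∑ j, if j = i then 0 else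
    Vf (((zpos K d i - zpos K d j) - (1 / 2 : ℝ) • P) + P) -
      Vf ((zpos K d i - zpos K d j) - (1 / 2 : ℝ) • P), ?_, ?_, ?_⟩, ?_, ?_⟩
  · intro i x hx
    have hfar : ∀ j, j ≠ i → 7 / 8 * d ≤ ‖x - zpos K d j‖ := by
      intro j hj
      have h1 := la i j (Ne.symm hj)
      have h2 : ‖zpos K d i - zpos K d j‖ ≤ ‖x - zpos K d i‖ + ‖x - zpos K d j‖ := by
        have := norm_sub_le (x - zpos K d j) (x - zpos K d i)
        have e : x - zpos K d j - (x - zpos K d i) = zpos K d i - zpos K d j := by abel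
        rw [e] at this
        linarith
      linarith
    constructor
    · calc |latPot K d P (some i) x| ≤ ∑ j, 2 * ‖P‖ * (if d / 8 ≤ ‖x - zpos K d j‖ then
            1 / ‖x - zpos K d j‖ ^ 2 else 0) := by
            refine (Finset.abs_sum_le_sum_abs _ _).trans (Finset.sum_le_sum fun j _ => ?_)
            by_cases hj : j = i
            · rw [if_pos (by rw [hj]), abs_zero]
              positivity
            · rw [if_neg (fun h => hj (Option.some.inj h).symm)]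
              have h1 := hfar j hj
              rw [if_pos (by linarith)]
              exact g_abs (by linarith) (by linarith)
        _ ≤ 2 * ‖P‖ * (C * K / d ^ 2) := by
            rw [← Finset.mul_sum]
            exact mul_le_mul_of_nonneg_left (lf x) (by positivity)
        _ ≤ (192 * C + 2000) * ‖P‖ * K / d ^ 2 := by
            rw [mul_div_assoc', div_le_div_iff_of_pos_right (by positivity)]
            have : 0 ≤ ‖P‖ * K := by positivity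
            nlinarith
    · have e : latPot K d P (some i) x - latPot K d P (some i) (zpos K d i) -
          inner ℝ (∑ j, if j = i then 0 else
            Vf (((zpos K d i - zpos K d j) - (1 / 2 : ℝ) • P) + P) -
            Vf ((zpos K d i - zpos K d j) - (1 / 2 : ℝ) • P)) (x - zpos K d i) =
          ∑ j, if j = i then 0 else
            ((cou x (zpos K d j + (1 / 2 : ℝ) • P) - cou x (zpos K d j - (1 / 2 : ℝ) • P)) -
            (cou (zpos K d i) (zpos K d j + (1 / 2 : ℝ) • P) -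
              cou (zpos K d i) (zpos K d j - (1 / 2 : ℝ) • P)) -
            inner ℝ (Vf (((zpos K d i - zpos K d j) - (1 / 2 : ℝ) • P) + P) -
              Vf ((zpos K d i - zpos K d j) - (1 / 2 : ℝ) • P)) (x - zpos K d i)) := by
        unfold latPot
        rw [sum_inner, ← Finset.sum_sub_distrib, ← Finset.sum_sub_distrib]
        refine Finset.sum_congr rfl fun j _ => ?_
        by_cases hj : j = i
        · rw [if_pos (by rw [hj]), if_pos (by rw [hj]), if_pos hj, if_pos hj, inner_zero_left]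
          ring
        · rw [if_neg (fun h => hj (Option.some.inj h).symm),
            if_neg (fun h => hj (Option.some.inj h).symm), if_neg hj, if_neg hj]
      rw [e]
      calc _ ≤ ∑ j, 192 * ‖P‖ * ‖x - zpos K d i‖ ^ 2 *
            (if j = i then 0 else 1 / ‖zpos K d i - zpos K d j‖ ^ 4) := by
            refine (Finset.abs_sum_le_sum_abs _ _).trans (Finset.sum_le_sum fun j _ => ?_)
            by_cases hj : j = i
            · rw [if_pos hj, if_pos hj, abs_zero, mul_zero]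
            · rw [if_neg hj, if_neg hj]
              exact g_taylor hd (la i j (Ne.symm hj)) hPd hx
        _ ≤ 192 * ‖P‖ * ‖x - zpos K d i‖ ^ 2 * (C / d ^ 4) := by
            rw [← Finset.mul_sum]
            exact mul_le_mul_of_nonneg_left (lc i) (by positivity)
        _ ≤ (192 * C + 2000) * ‖P‖ / d ^ 4 * ‖x - zpos K d i‖ ^ 2 := by
            have : 0 ≤ ‖P‖ / d ^ 4 * ‖x - zpos K d i‖ ^ 2 := by positivity
            have e1 : 192 * ‖P‖ * ‖x - zpos K d i‖ ^ 2 * (C / d ^ 4) =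
              192 * C * (‖P‖ / d ^ 4 * ‖x - zpos K d i‖ ^ 2) := by ring
            have e2 : (192 * C + 2000) * ‖P‖ / d ^ 4 * ‖x - zpos K d i‖ ^ 2 =
              (192 * C + 2000) * (‖P‖ / d ^ 4 * ‖x - zpos K d i‖ ^ 2) := by ring
            rw [e1, e2]
            nlinarith
  · intro i
    calc _ ≤ ∑ j, 32 * ‖P‖ * (if j = i then 0 else 1 / ‖zpos K d i - zpos K d j‖ ^ 3) := by
          refine (norm_sum_le _ _).trans (Finset.sum_le_sum fun j _ => ?_)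
          by_cases hj : j = i
          · rw [if_pos hj, if_pos hj, norm_zero, mul_zero]
          · rw [if_neg hj, if_neg hj]
            exact (F_term hd (la i j (Ne.symm hj)) hPd).1
      _ ≤ 32 * ‖P‖ * (C * Real.sqrt (Real.sqrt K) / d ^ 3) := by
          rw [← Finset.mul_sum]
          exact mul_le_mul_of_nonneg_left (ld i) (by positivity)
      _ ≤ (192 * C + 2000) * ‖P‖ * Real.sqrt (Real.sqrt K) / d ^ 3 := by
          have : 0 ≤ ‖P‖ * Real.sqrt (Real.sqrt K) / d ^ 3 := by positivity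
          have e1 : 32 * ‖P‖ * (C * Real.sqrt (Real.sqrt K) / d ^ 3) =
            32 * C * (‖P‖ * Real.sqrt (Real.sqrt K) / d ^ 3) := by ring
          have e2 : (192 * C + 2000) * ‖P‖ * Real.sqrt (Real.sqrt K) / d ^ 3 =
            (192 * C + 2000) * (‖P‖ * Real.sqrt (Real.sqrt K) / d ^ 3) := by ring
          rw [e1, e2]
          nlinarith
  · have h1 : ∀ i, ‖∑ j, if j = i then 0 else
        Vf (((zpos K d i - zpos K d j) - (1 / 2 : ℝ) • P) + P) -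
        Vf ((zpos K d i - zpos K d j) - (1 / 2 : ℝ) • P)‖ ≤
        ‖∑ j, if j = i then 0 else Tvec (zpos K d i - zpos K d j) P‖ + 6 * ‖P‖ * d * (C / d ^ 4) := by
      intro i
      have e : (∑ j, if j = i then 0 else
          Vf (((zpos K d i - zpos K d j) - (1 / 2 : ℝ) • P) + P) -
          Vf ((zpos K d i - zpos K d j) - (1 / 2 : ℝ) • P)) =
          (∑ j, if j = i then 0 else Tvec (zpos K d i - zpos K d j) P) +
          ∑ j, if j = i then 0 else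
            (Vf (((zpos K d i - zpos K d j) - (1 / 2 : ℝ) • P) + P) -
            Vf ((zpos K d i - zpos K d j) - (1 / 2 : ℝ) • P) -
            Tvec (zpos K d i - zpos K d j) P) := by
        rw [← Finset.sum_add_distrib]
        refine Finset.sum_congr rfl fun j _ => ?_
        by_cases hj : j = i
        · simp [hj]
        · rw [if_neg hj, if_neg hj, if_neg hj]
          abel
      rw [e]
      refine (norm_add_le _ _).trans (add_le_add le_rfl ?_)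
      calc _ ≤ ∑ j, 6 * ‖P‖ * d * (if j = i then 0 else 1 / ‖zpos K d i - zpos K d j‖ ^ 4) := by
            refine (norm_sum_le _ _).trans (Finset.sum_le_sum fun j _ => ?_)
            by_cases hj : j = i
            · rw [if_pos hj, if_pos hj, norm_zero, mul_zero]
            · rw [if_neg hj, if_neg hj]
              exact (F_term hd (la i j (Ne.symm hj)) hPd).2
        _ ≤ _ := by
            rw [← Finset.mul_sum]
            exact mul_le_mul_of_nonneg_left (lc i) (by positivity)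
    calc _ ≤ ∑ i, (‖∑ j, if j = i then 0 else Tvec (zpos K d i - zpos K d j) P‖ +
          6 * ‖P‖ * d * (C / d ^ 4)) := Finset.sum_le_sum fun i _ => h1 i
      _ = (∑ i, ‖∑ j, if j = i then 0 else Tvec (zpos K d i - zpos K d j) P‖) +
          (2 * K + 1) ^ 3 * (6 * ‖P‖ * d * (C / d ^ 4)) := by
          rw [Finset.sum_add_distrib, Finset.sum_const, nsmul_eq_mul, Finset.card_univ, hcard]
      _ ≤ C * (2 * K + 1) ^ 3 * ‖P‖ / d ^ 3 + (2 * K + 1) ^ 3 * (6 * ‖P‖ * d * (C / d ^ 4)) :=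
          add_le_add (le P) le_rfl
      _ = 7 * C * ((2 * K + 1) ^ 3 * ‖P‖ / d ^ 3) := by
          field_simp
          ring
      _ ≤ (192 * C + 2000) * (2 * K + 1) ^ 3 * ‖P‖ / d ^ 3 := by
          have : 0 ≤ (2 * (K : ℝ) + 1) ^ 3 * ‖P‖ / d ^ 3 := by positivity
          have e2 : (192 * C + 2000) * (2 * (K : ℝ) + 1) ^ 3 * ‖P‖ / d ^ 3 =
            (192 * C + 2000) * ((2 * K + 1) ^ 3 * ‖P‖ / d ^ 3) := by ring
          rw [e2]
          nlinarith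
  · intro C0 Kr hC0 hKr x
    classical
    have hcount : (∑ j, if ‖x - zpos K d j‖ < d / 2 then (1 : ℝ) else 0) ≤ 1 := by
      rw [Finset.sum_boole]
      have : (Finset.univ.filter fun j => ‖x - zpos K d j‖ < d / 2).card ≤ 1 := by
        rw [Finset.card_le_one]
        intro i hi j hj
        rw [Finset.mem_filter] at hi hj
        by_contra hne
        have h1 := la i j hne
        have h2 : ‖zpos K d i - zpos K d j‖ ≤ ‖x - zpos K d j‖ + ‖x - zpos K d i‖ := by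
          have := norm_sub_le (x - zpos K d j) (x - zpos K d i)
          have e : x - zpos K d j - (x - zpos K d i) = zpos K d i - zpos K d j := by abel
          rwa [e] at this
        linarith [hi.2, hj.2]
      exact_mod_cast this
    have hterm : ∀ j, |Kr x (zpos K d j + (1 / 2 : ℝ) • P) - Kr x (zpos K d j - (1 / 2 : ℝ) • P)| ≤
        64 * C0 * ‖P‖ / d ^ 2 * (if ‖x - zpos K d j‖ < d / 2 then (1 : ℝ) else 0) +
        2 * ‖P‖ * (if d / 8 ≤ ‖x - zpos K d j‖ then 1 / ‖x - zpos K d j‖ ^ 2 else 0) := by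
      intro j
      by_cases hj : ‖x - zpos K d j‖ < d / 2
      · rw [if_pos hj, mul_one]
        have h1 := hKr.lip (zpos K d j + (1 / 2 : ℝ) • P) (zpos K d j - (1 / 2 : ℝ) • P) x
        rw [hKr.symm _ x, hKr.symm _ x] at h1
        have e : zpos K d j + (1 / 2 : ℝ) • P - (zpos K d j - (1 / 2 : ℝ) • P) = P := by module
        rw [e] at h1
        have e2 : C0 * ‖P‖ / (d / 8) ^ 2 = 64 * C0 * ‖P‖ / d ^ 2 := by
          field_simp
          norm_num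
        rw [e2] at h1
        have h2 : 0 ≤ 2 * ‖P‖ * (if d / 8 ≤ ‖x - zpos K d j‖ then
          1 / ‖x - zpos K d j‖ ^ 2 else 0) := by positivity
        linarith
      · rw [if_neg hj, mul_zero, zero_add]
        push Not at hj
        rw [if_pos (by linarith)]
        have m1 := low_m (x - zpos K d j) P
        have m2 := low_p (x - zpos K d j) P
        have e1 : x - (zpos K d j + (1 / 2 : ℝ) • P) = (x - zpos K d j) - (1 / 2 : ℝ) • P := by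
          module
        have e2 : x - (zpos K d j - (1 / 2 : ℝ) • P) =
          ((x - zpos K d j) - (1 / 2 : ℝ) • P) + P := by module
        rw [hKr.eq_cou _ _ (by rw [e1]; linarith), hKr.eq_cou _ _ (by rw [e2]; linarith)]
        exact g_abs (by linarith) (by linarith)
    calc _ ≤ ∑ j, (64 * C0 * ‖P‖ / d ^ 2 * (if ‖x - zpos K d j‖ < d / 2 then (1 : ℝ) else 0) +
          2 * ‖P‖ * (if d / 8 ≤ ‖x - zpos K d j‖ then 1 / ‖x - zpos K d j‖ ^ 2 else 0)) :=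
          (Finset.abs_sum_le_sum_abs _ _).trans (Finset.sum_le_sum fun j _ => hterm j)
      _ ≤ 64 * C0 * ‖P‖ / d ^ 2 * 1 + 2 * ‖P‖ * (C * K / d ^ 2) := by
          rw [Finset.sum_add_distrib, ← Finset.mul_sum, ← Finset.mul_sum]
          exact add_le_add (mul_le_mul_of_nonneg_left hcount (by positivity))
            (mul_le_mul_of_nonneg_left (lf x) (by positivity))
      _ ≤ (192 * C + 2000) * C0 * ‖P‖ * K / d ^ 2 := by
          have e1 : 64 * C0 * ‖P‖ / d ^ 2 * 1 + 2 * ‖P‖ * (C * K / d ^ 2) =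
            (64 * C0 + 2 * C * K) * (‖P‖ / d ^ 2) := by ring
          have e2 : (192 * C + 2000) * C0 * ‖P‖ * K / d ^ 2 =
            ((192 * C + 2000) * C0 * K) * (‖P‖ / d ^ 2) := by ring
          rw [e1, e2]
          refine mul_le_mul_of_nonneg_right ?_ (by positivity)
          have h1 : 1 ≤ C0 * K := by nlinarith
          have h2 : C0 ≤ C0 * K := by nlinarith
          have h3 : C * K ≤ C * C0 * K := by
            have : 0 ≤ C * K := by positivity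
            nlinarith
          nlinarith
  · intro s hs x x' hx hx'
    have hdK : 0 < d * K := by positivity
    have hdK1 : d ≤ d * K := by nlinarith
    have hs1 : |s| = 1 := by rcases hs with h | h <;> rw [h] <;> norm_num
    have hss : s * s = 1 := by rcases hs with h | h <;> rw [h] <;> norm_num
    have h3 : Real.sqrt 3 ≤ 1.74 := by
      rw [Real.sqrt_le_left (by norm_num)]
      norm_num
    have hX0 : ‖(s * (3 * d * K) / ‖P‖) • P‖ = 3 * (d * K) := by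
      rw [norm_smul, Real.norm_eq_abs, abs_div, abs_mul, hs1, abs_of_pos hP0,
        abs_of_pos (by positivity : 0 < 3 * d * (K : ℝ))]
      field_simp
    have hlow : ∀ y : E3, ‖y - (s * (3 * d * K) / ‖P‖) • P‖ ≤ d * K / 4 → ∀ j,
        1.01 * (d * K) ≤ ‖y - zpos K d j‖ ∧ ‖y - zpos K d j‖ ≤ 5 * (d * K) ∧
        d * K * ‖P‖ ≤ s * inner ℝ (y - zpos K d j) P := by
      intro y hy j
      set X0 := (s * (3 * d * K) / ‖P‖) • P with hX0d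
      have e : y - zpos K d j = X0 + ((y - X0) - zpos K d j) := by abel
      have b := lb j
      have b2 : ‖(y - X0) - zpos K d j‖ ≤ d * K / 4 + 1.74 * (d * K) := by
        refine (norm_sub_le _ _).trans (add_le_add hy (b.trans ?_))
        exact mul_le_mul_of_nonneg_right h3 hdK.le
      refine ⟨?_, ?_, ?_⟩
      · rw [e]
        have := norm_sub_norm_le X0 (-((y - X0) - zpos K d j))
        rw [norm_neg, sub_neg_eq_add, hX0] at this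
        linarith
      · rw [e]
        refine (norm_add_le _ _).trans ?_
        rw [hX0]
        linarith
      · rw [e, inner_add_left, mul_add, hX0d, real_inner_smul_left, real_inner_self_eq_norm_sq]
        have e1 : s * (s * (3 * d * K) / ‖P‖ * ‖P‖ ^ 2) = 3 * (d * K) * ‖P‖ := by
          have : s * (s * (3 * d * K) / ‖P‖ * ‖P‖ ^ 2) = (s * s) * (3 * (d * K)) * (‖P‖ ^ 2 / ‖P‖) := by
            ring
          rw [this, hss, sq, mul_div_assoc, div_self hP0.ne']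
          ring
        rw [e1]
        have b3 : |s * inner ℝ ((y - X0) - zpos K d j) P| ≤ (d * K / 4 + 1.74 * (d * K)) * ‖P‖ := by
          rw [abs_mul, hs1, one_mul]
          exact (abs_real_inner_le_norm _ _).trans (mul_le_mul_of_nonneg_right b2 hP0.le)
        have b4 := (abs_le.1 b3).1
        have b5 : 0 ≤ d * K * ‖P‖ := by positivity
        nlinarith
    have hcardK : 8 * (K : ℝ) ^ 3 ≤ (2 * K + 1) ^ 3 := by
      have : (2 * (K : ℝ)) ^ 3 ≤ (2 * K + 1) ^ 3 := pow_le_pow_left₀ (by positivity) (by linarith) 3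
      nlinarith
    have hcardK' : (2 * (K : ℝ) + 1) ^ 3 ≤ 27 * K ^ 3 := by
      have : (2 * (K : ℝ) + 1) ^ 3 ≤ (3 * K) ^ 3 := pow_le_pow_left₀ (by positivity) (by linarith) 3
      nlinarith
    have elat : ∀ y : E3, latPot K d P none y = ∑ j, (cou y (zpos K d j + (1 / 2 : ℝ) • P) -
        cou y (zpos K d j - (1 / 2 : ℝ) • P)) := by
      intro y
      unfold latPot
      refine Finset.sum_congr rfl fun j _ => ?_
      rw [if_neg (by simp)]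
    refine ⟨?_, ?_, ?_, ?_⟩
    · rw [elat, Finset.mul_sum]
      calc 1 / 27 * ‖P‖ * K / d ^ 2 = 8 * K ^ 3 * (‖P‖ / (216 * (d * K) ^ 2)) := by
            field_simp
            norm_num
        _ ≤ (2 * K + 1) ^ 3 * (‖P‖ / (216 * (d * K) ^ 2)) :=
            mul_le_mul_of_nonneg_right hcardK (by positivity)
        _ = ∑ _j : Fin 3 → Fin (2 * K + 1), ‖P‖ / (216 * (d * K) ^ 2) := by
            rw [Finset.sum_const, nsmul_eq_mul, Finset.card_univ, hcard]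
        _ ≤ _ := by
            refine Finset.sum_le_sum fun j _ => ?_
            obtain ⟨k1, k2, k3⟩ := hlow x hx j
            exact g_sign hdK (by linarith) k3 hP (by linarith) (by linarith)
    · rw [elat, Finset.mul_sum]
      calc _ ≤ ∑ _j : Fin 3 → Fin (2 * K + 1), 2 * ‖P‖ / (d * K) ^ 2 := by
            refine Finset.sum_le_sum fun j _ => ?_
            obtain ⟨k1, k2, k3⟩ := hlow x hx j
            have h4 := g_abs (x := x) (z := zpos K d j) (P := P) (by linarith) (by linarith)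
            refine (le_abs_self _).trans ?_
            rw [abs_mul, hs1, one_mul]
            refine h4.trans ?_
            rw [mul_one_div]
            exact div_le_div_of_nonneg_left (by positivity) (by positivity)
              (pow_le_pow_left₀ hdK.le (by linarith) 2)
        _ = (2 * K + 1) ^ 3 * (2 * ‖P‖ / (d * K) ^ 2) := by
            rw [Finset.sum_const, nsmul_eq_mul, Finset.card_univ, hcard]
        _ ≤ 27 * K ^ 3 * (2 * ‖P‖ / (d * K) ^ 2) :=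
            mul_le_mul_of_nonneg_right hcardK' (by positivity)
        _ = 54 * (‖P‖ * K / d ^ 2) := by
            field_simp
            norm_num
        _ ≤ (192 * C + 2000) * ‖P‖ * K / d ^ 2 := by
            have : 0 ≤ ‖P‖ * K / d ^ 2 := by positivity
            have e2 : (192 * C + 2000) * ‖P‖ * K / d ^ 2 = (192 * C + 2000) * (‖P‖ * K / d ^ 2) := by
              ring
            rw [e2]
            nlinarith
    · rw [elat, elat, ← Finset.sum_sub_distrib]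
      calc _ ≤ ∑ _j : Fin 3 → Fin (2 * K + 1), 4 * ‖P‖ * ‖x - x'‖ * ((d * K / 2)⁻¹) ^ 3 := by
            refine (Finset.abs_sum_le_sum_abs _ _).trans (Finset.sum_le_sum fun j _ => ?_)
            obtain ⟨k1, _, _⟩ := hlow x hx j
            obtain ⟨k1', _, _⟩ := hlow x' hx' j
            exact g_lip (by positivity) (by linarith) (by linarith)
        _ = (2 * K + 1) ^ 3 * (4 * ‖P‖ * ‖x - x'‖ * ((d * K / 2)⁻¹) ^ 3) := by
            rw [Finset.sum_const, nsmul_eq_mul, Finset.card_univ, hcard]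
        _ ≤ 27 * K ^ 3 * (4 * ‖P‖ * ‖x - x'‖ * ((d * K / 2)⁻¹) ^ 3) :=
            mul_le_mul_of_nonneg_right hcardK' (by positivity)
        _ = 864 * (‖P‖ / d ^ 3 * ‖x - x'‖) := by
            field_simp
            ring
        _ ≤ (192 * C + 2000) * ‖P‖ / d ^ 3 * ‖x - x'‖ := by
            have : 0 ≤ ‖P‖ / d ^ 3 * ‖x - x'‖ := by positivity
            have e2 : (192 * C + 2000) * ‖P‖ / d ^ 3 * ‖x - x'‖ =
              (192 * C + 2000) * (‖P‖ / d ^ 3 * ‖x - x'‖) := by ring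
            rw [e2]
            nlinarith
    · intro j
      obtain ⟨k1, _, _⟩ := hlow x hx j
      linarith

end MolDis
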