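import Pool.Agent.Lib.MP_59f35a_mp.Stmts3

/-!
# MP_59f35a_mp : grid sums (piece G2)
-/

set_option autoImplicit false

noncomputable section

open MeasureTheory

namespace MolDis

namespace GridP

/-- sup distance of index vectors -/
def nd {q : ℕ} (a b : Fin 3 → Fin q) : ℕ :=
  Finset.univ.sup fun t => Int.natAbs (((a t : ℕ) : ℤ) - ((b t : ℕ) : ℤ))

lemma le_nd {q : ℕ} (a b : Fin 3 → Fin q) (t : Fin 3) :
    Int.natAbs (((a t : ℕ) : ℤ) - ((b t : ℕ) : ℤ)) ≤ nd a b :=
  Finset.le_sup (f := fun t => Int.natAbs (((a t : ℕ) : ℤ) - ((b t : ℕ) : ℤ))) (Finset.mem_univ t)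

lemma exists_nd {q : ℕ} (a b : Fin 3 → Fin q) :
    ∃ t, Int.natAbs (((a t : ℕ) : ℤ) - ((b t : ℕ) : ℤ)) = nd a b := by
  obtain ⟨t, -, ht⟩ := Finset.exists_mem_eq_sup (Finset.univ : Finset (Fin 3))
    ⟨0, Finset.mem_univ _⟩ (fun t => Int.natAbs (((a t : ℕ) : ℤ) - ((b t : ℕ) : ℤ)))
  exact ⟨t, ht.symm⟩

lemma nd_lt {q : ℕ} (a b : Fin 3 → Fin q) : nd a b < q := by
  obtain ⟨t, ht⟩ := exists_nd a b
  have h1 := (a t).isLt
  have h2 := (b t).isLt
  omega

lemma nd_pos {q : ℕ} (a b : Fin 3 → Fin q) (hab : a ≠ b) : 1 ≤ nd a b := by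
  by_contra hc
  apply hab
  funext t
  have := le_nd a b t
  apply Fin.ext
  omega

lemma card_le {q : ℕ} (a : Fin q) (s : ℕ) :
    (Finset.univ.filter fun c : Fin q =>
      Int.natAbs (((a : ℕ) : ℤ) - ((c : ℕ) : ℤ)) ≤ s).card ≤ 2 * s + 1 := by
  have h1 : (Finset.Icc (((a : ℕ) : ℤ) - s) (((a : ℕ) : ℤ) + s)).card = 2 * s + 1 := by
    rw [Int.card_Icc]; omega
  rw [← h1]
  refine Finset.card_le_card_of_injOn (fun c : Fin q => ((c : ℕ) : ℤ)) ?_ ?_
  · intro c hc
    simp only [Finset.coe_filter, Finset.mem_univ, true_and, Set.mem_ofPred_eq] at hc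
    simp only [Finset.coe_Icc, Set.mem_Icc]
    constructor <;> omega
  · intro c _ c' _ hcc
    simp only at hcc
    apply Fin.ext
    omega

lemma card_eq {q : ℕ} (a : Fin q) (s : ℕ) :
    (Finset.univ.filter fun c : Fin q =>
      Int.natAbs (((a : ℕ) : ℤ) - ((c : ℕ) : ℤ)) = s).card ≤ 2 := by
  have h1 : ({((a : ℕ) : ℤ) - s, ((a : ℕ) : ℤ) + s} : Finset ℤ).card ≤ 2 :=
    Finset.card_le_two
  refine le_trans ?_ h1
  refine Finset.card_le_card_of_injOn (fun c : Fin q => ((c : ℕ) : ℤ)) ?_ ?_
  · intro c hc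
    simp only [Finset.coe_filter, Finset.mem_univ, true_and, Set.mem_ofPred_eq] at hc
    simp only [Finset.coe_insert, Finset.coe_singleton, Set.mem_insert_iff,
      Set.mem_singleton_iff]
    omega
  · intro c _ c' _ hcc
    simp only at hcc
    apply Fin.ext
    omega

/-- shells have at most `54 s²` points -/
lemma shell {q : ℕ} (a : Fin 3 → Fin q) (s : ℕ) (hs : 1 ≤ s) :
    (Finset.univ.filter fun b : Fin 3 → Fin q => nd a b = s).card ≤ 54 * s ^ 2 := by
  classical
  have hsub : (Finset.univ.filter fun b : Fin 3 → Fin q => nd a b = s) ⊆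
      (Finset.univ : Finset (Fin 3)).biUnion fun t =>
        Fintype.piFinset fun u => if u = t then
          (Finset.univ.filter fun c : Fin q =>
            Int.natAbs (((a u : ℕ) : ℤ) - ((c : ℕ) : ℤ)) = s)
          else (Finset.univ.filter fun c : Fin q =>
            Int.natAbs (((a u : ℕ) : ℤ) - ((c : ℕ) : ℤ)) ≤ s) := by
    intro b hb
    simp only [Finset.mem_filter, Finset.mem_univ, true_and] at hb
    obtain ⟨t, ht⟩ := exists_nd a b
    rw [Finset.mem_biUnion]
    refine ⟨t, Finset.mem_univ _, ?_⟩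
    rw [Fintype.mem_piFinset]
    intro u
    by_cases hu : u = t
    · subst hu
      simp only [if_true, Finset.mem_filter, Finset.mem_univ, true_and]
      omega
    · simp only [if_neg hu, Finset.mem_filter, Finset.mem_univ, true_and]
      have := le_nd a b u
      omega
  refine (Finset.card_le_card hsub).trans (Finset.card_biUnion_le.trans ?_)
  have hone : ∀ t : Fin 3, (Fintype.piFinset fun u => if u = t then
          (Finset.univ.filter fun c : Fin q =>
            Int.natAbs (((a u : ℕ) : ℤ) - ((c : ℕ) : ℤ)) = s)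
          else (Finset.univ.filter fun c : Fin q =>
            Int.natAbs (((a u : ℕ) : ℤ) - ((c : ℕ) : ℤ)) ≤ s)).card ≤ 2 * (2 * s + 1) ^ 2 := by
    intro t
    rw [Fintype.card_piFinset]
    calc _ ≤ ∏ u : Fin 3, (if u = t then 2 else (2 * s + 1)) := by
            apply Finset.prod_le_prod'
            intro u _
            by_cases hu : u = t
            · simp only [if_pos hu]; exact card_eq _ _
            · simp only [if_neg hu]; exact card_le _ _
      _ = 2 * (2 * s + 1) ^ 2 := by
            rw [Fin.prod_univ_three]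
            fin_cases t <;> simp <;> ring
  calc _ ≤ ∑ t : Fin 3, 2 * (2 * s + 1) ^ 2 := Finset.sum_le_sum fun t _ => hone t
    _ = 6 * (2 * s + 1) ^ 2 := by simp; ring
    _ ≤ 54 * s ^ 2 := by nlinarith

lemma sum_shell {q : ℕ} (a : Fin 3 → Fin q) (g : ℕ → ℝ) (hg : ∀ s, 0 ≤ g s) :
    (∑ b, if a = b then 0 else g (nd a b)) ≤ ∑ s ∈ Finset.range q,
      54 * (s : ℝ) ^ 2 * g s := by
  classical
  rw [← Finset.sum_fiberwise_of_maps_to (s := Finset.univ) (t := Finset.range q)
    (g := fun b => nd a b) (fun b _ => Finset.mem_range.2 (nd_lt a b))]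
  apply Finset.sum_le_sum
  intro s _
  rcases Nat.eq_zero_or_pos s with rfl | hs
  · apply le_of_eq
    rw [Finset.sum_eq_zero]
    · simp
    · intro b hb
      simp only [Finset.mem_filter, Finset.mem_univ, true_and] at hb
      rw [if_pos]
      by_contra hab
      have := nd_pos a b hab
      omega
  · calc _ ≤ ∑ b ∈ Finset.univ.filter (fun b : Fin 3 → Fin q => nd a b = s), g s := by
          apply Finset.sum_le_sum
          intro b hb
          simp only [Finset.mem_filter, Finset.mem_univ, true_and] at hb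
          split_ifs
          · exact hg s
          · rw [hb]
      _ = ((Finset.univ.filter fun b : Fin 3 → Fin q => nd a b = s).card : ℝ) * g s := by
          rw [Finset.sum_const, nsmul_eq_mul]
      _ ≤ 54 * (s : ℝ) ^ 2 * g s := by
          apply mul_le_mul_of_nonneg_right _ (hg s)
          exact_mod_cast shell a s hs

lemma coord_le (x : E3) (t : Fin 3) : |x t| ≤ ‖x‖ := by
  have := PiLp.norm_apply_le x t
  rwa [Real.norm_eq_abs] at this

lemma apos_sub {q : ℕ} (h : ℝ) (X0 : E3) (a b : Fin 3 → Fin q) (t : Fin 3) :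
    (apos q h X0 a - apos q h X0 b) t = h * (((a t : ℕ) : ℝ) - ((b t : ℕ) : ℝ)) := by
  simp [apos]
  ring

lemma nd_le_norm {q : ℕ} (h : ℝ) (hh : 0 < h) (X0 : E3) (a b : Fin 3 → Fin q) :
    h * (nd a b : ℝ) ≤ ‖apos q h X0 a - apos q h X0 b‖ := by
  obtain ⟨t, ht⟩ := exists_nd a b
  refine le_trans ?_ (coord_le _ t)
  rw [apos_sub, abs_mul, abs_of_pos hh]
  apply mul_le_mul_of_nonneg_left _ hh.le
  rw [← ht]
  have : ((Int.natAbs (((a t : ℕ) : ℤ) - ((b t : ℕ) : ℤ)) : ℕ) : ℝ)
      = |((a t : ℕ) : ℝ) - ((b t : ℕ) : ℝ)| := by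
    rw [Nat.cast_natAbs]
    push_cast
    rfl
  rw [this]

end GridP

open GridP

theorem p_grid : S_grid := by
  refine ⟨54, by norm_num, ?_⟩
  intro q h X0 hq hh
  have hqr : (1 : ℝ) ≤ q := by exact_mod_cast hq
  refine ⟨?_, ?_, ?_, ?_⟩
  · intro a b hab
    have h1 := nd_le_norm h hh X0 a b
    have h2 : (1 : ℝ) ≤ nd a b := by exact_mod_cast nd_pos a b hab
    nlinarith
  · intro a
    have h0 : 0 ≤ 2 * h * (q : ℝ) := by positivity
    rw [EuclideanSpace.norm_eq, Real.sqrt_le_left h0, Fin.sum_univ_three]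
    have hc : ∀ t : Fin 3, ‖(apos q h X0 a - X0) t‖ ^ 2 ≤ (h * q) ^ 2 := by
      intro t
      have h1 : (apos q h X0 a - X0) t = h * ((a t : ℕ) : ℝ) := by simp [apos]
      rw [h1, Real.norm_eq_abs, sq_abs]
      have h2 : (((a t : ℕ) : ℝ)) ≤ q := by exact_mod_cast (a t).isLt.le
      have h3 : (0 : ℝ) ≤ ((a t : ℕ) : ℝ) := by positivity
      apply pow_le_pow_left₀ (by positivity)
      exact mul_le_mul_of_nonneg_left h2 hh.le
    nlinarith [hc 0, hc 1, hc 2]
  · have hone : ∀ a : Fin 3 → Fin q,
        (∑ b, if a = b then 0 else 1 / ‖apos q h X0 a - apos q h X0 b‖) ≤ 54 * q ^ 2 / h := by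
      intro a
      calc _ ≤ ∑ b, if a = b then 0 else (fun s : ℕ => 1 / (h * (s : ℝ))) (nd a b) := by
            apply Finset.sum_le_sum
            intro b _
            by_cases hab : a = b
            · simp [hab]
            · simp only [if_neg hab]
              apply one_div_le_one_div_of_le _ (nd_le_norm h hh X0 a b)
              have h2 : (1 : ℝ) ≤ nd a b := by exact_mod_cast nd_pos a b hab
              positivity
        _ ≤ ∑ s ∈ Finset.range q, 54 * (s : ℝ) ^ 2 * (1 / (h * (s : ℝ))) :=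
            sum_shell a (fun s : ℕ => 1 / (h * (s : ℝ)))
              (fun s => div_nonneg zero_le_one (mul_nonneg hh.le (Nat.cast_nonneg s)))
        _ ≤ ∑ s ∈ Finset.range q, 54 * (q : ℝ) / h := by
            apply Finset.sum_le_sum
            intro s hs
            rw [Finset.mem_range] at hs
            rcases Nat.eq_zero_or_pos s with rfl | hs0
            · simp; positivity
            · have h1 : (0 : ℝ) < s := by exact_mod_cast hs0
              have h2 : (s : ℝ) ≤ q := by exact_mod_cast hs.le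
              have h3 : 54 * (s : ℝ) ^ 2 * (1 / (h * (s : ℝ))) = 54 * s / h := by
                field_simp
              rw [h3]
              gcongr
        _ = 54 * q ^ 2 / h := by
            rw [Finset.sum_const, Finset.card_range, nsmul_eq_mul]; ring
    calc _ ≤ ∑ a : Fin 3 → Fin q, 54 * (q : ℝ) ^ 2 / h := Finset.sum_le_sum fun a _ => hone a
      _ = 54 * q ^ 5 / h := by
        rw [Finset.sum_const, Finset.card_univ, nsmul_eq_mul]
        simp only [Fintype.card_pi, Fintype.card_fin, Finset.prod_const, Finset.card_univ]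
        push_cast
        ring
  · have hone : ∀ a : Fin 3 → Fin q,
        (∑ b, if a = b then 0 else 1 / ‖apos q h X0 a - apos q h X0 b‖ ^ 2)
          ≤ 54 * q / h ^ 2 := by
      intro a
      calc _ ≤ ∑ b, if a = b then 0 else (fun s : ℕ => 1 / (h * (s : ℝ)) ^ 2) (nd a b) := by
            apply Finset.sum_le_sum
            intro b _
            by_cases hab : a = b
            · simp [hab]
            · simp only [if_neg hab]
              have h2 : (1 : ℝ) ≤ nd a b := by exact_mod_cast nd_pos a b hab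
              apply one_div_le_one_div_of_le (by positivity)
              exact pow_le_pow_left₀ (by positivity) (nd_le_norm h hh X0 a b) 2
        _ ≤ ∑ s ∈ Finset.range q, 54 * (s : ℝ) ^ 2 * (1 / (h * (s : ℝ)) ^ 2) :=
            sum_shell a (fun s : ℕ => 1 / (h * (s : ℝ)) ^ 2)
              (fun s => div_nonneg zero_le_one (sq_nonneg _))
        _ ≤ ∑ s ∈ Finset.range q, 54 / h ^ 2 := by
            apply Finset.sum_le_sum
            intro s hs
            rcases Nat.eq_zero_or_pos s with rfl | hs0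
            · simp; positivity
            · have h1 : (0 : ℝ) < s := by exact_mod_cast hs0
              apply le_of_eq
              field_simp
        _ = 54 * q / h ^ 2 := by
            rw [Finset.sum_const, Finset.card_range, nsmul_eq_mul]; ring
    calc _ ≤ ∑ a : Fin 3 → Fin q, 54 * (q : ℝ) / h ^ 2 := Finset.sum_le_sum fun a _ => hone a
      _ = 54 * q ^ 4 / h ^ 2 := by
        rw [Finset.sum_const, Finset.card_univ, nsmul_eq_mul]
        simp only [Fintype.card_pi, Fintype.card_fin, Finset.prod_const, Finset.card_univ]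
        push_cast
        ring

end MolDis
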