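import Pool.Agent.Lib.MP_59f35a_mp.Stmts2

/-!
# MP_59f35a_mp, piece C3: many electrons in a molecule
-/

set_option autoImplicit false
set_option linter.unusedSectionVars false

noncomputable section

open MeasureTheory

namespace MolDis

namespace Heavy

variable {ι : Type} [Fintype ι] [DecidableEq ι] {u : (ι → Om) → ℝ}

theorem int_W (hlc : S_lc) (hu : LC u) {W : (ι → Om) → ℝ} (hW : AdmW W) :
    Integrable (fun X => W X * u X ^ 2) (mu ι) := (hlc ι u hu).2.2.2.2.2.1 W hW

theorem nsq_nonneg (u : (ι → Om) → ℝ) : 0 ≤ nsq u := integral_nonneg fun _ => sq_nonneg _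

theorem kin1_nonneg (j : ι) (u : (ι → Om) → ℝ) : 0 ≤ kin1 j u :=
  integral_nonneg fun _ => sq_nonneg _

theorem cou_nonneg (x y : E3) : 0 ≤ cou x y := inv_nonneg.mpr (norm_nonneg _)

theorem adm_const (hadm : S_adm) (c : ℝ) : AdmW (fun _ : ι → Om => c) :=
  (hadm ι).1 _ ⟨measurable_const, fun _ => ⟨|c|, fun _ _ => le_rfl⟩⟩

theorem adm_add (hadm : S_adm) {W W' : (ι → Om) → ℝ} (h : AdmW W) (h' : AdmW W') :
    AdmW (fun X => W X + W' X) := (hadm ι).2.1 W W' h h'

theorem adm_smul (hadm : S_adm) (c : ℝ) {W : (ι → Om) → ℝ} (h : AdmW W) :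
    AdmW (fun X => c * W X) := (hadm ι).2.2.1 c W h

theorem adm_cou (hadm : S_adm) (j : ι) (a : E3) : AdmW (fun X : ι → Om => cou (X j).1 a) :=
  (hadm ι).2.2.2.2.1 j a

theorem adm_sum (hadm : S_adm) {α : Type} (s : Finset α) {W : α → (ι → Om) → ℝ}
    (h : ∀ a, AdmW (W a)) : AdmW (fun X => ∑ a ∈ s, W a X) := by
  classical
  induction s using Finset.induction_on with
  | empty => simpa using adm_const hadm 0
  | insert a s ha ih =>
    simp only [Finset.sum_insert ha]
    exact adm_add hadm (h a) ih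

theorem expv_add (hlc : S_lc) (hu : LC u) {W W' : (ι → Om) → ℝ} (h : AdmW W) (h' : AdmW W') :
    expv (fun X => W X + W' X) u = expv W u + expv W' u := by
  unfold expv
  rw [← integral_add (int_W hlc hu h) (int_W hlc hu h')]
  refine integral_congr_ae (Filter.Eventually.of_forall fun X => ?_)
  simp only
  ring

theorem expv_smul (c : ℝ) (W u : (ι → Om) → ℝ) :
    expv (fun X => c * W X) u = c * expv W u := by
  unfold expv
  rw [← integral_const_mul]
  refine integral_congr_ae (Filter.Eventually.of_forall fun X => ?_)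
  simp only
  ring

theorem expv_const (c : ℝ) (u : (ι → Om) → ℝ) : expv (fun _ => c) u = c * nsq u := by
  unfold expv nsq
  rw [← integral_const_mul]

theorem expv_sum (hlc : S_lc) (hadm : S_adm) (hu : LC u) {α : Type} (s : Finset α)
    {W : α → (ι → Om) → ℝ} (h : ∀ a, AdmW (W a)) :
    expv (fun X => ∑ a ∈ s, W a X) u = ∑ a ∈ s, expv (W a) u := by
  classical
  induction s using Finset.induction_on with
  | empty =>
    simp only [Finset.sum_empty]
    rw [expv_const, zero_mul]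
  | insert a s ha ih =>
    simp only [Finset.sum_insert ha]
    rw [expv_add hlc hu (h a) (adm_sum hadm s h), ih]

theorem expv_mono (hlc : S_lc) (hu : LC u) {W W' : (ι → Om) → ℝ} (h : AdmW W) (h' : AdmW W')
    (hle : ∀ᵐ X ∂(mu ι), u X ≠ 0 → W X ≤ W' X) : expv W u ≤ expv W' u := by
  refine integral_mono_ae (int_W hlc hu h) (int_W hlc hu h') ?_
  filter_upwards [hle] with X hX
  by_cases h0 : u X = 0
  · simp [h0]
  · exact mul_le_mul_of_nonneg_right (hX h0) (sq_nonneg _)

/-- one electron: hydrogen inequalities -/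
theorem kin1_ge (hlc : S_lc) (hadm : S_adm) (hhyd : S_hyd) (hu : LC u) {κ : Type} [Fintype κ]
    (Y : κ → E3) (j : ι) :
    expv (fun X => ∑ m, cou (X j).1 (Y m)) u - (Fintype.card κ : ℝ) ^ 2 / 4 * nsq u ≤
      kin1 j u := by
  rw [expv_sum hlc hadm hu Finset.univ (fun m => adm_cou hadm j (Y m))]
  rcases Nat.eq_zero_or_pos (Fintype.card κ) with h0 | h0
  · have : IsEmpty κ := Fintype.card_eq_zero_iff.1 h0
    rw [Finset.univ_eq_empty, Finset.sum_empty, h0]
    have := kin1_nonneg j u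
    simpa using this
  · have hpos : (0 : ℝ) < Fintype.card κ := by exact_mod_cast h0
    have h1 : ∀ m : κ, (Fintype.card κ : ℝ) * expv (fun X => cou (X j).1 (Y m)) u ≤
        kin1 j u + (Fintype.card κ : ℝ) ^ 2 / 4 * nsq u := fun m =>
      hhyd ι u j (Y m) (Fintype.card κ) hu hpos.le
    have h2 : ∑ m : κ, (Fintype.card κ : ℝ) * expv (fun X => cou (X j).1 (Y m)) u ≤
        ∑ _m : κ, (kin1 j u + (Fintype.card κ : ℝ) ^ 2 / 4 * nsq u) :=
      Finset.sum_le_sum fun m _ => h1 m
    rw [← Finset.mul_sum, Finset.sum_const, Finset.card_univ, nsmul_eq_mul] at h2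
    have h3 := le_of_mul_le_mul_left h2 hpos
    linarith

/-- bound in one sector -/
theorem sector_bound (hlc : S_lc) (hadm : S_adm) (hhyd : S_hyd) (hu : LC u) {κ : Type} [Fintype κ]
    (Y : κ → E3) {r ε : ℝ} (hr : 0 < r) (I : Finset ι)
    (hin : ∀ X, u X ≠ 0 → ∀ j ∈ I, ‖(X j).1‖ < 2 * r)
    (hout : ∀ X, u X ≠ 0 → ∀ j, j ∉ I → ∑ m, cou (X j).1 (Y m) ≤ ε / 2) :
    (-((Fintype.card κ : ℝ) ^ 2 / 4) * I.card - ε / 2 * (Fintype.card ι - I.card) +
      7 / (64 * r) * (I.card * (I.card - 1))) * nsq u ≤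
      kin u + expv (fun X => - attr Y X + (7 / 8) * repEE X) u := by
  set c0 : ℝ := - (ε / 2 * (Fintype.card ι - I.card)) + 7 / (64 * r) * (I.card * (I.card - 1))
    with hc0
  have hadm1 : ∀ j : ι, AdmW (fun X : ι → Om => ∑ m, cou (X j).1 (Y m)) := fun j =>
    adm_sum hadm Finset.univ (fun m => adm_cou hadm j (Y m))
  have hadm2 : AdmW (fun X : ι → Om => (-1 : ℝ) * ∑ j ∈ I, ∑ m, cou (X j).1 (Y m)) :=
    adm_smul hadm (-1) (adm_sum hadm I hadm1)
  have hadm3 : AdmW (fun X : ι → Om => (-1 : ℝ) * (∑ j ∈ I, ∑ m, cou (X j).1 (Y m)) + c0) :=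
    adm_add hadm hadm2 (adm_const hadm c0)
  have hadm4 : AdmW (fun X : ι → Om => - attr Y X + (7 / 8) * repEE X) := by
    have h1 := adm_smul hadm (-1) ((hadm ι).2.2.2.2.2.2.1 κ Y).1
    have h2 := adm_smul hadm (7 / 8) ((hadm ι).2.2.2.2.2.2.1 κ Y).2.1
    have h3 := adm_add hadm h1 h2
    simpa only [neg_one_mul] using h3
  have hgen := (hadm ι).2.2.2.2.2.2.2 ∅
  have hmono : expv (fun X => (-1 : ℝ) * (∑ j ∈ I, ∑ m, cou (X j).1 (Y m)) + c0) u ≤
      expv (fun X => - attr Y X + (7 / 8) * repEE X) u := by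
    refine expv_mono hlc hu hadm3 hadm4 ?_
    filter_upwards [hgen] with X hX h0
    have hinj := hX.1
    have e1 : attr Y X = ∑ j ∈ I, (∑ m, cou (X j).1 (Y m)) + ∑ j ∈ Iᶜ, ∑ m, cou (X j).1 (Y m) := by
      rw [attr, Finset.sum_add_sum_compl]
    have e2 : ∑ j ∈ Iᶜ, ∑ m, cou (X j).1 (Y m) ≤ ε / 2 * (Fintype.card ι - I.card) := by
      have h1 : ∑ j ∈ Iᶜ, ∑ m, cou (X j).1 (Y m) ≤ ∑ _j ∈ Iᶜ, ε / 2 :=
        Finset.sum_le_sum fun j hj => hout X h0 j (Finset.mem_compl.1 hj)
      rw [Finset.sum_const, nsmul_eq_mul, Finset.card_compl,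
        Nat.cast_sub (Finset.card_le_univ I)] at h1
      linarith
    have e3 : (I.card * (I.card - 1) : ℝ) * (1 / (4 * r)) ≤ ∑ j, ∑ k, cou (X j).1 (X k).1 := by
      have h1 : ∑ j ∈ I, ∑ k ∈ I.erase j, (1 / (4 * r)) ≤ ∑ j, ∑ k, cou (X j).1 (X k).1 := by
        calc ∑ j ∈ I, ∑ k ∈ I.erase j, (1 / (4 * r))
            ≤ ∑ j ∈ I, ∑ k ∈ I.erase j, cou (X j).1 (X k).1 := by
              refine Finset.sum_le_sum fun j hj => Finset.sum_le_sum fun k hk => ?_
              have hk' := Finset.mem_erase.1 hk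
              have hne : (X j).1 - (X k).1 ≠ 0 := by
                rw [sub_ne_zero]
                exact fun h => hk'.1 (hinj h).symm
              have h2 : ‖(X j).1 - (X k).1‖ ≤ 4 * r := by
                have h3 := hin X h0 j hj
                have h4 := hin X h0 k hk'.2
                have h5 := norm_sub_le (X j).1 (X k).1
                linarith
              rw [cou, one_div]
              exact inv_anti₀ (norm_pos_iff.2 hne) h2
          _ ≤ ∑ j ∈ I, ∑ k, cou (X j).1 (X k).1 := by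
              refine Finset.sum_le_sum fun j _ => ?_
              exact Finset.sum_le_sum_of_subset_of_nonneg (Finset.subset_univ _)
                fun k _ _ => cou_nonneg _ _
          _ ≤ ∑ j, ∑ k, cou (X j).1 (X k).1 :=
              Finset.sum_le_sum_of_subset_of_nonneg (Finset.subset_univ _)
                fun j _ _ => Finset.sum_nonneg fun k _ => cou_nonneg _ _
      refine le_trans (le_of_eq ?_) h1
      have h2 : ∀ j ∈ I, ∑ _k ∈ I.erase j, (1 / (4 * r)) = (I.card - 1 : ℝ) * (1 / (4 * r)) := by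
        intro j hj
        rw [Finset.sum_const, nsmul_eq_mul, Finset.card_erase_of_mem hj,
          Nat.cast_sub (Finset.card_pos.2 ⟨j, hj⟩), Nat.cast_one]
      rw [Finset.sum_congr rfl h2, Finset.sum_const, nsmul_eq_mul]
      ring
    have e4 : 7 / (64 * r) * (I.card * (I.card - 1)) ≤ 7 / 8 * repEE X := by
      have h1 : 7 / (64 * r) * (I.card * (I.card - 1) : ℝ) =
          7 / 8 * (1 / 2 * ((I.card * (I.card - 1) : ℝ) * (1 / (4 * r)))) := by
        field_simp
        ring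
      rw [h1, repEE]
      have := e3
      linarith
    rw [hc0]
    linarith
  have hexp : expv (fun X => (-1 : ℝ) * (∑ j ∈ I, ∑ m, cou (X j).1 (Y m)) + c0) u =
      - ∑ j ∈ I, expv (fun X => ∑ m, cou (X j).1 (Y m)) u + c0 * nsq u := by
    rw [expv_add hlc hu hadm2 (adm_const hadm c0), expv_const, expv_smul,
      expv_sum hlc hadm hu I hadm1]
    ring
  have hkin : ∑ j ∈ I, (expv (fun X => ∑ m, cou (X j).1 (Y m)) u -
      (Fintype.card κ : ℝ) ^ 2 / 4 * nsq u) ≤ kin u := by
    calc _ ≤ ∑ j ∈ I, kin1 j u := Finset.sum_le_sum fun j _ => kin1_ge hlc hadm hhyd hu Y j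
      _ ≤ kin u := Finset.sum_le_sum_of_subset_of_nonneg (Finset.subset_univ _)
          fun j _ _ => kin1_nonneg j u
  rw [Finset.sum_sub_distrib, Finset.sum_const, nsmul_eq_mul] at hkin
  rw [hexp] at hmono
  rw [hc0] at hmono
  nlinarith

theorem quad {A b p : ℝ} (hb : 0 < b) : -((A + b) ^ 2 / (4 * b)) ≤ - A * p + b * (p * (p - 1)) := by
  have h1 : - A * p + b * (p * (p - 1)) + (A + b) ^ 2 / (4 * b) =
      b * (p - (A + b) / (2 * b)) ^ 2 := by
    field_simp
    ring
  have h2 : 0 ≤ b * (p - (A + b) / (2 * b)) ^ 2 := by positivity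
  linarith

end Heavy

open Heavy

/-- **C3** -/
theorem p_heavy (hlc : S_lc) (hadm : S_adm) (hhyd : S_hyd) (hims : S_ims) (hcut : S_cut) :
    S_heavy := by
  intro κ _ Y ε hε
  set M : ℝ := (Fintype.card κ : ℝ) with hM
  have hM0 : 0 ≤ M := Nat.cast_nonneg _
  set R0 : ℝ := ∑ m, ‖Y m‖ with hR0
  have hR00 : 0 ≤ R0 := Finset.sum_nonneg fun m _ => norm_nonneg _
  have hY : ∀ m, ‖Y m‖ ≤ R0 := fun m =>
    Finset.single_le_sum (f := fun m => ‖Y m‖) (fun m _ => norm_nonneg _) (Finset.mem_univ m)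
  set r : ℝ := R0 + 2 * M / ε + 5 / ε + 1 with hr
  have h2M : 0 ≤ 2 * M / ε := by positivity
  have h5 : 0 < 5 / ε := by positivity
  have hrpos : 0 < r := by linarith
  have hr1 : 1 ≤ r := by linarith
  have hrR : 2 * M / ε < r - R0 := by linarith
  have hrR0 : 0 < r - R0 := by linarith
  have hfar : ∀ x : E3, r < ‖x‖ → ∑ m, cou x (Y m) ≤ ε / 2 := by
    intro x hx
    have h1 : ∀ m, cou x (Y m) ≤ (r - R0)⁻¹ := by
      intro m
      rw [cou]
      refine inv_anti₀ hrR0 ?_
      have := norm_sub_norm_le x (Y m)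
      have := hY m
      linarith
    have h2 : ∑ m, cou x (Y m) ≤ M * (r - R0)⁻¹ := by
      calc ∑ m, cou x (Y m) ≤ ∑ _m : κ, (r - R0)⁻¹ := Finset.sum_le_sum fun m _ => h1 m
        _ = M * (r - R0)⁻¹ := by rw [Finset.sum_const, nsmul_eq_mul, Finset.card_univ]
    refine h2.trans ?_
    rw [← div_eq_mul_inv, div_le_iff₀ hrR0]
    have h3 : M = ε / 2 * (2 * M / ε) := by field_simp
    rw [h3]
    exact mul_le_mul_of_nonneg_left (by linarith) (by positivity)
  have hloc : 10 / (2 * r) ^ 2 ≤ ε / 2 := by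
    rw [div_le_iff₀ (by positivity)]
    have h1 : 5 / ε ≤ r ^ 2 := by nlinarith
    have h2 : 5 ≤ ε * r ^ 2 := by
      rw [div_le_iff₀ hε] at h1
      linarith
    nlinarith
  set b : ℝ := 7 / (64 * r) with hb
  have hbpos : 0 < b := by positivity
  set A : ℝ := M ^ 2 / 4 with hA
  refine ⟨(A + b) ^ 2 / (4 * b), by positivity, ?_⟩
  intro ι _ _ φ hφ
  obtain ⟨hPU, hsome, hnone, -, hpuG, hpuG0, -⟩ := hcut Unit (2 * r) (fun _ => (0 : E3))
    (by linarith) (fun k k' h => absurd (Subsingleton.elim k k') h)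
  set θ := cellPU (2 * r) (fun _ : Unit => (0 : E3)) with hθ
  obtain ⟨hLC, hnsq, hexpv, hkin, -, hpm⟩ := hims ι (Option Unit) θ φ hPU hφ
  have hadm4 : AdmW (fun X : ι → Om => - attr Y X + (7 / 8) * repEE X) := by
    have h1 := adm_smul hadm (-1) ((hadm ι).2.2.2.2.2.2.1 κ Y).1
    have h2 := adm_smul hadm (7 / 8) ((hadm ι).2.2.2.2.2.2.1 κ Y).2.1
    have h3 := adm_add hadm h1 h2
    simpa only [neg_one_mul] using h3
  have hadmG : ∀ j : ι, AdmW (fun X : ι → Om => puG θ (X j).1) := by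
    intro j
    refine (hadm ι).1 _ ⟨hpm.comp (by fun_prop), fun _ => ⟨10 / (2 * r) ^ 2, fun X _ => ?_⟩⟩
    rw [abs_of_nonneg (hpuG0 _)]
    exact hpuG _
  have hG : ∀ j : ι, expv (fun X => puG θ (X j).1) φ ≤ ε / 2 * nsq φ := by
    intro j
    rw [← expv_const]
    refine expv_mono hlc hφ (hadmG j) (adm_const hadm _) ?_
    exact Filter.Eventually.of_forall fun X _ => (hpuG _).trans hloc
  have hGsum : ∑ j, expv (fun X => puG θ (X j).1) φ ≤ Fintype.card ι * (ε / 2 * nsq φ) := by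
    calc ∑ j, expv (fun X => puG θ (X j).1) φ ≤ ∑ _j : ι, ε / 2 * nsq φ :=
          Finset.sum_le_sum fun j _ => hG j
      _ = _ := by rw [Finset.sum_const, nsmul_eq_mul, Finset.card_univ]
  have hsec : ∀ α : ι → Option Unit,
      (-((A + b) ^ 2 / (4 * b)) - ε / 2 * Fintype.card ι) * nsq (sector θ α φ) ≤
        kin (sector θ α φ) + expv (fun X => - attr Y X + (7 / 8) * repEE X) (sector θ α φ) := by
    intro α
    set I : Finset ι := Finset.univ.filter fun j => α j = some () with hI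
    have hne : ∀ X, sector θ α φ X ≠ 0 → ∀ j, θ (α j) (X j).1 ≠ 0 := by
      intro X hX j h0
      apply hX
      rw [sector, Finset.prod_eq_zero (Finset.mem_univ j) h0, zero_mul]
    have h1 := sector_bound hlc hadm hhyd (hLC α) Y hrpos (ε := ε) I ?_ ?_
    · refine le_trans ?_ h1
      refine mul_le_mul_of_nonneg_right ?_ (nsq_nonneg _)
      have h2 := quad (A := A) (p := (I.card : ℝ)) hbpos
      have h3 : (0 : ℝ) ≤ I.card := Nat.cast_nonneg _
      nlinarith
    · intro X hX j hj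
      have h2 := hne X hX j
      rw [(Finset.mem_filter.1 hj).2] at h2
      simpa using hsome () _ h2
    · intro X hX j hj
      have h2 := hne X hX j
      have h3 : α j = none := by
        rcases h4 : α j with _ | x
        · rfl
        · exact absurd (Finset.mem_filter.2 ⟨Finset.mem_univ j, by rw [h4]⟩) hj
      rw [h3] at h2
      have h4 := hnone _ h2 ()
      apply hfar
      have h5 : 2 * r / 2 = r := by ring
      rw [h5, sub_zero] at h4
      exact h4
  have htot : (-((A + b) ^ 2 / (4 * b)) - ε / 2 * Fintype.card ι) * nsq φ ≤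
      ∑ α : ι → Option Unit, (kin (sector θ α φ) +
        expv (fun X => - attr Y X + (7 / 8) * repEE X) (sector θ α φ)) := by
    rw [hnsq, Finset.mul_sum]
    exact Finset.sum_le_sum fun α _ => hsec α
  rw [Finset.sum_add_distrib, ← hexpv _ hadm4] at htot
  rw [hkin]
  nlinarith

end MolDis
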