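import Pool.Agent.Lib.MP_59f35a_mp.Stmts1

set_option autoImplicit false

/-!
Piece A6: the hydrogen inequality.
-/

noncomputable section

open MeasureTheory Filter Topology

namespace MolDis

/-- regularised distance -/
private def hydW (a : E3) (η : ℝ) (y : E3) : ℝ := Real.sqrt (‖y - a‖ ^ 2 + η ^ 2)

/-- radial field, `i`-th coordinate -/
private def hydF (a : E3) (η : ℝ) (i : Fin 3) (y : E3) : ℝ := (y i - a i) / hydW a η y

private def hydE (i : Fin 3) : E3 := EuclideanSpace.single i (1 : ℝ)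

private lemma hydW_sq (a : E3) (η : ℝ) (y : E3) : hydW a η y ^ 2 = ‖y - a‖ ^ 2 + η ^ 2 :=
  Real.sq_sqrt (by positivity)

private lemma hydW_ge (a : E3) {η : ℝ} (hη : 0 < η) (y : E3) : η ≤ hydW a η y := by
  have h := Real.sqrt_le_sqrt (show η ^ 2 ≤ ‖y - a‖ ^ 2 + η ^ 2 by nlinarith [sq_nonneg ‖y - a‖])
  rw [Real.sqrt_sq hη.le] at h
  exact h

private lemma hydW_pos (a : E3) {η : ℝ} (hη : 0 < η) (y : E3) : 0 < hydW a η y :=
  lt_of_lt_of_le hη (hydW_ge a hη y)

private lemma hydW_ge_norm (a : E3) (η : ℝ) (y : E3) : ‖y - a‖ ≤ hydW a η y := by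
  have h := Real.sqrt_le_sqrt (show ‖y - a‖ ^ 2 ≤ ‖y - a‖ ^ 2 + η ^ 2 by nlinarith [sq_nonneg η])
  rw [Real.sqrt_sq (norm_nonneg _)] at h
  exact h

private lemma hydW_lip (a : E3) {η : ℝ} (hη : 0 < η) (x y : E3) :
    |hydW a η x - hydW a η y| ≤ ‖x - y‖ := by
  have hx := hydW_pos a hη x
  have hy := hydW_pos a hη y
  have h1 := hydW_sq a η x
  have h2 := hydW_sq a η y
  have h3 : |‖x - a‖ - ‖y - a‖| ≤ ‖x - y‖ := by
    have := abs_norm_sub_norm_le (x - a) (y - a)
    simpa using this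
  have h4 := hydW_ge_norm a η x
  have h5 := hydW_ge_norm a η y
  have h6 : |hydW a η x - hydW a η y| * (hydW a η x + hydW a η y) ≤
      ‖x - y‖ * (hydW a η x + hydW a η y) := by
    have e1 : |hydW a η x - hydW a η y| * (hydW a η x + hydW a η y) =
        |(hydW a η x - hydW a η y) * (hydW a η x + hydW a η y)| := by
      rw [abs_mul, abs_of_pos (by linarith : 0 < hydW a η x + hydW a η y)]
    have e2 : (hydW a η x - hydW a η y) * (hydW a η x + hydW a η y) =
        (‖x - a‖ - ‖y - a‖) * (‖x - a‖ + ‖y - a‖) := by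
      nlinarith
    rw [e1, e2, abs_mul, abs_of_nonneg (by positivity : 0 ≤ ‖x - a‖ + ‖y - a‖)]
    exact mul_le_mul h3 (by linarith) (by positivity) (norm_nonneg _)
  exact le_of_mul_le_mul_right h6 (by linarith)

private lemma hydCoord (z : E3) (i : Fin 3) : |z i| ≤ ‖z‖ := by
  have := PiLp.norm_apply_le z i
  simpa using this

private lemma hydF_bd (a : E3) {η : ℝ} (hη : 0 < η) (i : Fin 3) (y : E3) : |hydF a η i y| ≤ 1 := by
  unfold hydF
  rw [abs_div, abs_of_pos (hydW_pos a hη y), div_le_one (hydW_pos a hη y)]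
  have := hydCoord (y - a) i
  exact le_trans (by simpa using this) (hydW_ge_norm a η y)

private lemma hydF_lip (a : E3) {η : ℝ} (hη : 0 < η) (i : Fin 3) :
    LipschitzWith (Real.toNNReal (2 / η)) (hydF a η i) := by
  apply LipschitzWith.of_dist_le_mul
  intro x y
  rw [Real.coe_toNNReal _ (by positivity), dist_eq_norm, dist_eq_norm, Real.norm_eq_abs]
  have hx := hydW_pos a hη x
  have hy := hydW_pos a hη y
  have hx' := hydW_ge a hη x
  have e : hydF a η i x - hydF a η i y =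
      ((x i - y i) - hydF a η i y * (hydW a η x - hydW a η y)) / hydW a η x := by
    unfold hydF
    field_simp
    ring
  rw [e, abs_div, abs_of_pos hx]
  have h1 : |x i - y i| ≤ ‖x - y‖ := by simpa using hydCoord (x - y) i
  have h2 : |(x i - y i) - hydF a η i y * (hydW a η x - hydW a η y)| ≤ 2 * ‖x - y‖ := by
    refine (abs_sub _ _).trans ?_
    rw [abs_mul]
    have h3 := hydF_bd a hη i y
    have h4 := hydW_lip a hη x y
    nlinarith [abs_nonneg (hydF a η i y), abs_nonneg (hydW a η x - hydW a η y)]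
  calc |(x i - y i) - hydF a η i y * (hydW a η x - hydW a η y)| / hydW a η x
      ≤ 2 * ‖x - y‖ / η := div_le_div₀ (by positivity) h2 hη hx'
    _ = 2 / η * ‖x - y‖ := by ring

private lemma hyd_norm_line (a y : E3) (i : Fin 3) (t : ℝ) :
    ‖y + t • hydE i - a‖ ^ 2 = ‖y - a‖ ^ 2 + 2 * t * (y i - a i) + t ^ 2 := by
  have e : y + t • hydE i - a = (y - a) + t • hydE i := by abel
  rw [e, norm_add_sq_real, inner_smul_right, norm_smul]
  have h1 : inner ℝ (y - a) (hydE i) = y i - a i := by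
    unfold hydE
    rw [EuclideanSpace.inner_single_right]
    simp
  have h2 : ‖hydE i‖ = 1 := by
    unfold hydE
    rw [PiLp.norm_single]
    simp
  rw [h1, h2, mul_one, Real.norm_eq_abs, sq_abs]
  ring

private lemma hydF_line (a : E3) {η : ℝ} (hη : 0 < η) (i : Fin 3) (y : E3) :
    lineDeriv ℝ (hydF a η i) y (hydE i) =
      1 / hydW a η y - (y i - a i) ^ 2 / hydW a η y ^ 3 := by
  have hy := hydW_pos a hη y
  set p : ℝ := y i - a i with hp
  have hfun : (fun t : ℝ => hydF a η i (y + t • hydE i)) =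
      fun t : ℝ => (p + t) / Real.sqrt (‖y - a‖ ^ 2 + 2 * t * p + t ^ 2 + η ^ 2) := by
    funext t
    unfold hydF hydW
    rw [hyd_norm_line]
    congr 1
    unfold hydE
    simp [hp]
    ring
  unfold lineDeriv
  rw [hfun]
  have h0 : Real.sqrt (‖y - a‖ ^ 2 + 2 * 0 * p + 0 ^ 2 + η ^ 2) = hydW a η y := by
    unfold hydW
    congr 1
    ring
  have hq : HasDerivAt (fun t : ℝ => ‖y - a‖ ^ 2 + 2 * t * p + t ^ 2 + η ^ 2) (2 * p) 0 := by
    have h1 : HasDerivAt (fun t : ℝ => ‖y - a‖ ^ 2 + 2 * t * p + t ^ 2 + η ^ 2)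
        (2 * 1 * p + 2 * (0 : ℝ) ^ (2 - 1) * 1) 0 := by
      have h2 := (((hasDerivAt_id (0 : ℝ)).const_mul 2).mul_const p).const_add (‖y - a‖ ^ 2)
      have h3 := (hasDerivAt_id (0 : ℝ)).pow 2
      exact (h2.add h3).add_const _
    simpa using h1
  have hpos : ‖y - a‖ ^ 2 + 2 * 0 * p + 0 ^ 2 + η ^ 2 ≠ 0 := by
    have : 0 < η ^ 2 := by positivity
    nlinarith [sq_nonneg ‖y - a‖]
  have hs := hq.sqrt hpos
  rw [h0] at hs
  have hn : HasDerivAt (fun t : ℝ => p + t) 1 0 := (hasDerivAt_id (0 : ℝ)).const_add p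
  have hd := hn.div hs (by rw [h0]; exact hy.ne')
  have := hd.deriv
  rw [h0] at this
  rw [show (fun t : ℝ => (p + t) / Real.sqrt (‖y - a‖ ^ 2 + 2 * t * p + t ^ 2 + η ^ 2)) =
    ((fun t : ℝ => p + t) / fun t : ℝ => Real.sqrt (‖y - a‖ ^ 2 + 2 * t * p + t ^ 2 + η ^ 2))
    from rfl, this]
  field_simp
  ring

private lemma hyd_div (a : E3) {η : ℝ} (hη : 0 < η) (y : E3) :
    2 / hydW a η y ≤ ∑ i : Fin 3, (1 / hydW a η y - (y i - a i) ^ 2 / hydW a η y ^ 3) := by
  have hy := hydW_pos a hη y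
  have h1 := hydW_sq a η y
  have h2 : ‖y - a‖ ^ 2 = ∑ i : Fin 3, (y i - a i) ^ 2 := by
    rw [EuclideanSpace.norm_sq_eq]
    simp [sq_abs]
  have h5 : ∑ i : Fin 3, (1 / hydW a η y - (y i - a i) ^ 2 / hydW a η y ^ 3) =
      3 * (1 / hydW a η y) - ‖y - a‖ ^ 2 / hydW a η y ^ 3 := by
    rw [h2, Finset.sum_div, Finset.sum_sub_distrib]
    simp only [Finset.sum_const, Finset.card_univ, Fintype.card_fin, nsmul_eq_mul]
    norm_num
  rw [h5]
  have h3 : ‖y - a‖ ^ 2 / hydW a η y ^ 3 ≤ 1 / hydW a η y := by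
    rw [div_le_div_iff₀ (by positivity) hy]
    nlinarith [sq_nonneg η, mul_pos hy hy]
  have h4 : (3 : ℝ) * (1 / hydW a η y) = 2 / hydW a η y + 1 / hydW a η y := by
    ring
  rw [h4]
  linarith

private lemma hydW_cont (a : E3) (η : ℝ) : Continuous (hydW a η) := by
  unfold hydW
  fun_prop

private lemma hydF_cont (a : E3) {η : ℝ} (hη : 0 < η) (i : Fin 3) : Continuous (hydF a η i) := by
  unfold hydF
  exact (by fun_prop : Continuous fun y : E3 => y i - a i).div (hydW_cont a η)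
    (fun y => (hydW_pos a hη y).ne')

private lemma hydD_cont (a : E3) {η : ℝ} (hη : 0 < η) (i : Fin 3) :
    Continuous fun y : E3 => 1 / hydW a η y - (y i - a i) ^ 2 / hydW a η y ^ 3 := by
  refine Continuous.sub ?_ ?_
  · exact continuous_const.div (hydW_cont a η) (fun y => (hydW_pos a hη y).ne')
  · exact (by fun_prop : Continuous fun y : E3 => (y i - a i) ^ 2).div
      ((hydW_cont a η).pow 3) (fun y => pow_ne_zero 3 (hydW_pos a hη y).ne')

private lemma hyd_sq_supp {u : E3 → ℝ} (hc : HasCompactSupport u) :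
    HasCompactSupport fun y => u y ^ 2 :=
  hc.comp_left (g := fun t : ℝ => t ^ 2) (by norm_num)

private lemma hyd_sq_lip {u : E3 → ℝ} {K : NNReal} (hu : LipschitzWith K u)
    (hc : HasCompactSupport u) : ∃ D : NNReal, LipschitzWith D fun y => u y ^ 2 := by
  obtain ⟨B, hB⟩ := hc.exists_bound_of_continuous hu.continuous
  have hB0 : 0 ≤ B := (norm_nonneg _).trans (hB 0)
  refine ⟨Real.toNNReal (2 * B * K), LipschitzWith.of_dist_le_mul fun x y => ?_⟩
  rw [Real.coe_toNNReal _ (by positivity), Real.dist_eq]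
  have h1 : |u x - u y| ≤ K * dist x y := by
    have := hu.dist_le_mul x y
    rwa [Real.dist_eq] at this
  have h2 : |u x + u y| ≤ 2 * B := by
    refine (abs_add_le _ _).trans ?_
    have h3 := hB x
    have h4 := hB y
    rw [Real.norm_eq_abs] at h3 h4
    linarith
  have e : u x ^ 2 - u y ^ 2 = (u x + u y) * (u x - u y) := by ring
  rw [e, abs_mul, mul_assoc (2 * B)]
  exact mul_le_mul h2 h1 (abs_nonneg _) (by positivity)

private lemma hyd_ibp {u : E3 → ℝ} {K : NNReal} (hu : LipschitzWith K u)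
    (hc : HasCompactSupport u) (a : E3) {η : ℝ} (hη : 0 < η) (i : Fin 3) :
    ∫ y, (1 / hydW a η y - (y i - a i) ^ 2 / hydW a η y ^ 3) * u y ^ 2 =
      ∫ y, -(2 * u y * hydF a η i y * fderiv ℝ u y (hydE i)) := by
  obtain ⟨D, hD⟩ := hyd_sq_lip hu hc
  have h := LipschitzWith.integral_lineDeriv_mul_eq (μ := (volume : Measure E3))
    (hydF_lip a hη i) hD (hyd_sq_supp hc) (hydE i)
  have h1 : ∀ y, lineDeriv ℝ (hydF a η i) y (hydE i) * u y ^ 2 =
      (1 / hydW a η y - (y i - a i) ^ 2 / hydW a η y ^ 3) * u y ^ 2 := by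
    intro y
    rw [hydF_line a hη i y]
  simp only [h1] at h
  rw [h]
  refine integral_congr_ae ?_
  filter_upwards [hu.ae_differentiableAt (μ := (volume : Measure E3))] with y hy
  have h2 : HasFDerivAt (fun z => u z ^ 2) ((2 * u y) • fderiv ℝ u y) y := by
    have h3 := hy.hasFDerivAt.mul hy.hasFDerivAt
    have e1 : (fun z => u z ^ 2) = u * u := by
      funext z
      simp [sq]
    have e2 : (2 * u y) • fderiv ℝ u y = u y • fderiv ℝ u y + u y • fderiv ℝ u y := by
      rw [two_mul, add_smul]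
    rw [e1, e2]
    exact h3
  rw [h2.differentiableAt.lineDeriv_eq_fderiv, h2.fderiv]
  simp only [map_neg]
  simp only [_root_.smul_apply, smul_eq_mul]
  ring

private lemma hyd_L_int {u : E3 → ℝ} {K : NNReal} (hu : LipschitzWith K u)
    (hc : HasCompactSupport u) : Integrable (fun y => ‖fderiv ℝ u y‖ ^ 2) := by
  have hcs : IsCompact (tsupport u) := hc
  have h1 : Integrable ((tsupport u).indicator fun _ : E3 => (K : ℝ) ^ 2) := by
    rw [integrable_indicator_iff hcs.measurableSet]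
    exact integrableOn_const (hcs.measure_lt_top.ne)
  refine h1.mono' ((measurable_fderiv ℝ u).norm.pow_const 2).aestronglyMeasurable
    (Eventually.of_forall fun y => ?_)
  rw [Real.norm_eq_abs, abs_of_nonneg (by positivity)]
  by_cases hy : y ∈ tsupport u
  · rw [Set.indicator_of_mem hy]
    have := norm_fderiv_le_of_lipschitz ℝ hu (x₀ := y)
    exact pow_le_pow_left₀ (norm_nonneg _) this 2
  · rw [Set.indicator_of_notMem hy, fderiv_of_notMem_tsupport ℝ hy]
    simp

private lemma hyd_reg {u : E3 → ℝ} {K : NNReal} (hu : LipschitzWith K u)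
    (hc : HasCompactSupport u) (a : E3) {η : ℝ} (hη : 0 < η) {Z : ℝ} (hZ : 0 ≤ Z) :
    ∫ y, Z / hydW a η y * u y ^ 2 ≤ ∫ y, (‖fderiv ℝ u y‖ ^ 2 + Z ^ 2 / 4 * u y ^ 2) := by
  have hu2 : Continuous fun y => u y ^ 2 := hu.continuous.pow 2
  have hw0 : ∀ y, hydW a η y ≠ 0 := fun y => (hydW_pos a hη y).ne'
  have i1 : Integrable fun y => Z / hydW a η y * u y ^ 2 := by
    refine Continuous.integrable_of_hasCompactSupport
      ((continuous_const.div (hydW_cont a η) hw0).mul hu2) ?_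
    exact (hyd_sq_supp hc).mul_left
  have i2 : ∀ i : Fin 3, Integrable fun y : E3 =>
      (1 / hydW a η y - (y i - a i) ^ 2 / hydW a η y ^ 3) * u y ^ 2 := by
    intro i
    refine Continuous.integrable_of_hasCompactSupport ((hydD_cont a hη i).mul hu2) ?_
    exact (hyd_sq_supp hc).mul_left
  have i3 : ∀ i : Fin 3, Integrable fun y : E3 =>
      -(2 * u y * hydF a η i y * fderiv ℝ u y (hydE i)) := by
    intro i
    have h1 : Integrable fun y : E3 => 2 * u y * hydF a η i y := by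
      refine Continuous.integrable_of_hasCompactSupport
        ((continuous_const.mul hu.continuous).mul (hydF_cont a hη i)) ?_
      exact (hc.mul_left (f := fun _ => (2 : ℝ))).mul_right
    have h2 := h1.mul_bdd (g := fun y => fderiv ℝ u y (hydE i)) (c := K * ‖hydE i‖)
      (measurable_fderiv_apply_const ℝ u (hydE i)).aestronglyMeasurable
      (Eventually.of_forall fun y => ((fderiv ℝ u y).le_opNorm _).trans
        (mul_le_mul_of_nonneg_right (norm_fderiv_le_of_lipschitz ℝ hu) (norm_nonneg _)))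
    exact h2.neg
  have i4 : Integrable fun y => ‖fderiv ℝ u y‖ ^ 2 + Z ^ 2 / 4 * u y ^ 2 :=
    (hyd_L_int hu hc).add ((Continuous.integrable_of_hasCompactSupport hu2
      (hyd_sq_supp hc)).const_mul _)
  have s1 : ∫ y, Z / hydW a η y * u y ^ 2 ≤
      ∫ y, Z / 2 * ∑ i : Fin 3, (1 / hydW a η y - (y i - a i) ^ 2 / hydW a η y ^ 3) * u y ^ 2 := by
    refine integral_mono i1 ((integrable_finsetSum _ fun i _ => i2 i).const_mul _) fun y => ?_
    show Z / hydW a η y * u y ^ 2 ≤ Z / 2 * ∑ i : Fin 3,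
      (1 / hydW a η y - (y i - a i) ^ 2 / hydW a η y ^ 3) * u y ^ 2
    rw [← Finset.sum_mul]
    have h1 := hyd_div a hη y
    have h2 : Z / hydW a η y = Z / 2 * (2 / hydW a η y) := by ring
    rw [h2, mul_assoc]
    refine mul_le_mul_of_nonneg_left ?_ (by positivity)
    exact mul_le_mul_of_nonneg_right h1 (by positivity)
  have s2 : ∫ y, Z / 2 * ∑ i : Fin 3, (1 / hydW a η y - (y i - a i) ^ 2 / hydW a η y ^ 3) * u y ^ 2 =
      ∫ y, Z / 2 * ∑ i : Fin 3, -(2 * u y * hydF a η i y * fderiv ℝ u y (hydE i)) := by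
    rw [integral_const_mul, integral_const_mul, integral_finsetSum _ fun i _ => i2 i,
      integral_finsetSum _ fun i _ => i3 i]
    congr 1
    exact Finset.sum_congr rfl fun i _ => hyd_ibp hu hc a hη i
  refine s1.trans (s2.le.trans ?_)
  refine integral_mono ((integrable_finsetSum _ fun i _ => i3 i).const_mul _) i4 fun y => ?_
  show Z / 2 * ∑ i : Fin 3, -(2 * u y * hydF a η i y * fderiv ℝ u y (hydE i)) ≤
    ‖fderiv ℝ u y‖ ^ 2 + Z ^ 2 / 4 * u y ^ 2
  set L := fderiv ℝ u y with hL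
  set F : E3 := WithLp.toLp 2 fun i => hydF a η i y with hF
  have hFn : ‖F‖ ≤ 1 := by
    have h1 : ‖F‖ ^ 2 ≤ 1 := by
      rw [EuclideanSpace.norm_sq_eq]
      have h2 : ∀ i : Fin 3, ‖F i‖ ^ 2 = (y i - a i) ^ 2 / hydW a η y ^ 2 := by
        intro i
        show ‖hydF a η i y‖ ^ 2 = _
        unfold hydF
        rw [Real.norm_eq_abs, sq_abs, div_pow]
      simp only [h2]
      rw [← Finset.sum_div, div_le_one (by have := hydW_pos a hη y; positivity), hydW_sq]
      have h3 : ‖y - a‖ ^ 2 = ∑ i : Fin 3, (y i - a i) ^ 2 := by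
        rw [EuclideanSpace.norm_sq_eq]
        simp [sq_abs]
      nlinarith [sq_nonneg η]
    have h0 := norm_nonneg F
    nlinarith
  have hLF : L F = ∑ i : Fin 3, hydF a η i y * L (hydE i) := by
    have h1 : F = ∑ i : Fin 3, hydF a η i y • hydE i := by
      ext k
      simp [hF, hydE, Finset.sum_apply, Pi.single_apply]
    rw [h1, map_sum]
    simp only [map_smul, smul_eq_mul]
  have e : Z / 2 * ∑ i : Fin 3, -(2 * u y * hydF a η i y * L (hydE i)) = -(Z * u y * L F) := by
    rw [hLF, Finset.mul_sum, Finset.mul_sum, ← Finset.sum_neg_distrib]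
    exact Finset.sum_congr rfl fun i _ => by ring
  rw [e]
  have h5 : |L F| ≤ ‖L‖ := by
    have h6 := L.le_opNorm F
    rw [Real.norm_eq_abs] at h6
    have := norm_nonneg L
    nlinarith
  have h7 : -(Z * u y * L F) ≤ |Z * u y| * ‖L‖ := by
    have h8 := neg_abs_le (Z * u y * L F)
    rw [abs_mul] at h8
    have h9 := mul_le_mul_of_nonneg_left h5 (abs_nonneg (Z * u y))
    linarith
  have h10 : |Z * u y| ^ 2 = Z ^ 2 * u y ^ 2 := by
    rw [sq_abs, mul_pow]
  nlinarith [sq_nonneg (‖L‖ - |Z * u y| / 2)]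

private lemma hyd_one {u : E3 → ℝ} {K : NNReal} (hu : LipschitzWith K u)
    (hc : HasCompactSupport u) (a : E3) {Z : ℝ} (hZ : 0 ≤ Z) :
    ∫⁻ y, ENNReal.ofReal (Z * (cou y a * u y ^ 2)) ≤
      ∫⁻ y, ENNReal.ofReal (‖fderiv ℝ u y‖ ^ 2 + Z ^ 2 / 4 * u y ^ 2) := by
  set f : ℕ → E3 → ENNReal := fun n y =>
    ENNReal.ofReal (Z / hydW a (1 / ((n : ℝ) + 1)) y * u y ^ 2) with hf
  have hη : ∀ n : ℕ, (0 : ℝ) < 1 / ((n : ℝ) + 1) := fun n => by positivity
  have hu2 : Continuous fun y => u y ^ 2 := hu.continuous.pow 2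
  have hfc : ∀ n : ℕ, Continuous fun y => Z / hydW a (1 / ((n : ℝ) + 1)) y * u y ^ 2 := fun n =>
    (continuous_const.div (hydW_cont a _) (fun y => (hydW_pos a (hη n) y).ne')).mul hu2
  have hfm : ∀ n, Measurable (f n) := fun n => (hfc n).measurable.ennreal_ofReal
  have hle : ∀ n, ∫⁻ y, f n y ≤
      ∫⁻ y, ENNReal.ofReal (‖fderiv ℝ u y‖ ^ 2 + Z ^ 2 / 4 * u y ^ 2) := by
    intro n
    have i1 : Integrable fun y => Z / hydW a (1 / ((n : ℝ) + 1)) y * u y ^ 2 :=
      Continuous.integrable_of_hasCompactSupport (hfc n) (hyd_sq_supp hc).mul_left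
    have i4 : Integrable fun y => ‖fderiv ℝ u y‖ ^ 2 + Z ^ 2 / 4 * u y ^ 2 :=
      (hyd_L_int hu hc).add ((Continuous.integrable_of_hasCompactSupport hu2
        (hyd_sq_supp hc)).const_mul _)
    rw [hf]
    show ∫⁻ y, ENNReal.ofReal (Z / hydW a (1 / ((n : ℝ) + 1)) y * u y ^ 2) ≤ _
    rw [← ofReal_integral_eq_lintegral_ofReal i1 (Eventually.of_forall fun y => by
        have := (hydW_pos a (hη n) y).le
        positivity),
      ← ofReal_integral_eq_lintegral_ofReal i4 (Eventually.of_forall fun y => by positivity)]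
    exact ENNReal.ofReal_le_ofReal (hyd_reg hu hc a (hη n) hZ)
  have hlim : ∀ y, ENNReal.ofReal (Z * (cou y a * u y ^ 2)) ≤ liminf (fun n => f n y) atTop := by
    intro y
    by_cases hy : y = a
    · subst hy
      simp [cou]
    · have hpos : 0 < ‖y - a‖ := norm_pos_iff.2 (sub_ne_zero.2 hy)
      have h1 : Tendsto (fun n : ℕ => hydW a (1 / ((n : ℝ) + 1)) y) atTop (𝓝 ‖y - a‖) := by
        have h2 : Tendsto (fun n : ℕ => Real.sqrt (‖y - a‖ ^ 2 + (1 / ((n : ℝ) + 1)) ^ 2)) atTop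
            (𝓝 (Real.sqrt (‖y - a‖ ^ 2 + 0 ^ 2))) :=
          (tendsto_const_nhds.add (tendsto_one_div_add_atTop_nhds_zero_nat.pow 2)).sqrt
        have h3 : Real.sqrt (‖y - a‖ ^ 2 + 0 ^ 2) = ‖y - a‖ := by
          rw [zero_pow two_ne_zero, add_zero, Real.sqrt_sq hpos.le]
        rw [h3] at h2
        exact h2
      have h4 : Tendsto (fun n : ℕ => Z / hydW a (1 / ((n : ℝ) + 1)) y * u y ^ 2) atTop
          (𝓝 (Z / ‖y - a‖ * u y ^ 2)) :=
        (tendsto_const_nhds.div h1 hpos.ne').mul tendsto_const_nhds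
      have h5 : Tendsto (fun n => f n y) atTop (𝓝 (ENNReal.ofReal (Z / ‖y - a‖ * u y ^ 2))) :=
        (ENNReal.continuous_ofReal.tendsto _).comp h4
      have h6 : Z * (cou y a * u y ^ 2) = Z / ‖y - a‖ * u y ^ 2 := by
        unfold cou
        rw [div_eq_mul_inv, mul_assoc]
      rw [h6, h5.liminf_eq]
  calc ∫⁻ y, ENNReal.ofReal (Z * (cou y a * u y ^ 2))
      ≤ ∫⁻ y, liminf (fun n => f n y) atTop := lintegral_mono hlim
    _ ≤ liminf (fun n => ∫⁻ y, f n y) atTop := lintegral_liminf_le hfm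
    _ ≤ ∫⁻ y, ENNReal.ofReal (‖fderiv ℝ u y‖ ^ 2 + Z ^ 2 / 4 * u y ^ 2) := by
        refine liminf_le_of_le (by isBoundedDefault) fun b hb => ?_
        obtain ⟨n, hn⟩ := hb.exists
        exact hn.trans (hle n)

/-! ### Fubini -/

private instance hyd_sf : SigmaFinite mu1 :=
  inferInstanceAs (SigmaFinite ((volume : Measure E3).prod Measure.count))

private lemma hyd_fubini {ι : Type} [Fintype ι] [DecidableEq ι] (j : ι)
    {f g : (ι → Om) → ENNReal} (hf : Measurable f) (hg : Measurable g)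
    (h : ∀ X : ι → Om, ∫⁻ y : E3, f (put X j y) ≤ ∫⁻ y : E3, g (put X j y)) :
    ∫⁻ X, f X ∂(mu ι) ≤ ∫⁻ X, g X ∂(mu ι) := by
  unfold mu
  rw [lintegral_eq_lmarginal_univ (fun _ => ((0 : E3), false)),
    lintegral_eq_lmarginal_univ (fun _ => ((0 : E3), false)),
    lmarginal_erase' _ hf (Finset.mem_univ j), lmarginal_erase' _ hg (Finset.mem_univ j)]
  refine lmarginal_mono (fun X => ?_) _
  show ∫⁻ ω, f (Function.update X j ω) ∂mu1 ≤ ∫⁻ ω, g (Function.update X j ω) ∂mu1
  have hfm : Measurable fun ω : Om => f (Function.update X j ω) :=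
    hf.comp (measurable_update X)
  have hgm : Measurable fun ω : Om => g (Function.update X j ω) :=
    hg.comp (measurable_update X)
  unfold mu1
  rw [lintegral_prod_symm' _ hfm, lintegral_prod_symm' _ hgm]
  refine lintegral_mono fun s => ?_
  have h1 := h (Function.update X j ((0 : E3), s))
  have e : ∀ y : E3, put (Function.update X j ((0 : E3), s)) j y =
      Function.update X j (y, s) := by
    intro y
    unfold put
    rw [Function.update_idem, Function.update_self]
  simp only [e] at h1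
  exact h1

theorem p_hyd (h1 : S_lc) (h2 : S_adm) : S_hyd := by
  intro ι _ _ ψ j a Z hψ hZ
  obtain ⟨hm, -, -, hgm, hgi, hWi, hni⟩ := h1 ι ψ hψ
  obtain ⟨-, -, -, -, hcou, -, -, -⟩ := h2 ι
  have hci := hWi _ (hcou j a)
  have hcm : Measurable fun X : ι → Om => cou (X j).1 a := (hcou j a).1
  unfold expv kin1 nsq
  rw [← integral_const_mul, ← integral_const_mul, ← integral_add (hgi j) (hni.const_mul _)]
  have n1 : 0 ≤ᵐ[mu ι] fun X : ι → Om => Z * (cou (X j).1 a * ψ X ^ 2) :=
    Eventually.of_forall fun X => by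
      have : 0 ≤ cou (X j).1 a := inv_nonneg.2 (norm_nonneg _)
      show 0 ≤ Z * (cou (X j).1 a * ψ X ^ 2)
      positivity
  have n2 : 0 ≤ᵐ[mu ι] fun X : ι → Om => gradSq ψ j X + Z ^ 2 / 4 * ψ X ^ 2 :=
    Eventually.of_forall fun X => by
      show 0 ≤ gradSq ψ j X + Z ^ 2 / 4 * ψ X ^ 2
      unfold gradSq
      positivity
  have i1 : Integrable (fun X : ι → Om => Z * (cou (X j).1 a * ψ X ^ 2)) (mu ι) :=
    hci.const_mul _
  have i2 : Integrable (fun X : ι → Om => gradSq ψ j X + Z ^ 2 / 4 * ψ X ^ 2) (mu ι) :=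
    (hgi j).add (hni.const_mul _)
  have key : ∫⁻ X, ENNReal.ofReal (Z * (cou (X j).1 a * ψ X ^ 2)) ∂(mu ι) ≤
      ∫⁻ X, ENNReal.ofReal (gradSq ψ j X + Z ^ 2 / 4 * ψ X ^ 2) ∂(mu ι) := by
    refine hyd_fubini j ?_ ?_ fun X => ?_
    · exact ((hcm.mul (hm.pow_const 2)).const_mul Z).ennreal_ofReal
    · exact ((hgm j).add ((hm.pow_const 2).const_mul _)).ennreal_ofReal
    obtain ⟨K, hK⟩ := hψ.lip
    obtain ⟨R, hR⟩ := hψ.supp
    set u : E3 → ℝ := fun y => ψ (put X j y) with hu
    have hpp : ∀ y y' : E3, put (put X j y) j y' = put X j y' := by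
      intro y y'
      unfold put
      rw [Function.update_idem, Function.update_self]
    have hpj : ∀ y : E3, (put X j y j).1 = y := by
      intro y
      unfold put
      rw [Function.update_self]
    have hul : LipschitzWith (Real.toNNReal |K|) u := by
      apply LipschitzWith.of_dist_le_mul
      intro y y'
      rw [Real.coe_toNNReal _ (abs_nonneg K), Real.dist_eq, dist_eq_norm]
      have h3 := hK (put X j y') j y
      rw [hpp, hpj] at h3
      refine h3.trans (mul_le_mul_of_nonneg_right (le_abs_self K) (norm_nonneg _))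
    have huc : HasCompactSupport u := by
      refine HasCompactSupport.of_support_subset_isCompact (isCompact_closedBall (0 : E3) R) ?_
      intro y hy
      rw [Function.mem_support] at hy
      have h3 := hR (put X j y) hy j
      rw [hpj] at h3
      rw [Metric.mem_closedBall, dist_zero_right]
      exact h3
    have h3 := hyd_one hul huc a hZ
    have e1 : ∀ y : E3, gradSq ψ j (put X j y) = ‖fderiv ℝ u y‖ ^ 2 := by
      intro y
      unfold gradSq
      rw [hpj]
      simp only [hpp]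
      rfl
    simp only [hpj, e1]
    exact h3
  rw [← ofReal_integral_eq_lintegral_ofReal i1 n1, ← ofReal_integral_eq_lintegral_ofReal i2 n2,
    ENNReal.ofReal_le_ofReal_iff (integral_nonneg_of_ae n2)] at key
  exact key

end MolDis
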