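import Pool.Agent.Lib.MP_59f35a_mp.Stmts1

/-!
# MP_59f35a_mp : IMS localisation formula (piece A4)
-/

set_option autoImplicit false

noncomputable section

open MeasureTheory

namespace MolDis

namespace Ims

set_option linter.unusedSectionVars false

/-! ### partitions of unity -/

section PUsec

variable {K : Type} [Fintype K] {θ : K → E3 → ℝ}

theorem abs_le (h : PU θ) (k : K) (x : E3) : |θ k x| ≤ 1 := by
  have h1 := h.sq x
  have h2 : θ k x ^ 2 ≤ 1 := by
    rw [← h1]
    exact Finset.single_le_sum (f := fun k => θ k x ^ 2) (fun i _ => sq_nonneg _)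
      (Finset.mem_univ k)
  rw [← Real.sqrt_sq_eq_abs]
  exact Real.sqrt_le_one.2 h2

theorem lipWith (h : PU θ) : ∃ L : NNReal, ∀ k, LipschitzWith L (θ k) := by
  obtain ⟨L, hL⟩ := h.lip
  refine ⟨⟨max L 0, le_max_right _ _⟩, fun k => LipschitzWith.of_dist_le_mul fun x y => ?_⟩
  rw [Real.dist_eq, dist_eq_norm]
  exact (hL k x y).trans (mul_le_mul_of_nonneg_right (le_max_left _ _) (norm_nonneg _))

theorem puG_meas (θ : K → E3 → ℝ) : Measurable (puG θ) := by
  unfold puG
  exact Finset.measurable_sum _ (fun k _ => ((measurable_fderiv ℝ (θ k)).norm.pow_const 2))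

theorem puG_bdd (h : PU θ) : ∃ C : ℝ, ∀ x, |puG θ x| ≤ C := by
  obtain ⟨L, hL⟩ := lipWith h
  refine ⟨∑ _k : K, (L : ℝ) ^ 2, fun x => ?_⟩
  unfold puG
  rw [abs_of_nonneg (Finset.sum_nonneg (fun k _ => sq_nonneg _))]
  exact Finset.sum_le_sum (fun k _ => pow_le_pow_left₀ (norm_nonneg _)
    (norm_fderiv_le_of_lipschitz ℝ (hL k)) 2)

/-- the algebraic identity behind the IMS formula -/
theorem key (A : E3 →L[ℝ] ℝ) (B : K → E3 →L[ℝ] ℝ) (t : K → ℝ) (u : ℝ)
    (h1 : ∑ k, t k ^ 2 = 1) (h2 : ∑ k, t k • B k = 0) :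
    ∑ k, ‖t k • A + u • B k‖ ^ 2 = ‖A‖ ^ 2 + (∑ k, ‖B k‖ ^ 2) * u ^ 2 := by
  set D := (InnerProductSpace.toDual ℝ E3).symm with hD
  have hn : ∀ k, ‖t k • A + u • B k‖ ^ 2 =
      t k ^ 2 * ‖A‖ ^ 2 + 2 * u * inner ℝ (D A) (t k • D (B k)) + ‖B k‖ ^ 2 * u ^ 2 := by
    intro k
    rw [← D.norm_map (t k • A + u • B k), ← D.norm_map A, ← D.norm_map (B k), map_add]
    have e1 : D (t k • A) = t k • D A := by simp
    have e2 : D (u • B k) = u • D (B k) := by simp
    rw [e1, e2, norm_add_sq_real, norm_smul, norm_smul, inner_smul_left, inner_smul_right,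
      inner_smul_right, mul_pow, mul_pow, Real.norm_eq_abs, Real.norm_eq_abs, sq_abs, sq_abs]
    simp only [conj_trivial]
    ring
  have h3 : ∑ k, t k • D (B k) = 0 := by
    have : D (∑ k, t k • B k) = ∑ k, t k • D (B k) := by simp
    rw [← this, h2, map_zero]
  simp_rw [hn]
  rw [Finset.sum_add_distrib, Finset.sum_add_distrib, ← Finset.sum_mul, ← Finset.sum_mul,
    ← Finset.mul_sum, ← inner_sum, h3, h1, inner_zero_right]
  ring

/-- `Σ θ_k ∇θ_k = 0` -/
theorem grad_zero (h : PU θ) (x : E3) (hd : ∀ k, DifferentiableAt ℝ (θ k) x) :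
    ∑ k, θ k x • fderiv ℝ (θ k) x = 0 := by
  have h1 : fderiv ℝ (fun y => ∑ k, θ k y * θ k y) x = 0 := by
    have : (fun y => ∑ k, θ k y * θ k y) = fun _ => (1 : ℝ) := by
      funext y
      rw [← h.sq y]
      exact Finset.sum_congr rfl (fun k _ => by ring)
    rw [this]
    simp
  have hdk : ∀ k, DifferentiableAt ℝ (fun y => θ k y * θ k y) x := fun k => (hd k).mul (hd k)
  rw [fderiv_fun_sum (A := fun k y => θ k y * θ k y) (fun k _ => hdk k)] at h1
  have h2 : ∀ k, fderiv ℝ (fun y => θ k y * θ k y) x = (2 : ℝ) • (θ k x • fderiv ℝ (θ k) x) := by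
    intro k
    rw [fderiv_fun_mul (hd k) (hd k)]
    rw [two_smul]
  simp_rw [h2] at h1
  rw [← Finset.smul_sum] at h1
  exact (smul_eq_zero.1 h1).resolve_left (by norm_num)

end PUsec

/-! ### sums over the assignments -/

section SumSec

variable {ι K : Type} [Fintype ι] [DecidableEq ι] [Fintype K] [DecidableEq K]
  {θ : K → E3 → ℝ}

theorem sum_prod (F : ι → K → ℝ) : ∑ α : ι → K, ∏ i, F i (α i) = ∏ i, ∑ k, F i k := by
  rw [Finset.prod_univ_sum, Fintype.piFinset_univ]

theorem sum_prod_sq (h : PU θ) (X : ι → Om) :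
    ∑ α : ι → K, (∏ j, θ (α j) (X j).1) ^ 2 = 1 := by
  have h1 : ∀ α : ι → K, (∏ j, θ (α j) (X j).1) ^ 2 =
      ∏ j, (fun (i : ι) (k : K) => θ k (X i).1 ^ 2) j (α j) := by
    intro α
    rw [← Finset.prod_pow]
  rw [Finset.sum_congr rfl (fun α _ => h1 α), sum_prod (fun (i : ι) (k : K) => θ k (X i).1 ^ 2)]
  simp [h.sq]

theorem sum_erase (h : PU θ) (X : ι → Om) (j : ι) (g : K → ℝ) :
    ∑ α : ι → K, (∏ i ∈ Finset.univ.erase j, θ (α i) (X i).1) ^ 2 * g (α j) = ∑ k, g k := by
  have h1 : ∀ α : ι → K, (∏ i ∈ Finset.univ.erase j, θ (α i) (X i).1) ^ 2 * g (α j) =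
      ∏ i, (fun (i : ι) (k : K) => if i = j then g k else θ k (X i).1 ^ 2) i (α i) := by
    intro α
    rw [← Finset.mul_prod_erase _ _ (Finset.mem_univ j), ← Finset.prod_pow, mul_comm]
    simp only [if_true]
    congr 1
    refine Finset.prod_congr rfl (fun i hi => ?_)
    rw [if_neg (Finset.ne_of_mem_erase hi)]
  rw [Finset.sum_congr rfl (fun α _ => h1 α),
    sum_prod (fun (i : ι) (k : K) => if i = j then g k else θ k (X i).1 ^ 2),
    ← Finset.mul_prod_erase _ _ (Finset.mem_univ j)]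
  simp only [if_true]
  rw [Finset.prod_eq_one, mul_one]
  intro i hi
  simp only [if_neg (Finset.ne_of_mem_erase hi), h.sq]

end SumSec

/-! ### the sector functions -/

section Sect

variable {ι K : Type} [Fintype ι] [DecidableEq ι] [Fintype K] [DecidableEq K]
  {θ : K → E3 → ℝ}

theorem prod_put (α : ι → K) (X : ι → Om) (j : ι) (y : E3) :
    ∏ i, θ (α i) ((put X j y) i).1 =
      (∏ i ∈ Finset.univ.erase j, θ (α i) (X i).1) * θ (α j) y := by
  rw [← Finset.mul_prod_erase _ _ (Finset.mem_univ j), mul_comm]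
  congr 1
  · refine Finset.prod_congr rfl (fun i hi => ?_)
    rw [put, Function.update_of_ne (Finset.ne_of_mem_erase hi)]
  · simp [put]

theorem put_self (X : ι → Om) (j : ι) : put X j (X j).1 = X := by
  unfold put
  exact Function.update_eq_self j X

theorem abs_prod_le (h : PU θ) (α : ι → K) (X : ι → Om) (s : Finset ι) :
    |∏ i ∈ s, θ (α i) (X i).1| ≤ 1 := by
  rw [Finset.abs_prod]
  exact Finset.prod_le_one (fun i _ => abs_nonneg _) (fun i _ => abs_le h _ _)

theorem lc_sector (hcl : S_lc_closure) (h : PU θ) {ψ : (ι → Om) → ℝ} (hψ : LC ψ) (α : ι → K) :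
    LC (sector θ α ψ) := by
  refine (hcl ι ψ ψ hψ hψ).2.2 (fun X => ∏ j, θ (α j) (X j).1)
    ⟨1, fun X => abs_prod_le h α X _⟩ ?_
  obtain ⟨L, hL⟩ := h.lip
  refine ⟨|L|, fun X j y => ?_⟩
  have e1 := prod_put (θ := θ) α X j y
  have e2 := prod_put (θ := θ) α X j (X j).1
  rw [put_self] at e2
  rw [e1, e2, ← mul_sub, abs_mul]
  calc |∏ i ∈ Finset.univ.erase j, θ (α i) (X i).1| * |θ (α j) y - θ (α j) (X j).1|
      ≤ 1 * (|L| * ‖y - (X j).1‖) := by
        refine mul_le_mul (abs_prod_le h α X _) ?_ (abs_nonneg _) zero_le_one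
        exact (hL (α j) y (X j).1).trans
          (mul_le_mul_of_nonneg_right (le_abs_self _) (norm_nonneg _))
    _ = _ := one_mul _

theorem sum_sector_sq (h : PU θ) (ψ : (ι → Om) → ℝ) (X : ι → Om) :
    ∑ α : ι → K, sector θ α ψ X ^ 2 = ψ X ^ 2 := by
  unfold sector
  simp_rw [mul_pow]
  rw [← Finset.sum_mul, sum_prod_sq h X, one_mul]

/-- pointwise IMS formula -/
theorem sum_gradSq (h : PU θ) (ψ : (ι → Om) → ℝ) (j : ι) (X : ι → Om)
    (hd : ∀ k, DifferentiableAt ℝ (θ k) (X j).1)
    (hψ : DifferentiableAt ℝ (fun y => ψ (put X j y)) (X j).1) :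
    ∑ α : ι → K, gradSq (sector θ α ψ) j X =
      gradSq ψ j X + puG θ (X j).1 * ψ X ^ 2 := by
  have h1 : ∀ α : ι → K, gradSq (sector θ α ψ) j X =
      (∏ i ∈ Finset.univ.erase j, θ (α i) (X i).1) ^ 2 *
        (fun k : K => ‖θ k (X j).1 • fderiv ℝ (fun y => ψ (put X j y)) (X j).1 +
          ψ X • fderiv ℝ (θ k) (X j).1‖ ^ 2) (α j) := by
    intro α
    unfold gradSq
    have e : (fun y => sector θ α ψ (put X j y)) = fun y =>
        (∏ i ∈ Finset.univ.erase j, θ (α i) (X i).1) * (θ (α j) y * ψ (put X j y)) := by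
      funext y
      unfold sector
      rw [prod_put, mul_assoc]
    have hdm : DifferentiableAt ℝ (fun y => θ (α j) y * ψ (put X j y)) (X j).1 :=
      (hd (α j)).mul hψ
    rw [e, fderiv_const_mul hdm, fderiv_fun_mul (hd (α j)) hψ, norm_smul, mul_pow,
      Real.norm_eq_abs, sq_abs, put_self]
  simp_rw [h1]
  rw [sum_erase h X j (fun k : K => ‖θ k (X j).1 • fderiv ℝ (fun y => ψ (put X j y)) (X j).1 +
          ψ X • fderiv ℝ (θ k) (X j).1‖ ^ 2),
    key _ _ _ _ (h.sq _) (grad_zero h _ hd)]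
  rfl

end Sect

/-! ### almost everywhere differentiability -/

section AE

variable {ι : Type} [Fintype ι] [DecidableEq ι]

instance : SigmaFinite mu1 := by
  unfold mu1
  infer_instance

/-- Fubini for null sets, one coordinate -/
theorem ae_of_update (j : ι) (P : (ι → Om) → Prop) (hP : MeasurableSet {X | P X})
    (h : ∀ X, ∀ᵐ z ∂mu1, P (Function.update X j z)) : ∀ᵐ X ∂(mu ι), P X := by
  classical
  rw [ae_iff]
  have hm : MeasurableSet {X : ι → Om | ¬ P X} := hP.compl
  have hf : Measurable (fun X : ι → Om => Set.indicator {X | ¬ P X} (fun _ => (1 : ENNReal)) X) :=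
    measurable_const.indicator hm
  have h1 : mu ι {X | ¬ P X} =
      ∫⁻ X, Set.indicator {X | ¬ P X} (fun _ => (1 : ENNReal)) X ∂(Measure.pi fun _ : ι => mu1) := by
    rw [lintegral_indicator hm]
    simp [mu]
  by_cases hne : Nonempty (ι → Om)
  · obtain ⟨X0⟩ := hne
    rw [h1, lintegral_eq_lmarginal_univ X0,
      lmarginal_erase' _ hf (Finset.mem_univ j)]
    have h2 : (fun X : ι → Om => ∫⁻ z, Set.indicator {X | ¬ P X} (fun _ => (1 : ENNReal))
        (Function.update X j z) ∂mu1) = fun _ => 0 := by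
      funext X
      have hh : Measurable (fun z : Om => Set.indicator {X | ¬ P X} (fun _ => (1 : ENNReal))
        (Function.update X j z)) := hf.comp (measurable_update X)
      rw [lintegral_eq_zero_iff hh]
      filter_upwards [h X] with z hz
      simp [hz]
    rw [h2]
    simp [lmarginal]
  · exact absurd ⟨fun _ => (0, false)⟩ hne

theorem continuous_of_lc (hlc : S_lc) {ψ : (ι → Om) → ℝ} (hψ : LC ψ) : Continuous ψ := by
  have h := (hlc ι ψ hψ).2.2.1
  have h1 : Continuous (fun p : (ι → E3) × (ι → Bool) => ψ (fun j => (p.1 j, p.2 j))) :=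
    continuous_prod_of_discrete_right.2 h
  have h2 : Continuous (fun X : ι → Om => ((fun i => (X i).1, fun i => (X i).2) :
      (ι → E3) × (ι → Bool))) := by fun_prop
  exact h1.comp h2

theorem ae_diff (hlc : S_lc) {ψ : (ι → Om) → ℝ} (hψ : LC ψ) (j : ι) :
    ∀ᵐ X ∂(mu ι), DifferentiableAt ℝ (fun y => ψ (put X j y)) (X j).1 := by
  have hc : Continuous ψ := continuous_of_lc hlc hψ
  have hc2 : Continuous (Function.uncurry (fun (X : ι → Om) (y : E3) => ψ (put X j y))) := by
    refine hc.comp ?_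
    unfold put
    exact Continuous.update continuous_fst j
      (continuous_snd.prodMk ((continuous_apply j).comp continuous_fst).snd)
  have hms := measurableSet_of_differentiableAt_with_param ℝ hc2
  have hP : MeasurableSet {X : ι → Om | DifferentiableAt ℝ (fun y => ψ (put X j y)) (X j).1} := by
    have hm : Measurable (fun X : ι → Om => (X, (X j).1)) :=
      measurable_id.prodMk (measurable_pi_apply j).fst
    exact hm hms
  refine ae_of_update j _ hP (fun X => ?_)
  have e : ∀ z : Om, (DifferentiableAt ℝ (fun y => ψ (put (Function.update X j z) j y))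
      ((Function.update X j z) j).1) ↔
      DifferentiableAt ℝ (fun y => ψ (Function.update X j (y, z.2))) z.1 := by
    intro z
    simp only [put, Function.update_idem, Function.update_self]
  obtain ⟨L, hL⟩ := hψ.lip
  have hlip : ∀ b : Bool, LipschitzWith (Real.toNNReal L)
      (fun y : E3 => ψ (Function.update X j (y, b))) := by
    intro b
    refine LipschitzWith.of_dist_le_mul fun y z => ?_
    rw [Real.dist_eq, dist_eq_norm]
    have := hL (Function.update X j (z, b)) j y
    simp only [put, Function.update_idem, Function.update_self] at this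
    exact this.trans (mul_le_mul_of_nonneg_right (Real.le_coe_toNNReal L) (norm_nonneg _))
  have h1 : ∀ᵐ x : E3, ∀ b : Bool,
      DifferentiableAt ℝ (fun y => ψ (Function.update X j (y, b))) x := by
    rw [ae_all_iff]
    intro b
    exact (hlip b).ae_differentiableAt
  rw [ae_iff]
  have hmz : MeasurableSet {z : Om | ¬ DifferentiableAt ℝ
      (fun y => ψ (put (Function.update X j z) j y)) ((Function.update X j z) j).1} := by
    exact (measurable_update X (a := j)) hP.compl
  unfold mu1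
  rw [Measure.measure_prod_null hmz]
  filter_upwards [h1] with x hx
  have : (Prod.mk x ⁻¹' {z : Om | ¬ DifferentiableAt ℝ
      (fun y => ψ (put (Function.update X j z) j y)) ((Function.update X j z) j).1}) = ∅ := by
    ext b
    simp only [Set.mem_preimage, Set.mem_ofPred_eq, Set.mem_empty_iff_false, iff_false, not_not]
    exact (e (x, b)).2 (hx b)
  rw [this]
  simp

theorem ae_theta {K : Type} [Fintype K] {θ : K → E3 → ℝ} (h : PU θ) (j : ι) :
    ∀ᵐ X ∂(mu ι), ∀ k, DifferentiableAt ℝ (θ k) (X j).1 := by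
  obtain ⟨L, hL⟩ := lipWith h
  have h1 : ∀ᵐ x : E3, ∀ k, DifferentiableAt ℝ (θ k) x := by
    rw [ae_all_iff]
    intro k
    exact (hL k).ae_differentiableAt
  have h2 : ∀ᵐ z ∂mu1, ∀ k, DifferentiableAt ℝ (θ k) z.1 :=
    (Measure.quasiMeasurePreserving_fst (μ := (volume : Measure E3))
      (ν := (Measure.count : Measure Bool))).ae h1
  exact (Measure.quasiMeasurePreserving_eval (fun _ : ι => mu1) j).ae h2

end AE

end Ims

/-- **A4 (IMS).** -/
theorem p_ims (hlc : S_lc) (hcl : S_lc_closure) (hadm : S_adm) : S_ims := by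
  intro ι K _ _ _ _ θ ψ hθ hψ
  have hs : ∀ α : ι → K, LC (sector θ α ψ) := fun α => Ims.lc_sector hcl hθ hψ α
  have hb := Ims.puG_bdd hθ
  have hm := Ims.puG_meas θ
  refine ⟨hs, ?_, ?_, ?_, hb, hm⟩
  · unfold nsq
    rw [← integral_finsetSum _ (fun α _ => (hlc ι _ (hs α)).2.2.2.2.2.2)]
    refine integral_congr_ae (Filter.Eventually.of_forall (fun X => ?_))
    exact (Ims.sum_sector_sq hθ ψ X).symm
  · intro W hW
    unfold expv
    rw [← integral_finsetSum _ (fun α _ => (hlc ι _ (hs α)).2.2.2.2.2.1 W hW)]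
    refine integral_congr_ae (Filter.Eventually.of_forall (fun X => ?_))
    simp only
    rw [← Finset.mul_sum, Ims.sum_sector_sq hθ ψ X]
  · have hW : ∀ j : ι, AdmW (fun X : ι → Om => puG θ (X j).1) := by
      intro j
      refine (hadm ι).1 _ ⟨hm.comp (measurable_pi_apply j).fst, fun R => ?_⟩
      obtain ⟨C, hC⟩ := hb
      exact ⟨C, fun X _ => hC _⟩
    unfold kin
    rw [Finset.sum_comm, ← Finset.sum_sub_distrib]
    refine Finset.sum_congr rfl (fun j _ => ?_)
    unfold kin1 expv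
    rw [eq_sub_iff_add_eq, ← integral_finsetSum _ (fun α _ => (hlc ι _ (hs α)).2.2.2.2.1 j),
      ← integral_add ((hlc ι _ hψ).2.2.2.2.1 j) ((hlc ι _ hψ).2.2.2.2.2.1 _ (hW j))]
    refine integral_congr_ae ?_
    filter_upwards [Ims.ae_diff hlc hψ j, Ims.ae_theta hθ j] with X h1 h2
    exact (Ims.sum_gradSq hθ ψ j X h2 h1).symm

end MolDis
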