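import Pool.Agent.Lib.MP_59f35a_mp.Stmts2

/-!
# MP_59f35a_mp : piece D1, the Fefferman - de la Llave kernel

`η x = (max 0 (1-|x|²))²`, `jj = η * η`, `k w = c ∫_0^1 jj (t w) dt` (this is the kernel of the
docstring after `r = 1/t`), `K x y = r0⁻¹ k ((x-y)/r0)`.
-/

noncomputable section

open MeasureTheory

namespace MolDis

namespace Kern

/-- the bump function -/
def eta (x : E3) : ℝ := (max 0 (1 - ‖x‖ ^ 2)) ^ 2

lemma eta_nonneg (x : E3) : 0 ≤ eta x := sq_nonneg _

lemma eta_le (x : E3) : eta x ≤ 1 := by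
  unfold eta
  have h1 : 0 ≤ max 0 (1 - ‖x‖ ^ 2) := le_max_left _ _
  have h2 : max 0 (1 - ‖x‖ ^ 2) ≤ 1 := max_le zero_le_one (by nlinarith [sq_nonneg ‖x‖])
  nlinarith

lemma eta_zero {x : E3} (h : 1 ≤ ‖x‖) : eta x = 0 := by
  unfold eta
  rw [max_eq_left (by nlinarith)]; norm_num

lemma eta_neg (x : E3) : eta (-x) = eta x := by simp [eta]

lemma eta_cont : Continuous eta := by unfold eta; fun_prop

lemma eta_at_zero : eta 0 = 1 := by simp [eta]

lemma pos_sq (a b : ℝ) :
    |max 0 b ^ 2 - max 0 a ^ 2 - 2 * max 0 a * (b - a)| ≤ (b - a) ^ 2 := by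
  rcases le_total 0 a with ha | ha <;> rcases le_total 0 b with hb | hb
  · rw [max_eq_right ha, max_eq_right hb, abs_le]; constructor <;> nlinarith [sq_nonneg (b - a)]
  · rw [max_eq_right ha, max_eq_left hb, abs_le]; constructor <;> nlinarith [sq_nonneg (b - a)]
  · rw [max_eq_left ha, max_eq_right hb, abs_le]; constructor <;> nlinarith [sq_nonneg (b - a)]
  · rw [max_eq_left ha, max_eq_left hb, abs_le]; constructor <;> nlinarith [sq_nonneg (b - a)]

lemma eta_taylor (u h : E3) (hh : ‖h‖ ≤ 1) :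
    |eta (u + h) - eta u + 4 * max 0 (1 - ‖u‖ ^ 2) * inner ℝ u h| ≤ 27 * ‖h‖ ^ 2 := by
  rcases le_total 2 ‖u‖ with hu | hu
  · have h1 : 1 ≤ ‖u + h‖ := by
      have := norm_sub_norm_le u (-h)
      rw [norm_neg, sub_neg_eq_add] at this
      linarith
    rw [eta_zero h1, eta_zero (by linarith), max_eq_left (by nlinarith)]
    simp only [sub_self, mul_zero, zero_mul, add_zero, abs_zero]
    positivity
  · have e1 : ‖u + h‖ ^ 2 = ‖u‖ ^ 2 + 2 * inner ℝ u h + ‖h‖ ^ 2 := norm_add_sq_real u h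
    have hi : |inner ℝ u h| ≤ ‖u‖ * ‖h‖ := abs_real_inner_le_norm u h
    set a := 1 - ‖u‖ ^ 2 with ha
    set b := 1 - ‖u + h‖ ^ 2 with hb
    have key := pos_sq a b
    have hba : b - a = -(2 * inner ℝ u h + ‖h‖ ^ 2) := by rw [ha, hb, e1]; ring
    have ha0 : 0 ≤ max 0 a := le_max_left _ _
    have ha1 : max 0 a ≤ 1 := max_le zero_le_one (by rw [ha]; nlinarith [sq_nonneg ‖u‖])
    have hn : 0 ≤ ‖h‖ := norm_nonneg h
    have hn' : 0 ≤ ‖u‖ := norm_nonneg u
    have hb2 : (b - a) ^ 2 ≤ 25 * ‖h‖ ^ 2 := by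
      have h5 : |b - a| ≤ 5 * ‖h‖ := by
        rw [hba, abs_neg]
        calc |2 * inner ℝ u h + ‖h‖ ^ 2| ≤ |2 * inner ℝ u h| + |‖h‖ ^ 2| := abs_add_le _ _
          _ = 2 * |inner ℝ u h| + ‖h‖ ^ 2 := by
              rw [abs_mul, abs_of_pos (by norm_num : (0 : ℝ) < 2), abs_of_nonneg (sq_nonneg ‖h‖)]
          _ ≤ 5 * ‖h‖ := by nlinarith
      rw [← sq_abs]
      nlinarith [abs_nonneg (b - a)]
    have hid : eta (u + h) - eta u + 4 * max 0 a * inner ℝ u h
        = (max 0 b ^ 2 - max 0 a ^ 2 - 2 * max 0 a * (b - a)) - 2 * max 0 a * ‖h‖ ^ 2 := by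
      rw [hba]; unfold eta; rw [← ha, ← hb]; ring
    rw [hid, abs_le]
    rw [abs_le] at key
    have h3 : 2 * max 0 a * ‖h‖ ^ 2 ≤ 2 * ‖h‖ ^ 2 := by nlinarith [sq_nonneg ‖h‖]
    have h4 : 0 ≤ 2 * max 0 a * ‖h‖ ^ 2 := by positivity
    constructor <;> nlinarith

lemma eta_lip (x y : E3) : |eta x - eta y| ≤ 4 * ‖x - y‖ := by
  have h0 : ∀ r s : ℝ, 0 ≤ r → 0 ≤ s →
      |max 0 (1 - r ^ 2) - max 0 (1 - s ^ 2)| ≤ 2 * |r - s| := by
    have hw : ∀ r s : ℝ, 0 ≤ r → r ≤ s →
        |max 0 (1 - r ^ 2) - max 0 (1 - s ^ 2)| ≤ 2 * |r - s| := by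
      intro r s hr hrs
      rw [abs_of_nonpos (by linarith : r - s ≤ 0)]
      rcases le_total s 1 with hs | hs
      · rw [max_eq_right (by nlinarith), max_eq_right (by nlinarith), abs_le]
        constructor <;> nlinarith
      · rw [max_eq_left (by nlinarith : 1 - s ^ 2 ≤ 0)]
        rcases le_total r 1 with hr1 | hr1
        · rw [max_eq_right (by nlinarith), abs_le]
          constructor <;> nlinarith
        · rw [max_eq_left (by nlinarith : 1 - r ^ 2 ≤ 0)]
          simp; linarith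
    intro r s hr hs
    rcases le_total r s with h | h
    · exact hw r s hr h
    · rw [abs_sub_comm, abs_sub_comm r s]; exact hw s r hs h
  have h1 := h0 ‖x‖ ‖y‖ (norm_nonneg _) (norm_nonneg _)
  have h2 : |‖x‖ - ‖y‖| ≤ ‖x - y‖ := abs_norm_sub_norm_le x y
  unfold eta
  set a := max 0 (1 - ‖x‖ ^ 2) with ha
  set b := max 0 (1 - ‖y‖ ^ 2) with hb
  have ha0 : 0 ≤ a := le_max_left _ _
  have hb0 : 0 ≤ b := le_max_left _ _
  have ha1 : a ≤ 1 := max_le zero_le_one (by nlinarith [sq_nonneg ‖x‖])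
  have hb1 : b ≤ 1 := max_le zero_le_one (by nlinarith [sq_nonneg ‖y‖])
  have h3 : a ^ 2 - b ^ 2 = (a - b) * (a + b) := by ring
  rw [h3, abs_mul, abs_of_nonneg (by linarith : 0 ≤ a + b)]
  calc |a - b| * (a + b) ≤ |a - b| * 2 :=
        mul_le_mul_of_nonneg_left (by linarith) (abs_nonneg _)
    _ ≤ 4 * ‖x - y‖ := by linarith

lemma int_prod (a b : E3) : Integrable (fun z : E3 => eta (a - z) * eta (b - z)) := by
  apply Continuous.integrable_of_hasCompactSupport
  · exact (eta_cont.comp (continuous_const.sub continuous_id)).mul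
      (eta_cont.comp (continuous_const.sub continuous_id))
  · apply HasCompactSupport.intro (isCompact_closedBall b 1)
    intro z hz
    rw [Metric.mem_closedBall, not_le, dist_eq_norm, norm_sub_rev] at hz
    rw [eta_zero hz.le, mul_zero]

lemma int_eta : Integrable eta := by
  apply eta_cont.integrable_of_hasCompactSupport
  apply HasCompactSupport.intro (isCompact_closedBall 0 1)
  intro z hz
  rw [Metric.mem_closedBall, not_le, dist_zero_right] at hz
  exact eta_zero hz.le

/-- the autocorrelation of the bump -/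
def jj (w : E3) : ℝ := ∫ z : E3, eta (w - z) * eta z

/-- the mass of the bump -/
def mass : ℝ := ∫ z : E3, eta z

lemma mass_nonneg : 0 ≤ mass := integral_nonneg eta_nonneg

lemma int_jj (w : E3) : Integrable (fun z : E3 => eta (w - z) * eta z) := by
  have := int_prod w 0
  simpa [eta_neg] using this

lemma jj_sub (a b : E3) : ∫ z : E3, eta (a - z) * eta (b - z) = jj (a - b) := by
  unfold jj
  rw [← integral_add_right_eq_self (fun z : E3 => eta (a - z) * eta (b - z)) b]
  congr 1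
  ext z
  rw [show a - (z + b) = a - b - z by abel, show b - (z + b) = -z by abel, eta_neg]

lemma jj_nonneg (w : E3) : 0 ≤ jj w :=
  integral_nonneg fun z => mul_nonneg (eta_nonneg _) (eta_nonneg _)

lemma jj_le (w : E3) : jj w ≤ mass := by
  unfold jj mass
  apply integral_mono (int_jj w) int_eta
  intro z
  have h1 := eta_le (w - z)
  have h2 := eta_nonneg z
  show eta (w - z) * eta z ≤ eta z
  nlinarith

lemma jj_zero {w : E3} (h : 2 ≤ ‖w‖) : jj w = 0 := by
  unfold jj
  rw [← integral_zero E3 ℝ (μ := volume)]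
  congr 1
  ext z
  rcases le_total 1 ‖z‖ with hz | hz
  · rw [eta_zero hz, mul_zero]
  · have : 1 ≤ ‖w - z‖ := by
      have := norm_sub_norm_le w z
      linarith
    rw [eta_zero this, zero_mul]

lemma jj_lip (w w' : E3) : |jj w - jj w'| ≤ 4 * mass * ‖w - w'‖ := by
  unfold jj
  rw [← integral_sub (int_jj w) (int_jj w')]
  have h1 : |∫ z : E3, (eta (w - z) * eta z - eta (w' - z) * eta z)|
      ≤ ∫ z : E3, |eta (w - z) * eta z - eta (w' - z) * eta z| := abs_integral_le_integral_abs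
  refine h1.trans ?_
  have h2 : ∫ z : E3, |eta (w - z) * eta z - eta (w' - z) * eta z|
      ≤ ∫ z : E3, (4 * ‖w - w'‖) * eta z := by
    apply integral_mono ((int_jj w).sub (int_jj w')).abs (int_eta.const_mul _)
    intro z
    show |eta (w - z) * eta z - eta (w' - z) * eta z| ≤ (4 * ‖w - w'‖) * eta z
    rw [← sub_mul, abs_mul, abs_of_nonneg (eta_nonneg z)]
    apply mul_le_mul_of_nonneg_right _ (eta_nonneg z)
    have := eta_lip (w - z) (w' - z)
    rwa [show w - z - (w' - z) = w - w' by abel] at this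
  refine h2.trans ?_
  rw [integral_const_mul]
  unfold mass
  apply le_of_eq; ring

lemma jj_cont : Continuous jj := by
  rw [Metric.continuous_iff]
  intro b ε hε
  refine ⟨ε / (4 * mass + 1), by have := mass_nonneg; positivity, ?_⟩
  intro a ha
  rw [Real.dist_eq]
  have h1 := jj_lip a b
  rw [dist_eq_norm] at ha
  have hm := mass_nonneg
  rw [lt_div_iff₀ (by positivity)] at ha
  have := norm_nonneg (a - b)
  nlinarith

lemma jj_radial {w w' : E3} (h : ‖w‖ = ‖w'‖) : jj w = jj w' := by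
  set R : E3 ≃ₗᵢ[ℝ] E3 := Submodule.reflection (ℝ ∙ (w - w'))ᗮ with hR
  have hRw : R w = w' := Submodule.reflection_sub h
  have hn : ∀ x, eta (R x) = eta x := by
    intro x; unfold eta; rw [LinearIsometryEquiv.norm_map]
  have h1 : ∫ z : E3, (fun z => eta (w' - z) * eta z) (R z) = ∫ z : E3, eta (w' - z) * eta z :=
    R.measurePreserving.integral_comp R.toHomeomorph.measurableEmbedding
      (fun z => eta (w' - z) * eta z)
  unfold jj
  rw [← h1]
  congr 1
  ext z
  show eta (w - z) * eta z = eta (w' - R z) * eta (R z)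
  rw [hn, ← hRw, ← map_sub, hn]

/-- a unit vector -/
def e0 : E3 := EuclideanSpace.single 0 1

lemma norm_e0 : ‖e0‖ = 1 := by simp [e0]

lemma jj_smul_eq (w : E3) (t : ℝ) : jj (t • w) = jj ((t * ‖w‖) • e0) := by
  apply jj_radial
  rw [norm_smul, norm_smul, norm_e0, norm_mul, norm_norm, mul_one]

lemma jj_pos0 : 0 < jj 0 := by
  unfold jj
  have hc : Continuous (fun z : E3 => eta (0 - z) * eta z) :=
    (eta_cont.comp (continuous_const.sub continuous_id)).mul eta_cont
  rw [integral_pos_iff_support_of_nonneg (fun z => mul_nonneg (eta_nonneg _) (eta_nonneg _))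
    (int_jj 0)]
  apply IsOpen.measure_pos
  · exact hc.isOpen_support
  · refine ⟨0, ?_⟩
    rw [Function.mem_support]
    simp [eta_at_zero]

/-- the normalisation -/
def inv_c : ℝ := ∫ s in (0 : ℝ)..2, jj (s • e0)

lemma cont_line (w : E3) : Continuous (fun t : ℝ => jj (t • w)) :=
  jj_cont.comp (continuous_id.smul continuous_const)

lemma inv_c_pos : 0 < inv_c := by
  unfold inv_c
  apply intervalIntegral.integral_pos (by norm_num) (cont_line e0).continuousOn
  · intro s _; exact jj_nonneg _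
  · exact ⟨0, by norm_num, by simpa using jj_pos0⟩

/-- the kernel at scale one -/
def kk (w : E3) : ℝ := inv_c⁻¹ * ∫ t in (0 : ℝ)..1, jj (t • w)

lemma int_line (w : E3) {a b : ℝ} : IntervalIntegrable (fun t : ℝ => jj (t • w)) volume a b :=
  (cont_line w).intervalIntegrable _ _

lemma kk_nonneg (w : E3) : 0 ≤ kk w := by
  unfold kk
  apply mul_nonneg (inv_nonneg.2 inv_c_pos.le)
  apply intervalIntegral.integral_nonneg (by norm_num)
  intro t _; exact jj_nonneg _

lemma kk_neg (w : E3) : kk (-w) = kk w := by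
  unfold kk
  congr 1
  congr 1
  ext t
  apply jj_radial
  rw [smul_neg, norm_neg]

lemma kk_le (w : E3) : kk w ≤ inv_c⁻¹ * mass := by
  unfold kk
  apply mul_le_mul_of_nonneg_left _ (inv_nonneg.2 inv_c_pos.le)
  have := intervalIntegral.integral_mono_on (a := (0 : ℝ)) (b := 1) (by norm_num) (int_line w)
    (intervalIntegrable_const (c := mass)) (fun t _ => jj_le (t • w))
  simpa using this

lemma kk_lip (w w' : E3) : |kk w - kk w'| ≤ inv_c⁻¹ * (4 * mass) * ‖w - w'‖ := by
  unfold kk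
  rw [← mul_sub, abs_mul, abs_of_pos (inv_pos.2 inv_c_pos), mul_assoc]
  apply mul_le_mul_of_nonneg_left _ (inv_nonneg.2 inv_c_pos.le)
  rw [← intervalIntegral.integral_sub (int_line w) (int_line w')]
  have h1 : ∀ t ∈ Set.uIoc (0 : ℝ) 1, ‖jj (t • w) - jj (t • w')‖ ≤ 4 * mass * ‖w - w'‖ := by
    intro t ht
    rw [Set.uIoc_of_le (by norm_num)] at ht
    rw [Real.norm_eq_abs]
    refine (jj_lip _ _).trans ?_
    rw [← smul_sub, norm_smul, Real.norm_eq_abs, abs_of_pos ht.1]
    have hm := mass_nonneg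
    have hn := norm_nonneg (w - w')
    have : t * ‖w - w'‖ ≤ 1 * ‖w - w'‖ := mul_le_mul_of_nonneg_right ht.2 hn
    have h4 : 0 ≤ 4 * mass := by linarith
    nlinarith
  have h2 := intervalIntegral.norm_integral_le_of_norm_le_const h1
  rw [Real.norm_eq_abs] at h2
  simpa using h2

lemma kk_formula {w : E3} (hw : w ≠ 0) :
    kk w = ‖w‖⁻¹ * (inv_c⁻¹ * ∫ s in (0 : ℝ)..‖w‖, jj (s • e0)) := by
  unfold kk
  have h1 : (∫ t in (0 : ℝ)..1, jj (t • w)) = ∫ t in (0 : ℝ)..1, jj ((t * ‖w‖) • e0) := by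
    congr 1; ext t; exact jj_smul_eq w t
  rw [h1, intervalIntegral.integral_comp_mul_right (fun s : ℝ => jj (s • e0))
    (norm_ne_zero_iff.2 hw)]
  simp only [zero_mul, one_mul, smul_eq_mul]
  ring

lemma kk_le_inv {w : E3} (hw : w ≠ 0) : kk w ≤ ‖w‖⁻¹ := by
  rw [kk_formula hw]
  have hpos : 0 < ‖w‖ := norm_pos_iff.2 hw
  have h1 : ∫ s in (0 : ℝ)..‖w‖, jj (s • e0) ≤ inv_c := by
    unfold inv_c
    rcases le_total ‖w‖ 2 with h | h
    · apply intervalIntegral.integral_mono_interval le_rfl hpos.le h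
      · filter_upwards with s; exact jj_nonneg _
      · exact int_line e0
    · rw [← intervalIntegral.integral_add_adjacent_intervals (int_line e0 (a := 0) (b := 2))
        (int_line e0 (a := 2) (b := ‖w‖))]
      have : ∫ s in (2 : ℝ)..‖w‖, jj (s • e0) = 0 := by
        rw [intervalIntegral.integral_congr (g := fun _ => (0 : ℝ))]
        · simp
        · intro s hs
          rw [Set.uIcc_of_le h] at hs
          apply jj_zero
          rw [norm_smul, norm_e0, mul_one, Real.norm_eq_abs]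
          exact hs.1.trans (le_abs_self s)
      linarith
  calc ‖w‖⁻¹ * (inv_c⁻¹ * ∫ s in (0 : ℝ)..‖w‖, jj (s • e0))
      ≤ ‖w‖⁻¹ * (inv_c⁻¹ * inv_c) := by
        apply mul_le_mul_of_nonneg_left _ (inv_nonneg.2 hpos.le)
        exact mul_le_mul_of_nonneg_left h1 (inv_nonneg.2 inv_c_pos.le)
    _ = ‖w‖⁻¹ := by rw [inv_mul_cancel₀ inv_c_pos.ne', mul_one]

lemma kk_eq_inv {w : E3} (h : 2 ≤ ‖w‖) : kk w = ‖w‖⁻¹ := by
  have hw : w ≠ 0 := by
    intro h0; rw [h0, norm_zero] at h; linarith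
  rw [kk_formula hw]
  have h1 : ∫ s in (0 : ℝ)..‖w‖, jj (s • e0) = inv_c := by
    unfold inv_c
    rw [← intervalIntegral.integral_add_adjacent_intervals (int_line e0 (a := 0) (b := 2))
        (int_line e0 (a := 2) (b := ‖w‖))]
    have : ∫ s in (2 : ℝ)..‖w‖, jj (s • e0) = 0 := by
      rw [intervalIntegral.integral_congr (g := fun _ => (0 : ℝ))]
      · simp
      · intro s hs
        rw [Set.uIcc_of_le h] at hs
        apply jj_zero
        rw [norm_smul, norm_e0, mul_one, Real.norm_eq_abs]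
        exact hs.1.trans (le_abs_self s)
    linarith
  rw [h1, inv_mul_cancel₀ inv_c_pos.ne', mul_one]

/-- the quadratic form as an integral of squares -/
lemma quad_jj {n : Type} [Fintype n] (q : n → ℝ) (a : n → E3) :
    ∑ i, ∑ j, q i * q j * jj (a i - a j) = ∫ z : E3, (∑ i, q i * eta (a i - z)) ^ 2 := by
  have h1 : (fun z : E3 => (∑ i, q i * eta (a i - z)) ^ 2)
      = fun z => ∑ i, ∑ j, q i * q j * (eta (a i - z) * eta (a j - z)) := by
    ext z
    rw [sq, Finset.sum_mul_sum]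
    apply Finset.sum_congr rfl; intro i _
    apply Finset.sum_congr rfl; intro j _
    ring
  rw [h1, integral_finsetSum]
  · apply Finset.sum_congr rfl; intro i _
    rw [integral_finsetSum]
    · apply Finset.sum_congr rfl; intro j _
      rw [integral_const_mul, jj_sub]
    · intro j _; exact (int_prod _ _).const_mul _
  · intro i _
    apply integrable_finsetSum; intro j _; exact (int_prod _ _).const_mul _

lemma quad_kk {n : Type} [Fintype n] (q : n → ℝ) (x : n → E3) :
    ∑ i, ∑ j, q i * q j * kk (x i - x j)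
      = inv_c⁻¹ * ∫ t in (0 : ℝ)..1, ∑ i, ∑ j, q i * q j * jj (t • x i - t • x j) := by
  have h1 : ∀ i j, IntervalIntegrable (fun t : ℝ => q i * q j * jj (t • x i - t • x j))
      volume 0 1 := by
    intro i j
    apply Continuous.intervalIntegrable
    apply continuous_const.mul
    apply jj_cont.comp
    exact (continuous_id.smul continuous_const).sub (continuous_id.smul continuous_const)
  rw [intervalIntegral.integral_finsetSum]
  · rw [Finset.mul_sum]
    apply Finset.sum_congr rfl; intro i _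
    rw [intervalIntegral.integral_finsetSum (fun j _ => h1 i j), Finset.mul_sum]
    apply Finset.sum_congr rfl; intro j _
    rw [intervalIntegral.integral_const_mul]
    unfold kk
    simp only [smul_sub]
    ring
  · intro i _
    apply Continuous.intervalIntegrable
    apply continuous_finsetSum; intro j _
    apply continuous_const.mul
    apply jj_cont.comp
    exact (continuous_id.smul continuous_const).sub (continuous_id.smul continuous_const)

/-- volume of the ball of radius two -/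
def vv : ℝ := (volume (Metric.closedBall (0 : E3) 2)).toReal

lemma quad_bound {n : Type} [Fintype n] (q : n → ℝ) (x : n → E3) (z : E3)
    (hq : ∑ i, q i = 0) (hx : ∀ i, ‖x i - z‖ ≤ 1) (t : ℝ) (ht0 : 0 ≤ t) (ht1 : t ≤ 1) :
    ∑ i, ∑ j, q i * q j * jj (t • x i - t • x j)
      ≤ vv * (2 * 27 ^ 2 * (‖∑ i, q i • (x i - z)‖ ^ 2 + (∑ i, |q i| * ‖x i - z‖ ^ 2) ^ 2)) := by
  rw [quad_jj]
  set p := ∑ i, q i • (x i - z) with hp
  set S := ∑ i, |q i| * ‖x i - z‖ ^ 2 with hS
  have hS0 : 0 ≤ S := Finset.sum_nonneg fun i _ => by positivity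
  set M := 2 * 27 ^ 2 * (‖p‖ ^ 2 + S ^ 2) with hM
  have hM0 : 0 ≤ M := by positivity
  -- pointwise bound
  have hpt : ∀ y : E3, |∑ i, q i * eta (t • x i - y)| ≤ 27 * ‖p‖ + 27 * S := by
    intro y
    set u := t • z - y with hu
    have hsum : ∑ i, q i * eta (t • x i - y)
        = (∑ i, q i * (eta (u + t • (x i - z)) - eta u
            + 4 * max 0 (1 - ‖u‖ ^ 2) * inner ℝ u (t • (x i - z))))
          - 4 * max 0 (1 - ‖u‖ ^ 2) * inner ℝ u (t • p) := by
      have h1 : ∀ i, t • x i - y = u + t • (x i - z) := by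
        intro i; rw [hu, smul_sub]; abel
      have h2 : inner ℝ u (t • p) = ∑ i, q i * inner ℝ u (t • (x i - z)) := by
        rw [hp, Finset.smul_sum, inner_sum]
        apply Finset.sum_congr rfl; intro i _
        rw [smul_comm, inner_smul_right]
      rw [h2, Finset.mul_sum, ← Finset.sum_sub_distrib]
      have h3 : ∑ i, q i * eta (t • x i - y)
          = ∑ i, (q i * eta (t • x i - y) - q i * eta u) := by
        rw [Finset.sum_sub_distrib, ← Finset.sum_mul, hq]; ring
      rw [h3]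
      apply Finset.sum_congr rfl; intro i _
      rw [h1 i]; ring
    rw [hsum]
    have hA : |∑ i, q i * (eta (u + t • (x i - z)) - eta u
            + 4 * max 0 (1 - ‖u‖ ^ 2) * inner ℝ u (t • (x i - z)))| ≤ 27 * S := by
      refine (Finset.abs_sum_le_sum_abs _ _).trans ?_
      rw [hS, Finset.mul_sum]
      apply Finset.sum_le_sum; intro i _
      rw [abs_mul]
      have hn : ‖t • (x i - z)‖ ≤ ‖x i - z‖ := by
        rw [norm_smul, Real.norm_eq_abs, abs_of_nonneg ht0]
        have := norm_nonneg (x i - z)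
        nlinarith
      have h1 := eta_taylor u (t • (x i - z)) (hn.trans (hx i))
      have h2 : 27 * ‖t • (x i - z)‖ ^ 2 ≤ 27 * ‖x i - z‖ ^ 2 := by
        have := norm_nonneg (t • (x i - z))
        nlinarith
      calc |q i| * |eta (u + t • (x i - z)) - eta u
            + 4 * max 0 (1 - ‖u‖ ^ 2) * inner ℝ u (t • (x i - z))|
          ≤ |q i| * (27 * ‖x i - z‖ ^ 2) :=
            mul_le_mul_of_nonneg_left (h1.trans h2) (abs_nonneg _)
        _ = 27 * (|q i| * ‖x i - z‖ ^ 2) := by ring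
    have hB : |4 * max 0 (1 - ‖u‖ ^ 2) * inner ℝ u (t • p)| ≤ 27 * ‖p‖ := by
      rcases le_total 1 ‖u‖ with hu1 | hu1
      · rw [max_eq_left (by nlinarith)]
        simp
      · have ha0 : 0 ≤ max 0 (1 - ‖u‖ ^ 2) := le_max_left _ _
        have ha1 : max 0 (1 - ‖u‖ ^ 2) ≤ 1 :=
          max_le zero_le_one (by nlinarith [sq_nonneg ‖u‖])
        have hi : |inner ℝ u (t • p)| ≤ ‖p‖ := by
          refine (abs_real_inner_le_norm _ _).trans ?_
          rw [norm_smul, Real.norm_eq_abs, abs_of_nonneg ht0]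
          have h1 := norm_nonneg p
          have h2 : t * ‖p‖ ≤ ‖p‖ := by nlinarith
          have h3 : 0 ≤ t * ‖p‖ := by positivity
          nlinarith [norm_nonneg u]
        rw [abs_mul, abs_of_nonneg (by positivity : 0 ≤ 4 * max 0 (1 - ‖u‖ ^ 2))]
        have := abs_nonneg (inner ℝ u (t • p))
        nlinarith [norm_nonneg p]
    calc |(∑ i, q i * (eta (u + t • (x i - z)) - eta u
            + 4 * max 0 (1 - ‖u‖ ^ 2) * inner ℝ u (t • (x i - z))))
          - 4 * max 0 (1 - ‖u‖ ^ 2) * inner ℝ u (t • p)|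
        ≤ _ := abs_sub _ _
      _ ≤ 27 * S + 27 * ‖p‖ := add_le_add hA hB
      _ = 27 * ‖p‖ + 27 * S := by ring
  -- support
  have hsupp : ∀ y : E3, y ∉ Metric.closedBall (t • z) 2 → ∑ i, q i * eta (t • x i - y) = 0 := by
    intro y hy
    rw [Metric.mem_closedBall, not_le, dist_eq_norm, norm_sub_rev] at hy
    apply Finset.sum_eq_zero
    intro i _
    rw [eta_zero, mul_zero]
    have h1 : t • z - y = (t • x i - y) - t • (x i - z) := by rw [smul_sub]; abel
    have h2 : ‖t • (x i - z)‖ ≤ 1 := by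
      rw [norm_smul, Real.norm_eq_abs, abs_of_nonneg ht0]
      have := hx i
      have := norm_nonneg (x i - z)
      nlinarith
    rw [h1] at hy
    have h3 := norm_sub_le (t • x i - y) (t • (x i - z))
    linarith
  have hsq : ∀ y : E3, (∑ i, q i * eta (t • x i - y)) ^ 2
      ≤ (Metric.closedBall (t • z) 2).indicator (fun _ => M) y := by
    intro y
    by_cases hy : y ∈ Metric.closedBall (t • z) 2
    · rw [Set.indicator_of_mem hy]
      rw [← sq_abs]
      have h1 := hpt y
      have h2 : |∑ i, q i * eta (t • x i - y)| ^ 2 ≤ (27 * ‖p‖ + 27 * S) ^ 2 :=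
        pow_le_pow_left₀ (abs_nonneg _) h1 2
      refine h2.trans ?_
      rw [hM]
      nlinarith [sq_nonneg (‖p‖ - S)]
    · rw [Set.indicator_of_notMem hy, hsupp y hy]; norm_num
  have hint : Integrable ((Metric.closedBall (t • z) 2).indicator (fun _ => M) : E3 → ℝ) :=
    (integrable_indicator_iff Metric.isClosed_closedBall.measurableSet).2
      (integrableOn_const (by exact (isCompact_closedBall _ _).measure_lt_top.ne))
  have hmono : ∫ y : E3, (∑ i, q i * eta (t • x i - y)) ^ 2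
      ≤ ∫ y : E3, (Metric.closedBall (t • z) 2).indicator (fun _ => M) y := by
    apply integral_mono_of_nonneg
    · filter_upwards with y; positivity
    · exact hint
    · filter_upwards with y; exact hsq y
  refine hmono.trans ?_
  rw [integral_indicator Metric.isClosed_closedBall.measurableSet, setIntegral_const,
    smul_eq_mul]
  have hv : (volume : Measure E3).real (Metric.closedBall (t • z) 2) = vv := by
    unfold vv Measure.real
    congr 1
    have := Measure.addHaar_closedBall_center (volume : Measure E3) (t • z) 2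
    exact this
  rw [hv]

end Kern

open Kern in
theorem p_ker : S_ker := by
  set A := inv_c⁻¹ with hA
  have hA0 : 0 < A := inv_pos.2 inv_c_pos
  have hm := mass_nonneg
  have hv : 0 ≤ vv := ENNReal.toReal_nonneg
  set C := 1 + A * mass + A * (4 * mass) + A * (vv * (2 * 27 ^ 2)) with hC
  have hC1 : 0 ≤ A * mass := by positivity
  have hC2 : 0 ≤ A * (4 * mass) := by positivity
  have hC3 : 0 ≤ A * (vv * (2 * 27 ^ 2)) := by positivity
  refine ⟨C, by linarith, ?_⟩
  intro r hr
  refine ⟨fun x y => r⁻¹ * kk (r⁻¹ • (x - y)), ?_⟩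
  have hri : 0 < r⁻¹ := inv_pos.2 hr
  have hnorm : ∀ v : E3, ‖r⁻¹ • v‖ = r⁻¹ * ‖v‖ := by
    intro v; rw [norm_smul, Real.norm_eq_abs, abs_of_pos hri]
  constructor
  · intro x y
    show r⁻¹ * kk (r⁻¹ • (x - y)) = r⁻¹ * kk (r⁻¹ • (y - x))
    rw [← kk_neg, ← smul_neg, neg_sub]
  · intro x y
    exact mul_nonneg hri.le (kk_nonneg _)
  · intro x y
    show r⁻¹ * kk (r⁻¹ • (x - y)) ≤ C / r
    have h1 := kk_le (r⁻¹ • (x - y))
    rw [div_eq_inv_mul]
    apply mul_le_mul_of_nonneg_left _ hri.le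
    linarith
  · intro x y hxy
    show r⁻¹ * kk (r⁻¹ • (x - y)) ≤ cou x y
    have h0 : r⁻¹ • (x - y) ≠ 0 := smul_ne_zero hri.ne' (sub_ne_zero.2 hxy)
    have h1 := kk_le_inv h0
    rw [hnorm, mul_inv, inv_inv] at h1
    unfold cou
    calc r⁻¹ * kk (r⁻¹ • (x - y)) ≤ r⁻¹ * (r * ‖x - y‖⁻¹) :=
          mul_le_mul_of_nonneg_left h1 hri.le
      _ = ‖x - y‖⁻¹ := by rw [← mul_assoc, inv_mul_cancel₀ hr.ne', one_mul]
  · intro x y hxy
    show r⁻¹ * kk (r⁻¹ • (x - y)) = cou x y
    have h0 : 2 ≤ ‖r⁻¹ • (x - y)‖ := by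
      rw [hnorm, inv_mul_eq_div, le_div_iff₀ hr]; exact hxy
    rw [kk_eq_inv h0, hnorm, mul_inv, inv_inv, ← mul_assoc, inv_mul_cancel₀ hr.ne', one_mul]
    rfl
  · intro x x' y
    show |r⁻¹ * kk (r⁻¹ • (x - y)) - r⁻¹ * kk (r⁻¹ • (x' - y))| ≤ C * ‖x - x'‖ / r ^ 2
    rw [← mul_sub, abs_mul, abs_of_pos hri]
    have h1 := kk_lip (r⁻¹ • (x - y)) (r⁻¹ • (x' - y))
    rw [← smul_sub, show x - y - (x' - y) = x - x' by abel, hnorm] at h1
    have hn := norm_nonneg (x - x')
    calc r⁻¹ * |kk (r⁻¹ • (x - y)) - kk (r⁻¹ • (x' - y))|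
        ≤ r⁻¹ * (A * (4 * mass) * (r⁻¹ * ‖x - x'‖)) := mul_le_mul_of_nonneg_left h1 hri.le
      _ ≤ r⁻¹ * (C * (r⁻¹ * ‖x - x'‖)) := by
          apply mul_le_mul_of_nonneg_left _ hri.le
          apply mul_le_mul_of_nonneg_right _ (by positivity)
          linarith
      _ = C * ‖x - x'‖ / r ^ 2 := by field_simp
  · intro n _ q x
    have h1 : ∑ i, ∑ j, q i * q j * (r⁻¹ * kk (r⁻¹ • (x i - x j)))
        = r⁻¹ * ∑ i, ∑ j, q i * q j * kk (r⁻¹ • x i - r⁻¹ • x j) := by
      rw [Finset.mul_sum]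
      apply Finset.sum_congr rfl; intro i _
      rw [Finset.mul_sum]
      apply Finset.sum_congr rfl; intro j _
      rw [smul_sub]; ring
    show 0 ≤ ∑ i, ∑ j, q i * q j * (r⁻¹ * kk (r⁻¹ • (x i - x j)))
    rw [h1, quad_kk]
    apply mul_nonneg hri.le
    apply mul_nonneg hA0.le
    apply intervalIntegral.integral_nonneg (by norm_num)
    intro t _
    rw [quad_jj]
    exact integral_nonneg fun z => sq_nonneg _
  · intro n _ q x z hq hx
    have h1 : ∑ i, ∑ j, q i * q j * (r⁻¹ * kk (r⁻¹ • (x i - x j)))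
        = r⁻¹ * ∑ i, ∑ j, q i * q j * kk (r⁻¹ • x i - r⁻¹ • x j) := by
      rw [Finset.mul_sum]
      apply Finset.sum_congr rfl; intro i _
      rw [Finset.mul_sum]
      apply Finset.sum_congr rfl; intro j _
      rw [smul_sub]; ring
    show ∑ i, ∑ j, q i * q j * (r⁻¹ * kk (r⁻¹ • (x i - x j))) ≤ _
    rw [h1, quad_kk]
    set p := ∑ i, q i • (x i - z) with hp
    set S := ∑ i, |q i| * ‖x i - z‖ ^ 2 with hS
    have hx' : ∀ i, ‖r⁻¹ • x i - r⁻¹ • z‖ ≤ 1 := by
      intro i
      rw [← smul_sub, hnorm, inv_mul_eq_div, div_le_one hr]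
      exact hx i
    have hp' : ∑ i, q i • (r⁻¹ • x i - r⁻¹ • z) = r⁻¹ • p := by
      rw [hp, Finset.smul_sum]
      apply Finset.sum_congr rfl; intro i _
      rw [← smul_sub, smul_comm]
    have hS' : ∑ i, |q i| * ‖r⁻¹ • x i - r⁻¹ • z‖ ^ 2 = r⁻¹ ^ 2 * S := by
      rw [hS, Finset.mul_sum]
      apply Finset.sum_congr rfl; intro i _
      rw [← smul_sub, hnorm]; ring
    have h2 : ∀ t ∈ Set.Icc (0 : ℝ) 1,
        ∑ i, ∑ j, q i * q j * jj (t • (r⁻¹ • x i) - t • (r⁻¹ • x j))
          ≤ vv * (2 * 27 ^ 2 * ((r⁻¹ * ‖p‖) ^ 2 + (r⁻¹ ^ 2 * S) ^ 2)) := by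
      intro t ht
      have h3 := quad_bound q (fun i => r⁻¹ • x i) (r⁻¹ • z) hq hx' t ht.1 ht.2
      rw [hp', hS', hnorm] at h3
      exact h3
    have hcont : Continuous (fun t : ℝ =>
        ∑ i, ∑ j, q i * q j * jj (t • (r⁻¹ • x i) - t • (r⁻¹ • x j))) := by
      apply continuous_finsetSum; intro i _
      apply continuous_finsetSum; intro j _
      apply continuous_const.mul
      apply jj_cont.comp
      exact (continuous_id.smul continuous_const).sub (continuous_id.smul continuous_const)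
    have h4 := intervalIntegral.integral_mono_on (a := (0 : ℝ)) (b := 1) (by norm_num)
      (hcont.intervalIntegrable (μ := volume) _ _) (intervalIntegrable_const (μ := volume)
        (c := vv * (2 * 27 ^ 2 * ((r⁻¹ * ‖p‖) ^ 2 + (r⁻¹ ^ 2 * S) ^ 2)))) h2
    rw [intervalIntegral.integral_const, sub_zero, one_smul] at h4
    calc r⁻¹ * (inv_c⁻¹ * ∫ t in (0 : ℝ)..1,
          ∑ i, ∑ j, q i * q j * jj (t • (r⁻¹ • x i) - t • (r⁻¹ • x j)))
        ≤ r⁻¹ * (A * (vv * (2 * 27 ^ 2 * ((r⁻¹ * ‖p‖) ^ 2 + (r⁻¹ ^ 2 * S) ^ 2)))) := by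
          apply mul_le_mul_of_nonneg_left _ hri.le
          exact mul_le_mul_of_nonneg_left h4 hA0.le
      _ = A * (vv * (2 * 27 ^ 2)) * (‖p‖ ^ 2 / r ^ 3 + S ^ 2 / r ^ 5) := by
          field_simp
      _ ≤ C * (‖p‖ ^ 2 / r ^ 3 + S ^ 2 / r ^ 5) := by
          apply mul_le_mul_of_nonneg_right _ (by positivity)
          linarith

end MolDis
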