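import Pool.Agent.Lib.MP_59f35a_mp.Stmts3

/-!
# MP_59f35a_mp, piece G1: lattice sums
-/

set_option autoImplicit false

noncomputable section

open MeasureTheory Finset

namespace MolDis

namespace Lat

/-- sup norm of an integer vector -/
def nn (k : Fin 3 → ℤ) : ℕ := Finset.univ.sup (fun t => (k t).natAbs)

/-- integer vectors in space -/
def w (k : Fin 3 → ℤ) : E3 := WithLp.toLp 2 (fun t => (k t : ℝ))

theorem natAbs_le_nn (k : Fin 3 → ℤ) (t : Fin 3) : (k t).natAbs ≤ nn k :=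
  Finset.le_sup (f := fun t => (k t).natAbs) (Finset.mem_univ t)

theorem exists_nn (k : Fin 3 → ℤ) : ∃ t, nn k = (k t).natAbs := by
  obtain ⟨t, -, ht⟩ := Finset.exists_mem_eq_sup (Finset.univ : Finset (Fin 3))
    Finset.univ_nonempty (fun t => (k t).natAbs)
  exact ⟨t, ht⟩

theorem nn_le_iff (k : Fin 3 → ℤ) (s : ℕ) : nn k ≤ s ↔ ∀ t, (k t).natAbs ≤ s := by
  unfold nn
  rw [Finset.sup_le_iff]
  simp

theorem nn_zero_iff (k : Fin 3 → ℤ) : nn k = 0 ↔ k = 0 := by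
  rw [← Nat.le_zero, nn_le_iff]
  constructor
  · intro h
    funext t
    have := h t
    simpa using this
  · rintro rfl t
    simp

theorem nn_le_norm (k : Fin 3 → ℤ) : (nn k : ℝ) ≤ ‖w k‖ := by
  obtain ⟨t, ht⟩ := exists_nn k
  have h1 := PiLp.norm_apply_le (w k) t
  have h2 : ‖(w k) t‖ = (nn k : ℝ) := by
    rw [ht]
    show |((k t : ℤ) : ℝ)| = _
    rw [Nat.cast_natAbs, Int.cast_abs]
  rw [h2] at h1
  exact h1

theorem shell_card (S : Finset (Fin 3 → ℤ)) {s : ℕ} (hs : 1 ≤ s) :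
    ((S.filter fun k => nn k = s).card : ℝ) ≤ 54 * (s : ℝ) ^ 2 := by
  classical
  have hsub : (S.filter fun k => nn k = s) ⊆ (Finset.univ : Finset (Fin 3)).biUnion
      (fun t => Fintype.piFinset (fun u => if u = t then ({-(s : ℤ), (s : ℤ)} : Finset ℤ)
        else Finset.Icc (-(s : ℤ)) s)) := by
    intro k hk
    rw [Finset.mem_filter] at hk
    obtain ⟨t, ht⟩ := exists_nn k
    rw [Finset.mem_biUnion]
    refine ⟨t, Finset.mem_univ t, ?_⟩
    rw [Fintype.mem_piFinset]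
    intro u
    have h1 := natAbs_le_nn k u
    rw [hk.2] at h1
    split_ifs with hu
    · subst hu
      rw [Finset.mem_insert, Finset.mem_singleton]
      omega
    · rw [Finset.mem_Icc]
      omega
  have hcard : ∀ t : Fin 3, (Fintype.piFinset (fun u : Fin 3 => if u = t then
      ({-(s : ℤ), (s : ℤ)} : Finset ℤ) else Finset.Icc (-(s : ℤ)) s)).card ≤
        2 * (2 * s + 1) ^ 2 := by
    intro t
    rw [Fintype.card_piFinset]
    have h2 : ({-(s : ℤ), (s : ℤ)} : Finset ℤ).card ≤ 2 := Finset.card_le_two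
    have h3 : (Finset.Icc (-(s : ℤ)) s).card = 2 * s + 1 := by
      rw [Int.card_Icc]; omega
    fin_cases t
    all_goals
      simp [Fin.prod_univ_three, h3]
      nlinarith [h2]
  have h4 : (S.filter fun k => nn k = s).card ≤ 3 * (2 * (2 * s + 1) ^ 2) := by
    refine (Finset.card_le_card hsub).trans ?_
    refine Finset.card_biUnion_le.trans ?_
    refine (Finset.sum_le_sum fun t _ => hcard t).trans ?_
    simp
  have h5 : (1 : ℝ) ≤ s := by exact_mod_cast hs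
  calc ((S.filter fun k => nn k = s).card : ℝ) ≤ ((3 * (2 * (2 * s + 1) ^ 2) : ℕ) : ℝ) := by
        exact_mod_cast h4
    _ ≤ 54 * (s : ℝ) ^ 2 := by push_cast; nlinarith

theorem sum_shell (S : Finset (Fin 3 → ℤ)) (g : ℕ → ℝ) (hg : ∀ s, 0 ≤ g s) {a b : ℕ}
    (ha : 1 ≤ a) (hS : ∀ k ∈ S, nn k ∈ Finset.Icc a b) :
    ∑ k ∈ S, g (nn k) ≤ 54 * ∑ s ∈ Finset.Icc a b, (s : ℝ) ^ 2 * g s := by
  rw [← Finset.sum_fiberwise_of_maps_to hS, Finset.mul_sum]
  refine Finset.sum_le_sum fun s hs => ?_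
  rw [Finset.mem_Icc] at hs
  calc ∑ k ∈ S.filter (fun k => nn k = s), g (nn k) = ∑ k ∈ S.filter (fun k => nn k = s), g s :=
        Finset.sum_congr rfl fun k hk => by rw [(Finset.mem_filter.1 hk).2]
    _ = ((S.filter fun k => nn k = s).card : ℝ) * g s := by
        rw [Finset.sum_const, nsmul_eq_mul]
    _ ≤ (54 * (s : ℝ) ^ 2) * g s :=
        mul_le_mul_of_nonneg_right (shell_card S (ha.trans hs.1)) (hg s)
    _ = _ := by ring

/-! ### positions -/

variable {K : ℕ}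

/-- difference of two sites -/
def df (i j : Fin 3 → Fin (2 * K + 1)) : Fin 3 → ℤ := fun t => ((i t : ℕ) : ℤ) - ((j t : ℕ) : ℤ)

theorem df_inj (i : Fin 3 → Fin (2 * K + 1)) : Function.Injective (df i) := by
  intro j j' h
  funext t
  have h1 := congrFun h t
  unfold df at h1
  apply Fin.ext
  omega

theorem df_zero {i j : Fin 3 → Fin (2 * K + 1)} : df i j = 0 ↔ j = i := by
  constructor
  · intro h
    apply df_inj i
    rw [h]
    funext t
    simp [df]
  · rintro rfl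
    funext t
    simp [df]

theorem nn_df_le (i j : Fin 3 → Fin (2 * K + 1)) : nn (df i j) ≤ 2 * K := by
  rw [nn_le_iff]
  intro t
  unfold df
  have h1 := (i t).2
  have h2 := (j t).2
  omega

theorem nn_df_pos {i j : Fin 3 → Fin (2 * K + 1)} (h : j ≠ i) : 1 ≤ nn (df i j) := by
  by_contra h1
  have h2 : nn (df i j) = 0 := by omega
  rw [nn_zero_iff, df_zero] at h2
  exact h h2

theorem pos_sub (d : ℝ) (i j : Fin 3 → Fin (2 * K + 1)) :
    zpos K d i - zpos K d j = d • w (df i j) := by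
  unfold zpos w df
  rw [← WithLp.toLp_sub, ← WithLp.toLp_smul]
  congr 1
  funext t
  simp only [Pi.sub_apply, Pi.smul_apply, smul_eq_mul]
  push_cast
  ring

theorem norm_pos_sub {d : ℝ} (hd : 0 < d) (i j : Fin 3 → Fin (2 * K + 1)) :
    ‖zpos K d i - zpos K d j‖ = d * ‖w (df i j)‖ := by
  rw [pos_sub, norm_smul, Real.norm_of_nonneg hd.le]

theorem pos_sum (i : Fin 3 → Fin (2 * K + 1)) (F : (Fin 3 → ℤ) → ℝ) (g : ℕ → ℝ)
    (hg : ∀ s, 0 ≤ g s) (hF : ∀ k, k ≠ 0 → F k ≤ g (nn k)) :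
    (∑ j, if j = i then 0 else F (df i j)) ≤
      54 * ∑ s ∈ Finset.Icc 1 (2 * K), (s : ℝ) ^ 2 * g s := by
  classical
  have h1 : (∑ j, if j = i then 0 else F (df i j)) ≤
      ∑ k ∈ (Finset.univ.erase i).image (df i), g (nn k) := by
    rw [Finset.sum_image (fun a _ b _ h => df_inj i h),
      ← Finset.add_sum_erase _ _ (Finset.mem_univ i), if_pos rfl, zero_add]
    refine Finset.sum_le_sum fun j hj => ?_
    have hj' : j ≠ i := Finset.ne_of_mem_erase hj
    rw [if_neg hj']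
    exact hF _ (fun h => hj' (df_zero.1 h))
  refine h1.trans (sum_shell _ g hg le_rfl ?_)
  intro k hk
  rw [Finset.mem_image] at hk
  obtain ⟨j, hj, rfl⟩ := hk
  rw [Finset.mem_Icc]
  exact ⟨nn_df_pos (Finset.ne_of_mem_erase hj), nn_df_le i j⟩

theorem sum_inv_sq (n : ℕ) : ∑ s ∈ Finset.Icc 1 n, 1 / (s : ℝ) ^ 2 ≤ 2 := by
  have h : ∀ n : ℕ, ∑ s ∈ Finset.Icc 1 n, 1 / (s : ℝ) ^ 2 ≤ 2 - 2 / ((n : ℝ) + 1) := by
    intro n
    induction n with
    | zero => simp
    | succ n ih =>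
      rw [Finset.sum_Icc_succ_top (by omega)]
      have h0 : (0 : ℝ) < (n : ℝ) + 1 := by positivity
      have hn0 : (0 : ℝ) ≤ n := Nat.cast_nonneg n
      have h1 : 1 / (((n + 1 : ℕ) : ℝ)) ^ 2 ≤ 2 / ((n : ℝ) + 1) - 2 / (((n + 1 : ℕ) : ℝ) + 1) := by
        push_cast
        rw [div_sub_div _ _ h0.ne' (by positivity), div_le_div_iff₀ (by positivity) (by positivity)]
        nlinarith [mul_nonneg hn0 hn0, mul_nonneg (mul_nonneg hn0 hn0) hn0]
      linarith
  have := h n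
  have h2 : 0 ≤ 2 / ((n : ℝ) + 1) := by positivity
  linarith

theorem sum_inv_sqrt (n : ℕ) : ∑ s ∈ Finset.Icc 1 n, 1 / Real.sqrt s ≤ 2 * Real.sqrt n := by
  induction n with
  | zero => simp
  | succ n ih =>
    rw [Finset.sum_Icc_succ_top (by omega)]
    have h1 : 0 < Real.sqrt ((n + 1 : ℕ) : ℝ) := Real.sqrt_pos.2 (by positivity)
    have h2 : 1 / Real.sqrt ((n + 1 : ℕ) : ℝ) ≤
        2 * Real.sqrt ((n + 1 : ℕ) : ℝ) - 2 * Real.sqrt n := by
      rw [div_le_iff₀ h1]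
      have h3 : Real.sqrt ((n + 1 : ℕ) : ℝ) ^ 2 = n + 1 := by
        rw [Real.sq_sqrt (by positivity)]; push_cast; ring
      have h4 : Real.sqrt n ^ 2 = n := Real.sq_sqrt (by positivity)
      nlinarith [sq_nonneg (Real.sqrt ((n + 1 : ℕ) : ℝ) - Real.sqrt n), Real.sqrt_nonneg n]
    linarith

theorem sum_inv_log (n : ℕ) :
    ∑ s ∈ Finset.Icc 1 (2 * n), 1 / (s : ℝ) ≤ 8 * Real.sqrt (Real.sqrt n) := by
  have h1 : ∀ m : ℕ, ∑ s ∈ Finset.Icc 1 m, 1 / (s : ℝ) ≤ 4 * Real.sqrt (Real.sqrt m) := by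
    intro m
    induction m with
    | zero => simp
    | succ m ih =>
      rw [Finset.sum_Icc_succ_top (by omega)]
      set x := Real.sqrt (Real.sqrt ((m + 1 : ℕ) : ℝ)) with hx
      set y := Real.sqrt (Real.sqrt (m : ℝ)) with hy
      have hx4 : x ^ 4 = m + 1 := by
        rw [hx, show (4 : ℕ) = 2 * 2 by norm_num, pow_mul, Real.sq_sqrt (Real.sqrt_nonneg _),
          Real.sq_sqrt (by positivity)]
        push_cast; ring
      have hy4 : y ^ 4 = m := by
        rw [hy, show (4 : ℕ) = 2 * 2 by norm_num, pow_mul, Real.sq_sqrt (Real.sqrt_nonneg _),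
          Real.sq_sqrt (by positivity)]
      have hx0 : 0 ≤ x := Real.sqrt_nonneg _
      have hy0 : 0 ≤ y := Real.sqrt_nonneg _
      have hyx : y ≤ x := Real.sqrt_le_sqrt (Real.sqrt_le_sqrt (by push_cast; linarith))
      have hx1 : 1 ≤ x := by
        by_contra h
        push Not at h
        have : x ^ 4 < 1 := pow_lt_one₀ hx0 h (by norm_num)
        rw [hx4] at this
        have h0 : (0 : ℝ) ≤ m := Nat.cast_nonneg m
        linarith
      have h2 : 1 / (((m + 1 : ℕ) : ℝ)) ≤ 4 * x - 4 * y := by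
        have h3 : (((m + 1 : ℕ) : ℝ)) = x ^ 4 := by rw [hx4]; push_cast; ring
        rw [h3, div_le_iff₀ (by positivity)]
        have h4 : 1 = (x - y) * ((x + y) * (x ^ 2 + y ^ 2)) := by
          have : (x - y) * ((x + y) * (x ^ 2 + y ^ 2)) = x ^ 4 - y ^ 4 := by ring
          rw [this, hx4, hy4]; ring
        have h5 : (x + y) * (x ^ 2 + y ^ 2) ≤ 4 * x ^ 4 := by
          have h6 : x + y ≤ 2 * x := by linarith
          have h7 : x ^ 2 + y ^ 2 ≤ 2 * x ^ 2 := by nlinarith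
          have h8 : (x + y) * (x ^ 2 + y ^ 2) ≤ (2 * x) * (2 * x ^ 2) :=
            mul_le_mul h6 h7 (by positivity) (by positivity)
          have h9 : x ^ 3 ≤ x ^ 4 := pow_le_pow_right₀ hx1 (by norm_num)
          nlinarith
        have h10 : 0 ≤ x - y := by linarith
        nlinarith [mul_le_mul_of_nonneg_left h5 h10]
      linarith
  refine (h1 (2 * n)).trans ?_
  have h2 : Real.sqrt (Real.sqrt ((2 * n : ℕ) : ℝ)) ≤ 2 * Real.sqrt (Real.sqrt n) := by
    have h3 : (2 : ℝ) * Real.sqrt (Real.sqrt n) = Real.sqrt (Real.sqrt (16 * n)) := by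
      rw [show (16 : ℝ) * n = (4 ^ 2) * n by ring, Real.sqrt_mul (by norm_num),
        Real.sqrt_sq (by norm_num), show (4 : ℝ) * Real.sqrt n = 2 ^ 2 * Real.sqrt n by ring,
        Real.sqrt_mul (by norm_num), Real.sqrt_sq (by norm_num)]
    rw [h3]
    apply Real.sqrt_le_sqrt
    apply Real.sqrt_le_sqrt
    push_cast
    have h0 : (0 : ℝ) ≤ n := Nat.cast_nonneg n
    linarith
  linarith

/-! ### symmetric cubes -/

/-- the symmetric cube without its centre -/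
def Q (t : ℕ) : Finset (Fin 3 → ℤ) :=
  (Fintype.piFinset (fun _ : Fin 3 => Finset.Icc (-(t : ℤ)) t)).erase 0

theorem mem_Q {t : ℕ} {k : Fin 3 → ℤ} : k ∈ Q t ↔ k ≠ 0 ∧ nn k ≤ t := by
  unfold Q
  rw [Finset.mem_erase, Fintype.mem_piFinset, nn_le_iff]
  refine and_congr_right fun _ => ⟨fun h u => ?_, fun h u => ?_⟩
  · have := h u
    rw [Finset.mem_Icc] at this
    omega
  · have := h u
    rw [Finset.mem_Icc]
    omega

theorem normSq_w (k : Fin 3 → ℤ) : ‖w k‖ ^ 2 = ∑ t, (k t : ℝ) ^ 2 := by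
  rw [EuclideanSpace.norm_sq_eq]
  refine Finset.sum_congr rfl fun t _ => ?_
  show ‖((k t : ℤ) : ℝ)‖ ^ 2 = _
  rw [Real.norm_eq_abs, sq_abs]

theorem norm_w_eq {k k' : Fin 3 → ℤ} (h : ∑ t, (k t : ℝ) ^ 2 = ∑ t, (k' t : ℝ) ^ 2) :
    ‖w k‖ = ‖w k'‖ := by
  have h1 : ‖w k‖ ^ 2 = ‖w k'‖ ^ 2 := by rw [normSq_w, normSq_w, h]
  exact (sq_eq_sq₀ (norm_nonneg _) (norm_nonneg _)).1 h1

/-- reflection of one coordinate -/
def rf (u : Fin 3) (k : Fin 3 → ℤ) : Fin 3 → ℤ := fun t => if t = u then -k t else k t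

theorem rf_rf (u : Fin 3) (k : Fin 3 → ℤ) : rf u (rf u k) = k := by
  funext t
  unfold rf
  split_ifs <;> simp

theorem rf_mem {t : ℕ} {u : Fin 3} {k : Fin 3 → ℤ} (h : k ∈ Q t) : rf u k ∈ Q t := by
  rw [mem_Q] at h ⊢
  refine ⟨fun h0 => h.1 ?_, ?_⟩
  · rw [← rf_rf u k, h0]
    funext s
    simp [rf]
  · rw [nn_le_iff]
    intro s
    have := (nn_le_iff k t).1 h.2 s
    unfold rf
    split_ifs
    · rw [Int.natAbs_neg]; exact this
    · exact this

theorem norm_rf (u : Fin 3) (k : Fin 3 → ℤ) : ‖w (rf u k)‖ = ‖w k‖ := by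
  apply norm_w_eq
  refine Finset.sum_congr rfl fun t _ => ?_
  unfold rf
  split_ifs <;> push_cast <;> ring

theorem off_diag (f : ℝ → ℝ) (t : ℕ) {u v : Fin 3} (huv : u ≠ v) :
    ∑ k ∈ Q t, f ‖w k‖ * ((k u : ℝ) * k v) = 0 := by
  have h : ∑ k ∈ Q t, f ‖w k‖ * ((k u : ℝ) * k v) =
      ∑ k ∈ Q t, -(f ‖w k‖ * ((k u : ℝ) * k v)) := by
    refine Finset.sum_bij' (fun k _ => rf u k) (fun k _ => rf u k) (fun k hk => rf_mem hk)
      (fun k hk => rf_mem hk) (fun k _ => rf_rf u k) (fun k _ => rf_rf u k) ?_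
    intro k _
    rw [norm_rf]
    have h1 : rf u k u = -k u := by simp [rf]
    have h2 : rf u k v = k v := by simp [rf, huv.symm]
    rw [h1, h2]
    push_cast
    ring
  rw [Finset.sum_neg_distrib] at h
  linarith

theorem diag (f : ℝ → ℝ) (t : ℕ) (u v : Fin 3) :
    ∑ k ∈ Q t, f ‖w k‖ * (k u : ℝ) ^ 2 = ∑ k ∈ Q t, f ‖w k‖ * (k v : ℝ) ^ 2 := by
  have hmem : ∀ k ∈ Q t, (fun s => k (Equiv.swap u v s)) ∈ Q t := by
    intro k hk
    rw [mem_Q] at hk ⊢
    refine ⟨fun h0 => hk.1 ?_, ?_⟩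
    · funext s
      have := congrFun h0 (Equiv.swap u v s)
      simpa using this
    · rw [nn_le_iff]
      intro s
      exact (nn_le_iff k t).1 hk.2 _
  refine Finset.sum_bij' (fun k _ => fun s => k (Equiv.swap u v s))
    (fun k _ => fun s => k (Equiv.swap u v s)) (fun k hk => hmem k hk)
    (fun k hk => hmem k hk) (fun k _ => by funext s; simp) (fun k _ => by funext s; simp) ?_
  intro k _
  have h1 : ‖w (fun s => k (Equiv.swap u v s))‖ = ‖w k‖ := by
    apply norm_w_eq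
    exact Equiv.sum_comp (Equiv.swap u v) (fun t => (k t : ℝ) ^ 2)
  rw [h1]
  simp

theorem Tvec_coord (d : ℝ) (hd : 0 < d) (a : E3) (k : Fin 3 → ℤ) (u : Fin 3) :
    (Tvec (d • w k) a) u = 1 / (d * ‖w k‖) ^ 3 * a u -
      3 * ∑ v, (a v * (d ^ 2 / (d * ‖w k‖) ^ 5 * ((k v : ℝ) * k u))) := by
  have h1 : ‖d • w k‖ = d * ‖w k‖ := by rw [norm_smul, Real.norm_of_nonneg hd.le]
  have h2 : inner ℝ a (d • w k) = d * ∑ v, a v * (k v : ℝ) := by
    rw [inner_smul_right, PiLp.inner_apply]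
    congr 1
    refine Finset.sum_congr rfl fun v _ => ?_
    show inner ℝ (a v) ((k v : ℤ) : ℝ) = _
    simp [mul_comm]
  have h3 : (w k) u = (k u : ℝ) := rfl
  unfold Tvec
  rw [h1, h2]
  simp only [PiLp.smul_apply, PiLp.sub_apply, smul_eq_mul, h3]
  have h4 : ∑ v, (a v * (d ^ 2 / (d * ‖w k‖) ^ 5 * ((k v : ℝ) * k u))) =
      (∑ v, a v * (k v : ℝ)) * (d ^ 2 / (d * ‖w k‖) ^ 5 * k u) := by
    rw [Finset.sum_mul]
    refine Finset.sum_congr rfl fun v _ => ?_
    ring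
  rw [h4]
  generalize ∑ v, a v * (k v : ℝ) = S
  generalize d * ‖w k‖ = x
  by_cases hx : x = 0
  · subst hx; simp
  · field_simp

theorem Tvec_cube (d : ℝ) (hd : 0 < d) (t : ℕ) (a : E3) : ∑ k ∈ Q t, Tvec (d • w k) a = 0 := by
  ext u
  have e1 : (∑ k ∈ Q t, Tvec (d • w k) a) u = ∑ k ∈ Q t, (Tvec (d • w k) a) u := by
    simp
  rw [e1]
  simp only [Tvec_coord d hd]
  rw [Finset.sum_sub_distrib, ← Finset.sum_mul, ← Finset.mul_sum, Finset.sum_comm]
  set f : ℝ → ℝ := fun x => d ^ 2 / (d * x) ^ 5 with hf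
  have h1 : ∀ v, ∑ k ∈ Q t, a v * (d ^ 2 / (d * ‖w k‖) ^ 5 * ((k v : ℝ) * k u)) =
      if v = u then a u * ∑ k ∈ Q t, f ‖w k‖ * (k u : ℝ) ^ 2 else 0 := by
    intro v
    rw [← Finset.mul_sum]
    split_ifs with hv
    · subst hv
      congr 1
      refine Finset.sum_congr rfl fun k _ => ?_
      rw [hf]
      ring
    · have := off_diag f t hv
      rw [hf] at this
      simp only at this
      rw [this, mul_zero]
  rw [Finset.sum_congr rfl fun v _ => h1 v, Finset.sum_ite_eq' Finset.univ u,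
    if_pos (Finset.mem_univ u)]
  have h2 : 3 * ∑ k ∈ Q t, f ‖w k‖ * (k u : ℝ) ^ 2 = ∑ k ∈ Q t, 1 / (d * ‖w k‖) ^ 3 := by
    have h3 : ∑ v : Fin 3, ∑ k ∈ Q t, f ‖w k‖ * (k v : ℝ) ^ 2 =
        3 * ∑ k ∈ Q t, f ‖w k‖ * (k u : ℝ) ^ 2 := by
      rw [Finset.sum_congr rfl fun v _ => diag f t v u]
      simp
    rw [← h3, Finset.sum_comm]
    refine Finset.sum_congr rfl fun k _ => ?_
    rw [← Finset.mul_sum, ← normSq_w, hf]
    simp only
    by_cases hx : ‖w k‖ = 0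
    · rw [hx]; simp
    · have hd' := hd.ne'
      field_simp
  have h3 : (0 : E3) u = 0 := rfl
  rw [h3]
  linear_combination (-(a u)) * h2

theorem Tvec_norm {w' : E3} (a : E3) : ‖Tvec w' a‖ ≤ 4 * ‖a‖ / ‖w'‖ ^ 3 := by
  unfold Tvec
  rw [norm_smul, Real.norm_of_nonneg (by positivity)]
  have h1 : ‖(3 * inner ℝ a w' / ‖w'‖ ^ 2) • w'‖ ≤ 3 * ‖a‖ := by
    rw [norm_smul, Real.norm_eq_abs, abs_div, abs_mul, abs_of_pos (by norm_num : (0 : ℝ) < 3),
      abs_of_nonneg (by positivity : (0 : ℝ) ≤ ‖w'‖ ^ 2)]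
    by_cases hw : ‖w'‖ = 0
    · rw [hw]; simp
    · have hw0 : 0 < ‖w'‖ := lt_of_le_of_ne (norm_nonneg _) (Ne.symm hw)
      rw [div_mul_eq_mul_div, div_le_iff₀ (by positivity)]
      have h2 := abs_real_inner_le_norm a w'
      nlinarith [mul_le_mul_of_nonneg_right h2 hw0.le]
  have h2 : ‖a - (3 * inner ℝ a w' / ‖w'‖ ^ 2) • w'‖ ≤ 4 * ‖a‖ := by
    refine (norm_sub_le _ _).trans ?_
    linarith
  calc 1 / ‖w'‖ ^ 3 * ‖a - (3 * inner ℝ a w' / ‖w'‖ ^ 2) • w'‖ ≤ 1 / ‖w'‖ ^ 3 * (4 * ‖a‖) :=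
        mul_le_mul_of_nonneg_left h2 (by positivity)
    _ = _ := by ring

/-! ### dipole sums -/

/-- the central site -/
def i0 (K : ℕ) : Fin 3 → Fin (2 * K + 1) := fun _ => ⟨K, by omega⟩

/-- distance of a site from the centre -/
def cc (i : Fin 3 → Fin (2 * K + 1)) : ℕ := nn (df i (i0 K))

theorem cc_le (i : Fin 3 → Fin (2 * K + 1)) : cc i ≤ K := by
  unfold cc
  rw [nn_le_iff]
  intro t
  unfold df i0
  have h1 := (i t).2
  simp only
  omega

theorem cc_card (hK : 1 ≤ K) (m : ℕ) (hm : m ≤ K) :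
    (((Finset.univ : Finset (Fin 3 → Fin (2 * K + 1))).filter fun i => cc i = m).card : ℝ) ≤
      54 * (K : ℝ) ^ 2 := by
  classical
  have hinj : Function.Injective (fun i : Fin 3 → Fin (2 * K + 1) => df i (i0 K)) := by
    intro i j h
    funext t
    have h1 := congrFun h t
    unfold df at h1
    apply Fin.ext
    simp only at h1
    omega
  have hK' : (1 : ℝ) ≤ K := by exact_mod_cast hK
  rcases Nat.eq_zero_or_pos m with h0 | h0
  · subst h0
    have h1 : ((Finset.univ : Finset (Fin 3 → Fin (2 * K + 1))).filter fun i => cc i = 0).card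
        ≤ 1 := by
      rw [Finset.card_le_one]
      intro i hi j hj
      rw [Finset.mem_filter] at hi hj
      unfold cc at hi hj
      rw [nn_zero_iff] at hi hj
      apply hinj
      simp only
      rw [hi.2, hj.2]
    have h2 : (((Finset.univ : Finset (Fin 3 → Fin (2 * K + 1))).filter fun i => cc i = 0).card : ℝ)
        ≤ 1 := by exact_mod_cast h1
    nlinarith
  · have h1 := shell_card (((Finset.univ : Finset (Fin 3 → Fin (2 * K + 1))).image
      (fun i => df i (i0 K)))) (s := m) h0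
    have h2 : ((Finset.univ : Finset (Fin 3 → Fin (2 * K + 1))).filter fun i => cc i = m).card ≤
        ((((Finset.univ : Finset (Fin 3 → Fin (2 * K + 1))).image
      (fun i => df i (i0 K)))).filter fun k => nn k = m).card := by
      apply Finset.card_le_card_of_injOn (fun i => df i (i0 K)) _ hinj.injOn
      intro i hi
      rw [Finset.mem_coe, Finset.mem_filter] at hi
      rw [Finset.mem_coe, Finset.mem_filter]
      exact ⟨Finset.mem_image_of_mem _ (Finset.mem_univ _), hi.2⟩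
    have h3 : (((Finset.univ : Finset (Fin 3 → Fin (2 * K + 1))).filter
        fun i => cc i = m).card : ℝ) ≤ 54 * (m : ℝ) ^ 2 := le_trans (by exact_mod_cast h2) h1
    have h4 : (m : ℝ) ≤ K := by exact_mod_cast hm
    have h5 : (0 : ℝ) ≤ m := Nat.cast_nonneg m
    nlinarith

theorem site_bound {d : ℝ} (hd : 0 < d) (a : E3) (i : Fin 3 → Fin (2 * K + 1)) :
    ‖∑ j, if j = i then 0 else Tvec (zpos K d i - zpos K d j) a‖ ≤
      (432 * ‖a‖ / d ^ 3) * (Real.sqrt (2 * K : ℕ) / Real.sqrt ((K - cc i + 1 : ℕ) : ℝ)) := by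
  classical
  set t0 := K - cc i with ht0
  have hsplit : (∑ j, if j = i then 0 else Tvec (zpos K d i - zpos K d j) a) =
      (∑ j, if (j ≠ i ∧ nn (df i j) ≤ t0) then Tvec (d • w (df i j)) a else 0) +
      ∑ j, if t0 < nn (df i j) then Tvec (d • w (df i j)) a else 0 := by
    rw [← Finset.sum_add_distrib]
    refine Finset.sum_congr rfl fun j _ => ?_
    rw [pos_sub]
    by_cases hj : j = i
    · have : nn (df i j) = 0 := by rw [nn_zero_iff, df_zero]; exact hj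
      rw [if_pos hj, if_neg (by simp [hj]), if_neg (by omega), add_zero]
    · rw [if_neg hj]
      by_cases hn : nn (df i j) ≤ t0
      · rw [if_pos ⟨hj, hn⟩, if_neg (by omega), add_zero]
      · rw [if_neg (fun h => hn h.2), if_pos (by omega), zero_add]
  have hA : (∑ j, if (j ≠ i ∧ nn (df i j) ≤ t0) then Tvec (d • w (df i j)) a else 0) = 0 := by
    rw [← Finset.sum_filter, ← Tvec_cube d hd t0 a]
    refine Finset.sum_bij (fun j _ => df i j) ?_ (fun j _ j' _ h => df_inj i h) ?_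
      (fun j _ => rfl)
    · intro j hj
      rw [Finset.mem_filter] at hj
      rw [mem_Q]
      exact ⟨fun h => hj.2.1 (df_zero.1 h), hj.2.2⟩
    · intro k hk
      rw [mem_Q] at hk
      have hc := natAbs_le_nn (df i (i0 K))
      have hkn := (nn_le_iff k t0).1 hk.2
      have hcK := cc_le i
      have hb : ∀ t, 0 ≤ ((i t : ℕ) : ℤ) - k t ∧ ((i t : ℕ) : ℤ) - k t < 2 * K + 1 := by
        intro t
        have h1 := hc t
        have h2 := hkn t
        have h3 : nn (df i (i0 K)) = cc i := rfl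
        rw [h3] at h1
        unfold df i0 at h1
        simp only at h1
        omega
      have hjj : df i (fun t => ⟨(((i t : ℕ) : ℤ) - k t).toNat, by have := hb t; omega⟩) = k := by
        funext t
        unfold df
        have := hb t
        simp only
        rw [Int.toNat_of_nonneg this.1]
        ring
      refine ⟨fun t => ⟨(((i t : ℕ) : ℤ) - k t).toNat, by have := hb t; omega⟩, ?_, hjj⟩
      rw [Finset.mem_filter]
      refine ⟨Finset.mem_univ _, fun h => hk.1 ?_, ?_⟩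
      · rw [← hjj]
        exact df_zero.2 h
      · rw [hjj]
        exact hk.2
  rw [hsplit, hA, zero_add, ← Finset.sum_filter]
  have hB : ‖∑ j ∈ Finset.univ.filter (fun j => t0 < nn (df i j)), Tvec (d • w (df i j)) a‖ ≤
      ∑ k ∈ (Finset.univ.filter (fun j => t0 < nn (df i j))).image (df i),
        (4 * ‖a‖ / d ^ 3) * (1 / ((nn k : ℕ) : ℝ) ^ 3) := by
    rw [Finset.sum_image (fun a _ b _ h => df_inj i h)]
    refine norm_sum_le_of_le _ fun j hj => ?_
    rw [Finset.mem_filter] at hj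
    have h1 : (0 : ℝ) < nn (df i j) := by
      have : 0 < nn (df i j) := by omega
      exact_mod_cast this
    have h2 := nn_le_norm (df i j)
    refine (Tvec_norm a).trans ?_
    rw [norm_smul, Real.norm_of_nonneg hd.le, mul_pow]
    calc 4 * ‖a‖ / (d ^ 3 * ‖w (df i j)‖ ^ 3) ≤ 4 * ‖a‖ / (d ^ 3 * ((nn (df i j) : ℕ) : ℝ) ^ 3) := by
          gcongr
      _ = _ := by field_simp
  refine hB.trans ?_
  refine (sum_shell _ (fun s => (4 * ‖a‖ / d ^ 3) * (1 / ((s : ℕ) : ℝ) ^ 3))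
    (fun s => by positivity) (a := t0 + 1) (b := 2 * K) (by omega) ?_).trans ?_
  · intro k hk
    rw [Finset.mem_image] at hk
    obtain ⟨j, hj, rfl⟩ := hk
    rw [Finset.mem_filter] at hj
    rw [Finset.mem_Icc]
    exact ⟨hj.2, nn_df_le i j⟩
  have hS : ∑ s ∈ Finset.Icc (t0 + 1) (2 * K), 1 / (s : ℝ) ≤
      2 * (Real.sqrt (2 * K : ℕ) / Real.sqrt ((t0 + 1 : ℕ) : ℝ)) := by
    have h1 : ∀ s ∈ Finset.Icc (t0 + 1) (2 * K), 1 / (s : ℝ) ≤
        (1 / Real.sqrt s) * (1 / Real.sqrt ((t0 + 1 : ℕ) : ℝ)) := by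
      intro s hs
      rw [Finset.mem_Icc] at hs
      have hs0 : (0 : ℝ) < s := by
        have : 0 < s := by omega
        exact_mod_cast this
      have h2 : Real.sqrt ((t0 + 1 : ℕ) : ℝ) ≤ Real.sqrt s :=
        Real.sqrt_le_sqrt (by exact_mod_cast hs.1)
      have h3 : 0 < Real.sqrt ((t0 + 1 : ℕ) : ℝ) := Real.sqrt_pos.2 (by positivity)
      have h4 : 0 < Real.sqrt (s : ℝ) := Real.sqrt_pos.2 hs0
      have h5 : (s : ℝ) = Real.sqrt s * Real.sqrt s := (Real.mul_self_sqrt hs0.le).symm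
      rw [div_mul_div_comm, one_mul]
      apply div_le_div_of_nonneg_left zero_le_one (by positivity)
      calc Real.sqrt s * Real.sqrt ((t0 + 1 : ℕ) : ℝ) ≤ Real.sqrt s * Real.sqrt s :=
            mul_le_mul_of_nonneg_left h2 h4.le
        _ = s := h5.symm
    refine (Finset.sum_le_sum h1).trans ?_
    rw [← Finset.sum_mul]
    have h6 : ∑ s ∈ Finset.Icc (t0 + 1) (2 * K), 1 / Real.sqrt (s : ℝ) ≤
        2 * Real.sqrt ((2 * K : ℕ) : ℝ) := by
      refine le_trans ?_ (sum_inv_sqrt (2 * K))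
      exact Finset.sum_le_sum_of_subset_of_nonneg
        (Finset.Icc_subset_Icc_left (by omega)) (fun _ _ _ => by positivity)
    calc (∑ s ∈ Finset.Icc (t0 + 1) (2 * K), 1 / Real.sqrt (s : ℝ)) *
          (1 / Real.sqrt ((t0 + 1 : ℕ) : ℝ)) ≤ (2 * Real.sqrt ((2 * K : ℕ) : ℝ)) *
          (1 / Real.sqrt ((t0 + 1 : ℕ) : ℝ)) := mul_le_mul_of_nonneg_right h6 (by positivity)
      _ = _ := by ring
  have hE : ∑ s ∈ Finset.Icc (t0 + 1) (2 * K), (s : ℝ) ^ 2 *
      ((4 * ‖a‖ / d ^ 3) * (1 / ((s : ℕ) : ℝ) ^ 3)) =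
      (4 * ‖a‖ / d ^ 3) * ∑ s ∈ Finset.Icc (t0 + 1) (2 * K), 1 / (s : ℝ) := by
    rw [Finset.mul_sum]
    refine Finset.sum_congr rfl fun s hs => ?_
    rw [Finset.mem_Icc] at hs
    have hs0 : (s : ℝ) ≠ 0 := by
      have : s ≠ 0 := by omega
      exact_mod_cast this
    field_simp
  rw [hE]
  have h7 : (0 : ℝ) ≤ 4 * ‖a‖ / d ^ 3 := by positivity
  calc 54 * ((4 * ‖a‖ / d ^ 3) * ∑ s ∈ Finset.Icc (t0 + 1) (2 * K), 1 / (s : ℝ))
      ≤ 54 * ((4 * ‖a‖ / d ^ 3) *
        (2 * (Real.sqrt (2 * K : ℕ) / Real.sqrt ((t0 + 1 : ℕ) : ℝ)))) := by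
        gcongr
    _ = _ := by ring

theorem dipole_sum {d : ℝ} (hd : 0 < d) (hK : 1 ≤ K) (a : E3) :
    (∑ i, ‖∑ j, if j = i then 0 else Tvec (zpos K d i - zpos K d j) a‖) ≤
      (93312 * ‖a‖ / d ^ 3) * (K : ℝ) ^ 3 := by
  classical
  refine (Finset.sum_le_sum fun i _ => site_bound hd a i).trans ?_
  rw [← Finset.mul_sum]
  have hK' : (1 : ℝ) ≤ K := by exact_mod_cast hK
  have h1 : ∑ i : Fin 3 → Fin (2 * K + 1),
      Real.sqrt ((2 * K : ℕ) : ℝ) / Real.sqrt ((K - cc i + 1 : ℕ) : ℝ) ≤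
      Real.sqrt ((2 * K : ℕ) : ℝ) * (54 * (K : ℝ) ^ 2 * (2 * Real.sqrt ((K + 1 : ℕ) : ℝ))) := by
    have h2 : ∀ i ∈ (Finset.univ : Finset (Fin 3 → Fin (2 * K + 1))),
        (K - cc i + 1) ∈ Finset.Icc 1 (K + 1) := by
      intro i _
      rw [Finset.mem_Icc]
      omega
    rw [← Finset.sum_fiberwise_of_maps_to h2]
    have h3 : ∀ s ∈ Finset.Icc 1 (K + 1),
        ∑ i ∈ Finset.univ.filter (fun i : Fin 3 → Fin (2 * K + 1) => K - cc i + 1 = s),
          Real.sqrt ((2 * K : ℕ) : ℝ) / Real.sqrt ((K - cc i + 1 : ℕ) : ℝ) ≤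
        (Real.sqrt ((2 * K : ℕ) : ℝ) * (54 * (K : ℝ) ^ 2)) * (1 / Real.sqrt (s : ℝ)) := by
      intro s hs
      rw [Finset.mem_Icc] at hs
      have h4 : ∑ i ∈ Finset.univ.filter (fun i : Fin 3 → Fin (2 * K + 1) => K - cc i + 1 = s),
          Real.sqrt ((2 * K : ℕ) : ℝ) / Real.sqrt ((K - cc i + 1 : ℕ) : ℝ) =
          ((Finset.univ.filter
            (fun i : Fin 3 → Fin (2 * K + 1) => K - cc i + 1 = s)).card : ℝ) *
            (Real.sqrt ((2 * K : ℕ) : ℝ) / Real.sqrt (s : ℝ)) := by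
        rw [← nsmul_eq_mul, ← Finset.sum_const]
        refine Finset.sum_congr rfl fun i hi => ?_
        rw [(Finset.mem_filter.1 hi).2]
      rw [h4]
      have h5 : (Finset.univ.filter (fun i : Fin 3 → Fin (2 * K + 1) => K - cc i + 1 = s)) =
          Finset.univ.filter (fun i : Fin 3 → Fin (2 * K + 1) => cc i = K + 1 - s) := by
        ext i
        simp only [Finset.mem_filter, Finset.mem_univ, true_and]
        have := cc_le i
        omega
      rw [h5]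
      have h6 := cc_card hK (K + 1 - s) (by omega)
      calc _ ≤ (54 * (K : ℝ) ^ 2) * (Real.sqrt ((2 * K : ℕ) : ℝ) / Real.sqrt (s : ℝ)) :=
            mul_le_mul_of_nonneg_right h6 (by positivity)
        _ = _ := by ring
    refine (Finset.sum_le_sum h3).trans ?_
    rw [← Finset.mul_sum]
    have h7 := sum_inv_sqrt (K + 1)
    calc _ ≤ (Real.sqrt ((2 * K : ℕ) : ℝ) * (54 * (K : ℝ) ^ 2)) *
          (2 * Real.sqrt ((K + 1 : ℕ) : ℝ)) := mul_le_mul_of_nonneg_left h7 (by positivity)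
      _ = _ := by ring
  have h8 : Real.sqrt ((2 * K : ℕ) : ℝ) * Real.sqrt ((K + 1 : ℕ) : ℝ) ≤ 2 * K := by
    rw [← Real.sqrt_mul (by positivity)]
    refine Real.sqrt_le_iff.2 ⟨by positivity, ?_⟩
    push_cast
    nlinarith
  calc _ ≤ (432 * ‖a‖ / d ^ 3) *
        (Real.sqrt ((2 * K : ℕ) : ℝ) * (54 * (K : ℝ) ^ 2 * (2 * Real.sqrt ((K + 1 : ℕ) : ℝ)))) :=
        mul_le_mul_of_nonneg_left h1 (by positivity)
    _ = (46656 * ‖a‖ / d ^ 3 * (K : ℝ) ^ 2) *
        (Real.sqrt ((2 * K : ℕ) : ℝ) * Real.sqrt ((K + 1 : ℕ) : ℝ)) := by ring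
    _ ≤ (46656 * ‖a‖ / d ^ 3 * (K : ℝ) ^ 2) * (2 * K) :=
        mul_le_mul_of_nonneg_left h8 (by positivity)
    _ = _ := by ring

/-! ### sums around an arbitrary point -/

/-- integer difference of `x / d` (rounded) and a site -/
def rd (d : ℝ) (x : E3) (j : Fin 3 → Fin (2 * K + 1)) : Fin 3 → ℤ :=
  fun t => round (x t / d) - (((j t : ℕ) : ℤ) - K)

theorem rd_inj (d : ℝ) (x : E3) :
    Function.Injective (rd d x : (Fin 3 → Fin (2 * K + 1)) → Fin 3 → ℤ) := by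
  intro j j' h
  funext t
  have h1 := congrFun h t
  unfold rd at h1
  apply Fin.ext
  omega

theorem rd_norm {d : ℝ} (hd : 0 < d) (x : E3) (j : Fin 3 → Fin (2 * K + 1))
    (h : 1 ≤ nn (rd d x j)) : d * nn (rd d x j) / 2 ≤ ‖x - zpos K d j‖ := by
  obtain ⟨t, ht⟩ := exists_nn (rd d x j)
  have h1 := PiLp.norm_apply_le (x - zpos K d j) t
  refine le_trans ?_ h1
  have h2 : (x - zpos K d j) t = d * ((x t / d - round (x t / d)) + (rd d x j t : ℝ)) := by
    have h3 : (zpos K d j) t = d * (((j t : ℕ) : ℝ) - K) := rfl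
    rw [PiLp.sub_apply, h3]
    unfold rd
    push_cast
    have := hd.ne'
    field_simp
    ring
  rw [h2, norm_mul, Real.norm_of_nonneg hd.le, mul_div_assoc]
  refine mul_le_mul_of_nonneg_left ?_ hd.le
  have h4 := abs_sub_round (x t / d)
  have h5 : (nn (rd d x j) : ℝ) = |(rd d x j t : ℝ)| := by
    rw [ht, Nat.cast_natAbs, Int.cast_abs]
  have h6 : (1 : ℝ) ≤ nn (rd d x j) := by exact_mod_cast h
  rw [Real.norm_eq_abs]
  have h7 := abs_sub_abs_le_abs_sub ((rd d x j t : ℝ)) (-(x t / d - round (x t / d)))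
  rw [abs_neg, sub_neg_eq_add, add_comm ((rd d x j t : ℝ))] at h7
  rw [← h5] at h7
  linarith

theorem point_sum {d : ℝ} (hd : 0 < d) (hK : 1 ≤ K) (x : E3) :
    (∑ j, if d / 8 ≤ ‖x - zpos K d j‖ then 1 / ‖x - zpos K d j‖ ^ 2 else 0)
      ≤ 388 * K / d ^ 2 := by
  classical
  have hK' : (1 : ℝ) ≤ K := by exact_mod_cast hK
  have hterm : ∀ j : Fin 3 → Fin (2 * K + 1),
      (if d / 8 ≤ ‖x - zpos K d j‖ then 1 / ‖x - zpos K d j‖ ^ 2 else 0) ≤
      ((if nn (rd d x j) = 0 then 64 / d ^ 2 else 0) +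
      (if (1 ≤ nn (rd d x j) ∧ nn (rd d x j) ≤ K) then
        4 / d ^ 2 * (1 / ((nn (rd d x j) : ℕ) : ℝ) ^ 2) else 0)) + 4 / (d ^ 2 * (K : ℝ) ^ 2) := by
    intro j
    have h0 : (0 : ℝ) ≤ 4 / (d ^ 2 * (K : ℝ) ^ 2) := by positivity
    have h00 : (0 : ℝ) ≤ 64 / d ^ 2 := by positivity
    have h01 : (0 : ℝ) ≤ 4 / d ^ 2 * (1 / ((nn (rd d x j) : ℕ) : ℝ) ^ 2) := by positivity
    by_cases hn : nn (rd d x j) = 0
    · rw [if_pos hn, if_neg (c := (1 ≤ nn (rd d x j) ∧ nn (rd d x j) ≤ K)) (by omega)]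
      split_ifs with h
      · have h1 : 1 / ‖x - zpos K d j‖ ^ 2 ≤ 1 / (d / 8) ^ 2 := by
          apply div_le_div_of_nonneg_left zero_le_one (by positivity)
          gcongr
        have h2 : 1 / (d / 8) ^ 2 = 64 / d ^ 2 := by field_simp; norm_num
        linarith
      · linarith
    · rw [if_neg hn]
      have h1 : 1 ≤ nn (rd d x j) := by omega
      have h2 := rd_norm hd x j h1
      have hn0 : (0 : ℝ) < nn (rd d x j) := by exact_mod_cast h1
      have h3 : 1 / ‖x - zpos K d j‖ ^ 2 ≤ 4 / d ^ 2 * (1 / ((nn (rd d x j) : ℕ) : ℝ) ^ 2) := by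
        calc 1 / ‖x - zpos K d j‖ ^ 2 ≤ 1 / (d * nn (rd d x j) / 2) ^ 2 := by
              apply div_le_div_of_nonneg_left zero_le_one (by positivity)
              gcongr
          _ = _ := by field_simp; norm_num
      by_cases hnK : nn (rd d x j) ≤ K
      · rw [if_pos (c := (1 ≤ nn (rd d x j) ∧ nn (rd d x j) ≤ K)) ⟨h1, hnK⟩]
        split_ifs <;> linarith
      · rw [if_neg (c := (1 ≤ nn (rd d x j) ∧ nn (rd d x j) ≤ K)) (fun h => hnK h.2)]
        have h4 : (K : ℝ) ≤ nn (rd d x j) := by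
          have : K ≤ nn (rd d x j) := by omega
          exact_mod_cast this
        have h5 : 4 / d ^ 2 * (1 / ((nn (rd d x j) : ℕ) : ℝ) ^ 2) ≤
            4 / (d ^ 2 * (K : ℝ) ^ 2) := by
          rw [div_mul_div_comm, mul_one]
          gcongr
        split_ifs <;> linarith
  refine (Finset.sum_le_sum fun j _ => hterm j).trans ?_
  rw [Finset.sum_add_distrib, Finset.sum_add_distrib]
  have hA : (∑ j : Fin 3 → Fin (2 * K + 1), if nn (rd d x j) = 0 then 64 / d ^ 2 else 0) ≤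
      64 / d ^ 2 := by
    rw [← Finset.sum_filter, Finset.sum_const, nsmul_eq_mul]
    have h1 : (Finset.univ.filter
        (fun j : Fin 3 → Fin (2 * K + 1) => nn (rd d x j) = 0)).card ≤ 1 := by
      rw [Finset.card_le_one]
      intro i hi j hj
      rw [Finset.mem_filter] at hi hj
      rw [nn_zero_iff] at hi hj
      apply rd_inj d x
      rw [hi.2, hj.2]
    have h2 : ((Finset.univ.filter
        (fun j : Fin 3 → Fin (2 * K + 1) => nn (rd d x j) = 0)).card : ℝ) ≤ 1 := by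
      exact_mod_cast h1
    calc _ ≤ 1 * (64 / d ^ 2) := mul_le_mul_of_nonneg_right h2 (by positivity)
      _ = _ := one_mul _
  have hB : (∑ j : Fin 3 → Fin (2 * K + 1), if (1 ≤ nn (rd d x j) ∧ nn (rd d x j) ≤ K) then
        4 / d ^ 2 * (1 / ((nn (rd d x j) : ℕ) : ℝ) ^ 2) else 0) ≤ 216 * K / d ^ 2 := by
    rw [← Finset.sum_filter]
    have h1 := sum_shell (((Finset.univ : Finset (Fin 3 → Fin (2 * K + 1))).filter
      (fun j => 1 ≤ nn (rd d x j) ∧ nn (rd d x j) ≤ K)).image (rd d x))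
      (fun s => 4 / d ^ 2 * (1 / (s : ℝ) ^ 2)) (fun s => by positivity) (a := 1) (b := K) le_rfl
      (by
        intro k hk
        rw [Finset.mem_image] at hk
        obtain ⟨j, hj, rfl⟩ := hk
        rw [Finset.mem_filter] at hj
        rw [Finset.mem_Icc]
        exact hj.2)
    rw [Finset.sum_image (fun a _ b _ h => rd_inj d x h)] at h1
    refine h1.trans ?_
    have h2 : ∑ s ∈ Finset.Icc 1 K, (s : ℝ) ^ 2 * (4 / d ^ 2 * (1 / (s : ℝ) ^ 2)) =
        ∑ s ∈ Finset.Icc 1 K, 4 / d ^ 2 := by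
      refine Finset.sum_congr rfl fun s hs => ?_
      rw [Finset.mem_Icc] at hs
      have hs0 : (s : ℝ) ≠ 0 := by
        have : s ≠ 0 := by omega
        exact_mod_cast this
      field_simp
    rw [h2, Finset.sum_const, nsmul_eq_mul, Nat.card_Icc]
    have h3 : ((K + 1 - 1 : ℕ) : ℝ) = K := by simp
    rw [h3]
    apply le_of_eq
    ring
  have hC : (∑ _j : Fin 3 → Fin (2 * K + 1), 4 / (d ^ 2 * (K : ℝ) ^ 2)) ≤ 108 * K / d ^ 2 := by
    rw [Finset.sum_const, nsmul_eq_mul, Finset.card_univ]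
    have h1 : Fintype.card (Fin 3 → Fin (2 * K + 1)) = (2 * K + 1) ^ 3 := by simp
    rw [h1]
    push_cast
    rw [mul_div_assoc', div_le_div_iff₀ (by positivity) (by positivity)]
    have h2 : (2 * (K : ℝ) + 1) ^ 3 ≤ 27 * (K : ℝ) ^ 3 := by
      have h3 : 2 * (K : ℝ) + 1 ≤ 3 * K := by linarith
      calc (2 * (K : ℝ) + 1) ^ 3 ≤ (3 * (K : ℝ)) ^ 3 := by gcongr
        _ = _ := by ring
    nlinarith [mul_le_mul_of_nonneg_right h2 (by positivity : (0 : ℝ) ≤ 4 * d ^ 2)]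
  have hD : (64 : ℝ) / d ^ 2 ≤ 64 * K / d ^ 2 := by
    gcongr
    linarith
  calc _ ≤ (64 * K / d ^ 2 + 216 * K / d ^ 2) + 108 * K / d ^ 2 := by linarith
    _ = _ := by ring

theorem norm_zpos {d : ℝ} (hd : 0 < d) (i : Fin 3 → Fin (2 * K + 1)) :
    ‖zpos K d i‖ ≤ Real.sqrt 3 * (d * K) := by
  rw [EuclideanSpace.norm_eq, ← Real.sqrt_sq (by positivity : 0 ≤ d * (K : ℝ)),
    ← Real.sqrt_mul (by norm_num)]
  apply Real.sqrt_le_sqrt
  have h1 : ∀ t : Fin 3, ‖(zpos K d i) t‖ ^ 2 ≤ (d * (K : ℝ)) ^ 2 := by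
    intro t
    have h2 : (zpos K d i) t = d * (((i t : ℕ) : ℝ) - K) := rfl
    rw [h2, norm_mul, Real.norm_of_nonneg hd.le, Real.norm_eq_abs]
    have h3 : |((i t : ℕ) : ℝ) - K| ≤ K := by
      have h4 : ((i t : ℕ) : ℝ) ≤ 2 * K := by
        have : (i t : ℕ) ≤ 2 * K := by have := (i t).2; omega
        exact_mod_cast this
      have h5 : (0 : ℝ) ≤ ((i t : ℕ) : ℝ) := Nat.cast_nonneg _
      rw [abs_le]
      constructor <;> linarith
    gcongr
  refine (Finset.sum_le_sum fun t _ => h1 t).trans ?_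
  simp

end Lat

theorem p_lat : S_lat := by
  refine ⟨93312, by norm_num, fun K d hK hd => ⟨?_, fun i => Lat.norm_zpos hd i, ?_, ?_, ?_, ?_⟩⟩
  · intro i j hij
    rw [Lat.norm_pos_sub hd]
    have h1 := Lat.nn_df_pos (i := i) (j := j) (Ne.symm hij)
    have h2 := Lat.nn_le_norm (Lat.df i j)
    have h3 : (1 : ℝ) ≤ Lat.nn (Lat.df i j) := by exact_mod_cast h1
    nlinarith
  · intro i
    have h1 := Lat.pos_sum i (fun k => 1 / (d * ‖Lat.w k‖) ^ 4)
      (fun s => 1 / d ^ 4 * (1 / (s : ℝ) ^ 4)) (fun s => by positivity) ?_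
    · simp only [Lat.norm_pos_sub hd]
      refine h1.trans ?_
      have h2 : ∑ s ∈ Finset.Icc 1 (2 * K), (s : ℝ) ^ 2 * (1 / d ^ 4 * (1 / (s : ℝ) ^ 4)) =
          1 / d ^ 4 * ∑ s ∈ Finset.Icc 1 (2 * K), 1 / (s : ℝ) ^ 2 := by
        rw [Finset.mul_sum]
        refine Finset.sum_congr rfl fun s hs => ?_
        rw [Finset.mem_Icc] at hs
        have hs0 : (s : ℝ) ≠ 0 := by
          have : s ≠ 0 := by omega
          exact_mod_cast this
        field_simp
      rw [h2]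
      have h3 := Lat.sum_inv_sq (2 * K)
      calc 54 * (1 / d ^ 4 * ∑ s ∈ Finset.Icc 1 (2 * K), 1 / (s : ℝ) ^ 2)
          ≤ 54 * (1 / d ^ 4 * 2) := by gcongr
        _ = 108 / d ^ 4 := by ring
        _ ≤ 93312 / d ^ 4 := by gcongr; norm_num
    · intro k hk
      have h2 := Lat.nn_le_norm k
      have h3 : 0 < Lat.nn k := by
        rcases Nat.eq_zero_or_pos (Lat.nn k) with h | h
        · exact absurd ((Lat.nn_zero_iff k).1 h) hk
        · exact h
      have h4 : (0 : ℝ) < Lat.nn k := by exact_mod_cast h3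
      rw [div_mul_div_comm, one_mul, ← mul_pow]
      gcongr
  · intro i
    have h1 := Lat.pos_sum i (fun k => 1 / (d * ‖Lat.w k‖) ^ 3)
      (fun s => 1 / d ^ 3 * (1 / (s : ℝ) ^ 3)) (fun s => by positivity) ?_
    · simp only [Lat.norm_pos_sub hd]
      refine h1.trans ?_
      have h2 : ∑ s ∈ Finset.Icc 1 (2 * K), (s : ℝ) ^ 2 * (1 / d ^ 3 * (1 / (s : ℝ) ^ 3)) =
          1 / d ^ 3 * ∑ s ∈ Finset.Icc 1 (2 * K), 1 / (s : ℝ) := by
        rw [Finset.mul_sum]
        refine Finset.sum_congr rfl fun s hs => ?_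
        rw [Finset.mem_Icc] at hs
        have hs0 : (s : ℝ) ≠ 0 := by
          have : s ≠ 0 := by omega
          exact_mod_cast this
        field_simp
      rw [h2]
      have h3 := Lat.sum_inv_log K
      calc 54 * (1 / d ^ 3 * ∑ s ∈ Finset.Icc 1 (2 * K), 1 / (s : ℝ))
          ≤ 54 * (1 / d ^ 3 * (8 * Real.sqrt (Real.sqrt K))) := by gcongr
        _ = 432 * Real.sqrt (Real.sqrt K) / d ^ 3 := by ring
        _ ≤ 93312 * Real.sqrt (Real.sqrt K) / d ^ 3 := by gcongr; norm_num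
    · intro k hk
      have h2 := Lat.nn_le_norm k
      have h3 : 0 < Lat.nn k := by
        rcases Nat.eq_zero_or_pos (Lat.nn k) with h | h
        · exact absurd ((Lat.nn_zero_iff k).1 h) hk
        · exact h
      have h4 : (0 : ℝ) < Lat.nn k := by exact_mod_cast h3
      rw [div_mul_div_comm, one_mul, ← mul_pow]
      gcongr
  · intro a
    refine (Lat.dipole_sum hd hK a).trans ?_
    have hK' : (1 : ℝ) ≤ K := by exact_mod_cast hK
    calc 93312 * ‖a‖ / d ^ 3 * (K : ℝ) ^ 3 ≤ 93312 * ‖a‖ / d ^ 3 * (2 * (K : ℝ) + 1) ^ 3 := by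
          gcongr; linarith
      _ = _ := by ring
  · intro x
    refine (Lat.point_sum hd hK x).trans ?_
    gcongr
    norm_num

end MolDis
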