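import Pool.Agent.Lib.MP_59f35a_mp.Stmts2

/-!
# MP_59f35a_mp : piece E4, the lower bound for arrays of cells
-/

set_option autoImplicit false

noncomputable section

open MeasureTheory

namespace MolDis.Lower

theorem cou_nonneg (x y : E3) : 0 ≤ cou x y := inv_nonneg.mpr (norm_nonneg _)

/-! ### reindexing the cell potential -/

section reindex

variable {ι ι' : Type} [Fintype ι] [Fintype ι'] (e : ι ≃ ι')

theorem attr_re {κ : Type} [Fintype κ] (Y : κ → E3) (X' : ι' → Om) :
    attr Y (fun j => X' (e j)) = attr Y X' := by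
  unfold attr
  exact Equiv.sum_comp e (fun j => ∑ m, cou (X' j).1 (Y m))

theorem repEE_re (X' : ι' → Om) : repEE (fun j => X' (e j)) = repEE X' := by
  unfold repEE
  congr 1
  rw [← Equiv.sum_comp e (fun j => ∑ k, cou (X' j).1 (X' k).1)]
  refine Finset.sum_congr rfl fun j _ => ?_
  exact Equiv.sum_comp e (fun k => cou (X' (e j)).1 (X' k).1)

theorem pot_re {κ : Type} [Fintype κ] (Y : κ → E3) (X' : ι' → Om) :
    pot Y (fun j => X' (e j)) = pot Y X' := by
  unfold pot
  rw [attr_re, repEE_re]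

theorem sum_charges {M : ℕ} (f : Fin M ⊕ (ι ⊕ Bool) → ℝ) :
    ∑ a, f a = ∑ m, f (Sum.inl m) + (∑ j, f (Sum.inr (Sum.inl j)) +
      ∑ b, f (Sum.inr (Sum.inr b))) := by
  rw [Fintype.sum_sum_type, Fintype.sum_sum_type]

theorem linE_re {M : ℕ} (U : E3 → ℝ) (Y : Fin M → E3) (z P : E3) (X' : ι' → Om) :
    linE U Y z P (fun j => X' (e j)) = linE U Y z P X' := by
  unfold linE
  rw [sum_charges, sum_charges]
  congr 2
  exact Equiv.sum_comp e (fun j => (cq (M := M) (Sum.inr (Sum.inl j))) *
    U (cpos Y z P X' (Sum.inr (Sum.inl j))))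

theorem selfE_re {M : ℕ} (Kr : E3 → E3 → ℝ) (Y : Fin M → E3) (z P : E3) (X' : ι' → Om) :
    selfE Kr Y z P (fun j => X' (e j)) = selfE Kr Y z P X' := by
  unfold selfE
  set E : Fin M ⊕ (ι ⊕ Bool) ≃ Fin M ⊕ (ι' ⊕ Bool) :=
    Equiv.sumCongr (Equiv.refl _) (Equiv.sumCongr e (Equiv.refl _)) with hE
  have hq : ∀ a, cq (M := M) (ι := ι) a = cq (M := M) (ι := ι') (E a) := by
    rintro (m | j | b) <;> rfl
  have hp : ∀ a, cpos Y z P (fun j => X' (e j)) a = cpos Y z P X' (E a) := by
    rintro (m | j | b) <;> rfl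
  rw [← Equiv.sum_comp E (fun a => ∑ b, cq a * cq b * Kr (cpos Y z P X' a) (cpos Y z P X' b))]
  refine Finset.sum_congr rfl fun a _ => ?_
  rw [← Equiv.sum_comp E (fun b => cq (E a) * cq b * Kr (cpos Y z P X' (E a)) (cpos Y z P X' b))]
  refine Finset.sum_congr rfl fun b _ => ?_
  rw [hq, hq, hp, hp]

theorem cntOut_re (t : ℝ) (z : E3) (X' : ι' → Om) :
    cntOut t z (fun j => X' (e j)) = cntOut t z X' := by
  unfold cntOut
  exact Equiv.sum_comp e (fun j => if t ≤ ‖(X' j).1 - z‖ then (1 : ℝ) else 0)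

theorem cellW_re {M : ℕ} (Kr : E3 → E3 → ℝ) (U : E3 → ℝ) (lam ρ : ℝ) (Y : Fin M → E3)
    (z P : E3) (X' : ι' → Om) :
    cellW Kr U lam ρ Y z P (fun j => X' (e j)) = cellW Kr U lam ρ Y z P X' := by
  unfold cellW
  rw [pot_re, linE_re, selfE_re, cntOut_re, Fintype.card_congr e]

end reindex

/-! ### admissibility of the cell potential -/

section adm

variable {ι : Type} [Fintype ι] [DecidableEq ι]

theorem adm_const (hadm : S_adm) (c : ℝ) : AdmW (fun _ : ι → Om => c) := by
  obtain ⟨a1, _⟩ := hadm ι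
  exact a1 _ ⟨measurable_const, fun R => ⟨|c|, fun X _ => le_rfl⟩⟩

theorem adm_sum (hadm : S_adm) {A : Type} (s : Finset A) (f : A → (ι → Om) → ℝ)
    (hf : ∀ a ∈ s, AdmW (f a)) : AdmW (fun X => ∑ a ∈ s, f a X) := by
  classical
  induction s using Finset.induction_on with
  | empty => simpa using adm_const hadm (ι := ι) 0
  | insert a s ha ih =>
    have h1 := hf a (Finset.mem_insert_self a s)
    have h2 := ih fun b hb => hf b (Finset.mem_insert_of_mem hb)
    have h3 := (hadm ι).2.1 _ _ h1 h2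
    simpa [Finset.sum_insert ha] using h3

theorem adm_neg (hadm : S_adm) {W : (ι → Om) → ℝ} (h : AdmW W) : AdmW (fun X => - W X) := by
  have h1 := (hadm ι).2.2.1 (-1) W h
  simpa using h1

theorem adm_sub (hadm : S_adm) {W W' : (ι → Om) → ℝ} (h : AdmW W) (h' : AdmW W') :
    AdmW (fun X => W X - W' X) := by
  have h1 := (hadm ι).2.1 _ _ h (adm_neg hadm h')
  simpa [sub_eq_add_neg] using h1

theorem ker_cont {C r0 : ℝ} {Kr : E3 → E3 → ℝ} (hr0 : 0 < r0) (hK : Ker C r0 Kr) (hC : 0 ≤ C) :
    Continuous (fun p : E3 × E3 => Kr p.1 p.2) := by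
  have hlip : ∀ x x' y y', |Kr x y - Kr x' y'| ≤ C / r0 ^ 2 * (‖x - x'‖ + ‖y - y'‖) := by
    intro x x' y y'
    have h1 := hK.lip x x' y
    have h2 := hK.lip y y' x'
    rw [hK.symm y x', hK.symm y' x'] at h2
    have h3 : |Kr x y - Kr x' y'| ≤ |Kr x y - Kr x' y| + |Kr x' y - Kr x' y'| := by
      have : Kr x y - Kr x' y' = (Kr x y - Kr x' y) + (Kr x' y - Kr x' y') := by ring
      rw [this]
      exact abs_add_le _ _
    refine h3.trans ((add_le_add h1 h2).trans (le_of_eq ?_))
    ring
  have h0 : 0 ≤ C / r0 ^ 2 := by positivity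
  refine LipschitzWith.continuous (K := ⟨2 * (C / r0 ^ 2), by positivity⟩) ?_
  refine LipschitzWith.of_dist_le_mul fun p q => ?_
  rw [Real.dist_eq]
  refine (hlip p.1 q.1 p.2 q.2).trans ?_
  have h1 : ‖p.1 - q.1‖ ≤ dist p q := by
    rw [← dist_eq_norm]
    exact (le_max_left _ _).trans (le_of_eq (Prod.dist_eq (x := p) (y := q)).symm)
  have h2 : ‖p.2 - q.2‖ ≤ dist p q := by
    rw [← dist_eq_norm]
    exact (le_max_right _ _).trans (le_of_eq (Prod.dist_eq (x := p) (y := q)).symm)
  show _ ≤ 2 * (C / r0 ^ 2) * dist p q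
  calc C / r0 ^ 2 * (‖p.1 - q.1‖ + ‖p.2 - q.2‖) ≤ C / r0 ^ 2 * (dist p q + dist p q) :=
        mul_le_mul_of_nonneg_left (add_le_add h1 h2) h0
    _ = 2 * (C / r0 ^ 2) * dist p q := by ring

omit [Fintype ι] [DecidableEq ι] in
theorem cpos_meas {M : ℕ} (Y : Fin M → E3) (z P : E3) (a : Fin M ⊕ (ι ⊕ Bool)) :
    Measurable (fun X : ι → Om => cpos Y z P X a) := by
  rcases a with m | j | b
  · exact measurable_const
  · exact measurable_fst.comp (measurable_pi_apply j)
  · exact measurable_const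

theorem adm_selfE (hadm : S_adm) {C r0 : ℝ} {Kr : E3 → E3 → ℝ} (hr0 : 0 < r0)
    (hK : Ker C r0 Kr) (hC : 0 ≤ C) {M : ℕ} (Y : Fin M → E3) (z P : E3) :
    AdmW (fun X : ι → Om => selfE Kr Y z P X) := by
  unfold selfE
  refine adm_sum hadm _ _ fun a _ => adm_sum hadm _ _ fun b _ => ?_
  refine (hadm ι).2.2.1 (cq a * cq b) _ ?_
  refine (hadm ι).1 _ ⟨?_, fun R => ⟨C / r0, fun X _ => ?_⟩⟩
  · exact (ker_cont hr0 hK hC).measurable.comp ((cpos_meas Y z P a).prodMk (cpos_meas Y z P b))
  · rw [abs_of_nonneg (hK.nonneg _ _)]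
    exact hK.le _ _

theorem adm_linE (hadm : S_adm) {K : Type} [Fintype K] [DecidableEq K] (z P : K → E3) (k : K)
    {M : ℕ} (Y : Fin M → E3) (z' P' : E3) :
    AdmW (fun X : ι → Om => linE (tauPot z P k) Y z' P' X) := by
  unfold linE
  refine adm_sum hadm _ _ fun a _ => ?_
  refine (hadm ι).2.2.1 (cq a) (fun X => tauPot z P k (cpos Y z' P' X a)) ?_
  rcases a with m | j | b
  · exact adm_const (ι := ι) hadm (tauPot z P k (z' + Y m))
  · show AdmW (fun X : ι → Om => tauPot z P k (X j).1)
    unfold tauPot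
    refine adm_sum hadm _ _ fun k' _ => ?_
    by_cases h : k' = k
    · simp only [h, if_true]
      exact adm_const hadm 0
    · simp only [h, if_false]
      exact adm_sub hadm ((hadm ι).2.2.2.2.1 j _) ((hadm ι).2.2.2.2.1 j _)
  · exact adm_const (ι := ι) hadm (tauPot z P k
      (if b then z' + (1 / 2 : ℝ) • P' else z' - (1 / 2 : ℝ) • P'))

theorem adm_cntOut (hadm : S_adm) (t : ℝ) (z : E3) :
    AdmW (fun X : ι → Om => cntOut t z X) := by
  unfold cntOut
  refine adm_sum hadm _ _ fun j _ => (hadm ι).1 _ ⟨?_, fun R => ⟨1, fun X _ => ?_⟩⟩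
  · refine Measurable.ite ?_ measurable_const measurable_const
    refine measurableSet_le measurable_const ?_
    exact ((measurable_fst.comp (measurable_pi_apply j)).sub_const z).norm
  · show |if t ≤ ‖(X j).1 - z‖ then (1 : ℝ) else 0| ≤ 1
    split_ifs <;> simp

theorem adm_cellW (hadm : S_adm) {K : Type} [Fintype K] [DecidableEq K] (zz PP : K → E3) (k : K)
    {C r0 : ℝ} {Kr : E3 → E3 → ℝ} (hr0 : 0 < r0)
    (hK : Ker C r0 Kr) (hC : 0 ≤ C) (lam ρ : ℝ) {M : ℕ} (Y : Fin M → E3) (z P : E3) :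
    AdmW (fun X : ι → Om => cellW Kr (tauPot zz PP k) lam ρ Y z P X) := by
  unfold cellW
  have h1 : AdmW (fun X : ι → Om => pot (fun m => z + Y m) X) :=
    ((hadm ι).2.2.2.2.2.2.1 (Fin M) (fun m => z + Y m)).2.2
  have h2 := (hadm ι).2.1 _ _ h1 (adm_linE hadm (ι := ι) zz PP k Y z P)
  have h3 := adm_sub hadm h2 ((hadm ι).2.2.1 (1 / 2) _ (adm_selfE hadm hr0 hK hC Y z P))
  have h4 := adm_sub hadm h3 ((hadm ι).2.2.1 (10 / ρ ^ 2) _ (adm_cntOut hadm (ι := ι) (ρ / 2) z))
  exact (hadm ι).2.1 _ _ h4 (adm_const hadm _)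

end adm

theorem kin_nonneg {ι : Type} [Fintype ι] [DecidableEq ι] (φ : (ι → Om) → ℝ) : 0 ≤ kin φ := by
  unfold kin kin1 gradSq
  exact Finset.sum_nonneg fun j _ => integral_nonneg fun X => sq_nonneg _

/-- splitting a sum over the electrons according to the cells -/
theorem sum_cells {ι K : Type} [Fintype ι] [Fintype K] [DecidableEq K] (α : ι → Option K)
    (f : ι → ℝ) :
    ∑ j, f j = (∑ k, ∑ j : {j // α j = some k}, f j.1) + ∑ j : {j // α j = none}, f j.1 := by
  classical
  have h1 : ∑ j, f j = ∑ o : Option K, ∑ j : {j // α j = o}, f j.1 := by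
    rw [← Finset.sum_fiberwise Finset.univ α f]
    refine Finset.sum_congr rfl fun o _ => ?_
    exact (Finset.sum_subtype _ (fun j => by simp) f)
  rw [h1, Fintype.sum_option, add_comm]

end MolDis.Lower

namespace MolDis

open Lower

theorem p_lower (hmaster : S_master) (hims : S_ims) (hcut : S_cut) (hons : S_onsager)
    (hlc : S_lc) (hadm : S_adm) (hen : S_en) (hre : S_reindex) : S_lower := by
  intro K _ _ M Y z P C d ρ Mx lam err Kr hC hd hK hρ hρd hz hY hP hMx hinj hcell hvac
  classical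
  have hr0 : 0 < d / 8 := by positivity
  have hC0 : 0 ≤ C := by linarith
  have hz2 : ∀ k k', k ≠ k' → 2 * ρ ≤ ‖z k - z k'‖ := fun k k' h => by
    have := hz k k' h
    linarith
  obtain ⟨hPU, c1, c2, c3, c4, c5, c6⟩ := hcut K ρ z hρ hz2
  set N := ∑ k, M k with hN
  set A := (∑ k, (En (M k) (Y k) - err k)) + DDsum z P with hA
  obtain ⟨⟨ψ0, hψ0, hψ0'⟩, _⟩ := hen.1 (Σ k, Fin (M k)) (cl z Y) N
  unfold En
  refine le_csInf ⟨_, ψ0, hψ0, hψ0', rfl⟩ ?_
  rintro _ ⟨ψ, hψ, hn, rfl⟩
  -- the cell potentials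
  let w : ∀ (α : Fin N → Option K) (o : Option K), ({j // α j = o} → Om) → ℝ :=
    fun α o => match o with
      | none => fun _ => 0
      | some k => fun X => cellW Kr (tauPot z P k) lam ρ (Y k) (z k) (P k) X -
          (En (M k) (Y k) - err k)
  have hwadm : ∀ (α : Fin N → Option K) (o : Option K), AdmW (w α o) := by
    intro α o
    cases o with
    | none => exact adm_const hadm 0
    | some k =>
      exact adm_sub hadm (adm_cellW hadm z P k hr0 hK hC0 lam ρ (Y k) (z k) (P k))
        (adm_const hadm _)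
  have key := hmaster (Fin N) (Option K) (cellPU ρ z) ψ Set.univ
    (Finset.univ.image (cl z Y)) (pot (cl z Y)) (fun _ => A) w hPU hψ
    ((hadm (Fin N)).2.2.2.2.2.2.1 _ (cl z Y)).2.2 hwadm (fun _ _ _ => Set.mem_univ _) ?_ ?_
  · -- conclusion
    have h1 : ∑ α : Fin N → Option K, A * nsq (sector (cellPU ρ z) α ψ) = A := by
      rw [← Finset.mul_sum, ← (hims (Fin N) (Option K) (cellPU ρ z) ψ hPU hψ.toLC).2.1, hn, mul_one]
    rw [h1] at key
    exact key
  · -- the pointwise inequality
    intro α X hX _ hθ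
    have hin : ∀ j k, α j = some k → ‖(X j).1 - z k‖ < ρ := by
      intro j k hj
      have := hθ j
      rw [hj] at this
      exact c1 k _ this
    have hout : ∀ j, α j = none → ∀ k, ρ / 2 ≤ ‖(X j).1 - z k‖ := by
      intro j hj k
      have := hθ j
      rw [hj] at this
      exact (c2 _ this k).le
    have hO := hons K (Fin N) M Y z P C d ρ (max Mx 0) Kr α X hC hd hK hρ hρd hz hY hP
      (fun k => (hMx k).trans (le_max_left _ _)) (le_max_right _ _) hinj hX.1
      (fun j p h => hX.2 j (Finset.mem_image.mpr ⟨p, Finset.mem_univ _, h.symm⟩))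
      (fun j k hj => (hin j k hj).le) hout
    have hMx0 : ∀ _ : Fin N, max Mx 0 = Mx := by
      intro j
      have hNpos : 0 < N := lt_of_le_of_lt (Nat.zero_le _) j.isLt
      have hne : ∃ k : K, True := by
        by_contra hcon
        have : N = 0 := by
          rw [hN]
          exact Finset.sum_eq_zero fun k _ => absurd ⟨k, trivial⟩ hcon
        omega
      obtain ⟨k, _⟩ := hne
      exact max_eq_left (le_trans (Nat.cast_nonneg _) (hMx k))
    have hsumMx : (∑ j : {j // α j = none},
        (- tauPotK Kr z P (X j.1).1 - 4 * C / d - 4 * (max Mx 0) / ρ)) =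
        ∑ j : {j // α j = none}, (- tauPotK Kr z P (X j.1).1 - 4 * C / d - 4 * Mx / ρ) :=
      Finset.sum_congr rfl fun j _ => by rw [hMx0 j.1]
    rw [hsumMx] at hO
    -- localisation error
    have hG1 : ∀ j k, α j = some k → puG (cellPU ρ z) (X j).1 ≤
        10 / ρ ^ 2 * (if ρ / 2 ≤ ‖(X j).1 - z k‖ then (1 : ℝ) else 0) := by
      intro j k hj
      split_ifs with h
      · rw [mul_one]; exact c4 _
      · rw [mul_zero]
        refine le_of_eq (c6 _ fun k' => ?_)
        by_cases hk : k' = k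
        · left; rw [hk]; exact not_le.mp h
        · right
          have h1 := hz k' k hk
          have h2 := hin j k hj
          have h3 : ‖z k' - z k‖ ≤ ‖(X j).1 - z k‖ + ‖(X j).1 - z k'‖ := by
            have : z k' - z k = ((X j).1 - z k) - ((X j).1 - z k') := by abel
            rw [this]
            exact norm_sub_le _ _
          linarith
    have hGsum : ∑ j, puG (cellPU ρ z) (X j).1 ≤
        (∑ k, 10 / ρ ^ 2 * cntOut (ρ / 2) (z k) (fun j : {j // α j = some k} => X j.1)) +
        ∑ j : {j // α j = none}, 10 / ρ ^ 2 := by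
      rw [sum_cells α (fun j => puG (cellPU ρ z) (X j).1)]
      refine add_le_add (Finset.sum_le_sum fun k _ => ?_) (Finset.sum_le_sum fun j _ => c4 _)
      unfold cntOut
      rw [Finset.mul_sum]
      exact Finset.sum_le_sum fun j _ => hG1 j.1 k j.2
    -- counting the electrons
    have hcard : (∑ k, ((Fintype.card {j // α j = some k} : ℝ) - M k)) +
        (Fintype.card {j // α j = none} : ℝ) = 0 := by
      have h1 := sum_cells α (fun _ : Fin N => (1 : ℝ))
      simp only [Finset.sum_const, Finset.card_univ, nsmul_eq_mul, mul_one, Fintype.card_fin] at h1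
      rw [Finset.sum_sub_distrib]
      have h2 : (N : ℝ) = ∑ k, (M k : ℝ) := by rw [hN]; push_cast; rfl
      linarith
    have hvacsum : ∑ j : {j // α j = none}, (10 / ρ ^ 2 - lam) ≤
        ∑ j : {j // α j = none}, (- tauPotK Kr z P (X j.1).1 - 4 * C / d - 4 * Mx / ρ) := by
      refine Finset.sum_le_sum fun j _ => ?_
      have := hvac (X j.1).1 (hout j.1 j.2)
      linarith
    have hvs : ∑ j : {j // α j = none}, (10 / ρ ^ 2 - lam) =
        (∑ j : {j // α j = none}, 10 / ρ ^ 2) - lam * (Fintype.card {j // α j = none} : ℝ) := by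
      rw [Finset.sum_sub_distrib]
      congr 1
      simp only [Finset.sum_const, Finset.card_univ, nsmul_eq_mul]
      ring
    have hw : ∑ o : Option K, w α o (fun j => X j.1) =
        ∑ k, (cellW Kr (tauPot z P k) lam ρ (Y k) (z k) (P k)
          (fun j : {j // α j = some k} => X j.1) - (En (M k) (Y k) - err k)) := by
      rw [Fintype.sum_option]
      show 0 + _ = _
      rw [zero_add]
    have hcs : ∑ k, (cellW Kr (tauPot z P k) lam ρ (Y k) (z k) (P k)
          (fun j : {j // α j = some k} => X j.1) - (En (M k) (Y k) - err k)) =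
        (∑ k, (pot (fun m => z k + Y k m) (fun j : {j // α j = some k} => X j.1)
        + linE (tauPot z P k) (Y k) (z k) (P k) (fun j : {j // α j = some k} => X j.1)
        - (1 / 2) * selfE Kr (Y k) (z k) (P k) (fun j : {j // α j = some k} => X j.1)))
        - (∑ k, 10 / ρ ^ 2 * cntOut (ρ / 2) (z k) (fun j : {j // α j = some k} => X j.1))
        + lam * (∑ k, ((Fintype.card {j // α j = some k} : ℝ) - M k))
        - ∑ k, (En (M k) (Y k) - err k) := by
      rw [Finset.mul_sum, ← Finset.sum_sub_distrib, ← Finset.sum_add_distrib,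
        ← Finset.sum_sub_distrib]
      rfl
    show A + ∑ o : Option K, w α o (fun j => X j.1) ≤
      pot (cl z Y) X - ∑ j, puG (cellPU ρ z) (X j).1
    rw [hw, hcs, hA]
    rw [hvs] at hvacsum
    have hl : lam * (∑ k, ((Fintype.card {j // α j = some k} : ℝ) - M k)) =
        - (lam * (Fintype.card {j // α j = none} : ℝ)) := by
      have : (∑ k, ((Fintype.card {j // α j = some k} : ℝ) - M k)) =
        - (Fintype.card {j // α j = none} : ℝ) := by linarith
      rw [this]; ring
    linarith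
  · -- the slices
    intro α o φ hφ hsupp
    cases o with
    | none =>
      have h1 : expv (w α none) φ = 0 := by
        unfold expv
        simp [w]
      rw [h1, add_zero]
      exact kin_nonneg φ
    | some k =>
      let e : {j // α j = some k} ≃ Fin (Fintype.card {j // α j = some k}) := Fintype.equivFin _
      obtain ⟨r1, r2, r3, r4, r5, r6⟩ := hre _ _ e φ
      have h1 := hcell k _ (fun X' => φ (fun j => X' (e j))) (r2 hφ) (fun X' hX' j => by
        have h2 := (hsupp (fun j => X' (e j)) hX' (e.symm j)).2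
        have h3 := c1 k _ h2
        simp only [Equiv.apply_symm_apply] at h3
        exact h3.le)
      have h2 : expv (cellW Kr (tauPot z P k) lam ρ (Y k) (z k) (P k))
          (fun X' : Fin (Fintype.card {j // α j = some k}) → Om => φ (fun j => X' (e j))) =
          expv (cellW Kr (tauPot z P k) lam ρ (Y k) (z k) (P k)) φ := by
        rw [← r5 (cellW Kr (tauPot z P k) lam ρ (Y k) (z k) (P k))]
        congr 1
        funext X'
        rw [cellW_re]
      rw [r3, r4, h2] at h1
      have hadmC : AdmW (fun X : {j // α j = some k} → Om =>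
          cellW Kr (tauPot z P k) lam ρ (Y k) (z k) (P k) X) :=
        adm_cellW hadm z P k hr0 hK hC0 lam ρ (Y k) (z k) (P k)
      have h3 : expv (w α (some k)) φ = expv (cellW Kr (tauPot z P k) lam ρ (Y k) (z k) (P k)) φ -
          (En (M k) (Y k) - err k) * nsq φ := by
        unfold expv nsq
        rw [← integral_const_mul, ← integral_sub]
        · refine integral_congr_ae (Filter.Eventually.of_forall fun X => ?_)
          show (cellW Kr (tauPot z P k) lam ρ (Y k) (z k) (P k) X - (En (M k) (Y k) - err k)) *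
            φ X ^ 2 = _
          ring
        · exact (hlc _ φ hφ.toLC).2.2.2.2.2.1 _ hadmC
        · exact ((hlc _ φ hφ.toLC).2.2.2.2.2.2).const_mul _
      rw [h3]
      linarith

end MolDis
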