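import Pool.Agent.Lib.MP_59f35a_mp.Stmts2

/-!
# MP_59f35a_mp : B5, ionisation and affinity slopes of far protons
-/

set_option autoImplicit false

noncomputable section

open MeasureTheory

namespace MolDis

namespace MargP

private theorem en_zero (hen : S_en) : En 0 Hy = 0 := by
  rw [hen.2.2.2.2.2 Unit Hy]
  simp [repNN, cou, Hy]

private theorem one_cluster (hen : S_en) (hen2 : S_en2) {a : ℝ} (ha : IsAH a) (n : ℕ) :
    -1 / 4 - ((n : ℝ) - 1) * a ≤ En n Hy ∧ -(n : ℝ) / 4 ≤ En n Hy := by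
  obtain ⟨h0, h1, h2, -⟩ := ha
  rcases Nat.eq_zero_or_pos n with rfl | hn
  · rw [en_zero hen]
    constructor
    · push_cast; linarith
    · simp
  · obtain ⟨l, rfl⟩ : ∃ l, n = 1 + l := ⟨n - 1, by omega⟩
    have key : -1 / 4 - (((1 + l : ℕ) : ℝ) - 1) * a ≤ En (1 + l) Hy := by
      rcases Nat.eq_zero_or_pos l with rfl | hl
      · have h3 := hen2.2.1
        simp only [Nat.add_zero]
        rw [h3]
        push_cast
        linarith
      · have h3 := h2 l hl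
        push_cast
        linarith
    refine ⟨key, le_trans ?_ key⟩
    have hl0 : (0 : ℝ) ≤ l := Nat.cast_nonneg l
    push_cast
    nlinarith

/-- the energy of one proton, as a molecule indexed by `Fin 1` -/
private theorem en_one (hen : S_en) (n : ℕ) : En n (fun _ : Fin 1 => (0 : E3)) = En n Hy :=
  hen.2.2.2.1 (Fin 1) Unit (Equiv.ofUnique (Fin 1) Unit) Hy n

/-- the pairs `(k, 0)` -/
private def sig (Z : ℕ) : (Σ _ : Fin Z, Fin 1) ≃ Fin Z where
  toFun p := p.1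
  invFun k := ⟨k, 0⟩
  left_inv := by
    rintro ⟨k, m⟩
    have : m = 0 := Subsingleton.elim _ _
    rw [this]
  right_inv _ := rfl

private theorem en_cl (hen : S_en) {Z : ℕ} (B : Fin Z → E3) (n : ℕ) :
    En n (cl (κ := fun _ : Fin Z => Fin 1) B (fun _ _ => (0 : E3))) = En n B := by
  have h := hen.2.2.2.1 (Σ _ : Fin Z, Fin 1) (Fin Z) (sig Z) B n
  rw [← h]
  congr 1
  funext p
  simp [cl, sig]

private theorem lower (hen : S_en) (hen2 : S_en2) (hlow : S_far_lower) :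
    ∃ C : ℝ, 0 ≤ C ∧ ∀ (Z : ℕ) (a : ℝ), 1 ≤ Z → IsAH a → ∀ (L : ℝ) (B : Fin Z → E3), 1 ≤ L →
      (∀ i j, i ≠ j → L ≤ ‖B i - B j‖) → ∀ N : ℕ,
        -(Z : ℝ) / 4 - ((N : ℝ) - Z) * a - C * N * ((Z : ℝ) + 1) / L ≤ En N B ∧
        -(N : ℝ) / 4 - C * N * ((Z : ℝ) + 1) / L ≤ En N B := by
  obtain ⟨C, hC, hlow⟩ := hlow
  refine ⟨C, hC, fun Z a hZ ha L B hL hB N => ?_⟩
  have : Nonempty (Fin Z) := ⟨⟨0, hZ⟩⟩
  obtain ⟨n, hn, h⟩ := hlow (Fin Z) (fun _ => 1) (fun _ _ => (0 : E3)) B 0 L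
    (fun k m => by simp) hL (by linarith) hB N
  have h1 : En N (cl (κ := fun _ : Fin Z => Fin 1) B (fun _ _ => (0 : E3))) = En N B :=
    en_cl hen B N
  have h2 : ((∑ _k : Fin Z, 1 : ℕ) : ℝ) = Z := by simp
  have h3 : En N (cl B (fun _ _ => (0 : E3))) = En N B := h1
  rw [h2, h3] at h
  simp only [en_one hen] at h
  have hnr : ∑ k, (n k : ℝ) = N := by rw [← hn]; push_cast; rfl
  have h4 : -(Z : ℝ) / 4 - ((N : ℝ) - Z) * a ≤ ∑ k, En (n k) Hy := by
    calc -(Z : ℝ) / 4 - ((N : ℝ) - Z) * a = ∑ k : Fin Z, (-1 / 4 - ((n k : ℝ) - 1) * a) := by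
          rw [Finset.sum_sub_distrib, ← Finset.sum_mul, Finset.sum_sub_distrib, hnr]
          simp
          ring
      _ ≤ _ := Finset.sum_le_sum fun k _ => (one_cluster hen hen2 ha (n k)).1
  have h5 : -(N : ℝ) / 4 ≤ ∑ k, En (n k) Hy := by
    calc -(N : ℝ) / 4 = ∑ k : Fin Z, (-(n k : ℝ) / 4) := by
          rw [← Finset.sum_div, Finset.sum_neg_distrib, hnr]
      _ ≤ _ := Finset.sum_le_sum fun k _ => (one_cluster hen hen2 ha (n k)).2
  constructor <;> linarith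

private theorem upper (hen : S_en) (hen2 : S_en2) (hup : S_far_upper) (Z : ℕ) (ε : ℝ)
    (hε : 0 < ε) : ∃ L0 : ℝ, ∀ B : Fin Z → E3, (∀ i j, i ≠ j → L0 ≤ ‖B i - B j‖) →
      En Z B ≤ -(Z : ℝ) / 4 + ε := by
  obtain ⟨L0, h⟩ := hup (Fin Z) (fun _ => 1) (fun _ => 1) (fun _ _ => (0 : E3)) ε hε
  refine ⟨L0, fun B hB => ?_⟩
  have h1 := h B hB
  have h2 : (∑ _k : Fin Z, 1 : ℕ) = Z := by simp
  have h3 : En Z (cl B (fun _ _ => (0 : E3)) : (Σ _ : Fin Z, Fin 1) → E3) = En Z B :=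
    en_cl hen B Z
  rw [h2, h3] at h1
  simp only [en_one hen, hen2.2.1] at h1
  refine h1.trans (le_of_eq ?_)
  simp
  ring

end MargP

open MargP in
theorem p_marg (hen : S_en) (hen2 : S_en2) (hlow : S_far_lower) (hup : S_far_upper) :
    S_marg := by
  intro Z a η hZ ha hη
  obtain ⟨C, hC, hlow⟩ := lower hen hen2 hlow
  obtain ⟨L1, hup⟩ := upper hen hen2 hup Z (η / 2) (by linarith)
  have hZr : (1 : ℝ) ≤ Z := by exact_mod_cast hZ
  refine ⟨max 1 (max L1 (2 * C * ((Z : ℝ) + 1) ^ 2 / η)), fun B hB => ?_⟩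
  obtain ⟨L, hL⟩ : ∃ L, L = max 1 (max L1 (2 * C * ((Z : ℝ) + 1) ^ 2 / η)) := ⟨_, rfl⟩
  rw [← hL] at hB
  have hL1 : 1 ≤ L := hL ▸ le_max_left _ _
  have hL2 : L1 ≤ L := hL ▸ (le_max_left _ _).trans (le_max_right _ _)
  have hL3 : 2 * C * ((Z : ℝ) + 1) ^ 2 / η ≤ L :=
    hL ▸ (le_max_right _ _).trans (le_max_right _ _)
  have hL0 : 0 < L := by linarith
  have hup' := hup B fun i j hij => hL2.trans (hB i j hij)
  have hlow' := hlow Z a hZ ha L B hL1 hB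
  -- the error term
  have herr : ∀ (N k : ℕ), 1 ≤ k → N ≤ Z + k → C * N * ((Z : ℝ) + 1) / L ≤ η / 2 * k := by
    intro N k hk hN
    have hkr : (1 : ℝ) ≤ k := by exact_mod_cast hk
    have hNr : (N : ℝ) ≤ Z + k := by exact_mod_cast hN
    have h1 : (N : ℝ) ≤ ((Z : ℝ) + 1) * k := by nlinarith
    rw [div_le_iff₀ hη] at hL3
    rw [div_le_iff₀ hL0]
    have h2 : C * N * ((Z : ℝ) + 1) ≤ C * ((Z : ℝ) + 1) ^ 2 * k := by
      have h3 : 0 ≤ C * ((Z : ℝ) + 1) := by positivity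
      nlinarith
    have h4 : C * ((Z : ℝ) + 1) ^ 2 * k ≤ η / 2 * k * L := by
      have h5 : 2 * C * ((Z : ℝ) + 1) ^ 2 * k ≤ L * η * k :=
        mul_le_mul_of_nonneg_right hL3 (by linarith)
      linarith
    exact h2.trans h4
  refine ⟨⟨?_, ?_⟩, ?_⟩
  · intro k hk hkZ
    have hkr : (1 : ℝ) ≤ k := by exact_mod_cast hk
    have h1 := (hlow' (Z - k)).2
    have h2 := herr (Z - k) k hk (by omega)
    have h3 : ((Z - k : ℕ) : ℝ) = (Z : ℝ) - k := by
      rw [Nat.cast_sub hkZ]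
    have h4 : -((Z - k : ℕ) : ℝ) / 4 = -(Z : ℝ) / 4 + k / 4 := by rw [h3]; ring
    rw [h4] at h1
    have h5 : η / 2 ≤ η / 2 * k := by nlinarith
    nlinarith
  · intro k hk
    have hkr : (1 : ℝ) ≤ k := by exact_mod_cast hk
    have h1 := (hlow' (Z + k)).1
    have h2 := herr (Z + k) k hk le_rfl
    have h3 : (((Z + k : ℕ) : ℝ) - Z) * a = k * a := by push_cast; ring
    rw [h3] at h1
    have h5 : η / 2 ≤ η / 2 * k := by nlinarith
    nlinarith
  · have h1 := (hlow' Z).2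
    have h2 := herr Z 1 le_rfl (by omega)
    rw [abs_le]
    constructor
    · push_cast at h2
      linarith
    · linarith

end MolDis
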