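import Pool.Agent.Lib.MP_59f35a_mp.Stmts2
import Pool.Agent.Lib.MP_59f35a_mp.EnBasic
import Pool.Agent.Lib.MP_59f35a_mp.Master

/-!
# MP_59f35a_mp : moments and compactly supported trial states (piece C2)
-/

set_option autoImplicit false
set_option linter.unusedSectionVars false

noncomputable section

open MeasureTheory

namespace MolDis

namespace Mom

open EnBasic

/-! ### generalities on `expv` -/

section gen
variable {ι : Type} [Fintype ι] [DecidableEq ι] {φ : (ι → Om) → ℝ}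

theorem expv_mono (h1 : S_lc) (hφ : LC φ) {W W' : (ι → Om) → ℝ} (hW : AdmW W) (hW' : AdmW W')
    (h : ∀ X, φ X ≠ 0 → W X ≤ W' X) : expv W φ ≤ expv W' φ := by
  refine integral_mono (integrable_W h1 hφ hW) (integrable_W h1 hφ hW') fun X => ?_
  by_cases h0 : φ X = 0
  · simp [h0]
  · exact mul_le_mul_of_nonneg_right (h X h0) (sq_nonneg _)

theorem expv_const (c : ℝ) : expv (fun _ : ι → Om => c) φ = c * nsq φ := by
  unfold expv nsq
  rw [integral_const_mul]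

theorem expv_cmul (c : ℝ) (W : (ι → Om) → ℝ) : expv (fun X => c * W X) φ = c * expv W φ := by
  unfold expv
  rw [← integral_const_mul]
  exact integral_congr_ae (Filter.Eventually.of_forall fun X => by ring)

theorem expv_add (h1 : S_lc) (hφ : LC φ) {W W' : (ι → Om) → ℝ} (hW : AdmW W) (hW' : AdmW W') :
    expv (fun X => W X + W' X) φ = expv W φ + expv W' φ := by
  unfold expv
  rw [← integral_add (integrable_W h1 hφ hW) (integrable_W h1 hφ hW')]
  exact integral_congr_ae (Filter.Eventually.of_forall fun X => by ring)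

theorem expv_sum (h1 : S_lc) (hφ : LC φ) {α : Type} (s : Finset α) (W : α → (ι → Om) → ℝ)
    (hW : ∀ a, AdmW (W a)) : expv (fun X => ∑ a ∈ s, W a X) φ = ∑ a ∈ s, expv (W a) φ := by
  unfold expv
  rw [← integral_finsetSum _ fun a _ => integrable_W h1 hφ (hW a)]
  refine integral_congr_ae (Filter.Eventually.of_forall fun X => ?_)
  exact Finset.sum_mul _ _ _

theorem adm_const (h3 : S_adm) (c : ℝ) : AdmW (fun _ : ι → Om => c) :=
  (h3 ι).1 _ ⟨measurable_const, fun _ => ⟨|c|, fun _ _ => le_rfl⟩⟩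

theorem adm_add (h3 : S_adm) {W W' : (ι → Om) → ℝ} (hW : AdmW W) (hW' : AdmW W') :
    AdmW (fun X => W X + W' X) := (h3 ι).2.1 W W' hW hW'

theorem adm_cmul (h3 : S_adm) (c : ℝ) {W : (ι → Om) → ℝ} (hW : AdmW W) :
    AdmW (fun X => c * W X) := (h3 ι).2.2.1 c W hW

/-- functions of one position, bounded on balls -/
theorem adm_one (h3 : S_adm) (j : ι) (f : E3 → ℝ) (hf : Measurable f)
    (hb : ∀ R : ℝ, ∃ C : ℝ, ∀ x, ‖x‖ ≤ R → |f x| ≤ C) :
    AdmW (fun X : ι → Om => f (X j).1) := by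
  refine (h3 ι).1 _ ⟨hf.comp (measurable_pi_apply j).fst, fun R => ?_⟩
  obtain ⟨C, hC⟩ := hb R
  exact ⟨C, fun X hX => hC _ (hX j)⟩

theorem adm_sum (h3 : S_adm) {α : Type} (s : Finset α) (W : α → (ι → Om) → ℝ)
    (hW : ∀ a, AdmW (W a)) : AdmW (fun X => ∑ a ∈ s, W a X) := by
  classical
  induction s using Finset.induction with
  | empty => simpa using adm_const h3 (ι := ι) 0
  | insert a s ha ih =>
    simp only [Finset.sum_insert ha]
    exact adm_add h3 (hW a) ih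

/-- the indicator of the exterior of a ball -/
def ind (t : ℝ) (x : E3) : ℝ := if t ≤ ‖x‖ then 1 else 0

theorem ind_meas (t : ℝ) : Measurable (ind t) :=
  Measurable.ite (measurableSet_le measurable_const measurable_norm) measurable_const
    measurable_const

theorem ind_nonneg (t : ℝ) (x : E3) : 0 ≤ ind t x := by
  unfold ind; split_ifs <;> norm_num

theorem ind_le (t : ℝ) (x : E3) : ind t x ≤ 1 := by
  unfold ind; split_ifs <;> norm_num

theorem adm_ind (h3 : S_adm) (j : ι) (t : ℝ) : AdmW (fun X : ι → Om => ind t (X j).1) :=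
  adm_one h3 j (ind t) (ind_meas t) fun _ => ⟨1, fun x _ => by
    rw [abs_of_nonneg (ind_nonneg t x)]; exact ind_le t x⟩

theorem nout_eq (t : ℝ) (φ : (ι → Om) → ℝ) : nout t φ = expv (fun X => ∑ j, ind t (X j).1) φ := rfl

theorem adm_cnt (h3 : S_adm) (t : ℝ) : AdmW (fun X : ι → Om => ∑ j, ind t (X j).1) :=
  adm_sum h3 Finset.univ (fun j (X : ι → Om) => ind t (X j).1) fun j => adm_ind h3 j t

theorem nout_le (h1 : S_lc) (h3 : S_adm) (hφ : LC φ) (t : ℝ) :
    nout t φ ≤ Fintype.card ι * nsq φ := by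
  rw [nout_eq, ← expv_const]
  refine expv_mono h1 hφ (adm_cnt h3 t) (adm_const h3 _) fun X _ => ?_
  refine (Finset.sum_le_sum fun j _ => ind_le t (X j).1).trans ?_
  rw [Finset.sum_const, Finset.card_univ, nsmul_eq_mul, mul_one]

theorem kin1_nonneg (j : ι) (φ : (ι → Om) → ℝ) : 0 ≤ kin1 j φ :=
  integral_nonneg fun X => by unfold gradSq; positivity

end gen

/-! ### tails -/

section tails
variable {Z : ℕ} {Y : Fin Z → E3} {g : ℝ}

theorem eps_nonneg (h5 : S_en) (Y : Fin Z → E3) {φ : (Fin Z → Om) → ℝ} (hφ : WF φ)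
    (hn : nsq φ = 1) : 0 ≤ Qf Y φ - En Z Y := by
  have h := h5.2.1 (Fin Z) (Fin Z) Y φ hφ
  rw [hn, mul_one, Fintype.card_fin] at h
  linarith

theorem tail_iter (hT : S_tail) (h1 : S_lc) (h3 : S_adm) (h5 : S_en) (hZ : 1 ≤ Z) (hg : 0 < g)
    (hgap : g ≤ En (Z - 1) Y - En Z Y) :
    ∃ C s0 : ℝ, 1 ≤ C ∧ 1 ≤ s0 ∧ ∀ φ : (Fin Z → Om) → ℝ, WF φ → nsq φ = 1 → ∀ s : ℝ, s0 ≤ s →
      nout s φ ≤ C * ((Qf Y φ - En Z Y) + 1 / s ^ 6) := by
  set R : ℝ := ∑ m, ‖Y m‖ with hR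
  have hYR : ∀ m, ‖Y m‖ ≤ R := fun m =>
    Finset.single_le_sum (f := fun m => ‖Y m‖) (fun _ _ => norm_nonneg _) (Finset.mem_univ m)
  set A : ℝ := 2 * Z / g with hA
  have hZ0 : (1 : ℝ) ≤ Z := by exact_mod_cast hZ
  have hA0 : 0 < A := by rw [hA]; positivity
  set t0 : ℝ := max 1 (max (2 * R) (4 * (Z : ℝ) ^ 2 / g)) with ht0
  refine ⟨1 + 8 ^ 6 * (A + A ^ 2 + A ^ 3 + A ^ 3 * Z), 8 * t0, ?_, ?_, ?_⟩
  · have : (0 : ℝ) ≤ 8 ^ 6 * (A + A ^ 2 + A ^ 3 + A ^ 3 * Z) := by positivity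
    linarith
  · have : (1 : ℝ) ≤ t0 := le_max_left _ _
    linarith
  intro φ hφ hn s hs
  set ε : ℝ := Qf Y φ - En Z Y with hε
  have hε0 : 0 ≤ ε := eps_nonneg h5 Y hφ hn
  set t : ℝ := s / 8 with ht
  have ht0' : t0 ≤ t := by rw [ht]; linarith
  have ht1 : 1 ≤ t := (le_max_left _ _).trans ht0'
  have htR : 2 * R ≤ t := (le_max_left _ _).trans ((le_max_right _ _).trans ht0')
  have htg : 4 * (Z : ℝ) ^ 2 / g ≤ t := (le_max_right _ _).trans ((le_max_right _ _).trans ht0')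
  have step : ∀ r : ℝ, t ≤ r → nout (2 * r) φ ≤ A * (ε + 3 / r ^ 2 * nout r φ) := by
    intro r hr
    have hr0 : 0 < r := by linarith
    exact hT Z Y R g r φ hZ hYR hg hgap hr0 (htR.trans hr) (htg.trans hr) hφ hn
  have n0 : nout t φ ≤ Z := by
    have := nout_le h1 h3 hφ.toLC t
    rwa [hn, mul_one, Fintype.card_fin] at this
  have s1 := step t le_rfl
  have s2 := step (2 * t) (by linarith)
  have s3 := step (2 * (2 * t)) (by linarith)
  have hs8 : 2 * (2 * (2 * t)) = s := by rw [ht]; ring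
  rw [hs8] at s3
  have htpos : 0 < t := by linarith
  set u : ℝ := 1 / t ^ 2 with hu
  have hu0 : 0 < u := by rw [hu]; positivity
  have hu1 : u ≤ 1 := by
    rw [hu, div_le_one (by positivity)]
    nlinarith
  have e1 : 3 / t ^ 2 = 3 * u := by rw [hu]; ring
  have e2 : 3 / (2 * t) ^ 2 = 3 / 4 * u := by rw [hu]; field_simp; ring
  have e3 : 3 / (2 * (2 * t)) ^ 2 = 3 / 16 * u := by rw [hu]; field_simp; ring
  rw [e1] at s1
  rw [e2] at s2
  rw [e3] at s3
  have b1 : nout (2 * t) φ ≤ A * ε + 3 * A * Z * u := by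
    refine s1.trans ?_
    have : A * (3 * u * nout t φ) ≤ A * (3 * u * Z) := by gcongr
    nlinarith
  have b2 : nout (2 * (2 * t)) φ ≤ (A + A ^ 2) * ε + 9 / 4 * A ^ 2 * Z * u ^ 2 := by
    refine s2.trans ?_
    have h : A * (3 / 4 * u * nout (2 * t) φ) ≤ A * (3 / 4 * u * (A * ε + 3 * A * Z * u)) := by
      gcongr
    have h' : A ^ 2 * ε * (3 / 4 * u) ≤ A ^ 2 * ε * 1 := by
      gcongr
      linarith
    nlinarith
  have b3 : nout s φ ≤ (A + A ^ 2 + A ^ 3) * ε + 27 / 64 * A ^ 3 * Z * u ^ 3 := by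
    refine s3.trans ?_
    have h : A * (3 / 16 * u * nout (2 * (2 * t)) φ) ≤
        A * (3 / 16 * u * ((A + A ^ 2) * ε + 9 / 4 * A ^ 2 * Z * u ^ 2)) := by
      gcongr
    have h' : A * (A + A ^ 2) * ε * (3 / 16 * u) ≤ A * (A + A ^ 2) * ε * 1 := by
      gcongr
      linarith
    nlinarith
  have hu3 : u ^ 3 = 8 ^ 6 * (1 / s ^ 6) := by
    rw [hu, ← hs8]
    field_simp
    ring
  have hs6 : 0 ≤ 1 / s ^ 6 := by positivity
  refine b3.trans ?_
  have hA' : 0 ≤ A + A ^ 2 + A ^ 3 + A ^ 3 * Z := by positivity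
  have q1 : (A + A ^ 2 + A ^ 3) * ε ≤ (1 + 8 ^ 6 * (A + A ^ 2 + A ^ 3 + A ^ 3 * Z)) * ε := by
    refine mul_le_mul_of_nonneg_right ?_ hε0
    have hq : 0 ≤ A ^ 3 * (Z : ℝ) := by positivity
    have hp : 0 ≤ A + A ^ 2 + A ^ 3 := by positivity
    linarith
  have q2 : 27 / 64 * A ^ 3 * Z * u ^ 3 ≤
      (1 + 8 ^ 6 * (A + A ^ 2 + A ^ 3 + A ^ 3 * Z)) * (1 / s ^ 6) := by
    rw [hu3]
    have : 27 / 64 * A ^ 3 * Z * (8 ^ 6 * (1 / s ^ 6)) = (27 / 64 * 8 ^ 6 * (A ^ 3 * Z)) * (1 / s ^ 6) := by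
      ring
    rw [this]
    refine mul_le_mul_of_nonneg_right ?_ hs6
    have hq : 0 ≤ A ^ 3 * (Z : ℝ) := by positivity
    have hp : 0 ≤ A + A ^ 2 + A ^ 3 := by positivity
    linarith
  linarith

end tails

/-! ### the fourth moment -/

section moment
variable {ι : Type} [Fintype ι] [DecidableEq ι]

/-- truncated fourth power -/
def m4 (s : ℝ) (x : E3) : ℝ := min ‖x‖ s ^ 4

theorem m4_meas (s : ℝ) : Measurable (m4 s) := (measurable_norm.min measurable_const).pow_const 4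

theorem adm_m4 (h3 : S_adm) (s : ℝ) : AdmW (fun X : ι → Om => ∑ j, m4 s (X j).1) := by
  refine adm_sum h3 Finset.univ (fun j (X : ι → Om) => m4 s (X j).1) fun j =>
    adm_one h3 j (m4 s) (m4_meas s) fun R => ⟨(|R| + |s|) ^ 4, fun x hx => ?_⟩
  unfold m4
  rw [abs_pow]
  refine pow_le_pow_left₀ (abs_nonneg _) ?_ 4
  rcases min_choice ‖x‖ s with h | h
  · rw [h, abs_norm]
    linarith [le_abs_self R, abs_nonneg s]
  · rw [h]
    linarith [abs_nonneg R]

theorem m4_step (s : ℝ) (hs : 0 ≤ s) (x : E3) : m4 (2 * s) x ≤ m4 s x + 16 * s ^ 4 * ind s x := by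
  unfold m4 ind
  split_ifs with h
  · have h1 : min ‖x‖ (2 * s) ≤ 2 * s := min_le_right _ _
    have h0 : 0 ≤ min ‖x‖ (2 * s) := le_min (norm_nonneg _) (by linarith)
    have h2 : min ‖x‖ (2 * s) ^ 4 ≤ (2 * s) ^ 4 := pow_le_pow_left₀ h0 h1 4
    have h3 : 0 ≤ min ‖x‖ s ^ 4 := by positivity
    nlinarith
  · push Not at h
    rw [min_eq_left h.le, min_eq_left (by linarith)]
    simp

theorem moment_iter (h1 : S_lc) (h3 : S_adm) {φ : (ι → Om) → ℝ} (hφ : LC φ) (hn : nsq φ = 1)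
    (C s0 ε : ℝ) (hC : 1 ≤ C) (hs0 : 1 ≤ s0) (hε : 0 ≤ ε)
    (hout : ∀ s : ℝ, s0 ≤ s → nout s φ ≤ C * (ε + 1 / s ^ 6)) (n : ℕ) :
    expv (fun X => ∑ j, m4 (2 ^ n * s0) (X j).1) φ ≤
      Fintype.card ι * s0 ^ 4 + 2 * C * ε * (2 ^ n * s0) ^ 4 +
        22 * C * (1 - 1 / (2 ^ n * s0) ^ 2) := by
  induction n with
  | zero =>
    have e0 : (2 : ℝ) ^ 0 * s0 = s0 := by rw [pow_zero, one_mul]
    rw [e0]
    have h : expv (fun X => ∑ j, m4 s0 (X j).1) φ ≤ Fintype.card ι * s0 ^ 4 * nsq φ := by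
      rw [← expv_const]
      refine expv_mono h1 hφ (adm_m4 h3 _) (adm_const h3 _) fun X _ => ?_
      have h2 : ∀ j ∈ (Finset.univ : Finset ι), m4 s0 (X j).1 ≤ s0 ^ 4 := by
        intro j _
        unfold m4
        exact pow_le_pow_left₀ (le_min (norm_nonneg _) (by linarith)) (min_le_right _ _) 4
      refine (Finset.sum_le_sum h2).trans ?_
      rw [Finset.sum_const, Finset.card_univ, nsmul_eq_mul]
    rw [hn, mul_one] at h
    have h4 : 0 ≤ 1 - 1 / s0 ^ 2 := by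
      rw [sub_nonneg, div_le_one (by positivity)]
      nlinarith
    have h5 : 0 ≤ 2 * C * ε * s0 ^ 4 := by positivity
    have h6 : 0 ≤ 22 * C * (1 - 1 / s0 ^ 2) := mul_nonneg (by linarith) h4
    linarith
  | succ n ih =>
    set S : ℝ := 2 ^ n * s0 with hS
    have hpow : (1 : ℝ) ≤ 2 ^ n := one_le_pow₀ (by norm_num)
    have hSs : s0 ≤ S := by rw [hS]; nlinarith
    have hS1 : 1 ≤ S := hs0.trans hSs
    have hSpos : 0 < S := by linarith
    have e : (2 : ℝ) ^ (n + 1) * s0 = 2 * S := by rw [hS]; ring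
    rw [e]
    have h : expv (fun X => ∑ j, m4 (2 * S) (X j).1) φ ≤
        expv (fun X => ∑ j, m4 S (X j).1) φ + 16 * S ^ 4 * nout S φ := by
      rw [nout_eq, ← expv_cmul, ← expv_add h1 hφ (adm_m4 h3 _) (adm_cmul h3 _ (adm_cnt h3 _))]
      refine expv_mono h1 hφ (adm_m4 h3 _) (adm_add h3 (adm_m4 h3 _)
        (adm_cmul h3 _ (adm_cnt h3 _))) fun X _ => ?_
      rw [Finset.mul_sum, ← Finset.sum_add_distrib]
      exact Finset.sum_le_sum fun j _ => m4_step S hSpos.le _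
    have h2 := hout S hSs
    have h3' : 16 * S ^ 4 * nout S φ ≤ 16 * S ^ 4 * (C * (ε + 1 / S ^ 6)) := by gcongr
    have e1 : 16 * S ^ 4 * (C * (ε + 1 / S ^ 6)) = 16 * C * ε * S ^ 4 + 16 * C * (1 / S ^ 2) := by
      field_simp
    have e2 : 1 / (2 * S) ^ 2 = 1 / 4 * (1 / S ^ 2) := by field_simp; ring
    have h7 : 0 ≤ C * ε * S ^ 4 := by positivity
    have h8 : 0 ≤ C * (1 / S ^ 2) := by positivity
    rw [e2]
    nlinarith

theorem moment (h1 : S_lc) (h3 : S_adm) {φ : (ι → Om) → ℝ} (hφ : LC φ) (hn : nsq φ = 1)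
    (C s0 ε ρ : ℝ) (hC : 1 ≤ C) (hs0 : 1 ≤ s0) (hε : 0 ≤ ε)
    (hout : ∀ s : ℝ, s0 ≤ s → nout s φ ≤ C * (ε + 1 / s ^ 6)) (hρ : s0 ≤ ρ)
    (hsupp : ∀ X, φ X ≠ 0 → ∀ j, ‖(X j).1‖ ≤ ρ) :
    expv (fun X => ∑ j, ‖(X j).1‖ ^ 4) φ ≤
      (Fintype.card ι * s0 ^ 4 + 32 * C) * (1 + ρ ^ 4 * ε) := by
  have hs0' : 0 < s0 := by linarith
  obtain ⟨n, hn1, hn2⟩ := exists_nat_pow_near (x := ρ / s0) (y := (2 : ℝ))
    (by rw [le_div_iff₀ hs0']; linarith) (by norm_num)
  rw [le_div_iff₀ hs0'] at hn1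
  rw [div_lt_iff₀ hs0'] at hn2
  have hit := moment_iter h1 h3 hφ hn C s0 ε hC hs0 hε hout (n + 1)
  set S : ℝ := 2 ^ (n + 1) * s0 with hS
  have hSρ : ρ ≤ S := hn2.le
  have hS2 : S ≤ 2 * ρ := by
    have : S = 2 * (2 ^ n * s0) := by rw [hS]; ring
    linarith
  have hρ1 : 1 ≤ ρ := hs0.trans hρ
  have hS0 : 0 < S := by linarith
  have hm : expv (fun X => ∑ j, ‖(X j).1‖ ^ 4) φ ≤ expv (fun X => ∑ j, m4 S (X j).1) φ := by
    refine expv_mono h1 hφ ?_ (adm_m4 h3 _) fun X hX => ?_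
    · refine adm_sum h3 Finset.univ (fun j (X : ι → Om) => ‖(X j).1‖ ^ 4) fun j =>
        adm_one h3 j (fun x => ‖x‖ ^ 4) (measurable_norm.pow_const 4) fun R => ⟨|R| ^ 4, fun x hx => ?_⟩
      rw [abs_pow, abs_norm]
      exact pow_le_pow_left₀ (norm_nonneg _) (hx.trans (le_abs_self R)) 4
    · refine Finset.sum_le_sum fun j _ => ?_
      unfold m4
      rw [min_eq_left ((hsupp X hX j).trans hSρ)]
  refine hm.trans (hit.trans ?_)
  have h4 : S ^ 4 ≤ 16 * ρ ^ 4 := by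
    have := pow_le_pow_left₀ hS0.le hS2 4
    nlinarith
  have h5 : 2 * C * ε * S ^ 4 ≤ 2 * C * ε * (16 * ρ ^ 4) := by gcongr
  have h6 : 22 * C * (1 - 1 / S ^ 2) ≤ 22 * C * 1 := by
    gcongr
    have : 0 ≤ 1 / S ^ 2 := by positivity
    linarith
  have h7 : 0 ≤ (Fintype.card ι : ℝ) * s0 ^ 4 * (ρ ^ 4 * ε) := by positivity
  nlinarith

end moment

/-! ### the outside sectors -/

section sectors
variable {Z : ℕ} {Y : Fin Z → E3}

/-- the partition -/
abbrev th (ρ : ℝ) : Option Unit → E3 → ℝ := cellPU ρ (fun _ : Unit => (0 : E3))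

theorem cut (h8 : S_cut) {ρ : ℝ} (hρ : 0 < ρ) :
    PU (th ρ) ∧ (∀ x, th ρ (some ()) x ≠ 0 → ‖x‖ < ρ) ∧
    (∀ x, th ρ none x ≠ 0 → ρ / 2 < ‖x‖) ∧ (∀ x, ‖x‖ ≤ ρ / 2 → th ρ (some ()) x = 1) ∧
    (∀ x, puG (th ρ) x ≤ 10 / ρ ^ 2 * ind (ρ / 2) x) := by
  obtain ⟨c1, c2, c3, c4, c5, c6, c7⟩ := h8 Unit ρ (fun _ => 0) hρ
    (fun k k' h => absurd (Subsingleton.elim k k') h)
  refine ⟨c1, fun x hx => by simpa using c2 () x hx, fun x hx => by simpa using c3 x hx (),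
    fun x hx => c4 () x (by simpa using hx), fun x => ?_⟩
  unfold ind
  split_ifs with h
  · rw [mul_one]; exact c5 x
  · push Not at h
    rw [mul_zero]
    exact (c7 x fun _ => Or.inl (by simpa using h)).le

theorem antitone_En (h6 : S_en2) {κ : Type} [Fintype κ] (Y : κ → E3) :
    Antitone (fun n => En n Y) := antitone_nat_of_succ_le fun n => h6.1 κ Y n

/-- the potential of a configuration with some electrons far out -/
theorem pot_lower {ρ R : ℝ} (hρ : 0 < ρ) (hY : ∀ m, ‖Y m‖ ≤ R) (hR : 4 * R ≤ ρ)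
    (α : Fin Z → Option Unit) (X : Fin Z → Om) (hX : ∀ j, α j = none → ρ / 2 < ‖(X j).1‖) :
    pot Y (fun j : {j // α j = some ()} => X j.1) - 4 * (Z : ℝ) ^ 2 / ρ ≤ pot Y X := by
  have h1 : repEE (fun j : {j // α j = some ()} => X j.1) ≤ repEE X := by
    unfold repEE
    refine mul_le_mul_of_nonneg_left ?_ (by norm_num)
    refine le_trans ?_ (Master.sum_sub_le (fun j => α j = some ())
      (fun j => ∑ k, cou (X j).1 (X k).1)
      fun j => Finset.sum_nonneg fun a _ => Master.cou_nonneg _ _)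
    exact Finset.sum_le_sum fun j _ =>
      Master.sum_sub_le (fun j => α j = some ()) (fun k => cou (X j.1).1 (X k).1)
      fun k => Master.cou_nonneg _ _
  have h2 : attr Y X ≤ attr Y (fun j : {j // α j = some ()} => X j.1) + 4 * (Z : ℝ) ^ 2 / ρ := by
    unfold attr
    rw [← Fintype.sum_subtype_add_sum_subtype (fun j => α j = some ())
      (fun j => ∑ m, cou (X j).1 (Y m))]
    refine add_le_add le_rfl ?_
    have h3 : ∀ j : {j // ¬ α j = some ()}, ∑ m, cou (X j.1).1 (Y m) ≤ Z * (4 / ρ) := by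
      intro j
      have hj : α j.1 = none := by
        rcases h : α j.1 with _ | u
        · rfl
        · exact absurd h j.2
      have hn := hX j.1 hj
      have h4 : ∀ m ∈ (Finset.univ : Finset (Fin Z)), cou (X j.1).1 (Y m) ≤ 4 / ρ := by
        intro m _
        unfold cou
        have h5 : ρ / 4 ≤ ‖(X j.1).1 - Y m‖ := by
          have := norm_sub_norm_le (X j.1).1 (Y m)
          have := hY m
          linarith
        rw [show 4 / ρ = (ρ / 4)⁻¹ by rw [inv_div]]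
        exact inv_anti₀ (by positivity) h5
      refine (Finset.sum_le_sum h4).trans ?_
      rw [Finset.sum_const, Finset.card_univ, Fintype.card_fin, nsmul_eq_mul]
    refine (Finset.sum_le_sum fun j _ => h3 j).trans ?_
    rw [Finset.sum_const, Finset.card_univ, nsmul_eq_mul]
    have h6 : (Fintype.card {j // ¬ α j = some ()} : ℝ) ≤ Z := by
      have := Fintype.card_subtype_le (fun j => ¬ α j = some ())
      rw [Fintype.card_fin] at this
      exact_mod_cast this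
    calc (Fintype.card {j // ¬ α j = some ()} : ℝ) * (Z * (4 / ρ)) ≤ Z * (Z * (4 / ρ)) := by
          gcongr
      _ = 4 * (Z : ℝ) ^ 2 / ρ := by ring
  unfold pot
  linarith

theorem sector_lower (hsl : S_slice) (h8 : S_cut) (hims : S_ims) (h1 : S_lc) (h3 : S_adm)
    (h5 : S_en) (h6 : S_en2) {ρ R g : ℝ} (hρ : 0 < ρ) (hY : ∀ m, ‖Y m‖ ≤ R) (hR : 4 * R ≤ ρ)
    (hgap : g ≤ En (Z - 1) Y - En Z Y) (hρg : 4 * (Z : ℝ) ^ 2 / ρ ≤ g)
    {ψ : (Fin Z → Om) → ℝ} (hψ : WF ψ) (α : Fin Z → Option Unit) (hα : ∃ j, α j = none) :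
    En Z Y * nsq (sector (th ρ) α ψ) ≤ Qf Y (sector (th ρ) α ψ) := by
  obtain ⟨c1, c2, c3, c4, c5⟩ := cut h8 hρ
  have hLC : LC (sector (th ρ) α ψ) := (hims (Fin Z) (Option Unit) (th ρ) ψ c1 hψ.toLC).1 α
  set χ := sector (th ρ) α ψ with hχ
  have hpot : ∀ (ι : Type) [Fintype ι] [DecidableEq ι], AdmW (pot (ι := ι) Y) := fun ι _ _ =>
    ((h3 ι).2.2.2.2.2.2.1 (Fin Z) Y).2.2
  set c : ℝ := -(En Z Y) - 4 * (Z : ℝ) ^ 2 / ρ with hc
  have hW : AdmW (fun X : Fin Z → Om => pot Y (fun j : {j // α j = some ()} => X j.1) + c) :=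
    adm_add h3 (Master.adm_restrict (fun j => α j = some ()) (pot Y) (hpot _)) (adm_const h3 c)
  have hne : ∀ X, χ X ≠ 0 → ∀ j, th ρ (α j) (X j).1 ≠ 0 := by
    intro X hX j
    have h : (∏ j, th ρ (α j) (X j).1) ≠ 0 ∧ ψ X ≠ 0 := mul_ne_zero_iff.mp hX
    exact (Finset.prod_ne_zero_iff.mp h.1) j (Finset.mem_univ j)
  have key := hsl (Fin Z) (fun j => α j = some ()) χ {X | ∀ j, th ρ (α j) (X j).1 ≠ 0}
    (fun X : Fin Z → Om => pot Y (fun j : {j // α j = some ()} => X j.1) + c) hLC hW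
    (fun σ hσ X => Master.sector_anti (th ρ) α (some ()) ψ hψ.anti σ hσ X) hne ?_
  · -- conclusion
    have hk : ∑ j ∈ Finset.univ.filter (fun j => α j = some ()), kin1 j χ ≤ kin χ :=
      Finset.sum_le_sum_of_subset_of_nonneg (Finset.filter_subset _ _)
        fun j _ _ => kin1_nonneg j χ
    have hV : expv (fun X : Fin Z → Om => pot Y (fun j : {j // α j = some ()} => X j.1) + c) χ ≤
        expv (fun X => pot Y X + -(En Z Y)) χ := by
      refine expv_mono h1 hLC hW (adm_add h3 (hpot _) (adm_const h3 _)) fun X hX => ?_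
      have h := pot_lower hρ hY hR α X fun j hj => by
        have := hne X hX j
        rw [hj] at this
        exact c3 _ this
      rw [hc]
      linarith
    rw [expv_add h1 hLC (hpot _) (adm_const h3 _), expv_const] at hV
    unfold Qf
    linarith
  · intro X0 _ φ hφ _
    have hres : ∀ Z' : {j // α j = some ()} → Om,
        (fun j : {j // α j = some ()} => glue (fun j => α j = some ()) Z' X0 j.1) = Z' := by
      intro Z'
      funext j
      unfold glue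
      rw [dif_pos j.2]
    have h4 : (fun Z' : {j // α j = some ()} → Om =>
        pot Y (fun j : {j // α j = some ()} => glue (fun j => α j = some ()) Z' X0 j.1) + c) =
        fun Z' => pot Y Z' + c := by
      funext Z'
      rw [hres Z']
    show 0 ≤ kin φ + expv (fun Z' : {j // α j = some ()} → Om =>
        pot Y (fun j : {j // α j = some ()} => glue (fun j => α j = some ()) Z' X0 j.1) + c) φ
    rw [h4, expv_add h1 hφ.toLC (hpot _) (adm_const h3 _), expv_const]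
    have h7 := h5.2.1 {j // α j = some ()} (Fin Z) Y φ hφ
    have hcard : Fintype.card {j // α j = some ()} ≤ Z - 1 := by
      obtain ⟨j0, hj0⟩ := hα
      have : Fintype.card {j // α j = some ()} < Fintype.card (Fin Z) :=
        Fintype.card_subtype_lt (x := j0) (by rw [hj0]; simp)
      rw [Fintype.card_fin] at this
      omega
    have h9 : En (Z - 1) Y ≤ En (Fintype.card {j // α j = some ()}) Y := antitone_En h6 Y hcard
    have h10 : 0 ≤ (En (Fintype.card {j // α j = some ()}) Y + c) * nsq φ := by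
      refine mul_nonneg ?_ (nsq_nonneg φ)
      rw [hc]
      linarith
    unfold Qf at h7
    linarith

end sectors

/-! ### the trial state -/

section trial
variable {Z : ℕ} {Y : Fin Z → E3}

theorem trial (hsl : S_slice) (h8 : S_cut) (hims : S_ims) (h1 : S_lc) (h2 : S_lc_closure)
    (h3 : S_adm) (h5 : S_en) (h6 : S_en2) {ρ R g C : ℝ} (hρ1 : 1 ≤ ρ) (hY : ∀ m, ‖Y m‖ ≤ R)
    (hR : 4 * R ≤ ρ) (hgap : g ≤ En (Z - 1) Y - En Z Y) (hρg : 4 * (Z : ℝ) ^ 2 / ρ ≤ g)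
    (hC : 1 ≤ C) (hρC : 130 * C ≤ ρ)
    (hout : ∀ φ : (Fin Z → Om) → ℝ, WF φ → nsq φ = 1 →
      nout (ρ / 2) φ ≤ C * ((Qf Y φ - En Z Y) + 1 / (ρ / 2) ^ 6)) :
    ∃ φ : (Fin Z → Om) → ℝ, WF φ ∧ nsq φ = 1 ∧ (∀ X, φ X ≠ 0 → ∀ j, ‖(X j).1‖ ≤ ρ) ∧
        Qf Y φ ≤ En Z Y + 1302 * C / ρ ^ 6 := by
  have hρ : 0 < ρ := by linarith
  obtain ⟨c1, c2, c3, c4, c5⟩ := cut h8 hρ
  obtain ⟨ψ, hψ, hn, hQ⟩ := h5.2.2.1 (Fin Z) Y Z (1 / ρ ^ 6) (by positivity)
  obtain ⟨i1, i2, i3, i4, ⟨Cg, hCg⟩, i6⟩ := hims (Fin Z) (Option Unit) (th ρ) ψ c1 hψ.toLC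
  have hpot : AdmW (pot (ι := Fin Z) Y) := ((h3 (Fin Z)).2.2.2.2.2.2.1 (Fin Z) Y).2.2
  set v : ℝ := 1 / ρ ^ 6 with hv
  have hv0 : 0 < v := by rw [hv]; positivity
  -- the number of electrons far out
  have hN : nout (ρ / 2) ψ ≤ 65 * C * v := by
    have h := hout ψ hψ hn
    have e : 1 / (ρ / 2) ^ 6 = 64 * v := by rw [hv]; field_simp; ring
    rw [e] at h
    have h' : C * (Qf Y ψ - En Z Y + 64 * v) ≤ C * (v + 64 * v) := by
      gcongr
      linarith
    linarith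
  -- the localisation error
  have hG : ∀ j : Fin Z, AdmW (fun X : Fin Z → Om => puG (th ρ) (X j).1) := fun j =>
    adm_one h3 j (puG (th ρ)) i6 fun _ => ⟨Cg, fun x _ => hCg x⟩
  have hL : ∑ j, expv (fun X => puG (th ρ) (X j).1) ψ ≤ 10 / ρ ^ 2 * nout (ρ / 2) ψ := by
    rw [← expv_sum h1 hψ.toLC Finset.univ (fun j (X : Fin Z → Om) => puG (th ρ) (X j).1) hG,
      nout_eq, ← expv_cmul]
    refine expv_mono h1 hψ.toLC (adm_sum h3 _ _ hG) (adm_cmul h3 _ (adm_cnt h3 _)) fun X _ => ?_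
    rw [Finset.mul_sum]
    exact Finset.sum_le_sum fun j _ => c5 _
  have hL2 : 10 / ρ ^ 2 * nout (ρ / 2) ψ ≤ 650 * C * v := by
    have h10 : 10 / ρ ^ 2 ≤ 10 := by
      rw [div_le_iff₀ (by positivity)]
      nlinarith
    calc 10 / ρ ^ 2 * nout (ρ / 2) ψ ≤ 10 / ρ ^ 2 * (65 * C * v) := by gcongr
      _ ≤ 10 * (65 * C * v) := by gcongr
      _ = _ := by ring
  -- sectors
  set a : Fin Z → Option Unit := fun _ => some () with ha
  set χ := sector (th ρ) a ψ with hχ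
  have hχW : WF χ := ⟨i1 a, fun σ X =>
    Master.sector_anti (th ρ) a (some ()) ψ hψ.anti σ (fun j hj => absurd rfl hj) X⟩
  have hother : ∀ α ∈ (Finset.univ.erase a : Finset (Fin Z → Option Unit)),
      En Z Y * nsq (sector (th ρ) α ψ) ≤ Qf Y (sector (th ρ) α ψ) := by
    intro α hα
    refine sector_lower hsl h8 hims h1 h3 h5 h6 hρ hY hR hgap hρg hψ α ?_
    by_contra hcon
    push Not at hcon
    apply Finset.ne_of_mem_erase hα
    funext j
    rcases h : α j with _ | u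
    · exact absurd h (hcon j)
    · rfl
  have hn2 : nsq ψ = nsq χ + ∑ α ∈ Finset.univ.erase a, nsq (sector (th ρ) α ψ) := by
    rw [i2, Finset.add_sum_erase _ (fun α => nsq (sector (th ρ) α ψ)) (Finset.mem_univ a)]
  have hQ2 : Qf Y ψ = Qf Y χ + (∑ α ∈ Finset.univ.erase a, Qf Y (sector (th ρ) α ψ)) -
      ∑ j, expv (fun X => puG (th ρ) (X j).1) ψ := by
    rw [Finset.add_sum_erase _ (fun α => Qf Y (sector (th ρ) α ψ)) (Finset.mem_univ a)]
    unfold Qf
    rw [i4, i3 (pot Y) hpot, Finset.sum_add_distrib]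
    ring
  have hsum := Finset.sum_le_sum hother
  rw [← Finset.mul_sum] at hsum
  -- the mass of the inside sector
  have hmass : nsq ψ - nsq χ ≤ nout (ρ / 2) ψ := by
    have hiχ := integrable_sq h1 (i1 a)
    unfold nsq
    rw [← integral_sub (integrable_sq h1 hψ.toLC) hiχ]
    refine integral_mono ((integrable_sq h1 hψ.toLC).sub hiχ)
      (integrable_W h1 hψ.toLC (adm_cnt h3 (ρ / 2))) fun X => ?_
    show ψ X ^ 2 - (sector (th ρ) a ψ X) ^ 2 ≤ (∑ j, ind (ρ / 2) (X j).1) * ψ X ^ 2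
    by_cases hfar : ∀ j, ‖(X j).1‖ < ρ / 2
    · have h : sector (th ρ) a ψ X = ψ X := by
        unfold sector
        rw [Finset.prod_eq_one fun j _ => c4 _ (hfar j).le, one_mul]
      rw [h, sub_self]
      exact mul_nonneg (Finset.sum_nonneg fun j _ => ind_nonneg _ _) (sq_nonneg _)
    · push Not at hfar
      obtain ⟨j, hj⟩ := hfar
      have h : 1 ≤ ∑ j, ind (ρ / 2) (X j).1 := by
        refine le_trans ?_ (Finset.single_le_sum (f := fun j => ind (ρ / 2) (X j).1)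
          (fun i _ => ind_nonneg _ _) (Finset.mem_univ j))
        simp [ind, hj]
      nlinarith [sq_nonneg (ψ X), sq_nonneg (sector (th ρ) a ψ X)]
  have hvC : 65 * C * v ≤ 1 / 2 := by
    have h6 : ρ ≤ ρ ^ 6 := le_self_pow₀ hρ1 (by norm_num)
    have h7 : v * ρ ≤ 1 := by
      rw [hv, one_div, inv_mul_le_iff₀ (by positivity)]
      linarith
    nlinarith
  have hmass2 : 1 / 2 ≤ nsq χ := by linarith
  have hpos : 0 < nsq χ := by linarith
  have hEχ : Qf Y χ ≤ En Z Y * nsq χ + 651 * C * v := by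
    have h : En Z Y * (∑ α ∈ Finset.univ.erase a, nsq (sector (th ρ) α ψ)) =
        En Z Y * (1 - nsq χ) := by
      congr 1
      linarith
    rw [h] at hsum
    have : v ≤ C * v := le_mul_of_one_le_left hv0.le hC
    nlinarith
  refine ⟨fun X => (Real.sqrt (nsq χ))⁻¹ * χ X, WF_smul h2 _ hχW, ?_, ?_, ?_⟩
  · rw [nsq_smul, inv_pow, Real.sq_sqrt hpos.le, inv_mul_cancel₀ hpos.ne']
  · intro X hX j
    have h : χ X ≠ 0 := right_ne_zero_of_mul hX
    have h' : (∏ j, th ρ (a j) (X j).1) ≠ 0 := left_ne_zero_of_mul h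
    exact (c2 _ ((Finset.prod_ne_zero_iff.mp h') j (Finset.mem_univ j))).le
  · rw [Qf_smul, inv_pow, Real.sq_sqrt hpos.le, inv_mul_le_iff₀ hpos]
    have e : 1302 * C / ρ ^ 6 = 1302 * C * v := by rw [hv]; ring
    rw [e]
    have h : 651 * C * v ≤ 1302 * C * v * nsq χ := by
      have h0 : 0 ≤ 1302 * C * v := by positivity
      nlinarith
    linarith

end trial

end Mom

open Mom in
theorem p_mom (hT : S_tail) (hsl : S_slice) (h8 : S_cut) (hims : S_ims) (h1 : S_lc)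
    (h2 : S_lc_closure) (h3 : S_adm) (h5 : S_en) (h6 : S_en2) : S_mom := by
  intro Z Y g hZ hg hgap
  obtain ⟨C, s0, hC, hs0, htail⟩ := tail_iter (Y := Y) hT h1 h3 h5 hZ hg hgap
  set R : ℝ := ∑ m, ‖Y m‖ with hR
  have hYR : ∀ m, ‖Y m‖ ≤ R := fun m =>
    Finset.single_le_sum (f := fun m => ‖Y m‖) (fun _ _ => norm_nonneg _) (Finset.mem_univ m)
  have hR0 : 0 ≤ R := Finset.sum_nonneg fun _ _ => norm_nonneg _
  have hZg : 0 ≤ 4 * (Z : ℝ) ^ 2 / g := by positivity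
  have hZs : 0 ≤ (Z : ℝ) * s0 ^ 4 := by positivity
  set D : ℝ := 1302 * C + Z * s0 ^ 4 + 2 * s0 + 4 * R + 4 * (Z : ℝ) ^ 2 / g with hD
  refine ⟨D, by rw [hD]; linarith, fun ρ hρ => ?_⟩
  have hρ1 : 1 ≤ ρ := by linarith
  have hρ0 : 0 < ρ := by linarith
  have hρs : 2 * s0 ≤ ρ := by linarith
  have hv0 : 0 < 1 / ρ ^ 6 := by positivity
  refine ⟨fun φ hφ hn hsupp => ⟨?_, ?_⟩, ?_⟩
  · have hε := eps_nonneg h5 Y hφ hn
    have h := moment h1 h3 hφ.toLC hn C s0 (Qf Y φ - En Z Y) ρ hC hs0 hε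
      (fun s hs => htail φ hφ hn s hs) (by linarith) hsupp
    refine h.trans ?_
    rw [Fintype.card_fin]
    have h' : 0 ≤ 1 + ρ ^ 4 * (Qf Y φ - En Z Y) := by positivity
    refine mul_le_mul_of_nonneg_right ?_ h'
    rw [hD]
    linarith
  · have hε := eps_nonneg h5 Y hφ hn
    have h := htail φ hφ hn (ρ / 2) (by linarith)
    refine h.trans ?_
    have e : 1 / (ρ / 2) ^ 6 = 64 * (1 / ρ ^ 6) := by field_simp; ring
    rw [e]
    calc C * (Qf Y φ - En Z Y + 64 * (1 / ρ ^ 6))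
        ≤ C * (64 * (Qf Y φ - En Z Y + 1 / ρ ^ 6)) := by
          gcongr
          linarith
      _ = (64 * C) * (Qf Y φ - En Z Y + 1 / ρ ^ 6) := by ring
      _ ≤ D * (Qf Y φ - En Z Y + 1 / ρ ^ 6) := by
          refine mul_le_mul_of_nonneg_right ?_ (by linarith)
          rw [hD]
          linarith
  · have hg' : 4 * (Z : ℝ) ^ 2 / ρ ≤ g := by
      rw [div_le_iff₀ hρ0]
      have : 4 * (Z : ℝ) ^ 2 / g ≤ ρ := by linarith
      rw [div_le_iff₀ hg] at this
      linarith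
    obtain ⟨φ, hφ, hn, hsupp, hQ⟩ := trial (Y := Y) hsl h8 hims h1 h2 h3 h5 h6 hρ1 hYR
      (by linarith) hgap hg' hC (by linarith)
      (fun φ hφ hn => htail φ hφ hn (ρ / 2) (by linarith))
    refine ⟨φ, hφ, hn, hsupp, hQ.trans ?_⟩
    have : 1302 * C / ρ ^ 6 ≤ D / ρ ^ 6 := by
      gcongr
      rw [hD]
      linarith
    linarith

end MolDis
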