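import Pool.Agent.Lib.MP_59f35a_mp.Stmts3

/-!
# MP_59f35a_mp : piece F2 (multipole expansions of finite families of charges)
-/

set_option linter.unusedSectionVars false

noncomputable section

open MeasureTheory Set

namespace MolDis
namespace Mult

/-- derivative of `1/‖y‖` in the direction `v` -/
def g1 (y v : E3) : ℝ := -(inner ℝ y v) * (‖y‖⁻¹) ^ 3

/-- second derivative of `1/‖y‖` in the directions `u`, `v` -/
def g2 (y u v : E3) : ℝ :=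
  -(inner ℝ u v) * (‖y‖⁻¹) ^ 3 + 3 * (inner ℝ y u * inner ℝ y v) * (‖y‖⁻¹) ^ 5

lemma d0 (y v : E3) (t : ℝ) (h : y + t • v ≠ 0) :
    HasDerivAt (fun t : ℝ => ‖y + t • v‖⁻¹) (g1 (y + t • v) v) t := by
  have h1 : HasDerivAt (fun t : ℝ => y + t • v) v t := by
    simpa using ((hasDerivAt_id t).smul_const v).const_add y
  have h2 : HasDerivAt (fun t : ℝ => ‖y + t • v‖ ^ 2) (2 * inner ℝ (y + t • v) v) t := h1.norm_sq
  have hn : 0 < ‖y + t • v‖ := norm_pos_iff.mpr h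
  have h3 := (h2.sqrt (by positivity)).inv (by
    rw [Real.sqrt_sq hn.le]
    exact hn.ne')
  have h4 : (fun t : ℝ => ‖y + t • v‖⁻¹) = fun t => (Real.sqrt (‖y + t • v‖ ^ 2))⁻¹ := by
    funext t
    rw [Real.sqrt_sq (norm_nonneg _)]
  rw [h4]
  refine h3.congr_deriv ?_
  rw [Real.sqrt_sq hn.le]
  unfold g1
  field_simp

lemma d1 (y u v : E3) (t : ℝ) (h : y + t • u ≠ 0) :
    HasDerivAt (fun t : ℝ => g1 (y + t • u) v) (g2 (y + t • u) u v) t := by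
  have h0 := d0 y u t h
  have h1 : HasDerivAt (fun t : ℝ => y + t • u) u t := by
    simpa using ((hasDerivAt_id t).smul_const u).const_add y
  have h2 : HasDerivAt (fun t : ℝ => (inner ℝ (y + t • u) v : ℝ)) (inner ℝ u v) t := by
    have := h1.inner ℝ (hasDerivAt_const t v)
    simpa using this
  have h3 := h2.neg.mul (h0.pow 3)
  refine h3.congr_deriv ?_
  unfold g1 g2
  simp
  ring

lemma mv {f f' : ℝ → ℝ} {C : ℝ} (hf : ∀ t ∈ Icc (0 : ℝ) 1, HasDerivAt f (f' t) t)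
    (hb : ∀ t ∈ Icc (0 : ℝ) 1, |f' t| ≤ C) : |f 1 - f 0| ≤ C :=
  norm_image_sub_le_of_norm_deriv_le_segment_01' (fun t ht => (hf t ht).hasDerivWithinAt)
    (fun t ht => hb t ⟨ht.1, ht.2.le⟩)

section bounds

variable {w b : E3} (hw : 0 < ‖w‖) (hb : ‖b‖ ≤ ‖w‖ / 2)
include hw hb

lemma lo : ‖w‖ / 2 ≤ ‖w + b‖ := by
  have h : ‖w‖ ≤ ‖w + b‖ + ‖b‖ := by
    calc ‖w‖ = ‖(w + b) - b‖ := by congr 1; abel
      _ ≤ _ := norm_sub_le _ _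
  linarith

lemma up : ‖w + b‖ ≤ 3 / 2 * ‖w‖ := by
  have := norm_add_le w b
  linarith

lemma ne0 : w + b ≠ 0 := by
  have := lo hw hb
  intro h
  rw [h, norm_zero] at this
  linarith

lemma inv_le : ‖w + b‖⁻¹ ≤ 2 * ‖w‖⁻¹ := by
  have h := inv_anti₀ (by positivity) (lo hw hb)
  rw [inv_div] at h
  rwa [div_eq_mul_inv] at h

lemma bd1 (v : E3) : |g1 (w + b) v| ≤ 4 * ‖v‖ * (‖w‖⁻¹) ^ 2 := by
  have hy : 0 < ‖w + b‖ := norm_pos_iff.mpr (ne0 hw hb)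
  have h1 : |inner ℝ (w + b) v| ≤ ‖w + b‖ * ‖v‖ := abs_real_inner_le_norm _ _
  unfold g1
  rw [abs_mul, abs_neg, abs_of_nonneg (by positivity : (0 : ℝ) ≤ (‖w + b‖⁻¹) ^ 3)]
  have h2 : ‖w + b‖ * ‖w + b‖⁻¹ = 1 := mul_inv_cancel₀ hy.ne'
  calc |inner ℝ (w + b) v| * (‖w + b‖⁻¹) ^ 3
      ≤ ‖w + b‖ * ‖v‖ * (‖w + b‖⁻¹) ^ 3 := mul_le_mul_of_nonneg_right h1 (by positivity)
    _ = (‖w + b‖ * ‖w + b‖⁻¹) * (‖v‖ * (‖w + b‖⁻¹) ^ 2) := by ring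
    _ = ‖v‖ * (‖w + b‖⁻¹) ^ 2 := by rw [h2, one_mul]
    _ ≤ ‖v‖ * (2 * ‖w‖⁻¹) ^ 2 := by
        have := inv_le hw hb
        gcongr
    _ = _ := by ring

lemma bd2 (u v : E3) : |g2 (w + b) u v| ≤ 32 * ‖u‖ * ‖v‖ * (‖w‖⁻¹) ^ 3 := by
  have hy : 0 < ‖w + b‖ := norm_pos_iff.mpr (ne0 hw hb)
  have h1 : |inner ℝ (w + b) v| ≤ ‖w + b‖ * ‖v‖ := abs_real_inner_le_norm _ _
  have h1' : |inner ℝ (w + b) u| ≤ ‖w + b‖ * ‖u‖ := abs_real_inner_le_norm _ _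
  have h1'' : |inner ℝ u v| ≤ ‖u‖ * ‖v‖ := abs_real_inner_le_norm _ _
  have h2 : ‖w + b‖ * ‖w + b‖⁻¹ = 1 := mul_inv_cancel₀ hy.ne'
  unfold g2
  have e1 : |-(inner ℝ u v) * (‖w + b‖⁻¹) ^ 3| ≤ ‖u‖ * ‖v‖ * (‖w + b‖⁻¹) ^ 3 := by
    rw [abs_mul, abs_neg, abs_of_nonneg (by positivity : (0 : ℝ) ≤ (‖w + b‖⁻¹) ^ 3)]
    exact mul_le_mul_of_nonneg_right h1'' (by positivity)
  have e2 : |3 * (inner ℝ (w + b) u * inner ℝ (w + b) v) * (‖w + b‖⁻¹) ^ 5| ≤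
      3 * (‖u‖ * ‖v‖) * (‖w + b‖⁻¹) ^ 3 := by
    rw [abs_mul, abs_mul, abs_mul, abs_of_nonneg (by positivity : (0 : ℝ) ≤ (‖w + b‖⁻¹) ^ 5),
      abs_of_nonneg (by norm_num : (0 : ℝ) ≤ 3)]
    calc 3 * (|inner ℝ (w + b) u| * |inner ℝ (w + b) v|) * (‖w + b‖⁻¹) ^ 5
        ≤ 3 * ((‖w + b‖ * ‖u‖) * (‖w + b‖ * ‖v‖)) * (‖w + b‖⁻¹) ^ 5 := by gcongr
      _ = (‖w + b‖ * ‖w + b‖⁻¹) ^ 2 * (3 * (‖u‖ * ‖v‖) * (‖w + b‖⁻¹) ^ 3) := by ring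
      _ = _ := by rw [h2, one_pow, one_mul]
  have h3 : (‖w + b‖⁻¹) ^ 3 ≤ (2 * ‖w‖⁻¹) ^ 3 :=
    pow_le_pow_left₀ (by positivity) (inv_le hw hb) 3
  calc _ ≤ ‖u‖ * ‖v‖ * (‖w + b‖⁻¹) ^ 3 + 3 * (‖u‖ * ‖v‖) * (‖w + b‖⁻¹) ^ 3 :=
        (abs_add_le _ _).trans (add_le_add e1 e2)
    _ = 4 * (‖u‖ * ‖v‖) * (‖w + b‖⁻¹) ^ 3 := by ring
    _ ≤ 4 * (‖u‖ * ‖v‖) * (2 * ‖w‖⁻¹) ^ 3 := mul_le_mul_of_nonneg_left h3 (by positivity)
    _ = _ := by ring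

lemma lip2 (u v : E3) :
    |g2 (w + b) u v - g2 w u v| ≤ 440 * ‖b‖ * ‖u‖ * ‖v‖ * (‖w‖⁻¹) ^ 4 := by
  have hy : 0 < ‖w + b‖ := norm_pos_iff.mpr (ne0 hw hb)
  set ρ := ‖w + b‖⁻¹ with hρ
  set o := ‖w‖⁻¹ with ho
  have hρ0 : 0 < ρ := by positivity
  have ho0 : 0 < o := by positivity
  have h2 : ‖w + b‖ * ρ = 1 := mul_inv_cancel₀ hy.ne'
  have h2' : ‖w‖ * o = 1 := mul_inv_cancel₀ hw.ne'
  have hρo : ρ ≤ 2 * o := inv_le hw hb
  -- difference of the inverses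
  have hd : |ρ - o| ≤ 2 * ‖b‖ * o ^ 2 := by
    have e1 : ρ - o = (‖w‖ - ‖w + b‖) * (ρ * o) := by
      calc ρ - o = (‖w‖ * o) * ρ - (‖w + b‖ * ρ) * o := by rw [h2, h2']; ring
        _ = _ := by ring
    have e2 : |‖w‖ - ‖w + b‖| ≤ ‖b‖ := by
      have := abs_norm_sub_norm_le w (w + b)
      rwa [show w - (w + b) = -b by abel, norm_neg] at this
    rw [e1, abs_mul, abs_of_nonneg (by positivity : 0 ≤ ρ * o)]
    calc |‖w‖ - ‖w + b‖| * (ρ * o) ≤ ‖b‖ * ((2 * o) * o) := by gcongr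
      _ = _ := by ring
  have h3 : |ρ ^ 3 - o ^ 3| ≤ 14 * ‖b‖ * o ^ 4 := by
    have e1 : ρ ^ 3 - o ^ 3 = (ρ - o) * (ρ ^ 2 + ρ * o + o ^ 2) := by ring
    rw [e1, abs_mul, abs_of_nonneg (by positivity : 0 ≤ ρ ^ 2 + ρ * o + o ^ 2)]
    calc |ρ - o| * (ρ ^ 2 + ρ * o + o ^ 2)
        ≤ (2 * ‖b‖ * o ^ 2) * ((2 * o) ^ 2 + (2 * o) * o + o ^ 2) := by gcongr
      _ = _ := by ring
  have h5 : |ρ ^ 5 - o ^ 5| ≤ 62 * ‖b‖ * o ^ 6 := by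
    have e1 : ρ ^ 5 - o ^ 5 =
        (ρ - o) * (ρ ^ 4 + ρ ^ 3 * o + ρ ^ 2 * o ^ 2 + ρ * o ^ 3 + o ^ 4) := by ring
    rw [e1, abs_mul, abs_of_nonneg
      (by positivity : 0 ≤ ρ ^ 4 + ρ ^ 3 * o + ρ ^ 2 * o ^ 2 + ρ * o ^ 3 + o ^ 4)]
    calc |ρ - o| * (ρ ^ 4 + ρ ^ 3 * o + ρ ^ 2 * o ^ 2 + ρ * o ^ 3 + o ^ 4)
        ≤ (2 * ‖b‖ * o ^ 2) * ((2 * o) ^ 4 + (2 * o) ^ 3 * o + (2 * o) ^ 2 * o ^ 2 +
          (2 * o) * o ^ 3 + o ^ 4) := by gcongr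
      _ = _ := by ring
  have i1 : |inner ℝ u v| ≤ ‖u‖ * ‖v‖ := abs_real_inner_le_norm _ _
  have i2 : |inner ℝ (w + b) u| ≤ (3 / 2 * ‖w‖) * ‖u‖ :=
    (abs_real_inner_le_norm _ _).trans (mul_le_mul_of_nonneg_right (up hw hb) (norm_nonneg _))
  have i3 : |inner ℝ (w + b) v| ≤ (3 / 2 * ‖w‖) * ‖v‖ :=
    (abs_real_inner_le_norm _ _).trans (mul_le_mul_of_nonneg_right (up hw hb) (norm_nonneg _))
  have i4 : |inner ℝ b u| ≤ ‖b‖ * ‖u‖ := abs_real_inner_le_norm _ _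
  have i5 : |inner ℝ b v| ≤ ‖b‖ * ‖v‖ := abs_real_inner_le_norm _ _
  have i6 : |inner ℝ w u| ≤ ‖w‖ * ‖u‖ := abs_real_inner_le_norm _ _
  have e : g2 (w + b) u v - g2 w u v = -(inner ℝ u v) * (ρ ^ 3 - o ^ 3) +
      3 * (inner ℝ (w + b) u * inner ℝ (w + b) v) * (ρ ^ 5 - o ^ 5) +
      3 * (inner ℝ b u * inner ℝ (w + b) v + inner ℝ w u * inner ℝ b v) * o ^ 5 := by
    have j1 : inner ℝ (w + b) u = inner ℝ w u + (inner ℝ b u : ℝ) := inner_add_left _ _ _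
    have j2 : inner ℝ (w + b) v = inner ℝ w v + (inner ℝ b v : ℝ) := inner_add_left _ _ _
    unfold g2
    rw [← hρ, ← ho, j1, j2]
    ring
  have t1 : |-(inner ℝ u v) * (ρ ^ 3 - o ^ 3)| ≤ (‖u‖ * ‖v‖) * (14 * ‖b‖ * o ^ 4) := by
    rw [abs_mul, abs_neg]
    exact mul_le_mul i1 h3 (abs_nonneg _) (by positivity)
  have t2 : |3 * (inner ℝ (w + b) u * inner ℝ (w + b) v) * (ρ ^ 5 - o ^ 5)| ≤
      3 * (((3 / 2 * ‖w‖) * ‖u‖) * ((3 / 2 * ‖w‖) * ‖v‖)) * (62 * ‖b‖ * o ^ 6) := by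
    rw [abs_mul, abs_mul, abs_mul, abs_of_nonneg (by norm_num : (0 : ℝ) ≤ 3)]
    gcongr
  have t3 : |3 * (inner ℝ b u * inner ℝ (w + b) v + inner ℝ w u * inner ℝ b v) * o ^ 5| ≤
      3 * ((‖b‖ * ‖u‖) * ((3 / 2 * ‖w‖) * ‖v‖) + (‖w‖ * ‖u‖) * (‖b‖ * ‖v‖)) * o ^ 5 := by
    rw [abs_mul, abs_mul, abs_of_nonneg (by norm_num : (0 : ℝ) ≤ 3),
      abs_of_nonneg (by positivity : 0 ≤ o ^ 5)]
    have : |(inner ℝ b u : ℝ) * inner ℝ (w + b) v + inner ℝ w u * inner ℝ b v| ≤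
        (‖b‖ * ‖u‖) * ((3 / 2 * ‖w‖) * ‖v‖) + (‖w‖ * ‖u‖) * (‖b‖ * ‖v‖) := by
      refine (abs_add_le _ _).trans (add_le_add ?_ ?_)
      · rw [abs_mul]
        gcongr
      · rw [abs_mul]
        gcongr
    gcongr
  rw [e]
  calc _ ≤ (‖u‖ * ‖v‖) * (14 * ‖b‖ * o ^ 4) +
        3 * (((3 / 2 * ‖w‖) * ‖u‖) * ((3 / 2 * ‖w‖) * ‖v‖)) * (62 * ‖b‖ * o ^ 6) +
        3 * ((‖b‖ * ‖u‖) * ((3 / 2 * ‖w‖) * ‖v‖) + (‖w‖ * ‖u‖) * (‖b‖ * ‖v‖)) * o ^ 5 :=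
        (abs_add_le _ _).trans (add_le_add ((abs_add_le _ _).trans (add_le_add t1 t2)) t3)
    _ = (‖u‖ * ‖v‖ * ‖b‖ * o ^ 4) * (14 + 837 / 2 * (‖w‖ * o) ^ 2 + 15 / 2 * (‖w‖ * o)) := by
        ring
    _ = _ := by rw [h2']; ring

end bounds

/-- first difference -/
lemma diff1 {w a : E3} (hw : 0 < ‖w‖) (ha : ‖a‖ ≤ ‖w‖ / 2) :
    |‖w + a‖⁻¹ - ‖w‖⁻¹| ≤ 4 * ‖a‖ * (‖w‖⁻¹) ^ 2 := by
  have hb : ∀ t ∈ Icc (0 : ℝ) 1, ‖t • a‖ ≤ ‖w‖ / 2 := by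
    intro t ht
    rw [norm_smul, Real.norm_of_nonneg ht.1]
    have := mul_le_mul_of_nonneg_right ht.2 (norm_nonneg a)
    linarith
  have h := mv (f := fun t : ℝ => ‖w + t • a‖⁻¹) (f' := fun t => g1 (w + t • a) a)
    (C := 4 * ‖a‖ * (‖w‖⁻¹) ^ 2) (fun t ht => d0 w a t (ne0 hw (hb t ht)))
    (fun t ht => bd1 hw (hb t ht) a)
  simpa using h

/-- difference of first derivatives -/
lemma diff2 {w b u : E3} (hw : 0 < ‖w‖) (hb : ‖b‖ ≤ ‖w‖ / 2) :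
    |g1 (w + b) u - g1 w u| ≤ 32 * ‖b‖ * ‖u‖ * (‖w‖⁻¹) ^ 3 := by
  have hb' : ∀ t ∈ Icc (0 : ℝ) 1, ‖t • b‖ ≤ ‖w‖ / 2 := by
    intro t ht
    rw [norm_smul, Real.norm_of_nonneg ht.1]
    have := mul_le_mul_of_nonneg_right ht.2 (norm_nonneg b)
    linarith
  have h := mv (f := fun t : ℝ => g1 (w + t • b) u) (f' := fun t => g2 (w + t • b) b u)
    (C := 32 * ‖b‖ * ‖u‖ * (‖w‖⁻¹) ^ 3) (fun t ht => d1 w b u t (ne0 hw (hb' t ht)))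
    (fun t ht => bd2 hw (hb' t ht) b u)
  simpa using h

/-- the estimate for `(2)` -/
lemma est2 {w u u' : E3} (hw : 0 < ‖w‖) (hu : ‖u‖ ≤ ‖w‖ / 4) (hu' : ‖u'‖ ≤ ‖w‖ / 4) :
    |‖w + u - u'‖⁻¹ - ‖w - u'‖⁻¹ - g1 w u| ≤
      32 * (‖u‖ + ‖u'‖) * ‖u‖ * (‖w‖⁻¹) ^ 3 := by
  have hb : ∀ t ∈ Icc (0 : ℝ) 1, ‖t • u - u'‖ ≤ ‖u‖ + ‖u'‖ := by
    intro t ht
    have h1 : ‖t • u‖ ≤ ‖u‖ := by
      rw [norm_smul, Real.norm_of_nonneg ht.1]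
      exact mul_le_of_le_one_left (norm_nonneg _) ht.2
    exact (norm_sub_le _ _).trans (add_le_add h1 le_rfl)
  have hb2 : ∀ t ∈ Icc (0 : ℝ) 1, ‖t • u - u'‖ ≤ ‖w‖ / 2 := fun t ht => by
    have := hb t ht
    linarith
  have hpt : ∀ t : ℝ, (w - u') + t • u = w + (t • u - u') := fun t => by abel
  have h := mv (f := fun t : ℝ => ‖(w - u') + t • u‖⁻¹ - t * g1 w u)
    (f' := fun t => g1 ((w - u') + t • u) u - g1 w u)
    (C := 32 * (‖u‖ + ‖u'‖) * ‖u‖ * (‖w‖⁻¹) ^ 3)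
    (fun t ht => by
      have h1 := d0 (w - u') u t (by rw [hpt]; exact ne0 hw (hb2 t ht))
      have h2 : HasDerivAt (fun t : ℝ => t * g1 w u) (g1 w u) t := by
        simpa using (hasDerivAt_id t).mul_const (g1 w u)
      exact h1.sub h2)
    (fun t ht => by
      rw [hpt]
      refine (diff2 hw (hb2 t ht)).trans ?_
      have := hb t ht
      gcongr)
  have e1 : (w - u') + (1 : ℝ) • u = w + u - u' := by rw [one_smul]; abel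
  simp only [e1, zero_smul, add_zero, zero_mul, one_mul, sub_zero] at h
  have e2 : ‖w + u - u'‖⁻¹ - g1 w u - ‖w - u'‖⁻¹ =
      ‖w + u - u'‖⁻¹ - ‖w - u'‖⁻¹ - g1 w u := by ring
  rwa [e2] at h

/-- the estimate for `(1)` -/
lemma est1 {w u u' : E3} (hw : 0 < ‖w‖) (hu : ‖u‖ ≤ ‖w‖ / 4) (hu' : ‖u'‖ ≤ ‖w‖ / 4) :
    |‖w + u - u'‖⁻¹ - ‖w - u'‖⁻¹ - ‖w + u‖⁻¹ + ‖w‖⁻¹ + g2 w u' u| ≤
      440 * (‖u‖ + ‖u'‖) * ‖u'‖ * ‖u‖ * (‖w‖⁻¹) ^ 4 := by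
  have hb : ∀ s ∈ Icc (0 : ℝ) 1, ∀ t ∈ Icc (0 : ℝ) 1, ‖s • u + t • (-u')‖ ≤ ‖u‖ + ‖u'‖ := by
    intro s hs t ht
    have h1 : ‖s • u‖ ≤ ‖u‖ := by
      rw [norm_smul, Real.norm_of_nonneg hs.1]
      exact mul_le_of_le_one_left (norm_nonneg _) hs.2
    have h2 : ‖t • (-u')‖ ≤ ‖u'‖ := by
      rw [norm_smul, Real.norm_of_nonneg ht.1, norm_neg]
      exact mul_le_of_le_one_left (norm_nonneg _) ht.2
    exact (norm_add_le _ _).trans (add_le_add h1 h2)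
  have hb2 : ∀ s ∈ Icc (0 : ℝ) 1, ∀ t ∈ Icc (0 : ℝ) 1, ‖s • u + t • (-u')‖ ≤ ‖w‖ / 2 :=
    fun s hs t ht => by
      have := hb s hs t ht
      linarith
  have g2neg : ∀ y : E3, g2 y (-u') u = - g2 y u' u := by
    intro y
    unfold g2
    rw [inner_neg_left, inner_neg_right]
    ring
  -- inner estimate
  have hin : ∀ s ∈ Icc (0 : ℝ) 1,
      |g1 ((w + s • u) + (1 : ℝ) • (-u')) u - g1 (w + s • u) u + g2 w u' u| ≤
        440 * (‖u‖ + ‖u'‖) * ‖u'‖ * ‖u‖ * (‖w‖⁻¹) ^ 4 := by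
    intro s hs
    have hpt : ∀ t : ℝ, (w + s • u) + t • (-u') = w + (s • u + t • (-u')) := fun t => by
      rw [add_assoc]
    have h := mv (f := fun t : ℝ => g1 ((w + s • u) + t • (-u')) u + t * g2 w u' u)
      (f' := fun t => g2 ((w + s • u) + t • (-u')) (-u') u + g2 w u' u)
      (C := 440 * (‖u‖ + ‖u'‖) * ‖u'‖ * ‖u‖ * (‖w‖⁻¹) ^ 4)
      (fun t ht => by
        have h1 := d1 (w + s • u) (-u') u t (by rw [hpt]; exact ne0 hw (hb2 s hs t ht))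
        have h2 : HasDerivAt (fun t : ℝ => t * g2 w u' u) (g2 w u' u) t := by
          simpa using (hasDerivAt_id t).mul_const (g2 w u' u)
        exact h1.add h2)
      (fun t ht => by
        rw [hpt]
        have h1 := lip2 hw (hb2 s hs t ht) (-u') u
        rw [g2neg w, sub_neg_eq_add, norm_neg] at h1
        refine h1.trans ?_
        have := hb s hs t ht
        gcongr)
    simp only [zero_smul, add_zero, zero_mul, one_mul] at h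
    have e2 : g1 ((w + s • u) + (1 : ℝ) • (-u')) u + g2 w u' u - g1 (w + s • u) u =
        g1 ((w + s • u) + (1 : ℝ) • (-u')) u - g1 (w + s • u) u + g2 w u' u := by ring
    rwa [e2] at h
  -- outer estimate
  have hpt : ∀ s : ℝ, (w + (-u')) + s • u = (w + s • u) + (1 : ℝ) • (-u') := fun s => by
    rw [one_smul]; abel
  have hpt2 : ∀ s t : ℝ, (w + s • u) + t • (-u') = w + (s • u + t • (-u')) := fun s t => by
    rw [add_assoc]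
  have h := mv (f := fun s : ℝ => ‖(w + (-u')) + s • u‖⁻¹ - ‖w + s • u‖⁻¹ + s * g2 w u' u)
    (f' := fun s => g1 ((w + (-u')) + s • u) u - g1 (w + s • u) u + g2 w u' u)
    (C := 440 * (‖u‖ + ‖u'‖) * ‖u'‖ * ‖u‖ * (‖w‖⁻¹) ^ 4)
    (fun s hs => by
      have h1 := d0 (w + (-u')) u s (by
        rw [hpt, hpt2]
        exact ne0 hw (hb2 s hs 1 ⟨zero_le_one, le_rfl⟩))
      have h0 := d0 w u s (by
        have h3 := hpt2 s 0
        rw [zero_smul, add_zero] at h3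
        rw [h3]
        have h4 := hb2 s hs 0 ⟨le_rfl, zero_le_one⟩
        rw [zero_smul] at h4
        exact ne0 hw h4)
      have h2 : HasDerivAt (fun t : ℝ => t * g2 w u' u) (g2 w u' u) s := by
        simpa using (hasDerivAt_id s).mul_const (g2 w u' u)
      exact (h1.sub h0).add h2)
    (fun s hs => by
      rw [hpt]
      exact hin s hs)
  have e1 : w - u' + u = w + u - u' := by abel
  have e3 : w + (-u') = w - u' := by abel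
  simp only [e3, zero_smul, add_zero, zero_mul, one_mul, one_smul, e1] at h
  have e2 : ‖w + u - u'‖⁻¹ - ‖w + u‖⁻¹ + g2 w u' u - (‖w - u'‖⁻¹ - ‖w‖⁻¹) =
      ‖w + u - u'‖⁻¹ - ‖w - u'‖⁻¹ - ‖w + u‖⁻¹ + ‖w‖⁻¹ + g2 w u' u := by ring
  rwa [e2] at h

section sums

variable {n n' : Type} [Fintype n] [Fintype n'] (q : n → ℝ) (q' : n' → ℝ)

lemma snn {a : n → ℝ} (ha : ∀ i, 0 ≤ a i) : 0 ≤ ∑ i, |q i| * a i :=
  Finset.sum_nonneg fun i _ => mul_nonneg (abs_nonneg _) (ha i)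

lemma snn0 : 0 ≤ ∑ i, |q i| := Finset.sum_nonneg fun i _ => abs_nonneg _

lemma dsum {f B : n → n' → ℝ} (h : ∀ i j, |f i j| ≤ B i j) :
    |∑ i, ∑ j, q i * q' j * f i j| ≤ ∑ i, ∑ j, |q i| * |q' j| * B i j := by
  refine (Finset.abs_sum_le_sum_abs _ _).trans (Finset.sum_le_sum fun i _ => ?_)
  refine (Finset.abs_sum_le_sum_abs _ _).trans (Finset.sum_le_sum fun j _ => ?_)
  rw [abs_mul, abs_mul]
  exact mul_le_mul_of_nonneg_left (h i j) (by positivity)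

lemma psum (c : ℝ) (a a' : n → ℝ) (b b' : n' → ℝ) :
    ∑ i, ∑ j, |q i| * |q' j| * (c * (a i * b j + a' i * b' j)) =
      c * ((∑ i, |q i| * a i) * (∑ j, |q' j| * b j) + (∑ i, |q i| * a' i) * (∑ j, |q' j| * b' j)) := by
  rw [Finset.sum_mul_sum, Finset.sum_mul_sum, ← Finset.sum_add_distrib, Finset.mul_sum]
  refine Finset.sum_congr rfl fun i _ => ?_
  rw [← Finset.sum_add_distrib, Finset.mul_sum]
  exact Finset.sum_congr rfl fun j _ => by ring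

/-- terms which do not depend on both variables disappear -/
lemma kill_l (hq : ∑ i, q i = 0) (f : n' → ℝ) : ∑ i, ∑ j, q i * q' j * f j = 0 := by
  have : ∀ i, ∑ j, q i * q' j * f j = q i * ∑ j, q' j * f j := by
    intro i
    rw [Finset.mul_sum]
    exact Finset.sum_congr rfl fun j _ => by ring
  simp only [this]
  rw [← Finset.sum_mul, hq, zero_mul]

lemma kill_r (hq : ∑ j, q' j = 0) (f : n → ℝ) : ∑ i, ∑ j, q i * q' j * f i = 0 := by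
  refine Finset.sum_eq_zero fun i _ => ?_
  have : ∀ j, q i * q' j * f i = (q i * f i) * q' j := fun j => by ring
  simp only [this]
  rw [← Finset.mul_sum, hq, mul_zero]

end sums

lemma g2_T (w u u' : E3) : g2 w u' u = - inner ℝ (Tvec w u) u' := by
  unfold g2 Tvec
  rw [real_inner_smul_left, inner_sub_left, real_inner_smul_left, real_inner_comm u u',
    real_inner_comm u w]
  by_cases h : ‖w‖ = 0
  · simp [h]
  · field_simp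
    ring

lemma Tvec_sum {n : Type} [Fintype n] (w : E3) (q : n → ℝ) (u : n → E3) (v : E3) :
    inner ℝ (Tvec w (∑ i, q i • u i)) v = ∑ i, q i * inner ℝ (Tvec w (u i)) v := by
  have h : ∀ a : E3, inner ℝ (Tvec w a) v =
      (1 / ‖w‖ ^ 3) * (inner ℝ a v - 3 * inner ℝ a w / ‖w‖ ^ 2 * inner ℝ w v) := by
    intro a
    unfold Tvec
    rw [real_inner_smul_left, inner_sub_left, real_inner_smul_left]
  simp only [h, sum_inner, real_inner_smul_left]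
  rw [Finset.mul_sum, Finset.sum_div, Finset.sum_mul, ← Finset.sum_sub_distrib, Finset.mul_sum]
  exact Finset.sum_congr rfl fun i _ => by ring

end Mult

/-- **piece F2** -/
theorem p_mult : S_mult := by
  refine ⟨440, by norm_num, ?_⟩
  intro n n' _ _ q q' x x' z z' hzz hx hx'
  set w := z - z' with hw
  have hw0 : 0 < ‖w‖ := norm_pos_iff.mpr (sub_ne_zero.mpr hzz)
  set u : n → E3 := fun i => x i - z with hu
  set u' : n' → E3 := fun j => x' j - z' with hu'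
  have hc : ∀ i j, cou (x i) (x' j) = ‖w + u i - u' j‖⁻¹ := by
    intro i j
    unfold cou
    congr 2
    simp only [hw, hu, hu']
    abel
  have hxu : ∀ i, ‖u i‖ ≤ ‖w‖ / 4 := hx
  have hxu' : ∀ j, ‖u' j‖ ≤ ‖w‖ / 4 := hx'
  have ho : 0 ≤ ‖w‖⁻¹ := by positivity
  simp only [hc]
  refine ⟨fun hq hq' => ?_, fun hq => ?_, ?_⟩
  · have e : (∑ i, ∑ j, q i * q' j * ‖w + u i - u' j‖⁻¹) -
        inner ℝ (Tvec w (∑ i, q i • u i)) (∑ j, q' j • u' j) =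
        ∑ i, ∑ j, q i * q' j * (‖w + u i - u' j‖⁻¹ - ‖w - u' j‖⁻¹ - ‖w + u i‖⁻¹ + ‖w‖⁻¹ +
          Mult.g2 w (u' j) (u i)) := by
      have h1 : inner ℝ (Tvec w (∑ i, q i • u i)) (∑ j, q' j • u' j) =
          ∑ i, ∑ j, q i * q' j * (- Mult.g2 w (u' j) (u i)) := by
        rw [Mult.Tvec_sum]
        refine Finset.sum_congr rfl fun i _ => ?_
        rw [inner_sum, Finset.mul_sum]
        refine Finset.sum_congr rfl fun j _ => ?_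
        rw [real_inner_smul_right, Mult.g2_T]
        ring
      have h2 := Mult.kill_l q q' hq (fun j => ‖w - u' j‖⁻¹)
      have h3 := Mult.kill_r q q' hq' (fun i => ‖w + u i‖⁻¹)
      have h4 := Mult.kill_l q q' hq (fun _ => ‖w‖⁻¹)
      rw [h1]
      have h5 : ∑ i, ∑ j, q i * q' j * (‖w + u i - u' j‖⁻¹ - ‖w - u' j‖⁻¹ - ‖w + u i‖⁻¹ + ‖w‖⁻¹ +
          Mult.g2 w (u' j) (u i)) = (∑ i, ∑ j, q i * q' j * ‖w + u i - u' j‖⁻¹) -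
          (∑ i, ∑ j, q i * q' j * ‖w - u' j‖⁻¹) - (∑ i, ∑ j, q i * q' j * ‖w + u i‖⁻¹) +
          (∑ i, ∑ j, q i * q' j * ‖w‖⁻¹) -
          ∑ i, ∑ j, q i * q' j * (- Mult.g2 w (u' j) (u i)) := by
        simp only [← Finset.sum_sub_distrib, ← Finset.sum_add_distrib]
        exact Finset.sum_congr rfl fun i _ => Finset.sum_congr rfl fun j _ => by ring
      rw [h5, h2, h3, h4]
      ring
    rw [e]
    have hb := Mult.dsum q q' (fun i j => Mult.est1 hw0 (hxu i) (hxu' j))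
    refine hb.trans_eq ?_
    have h6 := Mult.psum q q' (440 * (‖w‖⁻¹) ^ 4) (fun i => ‖u i‖) (fun i => ‖u i‖ ^ 2)
      (fun j => ‖u' j‖ ^ 2) (fun j => ‖u' j‖)
    have h7 : ∑ i, ∑ j, |q i| * |q' j| * (440 * (‖u i‖ + ‖u' j‖) * ‖u' j‖ * ‖u i‖ * (‖w‖⁻¹) ^ 4) =
        ∑ i, ∑ j, |q i| * |q' j| * (440 * (‖w‖⁻¹) ^ 4 *
          (‖u i‖ * ‖u' j‖ ^ 2 + ‖u i‖ ^ 2 * ‖u' j‖)) :=
      Finset.sum_congr rfl fun i _ => Finset.sum_congr rfl fun j _ => by ring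
    rw [h7, h6]
    congr 1
    rw [inv_pow, div_eq_mul_inv]
  · have e : (∑ i, ∑ j, q i * q' j * ‖w + u i - u' j‖⁻¹) +
        (∑ j, q' j) * inner ℝ (∑ i, q i • u i) w / ‖w‖ ^ 3 =
        ∑ i, ∑ j, q i * q' j * (‖w + u i - u' j‖⁻¹ - ‖w - u' j‖⁻¹ - Mult.g1 w (u i)) := by
      have h1 : (∑ j, q' j) * inner ℝ (∑ i, q i • u i) w / ‖w‖ ^ 3 =
          ∑ i, ∑ j, q i * q' j * (- Mult.g1 w (u i)) := by
        rw [sum_inner]
        simp only [real_inner_smul_left]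
        rw [mul_comm, Finset.sum_mul, Finset.sum_div]
        refine Finset.sum_congr rfl fun i _ => ?_
        rw [Finset.mul_sum, Finset.sum_div]
        refine Finset.sum_congr rfl fun j _ => ?_
        unfold Mult.g1
        rw [real_inner_comm (u i) w, inv_pow, div_eq_mul_inv]
        ring
      have h2 := Mult.kill_l q q' hq (fun j => ‖w - u' j‖⁻¹)
      rw [h1]
      have h5 : ∑ i, ∑ j, q i * q' j * (‖w + u i - u' j‖⁻¹ - ‖w - u' j‖⁻¹ - Mult.g1 w (u i)) =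
          (∑ i, ∑ j, q i * q' j * ‖w + u i - u' j‖⁻¹) -
          (∑ i, ∑ j, q i * q' j * ‖w - u' j‖⁻¹) +
          ∑ i, ∑ j, q i * q' j * (- Mult.g1 w (u i)) := by
        simp only [← Finset.sum_sub_distrib, ← Finset.sum_add_distrib]
        exact Finset.sum_congr rfl fun i _ => Finset.sum_congr rfl fun j _ => by ring
      rw [h5, h2]
      ring
    rw [e]
    have hb := Mult.dsum q q' (fun i j => Mult.est2 hw0 (hxu i) (hxu' j))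
    refine hb.trans ?_
    have h6 := Mult.psum q q' (32 * (‖w‖⁻¹) ^ 3) (fun i => ‖u i‖) (fun i => ‖u i‖ ^ 2)
      (fun j => ‖u' j‖) (fun _ => 1)
    have h7 : ∑ i, ∑ j, |q i| * |q' j| * (32 * (‖u i‖ + ‖u' j‖) * ‖u i‖ * (‖w‖⁻¹) ^ 3) =
        ∑ i, ∑ j, |q i| * |q' j| * (32 * (‖w‖⁻¹) ^ 3 *
          (‖u i‖ * ‖u' j‖ + ‖u i‖ ^ 2 * 1)) :=
      Finset.sum_congr rfl fun i _ => Finset.sum_congr rfl fun j _ => by ring
    rw [h7, h6]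
    simp only [mul_one]
    have h8 : (0 : ℝ) ≤ (∑ i, |q i| * ‖u i‖) * (∑ j, |q' j| * ‖u' j‖) +
        (∑ i, |q i| * ‖u i‖ ^ 2) * ∑ j, |q' j| :=
      add_nonneg (mul_nonneg (Mult.snn q fun i => norm_nonneg _)
        (Mult.snn q' fun j => norm_nonneg _))
        (mul_nonneg (Mult.snn q fun i => sq_nonneg _) (Mult.snn0 q'))
    have h9 : 32 * (‖w‖⁻¹) ^ 3 ≤ 440 / ‖w‖ ^ 3 := by
      rw [inv_pow, div_eq_mul_inv]
      have : 0 ≤ (‖w‖ ^ 3)⁻¹ := by positivity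
      linarith
    exact mul_le_mul_of_nonneg_right h9 h8
  · have e : (∑ i, ∑ j, q i * q' j * ‖w + u i - u' j‖⁻¹) - (∑ i, q i) * (∑ j, q' j) / ‖w‖ =
        ∑ i, ∑ j, q i * q' j * (‖w + (u i - u' j)‖⁻¹ - ‖w‖⁻¹) := by
      have h1 : (∑ i, q i) * (∑ j, q' j) / ‖w‖ = ∑ i, ∑ j, q i * q' j * ‖w‖⁻¹ := by
        rw [Finset.sum_mul_sum, div_eq_mul_inv, Finset.sum_mul]
        refine Finset.sum_congr rfl fun i _ => ?_
        rw [Finset.sum_mul]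
      rw [h1]
      simp only [← Finset.sum_sub_distrib]
      refine Finset.sum_congr rfl fun i _ => Finset.sum_congr rfl fun j _ => ?_
      rw [add_sub_assoc]
      ring
    rw [e]
    have hbb : ∀ i j, ‖u i - u' j‖ ≤ ‖u i‖ + ‖u' j‖ := fun i j => norm_sub_le _ _
    have hb := Mult.dsum q q' (f := fun i j => ‖w + (u i - u' j)‖⁻¹ - ‖w‖⁻¹)
      (B := fun i j => 4 * (‖u i‖ + ‖u' j‖) * (‖w‖⁻¹) ^ 2) (fun i j => by
        have h1 : ‖u i - u' j‖ ≤ ‖w‖ / 2 := by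
          have := hbb i j
          have := hxu i
          have := hxu' j
          linarith
        refine (Mult.diff1 hw0 h1).trans ?_
        have := hbb i j
        gcongr)
    refine hb.trans ?_
    have h6 := Mult.psum q q' (4 * (‖w‖⁻¹) ^ 2) (fun i => ‖u i‖) (fun _ => 1)
      (fun _ => 1) (fun j => ‖u' j‖)
    have h7 : ∑ i, ∑ j, |q i| * |q' j| * (4 * (‖u i‖ + ‖u' j‖) * (‖w‖⁻¹) ^ 2) =
        ∑ i, ∑ j, |q i| * |q' j| * (4 * (‖w‖⁻¹) ^ 2 *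
          (‖u i‖ * 1 + 1 * ‖u' j‖)) :=
      Finset.sum_congr rfl fun i _ => Finset.sum_congr rfl fun j _ => by ring
    rw [h7, h6]
    simp only [mul_one]
    have h8 : (0 : ℝ) ≤ (∑ i, |q i| * ‖u i‖) * (∑ j, |q' j|) +
        (∑ i, |q i|) * ∑ j, |q' j| * ‖u' j‖ :=
      add_nonneg (mul_nonneg (Mult.snn q fun i => norm_nonneg _) (Mult.snn0 q'))
        (mul_nonneg (Mult.snn0 q) (Mult.snn q' fun j => norm_nonneg _))
    have h9 : 4 * (‖w‖⁻¹) ^ 2 ≤ 440 / ‖w‖ ^ 2 := by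
      rw [inv_pow, div_eq_mul_inv]
      have : 0 ≤ (‖w‖ ^ 2)⁻¹ := by positivity
      linarith
    exact mul_le_mul_of_nonneg_right h9 h8

end MolDis
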