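import Pool.Agent.Lib.MP_59f35a_mp.Stmts2

/-!
# MP_59f35a_mp : piece E1 (deterministic Onsager inequality)
-/

set_option linter.unusedSectionVars false

noncomputable section

open MeasureTheory

namespace MolDis
namespace Ons

/-- finite charge distributions -/
abbrev Ch := E3 →₀ ℝ

/-- unit charge -/
def pt (x : E3) : Ch := Finsupp.single x 1

/-- mutual energy -/
def BF (F : E3 → E3 → ℝ) : Ch →ₗ[ℝ] Ch →ₗ[ℝ] ℝ :=
  Finsupp.linearCombination ℝ (fun x => Finsupp.linearCombination ℝ (fun y => F x y))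

lemma BF_pt (F : E3 → E3 → ℝ) (x y : E3) : BF F (pt x) (pt y) = F x y := by
  simp [BF, pt]

lemma BF_single (F : E3 → E3 → ℝ) (x y : E3) (a b : ℝ) :
    BF F (Finsupp.single x a) (Finsupp.single y b) = a * b * F x y := by
  simp [BF]
  ring

lemma BF_symm {F : E3 → E3 → ℝ} (hF : ∀ x y, F x y = F y x) (ω ω' : Ch) :
    BF F ω ω' = BF F ω' ω := by
  induction ω using Finsupp.induction_linear with
  | zero => simp
  | add f g hf hg => rw [map_add, LinearMap.add_apply, hf, hg, map_add]
  | single x a =>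
    induction ω' using Finsupp.induction_linear with
    | zero => simp
    | add f g hf hg => rw [map_add, hf, hg, map_add, LinearMap.add_apply]
    | single y b =>
      rw [BF_single, BF_single, hF x y]
      ring

lemma cou_comm (x y : E3) : cou x y = cou y x := by simp [cou, norm_sub_rev]

lemma cou_nonneg (x y : E3) : 0 ≤ cou x y := inv_nonneg.mpr (norm_nonneg _)

lemma BF_sum (F : E3 → E3 → ℝ) {α β : Type} [Fintype α] [Fintype β] (s : α → E3) (t : β → E3) :
    BF F (∑ a, pt (s a)) (∑ b, pt (t b)) = ∑ a, ∑ b, F (s a) (t b) := by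
  rw [map_sum (BF F), LinearMap.sum_apply]
  refine Finset.sum_congr rfl fun a _ => ?_
  rw [map_sum]
  exact Finset.sum_congr rfl fun b _ => BF_pt _ _ _

lemma BF_sub_sub (F : E3 → E3 → ℝ) (a b c d : Ch) :
    BF F (a - b) (c - d) = BF F a c - BF F a d - BF F b c + BF F b d := by
  simp only [map_sub, LinearMap.sub_apply]
  ring

/-- the potential energy as an energy of a charge distribution -/
lemma pot_eq {ι κ : Type} [Fintype ι] [Fintype κ] (Y : κ → E3) (X : ι → Om) :
    pot Y X = 1 / 2 * BF cou (∑ m, pt (Y m) - ∑ j, pt (X j).1)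
      (∑ m, pt (Y m) - ∑ j, pt (X j).1) := by
  rw [BF_sub_sub, BF_symm cou_comm (∑ m, pt (Y m)) (∑ j, pt (X j).1), BF_sum, BF_sum, BF_sum]
  unfold pot attr repEE repNN
  ring

/-- positivity -/
lemma BF_psd {F : E3 → E3 → ℝ} (hF : ∀ (n : Type) [Fintype n] (q : n → ℝ) (x : n → E3),
    0 ≤ ∑ i, ∑ j, q i * q j * F (x i) (x j)) (ω : Ch) : 0 ≤ BF F ω ω := by
  have h1 : ω = ∑ x : {x // x ∈ ω.support}, Finsupp.single x.1 (ω x.1) := by
    conv_lhs => rw [← Finsupp.sum_single ω]
    unfold Finsupp.sum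
    rw [← Finset.sum_coe_sort]
  have h2 := hF {x // x ∈ ω.support} (fun x => ω x.1) (fun x => x.1)
  rw [h1, map_sum (BF F), LinearMap.sum_apply]
  refine h2.trans_eq (Finset.sum_congr rfl fun x _ => ?_)
  rw [map_sum]
  exact Finset.sum_congr rfl fun y _ => (BF_single _ _ _ _ _).symm

lemma BF_fam (F : E3 → E3 → ℝ) {α β : Type} [Fintype α] [Fintype β] (s : α → E3) (t : β → E3)
    (q : α → ℝ) (r : β → ℝ) :
    BF F (∑ a, Finsupp.single (s a) (q a)) (∑ b, Finsupp.single (t b) (r b)) =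
      ∑ a, ∑ b, q a * r b * F (s a) (t b) := by
  rw [map_sum (BF F), LinearMap.sum_apply]
  refine Finset.sum_congr rfl fun a _ => ?_
  rw [map_sum]
  exact Finset.sum_congr rfl fun b _ => BF_single _ _ _ _ _

/-- the energy of a distribution in an outer potential -/
def Li (V : E3 → ℝ) : Ch →ₗ[ℝ] ℝ := Finsupp.linearCombination ℝ V

lemma Li_single (V : E3 → ℝ) (x : E3) (a : ℝ) : Li V (Finsupp.single x a) = a * V x := by
  simp [Li]

lemma Li_eq {F : E3 → E3 → ℝ} (ω τ : Ch) {V : E3 → ℝ} (hV : ∀ x, V x = BF F (pt x) τ) :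
    Li V ω = BF F ω τ := by
  induction ω using Finsupp.induction_linear with
  | zero => simp
  | add f g hf hg => rw [map_add, hf, hg, map_add, LinearMap.add_apply]
  | single x a =>
    rw [Li_single, hV]
    have : Finsupp.single x a = a • pt x := by simp [pt]
    rw [this, map_smul, LinearMap.smul_apply, smul_eq_mul]

lemma sum_split {ι K : Type} [Fintype ι] [Fintype K] [DecidableEq K] (α : ι → Option K)
    {A : Type} [AddCommMonoid A] (f : ι → A) :
    ∑ j, f j = (∑ k, ∑ j : {j // α j = some k}, f j) + ∑ j : {j // α j = none}, f j := by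
  have h1 : ∀ o : Option K, ∑ j : {j // α j = o}, f j = ∑ j ∈ Finset.univ.filter (fun j => α j = o), f j := by
    intro o
    exact (Finset.sum_subtype (Finset.univ.filter (fun j => α j = o)) (by simp) f).symm
  rw [h1 none]
  simp only [fun k : K => h1 (some k)]
  rw [← Finset.sum_fiberwise Finset.univ α f, Fintype.sum_option, add_comm]

section cells

variable {K ι : Type} [Fintype K] [DecidableEq K] [Fintype ι] [DecidableEq ι] {M : K → ℕ}
  (Y : ∀ k, Fin (M k) → E3) (z P : K → E3) (α : ι → Option K) (X : ι → Om)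

/-- protons of a cell -/
def pr (k : K) : Ch := ∑ m, pt (z k + Y k m)

/-- electrons of a cell -/
def el (k : K) : Ch := ∑ j : {j // α j = some k}, pt (X j).1

/-- reference dipole -/
def ta (k : K) : Ch := pt (z k + (1 / 2 : ℝ) • P k) - pt (z k - (1 / 2 : ℝ) • P k)

/-- vacuum electrons -/
def va : Ch := ∑ j : {j // α j = none}, pt (X j).1

lemma om_eq (k : K) :
    (∑ a : Fin (M k) ⊕ ({j // α j = some k} ⊕ Bool),
      Finsupp.single (cpos (Y k) (z k) (P k) (fun j : {j // α j = some k} => X j.1) a) (cq a)) =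
      pr Y z k - el α X k - ta z P k := by
  rw [Fintype.sum_sum_type, Fintype.sum_sum_type, Fintype.sum_bool]
  simp only [cpos, cq, Sum.elim_inl, Sum.elim_inr, if_true, Bool.false_eq_true, if_false]
  unfold pr el ta pt
  simp only [Finsupp.single_neg, Finset.sum_neg_distrib]
  abel

lemma self_eq (Kr : E3 → E3 → ℝ) (k : K) :
    selfE Kr (Y k) (z k) (P k) (fun j : {j // α j = some k} => X j.1) =
      BF Kr (pr Y z k - el α X k - ta z P k) (pr Y z k - el α X k - ta z P k) := by
  rw [← om_eq, BF_fam]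
  rfl

lemma lin_eq (V : E3 → ℝ) (k : K) :
    linE V (Y k) (z k) (P k) (fun j : {j // α j = some k} => X j.1) =
      Li V (pr Y z k - el α X k - ta z P k) := by
  rw [← om_eq, map_sum]
  unfold linE
  exact Finset.sum_congr rfl fun a _ => (Li_single _ _ _).symm

lemma tauPot_eq (k : K) (x : E3) :
    tauPot z P k x = BF cou (pt x) (∑ k', if k' = k then 0 else ta z P k') := by
  unfold tauPot
  rw [map_sum]
  refine Finset.sum_congr rfl fun k' _ => ?_
  by_cases h : k' = k
  · rw [if_pos h, if_pos h, map_zero]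
  · rw [if_neg h, if_neg h]
    unfold ta
    rw [map_sub, BF_pt, BF_pt]

lemma tauPotK_eq (Kr : E3 → E3 → ℝ) (x : E3) :
    tauPotK Kr z P x = BF Kr (pt x) (∑ k, ta z P k) := by
  unfold tauPotK
  rw [map_sum]
  refine Finset.sum_congr rfl fun k' _ => ?_
  unfold ta
  rw [map_sub, BF_pt, BF_pt]

lemma DD_eq (k k' : K) : DDk (z k) (P k) (z k') (P k') = BF cou (ta z P k) (ta z P k') := by
  unfold ta DDk
  rw [BF_sub_sub, BF_pt, BF_pt, BF_pt, BF_pt]

lemma cl_eq : pot (cl z Y) X = 1 / 2 * BF cou (∑ k, (pr Y z k - el α X k) - va α X)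
    (∑ k, (pr Y z k - el α X k) - va α X) := by
  rw [pot_eq]
  have h1 : ∑ p : (Σ k, Fin (M k)), pt (cl z Y p) = ∑ k, pr Y z k := by
    rw [Fintype.sum_sigma]
    rfl
  have h2 : ∑ j, pt (X j).1 = ∑ k, el α X k + va α X := sum_split α (fun j => pt (X j).1)
  rw [h1, h2, Finset.sum_sub_distrib]
  congr 2 <;> abel_nf

/-- attraction of a vacuum electron by the protons: true minus truncated -/
lemma prot_le {C d ρ Mx : ℝ} {Kr : E3 → E3 → ℝ} (hK : Ker C (d / 8) Kr)
    (hρ : 0 < ρ) (hρd : ρ ≤ d / 32) (hz : ∀ k k', k ≠ k' → d ≤ ‖z k - z k'‖)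
    (hY : ∀ k m, ‖Y k m‖ ≤ ρ / 4) (hM : ∀ k, (M k : ℝ) ≤ Mx) (hMx : 0 ≤ Mx) (x : E3)
    (hx : ∀ k, ρ / 2 ≤ ‖x - z k‖) :
    ∑ k, ∑ m, (cou (z k + Y k m) x - Kr (z k + Y k m) x) ≤ 4 * Mx / ρ := by
  have hzero : ∀ k m, 2 * (d / 8) ≤ ‖z k + Y k m - x‖ →
      cou (z k + Y k m) x - Kr (z k + Y k m) x = 0 := fun k m h => by
    rw [hK.eq_cou _ _ h, sub_self]
  have hle : ∀ k m, cou (z k + Y k m) x - Kr (z k + Y k m) x ≤ 4 / ρ := by
    intro k m
    have h1 := hK.nonneg (z k + Y k m) x
    have h2 : ρ / 4 ≤ ‖z k + Y k m - x‖ := by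
      have h3 : ‖x - z k‖ ≤ ‖z k + Y k m - x‖ + ‖Y k m‖ := by
        calc ‖x - z k‖ = ‖Y k m - (z k + Y k m - x)‖ := by congr 1; abel
          _ ≤ ‖Y k m‖ + ‖z k + Y k m - x‖ := norm_sub_le _ _
          _ = _ := add_comm _ _
      have := hx k
      have := hY k m
      linarith
    have h4 : cou (z k + Y k m) x ≤ (ρ / 4)⁻¹ := inv_anti₀ (by positivity) h2
    have h5 : (ρ / 4)⁻¹ = 4 / ρ := by
      rw [inv_div]
    linarith
  by_cases hex : ∃ k m, ‖z k + Y k m - x‖ < 2 * (d / 8)
  · obtain ⟨k0, m0, h0⟩ := hex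
    have hother : ∀ k, k ≠ k0 → ∑ m, (cou (z k + Y k m) x - Kr (z k + Y k m) x) = 0 := by
      intro k hk
      refine Finset.sum_eq_zero fun m _ => hzero k m ?_
      have h1 := hz k k0 hk
      have h2 := hY k m
      have h3 := hY k0 m0
      have h4 : ‖z k - z k0‖ ≤ ‖z k + Y k m - x‖ + ‖z k0 + Y k0 m0 - x‖ + ‖Y k m‖ + ‖Y k0 m0‖ := by
        calc ‖z k - z k0‖ = ‖(z k + Y k m - x) - (z k0 + Y k0 m0 - x) - Y k m + Y k0 m0‖ := by
              congr 1; abel
          _ ≤ ‖(z k + Y k m - x) - (z k0 + Y k0 m0 - x) - Y k m‖ + ‖Y k0 m0‖ := norm_add_le _ _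
          _ ≤ ‖(z k + Y k m - x) - (z k0 + Y k0 m0 - x)‖ + ‖Y k m‖ + ‖Y k0 m0‖ := by
              gcongr
              exact norm_sub_le _ _
          _ ≤ _ := by
              gcongr
              exact norm_sub_le _ _
      linarith
    rw [Finset.sum_eq_single k0 (fun k _ hk => hother k hk)
      (fun h => absurd (Finset.mem_univ _) h)]
    calc ∑ m, (cou (z k0 + Y k0 m) x - Kr (z k0 + Y k0 m) x) ≤ ∑ _m : Fin (M k0), 4 / ρ :=
          Finset.sum_le_sum fun m _ => hle k0 m
      _ = M k0 * (4 / ρ) := by simp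
      _ ≤ Mx * (4 / ρ) := mul_le_mul_of_nonneg_right (hM k0) (by positivity)
      _ = _ := by ring
  · push Not at hex
    have : ∑ k, ∑ m, (cou (z k + Y k m) x - Kr (z k + Y k m) x) = 0 :=
      Finset.sum_eq_zero fun k _ => Finset.sum_eq_zero fun m _ => hzero k m (hex k m)
    rw [this]
    positivity

/-- the charges of a cell lie in the ball of radius `ρ` -/
lemma cpos_near {ρ : ℝ} (hρ : 0 < ρ) (hY : ∀ k m, ‖Y k m‖ ≤ ρ / 4) (hP : ∀ k, ‖P k‖ ≤ ρ)
    (hX : ∀ j k, α j = some k → ‖(X j).1 - z k‖ ≤ ρ) (k : K)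
    (a : Fin (M k) ⊕ ({j // α j = some k} ⊕ Bool)) :
    ‖cpos (Y k) (z k) (P k) (fun j : {j // α j = some k} => X j.1) a - z k‖ ≤ ρ := by
  rcases a with m | j | b
  · simp only [cpos, Sum.elim_inl]
    have h := hY k m
    have h2 : z k + Y k m - z k = Y k m := by abel
    rw [h2]
    linarith
  · simp only [cpos, Sum.elim_inl, Sum.elim_inr]
    exact hX j.1 k j.2
  · have h := hP k
    cases b
    · simp only [cpos, Sum.elim_inr, Bool.false_eq_true, if_false]
      have h2 : z k - (1 / 2 : ℝ) • P k - z k = -((1 / 2 : ℝ) • P k) := by abel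
      rw [h2, norm_neg, norm_smul, Real.norm_of_nonneg (by norm_num)]
      have := norm_nonneg (P k)
      linarith
    · simp only [cpos, Sum.elim_inr, if_true]
      have h2 : z k + (1 / 2 : ℝ) • P k - z k = (1 / 2 : ℝ) • P k := by abel
      rw [h2, norm_smul, Real.norm_of_nonneg (by norm_num)]
      have := norm_nonneg (P k)
      linarith

lemma BF_far {C d ρ : ℝ} {Kr : E3 → E3 → ℝ} (hK : Ker C (d / 8) Kr)
    (hρ : 0 < ρ) (hρd : ρ ≤ d / 32) (hz : ∀ k k', k ≠ k' → d ≤ ‖z k - z k'‖)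
    (hY : ∀ k m, ‖Y k m‖ ≤ ρ / 4) (hP : ∀ k, ‖P k‖ ≤ ρ)
    (hX : ∀ j k, α j = some k → ‖(X j).1 - z k‖ ≤ ρ) {k k' : K} (hk : k ≠ k') :
    BF Kr (pr Y z k - el α X k - ta z P k) (pr Y z k' - el α X k' - ta z P k') =
      BF cou (pr Y z k - el α X k - ta z P k) (pr Y z k' - el α X k' - ta z P k') := by
  rw [← om_eq, ← om_eq, BF_fam, BF_fam]
  refine Finset.sum_congr rfl fun a _ => Finset.sum_congr rfl fun b _ => ?_
  rw [hK.eq_cou]
  have h1 := cpos_near Y z P α X hρ hY hP hX k a
  have h2 := cpos_near Y z P α X hρ hY hP hX k' b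
  have h3 := hz k k' hk
  set u := cpos (Y k) (z k) (P k) (fun j : {j // α j = some k} => X j.1) a
  set w := cpos (Y k') (z k') (P k') (fun j : {j // α j = some k'} => X j.1) b
  have h4 : ‖z k - z k'‖ ≤ ‖u - w‖ + ‖u - z k‖ + ‖w - z k'‖ := by
    calc ‖z k - z k'‖ = ‖(u - w) - (u - z k) + (w - z k')‖ := by congr 1; abel
      _ ≤ ‖(u - w) - (u - z k)‖ + ‖w - z k'‖ := norm_add_le _ _
      _ ≤ _ := by
          gcongr
          exact norm_sub_le _ _
  linarith

end cells

/-- splitting a double sum into diagonal and off-diagonal part -/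
lemma sum_offdiag {K : Type} [Fintype K] [DecidableEq K] (f : K → K → ℝ) :
    ∑ k, ∑ k', f k k' = ∑ k, f k k + ∑ k, ∑ k', if k = k' then 0 else f k k' := by
  rw [← Finset.sum_add_distrib]
  refine Finset.sum_congr rfl fun k _ => ?_
  have h1 : ∀ k', f k k' = (if k = k' then f k k' else 0) + (if k = k' then 0 else f k k') := by
    intro k'
    split_ifs <;> simp
  rw [Finset.sum_congr rfl fun k' _ => h1 k', Finset.sum_add_distrib, Finset.sum_ite_eq]
  simp

theorem onsager (K ι : Type) [Fintype K] [DecidableEq K] [Fintype ι] [DecidableEq ι] (M : K → ℕ)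
    (Y : ∀ k, Fin (M k) → E3) (z P : K → E3) (C d ρ Mx : ℝ) (Kr : E3 → E3 → ℝ)
    (α : ι → Option K) (X : ι → Om)
    (hC : 1 ≤ C) (hd : 0 < d) (hK : Ker C (d / 8) Kr) (hρ : 0 < ρ) (hρd : ρ ≤ d / 32)
    (hz : ∀ k k', k ≠ k' → d ≤ ‖z k - z k'‖) (hY : ∀ k m, ‖Y k m‖ ≤ ρ / 4)
    (hP : ∀ k, ‖P k‖ ≤ ρ) (hM : ∀ k, (M k : ℝ) ≤ Mx) (hMx : 0 ≤ Mx)
    (hinj : Function.Injective (fun j => (X j).1))
    (hX : ∀ j k, α j = some k → ‖(X j).1 - z k‖ ≤ ρ)
    (hV : ∀ j, α j = none → ∀ k, ρ / 2 ≤ ‖(X j).1 - z k‖) :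
    (∑ k, (pot (fun m => z k + Y k m) (fun j : {j // α j = some k} => X j.1)
        + linE (tauPot z P k) (Y k) (z k) (P k) (fun j : {j // α j = some k} => X j.1)
        - (1 / 2) * selfE Kr (Y k) (z k) (P k) (fun j : {j // α j = some k} => X j.1)))
      + DDsum z P
      + (∑ j : {j // α j = none}, (- tauPotK Kr z P (X j.1).1 - 4 * C / d - 4 * Mx / ρ))
      ≤ pot (cl z Y) X := by
  set s : K → Ch := fun k => pr Y z k - el α X k with hs
  set t : K → Ch := fun k => ta z P k with ht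
  set v : Ch := va α X with hv
  have sc := BF_symm cou_comm
  have sK := BF_symm hK.symm
  -- the energy of the cell `k`
  have e1 : ∀ k, pot (fun m => z k + Y k m) (fun j : {j // α j = some k} => X j.1) =
      1 / 2 * BF cou (s k) (s k) := fun k => pot_eq _ _
  have e2 : ∀ k, linE (tauPot z P k) (Y k) (z k) (P k) (fun j : {j // α j = some k} => X j.1) =
      ∑ k', if k = k' then 0 else BF cou (s k - t k) (t k') := by
    intro k
    rw [lin_eq Y z P α X, Li_eq _ _ (tauPot_eq z P k), map_sum]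
    refine Finset.sum_congr rfl fun k' _ => ?_
    by_cases h : k' = k
    · rw [if_pos h, if_pos h.symm, map_zero]
    · rw [if_neg h, if_neg (Ne.symm h)]
  have e3 : ∀ k, selfE Kr (Y k) (z k) (P k) (fun j : {j // α j = some k} => X j.1) =
      BF Kr (s k - t k) (s k - t k) := fun k => self_eq Y z P α X Kr k
  have e4 : DDsum z P = 1 / 2 * ∑ k, ∑ k', if k = k' then 0 else BF cou (t k) (t k') := by
    unfold DDsum
    congr 1
    refine Finset.sum_congr rfl fun k _ => Finset.sum_congr rfl fun k' _ => ?_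
    split_ifs
    · rfl
    · exact DD_eq z P k k'
  have e5 : ∑ j : {j // α j = none}, (- tauPotK Kr z P (X j.1).1 - 4 * C / d - 4 * Mx / ρ) =
      - BF Kr v (∑ k, t k) - Fintype.card {j // α j = none} * (4 * C / d + 4 * Mx / ρ) := by
    have h1 : ∀ j : {j // α j = none}, (- tauPotK Kr z P (X j.1).1 - 4 * C / d - 4 * Mx / ρ) =
        - BF Kr (pt (X j.1).1) (∑ k, t k) - (4 * C / d + 4 * Mx / ρ) := by
      intro j
      rw [tauPotK_eq]
      ring
    rw [Finset.sum_congr rfl fun j _ => h1 j, Finset.sum_sub_distrib, Finset.sum_neg_distrib]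
    have h2 : ∑ j : {j // α j = none}, BF Kr (pt (X j.1).1) (∑ k, t k) = BF Kr v (∑ k, t k) := by
      rw [hv]
      unfold va
      rw [map_sum (BF Kr), LinearMap.sum_apply]
    rw [h2]
    simp only [Finset.sum_const, Finset.card_univ, nsmul_eq_mul]
  -- the total energy
  have e6 : pot (cl z Y) X = 1 / 2 * (∑ k, ∑ k', BF cou (s k) (s k')) - BF cou (∑ k, s k) v
      + 1 / 2 * BF cou v v := by
    rw [cl_eq Y z α X]
    show 1 / 2 * BF cou (∑ k, s k - v) (∑ k, s k - v) = _
    rw [BF_sub_sub, sc v (∑ k, s k)]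
    have : BF cou (∑ k, s k) (∑ k, s k) = ∑ k, ∑ k', BF cou (s k) (s k') := by
      rw [map_sum (BF cou), LinearMap.sum_apply]
      exact Finset.sum_congr rfl fun k _ => map_sum _ _ _
    rw [this]
    ring
  -- positivity
  have e7 : 0 ≤ (∑ k, ∑ k', BF Kr (s k - t k) (s k' - t k')) - 2 * BF Kr (∑ k, s k) v
      + 2 * BF Kr v (∑ k, t k) + BF Kr v v := by
    have h1 := BF_psd hK.psd (∑ k, (s k - t k) - v)
    rw [BF_sub_sub, sK v (∑ k, (s k - t k))] at h1
    have h2 : BF Kr (∑ k, (s k - t k)) (∑ k, (s k - t k)) =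
        ∑ k, ∑ k', BF Kr (s k - t k) (s k' - t k') := by
      rw [map_sum (BF Kr), LinearMap.sum_apply]
      exact Finset.sum_congr rfl fun k _ => map_sum _ _ _
    have h3 : BF Kr (∑ k, (s k - t k)) v = BF Kr (∑ k, s k) v - BF Kr v (∑ k, t k) := by
      rw [Finset.sum_sub_distrib, map_sub, LinearMap.sub_apply, sK v]
    rw [h2, h3] at h1
    linarith
  have e8 : ∀ k k', k ≠ k' → BF Kr (s k - t k) (s k' - t k') = BF cou (s k - t k) (s k' - t k') :=
    fun k k' hk => BF_far Y z P α X hK hρ hρd hz hY hP hX hk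
  clear_value s t v
  -- interaction of different cells
  have e9 : (∑ k, ∑ k', if k = k' then 0 else BF cou (s k) (s k')) =
      (∑ k, ∑ k', if k = k' then 0 else BF Kr (s k - t k) (s k' - t k')) +
      2 * (∑ k, ∑ k', if k = k' then 0 else BF cou (s k - t k) (t k')) +
      (∑ k, ∑ k', if k = k' then 0 else BF cou (t k) (t k')) := by
    have h1 : ∀ k k', (if k = k' then 0 else BF cou (s k) (s k')) =
        (if k = k' then 0 else BF Kr (s k - t k) (s k' - t k')) +
        (if k = k' then 0 else BF cou (s k - t k) (t k')) +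
        (if k' = k then 0 else BF cou (s k' - t k') (t k)) +
        (if k = k' then 0 else BF cou (t k) (t k')) := by
      intro k k'
      by_cases h : k = k'
      · simp [h]
      · rw [if_neg h, if_neg h, if_neg h, if_neg h, if_neg (Ne.symm h), e8 k k' h, BF_sub_sub]
        simp only [map_sub, LinearMap.sub_apply]
        rw [sc (s k') (t k), sc (t k') (t k)]
        ring
    have h2 : (∑ k, ∑ k', if k' = k then 0 else BF cou (s k' - t k') (t k)) =
        ∑ k, ∑ k', if k = k' then 0 else BF cou (s k - t k) (t k') := Finset.sum_comm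
    simp only [h1, Finset.sum_add_distrib]
    rw [h2]
    ring
  -- vacuum electrons
  have e10 : - (Fintype.card {j // α j = none} * (8 * C / d)) ≤ BF cou v v - BF Kr v v := by
    rw [hv]
    unfold va
    rw [BF_sum, BF_sum, ← Finset.sum_sub_distrib]
    have h1 : ∀ j : {j // α j = none}, -(8 * C / d) ≤
        ∑ j' : {j // α j = none}, cou (X j.1).1 (X j'.1).1 -
          ∑ j' : {j // α j = none}, Kr (X j.1).1 (X j'.1).1 := by
      intro j
      rw [← Finset.sum_sub_distrib]
      have h2 : ∀ j' : {j // α j = none}, (if j = j' then -(8 * C / d) else 0) ≤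
          cou (X j.1).1 (X j'.1).1 - Kr (X j.1).1 (X j'.1).1 := by
        intro j'
        split_ifs with h
        · have h3 := hK.le (X j.1).1 (X j'.1).1
          have h4 := cou_nonneg (X j.1).1 (X j'.1).1
          have h5 : C / (d / 8) = 8 * C / d := by
            field_simp
          rw [h5] at h3
          linarith
        · have h6 : (X j.1).1 ≠ (X j'.1).1 := fun h7 => h (Subtype.ext (hinj h7))
          have := hK.le_cou _ _ h6
          linarith
      have h3 := Finset.sum_le_sum fun (j' : {j // α j = none}) (_ : j' ∈ Finset.univ) => h2 j'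
      rw [Finset.sum_ite_eq] at h3
      simpa using h3
    have h2 := Finset.sum_le_sum fun (j : {j // α j = none}) (_ : j ∈ Finset.univ) => h1 j
    refine le_trans (le_of_eq ?_) h2
    simp
  have e11 : - (Fintype.card {j // α j = none} * (4 * Mx / ρ)) ≤
      BF Kr (∑ k, s k) v - BF cou (∑ k, s k) v := by
    have h1 : ∀ F : E3 → E3 → ℝ, BF F (∑ k, s k) v =
        (∑ j : {j // α j = none}, ∑ k, ∑ m, F (z k + Y k m) (X j.1).1) -
        ∑ k, ∑ j' : {j // α j = some k}, ∑ j : {j // α j = none}, F (X j'.1).1 (X j.1).1 := by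
      intro F
      rw [hs, Finset.sum_sub_distrib, map_sub, LinearMap.sub_apply, hv]
      unfold va pr el
      congr 1
      · rw [map_sum (BF F), LinearMap.sum_apply, Finset.sum_comm]
        refine Finset.sum_congr rfl fun k _ => ?_
        rw [BF_sum, Finset.sum_comm]
      · rw [map_sum (BF F), LinearMap.sum_apply]
        exact Finset.sum_congr rfl fun k _ => BF_sum _ _ _
    rw [h1, h1]
    have h2 : (∑ k, ∑ j' : {j // α j = some k}, ∑ j : {j // α j = none},
        Kr (X j'.1).1 (X j.1).1) ≤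
        ∑ k, ∑ j' : {j // α j = some k}, ∑ j : {j // α j = none}, cou (X j'.1).1 (X j.1).1 := by
      refine Finset.sum_le_sum fun k _ => Finset.sum_le_sum fun j' _ =>
        Finset.sum_le_sum fun j _ => ?_
      apply hK.le_cou
      intro h
      have h3 := hinj h
      have h4 := j'.2
      rw [h3, j.2] at h4
      exact absurd h4 (by simp)
    have h3 : (∑ j : {j // α j = none}, ∑ k, ∑ m, cou (z k + Y k m) (X j.1).1) -
        (∑ j : {j // α j = none}, ∑ k, ∑ m, Kr (z k + Y k m) (X j.1).1) ≤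
        Fintype.card {j // α j = none} * (4 * Mx / ρ) := by
      rw [← Finset.sum_sub_distrib]
      have h4 : ∀ j : {j // α j = none}, (∑ k, ∑ m, cou (z k + Y k m) (X j.1).1) -
          (∑ k, ∑ m, Kr (z k + Y k m) (X j.1).1) ≤ 4 * Mx / ρ := by
        intro j
        have h5 := prot_le Y z hK hρ hρd hz hY hM hMx (X j.1).1 (hV j.1 j.2)
        simp only [Finset.sum_sub_distrib] at h5
        exact h5
      refine (Finset.sum_le_sum fun j _ => h4 j).trans_eq ?_
      simp
    linarith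
  -- assembly
  simp only [e1, e2, e3]
  rw [e4, e5, e6, sum_offdiag (fun k k' => BF cou (s k) (s k')), e9]
  rw [sum_offdiag (fun k k' => BF Kr (s k - t k) (s k' - t k'))] at e7
  simp only [Finset.sum_sub_distrib, Finset.sum_add_distrib, ← Finset.mul_sum]
  have e12 : (Fintype.card {j // α j = none} : ℝ) * (8 * C / d) =
      2 * (Fintype.card {j // α j = none} * (4 * C / d)) := by ring
  have e13 : (Fintype.card {j // α j = none} : ℝ) * (4 * C / d + 4 * Mx / ρ) =
      Fintype.card {j // α j = none} * (4 * C / d) +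
        Fintype.card {j // α j = none} * (4 * Mx / ρ) := by ring
  rw [e12] at e10
  rw [e13]
  linarith

end Ons

/-- **piece E1** -/
theorem p_onsager : S_onsager := by
  intro K ι _ _ _ _ M Y z P C d ρ Mx Kr α X hC hd hK hρ hρd hz hY hP hM hMx _ hinj _ hX hV
  exact Ons.onsager K ι M Y z P C d ρ Mx Kr α X hC hd hK hρ hρd hz hY hP hM hMx hinj hX hV

end MolDis
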