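import Pool.Agent.Lib.MP_59f35a_mp.EnBasic

/-!
# MP_59f35a_mp : partial antisymmetry suffices (piece A7)
-/

set_option autoImplicit false
set_option linter.unusedSectionVars false

noncomputable section

open MeasureTheory

namespace MolDis

namespace Pas

open EnBasic

section perm
variable {ι K : Type} [Fintype ι] [DecidableEq ι] [DecidableEq K]

/-- the sign as a real number -/
def sg (σ : Equiv.Perm ι) : ℝ := ((Equiv.Perm.sign σ : ℤ) : ℝ)

theorem sg_sq (σ : Equiv.Perm ι) : sg σ ^ 2 = 1 := by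
  unfold sg
  rcases Int.units_eq_one_or (Equiv.Perm.sign σ) with h | h <;> simp [h]

theorem sg_mul (σ τ : Equiv.Perm ι) : sg (σ * τ) = sg σ * sg τ := by
  unfold sg
  rw [Equiv.Perm.sign_mul]
  push_cast
  rfl

theorem sg_inv (σ : Equiv.Perm ι) : sg σ⁻¹ = sg σ := by
  unfold sg
  rw [Equiv.Perm.sign_inv]

/-- `σ` and `τ` give the same distribution of the electrons over the cells -/
def Rel (c : ι → K) (σ τ : Equiv.Perm ι) : Prop := ∀ i, c (τ.symm i) = c (σ.symm i)

instance (c : ι → K) (σ τ : Equiv.Perm ι) : Decidable (Rel c σ τ) := by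
  unfold Rel; infer_instance

theorem card_rel (c : ι → K) (σ : Equiv.Perm ι) :
    (Finset.univ.filter fun τ => Rel c σ τ).card = (Finset.univ.filter fun τ => Rel c 1 τ).card := by
  refine Finset.card_bij (fun τ _ => σ⁻¹ * τ) ?_ ?_ ?_
  · intro τ hτ
    simp only [Finset.mem_filter, Finset.mem_univ, true_and] at hτ ⊢
    intro i
    have := hτ (σ i)
    rw [Equiv.symm_apply_apply] at this
    exact this
  · intro τ _ τ' _ h
    exact mul_left_cancel h
  · intro ρ hρ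
    simp only [Finset.mem_filter, Finset.mem_univ, true_and] at hρ
    refine ⟨σ * ρ, ?_, by group⟩
    simp only [Finset.mem_filter, Finset.mem_univ, true_and]
    intro i
    exact hρ (σ.symm i)

theorem card_rel_pos (c : ι → K) : 0 < (Finset.univ.filter fun τ => Rel c 1 τ).card :=
  Finset.card_pos.mpr ⟨1, by simp [Rel]⟩

/-- two different distributions differ at two electrons -/
theorem mismatch (c : ι → K) (σ τ : Equiv.Perm ι) (h : ¬ Rel c σ τ) (j : ι) :
    ∃ i, i ≠ j ∧ c (τ.symm i) ≠ c (σ.symm i) := by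
  by_contra hcon
  push Not at hcon
  apply h
  intro i
  by_cases hij : i = j
  · subst hij
    let f : K → ℕ := fun k => if k = c (σ.symm i) then 1 else 0
    have h1 : ∑ l, f (c (τ.symm l)) = ∑ l, f (c l) := Equiv.sum_comp τ.symm (fun l => f (c l))
    have h2 : ∑ l, f (c (σ.symm l)) = ∑ l, f (c l) := Equiv.sum_comp σ.symm (fun l => f (c l))
    rw [← h2, ← Finset.add_sum_erase _ _ (Finset.mem_univ i),
      ← Finset.add_sum_erase _ (fun l => f (c (σ.symm l))) (Finset.mem_univ i)] at h1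
    have h3 : ∑ l ∈ Finset.univ.erase i, f (c (τ.symm l)) =
        ∑ l ∈ Finset.univ.erase i, f (c (σ.symm l)) :=
      Finset.sum_congr rfl fun l hl => by rw [hcon l (Finset.ne_of_mem_erase hl)]
    rw [h3] at h1
    have h4 : f (c (τ.symm i)) = f (c (σ.symm i)) := Nat.add_right_cancel h1
    by_contra hne
    simp [f, hne] at h4
  · exact hcon i hij

/-- quadratic functionals of an antisymmetrised function -/
theorem key {V : Type} (c : ι → K) (u : Equiv.Perm ι → V → ℝ) (Q : (V → ℝ) → ℝ)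
    (hQ : ∀ (a : ℝ) (f : V → ℝ), Q (fun v => a * f v) = a ^ 2 * Q f)
    (h1 : ∀ σ τ, Rel c σ τ → ∀ v, u τ v = sg τ * sg σ * u σ v)
    (h2 : ∀ σ τ, ¬ Rel c σ τ → (∀ v, u τ v = 0) ∨ (∀ v, u σ v = 0)) :
    Q (fun v => ∑ σ, sg σ * u σ v) =
      ((Finset.univ.filter fun τ => Rel c 1 τ).card : ℝ) * ∑ σ, Q (u σ) := by
  have hQ0 : ∀ f : V → ℝ, (∀ v, f v = 0) → Q f = 0 := by
    intro f hf
    have h : f = fun v => 0 * f v := by
      funext v; rw [hf v]; simp
    rw [h, hQ]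
    norm_num
  by_cases hA : ∀ σ v, u σ v = 0
  · rw [hQ0 _ (fun v => Finset.sum_eq_zero fun σ _ => by rw [hA σ v, mul_zero]),
      Finset.sum_eq_zero fun σ _ => hQ0 _ (hA σ), mul_zero]
  · push Not at hA
    obtain ⟨σ, v0, hv0⟩ := hA
    have h2' : ∀ τ, ¬ Rel c σ τ → ∀ v, u τ v = 0 := by
      intro τ hτ
      rcases h2 σ τ hτ with h | h
      · exact h
      · exact absurd (h v0) hv0
    set m : ℝ := ((Finset.univ.filter fun τ => Rel c 1 τ).card : ℝ) with hm
    have hm' : ((Finset.univ.filter fun τ => Rel c σ τ).card : ℝ) = m := by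
      rw [hm, card_rel c σ]
    have e1 : (fun v => ∑ τ, sg τ * u τ v) = fun v => (m * sg σ) * u σ v := by
      funext v
      have : ∀ τ, sg τ * u τ v = if Rel c σ τ then sg σ * u σ v else 0 := by
        intro τ
        split_ifs with h
        · rw [h1 σ τ h v]
          have := sg_sq τ
          linear_combination (sg σ * u σ v) * this
        · rw [h2' τ h v, mul_zero]
      rw [Finset.sum_congr rfl fun τ _ => this τ, ← Finset.sum_filter, Finset.sum_const,
        nsmul_eq_mul, hm', mul_assoc]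
    have e2 : ∀ τ, Q (u τ) = if Rel c σ τ then Q (u σ) else 0 := by
      intro τ
      split_ifs with h
      · have : u τ = fun v => (sg τ * sg σ) * u σ v := funext (h1 σ τ h)
        rw [this, hQ, mul_pow, sg_sq, sg_sq]
        ring
      · exact hQ0 _ (h2' τ h)
    rw [e1, hQ, mul_pow, sg_sq, Finset.sum_congr rfl fun τ _ => e2 τ, ← Finset.sum_filter,
      Finset.sum_const, nsmul_eq_mul, hm']
    ring

end perm

section main
variable {ι K κ : Type} [Fintype ι] [DecidableEq ι] [DecidableEq K] [Fintype κ]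

/-- the antisymmetrised function -/
def asym (F : (ι → Om) → ℝ) (X : ι → Om) : ℝ := ∑ σ : Equiv.Perm ι, sg σ * F (X ∘ σ)

theorem LC_comp {F : (ι → Om) → ℝ} (hF : LC F) (σ : Equiv.Perm ι) :
    LC (fun X : ι → Om => F (X ∘ σ)) := by
  refine ⟨?_, ?_⟩
  · obtain ⟨K, hK⟩ := hF.lip
    refine ⟨K, fun X j y => ?_⟩
    have h := hK (X ∘ σ) (σ.symm j) y
    have e := put_comp σ.symm X j y
    rw [Equiv.symm_symm] at e
    rw [e]
    simpa using h
  · obtain ⟨R, hR⟩ := hF.supp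
    refine ⟨R, fun X hX j => ?_⟩
    have h := hR _ hX (σ.symm j)
    simpa using h

theorem LC_sum (h2 : S_lc_closure) {α : Type} [DecidableEq α] (s : Finset α)
    (f : α → (ι → Om) → ℝ) (hf : ∀ a, LC (f a)) (hs : s.Nonempty) :
    LC (fun X => ∑ a ∈ s, f a X) := by
  induction hs using Finset.Nonempty.cons_induction with
  | singleton a => simpa using hf a
  | cons a s ha _ ih =>
    have := (h2 ι (f a) _ (hf a) ih).1
    refine (iff_of_eq ?_).mp this
    congr 1
    funext X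
    rw [Finset.sum_cons]

theorem asym_LC (h2 : S_lc_closure) {F : (ι → Om) → ℝ} (hF : LC F) : LC (asym F) :=
  LC_sum h2 Finset.univ (fun (σ : Equiv.Perm ι) X => sg σ * F (X ∘ σ))
    (fun σ => (h2 ι _ _ (LC_comp hF σ) (LC_comp hF σ)).2.1 (sg σ)) ⟨1, Finset.mem_univ _⟩

theorem asym_anti (F : (ι → Om) → ℝ) : Anti (asym F) := by
  intro τ X
  change asym F (X ∘ τ) = sg τ * asym F X
  unfold asym
  rw [Finset.mul_sum]
  refine Eq.trans ?_ (Equiv.sum_comp (Equiv.mulLeft τ) (fun ρ => sg τ * (sg ρ * F (X ∘ ρ))))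
  refine Finset.sum_congr rfl fun σ _ => ?_
  change sg σ * F ((X ∘ τ) ∘ σ) = sg τ * (sg (τ * σ) * F ((X ∘ τ) ∘ σ))
  rw [sg_mul]
  linear_combination (- sg σ * F ((X ∘ τ) ∘ σ)) * sg_sq τ

variable (c : ι → K) (S : K → Set E3) (F : (ι → Om) → ℝ)

theorem comp_rel
    (hc : ∀ σ : Equiv.Perm ι, (∀ j, c (σ j) = c j) → ∀ X, F (X ∘ σ) = sg σ * F X)
    (σ τ : Equiv.Perm ι) (h : Rel c σ τ) (X : ι → Om) :
    F (X ∘ τ) = sg τ * sg σ * F (X ∘ σ) := by
  have h1 := hc (σ⁻¹ * τ) (fun j => by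
    have := h (τ j)
    rw [Equiv.symm_apply_apply] at this
    exact this.symm) (X ∘ σ)
  have h2 : (X ∘ σ) ∘ ⇑(σ⁻¹ * τ) = X ∘ τ := by
    funext j
    simp
  rw [h2, sg_mul, sg_inv] at h1
  rw [h1]
  ring

theorem comp_not_rel (hS : ∀ k k', k ≠ k' → Disjoint (S k) (S k'))
    (hF : ∀ X, F X ≠ 0 → ∀ j, (X j).1 ∈ S (c j))
    (σ τ : Equiv.Perm ι) (h : ¬ Rel c σ τ) (X : ι → Om) (j : ι) :
    (∀ y, F (put X j y ∘ τ) = 0) ∨ (∀ y, F (put X j y ∘ σ) = 0) := by
  obtain ⟨i, hij, hne⟩ := mismatch c σ τ h j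
  by_contra hcon
  push Not at hcon
  obtain ⟨⟨y, hy⟩, ⟨y', hy'⟩⟩ := hcon
  have h1 := hF _ hy (τ.symm i)
  have h2 := hF _ hy' (σ.symm i)
  simp only [Function.comp_apply, Equiv.apply_symm_apply] at h1 h2
  unfold put at h1 h2
  rw [Function.update_of_ne hij] at h1 h2
  exact Set.disjoint_left.mp (hS _ _ hne) h1 h2

theorem comp_not_rel' (hS : ∀ k k', k ≠ k' → Disjoint (S k) (S k'))
    (hF : ∀ X, F X ≠ 0 → ∀ j, (X j).1 ∈ S (c j))
    (σ τ : Equiv.Perm ι) (h : ¬ Rel c σ τ) (X : ι → Om) :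
    F (X ∘ τ) = 0 ∨ F (X ∘ σ) = 0 := by
  by_contra hcon
  push Not at hcon
  obtain ⟨hy, hy'⟩ := hcon
  apply h
  intro i
  by_contra hne
  have h1 := hF _ hy (τ.symm i)
  have h2 := hF _ hy' (σ.symm i)
  simp only [Function.comp_apply, Equiv.apply_symm_apply] at h1 h2
  exact Set.disjoint_left.mp (hS _ _ hne) h1 h2

theorem asym_sq (hS : ∀ k k', k ≠ k' → Disjoint (S k) (S k'))
    (hF : ∀ X, F X ≠ 0 → ∀ j, (X j).1 ∈ S (c j))
    (hc : ∀ σ : Equiv.Perm ι, (∀ j, c (σ j) = c j) → ∀ X, F (X ∘ σ) = sg σ * F X) (X : ι → Om) :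
    asym F X ^ 2 = ((Finset.univ.filter fun τ => Rel c 1 τ).card : ℝ) *
      ∑ σ : Equiv.Perm ι, F (X ∘ σ) ^ 2 := by
  refine key (V := Unit) c (fun σ _ => F (X ∘ σ)) (fun f => f () ^ 2) (fun a f => by ring)
    (fun σ τ h _ => comp_rel c F hc σ τ h X) (fun σ τ h => ?_)
  rcases comp_not_rel' c S F hS hF σ τ h X with h | h
  · exact Or.inl fun _ => h
  · exact Or.inr fun _ => h

theorem asym_grad (hS : ∀ k k', k ≠ k' → Disjoint (S k) (S k'))
    (hF : ∀ X, F X ≠ 0 → ∀ j, (X j).1 ∈ S (c j))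
    (hc : ∀ σ : Equiv.Perm ι, (∀ j, c (σ j) = c j) → ∀ X, F (X ∘ σ) = sg σ * F X)
    (j : ι) (X : ι → Om) :
    gradSq (asym F) j X = ((Finset.univ.filter fun τ => Rel c 1 τ).card : ℝ) *
      ∑ σ : Equiv.Perm ι, gradSq (fun X => F (X ∘ σ)) j X := by
  refine key (V := E3) c (fun σ y => F (put X j y ∘ σ)) (fun f => ‖fderiv ℝ f (X j).1‖ ^ 2)
    (fun a f => ?_) (fun σ τ h y => comp_rel c F hc σ τ h _)
    (fun σ τ h => comp_not_rel c S F hS hF σ τ h X j)
  have h : fderiv ℝ (fun y => a * f y) = a • fderiv ℝ f := fderiv_const_smul_field (f := f) a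
  change ‖fderiv ℝ (fun y => a * f y) (X j).1‖ ^ 2 = _
  rw [h, Pi.smul_apply, norm_smul, mul_pow, Real.norm_eq_abs, sq_abs]

theorem reindex_nsq (σ : Equiv.Perm ι) : nsq (fun X : ι → Om => F (X ∘ σ)) = nsq F := by
  have := nsq_reindex σ.symm F
  rwa [Equiv.symm_symm] at this

theorem reindex_Qf (Y : κ → E3) (σ : Equiv.Perm ι) :
    Qf Y (fun X : ι → Om => F (X ∘ σ)) = Qf Y F := by
  have := Qf_reindex σ.symm Y F
  rwa [Equiv.symm_symm] at this

end main

end Pas

open EnBasic Pas in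
theorem p_pas (h1 : S_lc) (h2 : S_lc_closure) (h3 : S_adm) (h5 : S_en) : S_pas := by
  intro ι K κ _ _ _ _ _ Y c S F hS hLC hF hc
  have hc' : ∀ σ : Equiv.Perm ι, (∀ j, c (σ j) = c j) → ∀ X, F (X ∘ σ) = sg σ * F X := hc
  set m : ℝ := ((Finset.univ.filter fun τ => Rel c 1 τ).card : ℝ) with hm
  have hm0 : 0 < m := by
    rw [hm]
    exact_mod_cast card_rel_pos c
  have hW : WF (asym F) := ⟨asym_LC h2 hLC, asym_anti F⟩
  have hmain := h5.2.1 ι κ Y (asym F) hW
  have iS : ∀ σ : Equiv.Perm ι, Integrable (fun X : ι → Om => F (X ∘ σ) ^ 2) (mu ι) := fun σ =>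
    integrable_sq h1 (LC_comp hLC σ)
  have eN : nsq (asym F) = m * ∑ _σ : Equiv.Perm ι, nsq F := by
    unfold nsq
    simp only [asym_sq c S F hS hF hc']
    rw [integral_const_mul, integral_finsetSum _ fun σ _ => iS σ]
    congr 1
    exact Finset.sum_congr rfl fun σ _ => reindex_nsq F σ
  have eK : kin (asym F) = m * ∑ σ : Equiv.Perm ι, kin (fun X : ι → Om => F (X ∘ σ)) := by
    unfold kin
    rw [Finset.sum_comm, Finset.mul_sum]
    refine Finset.sum_congr rfl fun j _ => ?_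
    unfold kin1
    simp only [asym_grad c S F hS hF hc']
    rw [integral_const_mul, integral_finsetSum _ fun σ _ => (h1 ι _ (LC_comp hLC σ)).2.2.2.2.1 j]
  have hp : AdmW (pot (ι := ι) Y) := ((h3 ι).2.2.2.2.2.2.1 κ Y).2.2
  have eV : expv (pot Y) (asym F) =
      m * ∑ σ : Equiv.Perm ι, expv (pot Y) (fun X : ι → Om => F (X ∘ σ)) := by
    unfold expv
    have : ∀ X : ι → Om, pot Y X * asym F X ^ 2 =
        m * ∑ σ : Equiv.Perm ι, pot Y X * F (X ∘ σ) ^ 2 := by
      intro X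
      rw [asym_sq c S F hS hF hc', ← Finset.mul_sum]
      ring
    simp only [this]
    rw [integral_const_mul, integral_finsetSum _ fun σ _ => integrable_W h1 (LC_comp hLC σ) hp]
  have eQ : Qf Y (asym F) = m * ∑ _σ : Equiv.Perm ι, Qf Y F := by
    have : Qf Y (asym F) = m * ∑ σ : Equiv.Perm ι, Qf Y (fun X : ι → Om => F (X ∘ σ)) := by
      unfold Qf
      rw [eK, eV, ← mul_add, ← Finset.sum_add_distrib]
    rw [this]
    congr 1
    exact Finset.sum_congr rfl fun σ _ => reindex_Qf F Y σ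
  rw [eN, eQ, Finset.sum_const, Finset.sum_const, nsmul_eq_mul, nsmul_eq_mul] at hmain
  have hn : (0 : ℝ) < (Finset.univ : Finset (Equiv.Perm ι)).card := by
    exact_mod_cast Finset.card_pos.mpr ⟨1, Finset.mem_univ _⟩
  have hpos : 0 < m * ((Finset.univ : Finset (Equiv.Perm ι)).card : ℝ) := mul_pos hm0 hn
  refine le_of_mul_le_mul_left ?_ hpos
  linarith

end MolDis
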