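import Pool.Agent.Lib.MP_59f35a_mp.Stmts2

/-!
# MP_59f35a_mp : A10, A11 (reindexing and translation of the electrons)
-/

set_option autoImplicit false

noncomputable section

open MeasureTheory

namespace MolDis

namespace Reindex

private theorem sf : SigmaFinite mu1 := by unfold mu1; infer_instance

/-! ### reindexing -/

section reidx

variable {ι ι' : Type} [Fintype ι] [DecidableEq ι] [Fintype ι'] [DecidableEq ι'] (e : ι ≃ ι')

private def T (e : ι ≃ ι') (X' : ι' → Om) : ι → Om := fun j => X' (e j)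

omit [Fintype ι] [Fintype ι'] in
private theorem T_put (X' : ι' → Om) (j' : ι') (y : E3) :
    T e (put X' j' y) = put (T e X') (e.symm j') y := by
  funext j
  unfold T put
  by_cases h : j = e.symm j'
  · subst h
    simp
  · have h2 : e j ≠ j' := fun h3 => h (by rw [← h3]; simp)
    rw [Function.update_of_ne h2, Function.update_of_ne h]

omit [DecidableEq ι] [DecidableEq ι'] in
private theorem T_int (g : (ι → Om) → ℝ) :
    ∫ X', g (T e X') ∂(mu ι') = ∫ X, g X ∂(mu ι) := by
  have := sf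
  have h := (measurePreserving_piCongrLeft (α := fun _ : ι' => Om) (fun _ : ι' => mu1) e).symm
  have h2 := h.integral_comp' g
  have h3 : ∀ X' : ι' → Om,
      (MeasurableEquiv.piCongrLeft (fun _ : ι' => Om) e).symm X' = T e X' := by
    intro X'
    funext j
    rfl
  simp only [h3] at h2
  exact h2

omit [Fintype ι] [Fintype ι'] in
private theorem T_grad (φ : (ι → Om) → ℝ) (j' : ι') (X' : ι' → Om) :
    gradSq (fun X' : ι' → Om => φ (T e X')) j' X' = gradSq φ (e.symm j') (T e X') := by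
  unfold gradSq
  have h1 : (fun y => (fun X' : ι' → Om => φ (T e X')) (put X' j' y)) =
      fun y => φ (put (T e X') (e.symm j') y) := by
    funext y
    simp only [T_put]
  have h2 : (X' j').1 = (T e X' (e.symm j')).1 := by simp [T]
  rw [h1, h2]

omit [Fintype ι] [Fintype ι'] in
private theorem T_lip (φ : (ι → Om) → ℝ)
    (h : ∃ K : ℝ, ∀ X j y, |φ (put X j y) - φ X| ≤ K * ‖y - (X j).1‖) :
    ∃ K : ℝ, ∀ (X : ι' → Om) j y, |φ (T e (put X j y)) - φ (T e X)| ≤ K * ‖y - (X j).1‖ := by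
  obtain ⟨K, hK⟩ := h
  refine ⟨K, fun X j y => ?_⟩
  rw [T_put]
  have := hK (T e X) (e.symm j) y
  simpa [T] using this

private theorem T_LC (φ : (ι → Om) → ℝ) (h : LC φ) : LC (fun X' : ι' → Om => φ (T e X')) := by
  refine ⟨T_lip e φ h.lip, ?_⟩
  obtain ⟨R, hR⟩ := h.supp
  refine ⟨R, fun X hX j => ?_⟩
  have := hR _ hX (e.symm j)
  simpa [T] using this

private theorem T_Anti (φ : (ι → Om) → ℝ) (h : Anti φ) :
    Anti (fun X' : ι' → Om => φ (T e X')) := by
  intro σ X
  have h1 : T e (X ∘ σ) = (T e X) ∘ (e.symm.permCongr σ) := by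
    funext j
    simp [T, Equiv.permCongr_apply]
  simp only [h1]
  rw [h, Equiv.Perm.sign_permCongr]

omit [DecidableEq ι] [DecidableEq ι'] in
private theorem T_pot {κ : Type} [Fintype κ] (Y : κ → E3) (X' : ι' → Om) :
    pot Y X' = pot Y (T e X') := by
  unfold pot attr repEE T
  rw [Equiv.sum_comp e (fun j' => ∑ m, cou (X' j').1 (Y m)),
    Equiv.sum_comp e (fun j' => ∑ k, cou (X' j').1 (X' (e k)).1)]
  congr 2
  congr 1
  refine Finset.sum_congr rfl fun j _ => ?_
  rw [Equiv.sum_comp e (fun k' => cou (X' j).1 (X' k').1)]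

end reidx

end Reindex

open Reindex in
/-- A10 -/
theorem p_reindex : S_reindex := by
  intro ι ι' _ _ _ _ e φ
  have hn : nsq (fun X' : ι' → Om => φ (T e X')) = nsq φ := T_int e (fun X => φ X ^ 2)
  have hk : kin (fun X' : ι' → Om => φ (T e X')) = kin φ := by
    unfold kin kin1
    have h1 : ∀ j' : ι', ∫ X', gradSq (fun X' : ι' → Om => φ (T e X')) j' X' ∂(mu ι') =
        ∫ X, gradSq φ (e.symm j') X ∂(mu ι) := by
      intro j'
      simp only [T_grad]
      exact T_int e (gradSq φ (e.symm j'))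
    simp only [h1]
    exact Equiv.sum_comp e.symm (fun j => ∫ X, gradSq φ j X ∂(mu ι))
  have he : ∀ W : (ι → Om) → ℝ, expv (fun X' : ι' → Om => W (T e X'))
      (fun X' : ι' → Om => φ (T e X')) = expv W φ := fun W =>
    T_int e (fun X => W X * φ X ^ 2)
  refine ⟨T_LC e φ, fun h => ⟨T_LC e φ h.toLC, T_Anti e φ h.anti⟩, hn, hk, he, ?_⟩
  intro κ _ Y
  have h2 : expv (pot Y) (fun X' : ι' → Om => φ (T e X')) = expv (pot Y) φ := by
    rw [← he (pot Y)]
    unfold expv
    simp only [← T_pot]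
  unfold Qf
  exact congrArg₂ (· + ·) hk h2

namespace Reindex

/-! ### translation -/

section shift

variable {ι : Type} [Fintype ι] [DecidableEq ι] (a : E3)

private def Sh (a : E3) (X : ι → Om) : ι → Om := fun j => ((X j).1 - a, (X j).2)

omit [Fintype ι] in
private theorem Sh_put (X : ι → Om) (j : ι) (y : E3) :
    Sh a (put X j y) = put (Sh a X) j (y - a) := by
  funext k
  unfold Sh put
  by_cases h : k = j
  · subst h
    simp
  · rw [Function.update_of_ne h, Function.update_of_ne h]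

private def eq1 (a : E3) : Om ≃ᵐ Om :=
  (MeasurableEquiv.subRight a).prodCongr (MeasurableEquiv.refl Bool)

omit [DecidableEq ι] in
private theorem Sh_int (g : (ι → Om) → ℝ) :
    ∫ X, g (Sh a X) ∂(mu ι) = ∫ X, g X ∂(mu ι) := by
  have := sf
  have h1 : MeasurePreserving (eq1 a) mu1 mu1 := by
    unfold mu1 eq1
    exact (measurePreserving_sub_right (volume : Measure E3) a).prod
      (MeasurePreserving.id (Measure.count : Measure Bool))
  have h2 : MeasurePreserving (MeasurableEquiv.piCongrRight (fun _ : ι => eq1 a))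
      (mu ι) (mu ι) := by
    unfold mu
    exact measurePreserving_pi (fun _ : ι => mu1) (fun _ : ι => mu1) (fun _ => h1)
  have h3 := h2.integral_comp' g
  exact h3

omit [Fintype ι] in
private theorem Sh_grad (φ : (ι → Om) → ℝ) (j : ι) (X : ι → Om) :
    gradSq (fun X : ι → Om => φ (Sh a X)) j X = gradSq φ j (Sh a X) := by
  unfold gradSq
  have h1 : (fun y => (fun X : ι → Om => φ (Sh a X)) (put X j y)) =
      fun y => (fun z => φ (put (Sh a X) j z)) (y - a) := by
    funext y
    simp only [Sh_put]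
  rw [h1]
  have h2 : (Sh a X j).1 = (X j).1 - a := rfl
  rw [h2, fderiv_comp_sub (f := fun z => φ (put (Sh a X) j z)) a]

omit [Fintype ι] in
private theorem Sh_lip (φ : (ι → Om) → ℝ)
    (h : ∃ K : ℝ, ∀ X j y, |φ (put X j y) - φ X| ≤ K * ‖y - (X j).1‖) :
    ∃ K : ℝ, ∀ (X : ι → Om) j y, |φ (Sh a (put X j y)) - φ (Sh a X)| ≤ K * ‖y - (X j).1‖ := by
  obtain ⟨K, hK⟩ := h
  refine ⟨K, fun X j y => ?_⟩
  rw [Sh_put]
  have h1 := hK (Sh a X) j (y - a)
  have h2 : y - a - (Sh a X j).1 = y - (X j).1 := by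
    change y - a - ((X j).1 - a) = _
    abel
  rwa [h2] at h1

private theorem Sh_LC (φ : (ι → Om) → ℝ) (h : LC φ) : LC (fun X : ι → Om => φ (Sh a X)) := by
  refine ⟨Sh_lip a φ h.lip, ?_⟩
  obtain ⟨R, hR⟩ := h.supp
  refine ⟨R + ‖a‖, fun X hX j => ?_⟩
  have h1 : ‖(X j).1 - a‖ ≤ R := hR _ hX j
  calc ‖(X j).1‖ = ‖((X j).1 - a) + a‖ := by rw [sub_add_cancel]
    _ ≤ ‖(X j).1 - a‖ + ‖a‖ := norm_add_le _ _
    _ ≤ R + ‖a‖ := by linarith

private theorem Sh_Anti (φ : (ι → Om) → ℝ) (h : Anti φ) :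
    Anti (fun X : ι → Om => φ (Sh a X)) := by
  intro σ X
  have h1 : Sh a (X ∘ σ) = (Sh a X) ∘ σ := rfl
  simp only [h1]
  rw [h]

omit [DecidableEq ι] in
private theorem Sh_pot {κ : Type} [Fintype κ] (Y : κ → E3) (X : ι → Om) :
    pot (fun m => a + Y m) X = pot Y (Sh a X) := by
  have e1 : ∀ x y : E3, cou (x - a) y = cou x (a + y) := by
    intro x y
    unfold cou
    congr 2
    abel
  have e2 : ∀ x y : E3, cou (x - a) (y - a) = cou x y := by
    intro x y
    unfold cou
    congr 2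
    abel
  have e3 : ∀ x y : E3, cou (a + x) (a + y) = cou x y := by
    intro x y
    unfold cou
    congr 2
    abel
  unfold pot attr repEE repNN Sh
  simp only [e2]
  simp only [e1, e3]

end shift

end Reindex

open Reindex in
/-- A11 -/
theorem p_shift : S_shift := by
  intro ι _ _ a φ
  have hn : nsq (fun X : ι → Om => φ (Sh a X)) = nsq φ := Sh_int a (fun X => φ X ^ 2)
  have hk : kin (fun X : ι → Om => φ (Sh a X)) = kin φ := by
    unfold kin kin1
    refine Finset.sum_congr rfl fun j _ => ?_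
    simp only [Sh_grad]
    exact Sh_int a (gradSq φ j)
  have he : ∀ W : (ι → Om) → ℝ, expv (fun X : ι → Om => W (Sh a X))
      (fun X : ι → Om => φ (Sh a X)) = expv W φ := fun W =>
    Sh_int a (fun X => W X * φ X ^ 2)
  refine ⟨Sh_LC a φ, fun h => ⟨Sh_LC a φ h.toLC, Sh_Anti a φ h.anti⟩, hn, hk, he, ?_⟩
  intro κ _ Y
  have h2 : expv (pot (fun m => a + Y m)) (fun X : ι → Om => φ (Sh a X)) = expv (pot Y) φ := by
    rw [← he (pot Y)]
    unfold expv
    simp only [← Sh_pot]
  unfold Qf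
  exact congrArg₂ (· + ·) hk h2

end MolDis
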