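import Pool.Agent.Lib.MP_59f35a_mp.Stmts1

/-!
# MP_59f35a_mp : A3, Fubini and slices
-/

set_option autoImplicit false
set_option linter.unusedSectionVars false

noncomputable section

open MeasureTheory

namespace MolDis

namespace Slice

variable {ι : Type} [Fintype ι] [DecidableEq ι]

instance sf_mu1 : SigmaFinite mu1 := by unfold mu1; infer_instance

/-- the splitting equivalence -/
def spl (p : ι → Prop) [DecidablePred p] :
    (ι → Om) ≃ᵐ ({j // p j} → Om) × ({j // ¬ p j} → Om) :=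
  MeasurableEquiv.piEquivPiSubtypeProd (fun _ => Om) p

theorem spl_mp (p : ι → Prop) [DecidablePred p] :
    MeasurePreserving (spl p) (mu ι) ((mu {j // p j}).prod (mu {j // ¬ p j})) :=
  measurePreserving_piEquivPiSubtypeProd (fun _ : ι => mu1) p

theorem spl_symm_apply (p : ι → Prop) [DecidablePred p] (Z : {j // p j} → Om)
    (Y : {j // ¬ p j} → Om) (j : ι) :
    (spl p).symm (Z, Y) j = if h : p j then Z ⟨j, h⟩ else Y ⟨j, h⟩ := rfl

theorem spl_symm_pos (p : ι → Prop) [DecidablePred p] (Z : {j // p j} → Om)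
    (Y : {j // ¬ p j} → Om) (j : {j // p j}) :
    (spl p).symm (Z, Y) j = Z j := by
  rw [spl_symm_apply, dif_pos j.2]

theorem spl_symm_neg (p : ι → Prop) [DecidablePred p] (Z : {j // p j} → Om)
    (Y : {j // ¬ p j} → Om) (j : ι) (h : ¬ p j) :
    (spl p).symm (Z, Y) j = Y ⟨j, h⟩ := by
  rw [spl_symm_apply, dif_neg h]

theorem put_spl (p : ι → Prop) [DecidablePred p] (Z : {j // p j} → Om)
    (Y : {j // ¬ p j} → Om) (j : {j // p j}) (y : E3) :
    put ((spl p).symm (Z, Y)) (j : ι) y = (spl p).symm (put Z j y, Y) := by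
  funext k
  unfold put
  by_cases hk : k = (j : ι)
  · subst hk
    rw [Function.update_self, spl_symm_pos, spl_symm_pos, Function.update_self]
  · rw [Function.update_of_ne hk, spl_symm_apply, spl_symm_apply]
    by_cases hp : p k
    · rw [dif_pos hp, dif_pos hp, Function.update_of_ne]
      intro h
      exact hk (congrArg Subtype.val h)
    · rw [dif_neg hp, dif_neg hp]

theorem glue_spl (p : ι → Prop) [DecidablePred p] (Z Z0 : {j // p j} → Om)
    (Y : {j // ¬ p j} → Om) :
    glue p Z ((spl p).symm (Z0, Y)) = (spl p).symm (Z, Y) := by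
  funext k
  unfold glue
  rw [spl_symm_apply, spl_symm_apply]
  by_cases hp : p k
  · rw [dif_pos hp, dif_pos hp]
  · rw [dif_neg hp, dif_neg hp, dif_neg hp]

theorem comp_spl (p : ι → Prop) [DecidablePred p] (Z : {j // p j} → Om)
    (Y : {j // ¬ p j} → Om) (σ : Equiv.Perm {j // p j}) :
    (spl p).symm (Z ∘ σ, Y) = (spl p).symm (Z, Y) ∘ (Equiv.Perm.ofSubtype σ) := by
  funext k
  by_cases hp : p k
  · rw [Function.comp_apply, Equiv.Perm.ofSubtype_apply_of_mem σ hp, spl_symm_pos,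
      spl_symm_apply, dif_pos hp]
    rfl
  · rw [Function.comp_apply, Equiv.Perm.ofSubtype_apply_of_not_mem σ hp, spl_symm_neg _ _ _ _ hp,
      spl_symm_neg _ _ _ _ hp]

/-- the slice of `ψ` -/
def sl (p : ι → Prop) [DecidablePred p] (ψ : (ι → Om) → ℝ) (Y : {j // ¬ p j} → Om) :
    ({j // p j} → Om) → ℝ := fun Z => ψ ((spl p).symm (Z, Y))

theorem gradSq_sl (p : ι → Prop) [DecidablePred p] (ψ : (ι → Om) → ℝ)
    (Y : {j // ¬ p j} → Om) (j : {j // p j}) (Z : {j // p j} → Om) :
    gradSq (sl p ψ Y) j Z = gradSq ψ (j : ι) ((spl p).symm (Z, Y)) := by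
  unfold gradSq sl
  rw [spl_symm_pos]
  simp only [put_spl]

theorem sl_WF (p : ι → Prop) [DecidablePred p] (ψ : (ι → Om) → ℝ) (h : LC ψ)
    (ha : ∀ σ : Equiv.Perm ι, (∀ j, ¬ p j → σ j = j) → ∀ X, ψ (X ∘ σ) =
      ((Equiv.Perm.sign σ : ℤ) : ℝ) * ψ X) (Y : {j // ¬ p j} → Om) :
    WF (sl p ψ Y) where
  lip := by
    obtain ⟨K, hK⟩ := h.lip
    refine ⟨K, fun Z j y => ?_⟩
    have := hK ((spl p).symm (Z, Y)) (j : ι) y
    rw [put_spl, spl_symm_pos] at this
    exact this
  supp := by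
    obtain ⟨R, hR⟩ := h.supp
    refine ⟨R, fun Z hZ j => ?_⟩
    have := hR ((spl p).symm (Z, Y)) hZ (j : ι)
    rw [spl_symm_pos] at this
    exact this
  anti := by
    intro σ Z
    unfold sl
    rw [comp_spl, ha (Equiv.Perm.ofSubtype σ) ?_, Equiv.Perm.sign_ofSubtype]
    intro j hj
    exact Equiv.Perm.ofSubtype_apply_of_not_mem σ hj

end Slice

open Slice in
/-- **A3 (slices).** -/
theorem p_slice (hlc : S_lc) : S_slice := by
  intro ι _ _ p _ ψ T W hψ hW ha hT hmain
  obtain ⟨-, -, -, -, hgi, hWi, -⟩ := hlc ι ψ hψ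
  have hWi := hWi W hW
  -- the integrand
  set G : (ι → Om) → ℝ := fun X => (∑ j ∈ Finset.univ.filter p, gradSq ψ j X) + W X * ψ X ^ 2
    with hG
  have hsumi : Integrable (fun X => ∑ j ∈ Finset.univ.filter p, gradSq ψ j X) (mu ι) :=
    integrable_finsetSum _ fun j _ => hgi j
  have hGi : Integrable G (mu ι) := hsumi.add hWi
  have hGint : (∑ j ∈ Finset.univ.filter p, kin1 j ψ) + expv W ψ = ∫ X, G X ∂(mu ι) := by
    rw [hG, integral_add hsumi hWi, integral_finsetSum _ fun j _ => hgi j]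
    rfl
  rw [hGint]
  have hmp : MeasurePreserving (spl p).symm ((mu {j // p j}).prod (mu {j // ¬ p j})) (mu ι) :=
    (spl_mp p).symm
  rw [← hmp.integral_comp (spl p).symm.measurableEmbedding G]
  have : SigmaFinite (mu {j // p j}) := by unfold mu; infer_instance
  have : SigmaFinite (mu {j // ¬ p j}) := by unfold mu; infer_instance
  have hGi' : Integrable (fun q => G ((spl p).symm q))
      ((mu {j // p j}).prod (mu {j // ¬ p j})) :=
    (hmp.integrable_comp_emb (spl p).symm.measurableEmbedding).2 hGi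
  rw [integral_prod_symm _ hGi']
  have hg' : ∀ j, Integrable (fun q => gradSq ψ j ((spl p).symm q))
      ((mu {j // p j}).prod (mu {j // ¬ p j})) := fun j =>
    (hmp.integrable_comp_emb (spl p).symm.measurableEmbedding).2 (hgi j)
  have hW' : Integrable (fun q => W ((spl p).symm q) * ψ ((spl p).symm q) ^ 2)
      ((mu {j // p j}).prod (mu {j // ¬ p j})) :=
    (hmp.integrable_comp_emb (spl p).symm.measurableEmbedding).2 hWi
  apply integral_nonneg_of_ae
  have hae1 : ∀ᵐ Y ∂(mu {j // ¬ p j}), ∀ j : ι,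
      Integrable (fun Z => gradSq ψ j ((spl p).symm (Z, Y))) (mu {j // p j}) :=
    Filter.eventually_all.2 fun j => (hg' j).prod_left_ae
  have hae2 : ∀ᵐ Y ∂(mu {j // ¬ p j}),
      Integrable (fun Z => W ((spl p).symm (Z, Y)) * ψ ((spl p).symm (Z, Y)) ^ 2)
        (mu {j // p j}) := hW'.prod_left_ae
  filter_upwards [hae1, hae2] with Y h1 h2
  show (0 : ℝ) ≤ ∫ Z, G ((spl p).symm (Z, Y)) ∂(mu {j // p j})
  have hval : ∫ Z, G ((spl p).symm (Z, Y)) ∂(mu {j // p j}) =
      kin (sl p ψ Y) + expv (fun Z => W ((spl p).symm (Z, Y))) (sl p ψ Y) := by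
    simp only [hG]
    rw [integral_add (integrable_finsetSum _ fun j _ => h1 j) h2,
      integral_finsetSum _ fun j _ => h1 j]
    congr 1
    unfold kin kin1
    simp only [gradSq_sl]
    rw [Finset.sum_subtype (p := p) (Finset.univ.filter p) (by simp)]
  rw [hval]
  by_cases hz : ∃ Z0, sl p ψ Y Z0 ≠ 0
  · obtain ⟨Z0, hZ0⟩ := hz
    have hX0 : (spl p).symm (Z0, Y) ∈ T := hT _ hZ0
    have := hmain _ hX0 (sl p ψ Y) (sl_WF p ψ hψ ha Y) (fun Z hZ => by
      rw [glue_spl]; exact hT _ hZ)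
    simp only [glue_spl] at this
    exact this
  · push Not at hz
    have h0 : sl p ψ Y = fun _ => 0 := funext hz
    rw [h0]
    have e1 : kin (fun _ : {j // p j} → Om => (0 : ℝ)) = 0 := by
      unfold kin kin1 gradSq
      simp
    have e2 : expv (fun Z => W ((spl p).symm (Z, Y))) (fun _ : {j // p j} → Om => (0 : ℝ)) = 0 := by
      unfold expv
      simp
    rw [e1, e2, add_zero]

end MolDis
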