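import Pool.Agent.Lib.MP_59f35a_mp.Stmts2

/-!
# MP_59f35a_mp, piece B3: slopes
-/

set_option autoImplicit false

noncomputable section

open MeasureTheory

namespace MolDis

namespace Slopes

/-- sizes of the two clusters -/
def sz (A B : ℕ) : Bool → ℕ := fun b => Bool.rec B A b

/-- the two clusters -/
def two {A B : ℕ} (U : Fin A → E3) (V : Fin B → E3) : ∀ b : Bool, Fin (sz A B b) → E3 :=
  fun b => Bool.rec V U b

/-- centres -/
def cen (L : ℝ) : Bool → E3 := fun b => if b then EuclideanSpace.single 0 L else 0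

theorem cen_dist {L : ℝ} (hL : 0 ≤ L) (k k' : Bool) (h : k ≠ k') : L ≤ ‖cen L k - cen L k'‖ := by
  cases k <;> cases k' <;> simp_all [cen, abs_of_nonneg]

theorem cl_inj {A B : ℕ} {U : Fin A → E3} {V : Fin B → E3} (hU : Function.Injective U)
    (hV : Function.Injective V) {r L : ℝ} (hr : 0 ≤ r) (h : ∀ k m, ‖two U V k m‖ ≤ r)
    (hL : 2 * r < L) : Function.Injective (cl (cen L) (two U V)) := by
  rintro ⟨k, m⟩ ⟨k', m'⟩ he
  have he' : cen L k + two U V k m = cen L k' + two U V k' m' := he
  by_cases hk : k = k'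
  · subst hk
    have h1 : two U V k m = two U V k m' := by simpa using he'
    cases k
    · have : m = m' := hV h1
      rw [this]
    · have : m = m' := hU h1
      rw [this]
  · exfalso
    have h1 := cen_dist (L := L) (by linarith) k k' hk
    have h2 : cen L k - cen L k' = two U V k' m' - two U V k m := by
      rw [sub_eq_sub_iff_add_eq_add, he', add_comm]
    rw [h2] at h1
    have h3 := norm_sub_le (two U V k' m') (two U V k m)
    have h4 := h k m
    have h5 := h k' m'
    linarith

theorem step (hen : S_en) (hlow : S_far_lower) (hup : S_far_upper) (hP : PQ1) {A B : ℕ}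
    (hA : 0 < A) (hB : 0 < B) (U : Fin A → E3) (V : Fin B → E3) (hU : Function.Injective U)
    (hV : Function.Injective V) (a b : ℕ) {ε : ℝ} (hε : 0 < ε) :
    ∃ W : Fin (A + B) → E3, Function.Injective W ∧
      En A U + En B V - ε ≤ En (A + B) W ∧ En (a + b) W ≤ En a U + En b V + ε := by
  obtain ⟨C, hC, hlow⟩ := hlow
  obtain ⟨L0, hL0⟩ := hup Bool (sz A B) (sz a b) (two U V) ε hε
  obtain ⟨r, hr, hrb⟩ : ∃ r : ℝ, 0 ≤ r ∧ ∀ k m, ‖two U V k m‖ ≤ r := by
    refine ⟨∑ k, ∑ m, ‖two U V k m‖, by positivity, fun k m => ?_⟩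
    calc ‖two U V k m‖ ≤ ∑ m, ‖two U V k m‖ :=
          Finset.single_le_sum (f := fun m => ‖two U V k m‖) (fun _ _ => norm_nonneg _)
            (Finset.mem_univ m)
      _ ≤ _ := Finset.single_le_sum (f := fun k => ∑ m, ‖two U V k m‖)
            (fun _ _ => Finset.sum_nonneg fun _ _ => norm_nonneg _) (Finset.mem_univ k)
  set T : ℝ := C * ((A + B : ℕ) : ℝ) * (((A + B : ℕ) : ℝ) + 1) with hT
  have hT0 : 0 ≤ T := by positivity
  set L : ℝ := 1 + 16 * r + |L0| + T / ε with hL
  have hTε : 0 ≤ T / ε := by positivity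
  have hL1 : 1 ≤ L := by have := abs_nonneg L0; linarith
  have hL16 : 16 * r ≤ L := by have := abs_nonneg L0; linarith
  have hLL0 : L0 ≤ L := by have := le_abs_self L0; linarith
  have hLT : T / L ≤ ε := by
    rw [div_le_iff₀ (by linarith)]
    have h1 : T / ε * ε = T := div_mul_cancel₀ _ hε.ne'
    have h2 : T / ε ≤ L := by have := abs_nonneg L0; linarith
    nlinarith
  have hdist := cen_dist (L := L) (by linarith)
  have hcard : Fintype.card (Fin (A + B)) = Fintype.card (Σ k : Bool, Fin (sz A B k)) := by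
    rw [Fintype.card_sigma, Fintype.sum_bool, Fintype.card_fin, Fintype.card_fin,
      Fintype.card_fin]
    rfl
  let e : Fin (A + B) ≃ (Σ k : Bool, Fin (sz A B k)) := Fintype.equivOfCardEq hcard
  refine ⟨fun i => cl (cen L) (two U V) (e i),
    (cl_inj hU hV hr hrb (by linarith)).comp e.injective, ?_, ?_⟩
  · rw [hen.2.2.2.1]
    obtain ⟨n, hn, h1⟩ := hlow Bool (sz A B) (two U V) (cen L) r L hrb hL1 hL16 hdist (A + B)
    rw [Fintype.sum_bool] at hn
    simp only [Fintype.sum_bool] at h1
    have h2 : En A U + En B V ≤ En (n true) U + En (n false) V := by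
      by_cases hnA : n true = A
      · have hnB : n false = B := by omega
        rw [hnA, hnB]
      · have h3 := hP A B U V hA hB hU hV (n true) (by omega) hnA
        have h4 : A + B - n true = n false := by omega
        rw [h4] at h3
        exact h3.le
    have h5 : C * ((A + B : ℕ) : ℝ) * (((sz A B true + sz A B false : ℕ) : ℝ) + 1) / L ≤ ε := hLT
    have h6 : En (n true) (two U V true) = En (n true) U := rfl
    have h7 : En (n false) (two U V false) = En (n false) V := rfl
    rw [h6, h7] at h1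
    linarith
  · rw [hen.2.2.2.1]
    have h1 := hL0 (cen L) (fun k k' hk => hLL0.trans (hdist k k' hk))
    simp only [Fintype.sum_bool] at h1
    exact h1

theorem copies (hen : S_en) (hlow : S_far_lower) (hup : S_far_upper) (hP : PQ1) {M : ℕ}
    (hM : 0 < M) (Y : Fin M → E3) (hY : Function.Injective Y) (j : ℕ) :
    ∀ p : ℕ, 1 ≤ p → ∀ N J : ℕ, N = p * M → J = p * j → ∀ ε : ℝ, 0 < ε →
      ∃ Y' : Fin N → E3, Function.Injective Y' ∧ p * En M Y - ε ≤ En N Y' ∧
        En J Y' ≤ p * En j Y + ε := by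
  intro p hp
  induction p, hp using Nat.le_induction with
  | base =>
    intro N J hN hJ ε hε
    obtain rfl : N = M := by omega
    obtain rfl : J = j := by omega
    exact ⟨Y, hY, by push_cast; linarith, by push_cast; linarith⟩
  | succ p hp ih =>
    intro N J hN hJ ε hε
    obtain ⟨Y', hY', h1, h2⟩ := ih (p * M) (p * j) rfl rfl (ε / 2) (by linarith)
    obtain ⟨W, hW, h3, h4⟩ := step hen hlow hup hP (Nat.mul_pos (by omega) hM) hM Y' Y hY' hY
      (p * j) j (ε := ε / 2) (by linarith)
    obtain rfl : N = p * M + M := by rw [hN]; ring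
    obtain rfl : J = p * j + j := by rw [hJ]; ring
    refine ⟨W, hW, ?_, ?_⟩ <;> push_cast <;> linarith

end Slopes

theorem p_slopes (hen : S_en) (hlow : S_far_lower) (hup : S_far_upper) : S_slopes := by
  intro hP M₁ M₂ k l Y₁ Y₂ hY₁ hY₂ hk hkM hM₂ hl
  refine le_of_forall_pos_le_add fun ε hε => ?_
  obtain ⟨U, hU, h1, h2⟩ := Slopes.copies hen hlow hup hP (M := M₁) (by omega) Y₁ hY₁ (M₁ - k) l hl
    (l * M₁) (l * (M₁ - k)) rfl rfl (ε / 4) (by linarith)
  obtain ⟨V, hV, h3, h4⟩ := Slopes.copies hen hlow hup hP (M := M₂) (by omega) Y₂ hY₂ (M₂ + l) k hk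
    (k * M₂) (k * (M₂ + l)) rfl rfl (ε / 4) (by linarith)
  have h5 := hP (l * M₁) (k * M₂) U V (Nat.mul_pos (by omega) (by omega))
    (Nat.mul_pos (by omega) (by omega)) hU hV (l * (M₁ - k)) ?_ ?_
  · have h6 : l * M₁ + k * M₂ - l * (M₁ - k) = k * (M₂ + l) := by
      obtain ⟨m, rfl⟩ := Nat.exists_eq_add_of_le hkM
      rw [Nat.add_sub_cancel_left]
      have : l * (k + m) + k * M₂ = k * (M₂ + l) + l * m := by ring
      rw [this, Nat.add_sub_cancel]
    rw [h6] at h5
    linarith
  · calc l * (M₁ - k) ≤ l * M₁ := Nat.mul_le_mul_left _ (Nat.sub_le _ _)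
      _ ≤ _ := Nat.le_add_right _ _
  · intro h
    have := Nat.eq_of_mul_eq_mul_left (by omega) h
    omega

end MolDis
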