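import Pool.Agent.Lib.MP_59f35a_mp.Stmts4

/-!
# MP_59f35a_mp : piece I1 (one array step)
-/

set_option autoImplicit false
set_option maxHeartbeats 1000000

noncomputable section

open MeasureTheory

namespace MolDis

namespace Step

private lemma floor_half {x : ℝ} (hx : 1 ≤ x) :
    x / 2 ≤ (⌊x⌋₊ : ℝ) ∧ (⌊x⌋₊ : ℝ) ≤ x ∧ 1 ≤ ⌊x⌋₊ := by
  have h1 : 1 ≤ ⌊x⌋₊ := (Nat.one_le_floor_iff x).mpr hx
  have h2 : (⌊x⌋₊ : ℝ) ≤ x := Nat.floor_le (by linarith)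
  have h3 : x < (⌊x⌋₊ : ℝ) + 1 := Nat.lt_floor_add_one x
  have h4 : (1 : ℝ) ≤ (⌊x⌋₊ : ℝ) := by exact_mod_cast h1
  exact ⟨by linarith, h2, h1⟩

private lemma exists_q {x : ℝ} (hx : 1 ≤ x) :
    ∃ q : ℕ, 1 ≤ q ∧ (q : ℝ) ^ 3 ≤ x ∧ x / 8 ≤ (q : ℝ) ^ 3 := by
  have hx0 : 0 ≤ x := by linarith
  set y : ℝ := x ^ ((1 : ℝ) / 3) with hy
  have hy1 : 1 ≤ y := Real.one_le_rpow hx (by norm_num)
  have hy3 : y ^ 3 = x := by
    rw [hy, ← Real.rpow_natCast, ← Real.rpow_mul hx0]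
    norm_num
  obtain ⟨h1, h2, h3⟩ := floor_half hy1
  refine ⟨⌊y⌋₊, h3, ?_, ?_⟩
  · calc ((⌊y⌋₊ : ℕ) : ℝ) ^ 3 ≤ y ^ 3 := by gcongr
      _ = x := hy3
  · calc x / 8 = (y / 2) ^ 3 := by rw [← hy3]; ring
      _ ≤ ((⌊y⌋₊ : ℕ) : ℝ) ^ 3 := by gcongr

/-- choice of `d, h, K, q` -/
private lemma params {p δ v κ d1 : ℝ} (hp : 0 < p) (hδ : 0 < δ) (hv : 0 < v)
    (hκ : 0 < κ) (hκδ : 2 * κ ≤ δ) :
    ∃ (d h : ℝ) (K q : ℕ), d1 ≤ d ∧ 1 ≤ d ∧ 1 ≤ K ∧ 1 ≤ q ∧ p * K ≤ v * d ^ 2 ∧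
      v * d ^ 2 / 2 ≤ p * K ∧ d ≤ h ∧ (q : ℝ) ≤ h ∧ 2 * h * q = δ * d * K ∧
      (q : ℝ) ^ 3 ≤ κ * d * K ∧ κ * d * K / 8 ≤ (q : ℝ) ^ 3 := by
  set d : ℝ := max d1 (max 1 (max (p / v) (max (32 * κ * p ^ 2 / (δ ^ 3 * v ^ 2)) (1 / κ)))) with hd
  have e1 : d1 ≤ d := le_max_left _ _
  have e2 : 1 ≤ d := le_trans (le_max_left _ _) (le_max_right _ _)
  have e3 : p / v ≤ d :=
    le_trans (le_trans (le_max_left _ _) (le_max_right _ _)) (le_max_right _ _)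
  have e4 : 32 * κ * p ^ 2 / (δ ^ 3 * v ^ 2) ≤ d :=
    le_trans (le_trans (le_trans (le_max_left _ _) (le_max_right _ _)) (le_max_right _ _))
      (le_max_right _ _)
  have e5 : 1 / κ ≤ d :=
    le_trans (le_trans (le_trans (le_max_right _ _) (le_max_right _ _)) (le_max_right _ _))
      (le_max_right _ _)
  clear_value d
  have hd0 : 0 < d := by linarith
  have hx : 1 ≤ v * d ^ 2 / p := by
    rw [le_div_iff₀ hp, one_mul]
    have : p ≤ d * v := by rwa [div_le_iff₀ hv] at e3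
    nlinarith [mul_nonneg hv.le (mul_nonneg hd0.le (sub_nonneg.2 e2))]
  obtain ⟨hK1, hK2, hK3⟩ := floor_half hx
  set K : ℕ := ⌊v * d ^ 2 / p⌋₊ with hK
  clear_value K
  have hKr : (1 : ℝ) ≤ K := by exact_mod_cast hK3
  have hy : 1 ≤ κ * d * K := by
    have : 1 ≤ d * κ := by rwa [div_le_iff₀ hκ] at e5
    nlinarith [mul_nonneg (mul_nonneg hκ.le hd0.le) (sub_nonneg.2 hKr)]
  obtain ⟨q, hq1, hq2, hq3⟩ := exists_q hy
  have hqr : (1 : ℝ) ≤ q := by exact_mod_cast hq1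
  have hq0 : (0 : ℝ) < q := by linarith
  have hpK : p * K ≤ v * d ^ 2 := by
    rw [le_div_iff₀ hp] at hK2
    linarith
  have hpK2 : v * d ^ 2 / 2 ≤ p * K := by
    have := mul_le_mul_of_nonneg_left hK1 hp.le
    have e : p * (v * d ^ 2 / p / 2) = v * d ^ 2 / 2 := by field_simp
    linarith
  refine ⟨d, δ * d * K / (2 * q), K, q, e1, e2, hK3, hq1, hpK, hpK2, ?_, ?_, ?_, hq2, hq3⟩
  · -- d ≤ h
    rw [le_div_iff₀ (by positivity)]
    -- d * (2 q) ≤ δ d K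
    have key : 2 * (q : ℝ) ≤ δ * K := by
      by_contra hcon
      push Not at hcon
      have h8 : (δ * K) ^ 3 < (2 * (q : ℝ)) ^ 3 := by
        have : 0 ≤ δ * K := by positivity
        gcongr
      have h9 : (2 * (q : ℝ)) ^ 3 ≤ 8 * (κ * d * K) := by nlinarith
      -- δ³ K³ < 8 κ d K
      have hKpos : (0 : ℝ) < K := by linarith
      have h10 : δ ^ 3 * K ^ 2 < 8 * κ * d := by
        have : (δ ^ 3 * (K : ℝ) ^ 2) * K < (8 * κ * d) * K := by nlinarith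
        exact lt_of_mul_lt_mul_right this hKpos.le
      -- K ≥ v d² / (2p)
      have h11 : v ^ 2 * d ^ 4 / 4 ≤ p ^ 2 * (K : ℝ) ^ 2 := by
        have h0 : 0 ≤ v * d ^ 2 / 2 := by positivity
        calc v ^ 2 * d ^ 4 / 4 = (v * d ^ 2 / 2) ^ 2 := by ring
          _ ≤ (p * K) ^ 2 := by gcongr
          _ = p ^ 2 * (K : ℝ) ^ 2 := by ring
      have h12 : 32 * κ * p ^ 2 ≤ d * (δ ^ 3 * v ^ 2) := by
        rwa [div_le_iff₀ (by positivity)] at e4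
      -- combine: δ³ v² d⁴/4 ≤ δ³ p² K² < 8 κ d p² ≤ d * d (δ³ v²)/4
      have h13 : δ ^ 3 * (v ^ 2 * d ^ 4 / 4) ≤ δ ^ 3 * (p ^ 2 * (K : ℝ) ^ 2) := by gcongr
      have h14 : p ^ 2 * (δ ^ 3 * (K : ℝ) ^ 2) < p ^ 2 * (8 * κ * d) := by
        have : 0 < p ^ 2 := by positivity
        exact mul_lt_mul_of_pos_left h10 this
      have h15 : d * (32 * κ * p ^ 2) ≤ d * (d * (δ ^ 3 * v ^ 2)) :=
        mul_le_mul_of_nonneg_left h12 hd0.le
      have h16 : δ ^ 3 * v ^ 2 * d ^ 4 < δ ^ 3 * v ^ 2 * d ^ 2 := by nlinarith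
      have h17 : δ ^ 3 * v ^ 2 * d ^ 2 ≤ δ ^ 3 * v ^ 2 * d ^ 4 := by
        have : d ^ 2 ≤ d ^ 4 := pow_le_pow_right₀ e2 (by norm_num)
        gcongr
      linarith
    nlinarith
  · rw [le_div_iff₀ (by positivity)]
    -- q * (2 q) ≤ δ d K
    have h1 : (q : ℝ) ^ 2 ≤ (q : ℝ) ^ 3 := pow_le_pow_right₀ hqr (by norm_num)
    have h2 : 2 * (κ * d * K) ≤ δ * d * K := by
      have : 0 ≤ d * K := by positivity
      nlinarith
    nlinarith
  · field_simp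

/-- the error terms -/
private lemma errors {A c v l δ κ p d γ' ε h e0 : ℝ} {K q : ℕ} (hA : 1 ≤ A) (hc : 0 < c) (hc1 : c ≤ 1)
    (hv : 0 < v) (hl : 0 < l) (hδ : 0 < δ) (hδ1 : δ ≤ 1) (hp : 0 < p) (hd : 1 ≤ d)
    (hκ : κ = δ * c * v / (64 * A * l)) (hε : ε = c ^ 2 * δ / (432 * 64 * 32 * A ^ 2))
    (hγ0 : 0 < γ') (hγ1 : γ' ≤ l * c * v / 128)
    (hγ2 : γ' ≤ (l * c * v / 32) * κ * p ^ 2 / (432 * v ^ 2))
    (he0 : e0 ≤ l * c * v / 32)
    (hK : 1 ≤ K) (hq : 1 ≤ q) (hpK : p * K ≤ v * d ^ 2)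
    (hh : 2 * h * q = δ * d * K) (hqu : (q : ℝ) ^ 3 ≤ κ * d * K) (hql : κ * d * K / 8 ≤ (q : ℝ) ^ 3)
    (hh0 : 0 < h) :
    (q : ℝ) ^ 3 * (e0 + γ') + A * ε * p ^ 2 * (2 * K + 1) ^ 3 / d ^ 3 + γ' * (2 * K + 1) ^ 3 / d ^ 3
      + (q : ℝ) ^ 3 * (l * c * v / 64) + A * l ^ 2 * q ^ 5 / h
      + A * ε * p ^ 2 * (2 * K + 1) ^ 3 / d ^ 3 + A * l * ε * v * q ^ 3
      + γ' * ((2 * K + 1) ^ 3 / d ^ 3 + q ^ 3) ≤ (q : ℝ) ^ 3 * (l * c * v / 4) := by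
  have hKr : (1 : ℝ) ≤ K := by exact_mod_cast hK
  have hqr : (1 : ℝ) ≤ q := by exact_mod_cast hq
  have hd0 : 0 < d := by linarith
  have hA0 : 0 < A := by linarith
  have hκ0 : 0 < κ := by rw [hκ]; positivity
  have hε0 : 0 < ε := by rw [hε]; positivity
  have hq3 : (0 : ℝ) < (q : ℝ) ^ 3 := by positivity
  -- (a) (2K+1)^3 / d^3 ≤ q^3 * 216 K^2 / (κ d^4)
  have ha : (2 * (K : ℝ) + 1) ^ 3 / d ^ 3 ≤ (q : ℝ) ^ 3 * (216 * K ^ 2 / (κ * d ^ 4)) := by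
    have h1 : (2 * (K : ℝ) + 1) ^ 3 ≤ (3 * K) ^ 3 := by gcongr; linarith
    have h2 : (κ * d * K / 8) * (216 * (K : ℝ) ^ 2 / (κ * d ^ 4)) = (3 * K) ^ 3 / d ^ 3 := by
      field_simp
      ring
    calc (2 * (K : ℝ) + 1) ^ 3 / d ^ 3 ≤ (3 * K) ^ 3 / d ^ 3 := by gcongr
      _ = (κ * d * K / 8) * (216 * (K : ℝ) ^ 2 / (κ * d ^ 4)) := h2.symm
      _ ≤ (q : ℝ) ^ 3 * (216 * K ^ 2 / (κ * d ^ 4)) := by gcongr
  -- K^2 ≤ v^2 d^4 / p^2
  have hK2 : p ^ 2 * (K : ℝ) ^ 2 ≤ v ^ 2 * d ^ 4 := by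
    have : 0 ≤ p * (K : ℝ) := by positivity
    calc p ^ 2 * (K : ℝ) ^ 2 = (p * K) ^ 2 := by ring
      _ ≤ (v * d ^ 2) ^ 2 := by gcongr
      _ = v ^ 2 * d ^ 4 := by ring
  -- (b) p^2 (2K+1)^3/d^3 ≤ q^3 * 216 v^2/κ
  have hb : p ^ 2 * ((2 * (K : ℝ) + 1) ^ 3 / d ^ 3) ≤ (q : ℝ) ^ 3 * (216 * v ^ 2 / κ) := by
    have h1 : p ^ 2 * (216 * (K : ℝ) ^ 2 / (κ * d ^ 4)) ≤ 216 * v ^ 2 / κ := by
      have e : p ^ 2 * (216 * (K : ℝ) ^ 2 / (κ * d ^ 4)) = 216 * (p ^ 2 * (K : ℝ) ^ 2) / (κ * d ^ 4) := by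
        ring
      rw [e, div_le_div_iff₀ (by positivity) hκ0]
      nlinarith [mul_le_mul_of_nonneg_left hK2 hκ0.le]
    calc p ^ 2 * ((2 * (K : ℝ) + 1) ^ 3 / d ^ 3)
        ≤ p ^ 2 * ((q : ℝ) ^ 3 * (216 * K ^ 2 / (κ * d ^ 4))) := by gcongr
      _ = (q : ℝ) ^ 3 * (p ^ 2 * (216 * K ^ 2 / (κ * d ^ 4))) := by ring
      _ ≤ (q : ℝ) ^ 3 * (216 * v ^ 2 / κ) := by gcongr
  -- (i)
  have hi : A * l ^ 2 * q ^ 5 / h ≤ (q : ℝ) ^ 3 * (l * c * v / 32) := by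
    rw [div_le_iff₀ hh0]
    have h1 : (q : ℝ) ^ 3 * 2 ≤ 2 * h * q * (2 * κ / δ) := by
      rw [hh]
      have : δ * d * K * (2 * κ / δ) = 2 * (κ * d * K) := by field_simp
      rw [this]; linarith
    -- A l² q⁵ = A l² q² q³ ≤ A l² q² * (h q (2κ/δ))
    have h2 : A * l * (2 * κ / δ) = c * v / 32 := by
      rw [hκ]; field_simp; ring
    have h3 : (q : ℝ) ^ 3 ≤ h * q * (2 * κ / δ) := by linarith
    calc A * l ^ 2 * (q : ℝ) ^ 5 = A * l ^ 2 * q ^ 2 * (q : ℝ) ^ 3 := by ring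
      _ ≤ A * l ^ 2 * q ^ 2 * (h * q * (2 * κ / δ)) := by gcongr
      _ = (q : ℝ) ^ 3 * l * h * (A * l * (2 * κ / δ)) := by ring
      _ = (q : ℝ) ^ 3 * (l * c * v / 32) * h := by rw [h2]; ring
  -- (ii)
  have hii : 2 * (A * ε * p ^ 2 * (2 * K + 1) ^ 3 / d ^ 3) ≤ (q : ℝ) ^ 3 * (l * c * v / 32) := by
    have h1 : A * ε * (432 * v ^ 2 / κ) = l * c * v / 32 := by
      rw [hε, hκ]; field_simp
    calc 2 * (A * ε * p ^ 2 * (2 * K + 1) ^ 3 / d ^ 3)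
        = 2 * (A * ε) * (p ^ 2 * ((2 * (K : ℝ) + 1) ^ 3 / d ^ 3)) := by ring
      _ ≤ 2 * (A * ε) * ((q : ℝ) ^ 3 * (216 * v ^ 2 / κ)) := by gcongr
      _ = (q : ℝ) ^ 3 * (A * ε * (432 * v ^ 2 / κ)) := by ring
      _ = (q : ℝ) ^ 3 * (l * c * v / 32) := by rw [h1]
  -- (iii)
  have hiii : A * l * ε * v * q ^ 3 ≤ (q : ℝ) ^ 3 * (l * c * v / 32) := by
    have h1 : A * ε ≤ c / 32 := by
      rw [hε]
      have e : A * (c ^ 2 * δ / (432 * 64 * 32 * A ^ 2)) = (c * (c * δ)) / (432 * 64 * 32 * A) := by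
        field_simp
      rw [e, div_le_div_iff₀ (by positivity) (by norm_num)]
      have h2 : c * δ ≤ 1 := by nlinarith
      nlinarith [mul_le_mul_of_nonneg_left h2 hc.le, mul_le_mul_of_nonneg_left hA hc.le]
    calc A * l * ε * v * q ^ 3 = (A * ε) * (l * v * (q : ℝ) ^ 3) := by ring
      _ ≤ (c / 32) * (l * v * (q : ℝ) ^ 3) := by gcongr
      _ = (q : ℝ) ^ 3 * (l * c * v / 32) := by ring
  -- (iv)
  have hiv : 2 * (γ' * ((2 * (K : ℝ) + 1) ^ 3 / d ^ 3)) ≤ (q : ℝ) ^ 3 * (l * c * v / 32) := by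
    have h1 : γ' * (432 * v ^ 2 / κ) ≤ p ^ 2 * (l * c * v / 32) := by
      calc γ' * (432 * v ^ 2 / κ) ≤ ((l * c * v / 32) * κ * p ^ 2 / (432 * v ^ 2)) * (432 * v ^ 2 / κ) := by
            gcongr
        _ = p ^ 2 * (l * c * v / 32) := by field_simp
    have hp2 : 0 < p ^ 2 := by positivity
    have h2 : p ^ 2 * (2 * (γ' * ((2 * (K : ℝ) + 1) ^ 3 / d ^ 3)))
        ≤ p ^ 2 * ((q : ℝ) ^ 3 * (l * c * v / 32)) := by
      calc p ^ 2 * (2 * (γ' * ((2 * (K : ℝ) + 1) ^ 3 / d ^ 3)))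
          = 2 * γ' * (p ^ 2 * ((2 * (K : ℝ) + 1) ^ 3 / d ^ 3)) := by ring
        _ ≤ 2 * γ' * ((q : ℝ) ^ 3 * (216 * v ^ 2 / κ)) := by gcongr
        _ = (q : ℝ) ^ 3 * (γ' * (432 * v ^ 2 / κ)) := by ring
        _ ≤ (q : ℝ) ^ 3 * (p ^ 2 * (l * c * v / 32)) := by gcongr
        _ = p ^ 2 * ((q : ℝ) ^ 3 * (l * c * v / 32)) := by ring
    exact le_of_mul_le_mul_left h2 hp2
  -- (v), (vi)
  have hv1 : (q : ℝ) ^ 3 * (e0 + γ') ≤ (q : ℝ) ^ 3 * (l * c * v / 32 + l * c * v / 128) := by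
    gcongr
  have hv2 : γ' * (q : ℝ) ^ 3 ≤ (q : ℝ) ^ 3 * (l * c * v / 128) := by
    rw [mul_comm]; gcongr
  have hpos : 0 ≤ (q : ℝ) ^ 3 * (l * c * v) := by positivity
  have e1 : γ' * (2 * (K : ℝ) + 1) ^ 3 / d ^ 3 = γ' * ((2 * (K : ℝ) + 1) ^ 3 / d ^ 3) := by ring
  have e2 : γ' * ((2 * (K : ℝ) + 1) ^ 3 / d ^ 3 + q ^ 3)
      = γ' * ((2 * (K : ℝ) + 1) ^ 3 / d ^ 3) + γ' * (q : ℝ) ^ 3 := by ring
  rw [e1, e2]
  nlinarith

private lemma zpos_dist (K : ℕ) {d : ℝ} (hd : 0 < d) (i j : Fin 3 → Fin (2 * K + 1)) (hij : i ≠ j) :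
    d ≤ ‖zpos K d i - zpos K d j‖ := by
  obtain ⟨t, ht⟩ := Function.ne_iff.mp hij
  have h1 : ‖(zpos K d i - zpos K d j) t‖ ≤ ‖zpos K d i - zpos K d j‖ :=
    PiLp.norm_apply_le _ t
  refine le_trans ?_ h1
  have h2 : (zpos K d i - zpos K d j) t = d * ((((i t : ℕ) : ℤ) - ((j t : ℕ) : ℤ) : ℤ) : ℝ) := by
    simp only [zpos, PiLp.sub_apply]
    push_cast
    ring
  rw [h2, Real.norm_eq_abs, abs_mul, abs_of_pos hd]
  have h3 : (1 : ℝ) ≤ |((((i t : ℕ) : ℤ) - ((j t : ℕ) : ℤ) : ℤ) : ℝ)| := by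
    rw [← Int.cast_abs]
    have : (((i t : ℕ) : ℤ) - ((j t : ℕ) : ℤ) : ℤ) ≠ 0 := by
      intro h0
      apply ht
      apply Fin.ext
      omega
    exact_mod_cast Int.one_le_abs this
  nlinarith

private lemma sum_aM (K q Z Ms : ℕ) :
    ∑ k, aM K q Z Ms k = (2 * K + 1) ^ 3 * Z + q ^ 3 * Ms := by
  rw [Fintype.sum_sum_type]
  simp [aM]

end Step

open Step in
theorem p_step (hen : S_en) (_hen2 : S_en2) (hker : S_ker) (hgeom : S_geom) (hgrid : S_grid)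
    (hlow : S_arrayLow) (hup : S_arrayUp) (hcomp : S_comp) : S_step := by
  intro hD
  obtain ⟨C, hC, hKer⟩ := hker
  obtain ⟨A1, hA1, hlow⟩ := hlow C hC hKer
  obtain ⟨A2, hA2, hup⟩ := hup
  obtain ⟨A3, c3, hA3, hc3, hgeom⟩ := hgeom
  obtain ⟨A4, hA4, hgrid⟩ := hgrid
  set A : ℝ := A1 + A2 + A3 with hAdef
  have hA1' : A1 ≤ A := by linarith
  have hA2' : A2 ≤ A := by linarith
  have hA3' : A3 ≤ A := by linarith
  have hA : 1 ≤ A := by linarith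
  clear_value A
  refine ⟨A, min c3 1, hA, lt_min hc3 one_pos, min_le_right _ _, ?_⟩
  set c : ℝ := min c3 1 with hcdef
  have hc0 : 0 < c := lt_min hc3 one_pos
  have hc1 : c ≤ 1 := min_le_right _ _
  have hcc3 : c ≤ c3 := min_le_left _ _
  clear_value c
  intro a γ δ v e0 s Ms Ns Ys ha hγ hγ4 hδ hδ8 hv he0 hs hYs hMs hsl he0' hW
  set l : ℝ := |(Ns : ℝ) - Ms| with hldef
  have hsl' : l = s * ((Ns : ℝ) - Ms) := by
    rcases hs with rfl | rfl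
    · rw [hldef, abs_of_pos (by linarith)]; ring
    · rw [hldef, abs_of_neg (by linarith)]; ring
  have hl : 0 < l := by rw [hsl']; exact hsl
  have hl1 : 1 ≤ l := by
    rw [hldef]
    have h1 : ((Ns : ℤ) - (Ms : ℤ)) ≠ 0 := by
      intro h0
      have h2 : (Ns : ℝ) - Ms = 0 := by exact_mod_cast h0
      rw [h2] at hsl; simp at hsl
    have h2 : (1 : ℤ) ≤ |((Ns : ℤ) - (Ms : ℤ))| := Int.one_le_abs h1
    exact_mod_cast h2
  have hss : s * s = 1 := by rcases hs with rfl | rfl <;> norm_num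
  have hsabs : |s| = 1 := by rcases hs with rfl | rfl <;> norm_num
  clear_value l
  -- v ≤ 1/8
  have hv8 : v ≤ 1 / 8 := by
    obtain ⟨lam, h1, h2, -⟩ := hW (s * (A * v))
      (by
        have : s * (s * (A * v)) = A * v := by rw [← mul_assoc, hss, one_mul]
        have h1 : c * v ≤ 1 * v := mul_le_mul_of_nonneg_right hc1 hv.le
        have h2 : 1 * v ≤ A * v := mul_le_mul_of_nonneg_right hA hv.le
        rw [this]; linarith)
      (by rw [← mul_assoc, hss, one_mul])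
    have h3 : 0 ≤ a := ha.1
    have h4 : 1 * v ≤ A * v := mul_le_mul_of_nonneg_right hA hv.le
    linarith
  -- parameters
  set κ : ℝ := δ * c * v / (64 * A * l) with hκdef
  have hκ0 : 0 < κ := by rw [hκdef]; positivity
  have hκδ : 2 * κ ≤ δ := by
    have h1 : κ ≤ δ / 2 := by
      rw [hκdef, div_le_div_iff₀ (by positivity) (by norm_num)]
      have h2 : c * v ≤ 1 := by
        have : c * v ≤ 1 * v := mul_le_mul_of_nonneg_right hc1 hv.le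
        linarith
      have h3 : 1 ≤ A * l := by
        have : 1 * l ≤ A * l := mul_le_mul_of_nonneg_right hA hl.le
        linarith
      have h4 := mul_le_mul_of_nonneg_left h2 hδ.le
      have h5 := mul_le_mul_of_nonneg_left h3 hδ.le
      linarith
    linarith
  set ε : ℝ := c ^ 2 * δ / (432 * 64 * 32 * A ^ 2) with hεdef
  have hε0 : 0 < ε := by rw [hεdef]; positivity
  have hε1 : ε ≤ 1 := by
    rw [hεdef, div_le_one (by positivity)]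
    have h1 : c ^ 2 ≤ 1 := pow_le_one₀ hc0.le hc1
    have h2 : 1 ≤ A ^ 2 := one_le_pow₀ hA
    have h3 := mul_le_mul_of_nonneg_right h1 hδ.le
    linarith
  have hsqrt : Real.sqrt (ε ^ 2) = ε := Real.sqrt_sq hε0.le
  obtain ⟨Z, B, P, CB, hGB, hMB⟩ := hcomp hD a γ (ε ^ 2) ha hγ (by positivity)
    (pow_le_one₀ hε0.le hε1)
  have hP0 : P ≠ 0 := hGB.2.2.2.2.1
  have hBinj : Function.Injective B := hGB.2.2.2.2.2.1
  set p : ℝ := ‖P‖ with hpdef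
  have hp : 0 < p := norm_pos_iff.mpr hP0
  set η' : ℝ := l * c * v / 64 with hη'def
  have hη'0 : 0 < η' := by rw [hη'def]; positivity
  set γ' : ℝ := min (l * c * v / 128) ((l * c * v / 32) * κ * p ^ 2 / (432 * v ^ 2)) with hγ'def
  have hγ'0 : 0 < γ' := by rw [hγ'def]; exact lt_min (by positivity) (by positivity)
  have hγ'1 : γ' ≤ l * c * v / 128 := min_le_left _ _
  have hγ'2 : γ' ≤ (l * c * v / 32) * κ * p ^ 2 / (432 * v ^ 2) := min_le_right _ _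
  obtain ⟨d01, hd01, hlow⟩ := hlow Z B P (ε ^ 2) CB a γ Ms Ys e0 v γ γ' s hGB ha hMB hγ hYs he0 hv
    hγ hγ'0 hs
  obtain ⟨d02, hd02, hup⟩ := hup Z B P (ε ^ 2) CB a γ Ms Ns Ys v η' γ' s hGB ha hMB hγ hγ4 hv hη'0
    hγ'0 hs
  -- bound for the nuclei
  obtain ⟨R, hRB, hRY⟩ : ∃ R : ℝ, (∀ m, ‖B m‖ ≤ R) ∧ (∀ m, ‖Ys m‖ ≤ R) := by
    refine ⟨∑ m, ‖B m‖ + ∑ m, ‖Ys m‖, fun m => ?_, fun m => ?_⟩
    · have h1 : ‖B m‖ ≤ ∑ m, ‖B m‖ :=
        Finset.single_le_sum (f := fun m => ‖B m‖) (fun i _ => norm_nonneg _) (Finset.mem_univ m)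
      have h2 : 0 ≤ ∑ m, ‖Ys m‖ := Finset.sum_nonneg fun i _ => norm_nonneg _
      linarith
    · have h1 : ‖Ys m‖ ≤ ∑ m, ‖Ys m‖ :=
        Finset.single_le_sum (f := fun m => ‖Ys m‖) (fun i _ => norm_nonneg _) (Finset.mem_univ m)
      have h2 : 0 ≤ ∑ m, ‖B m‖ := Finset.sum_nonneg fun i _ => norm_nonneg _
      linarith
  obtain ⟨d, h, K, q, hd1, hd, hK, hq, hpK, hpK2, hdh, hqh, hhq, hqu, hql⟩ :=
    params (d1 := max (max d01 d02) (max (32 * p) (2 * R + 1))) hp hδ hv hκ0 hκδ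
  have e1 : d01 ≤ d := le_trans (le_trans (le_max_left _ _) (le_max_left _ _)) hd1
  have e2 : d02 ≤ d := le_trans (le_trans (le_max_right _ _) (le_max_left _ _)) hd1
  have e3 : 32 * p ≤ d := le_trans (le_trans (le_max_left _ _) (le_max_right _ _)) hd1
  have e4 : 2 * R + 1 ≤ d := le_trans (le_trans (le_max_right _ _) (le_max_right _ _)) hd1
  have hd0 : 0 < d := by linarith
  have hh0 : 0 < h := by linarith
  have hKr : (1 : ℝ) ≤ K := by exact_mod_cast hK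
  have hqr : (1 : ℝ) ≤ q := by exact_mod_cast hq
  have h2hq : 2 * h * q ≤ d * K / 8 := by
    rw [hhq]
    have h1 : 0 ≤ d * K := by positivity
    have h2 := mul_le_mul_of_nonneg_right hδ8 h1
    linarith
  set X0 : E3 := (s * (3 * d * K) / ‖P‖) • P with hX0
  obtain ⟨-, -, hg3⟩ := hgeom K d P hK hd0 hP0 (by linarith)
  have hg := hg3 s hs
  have hgr := hgrid q h X0 hq hh0
  -- distance of the extra sites
  have hX0X0 : ‖X0 - X0‖ ≤ d * K / 4 := by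
    rw [sub_self, norm_zero]; positivity
  have hnear : ∀ x : E3, ‖x - X0‖ ≤ 2 * h * q → ‖x - X0‖ ≤ d * K / 4 := by
    intro x hx
    have : 0 ≤ d * K := by positivity
    linarith
  -- potential at X0
  have hd2 : 0 < d ^ 2 := by positivity
  have hPKv : p * K / d ^ 2 ≤ v := by
    rw [div_le_iff₀ hd2]; exact hpK
  have hPKv2 : v / 2 ≤ p * K / d ^ 2 := by
    rw [le_div_iff₀ hd2]; linarith
  have hlowpot : ∀ x : E3, ‖x - X0‖ ≤ 2 * h * q → c * v / 2 ≤ s * latPot K d P none x := by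
    intro x hx
    have h1 := (hg x X0 (hnear x hx) hX0X0).1
    calc c * v / 2 = c * (v / 2) := by ring
      _ ≤ c3 * (p * K / d ^ 2) := by gcongr
      _ = c3 * ‖P‖ * K / d ^ 2 := by rw [hpdef]; ring
      _ ≤ _ := h1
  have hX0in : ‖X0 - X0‖ ≤ 2 * h * q := by
    rw [sub_self, norm_zero]; positivity
  have hu1 := hlowpot X0 hX0in
  have hu2 : s * latPot K d P none X0 ≤ A * v := by
    have h1 := (hg X0 X0 hX0X0 hX0X0).2.1
    calc s * latPot K d P none X0 ≤ A3 * ‖P‖ * K / d ^ 2 := h1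
      _ = A3 * (p * K / d ^ 2) := by rw [hpdef]; ring
      _ ≤ A * v := by gcongr
  obtain ⟨lam, hlam1, hlam2, hlam3⟩ := hW (latPot K d P none X0) hu1 hu2
  have hslope : ∀ x : E3, ‖x - X0‖ ≤ 2 * h * q → ∀ N : ℕ,
      En Ms Ys - e0 ≤ En N Ys + (lam - latPot K d P none x) * ((N : ℝ) - Ms) := by
    intro x hx N
    apply hlam3
    have h1 := (hg x X0 (hnear x hx) hX0X0).2.2.1
    calc |latPot K d P none x - latPot K d P none X0| ≤ A3 * ‖P‖ / d ^ 3 * ‖x - X0‖ := h1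
      _ ≤ A3 * ‖P‖ / d ^ 3 * (2 * h * q) := by gcongr
      _ = A3 * δ * (p * K / d ^ 2) := by
          rw [hhq, ← hpdef]; field_simp
      _ ≤ A * δ * v := by gcongr
  have hA1v : A1 * v ≤ A * v := mul_le_mul_of_nonneg_right hA1' hv.le
  have L := hlow d h K q lam e1 hK hq hpK hdh h2hq (by linarith) (by linarith) hslope
  have U := hup d h K q e2 hK hq hpK hdh hqh h2hq
  rw [hsqrt] at L U
  -- the sum of the potentials
  have hsum : (q : ℝ) ^ 3 * (l * (c * v / 2)) ≤ ((Ns : ℝ) - Ms) *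
      (∑ b, latPot K d P none (apos q h X0 b)) := by
    have h1 : ((Ns : ℝ) - Ms) = l * s := by
      rw [hsl']
      have : s * ((Ns : ℝ) - Ms) * s = (s * s) * ((Ns : ℝ) - Ms) := by ring
      rw [this, hss, one_mul]
    have h2 : ((Ns : ℝ) - Ms) * (∑ b, latPot K d P none (apos q h X0 b))
        = ∑ b, l * (s * latPot K d P none (apos q h X0 b)) := by
      rw [h1, Finset.mul_sum]
      refine Finset.sum_congr rfl fun b _ => by ring
    rw [h2]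
    have h3 : ∀ b ∈ (Finset.univ : Finset (Fin 3 → Fin q)),
        l * (c * v / 2) ≤ l * (s * latPot K d P none (apos q h X0 b)) := by
      intro b _
      have := hlowpot (apos q h X0 b) (hgr.2.1 b)
      gcongr
    have h4 := Finset.card_nsmul_le_sum _ _ _ h3
    have h5 : (Finset.univ : Finset (Fin 3 → Fin q)).card = q ^ 3 := by simp
    rw [h5, nsmul_eq_mul] at h4
    push_cast at h4
    exact h4
  have E := errors (A := A) (c := c) (v := v) (l := l) (δ := δ) (κ := κ) (p := p) (d := d)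
    (γ' := γ') (ε := ε) (h := h) (e0 := e0) (K := K) (q := q) hA hc0 hc1 hv hl hδ (by linarith) hp hd
    hκdef hεdef hγ'0 hγ'1 hγ'2 he0' hK hq hpK hhq hqu hql hh0
  -- injectivity
  have hinj : Function.Injective (cl (az K q d h X0) (aY K q B Ys)) := by
    have hsep : ∀ k k' : Sites K q, k ≠ k' → d ≤ ‖az K q d h X0 k - az K q d h X0 k'‖ := by
      have hcross : ∀ (i : Fin 3 → Fin (2 * K + 1)) (b : Fin 3 → Fin q),
          d ≤ ‖apos q h X0 b - zpos K d i‖ := by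
        intro i b
        have h1 := (hg (apos q h X0 b) X0 (hnear _ (hgr.2.1 b)) hX0X0).2.2.2 i
        exact le_trans (le_mul_of_one_le_right hd0.le hKr) h1
      rintro (i | b) (i' | b') hne
      · exact zpos_dist K hd0 i i' (fun h0 => hne (by rw [h0]))
      · have := hcross i b'
        simp only [az, Sum.elim_inl, Sum.elim_inr]
        rwa [norm_sub_rev]
      · have := hcross i' b
        simpa only [az, Sum.elim_inl, Sum.elim_inr] using this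
      · have := hgr.1 b b' (fun h0 => hne (by rw [h0]))
        simp only [az, Sum.elim_inr]
        linarith
    have hbd : ∀ (k : Sites K q) (m : Fin (aM K q Z Ms k)), ‖aY K q B Ys k m‖ ≤ R := by
      rintro (i | b) m
      · exact hRB m
      · exact hRY m
    rintro ⟨k, m⟩ ⟨k', m'⟩ heq
    have heq' : az K q d h X0 k + aY K q B Ys k m = az K q d h X0 k' + aY K q B Ys k' m' := heq
    by_cases hkk : k = k'
    · subst hkk
      have h1 := add_left_cancel heq'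
      rcases k with i | b
      · have : m = m' := hBinj h1
        rw [this]
      · have : m = m' := hYs h1
        rw [this]
    · exfalso
      have h1 := hsep k k' hkk
      have h2 : az K q d h X0 k - az K q d h X0 k' = aY K q B Ys k' m' - aY K q B Ys k m := by
        rw [sub_eq_sub_iff_add_eq_add, heq', add_comm]
      rw [h2] at h1
      have h3 := norm_sub_le (aY K q B Ys k' m') (aY K q B Ys k m)
      have h4 := hbd k m
      have h5 := hbd k' m'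
      linarith
  -- reindexing
  have hcard : Fintype.card (Σ k : Sites K q, Fin (aM K q Z Ms k)) = ∑ k, aM K q Z Ms k := by
    simp
  let e : Fin (∑ k, aM K q Z Ms k) ≃ (Σ k : Sites K q, Fin (aM K q Z Ms k)) :=
    (Fintype.equivFinOfCardEq hcard).symm
  refine ⟨∑ k, aM K q Z Ms k, ∑ k, aM K q Z Ns k, q ^ 3,
    fun m => cl (az K q d h X0) (aY K q B Ys) (e m), ?_, Nat.one_le_pow _ _ hq,
    hinj.comp e.injective, ?_, ?_⟩
  · rw [sum_aM]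
    have h1 : 1 ≤ q ^ 3 * Ms := Nat.one_le_iff_ne_zero.mpr
      (Nat.mul_ne_zero (pow_ne_zero _ (by omega)) (by omega))
    omega
  · rw [sum_aM, sum_aM]
    push_cast
    ring
  · have hr := hen.2.2.2.1 _ _ e (cl (az K q d h X0) (aY K q B Ys))
    rw [hr, hr]
    push_cast
    have t1 : A1 * ε * ‖P‖ ^ 2 * (2 * K + 1) ^ 3 / d ^ 3 ≤ A * ε * p ^ 2 * (2 * K + 1) ^ 3 / d ^ 3 := by
      rw [← hpdef]; gcongr
    have t2 : A2 * ε * ‖P‖ ^ 2 * (2 * K + 1) ^ 3 / d ^ 3 ≤ A * ε * p ^ 2 * (2 * K + 1) ^ 3 / d ^ 3 := by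
      rw [← hpdef]; gcongr
    have t3 : A2 * ((Ns : ℝ) - Ms) ^ 2 * q ^ 5 / h ≤ A * l ^ 2 * q ^ 5 / h := by
      have h1 : ((Ns : ℝ) - Ms) ^ 2 = l ^ 2 := by
        rw [hsl', mul_pow, pow_two s, hss, one_mul]
      rw [h1]; gcongr
    have t4 : A2 * |(Ns : ℝ) - Ms| * ε * v * q ^ 3 ≤ A * l * ε * v * q ^ 3 := by
      rw [← hldef]; gcongr
    have t5 : (q : ℝ) ^ 3 * (l * (c * v / 2)) = (q : ℝ) ^ 3 * (l * c * v / 4) + (q : ℝ) ^ 3 * (l * c * v / 4) := by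
      ring
    rw [hη'def] at U
    linarith

end MolDis
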