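import Pool.Agent.Lib.MP_59f35a_mp.Defs

/-!
# MP_59f35a_mp : statements, batch 1 (generic layer)

Every statement is a `Prop`-definition `S_...`.  A piece proves `theorem p_... : S_...`,
with the statements it uses as hypotheses, e.g. `theorem p_master (h1 : S_ims) (h2 : S_slice) : S_master`.
All types are in `Type` (universe 0).
-/

noncomputable section

open MeasureTheory

namespace MolDis

/-- admissible potentials: measurable, and on every box bounded by a constant times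
`1 + Σ 1/|x_j - a| + Σ 1/|x_j - x_k|` -/
def AdmW {ι : Type} [Fintype ι] (W : (ι → Om) → ℝ) : Prop :=
  Measurable W ∧ ∀ R : ℝ, ∃ (C : ℝ) (S : Finset E3), ∀ X : ι → Om, (∀ j, ‖(X j).1‖ ≤ R) →
    |W X| ≤ C * (1 + ∑ j, ∑ a ∈ S, cou (X j).1 a + ∑ j, ∑ k, cou (X j).1 (X k).1)

/-- bounded on boxes and measurable -/
def BddW {ι : Type} [Fintype ι] (W : (ι → Om) → ℝ) : Prop :=
  Measurable W ∧ ∀ R : ℝ, ∃ C : ℝ, ∀ X : ι → Om, (∀ j, ‖(X j).1‖ ≤ R) → |W X| ≤ C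

/-- generic configurations -/
def Gen {ι : Type} [Fintype ι] (F : Finset E3) (X : ι → Om) : Prop :=
  Function.Injective (fun j => (X j).1) ∧ ∀ j, (X j).1 ∉ F

/-- **A1 (LC functions).** Proof: elementary.  Measurability of `ψ`: for each of the finitely many
spin configurations the function of the positions is Lipschitz.  `gradSq`:
`measurable_fderiv_with_param` (the map `(X,y) ↦ ψ (put X j y)` is continuous for fixed spins);
`gradSq ≤ K²`; it vanishes outside the box of radius `R+1` (there `ψ (put X j y)` is `0` for `y`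
near `x_j`, or for all `y` if another electron is outside). -/
def S_lc : Prop :=
  ∀ (ι : Type) [Fintype ι] [DecidableEq ι] (ψ : (ι → Om) → ℝ), LC ψ →
    Measurable ψ ∧ (∃ B : ℝ, ∀ X, |ψ X| ≤ B) ∧
    (∀ s : ι → Bool, Continuous (fun x : ι → E3 => ψ (fun j => (x j, s j)))) ∧
    (∀ j, Measurable (gradSq ψ j)) ∧ (∀ j, Integrable (gradSq ψ j) (mu ι)) ∧
    (∀ W : (ι → Om) → ℝ, AdmW W → Integrable (fun X => W X * ψ X ^ 2) (mu ι)) ∧
    Integrable (fun X => ψ X ^ 2) (mu ι)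

/-- **A1b.** closure properties of `LC`. -/
def S_lc_closure : Prop :=
  ∀ (ι : Type) [Fintype ι] [DecidableEq ι] (ψ φ : (ι → Om) → ℝ), LC ψ → LC φ →
    (LC (fun X => ψ X + φ X)) ∧ (∀ c : ℝ, LC (fun X => c * ψ X)) ∧
    (∀ f : (ι → Om) → ℝ, (∃ B : ℝ, ∀ X, |f X| ≤ B) →
      (∃ K : ℝ, ∀ X j y, |f (put X j y) - f X| ≤ K * ‖y - (X j).1‖) →
      LC (fun X => f X * ψ X))

/-- **A1c.** closure properties of `AdmW`, and the Coulomb potentials. -/
def S_adm : Prop :=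
  ∀ (ι : Type) [Fintype ι] [DecidableEq ι],
    (∀ W : (ι → Om) → ℝ, BddW W → AdmW W) ∧
    (∀ W W' : (ι → Om) → ℝ, AdmW W → AdmW W' → AdmW (fun X => W X + W' X)) ∧
    (∀ (c : ℝ) (W : (ι → Om) → ℝ), AdmW W → AdmW (fun X => c * W X)) ∧
    (∀ B W : (ι → Om) → ℝ, BddW B → AdmW W → AdmW (fun X => B X * W X)) ∧
    (∀ j (a : E3), AdmW (fun X : ι → Om => cou (X j).1 a)) ∧
    (∀ j k, AdmW (fun X : ι → Om => cou (X j).1 (X k).1)) ∧
    (∀ (κ : Type) [Fintype κ] (Y : κ → E3), AdmW (attr (ι := ι) Y) ∧ AdmW (repEE (ι := ι)) ∧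
      AdmW (pot (ι := ι) Y)) ∧
    (∀ F : Finset E3, ∀ᵐ X ∂(mu ι), Gen F X)

/-- coordinates in `p` from `Z`, the others from `X` -/
def glue {ι : Type} (p : ι → Prop) [DecidablePred p] (Z : {j // p j} → Om) (X : ι → Om) :
    ι → Om := fun j => if h : p j then Z ⟨j, h⟩ else X j

/-- **A3 (slices).**  Let `ψ` be `LC`, antisymmetric under the permutations of the electrons in
`p`, vanishing outside `T`.  If for every `X0 ∈ T` and every wave function `φ` of the electrons in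
`p`, with `glue p Z X0 ∈ T` on the support of `φ`, one has
`0 ≤ kin φ + ⟨W(·, X0)⟩_φ`, then `0 ≤ Σ_{j ∈ p} kin1 j ψ + ⟨W⟩_ψ`.
Proof: Fubini `mu ι ≃ mu {p} × mu {¬p}` (`MeasurableEquiv.piEquivPiSubtypeProd`,
`measurePreserving_piEquivPiSubtypeProd`); for fixed outside coordinates the slice of `ψ` is either
identically `0` or some `X0 ∈ T` has the same outside coordinates, and then the slice is such a `φ`;
`put` and `fderiv` of the slice are those of `ψ`. -/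
def S_slice : Prop :=
  ∀ (ι : Type) [Fintype ι] [DecidableEq ι] (p : ι → Prop) [DecidablePred p]
    (ψ : (ι → Om) → ℝ) (T : Set (ι → Om)) (W : (ι → Om) → ℝ),
    LC ψ → AdmW W →
    (∀ σ : Equiv.Perm ι, (∀ j, ¬ p j → σ j = j) → ∀ X, ψ (X ∘ σ) =
      ((Equiv.Perm.sign σ : ℤ) : ℝ) * ψ X) →
    (∀ X, ψ X ≠ 0 → X ∈ T) →
    (∀ X0 ∈ T, ∀ φ : ({j // p j} → Om) → ℝ, WF φ → (∀ Z, φ Z ≠ 0 → glue p Z X0 ∈ T) →
      0 ≤ kin φ + expv (fun Z => W (glue p Z X0)) φ) →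
    0 ≤ (∑ j ∈ Finset.univ.filter p, kin1 j ψ) + expv W ψ

/-- partition of unity (squares) on `E3` -/
structure PU {K : Type} [Fintype K] (θ : K → E3 → ℝ) : Prop where
  lip : ∃ L : ℝ, ∀ k x y, |θ k x - θ k y| ≤ L * ‖x - y‖
  sq : ∀ x, ∑ k, θ k x ^ 2 = 1

/-- the localisation error function -/
def puG {K : Type} [Fintype K] (θ : K → E3 → ℝ) (x : E3) : ℝ := ∑ k, ‖fderiv ℝ (θ k) x‖ ^ 2

/-- the part of `ψ` in the sector `α` -/
def sector {ι K : Type} [Fintype ι] (θ : K → E3 → ℝ) (α : ι → K) (ψ : (ι → Om) → ℝ) :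
    (ι → Om) → ℝ := fun X => (∏ j, θ (α j) (X j).1) * ψ X

/-- **A4 (IMS).** Proof: `Σ_k |∇(θ_k u)|² = |∇u|² + u² Σ_k |∇θ_k|²` a.e. (Rademacher,
`LipschitzWith.ae_differentiableAt`, for the slices; `Σ θ_k ∇θ_k = 0` because `Σ θ_k² = 1`), summed
over the assignments of the other electrons with `Σ_α Π θ² = 1`. -/
def S_ims : Prop :=
  ∀ (ι K : Type) [Fintype ι] [DecidableEq ι] [Fintype K] [DecidableEq K]
    (θ : K → E3 → ℝ) (ψ : (ι → Om) → ℝ), PU θ → LC ψ →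
    (∀ α : ι → K, LC (sector θ α ψ)) ∧
    (nsq ψ = ∑ α : ι → K, nsq (sector θ α ψ)) ∧
    (∀ W : (ι → Om) → ℝ, AdmW W → expv W ψ = ∑ α : ι → K, expv W (sector θ α ψ)) ∧
    (kin ψ = ∑ α : ι → K, kin (sector θ α ψ) - ∑ j, expv (fun X => puG θ (X j).1) ψ) ∧
    (∃ C : ℝ, ∀ x, |puG θ x| ≤ C) ∧ Measurable (puG θ)

/-- **A5 (master sector inequality).**
`Σ_α e(α) ‖ψ_α‖² ≤ kin ψ + ⟨W⟩_ψ`, if on the sector `α` the potential minus the localisation error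
is at least `e(α) + Σ_k w(α,k)(X_k)` where `X_k` are the electrons assigned to `k`, and
`0 ≤ kin φ + ⟨w(α,k)⟩_φ` for every wave function of the electrons assigned to `k` which lives in
`{θ_k ≠ 0} ∩ T`.
Proof: `S_ims`, then for each `α` and each `k` `S_slice` with `p j := α j = k`; the sector function
is antisymmetric in the electrons with `α j = k`; sum over `k` (every electron is in exactly one
`p`); `S_adm` (generic configurations) for the a.e. inequality. -/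
def S_master : Prop :=
  ∀ (ι K : Type) [Fintype ι] [DecidableEq ι] [Fintype K] [DecidableEq K]
    (θ : K → E3 → ℝ) (ψ : (ι → Om) → ℝ) (T : Set E3) (F : Finset E3)
    (W : (ι → Om) → ℝ) (e : (ι → K) → ℝ)
    (w : ∀ (α : ι → K) (k : K), ({j // α j = k} → Om) → ℝ),
    PU θ → WF ψ → AdmW W → (∀ α k, AdmW (w α k)) →
    (∀ X, ψ X ≠ 0 → ∀ j, (X j).1 ∈ T) →
    (∀ (α : ι → K) (X : ι → Om), Gen F X → (∀ j, (X j).1 ∈ T) →
      (∀ j, θ (α j) (X j).1 ≠ 0) →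
      e α + ∑ k, w α k (fun j => X j.1) ≤ W X - ∑ j, puG θ (X j).1) →
    (∀ (α : ι → K) (k : K) (φ : ({j // α j = k} → Om) → ℝ), WF φ →
      (∀ Z, φ Z ≠ 0 → ∀ j, (Z j).1 ∈ T ∧ θ k (Z j).1 ≠ 0) →
      0 ≤ kin φ + expv (w α k) φ) →
    ∑ α : ι → K, e α * nsq (sector θ α ψ) ≤ kin ψ + expv W ψ

/-- **A6 (hydrogen inequality).** `Z ⟨1/|x_j - a|⟩ ≤ ‖∇_jψ‖² + Z²/4 ‖ψ‖²`.
Proof: for `u` Lipschitz with compact support on `E3` and a Lipschitz bounded field `f`,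
`0 ≤ ∫|∇u - f u|² = ∫|∇u|² + ∫ (div f + |f|²) u²` (integration by parts:
`LipschitzWith.integral_lineDeriv_mul_eq` or C¹ version); take
`f = -(Z/2)(x-a)/√(|x-a|²+η²)`, `div f ≤ -(Z/2)·2/√(|x-a|²+η²)`; hence
`∫|∇u|² + Z²/4∫u² ≥ Z ∫ u²/√(|x-a|²+η²)`, monotone convergence `η → 0`; Fubini over the other
electrons. -/
def S_hyd : Prop :=
  ∀ (ι : Type) [Fintype ι] [DecidableEq ι] (ψ : (ι → Om) → ℝ) (j : ι) (a : E3) (Z : ℝ),
    LC ψ → 0 ≤ Z →
    Z * expv (fun X => cou (X j).1 a) ψ ≤ kin1 j ψ + Z ^ 2 / 4 * nsq ψ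

/-- **A2 (energies, elementary facts).** `(a)` the normalised wave functions give a nonempty set of
energies, bounded below (`S_hyd`), so `En` is its infimum; `(b)` `Qf Y ψ ≥ En · ‖ψ‖²` for wave
functions of any electron labels (reindexing `ι ≃ Fin (card ι)`, scaling); `(c)` near minimisers;
`(d)` reindexing of the nuclei; `(e)` translations; `(f)` no electrons. -/
def S_en : Prop :=
  (∀ (κ : Type) [Fintype κ] (Y : κ → E3) (n : ℕ),
    (∃ ψ : (Fin n → Om) → ℝ, WF ψ ∧ nsq ψ = 1) ∧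
    (∃ C : ℝ, ∀ ψ : (Fin n → Om) → ℝ, WF ψ → nsq ψ = 1 → C ≤ Qf Y ψ)) ∧
  (∀ (ι κ : Type) [Fintype ι] [DecidableEq ι] [Fintype κ] (Y : κ → E3) (ψ : (ι → Om) → ℝ),
    WF ψ → En (Fintype.card ι) Y * nsq ψ ≤ Qf Y ψ) ∧
  (∀ (κ : Type) [Fintype κ] (Y : κ → E3) (n : ℕ) (ε : ℝ), 0 < ε →
    ∃ ψ : (Fin n → Om) → ℝ, WF ψ ∧ nsq ψ = 1 ∧ Qf Y ψ ≤ En n Y + ε) ∧
  (∀ (κ κ' : Type) [Fintype κ] [Fintype κ'] (e : κ ≃ κ') (Y : κ' → E3) (n : ℕ),
    En n (fun k => Y (e k)) = En n Y) ∧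
  (∀ (κ : Type) [Fintype κ] (Y : κ → E3) (n : ℕ) (a : E3),
    En n (fun k => a + Y k) = En n Y) ∧
  (∀ (κ : Type) [Fintype κ] (Y : κ → E3), En 0 Y = repNN Y)

/-- **A7 (partial antisymmetry suffices).**  Electrons labelled `c j = k` live in `S k`, pairwise
disjoint; `F` antisymmetric under the permutations preserving `c`.  Then the antisymmetrised
function has the same Rayleigh quotient.
Proof: `Ψ X = Σ_σ sign σ · F (X ∘ σ)`.  For `σ, τ` either `F(X∘σ) F(X∘τ) = 0` for all `X` or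
`τ = σ h`-like with `h` preserving `c` and the two terms agree; hence
`Ψ² = |H| Σ_σ F(X∘σ)²` and the same for the gradients; `mu` is invariant under `X ↦ X ∘ σ` and the
potential is symmetric; so `Qf Y Ψ = C Qf Y F`, `nsq Ψ = C nsq F`, `C = |H| · n!`. -/
def S_pas : Prop :=
  ∀ (ι K κ : Type) [Fintype ι] [DecidableEq ι] [Fintype K] [DecidableEq K] [Fintype κ]
    (Y : κ → E3) (c : ι → K) (S : K → Set E3) (F : (ι → Om) → ℝ),
    (∀ k k', k ≠ k' → Disjoint (S k) (S k')) → LC F →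
    (∀ X, F X ≠ 0 → ∀ j, (X j).1 ∈ S (c j)) →
    (∀ σ : Equiv.Perm ι, (∀ j, c (σ j) = c j) → ∀ X, F (X ∘ σ) =
      ((Equiv.Perm.sign σ : ℤ) : ℝ) * F X) →
    En (Fintype.card ι) Y * nsq F ≤ Qf Y F

/-- expected repulsion between the electrons of `φ` and those of `φ'` (independent) -/
def crossEE {ι ι' : Type} [Fintype ι] [Fintype ι'] (φ : (ι → Om) → ℝ) (φ' : (ι' → Om) → ℝ) : ℝ :=
  expv (fun X => expv (fun X' => ∑ j, ∑ k, cou (X j).1 (X' k).1) φ') φ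

/-- **A7b (product trial functions).**  Cells `k`, normalised wave functions `φ k` of `Fin (n k)`
electrons supported in pairwise disjoint sets; any protons `Y`.
Proof: `S_pas` with `ι = Σ k, Fin (n k)`, `F X = Π_k φ_k (X ⟨k,·⟩)`; Fubini. -/
def S_trial : Prop :=
  ∀ (K κ : Type) [Fintype K] [DecidableEq K] [Fintype κ] (Y : κ → E3) (n : K → ℕ)
    (S : K → Set E3) (φ : ∀ k, (Fin (n k) → Om) → ℝ),
    (∀ k k', k ≠ k' → Disjoint (S k) (S k')) →
    (∀ k, WF (φ k) ∧ nsq (φ k) = 1 ∧ ∀ X, φ k X ≠ 0 → ∀ j, (X j).1 ∈ S k) →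
    En (∑ k, n k) Y ≤ (∑ k, (kin (φ k) - expv (attr Y) (φ k) + expv repEE (φ k)))
      + (1 / 2) * (∑ k, ∑ k', if k = k' then 0 else crossEE (φ k) (φ k')) + repNN Y

/-- `1` for `|x| ≤ r/2`, `0` for `|x| ≥ r` -/
def pIn (r : ℝ) (x : E3) : ℝ :=
  Real.cos (Real.pi / 2 * max 0 (min 1 (2 * ‖x‖ / r - 1)))

/-- `pIn² + pOut² = 1` -/
def pOut (r : ℝ) (x : E3) : ℝ :=
  Real.sin (Real.pi / 2 * max 0 (min 1 (2 * ‖x‖ / r - 1)))

/-- the partition of unity of a family of disjoint balls of radius `r` and the vacuum `none` -/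
def cellPU {K : Type} [Fintype K] (r : ℝ) (z : K → E3) : Option K → E3 → ℝ
  | some k, x => pIn r (x - z k)
  | none, x => ∏ k, pOut r (x - z k)

/-- **A8 (cut-offs).** -/
def S_cut : Prop :=
  ∀ (K : Type) [Fintype K] [DecidableEq K] (r : ℝ) (z : K → E3), 0 < r →
    (∀ k k', k ≠ k' → 2 * r ≤ ‖z k - z k'‖) →
    PU (cellPU r z) ∧
    (∀ k x, cellPU r z (some k) x ≠ 0 → ‖x - z k‖ < r) ∧
    (∀ x, cellPU r z none x ≠ 0 → ∀ k, r / 2 < ‖x - z k‖) ∧
    (∀ k x, ‖x - z k‖ ≤ r / 2 → cellPU r z (some k) x = 1) ∧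
    (∀ x, puG (cellPU r z) x ≤ 10 / r ^ 2) ∧
    (∀ x, 0 ≤ puG (cellPU r z) x) ∧
    (∀ x, (∀ k, ‖x - z k‖ < r / 2 ∨ r < ‖x - z k‖) → puG (cellPU r z) x = 0)

/-- **A9 (one electron more lowers the energy; one electron on one proton).**
First: near minimiser with `n` electrons, extra electron in a bump of size `t → ∞` around a point at
distance `t²`: `S_trial`.  Second: `≥` is `S_hyd`, `≤`: trial functions
`e^{-|x|/2} pIn r x`, `r → ∞`.  Third: pairs: `Qf Hy ψ = Σ_{j<k} (N-1)⁻¹ (h_j + h_k + (N-1)/r_jk)`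
and `S_slice` on each pair. -/
def S_en2 : Prop :=
  (∀ (κ : Type) [Fintype κ] (Y : κ → E3) (n : ℕ), En (n + 1) Y ≤ En n Y) ∧
  En 1 Hy = -1 / 4 ∧
  (∀ n : ℕ, 2 ≤ n → (n : ℝ) / 2 * En 2 Hy ≤ En n Hy)

end MolDis
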