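import Mathlib
import Pool.Agent.Lib.MP_59f35a_mp.Stmts1

/-!
# MP_59f35a_mp, piece A7b: product trial functions
-/

set_option autoImplicit false
set_option linter.all false

noncomputable section

open MeasureTheory
open scoped ENNReal

namespace MolDis

namespace Trial

instance sf_mu1 : SigmaFinite mu1 := by
  unfold mu1; infer_instance

instance sf_mu (ι : Type) [Fintype ι] : SigmaFinite (mu ι) := by
  unfold mu; infer_instance

/-! ### sign of a permutation of a sigma type which preserves the fibres -/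

lemma sign_sigma {K : Type} [Fintype K] [DecidableEq K] {n : K → ℕ}
    (F : ∀ k, Equiv.Perm (Fin (n k))) :
    Equiv.Perm.sign (Equiv.Perm.sigmaCongrRight F) = ∏ k, Equiv.Perm.sign (F k) := by
  let f : (∀ k, Equiv.Perm (Fin (n k))) →* ℤˣ :=
    Equiv.Perm.sign.comp (Equiv.Perm.sigmaCongrRightHom fun k => Fin (n k))
  let g : (∀ k, Equiv.Perm (Fin (n k))) →* ℤˣ :=
    { toFun := fun F => ∏ k, Equiv.Perm.sign (F k)
      map_one' := by simp
      map_mul' := fun a b => by simp [Finset.prod_mul_distrib] }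
  have h : f = g := by
    apply MonoidHom.pi_ext
    intro k τ
    show Equiv.Perm.sign (Equiv.Perm.sigmaCongrRight
        (Pi.mulSingle k τ : ∀ k, Equiv.Perm (Fin (n k)))) =
      ∏ k', Equiv.Perm.sign ((Pi.mulSingle k τ : ∀ k, Equiv.Perm (Fin (n k))) k')
    have e1 : ∏ k', Equiv.Perm.sign ((Pi.mulSingle k τ : ∀ k, Equiv.Perm (Fin (n k))) k') =
        Equiv.Perm.sign τ := by
      rw [Finset.prod_eq_single k]
      · rw [Pi.mulSingle_eq_same]
      · intro b _ hb
        rw [Pi.mulSingle_eq_of_ne hb, map_one]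
      · intro h; exact absurd (Finset.mem_univ k) h
    rw [e1]
    symm
    apply Equiv.Perm.sign_bij (fun x _ => (⟨k, x⟩ : Σ k, Fin (n k)))
    · intro x hx hx'
      simp [Equiv.Perm.sigmaCongrRight]
    · intro x₁ x₂ _ _ h
      simpa using h
    · rintro ⟨k', y⟩ hy
      by_cases hk : k' = k
      · subst hk
        refine ⟨y, ?_, rfl⟩
        intro h
        apply hy
        simp [Equiv.Perm.sigmaCongrRight, h]
      · exfalso
        apply hy
        simp [Equiv.Perm.sigmaCongrRight, Pi.mulSingle_eq_of_ne hk]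
  exact DFunLike.congr_fun h F

/-- a permutation of a sigma type preserving the fibres -/
lemma exists_fibres {K : Type} [Fintype K] [DecidableEq K] {n : K → ℕ}
    (σ : Equiv.Perm (Σ k, Fin (n k))) (h : ∀ j, (σ j).1 = j.1) :
    ∃ F : ∀ k, Equiv.Perm (Fin (n k)), σ = Equiv.Perm.sigmaCongrRight F := by
  have h1 : ∀ j, (σ.symm j).1 = j.1 := by
    intro j
    have := h (σ.symm j)
    rw [σ.apply_symm_apply] at this
    exact this.symm
  let f : ∀ k, Fin (n k) → Fin (n k) := fun k i => cast (by rw [h ⟨k, i⟩]) (σ ⟨k, i⟩).2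
  let g : ∀ k, Fin (n k) → Fin (n k) := fun k i => cast (by rw [h1 ⟨k, i⟩]) (σ.symm ⟨k, i⟩).2
  have hf : ∀ k i, (⟨k, f k i⟩ : Σ k, Fin (n k)) = σ ⟨k, i⟩ := by
    intro k i
    refine Sigma.ext (h ⟨k, i⟩).symm ?_
    exact cast_heq _ _
  have hg : ∀ k i, (⟨k, g k i⟩ : Σ k, Fin (n k)) = σ.symm ⟨k, i⟩ := by
    intro k i
    refine Sigma.ext (h1 ⟨k, i⟩).symm ?_
    exact cast_heq _ _
  refine ⟨fun k => ⟨f k, g k, fun i => ?_, fun i => ?_⟩, ?_⟩
  · have e1 : (⟨k, g k (f k i)⟩ : Σ k, Fin (n k)) = ⟨k, i⟩ := by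
      rw [hg, hf, σ.symm_apply_apply]
    simpa using e1
  · have e1 : (⟨k, f k (g k i)⟩ : Σ k, Fin (n k)) = ⟨k, i⟩ := by
      rw [hf, hg, σ.apply_symm_apply]
    simpa using e1
  · ext1 ⟨k, i⟩
    exact (hf k i).symm

/-! ### measures -/

section meas
variable {K : Type} [Fintype K] [DecidableEq K] {n : K → ℕ}

/-- currying of configurations -/
def cur (n : K → ℕ) : ((Σ k, Fin (n k)) → Om) ≃ᵐ (∀ k, Fin (n k) → Om) :=
  MeasurableEquiv.piCurry (fun (_ : K) _ => Om)

lemma cur_apply (X : (Σ k, Fin (n k)) → Om) (k : K) (i : Fin (n k)) :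
    cur n X k i = X ⟨k, i⟩ := rfl

lemma cur_symm_apply (Z : ∀ k, Fin (n k) → Om) (j : Σ k, Fin (n k)) :
    (cur n).symm Z j = Z j.1 j.2 := rfl

lemma mp_cur : MeasurePreserving (cur n).symm
    (Measure.pi fun k => mu (Fin (n k))) (mu (Σ k, Fin (n k))) := by
  refine ⟨(cur n).symm.measurable, ?_⟩
  unfold mu
  symm
  apply Measure.pi_eq
  intro s hs
  rw [(cur n).symm.map_apply]
  have e : (cur n).symm ⁻¹' (Set.univ.pi s) =
      Set.univ.pi (fun k => Set.univ.pi (fun i => s ⟨k, i⟩)) := by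
    ext Z
    simp only [Set.mem_preimage, Set.mem_pi, Set.mem_univ, true_implies]
    constructor
    · intro h k i
      exact h ⟨k, i⟩
    · intro h j
      exact h j.1 j.2
  rw [e, Measure.pi_pi]
  simp_rw [Measure.pi_pi]
  rw [Fintype.prod_sigma]

end meas

/-! ### product probability measures with densities -/

section dens
variable {K : Type} [Fintype K] [DecidableEq K] {E : K → Type} [∀ k, MeasurableSpace (E k)]
  {μ : ∀ k, Measure (E k)} [∀ k, SigmaFinite (μ k)] {f : ∀ k, E k → ℝ}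

/-- measure with a real density -/
def wd {α : Type} [MeasurableSpace α] (μ : Measure α) (f : α → ℝ) : Measure α :=
  μ.withDensity (fun x => ENNReal.ofReal (f x))

lemma wd_prob {α : Type} [MeasurableSpace α] {μ : Measure α} {f : α → ℝ}
    (h0 : ∀ x, 0 ≤ f x) (hi : Integrable f μ) (h1 : ∫ x, f x ∂μ = 1) :
    IsProbabilityMeasure (wd μ f) := by
  constructor
  unfold wd
  rw [withDensity_apply _ MeasurableSet.univ, Measure.restrict_univ,
    ← ofReal_integral_eq_lintegral_ofReal hi (Filter.Eventually.of_forall h0), h1,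
    ENNReal.ofReal_one]

lemma wd_integral {α : Type} [MeasurableSpace α] {μ : Measure α} {f : α → ℝ}
    (h0 : ∀ x, 0 ≤ f x) (hm : Measurable f) (g : α → ℝ) :
    ∫ x, g x ∂(wd μ f) = ∫ x, g x * f x ∂μ := by
  unfold wd
  rw [integral_withDensity_eq_integral_toReal_smul (hm.ennreal_ofReal)
    (Filter.Eventually.of_forall fun x => ENNReal.ofReal_lt_top)]
  congr 1
  funext x
  rw [ENNReal.toReal_ofReal (h0 x), smul_eq_mul, mul_comm]

lemma wd_integrable {α : Type} [MeasurableSpace α] {μ : Measure α} {f : α → ℝ}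
    (h0 : ∀ x, 0 ≤ f x) (hm : Measurable f) {g : α → ℝ}
    (hg : Integrable (fun x => g x * f x) μ) : Integrable g (wd μ f) := by
  unfold wd
  rw [integrable_withDensity_iff_integrable_smul' (hm.ennreal_ofReal)
    (Filter.Eventually.of_forall fun x => ENNReal.ofReal_lt_top)]
  refine hg.congr (Filter.Eventually.of_forall fun x => ?_)
  simp only
  rw [ENNReal.toReal_ofReal (h0 x), smul_eq_mul, mul_comm]

/-- the density of the product measure -/
lemma pi_wd (h0 : ∀ k x, 0 ≤ f k x) (hm : ∀ k, Measurable (f k))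
    (hi : ∀ k, Integrable (f k) (μ k)) (h1 : ∀ k, ∫ x, f k x ∂(μ k) = 1) :
    (Measure.pi fun k => wd (μ k) (f k)) = wd (Measure.pi μ) (fun Z => ∏ k, f k (Z k)) := by
  haveI : ∀ k, IsProbabilityMeasure (wd (μ k) (f k)) := fun k => wd_prob (h0 k) (hi k) (h1 k)
  symm
  symm
  apply Measure.pi_eq
  intro s hs
  have hms : MeasurableSet (Set.univ.pi s) := MeasurableSet.univ_pi hs
  have e1 : ∀ k, wd (μ k) (f k) (s k) =
      ENNReal.ofReal (∫ x, (s k).indicator (f k) x ∂(μ k)) := by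
    intro k
    unfold wd
    rw [withDensity_apply _ (hs k), integral_indicator (hs k),
      ofReal_integral_eq_lintegral_ofReal (hi k).integrableOn
        (Filter.Eventually.of_forall (h0 k))]
  have hipr : Integrable (fun Z : ∀ k, E k => ∏ k, f k (Z k)) (Measure.pi μ) :=
    Integrable.fintype_prod_dep hi
  have e2 : wd (Measure.pi μ) (fun Z => ∏ k, f k (Z k)) (Set.univ.pi s) =
      ENNReal.ofReal (∫ Z, (Set.univ.pi s).indicator (fun Z => ∏ k, f k (Z k)) Z
        ∂(Measure.pi μ)) := by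
    unfold wd
    rw [withDensity_apply _ hms, integral_indicator hms,
      ofReal_integral_eq_lintegral_ofReal hipr.integrableOn
        (Filter.Eventually.of_forall fun Z => Finset.prod_nonneg fun k _ => h0 k (Z k))]
  rw [e2]
  simp_rw [e1]
  rw [← ENNReal.ofReal_prod_of_nonneg]
  · congr 1
    rw [← integral_fintype_prod_eq_prod]
    congr 1
    funext Z
    by_cases hZ : Z ∈ Set.univ.pi s
    · rw [Set.indicator_of_mem hZ]
      apply Finset.prod_congr rfl
      intro k _
      rw [Set.indicator_of_mem (hZ k (Set.mem_univ k))]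
    · rw [Set.indicator_of_notMem hZ]
      symm
      simp only [Set.mem_pi, Set.mem_univ, true_implies, not_forall] at hZ
      obtain ⟨k, hk⟩ := hZ
      exact Finset.prod_eq_zero (Finset.mem_univ k) (Set.indicator_of_notMem hk _)
  · intro k _
    exact integral_nonneg fun x => Set.indicator_nonneg (fun y _ => h0 k y) x

/-- two coordinates of a product of probability measures -/
lemma map_two {P : ∀ k, Measure (E k)} [∀ k, IsProbabilityMeasure (P k)] {k l : K}
    (hkl : k ≠ l) :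
    (Measure.pi P).map (fun Z => (Z k, Z l)) = (P k).prod (P l) := by
  symm
  apply Measure.prod_eq
  intro s t hs ht
  rw [Measure.map_apply ((measurable_pi_apply k).prodMk (measurable_pi_apply l)) (hs.prod ht)]
  classical
  have e : (fun Z : ∀ k, E k => (Z k, Z l)) ⁻¹' (s ×ˢ t) =
      Set.univ.pi (Function.update (Function.update (fun _ => Set.univ) k s) l t) := by
    ext Z
    simp only [Set.mem_preimage, Set.mem_prod, Set.mem_pi, Set.mem_univ, true_implies]
    constructor
    · rintro ⟨h1, h2⟩ m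
      by_cases hm : m = l
      · subst hm; rw [Function.update_self]; exact h2
      · rw [Function.update_of_ne hm]
        by_cases hm' : m = k
        · subst hm'; rw [Function.update_self]; exact h1
        · rw [Function.update_of_ne hm']; trivial
    · intro h
      constructor
      · have := h k
        rwa [Function.update_of_ne hkl, Function.update_self] at this
      · have := h l
        rwa [Function.update_self] at this
  rw [e, Measure.pi_pi, ← Finset.mul_prod_erase _ _ (Finset.mem_univ k),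
    ← Finset.mul_prod_erase _ _ (Finset.mem_erase.mpr ⟨hkl.symm, Finset.mem_univ l⟩),
    Finset.prod_eq_one]
  · rw [Function.update_of_ne hkl, Function.update_self, Function.update_self, mul_one]
  · intro m hm
    simp only [Finset.mem_erase, Finset.mem_univ, and_true] at hm
    rw [Function.update_of_ne hm.1, Function.update_of_ne hm.2, measure_univ]

end dens

/-! ### the product function -/

section prod
variable {K : Type} [Fintype K] [DecidableEq K] {n : K → ℕ}

/-- the product of the wave functions of the cells -/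
def prodF (φ : ∀ k, (Fin (n k) → Om) → ℝ) (X : (Σ k, Fin (n k)) → Om) : ℝ :=
  ∏ k, φ k (fun i => X ⟨k, i⟩)

lemma put_same (X : (Σ k, Fin (n k)) → Om) (k : K) (i : Fin (n k)) (y : E3) :
    (fun i' => put X ⟨k, i⟩ y ⟨k, i'⟩) = put (fun i' => X ⟨k, i'⟩) i y := by
  funext i'
  unfold put
  by_cases h : i' = i
  · subst h; simp
  · rw [Function.update_of_ne h, Function.update_of_ne]
    simpa using h

lemma put_other (X : (Σ k, Fin (n k)) → Om) (k k' : K) (i : Fin (n k)) (y : E3) (h : k' ≠ k) :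
    (fun i' => put X ⟨k, i⟩ y ⟨k', i'⟩) = (fun i' => X ⟨k', i'⟩) := by
  funext i'
  unfold put
  rw [Function.update_of_ne]
  intro h'
  exact h (congrArg Sigma.fst h')

lemma prodF_put (φ : ∀ k, (Fin (n k) → Om) → ℝ) (X : (Σ k, Fin (n k)) → Om) (k : K)
    (i : Fin (n k)) (y : E3) :
    prodF φ (put X ⟨k, i⟩ y) = (∏ k' ∈ Finset.univ.erase k, φ k' (fun i => X ⟨k', i⟩)) *
      φ k (put (fun i' => X ⟨k, i'⟩) i y) := by
  unfold prodF
  rw [← Finset.prod_erase_mul _ _ (Finset.mem_univ k), put_same]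
  congr 1
  apply Finset.prod_congr rfl
  intro k' hk'
  rw [put_other X k k' i y (Finset.ne_of_mem_erase hk')]

lemma prodF_eq (φ : ∀ k, (Fin (n k) → Om) → ℝ) (X : (Σ k, Fin (n k)) → Om) (k : K) :
    prodF φ X = (∏ k' ∈ Finset.univ.erase k, φ k' (fun i => X ⟨k', i⟩)) *
      φ k (fun i' => X ⟨k, i'⟩) := by
  unfold prodF
  rw [← Finset.prod_erase_mul _ _ (Finset.mem_univ k)]

lemma prodF_LC (φ : ∀ k, (Fin (n k) → Om) → ℝ) (h : ∀ k, LC (φ k))
    (hb : ∀ k, ∃ B : ℝ, ∀ X, |φ k X| ≤ B) : LC (prodF φ) := by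
  choose L hL using fun k => (h k).lip
  choose R hR using fun k => (h k).supp
  choose B hB using hb
  constructor
  · refine ⟨(∑ k, |L k|) * ∏ k, max 1 (B k), ?_⟩
    rintro X ⟨k, i⟩ y
    rw [prodF_put, prodF_eq φ X k, ← mul_sub, abs_mul]
    have h1 := hL k (fun i' => X ⟨k, i'⟩) i y
    have h2 : |∏ k' ∈ Finset.univ.erase k, φ k' (fun i => X ⟨k', i⟩)| ≤ ∏ k, max 1 (B k) := by
      rw [Finset.abs_prod]
      calc ∏ k' ∈ Finset.univ.erase k, |φ k' (fun i => X ⟨k', i⟩)|
          ≤ ∏ k' ∈ Finset.univ.erase k, max 1 (B k') :=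
            Finset.prod_le_prod (fun k' _ => abs_nonneg _)
              (fun k' _ => (hB k' _).trans (le_max_right _ _))
        _ ≤ ∏ k', max 1 (B k') := by
            rw [← Finset.prod_erase_mul _ _ (Finset.mem_univ k)]
            have h3 : 0 ≤ ∏ k' ∈ Finset.univ.erase k, max 1 (B k') :=
              Finset.prod_nonneg fun k' _ => (zero_le_one.trans (le_max_left _ _))
            exact le_mul_of_one_le_right h3 (le_max_left _ _)
    have h4 : |L k| ≤ ∑ k, |L k| :=
      Finset.single_le_sum (f := fun k => |L k|) (fun k _ => abs_nonneg _) (Finset.mem_univ k)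
    have h5 : |φ k (put (fun i' => X ⟨k, i'⟩) i y) - φ k (fun i' => X ⟨k, i'⟩)| ≤
        (∑ k, |L k|) * ‖y - (X ⟨k, i⟩).1‖ :=
      h1.trans (mul_le_mul_of_nonneg_right ((le_abs_self _).trans h4) (norm_nonneg _))
    calc _ ≤ (∏ k, max 1 (B k)) * ((∑ k, |L k|) * ‖y - (X ⟨k, i⟩).1‖) :=
          mul_le_mul h2 h5 (abs_nonneg _)
            (Finset.prod_nonneg fun k' _ => (zero_le_one.trans (le_max_left _ _)))
      _ = _ := by ring
  · refine ⟨∑ k, |R k|, ?_⟩
    rintro X hX ⟨k, i⟩
    have h1 : φ k (fun i' => X ⟨k, i'⟩) ≠ 0 := by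
      intro h0
      apply hX
      rw [prodF_eq φ X k, h0, mul_zero]
    have h2 := hR k _ h1 i
    have h4 : |R k| ≤ ∑ k, |R k| :=
      Finset.single_le_sum (f := fun k => |R k|) (fun k _ => abs_nonneg _) (Finset.mem_univ k)
    exact h2.trans ((le_abs_self _).trans h4)

lemma prodF_anti (φ : ∀ k, (Fin (n k) → Om) → ℝ) (h : ∀ k, Anti (φ k))
    (σ : Equiv.Perm (Σ k, Fin (n k))) (hσ : ∀ j, (σ j).1 = j.1) (X : (Σ k, Fin (n k)) → Om) :
    prodF φ (X ∘ σ) = ((Equiv.Perm.sign σ : ℤ) : ℝ) * prodF φ X := by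
  obtain ⟨F, rfl⟩ := exists_fibres σ hσ
  rw [sign_sigma]
  unfold prodF
  have e : ∀ k, φ k (fun i => (X ∘ (Equiv.Perm.sigmaCongrRight F)) ⟨k, i⟩) =
      ((Equiv.Perm.sign (F k) : ℤ) : ℝ) * φ k (fun i => X ⟨k, i⟩) := by
    intro k
    exact h k (F k) (fun i => X ⟨k, i⟩)
  simp_rw [e]
  rw [Finset.prod_mul_distrib]
  congr 1
  push_cast
  rfl

/-- the square of the gradient of the product -/
lemma prodF_gradSq (φ : ∀ k, (Fin (n k) → Om) → ℝ) (X : (Σ k, Fin (n k)) → Om) (k : K)
    (i : Fin (n k)) :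
    gradSq (prodF φ) ⟨k, i⟩ X = (∏ k' ∈ Finset.univ.erase k, φ k' (fun i => X ⟨k', i⟩) ^ 2) *
      gradSq (φ k) i (fun i' => X ⟨k, i'⟩) := by
  unfold gradSq
  have e : (fun y => prodF φ (put X ⟨k, i⟩ y)) =
      fun y => (∏ k' ∈ Finset.univ.erase k, φ k' (fun i => X ⟨k', i⟩)) •
        φ k (put (fun i' => X ⟨k, i'⟩) i y) := by
    funext y
    rw [prodF_put, smul_eq_mul]
  rw [e]
  set c := ∏ k' ∈ Finset.univ.erase k, φ k' (fun i => X ⟨k', i⟩) with hc
  have e2 : fderiv ℝ (fun y => c • φ k (put (fun i' => X ⟨k, i'⟩) i y)) (X ⟨k, i⟩).1 =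
      c • fderiv ℝ (fun y => φ k (put (fun i' => X ⟨k, i'⟩) i y)) (X ⟨k, i⟩).1 :=
    congrFun (fderiv_const_smul_field (𝕜 := ℝ)
      (f := fun y => φ k (put (fun i' => X ⟨k, i'⟩) i y)) c) (X ⟨k, i⟩).1
  rw [e2, norm_smul, mul_pow, Real.norm_eq_abs, sq_abs, hc, Finset.prod_pow]

end prod

/-! ### the energy of the product -/

section energy
variable {K : Type} [Fintype K] [DecidableEq K] {n : K → ℕ}

lemma kin1_prodF (φ : ∀ k, (Fin (n k) → Om) → ℝ) (h1 : ∀ k, nsq (φ k) = 1) (k : K)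
    (i : Fin (n k)) : kin1 ⟨k, i⟩ (prodF φ) = kin1 i (φ k) := by
  unfold kin1
  rw [← mp_cur.integral_comp']
  have e : ∀ Z : ∀ k, Fin (n k) → Om, gradSq (prodF φ) ⟨k, i⟩ ((cur n).symm Z) =
      ∏ k', (Function.update (fun k' (Y : Fin (n k') → Om) => φ k' Y ^ 2) k
        (gradSq (φ k) i) : ∀ k', (Fin (n k') → Om) → ℝ) k' (Z k') := by
    intro Z
    rw [prodF_gradSq, ← Finset.prod_erase_mul _ _ (Finset.mem_univ k), Function.update_self]
    congr 1
    apply Finset.prod_congr rfl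
    intro k' hk'
    rw [Function.update_of_ne (Finset.ne_of_mem_erase hk')]
    rfl
  simp_rw [e]
  rw [integral_fintype_prod_eq_prod, ← Finset.prod_erase_mul _ _ (Finset.mem_univ k),
    Function.update_self, Finset.prod_eq_one, one_mul]
  intro k' hk'
  rw [Function.update_of_ne (Finset.ne_of_mem_erase hk')]
  exact h1 k'

lemma kin_prodF (φ : ∀ k, (Fin (n k) → Om) → ℝ) (h1 : ∀ k, nsq (φ k) = 1) :
    kin (prodF φ) = ∑ k, kin (φ k) := by
  unfold kin
  rw [Fintype.sum_sigma]
  apply Finset.sum_congr rfl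
  intro k _
  apply Finset.sum_congr rfl
  intro i _
  exact kin1_prodF φ h1 k i

/-- the product probability measure -/
def PP (φ : ∀ k, (Fin (n k) → Om) → ℝ) : Measure (∀ k, Fin (n k) → Om) :=
  Measure.pi fun k => wd (mu (Fin (n k))) (fun X => φ k X ^ 2)

section
variable (φ : ∀ k, (Fin (n k) → Om) → ℝ) (hm : ∀ k, Measurable (φ k))
  (hi : ∀ k, Integrable (fun X => φ k X ^ 2) (mu (Fin (n k)))) (h1 : ∀ k, nsq (φ k) = 1)
include hm hi h1

lemma prob (k : K) : IsProbabilityMeasure (wd (mu (Fin (n k))) (fun X => φ k X ^ 2)) :=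
  wd_prob (fun X => sq_nonneg _) (hi k) (h1 k)

lemma PP_eq : PP φ = wd (Measure.pi fun k => mu (Fin (n k))) (fun Z => ∏ k, φ k (Z k) ^ 2) :=
  pi_wd (fun k X => sq_nonneg _) (fun k => (hm k).pow_const 2) hi h1

/-- expectations under the product -/
lemma expv_prodF (W : ((Σ k, Fin (n k)) → Om) → ℝ) :
    expv W (prodF φ) = ∫ Z, W ((cur n).symm Z) ∂(PP φ) := by
  rw [PP_eq φ hm hi h1, wd_integral]
  · unfold expv
    rw [← mp_cur.integral_comp']
    congr 1
    funext Z
    congr 1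
    unfold prodF
    rw [← Finset.prod_pow]
    rfl
  · intro Z
    exact Finset.prod_nonneg fun k _ => sq_nonneg _
  · exact Finset.measurable_prod _ fun k _ => ((hm k).comp (measurable_pi_apply k)).pow_const 2

lemma expv_prodF_int (W : ((Σ k, Fin (n k)) → Om) → ℝ)
    (hW : Integrable (fun X => W X * prodF φ X ^ 2) (mu (Σ k, Fin (n k)))) :
    Integrable (fun Z => W ((cur n).symm Z)) (PP φ) := by
  rw [PP_eq φ hm hi h1]
  apply wd_integrable
  · intro Z
    exact Finset.prod_nonneg fun k _ => sq_nonneg _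
  · exact Finset.measurable_prod _ fun k _ => ((hm k).comp (measurable_pi_apply k)).pow_const 2
  · have h2 := (mp_cur (n := n)).integrable_comp_emb (cur n).symm.measurableEmbedding |>.mpr hW
    refine h2.congr (Filter.Eventually.of_forall fun Z => ?_)
    show W ((cur n).symm Z) * prodF φ ((cur n).symm Z) ^ 2 = _
    congr 1
    unfold prodF
    rw [← Finset.prod_pow]
    rfl

lemma PP_one (k : K) (g : (Fin (n k) → Om) → ℝ)
    (hg : Integrable (fun X => g X * φ k X ^ 2) (mu (Fin (n k)))) :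
    Integrable (fun Z => g (Z k)) (PP φ) ∧ ∫ Z, g (Z k) ∂(PP φ) = expv g (φ k) := by
  haveI := fun k => prob φ hm hi h1 k
  have hmp : MeasurePreserving (Function.eval k) (PP φ)
      (wd (mu (Fin (n k))) (fun X => φ k X ^ 2)) := measurePreserving_eval _ k
  have hgi : Integrable g (wd (mu (Fin (n k))) (fun X => φ k X ^ 2)) :=
    wd_integrable (fun X => sq_nonneg _) ((hm k).pow_const 2) hg
  constructor
  · exact hmp.integrable_comp_of_integrable hgi
  · have h2 : ∫ Z, g (Z k) ∂(PP φ) = ∫ X, g X ∂(wd (mu (Fin (n k))) (fun X => φ k X ^ 2)) := by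
      rw [← hmp.map_eq, integral_map hmp.measurable.aemeasurable]
      rw [hmp.map_eq]; exact hgi.aestronglyMeasurable
    rw [h2, wd_integral (fun X => sq_nonneg _) ((hm k).pow_const 2)]
    rfl

lemma PP_two {k l : K} (hkl : k ≠ l) (g : (Fin (n k) → Om) → (Fin (n l) → Om) → ℝ)
    (hgm : Measurable (fun p : (Fin (n k) → Om) × (Fin (n l) → Om) => g p.1 p.2))
    (hg : Integrable (fun Z => g (Z k) (Z l)) (PP φ)) :
    ∫ Z, g (Z k) (Z l) ∂(PP φ) = expv (fun X => expv (fun X' => g X X') (φ l)) (φ k) := by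
  haveI := fun k => prob φ hm hi h1 k
  have hmap : (PP φ).map (fun Z => (Z k, Z l)) =
      (wd (mu (Fin (n k))) (fun X => φ k X ^ 2)).prod
        (wd (mu (Fin (n l))) (fun X => φ l X ^ 2)) :=
    map_two (P := fun k => wd (mu (Fin (n k))) (fun X => φ k X ^ 2)) hkl
  have hm2 : Measurable (fun Z : ∀ k, Fin (n k) → Om => (Z k, Z l)) :=
    (measurable_pi_apply k).prodMk (measurable_pi_apply l)
  have h2 : ∫ Z, g (Z k) (Z l) ∂(PP φ) = ∫ p, g p.1 p.2 ∂((wd (mu (Fin (n k)))
      (fun X => φ k X ^ 2)).prod (wd (mu (Fin (n l))) (fun X => φ l X ^ 2))) := by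
    rw [← hmap, integral_map hm2.aemeasurable hgm.aestronglyMeasurable]
  have hgi : Integrable (fun p : (Fin (n k) → Om) × (Fin (n l) → Om) => g p.1 p.2)
      ((wd (mu (Fin (n k))) (fun X => φ k X ^ 2)).prod
        (wd (mu (Fin (n l))) (fun X => φ l X ^ 2))) := by
    rw [← hmap, integrable_map_measure hgm.aestronglyMeasurable hm2.aemeasurable]
    exact hg
  rw [h2, integral_prod _ hgi, wd_integral (fun X => sq_nonneg _) ((hm k).pow_const 2)]
  unfold expv
  congr 1
  funext X
  congr 1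
  rw [wd_integral (fun X => sq_nonneg _) ((hm l).pow_const 2)]

end

/-- the potential energy of the product configuration -/
lemma attr_cur {κ : Type} [Fintype κ] (Y : κ → E3) (X : (Σ k, Fin (n k)) → Om) :
    attr Y X = ∑ k, attr Y (fun i => X ⟨k, i⟩) := by
  unfold attr
  rw [Fintype.sum_sigma]

/-- the cross terms -/
def crs {k l : K} (X : Fin (n k) → Om) (X' : Fin (n l) → Om) : ℝ :=
  ∑ i, ∑ i', cou (X i).1 (X' i').1

lemma repEE_cur (X : (Σ k, Fin (n k)) → Om) :
    repEE X = (∑ k, repEE (fun i => X ⟨k, i⟩)) + (1 / 2) * ∑ k, ∑ l,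
      if k = l then 0 else crs (fun i => X ⟨k, i⟩) (fun i => X ⟨l, i⟩) := by
  unfold repEE crs
  rw [← Finset.mul_sum, ← mul_add, Fintype.sum_sigma, ← Finset.sum_add_distrib]
  congr 1
  apply Finset.sum_congr rfl
  intro k _
  simp_rw [Fintype.sum_sigma]
  rw [Finset.sum_comm, ← Finset.sum_erase_add _ _ (Finset.mem_univ k), add_comm]
  congr 1
  rw [← Finset.sum_erase_add _ _ (Finset.mem_univ k), if_pos rfl, add_zero]
  apply Finset.sum_congr rfl
  intro l hl
  rw [if_neg (Finset.ne_of_mem_erase hl).symm]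

lemma crs_meas {k l : K} :
    Measurable (fun p : (Fin (n k) → Om) × (Fin (n l) → Om) => crs p.1 p.2) := by
  unfold crs cou
  fun_prop

end energy

end Trial

open Trial in
/-- **A7b** -/
theorem p_trial (hpas : S_pas) (hlc : S_lc) (hadm : S_adm) : S_trial := by
  intro K κ _ _ _ Y n S φ hS hφ
  have hLC : ∀ k, LC (φ k) := fun k => (hφ k).1.toLC
  have h1 : ∀ k, nsq (φ k) = 1 := fun k => (hφ k).2.1
  have hm : ∀ k, Measurable (φ k) := fun k => (hlc _ _ (hLC k)).1
  have hb : ∀ k, ∃ B : ℝ, ∀ X, |φ k X| ≤ B := fun k => (hlc _ _ (hLC k)).2.1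
  have hi : ∀ k, Integrable (fun X => φ k X ^ 2) (mu (Fin (n k))) :=
    fun k => (hlc _ _ (hLC k)).2.2.2.2.2.2
  have hW : ∀ k (W : (Fin (n k) → Om) → ℝ), AdmW W →
      Integrable (fun X => W X * φ k X ^ 2) (mu (Fin (n k))) :=
    fun k => (hlc _ _ (hLC k)).2.2.2.2.2.1
  have hF : LC (prodF φ) := prodF_LC φ hLC hb
  have hFW : ∀ (W : ((Σ k, Fin (n k)) → Om) → ℝ), AdmW W →
      Integrable (fun X => W X * prodF φ X ^ 2) (mu (Σ k, Fin (n k))) :=
    (hlc _ _ hF).2.2.2.2.2.1
  have hFi := (hlc _ _ hF).2.2.2.2.2.2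
  -- the antisymmetrisation
  have hp := hpas (Σ k, Fin (n k)) K κ Y (fun j => j.1) S (prodF φ) hS hF
    (fun X hX j => by
      obtain ⟨k, i⟩ := j
      refine (hφ k).2.2 (fun i' => X ⟨k, i'⟩) ?_ i
      intro h0
      apply hX
      rw [prodF_eq φ X k, h0, mul_zero])
    (fun σ hσ X => prodF_anti φ (fun k => (hφ k).1.anti) σ hσ X)
  have hcard : Fintype.card (Σ k, Fin (n k)) = ∑ k, n k := by simp
  rw [hcard] at hp
  -- normalisation
  haveI : IsProbabilityMeasure (PP φ) := by
    haveI := fun k => prob φ hm hi h1 k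
    unfold PP
    infer_instance
  have hn : nsq (prodF φ) = 1 := by
    have e := expv_prodF φ hm hi h1 (fun _ => 1)
    unfold expv at e
    simp only [one_mul, integral_const, smul_eq_mul, mul_one] at e
    unfold nsq
    rw [e]
    simp
  rw [hn, mul_one] at hp
  refine hp.trans (le_of_eq ?_)
  unfold Qf
  rw [kin_prodF φ h1]
  -- the pieces of the potential
  have hadmk : ∀ k, AdmW (attr (ι := Fin (n k)) Y) ∧ AdmW (repEE (ι := Fin (n k))) ∧
      AdmW (pot (ι := Fin (n k)) Y) := fun k => (hadm (Fin (n k))).2.2.2.2.2.2.1 κ Y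
  have hA : ∀ k, Integrable (fun Z => attr Y (Z k)) (PP φ) ∧
      ∫ Z, attr Y (Z k) ∂(PP φ) = expv (attr Y) (φ k) := fun k =>
    PP_one φ hm hi h1 k (attr Y) (hW k _ (hadmk k).1)
  have hR : ∀ k, Integrable (fun Z => repEE (Z k)) (PP φ) ∧
      ∫ Z, repEE (Z k) ∂(PP φ) = expv repEE (φ k) := fun k =>
    PP_one φ hm hi h1 k repEE (hW k _ (hadmk k).2.1)
  have hC : ∀ k l, k ≠ l → Integrable (fun Z => crs (Z k) (Z l)) (PP φ) ∧
      ∫ Z, crs (Z k) (Z l) ∂(PP φ) = crossEE (φ k) (φ l) := by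
    intro k l hkl
    have hint : Integrable (fun Z => crs (Z k) (Z l)) (PP φ) := by
      unfold crs
      refine integrable_finset_sum _ fun i _ => integrable_finset_sum _ fun i' _ => ?_
      exact expv_prodF_int φ hm hi h1 (fun X => cou (X ⟨k, i⟩).1 (X ⟨l, i'⟩).1)
        (hFW _ ((hadm (Σ k, Fin (n k))).2.2.2.2.2.1 ⟨k, i⟩ ⟨l, i'⟩))
    exact ⟨hint, PP_two φ hm hi h1 hkl (fun X X' => crs X X') crs_meas hint⟩
  rw [expv_prodF φ hm hi h1]
  have e1 : ∀ Z : ∀ k, Fin (n k) → Om, pot Y ((cur n).symm Z) =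
      ((-∑ k, attr Y (Z k)) + ((∑ k, repEE (Z k)) + (1 / 2) * ∑ k, ∑ l,
        if k = l then 0 else crs (Z k) (Z l))) + repNN Y := by
    intro Z
    unfold pot
    rw [attr_cur, repEE_cur]
    rfl
  simp_rw [e1]
  have i1 : Integrable (fun Z : ∀ k, Fin (n k) → Om => ∑ k, attr Y (Z k)) (PP φ) :=
    integrable_finset_sum _ fun k _ => (hA k).1
  have i2 : Integrable (fun Z : ∀ k, Fin (n k) → Om => ∑ k, repEE (Z k)) (PP φ) :=
    integrable_finset_sum _ fun k _ => (hR k).1
  have i3' : ∀ k l, Integrable (fun Z : ∀ k, Fin (n k) → Om =>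
      if k = l then 0 else crs (Z k) (Z l)) (PP φ) := by
    intro k l
    by_cases h : k = l
    · simp only [h, if_true]
      exact integrable_zero _ _ _
    · simp only [h, if_false]
      exact (hC k l h).1
  have i3 : Integrable (fun Z : ∀ k, Fin (n k) → Om => (1 / 2 : ℝ) * ∑ k, ∑ l,
        if k = l then 0 else crs (Z k) (Z l)) (PP φ) :=
    (integrable_finset_sum _ fun k _ => integrable_finset_sum _ fun l _ => i3' k l).const_mul _
  have i23 := i2.add i3
  have i123 := i1.neg.add i23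
  have s1 : ∫ Z, ((-∑ k, attr Y (Z k)) + ((∑ k, repEE (Z k)) + (1 / 2) * ∑ k, ∑ l,
        if k = l then 0 else crs (Z k) (Z l))) + repNN Y ∂(PP φ) =
      (-∫ Z, ∑ k, attr Y (Z k) ∂(PP φ)) + ((∫ Z, ∑ k, repEE (Z k) ∂(PP φ)) +
        ∫ Z, (1 / 2) * ∑ k, ∑ l, (if k = l then 0 else crs (Z k) (Z l)) ∂(PP φ)) + repNN Y := by
    have j1 := integral_add (μ := PP φ) i123 (integrable_const (repNN Y))
    have j2 := integral_add (μ := PP φ) i1.neg i23
    have j3 := integral_add (μ := PP φ) i2 i3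
    have j4 := integral_neg (μ := PP φ) (fun Z : ∀ k, Fin (n k) → Om => ∑ k, attr Y (Z k))
    simp only [Pi.add_apply, Pi.neg_apply, integral_const, smul_eq_mul] at j1 j2 j3 j4
    rw [j1, j2, j3, j4]
    simp
  rw [s1, integral_finset_sum _ fun k _ => (hA k).1, integral_finset_sum _ fun k _ => (hR k).1,
    integral_const_mul, integral_finset_sum _ fun k _ => integrable_finset_sum _ fun l _ => i3' k l]
  have s2 : ∀ k, ∫ Z, ∑ l, (if k = l then 0 else crs (Z k) (Z l)) ∂(PP φ) =
      ∑ l, if k = l then 0 else crossEE (φ k) (φ l) := by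
    intro k
    rw [integral_finset_sum _ fun l _ => i3' k l]
    apply Finset.sum_congr rfl
    intro l _
    by_cases h : k = l
    · simp [h]
    · simp only [h, if_false]
      exact (hC k l h).2
  simp_rw [s2, fun k => (hA k).2, fun k => (hR k).2]
  rw [Finset.sum_add_distrib, Finset.sum_sub_distrib]
  ring

end MolDis
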