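import Pool.Agent.Lib.MP_59f35a_mp.LcBasic
import Pool.Agent.Lib.MP_59f35a_mp.AdmBasic
import Pool.Agent.Lib.MP_59f35a_mp.EnBasic
import Pool.Agent.Lib.MP_59f35a_mp.Slice
import Pool.Agent.Lib.MP_59f35a_mp.Ims
import Pool.Agent.Lib.MP_59f35a_mp.Master
import Pool.Agent.Lib.MP_59f35a_mp.Hyd
import Pool.Agent.Lib.MP_59f35a_mp.Pas
import Pool.Agent.Lib.MP_59f35a_mp.Trial
import Pool.Agent.Lib.MP_59f35a_mp.Cut
import Pool.Agent.Lib.MP_59f35a_mp.En2
import Pool.Agent.Lib.MP_59f35a_mp.Reindex
import Pool.Agent.Lib.MP_59f35a_mp.FarLower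
import Pool.Agent.Lib.MP_59f35a_mp.FarUpper
import Pool.Agent.Lib.MP_59f35a_mp.Slopes
import Pool.Agent.Lib.MP_59f35a_mp.AH
import Pool.Agent.Lib.MP_59f35a_mp.MargP
import Pool.Agent.Lib.MP_59f35a_mp.Tail
import Pool.Agent.Lib.MP_59f35a_mp.Mom
import Pool.Agent.Lib.MP_59f35a_mp.Heavy
import Pool.Agent.Lib.MP_59f35a_mp.Kernel
import Pool.Agent.Lib.MP_59f35a_mp.Onsager
import Pool.Agent.Lib.MP_59f35a_mp.CellB
import Pool.Agent.Lib.MP_59f35a_mp.CellQ
import Pool.Agent.Lib.MP_59f35a_mp.Lower
import Pool.Agent.Lib.MP_59f35a_mp.Upper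
import Pool.Agent.Lib.MP_59f35a_mp.Mult
import Pool.Agent.Lib.MP_59f35a_mp.Lat
import Pool.Agent.Lib.MP_59f35a_mp.Grid
import Pool.Agent.Lib.MP_59f35a_mp.Geom
import Pool.Agent.Lib.MP_59f35a_mp.ArrayLow
import Pool.Agent.Lib.MP_59f35a_mp.CompUp
import Pool.Agent.Lib.MP_59f35a_mp.CompSec
import Pool.Agent.Lib.MP_59f35a_mp.CompMarg
import Pool.Agent.Lib.MP_59f35a_mp.CompGood
import Pool.Agent.Lib.MP_59f35a_mp.CompTail
import Pool.Agent.Lib.MP_59f35a_mp.Comp
import Pool.Agent.Lib.MP_59f35a_mp.Step
import Pool.Agent.Lib.MP_59f35a_mp.ArrayUp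
import Pool.Agent.Lib.MP_59f35a_mp.Cases
import Pool.Agent.Lib.MP_59f35a_mp.Bridge

/-!
# MP_59f35a_mp : the chain of the pieces
-/

namespace MolDis.Chain

theorem lc : S_lc := p_lc
theorem lcc : S_lc_closure := p_lc_closure
theorem adm : S_adm := p_adm
theorem hyd : S_hyd := p_hyd lc adm
theorem en : S_en := p_en lc lcc adm hyd
theorem slice : S_slice := p_slice lc
theorem ims : S_ims := p_ims lc lcc adm
theorem master : S_master := p_master ims slice lc adm
theorem cut : S_cut := p_cut
theorem pas : S_pas := p_pas lc lcc adm en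
theorem trial : S_trial := p_trial pas lc adm
theorem en2 : S_en2 := p_en2 en trial hyd slice lc adm
theorem reindex : S_reindex := p_reindex
theorem shift : S_shift := p_shift
theorem far_lower : S_far_lower := p_far_lower master ims cut lc adm en en2
theorem far_upper : S_far_upper := p_far_upper lc adm en trial shift
theorem slopes : S_slopes := p_slopes en far_lower far_upper
theorem aH : S_aH := p_aH en en2
theorem marg : S_marg := p_marg en en2 far_lower far_upper
theorem tail : S_tail := p_tail lc adm ims master cut en en2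
theorem mom : S_mom := p_mom tail slice cut ims lc lcc adm en en2
theorem heavy : S_heavy := p_heavy lc adm hyd ims cut
theorem ker : S_ker := p_ker
theorem onsager : S_onsager := p_onsager
theorem cellB : S_cellB := p_cellB lc lcc adm en
theorem cellQ : S_cellQ := p_cellQ lc adm en shift heavy
theorem lower : S_lower := p_lower master ims cut onsager lc adm en reindex
theorem upper : S_upper := p_upper trial lc adm
theorem mult : S_mult := p_mult
theorem lat : S_lat := p_lat
theorem grid : S_grid := p_grid
theorem geom : S_geom := p_geom lat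
theorem arrayLow : S_arrayLow := p_arrayLow lower cellB cellQ geom grid lat
theorem compUp : S_compUp := p_compUp lc upper mom mult shift
theorem compSec : S_compSec := p_compSec slice ims cut mult lc adm en
theorem compMarg : S_compMarg := p_compMarg far_lower far_upper
theorem compGood : S_compGood := p_compGood lc lcc adm en reindex shift slice ims cut
theorem compTail : S_compTail := p_compTail lc adm en compUp compSec compMarg tail
theorem comp : S_comp := p_comp lc adm en ims cut marg mom compMarg compTail compGood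
theorem arrayUp : S_arrayUp := p_arrayUp lc shift en upper mom mult lat grid
theorem step : S_step := p_step en en2 ker geom grid arrayLow arrayUp comp

theorem threeCases : S_cases := p_cases en en2 slopes aH
theorem bridge : NeutralDissociation → PQ1 := p_bridge en

/-- everything except Theorem D -/
theorem main (hD : -1 / 2 < En 2 Hy → ThmD) : ¬ PQ1 := fun h =>
  threeCases step (hD (aH h).2) h

end MolDis.Chain
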