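import Pool.Agent.Lib.MP_59f35a_mp.Moll

/-!
# MP_59f35a_mp : slices with fixed spins (helper99)
-/

open MeasureTheory Filter Topology
set_option linter.unusedSectionVars false
noncomputable section
namespace MolDis
namespace Bridge

variable {ι : Type} [Fintype ι] [DecidableEq ι]

theorem pi_count_bool : (Measure.pi fun _ : ι => (Measure.count : Measure Bool)) = Measure.count := by
  refine Measure.ext_iff_singleton.mpr fun s => ?_
  rw [Measure.pi_singleton]; simp

/-- configuration from positions and spins -/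
def conf (x : ι → E3) (s : ι → Bool) : ι → Om := fun j => (x j, s j)

theorem int_mu {g : (ι → Om) → ℝ} (hg : Integrable g (mu ι)) :
    (∀ s : ι → Bool, Integrable (fun x : ι → E3 => g (conf x s))) ∧
    ∫ X, g X ∂(mu ι) = ∑ s : ι → Bool, ∫ x : ι → E3, g (conf x s) := by
  have hmp := measurePreserving_arrowProdEquivProdArrow E3 Bool ι (fun _ => (volume : Measure E3))
    (fun _ => Measure.count)
  have e1 : (Measure.pi fun _ : ι => (volume : Measure E3).prod Measure.count) = mu ι := rfl
  rw [e1, pi_count_bool] at hmp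
  have hs := hmp.symm
  have h1 : ∫ X, g X ∂(mu ι) = ∫ p, g ((MeasurableEquiv.arrowProdEquivProdArrow E3 Bool ι).symm p)
      ∂((Measure.pi fun _ : ι => (volume : Measure E3)).prod Measure.count) :=
    (hs.integral_comp' g).symm
  have h2 : Integrable (fun p => g ((MeasurableEquiv.arrowProdEquivProdArrow E3 Bool ι).symm p))
      ((Measure.pi fun _ : ι => (volume : Measure E3)).prod Measure.count) :=
    hs.integrable_comp_of_integrable hg
  have h3 := (integrable_prod_iff' h2.aestronglyMeasurable).mp h2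
  have h4 := Measure.ae_count_iff.mp h3.1
  refine ⟨fun s => h4 s, ?_⟩
  rw [h1, integral_prod_symm _ h2, integral_count]
  rfl

/-- the slice of a wave function with fixed spins -/
def sl (ψ : (ι → Om) → ℝ) (s : ι → Bool) (x : ι → E3) : ℝ := ψ (conf x s)

/-- coordinate directions -/
def dr (j : ι) (k : Fin 3) : ι → E3 := Pi.single j (EuclideanSpace.single k 1)

theorem sl_lip {ψ : (ι → Om) → ℝ} (hψ : LC ψ) (s : ι → Bool) : ∃ C, LipschitzWith C (sl ψ s) := by
  obtain ⟨K0, hK0⟩ := hψ.lip
  have hK : ∀ X j y, |ψ (put X j y) - ψ X| ≤ |K0| * ‖y - (X j).1‖ := fun X j y =>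
    (hK0 X j y).trans (by gcongr; exact le_abs_self _)
  refine ⟨Real.toNNReal (|K0| * Fintype.card ι), LipschitzWith.of_dist_le_mul fun y x => ?_⟩
  rw [Real.coe_toNNReal _ (by positivity), Real.dist_eq]
  have h1 := LcBasic.lip_finset hK s x y Finset.univ
  simp only [Finset.mem_univ, if_true] at h1
  refine h1.trans ?_
  rw [mul_assoc]
  gcongr
  calc ∑ j, ‖y j - x j‖ ≤ ∑ _j : ι, dist y x := Finset.sum_le_sum fun j _ => by
        rw [← dist_eq_norm]; exact dist_le_pi_dist y x j
    _ = _ := by simp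

theorem sl_supp {ψ : (ι → Om) → ℝ} (hψ : LC ψ) (s : ι → Bool) : HasCompactSupport (sl ψ s) := by
  obtain ⟨R, hR⟩ := hψ.supp
  refine HasCompactSupport.intro (isCompact_closedBall (0 : ι → E3) |R|) fun x hx => ?_
  by_contra hne
  apply hx
  rw [mem_closedBall_zero_iff, pi_norm_le_iff_of_nonneg (abs_nonneg _)]
  intro j
  exact (hR (conf x s) hne j).trans (le_abs_self _)

theorem norm_sq_dual (L : E3 →L[ℝ] ℝ) :
    ‖L‖ ^ 2 = ∑ k, (L (EuclideanSpace.single k 1)) ^ 2 := by
  have h1 : ‖L‖ = ‖(InnerProductSpace.toDual ℝ E3).symm L‖ := by simp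
  rw [h1, ← OrthonormalBasis.sum_sq_norm_inner_right (EuclideanSpace.basisFun (Fin 3) ℝ)]
  refine Finset.sum_congr rfl fun k _ => ?_
  rw [EuclideanSpace.basisFun_apply, real_inner_comm, InnerProductSpace.toDual_symm_apply,
    Real.norm_eq_abs, sq_abs]

theorem put_conf (x : ι → E3) (s : ι → Bool) (j : ι) (y : E3) :
    put (conf x s) j y = conf (Function.update x j y) s := by
  funext i
  unfold put conf
  by_cases h : i = j
  · subst h; simp
  · simp [Function.update_of_ne h]

theorem gradSq_conf {ψ : (ι → Om) → ℝ} {s : ι → Bool} {x : ι → E3} (j : ι)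
    (hd : DifferentiableAt ℝ (sl ψ s) x) :
    gradSq ψ j (conf x s) = ∑ k, (lineDeriv ℝ (sl ψ s) x (dr j k)) ^ 2 := by
  have h1 : (fun y => ψ (put (conf x s) j y)) = fun y => sl ψ s (Function.update x j y) := by
    funext y
    rw [put_conf]; rfl
  have h2 : HasFDerivAt (fun y => sl ψ s (Function.update x j y))
      ((fderiv ℝ (sl ψ s) x).comp
        (ContinuousLinearMap.pi (Pi.single j (ContinuousLinearMap.id ℝ E3)))) (x j) := by
    have hu := hasFDerivAt_update (𝕜 := ℝ) (i := j) x (x j)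
    have hd' : HasFDerivAt (sl ψ s) (fderiv ℝ (sl ψ s) x) (Function.update x j (x j)) := by
      rw [Function.update_eq_self]
      exact hd.hasFDerivAt
    exact hd'.comp (x j) hu
  unfold gradSq
  rw [h1]
  have h3 : ((conf x s) j).1 = x j := rfl
  rw [h3, h2.fderiv, norm_sq_dual]
  refine Finset.sum_congr rfl fun k _ => ?_
  rw [hd.lineDeriv_eq_fderiv]
  congr 1
  rw [ContinuousLinearMap.comp_apply]
  congr 1
  funext i
  unfold dr
  rw [ContinuousLinearMap.pi_apply]
  by_cases h : i = j
  · subst h; simp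
  · simp [Pi.single_eq_of_ne h]

theorem ld_sq_int {E : Type} [NormedAddCommGroup E] [NormedSpace ℝ E] [FiniteDimensional ℝ E]
    [MeasureSpace E] [BorelSpace E] [(volume : Measure E).IsAddHaarMeasure] {g : E → ℝ}
    {C : NNReal} (hg : LipschitzWith C g)
    (hgs : HasCompactSupport g) (v : E) : Integrable (fun t => (lineDeriv ℝ g t v) ^ 2) := by
  have hm : Measurable fun t => lineDeriv ℝ g t v := measurable_lineDeriv hg.continuous
  have hb : ∀ t, |lineDeriv ℝ g t v| ≤ C * ‖v‖ := fun t => norm_lineDeriv_le_of_lipschitz ℝ hg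
  have hz : ∀ t, t ∉ tsupport g → lineDeriv ℝ g t v = 0 := by
    intro t ht
    have h : g =ᶠ[nhds t] fun _ => (0 : ℝ) := notMem_tsupport_iff_eventuallyEq.mp ht
    rw [h.lineDeriv_eq]
    unfold lineDeriv
    simp
  have hc := hgs.isCompact
  have h1 : Integrable (Set.indicator (tsupport g) (fun _ => (C * ‖v‖) ^ 2)) volume := by
    rw [integrable_indicator_iff hc.measurableSet]
    exact integrableOn_const (hs := hc.measure_lt_top.ne)
  refine h1.mono' (hm.pow_const 2).aestronglyMeasurable (ae_of_all _ fun t => ?_)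
  by_cases ht : t ∈ tsupport g
  · rw [Set.indicator_of_mem ht, Real.norm_eq_abs, abs_pow]
    exact pow_le_pow_left₀ (abs_nonneg _) (hb t) 2
  · rw [Set.indicator_of_notMem ht, hz t ht]
    simp

theorem kin1_eq {ψ : (ι → Om) → ℝ} (hψ : LC ψ) (j : ι) :
    kin1 j ψ = ∑ s : ι → Bool, ∑ k, ∫ x, (lineDeriv ℝ (sl ψ s) x (dr j k)) ^ 2 := by
  unfold kin1
  rw [(int_mu ((p_lc ι ψ hψ).2.2.2.2.1 j)).2]
  refine Finset.sum_congr rfl fun s _ => ?_
  obtain ⟨C, hC⟩ := sl_lip hψ s
  rw [← integral_finsetSum _ fun k _ => ld_sq_int hC (sl_supp hψ s) (dr j k)]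
  refine integral_congr_ae ?_
  filter_upwards [hC.ae_differentiableAt (μ := volume)] with x hx
  exact gradSq_conf j hx

/-- the mollified function has less kinetic energy -/
theorem kin_moll {ψ F : (ι → Om) → ℝ} (hψ : LC ψ) (hF : LC F) {K : (ι → E3) → ℝ} (hK : Ker K)
    (h : ∀ s, sl F s = moll K (sl ψ s)) : kin F ≤ kin ψ := by
  unfold kin
  refine Finset.sum_le_sum fun j _ => ?_
  rw [kin1_eq hψ, kin1_eq hF]
  refine Finset.sum_le_sum fun s _ => Finset.sum_le_sum fun k _ => ?_
  obtain ⟨C, hC⟩ := sl_lip hψ s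
  rw [h s]
  exact moll_energy hK hC (sl_supp hψ s) _

end Bridge
end MolDis
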