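import Pool.Agent.Lib.MP_59f35a_mp.Defs

/-!
# MP_59f35a_mp : definitions for Theorem D (a polar neutral molecule made of three protons)

Three hydrogen atoms at `yv a l = (-(a/2) e, (a/2) e, l e)`.  Everything is written in the ground
state representation: a function `f` of the three positions RELATIVE to the nuclei stands for
`f · Ψ0`, `Ψ0 = Π (8π)^(-1/2) e^{-|x_j|/2}`; `hm` is the probability measure `ψ0² dx`.
-/

noncomputable section

open MeasureTheory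

namespace MolDis.H

/-- relative positions of three electrons -/
abbrev X3 := Fin 3 → E3

/-- basis vectors; the axis of the molecule is `ec 0` -/
def ec (c : Fin 3) : E3 := EuclideanSpace.single c (1 : ℝ)

/-- the squared hydrogen ground state (a probability measure) -/
def hm : Measure E3 :=
  (volume : Measure E3).withDensity fun x => ENNReal.ofReal (Real.exp (-‖x‖) / (8 * Real.pi))

/-- its third power -/
def pm : Measure X3 := Measure.pi fun _ => hm

/-- Lipschitz functions on `E3` with support in a ball -/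
structure LC1 (f : E3 → ℝ) : Prop where
  lip : ∃ K : NNReal, LipschitzWith K f
  supp : ∃ R : ℝ, ∀ x, f x ≠ 0 → ‖x‖ ≤ R

/-- partial derivatives on `E3` -/
def pd1 (c : Fin 3) (f : E3 → ℝ) (x : E3) : ℝ := lineDeriv ℝ f x (ec c)

/-- Dirichlet form of `hm` -/
def D1 (f g : E3 → ℝ) : ℝ := ∑ c, ∫ x, pd1 c f x * pd1 c g x ∂hm

/-- partial derivatives on `X3` -/
def pd (j c : Fin 3) (f : X3 → ℝ) (x : X3) : ℝ := lineDeriv ℝ f x (Pi.single j (ec c))

/-- Dirichlet form in the variable `j` -/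
def Dj (j : Fin 3) (f g : X3 → ℝ) : ℝ := ∑ c, ∫ x, pd j c f x * pd j c g x ∂pm

/-- Dirichlet form -/
def DD (f g : X3 → ℝ) : ℝ := ∑ j, Dj j f g

/-- scalar product of `L²(pm)` -/
def ip (f g : X3 → ℝ) : ℝ := ∫ x, f x * g x ∂pm

/-- slice of `f` in the variable `j` -/
def sl (j : Fin 3) (x : X3) (f : X3 → ℝ) : E3 → ℝ := fun y => f (Function.update x j y)

/-- average over the variable `j` -/
def Pj (j : Fin 3) (f : X3 → ℝ) (x : X3) : ℝ := ∫ y, f (Function.update x j y) ∂hm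

/-- bounded Lipschitz functions -/
structure BL (f : X3 → ℝ) : Prop where
  lip : ∃ K : NNReal, LipschitzWith K f
  bdd : ∃ B : ℝ, ∀ x, |f x| ≤ B

/-- Lipschitz functions of the variables in `S`, supported in `‖x_j‖ ≤ r` for `j ∈ S` -/
structure Box (S : Finset (Fin 3)) (r : ℝ) (f : X3 → ℝ) : Prop where
  lip : ∃ K : NNReal, LipschitzWith K f
  supp : ∀ x, f x ≠ 0 → ∀ j ∈ S, ‖x j‖ ≤ r
  ind : ∀ j, j ∉ S → ∀ x y, f (Function.update x j y) = f x

/-- the pair: variables `0, 1` -/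
def S2 : Finset (Fin 3) := {0, 1}

/-- all three variables -/
def S3 : Finset (Fin 3) := Finset.univ

/-- energy form with the potential `U` (relative to the free atoms) -/
def BB (U f g : X3 → ℝ) : ℝ := DD f g + ∫ x, U x * f x * g x ∂pm

/-- ground state energy in the box -/
def EE (S : Finset (Fin 3)) (r : ℝ) (U : X3 → ℝ) : ℝ :=
  sInf {e | ∃ f, Box S r f ∧ ip f f = 1 ∧ e = BB U f f}

/-- near minimisers (excess `e^{-r}`) -/
structure NM (S : Finset (Fin 3)) (r : ℝ) (U φ : X3 → ℝ) : Prop where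
  box : Box S r φ
  norm : ip φ φ = 1
  le : BB U φ φ ≤ EE S r U + Real.exp (-r)

/-- spectral gap of the hydrogen atom -/
structure HGap (g0 : ℝ) : Prop where
  pos : 0 < g0
  le : g0 ≤ 3 / 16
  gap : ∀ f, LC1 f → g0 * ((∫ x, f x ^ 2 ∂hm) - (∫ x, f x ∂hm) ^ 2) ≤ D1 f f

/-- cut-off function: `1` for `‖x‖ ≤ r/2`, `0` for `‖x‖ ≥ r` -/
def zt (r : ℝ) (x : E3) : ℝ := max 0 (min 1 (2 - 2 * ‖x‖ / r))

/-- zonal solid harmonics about the axis `ec 0` -/
def hh : ℕ → E3 → ℝ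
  | 1, x => x 0
  | 2, x => x 0 ^ 2 - (x 1 ^ 2 + x 2 ^ 2) / 2
  | 3, x => x 0 ^ 3 - 3 / 2 * x 0 * (x 1 ^ 2 + x 2 ^ 2)
  | 4, x => x 0 ^ 4 - 3 * x 0 ^ 2 * (x 1 ^ 2 + x 2 ^ 2) + 3 / 8 * (x 1 ^ 2 + x 2 ^ 2) ^ 2
  | _, _ => 0

/-- the solution of `(h - e0)(th_L ψ0) = hh_L ψ0` -/
def th (L : ℕ) (x : E3) : ℝ := hh L x * (2 / L + ‖x‖ / (L + 1))

/-- `F` is a weak solution of `-Δ F + ∂_r F = κ`, with quantitative cut-offs -/
structure WSol (F κ : E3 → ℝ) (C : ℝ) : Prop where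
  nonneg : 0 ≤ C
  measF : Measurable F
  measκ : Measurable κ
  lip : ∀ r : ℝ, 1 ≤ r → ∃ K : NNReal, LipschitzWith K (fun x => F x * zt r x)
  weak : ∀ r : ℝ, 1 ≤ r → ∀ v, LC1 v →
    |D1 (fun x => F x * zt r x) v - ∫ x, κ x * v x ∂hm| ≤ C * Real.exp (-r / 8) * √(D1 v v)
  intF : Integrable (fun x => F x ^ 2) hm
  intκ : Integrable (fun x => κ x ^ 2) hm
  leF : ∫ x, F x ^ 2 ∂hm ≤ C
  leκ : ∫ x, κ x ^ 2 ∂hm ≤ C
  tailF : ∀ r : ℝ, 1 ≤ r → ∫ x, (if r / 2 < ‖x‖ then F x ^ 2 else 0) ∂hm ≤ C * Real.exp (-r / 4)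
  tailκ : ∀ r : ℝ, 1 ≤ r → ∫ x, (if r / 2 < ‖x‖ then κ x ^ 2 else 0) ∂hm ≤ C * Real.exp (-r / 4)
  leD : ∀ r : ℝ, 1 ≤ r → D1 (fun x => F x * zt r x) (fun x => F x * zt r x) ≤ C

/-- dipole-dipole interaction -/
def dd (x y : E3) : ℝ := x 1 * y 1 + x 2 * y 2 - 2 * x 0 * y 0

/-- interaction of two neutral atoms (nuclei at distance vector `b`, electrons at `x` relative to
the first and at `y` relative to the second nucleus) -/
def pv (b x y : E3) : ℝ := ‖b + y - x‖⁻¹ - ‖b + y‖⁻¹ - ‖b - x‖⁻¹ + ‖b‖⁻¹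

/-- the nuclei -/
def yv (a l : ℝ) : Fin 3 → E3 := ![(-(a / 2)) • ec 0, (a / 2) • ec 0, l • ec 0]

/-- interaction inside the pair, cut off outside the box -/
def V12 (r a : ℝ) (x : X3) : ℝ :=
  if ‖x 0‖ ≤ r ∧ ‖x 1‖ ≤ r then pv (a • ec 0) (x 0) (x 1) else 0

/-- interaction of the pair with the third atom, cut off outside the box -/
def W3 (r a l : ℝ) (x : X3) : ℝ :=
  if ∀ j, ‖x j‖ ≤ r then
    pv ((l + a / 2) • ec 0) (x 0) (x 2) + pv ((l - a / 2) • ec 0) (x 1) (x 2) else 0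

/-- total interaction -/
def U3 (r a l : ℝ) (x : X3) : ℝ := V12 r a x + W3 r a l x

/-- multipole moments (electrons minus nuclei) of the pair in the state `φ` -/
def ML (a : ℝ) (L : ℕ) (φ : X3 → ℝ) : ℝ :=
  ∫ x, ((hh L ((-(a / 2)) • ec 0 + x 0) - hh L ((-(a / 2)) • ec 0))
      + (hh L ((a / 2) • ec 0 + x 1) - hh L ((a / 2) • ec 0))) * φ x ^ 2 ∂pm

/-- simultaneous inversion of the pair (about its centre) and of the third atom -/
def piv (x : X3) : X3 := ![-x 1, -x 0, -x 2]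

/-- trial function of the dispersion problem -/
def chi (x : X3) : ℝ := dd (x 0) (x 1) * ((3 + ‖x 0‖ + ‖x 1‖) / 6)

/-- its residual -/
def rho (x : X3) : ℝ :=
  dd (x 0) (x 1) * (-1 / 3 - (‖x 0‖⁻¹ + ‖x 1‖⁻¹) / 6 + (‖x 0‖ / ‖x 1‖ + ‖x 1‖ / ‖x 0‖) / 6)

/-- the vector multiplying the error of `chi` in the quadrupole functional -/
def kap (x : X3) : ℝ :=
  hh 2 (x 0) * dd (x 0) (x 1) * (1 + ‖x 0‖ / 3 + (3 + ‖x 0‖ + ‖x 1‖) / 6)

/-- the trial function, cut off -/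
def chir (r : ℝ) (x : X3) : ℝ := chi x * zt r (x 0) * zt r (x 1)

/-- sign changes of coordinates and permutations of the variables -/
def sgT (σ : Equiv.Perm (Fin 3)) (s : Fin 3 → Fin 3 → ℝ) (x : X3) : X3 :=
  fun j => WithLp.toLp 2 (fun c => s j c * x (σ j) c)

/-- the function of the relative positions, in the ground state representation, belonging to the
wave function `ψ` whose electron `j` lives at the nucleus `τ j`, for the spin configuration `s` -/
def gof (Y : Fin 3 → E3) (τ : Equiv.Perm (Fin 3)) (s : Fin 3 → Bool) (ψ : (Fin 3 → Om) → ℝ)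
    (x : X3) : ℝ :=
  ψ (fun j => (Y (τ j) + x (τ j), s j)) * ∏ i, (√(8 * Real.pi) * Real.exp (‖x i‖ / 2))

end MolDis.H
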