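import Pool.Agent.Lib.MP_59f35a_mp.Stmts2
import Pool.Agent.Lib.MP_59f35a_mp.HDefs

/-!
# MP_59f35a_mp : statements for Theorem D (a polar neutral molecule)

Every statement is a `Prop`-definition `S_...`.  A piece proves `theorem p_... : S_...`, with the
statements it uses as hypotheses.  `C` always denotes constants which may depend on `g0` only.
-/

noncomputable section

open MeasureTheory

namespace MolDis.H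

/-! ## 1. one particle -/

/-- **H1 (the measure `hm`).**  Polar coordinates (`integral_fun_norm_addHaar`, volume of the unit
ball `4π/3`): `∫ ‖x‖^k dhm = ½ ∫_0^∞ t^{k+2} e^{-t} dt = (k+2)!/2`.  Tail:
`½ ∫_{r/2}^∞ t^{k+2} e^{-t} ≤ ½ e^{-r/4} ∫ t^{k+2} e^{-t/2}` (or Markov: `1_{t > r/2} ≤ e^{-r/4} e^{t/2}`
and integrability of `‖x‖^k e^{‖x‖/2}`). -/
def S_hm : Prop :=
  IsProbabilityMeasure hm ∧ hm ≪ (volume : Measure E3) ∧ (volume : Measure E3) ≪ hm ∧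
  (∀ f : E3 → ℝ, ∫ x, f x ∂hm = ∫ x, Real.exp (-‖x‖) / (8 * Real.pi) * f x) ∧
  (∀ k : ℕ, Integrable (fun x : E3 => ‖x‖ ^ k) hm ∧
    ∫ x, ‖x‖ ^ k ∂hm = ((k + 2).factorial : ℝ) / 2) ∧
  (∀ k : ℕ, ∃ C : ℝ, ∀ r : ℝ, 1 ≤ r →
    ∫ x, (if r / 2 < ‖x‖ then ‖x‖ ^ k else 0) ∂hm ≤ C * Real.exp (-r / 4)) ∧
  (∀ e : E3 ≃ₗᵢ[ℝ] E3, MeasurePreserving e hm hm)

/-- **H2 (integration by parts).**  Multiply `G` by a Lipschitz cut-off which is `1` on a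
neighbourhood of the support of `v`, then `LipschitzWith.integral_lineDeriv_mul_eq`. -/
def S_ibp : Prop :=
  ∀ (G v : E3 → ℝ) (c : Fin 3),
    (∀ R : ℝ, ∃ K : ℝ, ∀ x y, ‖x‖ ≤ R → ‖y‖ ≤ R → |G x - G y| ≤ K * ‖x - y‖) → LC1 v →
    Integrable (fun x => pd1 c G x * v x) ∧ Integrable (fun x => G x * pd1 c v x) ∧
    ∫ x, pd1 c G x * v x = - ∫ x, G x * pd1 c v x

/-- **H3 (divergence of `x/|x|`).**  `H2` with `G = x_c/√(|x|²+η²)`, sum over `c`: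
`Σ_c ∂_c G_c = 2/s + η²/s³`, `s = √(|x|²+η²)`; `η → 0` with dominated convergence (`1/|x|` is locally
integrable). -/
def S_div : Prop :=
  ∀ w : E3 → ℝ, LC1 w → Integrable (fun x => w x * ‖x‖⁻¹) ∧
    ∫ x, ∑ c, pd1 c w x * (x c / ‖x‖) = - ∫ x, 2 * w x * ‖x‖⁻¹

/-- **H4 (ground state representation).**  `g = f/ψ0`.  A.e.
`|∇f|² = ψ0²|∇g|² + ¼ f² - ½ ψ0² ∇(g²)·x/|x|`; `H3` with `w = f²`
(`∇(f²)·x/|x| = ψ0² ∇(g²)·x/|x| - f²`).  `‖fderiv‖² = Σ_c (∂_c)²` a.e. (Rademacher). -/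
def S_conv : Prop :=
  ∀ f : E3 → ℝ, LC1 f →
    LC1 (fun x => √(8 * Real.pi) * Real.exp (‖x‖ / 2) * f x) ∧
    (∫ x, f x ^ 2 = ∫ x, (√(8 * Real.pi) * Real.exp (‖x‖ / 2) * f x) ^ 2 ∂hm) ∧
    (∫ x, ‖fderiv ℝ f x‖ ^ 2 = ∫ x, ∑ c, pd1 c f x ^ 2) ∧
    Integrable (fun x => ∑ c, pd1 c f x ^ 2) ∧
    (∫ x, ∑ c, pd1 c f x ^ 2) =
      D1 (fun x => √(8 * Real.pi) * Real.exp (‖x‖ / 2) * f x)
        (fun x => √(8 * Real.pi) * Real.exp (‖x‖ / 2) * f x)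
      + (∫ x, f x ^ 2 * ‖x‖⁻¹) - 1 / 4 * ∫ x, f x ^ 2

/-- **H5 (soft spectral gap).**  (i) On the cube `Q = [-16,16]³`:
`∫_Q f² ≤ C (∫_Q |∇f|² + (∫_Q f)²)` (Poincaré: `f x - f y` telescoped over the coordinates, one
dimensional Cauchy-Schwarz).  (ii) Outside: `χ = 0` for `‖x‖ ≤ 8`, `χ = 1` for `‖x‖ ≥ 16`, `H3` with
`w = χ² f² e^{-|x|}`: `∫ χ² f² (1 - 2/|x|) dhm = ∫ ∇(χ²f²)·x/|x| dhm`, hence
`‖χf‖² ≤ 8 ‖∇(χf)‖² ≤ 16 (‖χ∇f‖² + ‖f∇χ‖²)` in `L²(hm)`.  So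
`∫ f² dhm ≤ C (D1 f f + (∫_Q f)²)`.  (iii) Apply it to `f - t ζ_n`, `t = ∫_Q f/|Q|`,
`ζ_n = zt n`, `n → ∞` (`D1 ζ_n ζ_n → 0`): `∫ (f-t)² dhm ≤ C D1 f f`, and
`∫ f² - (∫ f)² ≤ ∫ (f-t)²`. -/
def S_gap : Prop := ∃ g0 : ℝ, HGap g0

/-- **H6 (gap on odd functions).**  If `f` is odd under one coordinate reflection
`R_c : x_c ↦ -x_c`: `φ = x_c e^{|x|/4}` satisfies `-Δφ + ∂_rφ = (3/16) φ`; `η = f²/φ` is Lipschitz with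
compact support (`|f| ≤ K|x_c|`), `|∇f|² ≥ ∇φ·∇η` a.e. (where `x_c ≠ 0`), and
`D1 φ η = (3/16) ∫ φ η dhm = (3/16) ∫ f² dhm` by `H2` with `G = ∂_dφ e^{-|x|}/(8π)` (locally Lipschitz).
In general: `f = f1 + f2 + f3`, `f1` odd under `R_0`, `f2` even under `R_0` and odd under `R_1`, `f3`
even under `R_0, R_1`, hence odd under `R_2`; these are orthogonal for both forms. -/
def S_odd : Prop :=
  ∀ f : E3 → ℝ, LC1 f → (∀ x, f (-x) = - f x) → 3 / 16 * ∫ x, f x ^ 2 ∂hm ≤ D1 f f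

/-- **H7 (weak solutions, general).**  `D1 F v = ∫ κ v dhm` for `LC1` functions `v`, by `H2` with
`G = P_c e^{-|x|}/(8π)`; `D1 (F ζ) v = D1 F v - D1 (F(1-ζ)) v` and Cauchy-Schwarz,
`D1 (F(1-ζ)) (F(1-ζ)) ≤ C e^{-r/4}` by the tail bound of `H1` (the derivative of `zt r` is at most
`2/r`, supported in `r/2 ≤ ‖x‖ ≤ r`). -/
def S_wgen : Prop :=
  ∀ (F κ : E3 → ℝ) (P : Fin 3 → E3 → ℝ) (A : ℝ) (m : ℕ),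
    Measurable κ →
    (∀ R : ℝ, ∃ K : ℝ, ∀ x y, ‖x‖ ≤ R → ‖y‖ ≤ R → |F x - F y| ≤ K * ‖x - y‖) →
    (∀ c, ∀ R : ℝ, ∃ K : ℝ, ∀ x y, ‖x‖ ≤ R → ‖y‖ ≤ R → |P c x - P c y| ≤ K * ‖x - y‖) →
    (∀ x, x ≠ 0 → ∀ c, HasLineDerivAt ℝ F (P c x) x (ec c)) →
    (∀ x, |F x| ≤ A * (1 + ‖x‖) ^ m) → (∀ c x, |P c x| ≤ A * (1 + ‖x‖) ^ m) →
    (∀ x, |κ x| ≤ A * (1 + ‖x‖) ^ m) →
    (∀ x, x ≠ 0 → κ x = - (∑ c, pd1 c (P c) x) + ∑ c, x c / ‖x‖ * P c x) →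
    ∃ C : ℝ, WSol F κ C

/-- **H8 (weak solutions, list).**  `H7`; for homogeneous harmonic `q` of degree `L`:
`-Δ(q|x|^k) + ∂_r(q|x|^k) = q(-k(k+2L+1)|x|^{k-2} + (k+L)|x|^{k-1})`. -/
def S_wlist : Prop :=
  ∃ C : ℝ, WSol (fun _ => 1) (fun _ => 0) C ∧
    (∀ c : Fin 3, WSol (fun x => x c) (fun x => x c / ‖x‖) C) ∧
    (∀ c : Fin 3, WSol (fun x => x c * ‖x‖) (fun x => x c * (2 - 4 / ‖x‖)) C) ∧
    WSol (th 1) (hh 1) C ∧ WSol (th 2) (hh 2) C ∧ WSol (th 3) (hh 3) C ∧ WSol (th 4) (hh 4) C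

/-- **H9 (Newton).**  `κ(t) = k(t) e^{-t}/(8π)` for `t ≤ r`, `0` otherwise;
`K(x) = -∫_{‖x‖}^∞ s κ(s) ds` (Lipschitz, support in the ball `r`), `∇K = x κ(‖x‖)` a.e.
`A(t) = ∫ κ(‖y‖)/‖B+ty‖ dy`, `A'(t) = ∫ ∇G(ty)·∇K(y) dy = - t ∫ (ΔG)(ty) K(y) dy = 0`,
`G(v) = 1/‖B+v‖` harmonic off `-B`.  Second: `y_0 κ(‖y‖) = ∂_0 K`, integrate by parts, and the same
argument for `∂_0 G`; `-∫K = ∫ y_0 ∂_0K = ∫ y_0² κ`. -/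
def S_newton : Prop :=
  ∀ (r : ℝ) (B : E3) (k : ℝ → ℝ), 0 < r → r < ‖B‖ → Continuous k →
    (∫ y, (if ‖y‖ ≤ r then k ‖y‖ else 0) * ‖B + y‖⁻¹ ∂hm =
      ‖B‖⁻¹ * ∫ y, (if ‖y‖ ≤ r then k ‖y‖ else 0) ∂hm) ∧
    (∫ y, (if ‖y‖ ≤ r then k ‖y‖ * y 0 else 0) * ‖B + y‖⁻¹ ∂hm =
      -(B 0 / ‖B‖ ^ 3) * ∫ y, (if ‖y‖ ≤ r then k ‖y‖ * y 0 ^ 2 else 0) ∂hm)

/-- **H10 (angular averages).**  Invariance of `hm` under coordinate permutations, reflections and the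
rotation by 45° in the plane `(0,1)`. -/
def S_ang : Prop :=
  ∀ f : ℝ → ℝ,
    (Integrable (fun x : E3 => ‖x‖ ^ 2 * f ‖x‖) hm →
      ∀ c d : Fin 3, Integrable (fun x : E3 => x c * x d * f ‖x‖) hm ∧
        ∫ x, x c * x d * f ‖x‖ ∂hm = if c = d then (∫ x, ‖x‖ ^ 2 * f ‖x‖ ∂hm) / 3 else 0) ∧
    (Integrable (fun x : E3 => ‖x‖ ^ 4 * f ‖x‖) hm →
      Integrable (fun x : E3 => x 0 ^ 4 * f ‖x‖) hm ∧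
        ∫ x, x 0 ^ 4 * f ‖x‖ ∂hm = (∫ x, ‖x‖ ^ 4 * f ‖x‖ ∂hm) / 5 ∧
        ∫ x, hh 2 x * f ‖x‖ ∂hm = 0) ∧
    (Integrable (fun x : E3 => ‖x‖ ^ 6 * f ‖x‖) hm →
      Integrable (fun x : E3 => x 0 ^ 6 * f ‖x‖) hm ∧
        ∫ x, x 0 ^ 6 * f ‖x‖ ∂hm = (∫ x, ‖x‖ ^ 6 * f ‖x‖ ∂hm) / 7)

/-- **H11 (harmonics have mean zero).**  For `L = 1..4` and radial weights. -/
def S_harm0 : Prop :=
  ∀ (L : ℕ) (f : ℝ → ℝ), 1 ≤ L → L ≤ 4 → Integrable (fun x : E3 => ‖x‖ ^ L * f ‖x‖) hm →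
    Integrable (fun x : E3 => hh L x * f ‖x‖) hm ∧ ∫ x, hh L x * f ‖x‖ ∂hm = 0

/-! ## 2. three particles: calculus -/

/-- **P1 (product measure, slices).**  The map in (b) has the right image because `hm` is a
probability measure (check on boxes). -/
def S_prod : Prop :=
  IsProbabilityMeasure pm ∧
  (∀ j, MeasurePreserving (fun p : X3 × E3 => Function.update p.1 j p.2) (pm.prod hm) pm) ∧
  (∀ j (f : X3 → ℝ), Integrable f pm →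
    (∀ᵐ x ∂pm, Integrable (sl j x f) hm) ∧ Integrable (Pj j f) pm ∧
    ∫ x, Pj j f x ∂pm = ∫ x, f x ∂pm) ∧
  (∀ f : Fin 3 → E3 → ℝ, ∫ x : X3, ∏ j, f j (x j) ∂pm = ∏ j, ∫ y, f j y ∂hm) ∧
  (∀ j c (f : X3 → ℝ) x y, pd j c f (Function.update x j y) = pd1 c (sl j x f) y) ∧
  (∀ j k (f : X3 → ℝ), Integrable f pm → j ≠ k →
    (∀ᵐ x ∂pm, Pj j (Pj k f) x = Pj k (Pj j f) x))

/-- **P2 (bounded Lipschitz functions).**  Rademacher on `X3`, `measurable_lineDeriv`,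
`norm_lineDeriv_le_of_lipschitz`. -/
def S_bl : Prop :=
  (∀ f g : X3 → ℝ, BL f → BL g → BL (fun x => f x + g x) ∧ BL (fun x => f x - g x) ∧
    BL (fun x => f x * g x)) ∧ (∀ c : ℝ, BL (fun _ => c)) ∧
  (∀ f : X3 → ℝ, BL f → Measurable f ∧ Integrable f pm ∧ Integrable (fun x => f x ^ 2) pm ∧
    (∀ j c, Measurable (pd j c f) ∧ ∃ K : ℝ, ∀ x, |pd j c f x| ≤ K) ∧
    (∀ j c, ∀ᵐ x ∂pm, LineDifferentiableAt ℝ f x (Pi.single j (ec c)))) ∧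
  (∀ (S : Finset (Fin 3)) (r : ℝ) (f : X3 → ℝ), Box S r f → 0 < r → S.Nonempty → BL f) ∧
  (∀ (S : Finset (Fin 3)) (r : ℝ) (f g : X3 → ℝ) (c : ℝ), Box S r f → Box S r g →
    Box S r (fun x => f x + g x) ∧ Box S r (fun x => f x - g x) ∧ Box S r (fun x => c * f x)) ∧
  (∀ (F : E3 → ℝ) (j : Fin 3), LC1 F → BL (fun x : X3 => F (x j)))

/-- **P3 (the form).**  Bilinearity, symmetry, Cauchy-Schwarz, slices, product rule. -/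
def S_form : Prop :=
  (∀ j (f g h : X3 → ℝ), BL f → BL g → BL h → ∀ c : ℝ,
    Dj j f g = Dj j g f ∧ 0 ≤ Dj j f f ∧
    Dj j (fun x => f x + g x) h = Dj j f h + Dj j g h ∧
    Dj j (fun x => f x - g x) h = Dj j f h - Dj j g h ∧
    Dj j (fun x => c * f x) g = c * Dj j f g ∧
    |Dj j f g| ≤ √(Dj j f f) * √(Dj j g g)) ∧
  (∀ f g : X3 → ℝ, BL f → BL g → |DD f g| ≤ √(DD f f) * √(DD g g)) ∧
  (∀ f g : X3 → ℝ, BL f → BL g → |ip f g| ≤ √(ip f f) * √(ip g g)) ∧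
  (∀ j (f g : X3 → ℝ), BL f → BL g →
    Integrable (fun x => D1 (sl j x f) (sl j x g)) pm ∧
    Dj j f g = ∫ x, D1 (sl j x f) (sl j x g) ∂pm) ∧
  (∀ w f : X3 → ℝ, BL w → BL f →
    DD f (fun x => w x ^ 2 * f x) = DD (fun x => w x * f x) (fun x => w x * f x)
      - ∫ x, (∑ j, ∑ c, pd j c w x ^ 2) * f x ^ 2 ∂pm) ∧
  (∀ j (w f g : X3 → ℝ), BL w → BL f → BL g → (∀ x y, w (Function.update x j y) = w x) →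
    Dj j (fun x => w x * f x) g = ∑ c, ∫ x, w x * (pd j c f x * pd j c g x) ∂pm)

/-- **P4 (symmetries).**  `lineDeriv` in the direction `-v`. -/
def S_sym : Prop :=
  ∀ (σ : Equiv.Perm (Fin 3)) (s : Fin 3 → Fin 3 → ℝ), (∀ j c, s j c = 1 ∨ s j c = -1) →
    MeasurePreserving (sgT σ s) pm pm ∧
    (∀ f, BL f → BL (fun x => f (sgT σ s x))) ∧
    (∀ f g, BL f → BL g → DD (fun x => f (sgT σ s x)) (fun x => g (sgT σ s x)) = DD f g) ∧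
    (∀ f, BL f → ∀ j, Dj (σ j) (fun x => f (sgT σ s x)) (fun x => f (sgT σ s x)) =
      Dj j f f)

/-- **P5 (gap for three particles).**  Slices and `HGap`; the last line by
`1 - P_0P_1P_2 ≤ Σ (1 - P_j)` (`‖f‖² - ‖P_jf‖² = ‖f - P_jf‖²`, the `P_j` commute); for `j ∉ S`
`P_j f = f`. -/
def S_pgap : Prop :=
  ∀ g0 : ℝ, HGap g0 → ∀ (S : Finset (Fin 3)) (r : ℝ) (f : X3 → ℝ), 0 < r → S.Nonempty → Box S r f →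
    (∀ j, g0 * ∫ x, (f x - Pj j f x) ^ 2 ∂pm ≤ Dj j f f) ∧
    g0 * (ip f f - (∫ x, f x ∂pm) ^ 2) ≤ DD f f ∧
    (∀ j ∈ S, (∀ x, f (Function.update x j (-x j)) = - f x) → 3 / 16 * ip f f ≤ Dj j f f)

/-- **P6 (averaging out the third variable).**  `P_2` of a Lipschitz function of bounded support is
Lipschitz; for a.e. `x` the line derivative of `P_2 f` is `P_2` of the line derivative (dominated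
convergence for the difference quotients); `∫ (P_2 F) G = ∫ F G` if `G` does not depend on `x_2`. -/
def S_comm : Prop :=
  ∀ (r : ℝ) (f : X3 → ℝ), 0 < r → Box S3 r f →
    Box S2 r (Pj 2 f) ∧ (∀ ψ : X3 → ℝ, Box S2 r ψ → DD (Pj 2 f) ψ = DD f ψ) ∧
    (∀ G : X3 → ℝ, BL G → (∀ x y, G (Function.update x 2 y) = G x) → ip (Pj 2 f) G = ip f G)

/-- **P7 (weak solutions in one variable).**  Slices, `WSol.weak`, Cauchy-Schwarz. -/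
def S_lift : Prop :=
  ∀ (F κ : E3 → ℝ) (C : ℝ), WSol F κ C → ∀ (r : ℝ) (S : Finset (Fin 3)) (j : Fin 3)
    (φ v : X3 → ℝ), 1 ≤ r → BL φ → (∀ x y, φ (Function.update x j y) = φ x) → Box S r v → j ∈ S →
    BL (fun x => φ x * (F (x j) * zt r (x j))) ∧
    |Dj j (fun x => φ x * (F (x j) * zt r (x j))) v - ∫ x, φ x * κ (x j) * v x ∂pm| ≤
      C * Real.exp (-r / 8) * √(ip φ φ) * √(Dj j v v)

/-! ## 3. the variational problems -/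

/-- **V1 (near minimisers).**  `(d)`: Cauchy-Schwarz for the nonnegative form
`BB U v v - EE · ip v v`. -/
def S_var : Prop :=
  ∀ (S : Finset (Fin 3)) (r : ℝ) (U : X3 → ℝ), S.Nonempty → 1 ≤ r → Measurable U →
    (∀ x, |U x| ≤ 1) →
    -1 ≤ EE S r U ∧
    (∀ f, Box S r f → EE S r U * ip f f ≤ BB U f f) ∧
    (∀ ε : ℝ, 0 < ε → ∃ f, Box S r f ∧ ip f f = 1 ∧ BB U f f ≤ EE S r U + ε) ∧
    (∀ (η : ℝ) (φ v : X3 → ℝ), 0 ≤ η → Box S r φ → ip φ φ = 1 → BB U φ φ ≤ EE S r U + η →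
      Box S r v → |BB U φ v - EE S r U * ip φ v| ≤ √η * √(DD v v + 2 * ip v v))

/-- the product of the cut-offs of the variables in `S` -/
def ZS (S : Finset (Fin 3)) (r : ℝ) (x : X3) : ℝ := ∏ j ∈ S, zt r (x j)

/-- **V2 (a priori bounds).**  Trial function `ZS S r` (its form is `≤ C e^{-r/4}`): upper bound for
`EE`.  For a near minimiser `φ`, `c = ∫ φ`: `∫ U φ² = 2c ∫ U(φ-c) + ∫ U (φ-c)²` because `∫ U = 0`;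
`g0 ‖φ - c‖² ≤ DD φ φ ≤ EE + e^{-r} + 2M‖φ-c‖ + M‖φ-c‖²`. -/
def S_apri : Prop :=
  ∀ g0 : ℝ, HGap g0 → ∃ C M0 r0 : ℝ, 1 ≤ C ∧ 0 < M0 ∧ 1 ≤ r0 ∧
    ∀ (S : Finset (Fin 3)) (r M : ℝ) (U : X3 → ℝ), S.Nonempty → r0 ≤ r → 0 ≤ M → M ≤ M0 →
      Measurable U → (∀ x, |U x| ≤ M) → ∫ x, U x ∂pm = 0 → ∫ x, U x * ZS S r x ^ 2 ∂pm = 0 →
      |EE S r U| ≤ C * (M ^ 2 + Real.exp (-r / 4)) ∧
      (∀ φ, NM S r U φ → 1 - (∫ x, φ x ∂pm) ^ 2 ≤ C * (M ^ 2 + Real.exp (-r / 4)) ∧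
        DD φ φ ≤ C * (M ^ 2 + Real.exp (-r / 4)))

/-- **V3 (uniqueness, gap above a near minimiser).**  For `w ∈ Box`, `w ⊥ φ`:
`(∫ w)² = ⟨1 - cφ, w⟩² ≤ (1/16) ip w w` (`c = ∫ φ`, `‖1 - cφ‖² = 1 - c²`), so
`BB U w w - EE ip w w ≥ (15/16 g0 - M - |EE|) ip w w ≥ (g0/2) ip w w`; general `f = tφ + w` by the
triangle inequality for the seminorm `√(BB - EE ip)`:
`(g0/2) ‖w‖² ≤ 2 Q(f) + 2 t² e^{-r}`. -/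
def S_uniq : Prop :=
  ∀ g0 : ℝ, HGap g0 → ∃ M0 r0 : ℝ, 0 < M0 ∧ 1 ≤ r0 ∧
    ∀ (S : Finset (Fin 3)) (r M : ℝ) (U : X3 → ℝ), S.Nonempty → r0 ≤ r → 0 ≤ M → M ≤ M0 →
      Measurable U → (∀ x, |U x| ≤ M) → ∫ x, U x ∂pm = 0 → ∫ x, U x * ZS S r x ^ 2 ∂pm = 0 →
      ∀ φ f, NM S r U φ → Box S r f →
        g0 / 4 * (ip f f - ip φ f ^ 2) - Real.exp (-r) * ip f f ≤ BB U f f - EE S r U * ip f f

/-! ## 4. the potentials -/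

/-- **U1 (expansion of the pair potential).**  `1/‖b e + v‖ = b⁻¹ (1+t)^{-1/2}`,
`t = 2v_0/b + ‖v‖²/b²`, `|(1+t)^{-1/2} - (1 - t/2 + 3t²/8)| ≤ C|t|³`. -/
def S_pv : Prop :=
  ∃ C : ℝ, 1 ≤ C ∧ ∀ (b : ℝ) (x y : E3), 0 < b → ‖x‖ ≤ b / 8 → ‖y‖ ≤ b / 8 →
    |pv (b • ec 0) x y - dd x y / b ^ 3| ≤ C * (‖x‖ + ‖y‖) ^ 3 / b ^ 4 ∧
    |dd x y| ≤ 2 * ‖x‖ * ‖y‖

/-- **U2 (bounds for `V12`, `W3`).**  `U1`; for the odd part of `W3`: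
`pv((l+a/2)e)(x_0,x_2) + pv((l-a/2)e)(x_1,x_2)` minus the same at `piv x`; the leading terms are
`dd(x_0,x_2)[(l+a/2)^{-3} - (l-a/2)^{-3}] + dd(x_1,x_2)[(l-a/2)^{-3} - (l+a/2)^{-3}]`. -/
def S_bounds : Prop :=
  ∃ C : ℝ, 1 ≤ C ∧ ∀ r a l : ℝ, 1 ≤ r → 8 * r ≤ a → 2 * a ≤ l →
    Measurable (V12 r a) ∧ Measurable (W3 r a l) ∧
    (∀ x, |V12 r a x| ≤ C * r ^ 2 / a ^ 3) ∧
    (∀ x : X3, ‖x 0‖ ≤ r → ‖x 1‖ ≤ r →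
      |V12 r a x - dd (x 0) (x 1) / a ^ 3| ≤ C * r ^ 3 / a ^ 4) ∧
    (∀ x, |W3 r a l x| ≤ C * r ^ 2 / l ^ 3) ∧
    (∀ x, |W3 r a l x - W3 r a l (piv x)| ≤ C * r ^ 2 * a / l ^ 4)

/-- **U3 (averages of the potentials).**  `H9` (Newton) with `B = b - x` and `B = b`. -/
def S_avg : Prop :=
  ∀ r a l : ℝ, 1 ≤ r → 8 * r ≤ a → 2 * a ≤ l →
    (∀ (k : ℝ → ℝ) (x : X3) (j : Fin 3), Continuous k → (j = 0 ∨ j = 1) →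
      ∫ y, k ‖y‖ * V12 r a (Function.update x j y) ∂hm = 0) ∧
    (∀ (k : ℝ → ℝ) (x : X3), Continuous k →
      ∫ y, k ‖y‖ * W3 r a l (Function.update x 2 y) ∂hm = 0) ∧
    (∀ (k : ℝ → ℝ) (x : X3), Continuous k → ‖x 0‖ ≤ r → ‖x 1‖ ≤ r →
      ∫ y, k ‖y‖ * y 0 * W3 r a l (Function.update x 2 y) ∂hm =
        -(((l + a / 2 - x 0 0) / ‖(l + a / 2) • ec 0 - x 0‖ ^ 3 - 1 / (l + a / 2) ^ 2)
          + ((l - a / 2 - x 1 0) / ‖(l - a / 2) • ec 0 - x 1‖ ^ 3 - 1 / (l - a / 2) ^ 2))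
        * ∫ y, (if ‖y‖ ≤ r then k ‖y‖ * y 0 ^ 2 else 0) ∂hm) ∧
    (∫ x, V12 r a x ∂pm = 0) ∧ (∫ x, U3 r a l x ∂pm = 0) ∧
    (∫ x, V12 r a x * ZS S2 r x ^ 2 ∂pm = 0) ∧ (∫ x, U3 r a l x * ZS S3 r x ^ 2 ∂pm = 0)

/-- **U4 (multipole expansion of the field).**  `s = X/l`, `u = -2s_0 + ‖s‖²`, `|u| ≤ 9/16`,
`(1-s_0)(1+u)^{-3/2}`, Taylor polynomial of degree 5 in `u` (remainder `≤ C|u|⁶`); the even part in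
`s` is `1 + 3 hh_2(s) + 5 hh_4(s)` plus monomials of degree `≥ 6`. -/
def S_field : Prop :=
  ∃ C : ℝ, 1 ≤ C ∧ ∀ (l : ℝ) (X : E3), 0 < l → ‖X‖ ≤ l / 4 →
    |(1 / 2) * ((l - X 0) / ‖l • ec 0 - X‖ ^ 3 + (l + X 0) / ‖l • ec 0 + X‖ ^ 3)
      - (1 / l ^ 2 + 3 * hh 2 X / l ^ 4 + 5 * hh 4 X / l ^ 6)| ≤ C * ‖X‖ ^ 6 / l ^ 8

/-- **U5 (symmetries of the potentials).** -/
def S_potsym : Prop :=
  ∀ r a l : ℝ, (∀ x, V12 r a (piv x) = V12 r a x) ∧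
    (∀ x y, V12 r a (Function.update x 2 y) = V12 r a x) ∧
    (∀ (c : Fin 3), c ≠ 0 → ∀ x,
      U3 r a l (sgT (Equiv.refl _) (fun _ d => if d = c then -1 else 1) x) = U3 r a l x)

/-! ## 5. the pair -/

/-- **D1 (weak equation of the trial function).**  `chi ζζ = Σ_c w_c [½ X_c Y_c + (1/6)(R_c Y_c + X_c R_c')]`
with `X_c = x_c ζ` of the variable 0, `R_c = x_c|x|ζ`, `Y_c, R_c'` the same of the variable 1,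
`w = (-2,1,1)`; `P7` with the list `H8`, in both variables. -/
def S_chi : Prop :=
  ∃ C : ℝ, 1 ≤ C ∧ ∀ r : ℝ, 1 ≤ r → Box S2 r (chir r) ∧ DD (chir r) (chir r) ≤ C ∧
    ∀ v, Box S2 r v →
      |DD (chir r) v - ∫ x, (dd (x 0) (x 1) + rho x) * v x ∂pm| ≤
        C * Real.exp (-r / 8) * √(DD v v + ip v v)

/-- **D2 (the numbers).**  Angular averages `H10` and moments `H1`:
`∫ hh_2(x_0) dd² F(|x_0|,|x_1|) = (2/15) E[r_0⁴ r_1² F]`, `∫ dd² F = (2/3) E[r_0² r_1² F]`,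
`∫ hh_2² dd² F = (6/35) E[r_0⁶ r_1² F]`. -/
def S_num : Prop :=
  Integrable (fun x => chi x ^ 2) pm ∧ Integrable (fun x => rho x ^ 2) pm ∧
  Integrable (fun x : X3 => ‖x 0‖ ^ 2 * rho x ^ 2) pm ∧ Integrable (fun x => kap x ^ 2) pm ∧
  (∫ x, hh 2 (x 0) * chi x ^ 2 ∂pm) + 2 * (∫ x, dd (x 0) (x 1) * th 2 (x 0) * chi x ∂pm) = 13840 ∧
  (∫ x, rho x ^ 2 ∂pm = 5 / 3) ∧ (∫ x, ‖x 0‖ ^ 2 * rho x ^ 2 ∂pm = 208 / 3) ∧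
  (∫ x, kap x ^ 2 ∂pm = 2035584)

/-- **D3 (moments of harmonics are second order).**  `c = ∫ φ`.
`∫ q_j φ² = 2c ∫ q_j φ + ∫ q_j (φ-c)²` (`∫ q_j = 0`); the second term is
`≤ r^L ‖φ-c‖² + C e^{-r/4}`.  `∫ q_j φ = Dj j (θζ(x_j)) φ + O(e^{-r/8})` (`P7`), and with the test
function `v = θζ(x_j) ζ(x_k)`, `{j,k} = {0,1}`:
`DD φ v = EE ip φ v - ∫ V12 φ v + O(e^{-r/2})`, `∫ V12 v = 0` (average over `x_k`), `∫ v = 0`,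
so `∫ q_j φ = O(M‖φ-c‖ + |EE| ‖φ-c‖ + e^{-r/8})`. -/
def S_momL : Prop :=
  ∀ g0 : ℝ, HGap g0 → ∃ C r0 : ℝ, 1 ≤ C ∧ 1 ≤ r0 ∧ ∀ (r a : ℝ) (φ : X3 → ℝ) (L : ℕ) (j : Fin 3),
    r0 ≤ r → r ^ 4 ≤ a → NM S2 r (V12 r a) φ → 1 ≤ L → L ≤ 4 → (j = 0 ∨ j = 1) →
    |∫ x, hh L (x j) * φ x ^ 2 ∂pm| ≤ C * r ^ 8 * (1 / a ^ 6 + Real.exp (-r / 8))

/-- odd-odd part in the variables 0 and 1 -/
def oo (f : X3 → ℝ) (x : X3) : ℝ :=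
  (f x - f (Function.update x 0 (-x 0)) - f (Function.update x 1 (-x 1))
    + f (Function.update (Function.update x 0 (-x 0)) 1 (-x 1))) / 4

/-- **D4 (parity decomposition of a near minimiser of the pair).**  `c = ∫ φ`.
(a) `τ = φ - oo φ` has no odd-odd part, `∫ τ = c`; test function `v = τ - c ζζ`:
`g0 ‖τ-c‖² ≤ DD τ τ`, `DD τ v = DD φ v = EE ip φ v - ∫ V12 φ v + O(e^{-r/2})`,
`∫ V12 v = ∫ (V12 - dd/a³) v` because `∫ dd v = 0`.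
(b) `Δ = oo φ + (c/a³) chir`: for odd-odd `v`: `DD (oo φ) v = DD φ v = EE ip φ v - c∫V12 v -
∫V12(φ-c)v + ...` and `D1`. -/
def S_par : Prop :=
  ∀ g0 : ℝ, HGap g0 → ∃ C r0 : ℝ, 1 ≤ C ∧ 1 ≤ r0 ∧ ∀ (r a : ℝ) (φ : X3 → ℝ),
    r0 ≤ r → r ^ 4 ≤ a → NM S2 r (V12 r a) φ →
    Box S2 r (oo φ) ∧
    (∫ x, (φ x - oo φ x - ∫ z, φ z ∂pm) ^ 2 ∂pm ≤ C * (r ^ 6 / a ^ 8 + Real.exp (-r / 8))) ∧
    (∀ v, Box S2 r v → (∀ x, v (Function.update x 0 (-x 0)) = - v x) →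
      (∀ x, v (Function.update x 1 (-x 1)) = - v x) →
      |DD (fun x => oo φ x + (∫ z, φ z ∂pm) / a ^ 3 * chir r x) v
        - (∫ z, φ z ∂pm) / a ^ 3 * ∫ x, rho x * v x ∂pm| ≤
        C * (r ^ 3 / a ^ 4 * √(ip v v) + Real.exp (-r / 8) * √(DD v v + ip v v)))

/-- **D5 (the error of the trial function).**  `Δ` as in `D4`, `c = ∫ φ`, `|c| ≤ 1`.
Test with `Δ`: `(3/8) ip Δ Δ ≤ DD Δ Δ` (`P5`, odd in both variables), `‖rho‖² = 5/3`.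
Test with `w²Δ`, `w = min ‖x_0‖ r`: `DD Δ (w²Δ) = DD (wΔ)(wΔ) - ∫|∇w|²Δ²`,
`(3/8) y² ≤ ‖Δ‖² + (|c|/a³) √(208/3) y + ...` for `y = ‖wΔ‖`. -/
def S_err : Prop :=
  ∀ g0 : ℝ, HGap g0 → ∃ C r0 : ℝ, 1 ≤ C ∧ 1 ≤ r0 ∧ ∀ (r a : ℝ) (φ : X3 → ℝ),
    r0 ≤ r → r ^ 4 ≤ a → NM S2 r (V12 r a) φ →
    (√(∫ x, (oo φ x + (∫ z, φ z ∂pm) / a ^ 3 * chir r x) ^ 2 ∂pm) ≤
      3.4427 * |∫ z, φ z ∂pm| / a ^ 3 + C * r ^ 4 * (1 / a ^ 4 + Real.exp (-r / 16))) ∧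
    (√(∫ x, ‖x 0‖ ^ 2 * (oo φ x + (∫ z, φ z ∂pm) / a ^ 3 * chir r x) ^ 2 ∂pm) ≤
      23.55 * |∫ z, φ z ∂pm| / a ^ 3 + C * r ^ 4 * (1 / a ^ 4 + Real.exp (-r / 16)))

/-- **D6 (the dispersion quadrupole is positive).**  `c = ∫ φ`, `q = hh_2(x_0)`, `θ = th_2(x_0)`.
`∫ q φ² = 2c ∫ q φ + ∫ q (φ-c)²`,
`∫ q φ = -∫ V12 φ θζζ + ... = -a⁻³ ∫ dd θζζ (oo φ) + ...
       = c a⁻⁶ ∫ dd θ chi - a⁻³ ∫ dd θζζ Δ + ...`,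
`∫ q(φ-c)² = ∫ q (oo φ)² + ∫ q (φ - oo φ - c)²`, `oo φ = Δ - (c/a³) chir`.  Sum:
`c² a⁻⁶ · 13840 - 2c a⁻³ ∫ kap Δ + ∫ q Δ²`, `q ≥ -‖x_0‖²/2`, `‖kap‖ ≤ 1426.75`, `D5`:
`13840 - 2·1426.75·3.4427 - 23.55²/2 > 3738`, `c² ≥ 1 - ...`.  The variable 1: apply the result to
`φ ∘ piv`. -/
def S_Q : Prop :=
  ∀ g0 : ℝ, HGap g0 → ∃ C r0 : ℝ, 1 ≤ C ∧ 1 ≤ r0 ∧ ∀ (r a : ℝ) (φ : X3 → ℝ) (j : Fin 3),
    r0 ≤ r → r ^ 4 ≤ a → NM S2 r (V12 r a) φ → (j = 0 ∨ j = 1) →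
    3700 / a ^ 6 - C * r ^ 10 * (1 / a ^ 7 + Real.exp (-r / 16)) ≤
      ∫ x, hh 2 (x j) * φ x ^ 2 ∂pm

/-- **D7 (the multipoles of the pair).**  With `Z = ∓a/2`:
`hh_2(Ze+u) - hh_2(Ze) = 2Z hh_1 + hh_2`, `hh_4(Ze+u) - hh_4(Ze) = 4Z³hh_1 + 6Z²hh_2 + 4Z hh_3 + hh_4`
(arguments `u`), so `M_2 - (2/a²) M_4 = Σ_j [-2 ∫hh_2 φ² - (8Z_j/a²) ∫hh_3 φ² - (2/a²)∫hh_4 φ²]`;
`D3`, `D6`.  Bounds: `|M_2| ≤ 2a·C r⁸(...)` etc. by `D3`. -/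
def S_Mh : Prop :=
  ∀ g0 : ℝ, HGap g0 → ∃ C r0 : ℝ, 1 ≤ C ∧ 1 ≤ r0 ∧ ∀ (r a : ℝ) (φ : X3 → ℝ),
    r0 ≤ r → r ^ 4 ≤ a → NM S2 r (V12 r a) φ →
    ML a 2 φ - 2 / a ^ 2 * ML a 4 φ ≤
      -14000 / a ^ 6 + C * r ^ 10 * (1 / a ^ 7 + Real.exp (-r / 16)) ∧
    |ML a 2 φ| ≤ C * a * r ^ 8 * (1 / a ^ 6 + Real.exp (-r / 8)) ∧
    |ML a 4 φ| ≤ C * a ^ 3 * r ^ 8 * (1 / a ^ 6 + Real.exp (-r / 8))

/-- **D8 (symmetric near minimisers of the pair).**  Take `φ'` with excess `e^{-2r}` (`V1`),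
`φ' = φ_e + φ_o`, parts under `piv`; `∫ φ_o = 0` so `BB φ_o φ_o - EE ip φ_o φ_o ≥ (g0/2) ip φ_o φ_o`,
hence `ip φ_o φ_o ≤ 2e^{-2r}/g0`; normalise `φ_e`. -/
def S_even : Prop :=
  ∀ g0 : ℝ, HGap g0 → ∃ r0 : ℝ, 1 ≤ r0 ∧ ∀ r a : ℝ, r0 ≤ r → r ^ 4 ≤ a →
    ∃ φ, NM S2 r (V12 r a) φ ∧ ∀ x, φ (piv x) = φ x

/-! ## 6. the third atom -/

/-- **E1 (gap for pair + atom).**  For fixed `x_2` the slice is in `Box S2`: `V3` for the pair;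
`P5` for the variable 2; `‖f - P_2 f‖² ≥ ∫ (F - ∫F)²`, `F(x_2) = ⟨φ, f(·,x_2)⟩`. -/
def S_gapA : Prop :=
  ∀ g0 : ℝ, HGap g0 → ∃ r0 : ℝ, 1 ≤ r0 ∧ ∀ (r a : ℝ) (φ f : X3 → ℝ), r0 ≤ r → r ^ 4 ≤ a →
    NM S2 r (V12 r a) φ → Box S3 r f →
    g0 / 4 * (ip f f - ip φ f ^ 2) - Real.exp (-r) * ip f f ≤
      BB (V12 r a) f f - EE S2 r (V12 r a) * ip f f

/-- **E2 (weak equation of the pair with a spectator).**  Slices in the variable 2, `V1`,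
Cauchy-Schwarz. -/
def S_weakA : Prop :=
  ∀ (r a : ℝ) (φ v : X3 → ℝ) (θ : E3 → ℝ), 1 ≤ r → (∀ x, |V12 r a x| ≤ 1) →
    Measurable (V12 r a) → (∀ x y, V12 r a (Function.update x 2 y) = V12 r a x) →
    NM S2 r (V12 r a) φ → LC1 θ → Box S3 r v →
    |Dj 0 (fun x => φ x * θ (x 2)) v + Dj 1 (fun x => φ x * θ (x 2)) v
      + (∫ x, V12 r a x * (φ x * θ (x 2)) * v x ∂pm)
      - EE S2 r (V12 r a) * ip (fun x => φ x * θ (x 2)) v| ≤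
      Real.exp (-r / 2) * √(∫ y, θ y ^ 2 ∂hm) * √(DD v v + 2 * ip v v)

/-- odd part under `piv` -/
def pod (f : X3 → ℝ) (x : X3) : ℝ := (f x - f (piv x)) / 2

/-- **E3 (a priori bounds).**  `c = ip φ g`, `EE3 = EE S3 r U3`, `EE2 = EE S2 r V12`,
`A(f,v) = BB V12 f v - EE2 ip f v`.  Upper bound `EE3 ≤ EE2 + C e^{-r/4}`: trial function
`φ ζ(x_2)` (Newton: the `W3` term vanishes).  `∫W3 g² = 2c∫W3 φ w + ∫W3 w²`, `w = g - cφ` (Newton),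
so `E1` gives `‖w‖² ≤ C(M² + e^{-r/8})`, `M = C r²/l³`, and `A(g,g)`, `|EE3 - EE2|` likewise.
Odd part: `A(g_o,v) = (EE3-EE2) ip g_o v - ∫(W_o g_e + W_e g_o) v + O(e^{-r/2})` for odd `v ∈ Box S3`,
tested with `v = g_o` (`ip φ g_o = 0`). -/
def S_E3 : Prop :=
  ∀ g0 : ℝ, HGap g0 → ∃ C r0 : ℝ, 1 ≤ C ∧ 1 ≤ r0 ∧ ∀ (r a l : ℝ) (φ g : X3 → ℝ),
    r0 ≤ r → r ^ 4 ≤ a → a ^ 6 ≤ l → NM S2 r (V12 r a) φ → (∀ x, φ (piv x) = φ x) →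
    NM S3 r (U3 r a l) g →
    |EE S3 r (U3 r a l) - EE S2 r (V12 r a)| ≤ C * (r ^ 4 / l ^ 6 + Real.exp (-r / 8)) ∧
    1 - ip φ g ^ 2 ≤ C * (r ^ 4 / l ^ 6 + Real.exp (-r / 8)) ∧
    Box S3 r (pod g) ∧ DD g g ≤ C ∧ DD (pod g) (pod g) ≤ C ∧
    ip (pod g) (pod g) ≤ C * (r ^ 4 * a ^ 2 / l ^ 8 + Real.exp (-r / 8))

/-- **E4 (the polarised third atom).**  Test function `v = φ θζ(x_2)`, `θ = th_1`: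
`∫ φ x_{2,0} g_o = Dj 2 (φθζ) g_o + O(e^{-r/8})` (`P7`) `= A(φθζ, g_o) + O(e^{-r/2})` (`E2`)
`= (EE3-EE2) ip g_o v - ∫ (W_o g_e + W_e g_o) φθζ + O(e^{-r/2})`
`= -c ∫ W3 φ² θζ(x_2) + O(r⁵ a/l⁷ + ...)`; `U3`: `k = (2 + ‖y‖/2) zt`, `∫ y_0² k dhm = 18 + O(e^{-r/8})`;
`U4` with `X = ∓(a/2)e + x_j`; `piv`-invariance of `φ²` kills the odd part of the field. -/
def S_E4 : Prop :=
  ∀ g0 : ℝ, HGap g0 → ∃ C r0 : ℝ, 1 ≤ C ∧ 1 ≤ r0 ∧ ∀ (r a l : ℝ) (φ g : X3 → ℝ),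
    r0 ≤ r → r ^ 4 ≤ a → a ^ 6 ≤ l → NM S2 r (V12 r a) φ → (∀ x, φ (piv x) = φ x) →
    NM S3 r (U3 r a l) g →
    |(∫ x, φ x * x 2 0 * pod g x ∂pm)
      - 18 * ip φ g * (3 * ML a 2 φ / l ^ 4 + 5 * ML a 4 φ / l ^ 6)| ≤
      C * r ^ 8 * (a / l ^ 7 + Real.exp (-r / 16))

/-- **E5 (the pair is not polarised).**  `η = P_2(g_o ζ(x_2)) ∈ Box S2` (`P6`), odd under `piv`;
`∫ φ (x_{0,0}+x_{1,0}) g_o = ∫ φ (x_{0,0}+x_{1,0}) η + O(e^{-r/8})`.  Test function `v = η ζ(x_2)`: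
`A(g_o, v) = BB V12 η η - EE2 ip η η + O(e^{-r/8})`, and the right side is
`-c ∫ W_o φ η ζ(x_2) (= 0, Newton) + O(r⁴ a/l⁷ + e^{-r/16})‖η‖`; `η ⊥ φ` so the left side is
`≥ (g0/4 - e^{-r}) ip η η` (`V3`). -/
def S_E5 : Prop :=
  ∀ g0 : ℝ, HGap g0 → ∃ C r0 : ℝ, 1 ≤ C ∧ 1 ≤ r0 ∧ ∀ (r a l : ℝ) (φ g : X3 → ℝ),
    r0 ≤ r → r ^ 4 ≤ a → a ^ 6 ≤ l → NM S2 r (V12 r a) φ → (∀ x, φ (piv x) = φ x) →
    NM S3 r (U3 r a l) g →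
    |∫ x, φ x * (x 0 0 + x 1 0) * pod g x ∂pm| ≤ C * r ^ 8 * (a / l ^ 7 + Real.exp (-r / 16))

/-- **E6 (dipole moment of the three atoms).**  `Z = Σ_j x_{j,0}` is odd under `piv`:
`∫ Z g² = 2 ∫ g_e Z g_o = 2c ∫ φ Z g_o + 2 ∫ (g_e - cφ) Z g_o`, the last term is
`≤ 6r ‖w‖ ‖g_o‖`; `E3`, `E4`, `E5`, `|1 - c²| |M_L|` by `D7`. -/
def S_dip : Prop :=
  ∀ g0 : ℝ, HGap g0 → ∃ C r0 : ℝ, 1 ≤ C ∧ 1 ≤ r0 ∧ ∀ (r a l : ℝ) (φ g : X3 → ℝ),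
    r0 ≤ r → r ^ 4 ≤ a → a ^ 6 ≤ l → NM S2 r (V12 r a) φ → (∀ x, φ (piv x) = φ x) →
    NM S3 r (U3 r a l) g →
    |(∫ x, (x 0 0 + x 1 0 + x 2 0) * g x ^ 2 ∂pm)
      - 36 * (3 * ML a 2 φ / l ^ 4 + 5 * ML a 4 φ / l ^ 6)| ≤
      C * r ^ 10 * (a / l ^ 7 + Real.exp (-r / 16))

/-- **E7 (scalar form of the polar molecule).**  `a = r^30`, `l0 = r^300`.  If
`|3M_2 + 5M_4/l²| ≤ ε` for `l = l0` and `l = 2l0` then `|M_4| ≤ (8/15) ε l0²`, `|M_2| ≤ (11/9) ε` and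
`13000/a⁶ ≤ |M_2 - 2M_4/a²| ≤ 3 ε l0²/a²`.  Transversal components: `g∘R_c` is also a near
minimiser (`U5`), by `V3` `g∘R_c = t g + w`, `‖w‖² ≤ C e^{-r}`, and `∫Z_c (g∘R_c)² = -∫Z_c g²`. -/
def S_scalar : Prop :=
  ∀ g0 : ℝ, HGap g0 → ∃ r0 : ℝ, 1 ≤ r0 ∧ ∀ r : ℝ, r0 ≤ r →
    ∃ l : ℝ, (l = r ^ 300 ∨ l = 2 * r ^ 300) ∧ ∀ g, NM S3 r (U3 r (r ^ 30) l) g →
      1 / r ^ 2000 ≤ |∫ x, (x 0 0 + x 1 0 + x 2 0) * g x ^ 2 ∂pm| ∧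
      (∀ c : Fin 3, c ≠ 0 →
        |∫ x, (x 0 c + x 1 c + x 2 c) * g x ^ 2 ∂pm| ≤ Real.exp (-r / 4))

/-! ## 7. from the fermions to the scalar problem -/

/-- **F1 (link).**  Electron `j` lives at the nucleus `τ j`.  Change of variables
`X_j = Y(τ j) + x(τ j)`, `H4` in each variable; on the box
`pot Y X = -Σ 1/|x_i| + U3 r a l x`. -/
def S_link : Prop :=
  ∀ (r a l : ℝ) (τ : Equiv.Perm (Fin 3)) (ψ : (Fin 3 → Om) → ℝ), 1 ≤ r → 8 * r ≤ a → 2 * a ≤ l →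
    LC ψ → (∀ X, ψ X ≠ 0 → ∀ j, ‖(X j).1 - yv a l (τ j)‖ ≤ r) →
    (∀ s, Box S3 r (gof (yv a l) τ s ψ)) ∧
    nsq ψ = ∑ s, ip (gof (yv a l) τ s ψ) (gof (yv a l) τ s ψ) ∧
    Qf (yv a l) ψ = -3 / 4 * nsq ψ
      + ∑ s, BB (U3 r a l) (gof (yv a l) τ s ψ) (gof (yv a l) τ s ψ) ∧
    (∀ c : Fin 3, expv (fun X => (vdip (yv a l) X) c) ψ =
      - ∑ s, ∫ x, (x 0 c + x 1 c + x 2 c) * gof (yv a l) τ s ψ x ^ 2 ∂pm)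

/-- **F2 (upper bound).**  `f ∈ Box S3 r`, `ip f f = 1`: `ψ X = f(x - y)·Π ψ0(x_j - y_j)` if all spins
are `false`, `0` otherwise; `F1` backwards with `τ = 1` and `S_pas` with `c = id`. -/
def S_up : Prop :=
  ∀ r a l : ℝ, 1 ≤ r → 8 * r ≤ a → 2 * a ≤ l →
    En 3 (yv a l) ≤ -3 / 4 + EE S3 r (U3 r a l)

/-- the sector `α` of three electrons is good: one electron at each nucleus -/
def goodS (α : Fin 3 → Option (Fin 3)) : Prop := ∃ τ : Equiv.Perm (Fin 3), ∀ j, α j = some (τ j)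

/-- **F3 (bad sectors).**  `N = 2, 3` electrons (`n` = number of electrons; for `n = 3` `α` bad, for
`n = 2` any `α`).  Electrons with `α j = none` are at distance `≥ r/2` from all nuclei
(attraction `≤ 6/r`), electrons at the nucleus `m` at distance `≥ a/4` from the other nuclei;
one electron at a nucleus: `S_hyd` (`≥ -1/4`); `n ≥ 2` electrons at the same nucleus: `S_slice` and
`S_en2`: `≥ En n Hy ≥ (n/2) En 2 Hy`. -/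
def S_bad : Prop :=
  -1 / 2 < En 2 Hy → ∃ g3 r0 : ℝ, 0 < g3 ∧ g3 ≤ 1 / 8 ∧ 1 ≤ r0 ∧ ∀ r a l : ℝ,
    r0 ≤ r → r ^ 4 ≤ a → 2 * a ≤ l →
    (∀ (α : Fin 3 → Option (Fin 3)) (ψ : (Fin 3 → Om) → ℝ), WF ψ → ¬ goodS α →
      (-3 / 4 + g3) * nsq (sector (cellPU r (yv a l)) α ψ) ≤
        Qf (yv a l) (sector (cellPU r (yv a l)) α ψ)) ∧
    (∀ (α : Fin 2 → Option (Fin 3)) (ψ : (Fin 2 → Om) → ℝ), WF ψ →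
      (-1 / 2 - 20 / r) * nsq (sector (cellPU r (yv a l)) α ψ) ≤
        Qf (yv a l) (sector (cellPU r (yv a l)) α ψ))

/-- mass in the bad sectors -/
def badm (r a l : ℝ) (ψ : (Fin 3 → Om) → ℝ) : ℝ :=
  ∑ α : Fin 3 → Option (Fin 3), if (∃ τ : Equiv.Perm (Fin 3), α = fun j => some (τ j)) then 0
    else nsq (sector (cellPU r (yv a l)) α ψ)

/-- **F4 (localisation).**  `ε = Qf ψ - En 3`.  `S_ims` with `cellPU r`: good sectors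
`Qf ≥ En 3 · nsq` (`S_pas`, disjoint balls), bad sectors `≥ (-3/4 + g3) nsq ≥ (En 3 + g3/2) nsq`
(`F2` and `V2`/`S_avg`: `EE S3 r U3 ≤ C e^{-r/4}`), localisation error
`≤ (10/r²) Σ_j ∫ 1_{r/2 ≤ |x_j - y_k| ≤ r for some k} ψ² ≤ (30/r²) badm (r/2)`.  So
`Σ_good (Qf - En 3 nsq) + (g3/2) badm r ≤ ε + (30/r²) badm (r/2)`; iterate `K` times. -/
def S_loc : Prop :=
  -1 / 2 < En 2 Hy → ∀ K : ℕ, ∃ C r0 : ℝ, 1 ≤ C ∧ 1 ≤ r0 ∧ ∀ (r a l : ℝ) (ψ : (Fin 3 → Om) → ℝ),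
    r0 ≤ r → r ^ 4 ≤ a → a ^ 6 ≤ l → WF ψ → nsq ψ = 1 →
    badm r a l ψ ≤ C * ((Qf (yv a l) ψ - En 3 (yv a l)) + 1 / r ^ K) ∧
    (∑ τ : Equiv.Perm (Fin 3),
      (Qf (yv a l) (sector (cellPU r (yv a l)) (fun j => some (τ j)) ψ)
        - En 3 (yv a l) * nsq (sector (cellPU r (yv a l)) (fun j => some (τ j)) ψ))) ≤
      C * ((Qf (yv a l) ψ - En 3 (yv a l)) + 1 / r ^ K)

/-- **F5 (ionisation gap).**  `F3` for two electrons with `S_ims` (localisation error `≤ 30/r²`):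
`En 2 Y ≥ -1/2 - C/r`; `En 3 Y ≤ -3/4 + C e^{-r/4}`. -/
def S_ion : Prop :=
  -1 / 2 < En 2 Hy → ∃ r0 : ℝ, 1 ≤ r0 ∧ ∀ r a l : ℝ, r0 ≤ r → r ^ 4 ≤ a → a ^ 6 ≤ l →
    1 / 8 ≤ En 2 (yv a l) - En 3 (yv a l)

/-- **F6 (dipole moment of near ground states, centre part).**  `K` arbitrary.  The good sectors
`ψ_τ = sector (cellPU r Y) (some ∘ τ) ψ` are supported in `‖x_j - Y(τ j)‖ ≤ r`; `F1`:
`Σ_{τ,s} (BB U3 g g - EE3 ip g g) ≤ Σ_τ (Qf ψ_τ - En 3 nsq ψ_τ)` (`F2`: `EE3 ≥ En 3 + 3/4`) for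
`g = gof Y τ s ψ_τ`; `V3` with a fixed near minimiser `g*`: `g = t g* + w`,
`Σ ‖w‖² ≤ (4/g0)(Σ(BB - EE ip) + e^{-r})`, `Σ t² ≥ 1 - badm - Σ‖w‖²`;
`|∫ Z_c g² - t² ∫ Z_c g*²| ≤ 3r(2|t|‖w‖ + ‖w‖²)`. -/
def S_center : Prop :=
  -1 / 2 < En 2 Hy → ∀ g0 : ℝ, HGap g0 → ∀ K : ℕ, ∃ C r0 : ℝ, 1 ≤ C ∧ 1 ≤ r0 ∧
    ∀ (r a l : ℝ) (ψ : (Fin 3 → Om) → ℝ) (g : X3 → ℝ) (c : Fin 3),
    r0 ≤ r → r ^ 4 ≤ a → a ^ 6 ≤ l → WF ψ → nsq ψ = 1 → NM S3 r (U3 r a l) g →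
    Qf (yv a l) ψ - En 3 (yv a l) ≤ 1 →
    |(∑ τ : Equiv.Perm (Fin 3),
        expv (fun X => (vdip (yv a l) X) c) (sector (cellPU r (yv a l)) (fun j => some (τ j)) ψ))
      + ∫ x, (x 0 c + x 1 c + x 2 c) * g x ^ 2 ∂pm| ≤
      C * r * √((Qf (yv a l) ψ - En 3 (yv a l)) + 1 / r ^ K)

/-- **F7 (tail part).**  `t1 = 4l`: all nuclei are in the ball of radius `l`.  Split
`‖X‖`: for configurations with all electrons in the ball `t1` the bad sectors contribute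
`≤ C l · badm r`; electrons outside: `Σ_k 2^{k+1} t1 · nout (2^k t1)`, `S_tail` with `g = 1/8` (`F5`),
`nout t1 ≤ 3 badm r`:
`nout (2^{k+1} t1) ≤ 48 (ε + 3/(4^k t1²) nout (2^k t1))`, up to `2^k t1 ≤ 2R` (`R` the radius of the
support): the sum is `≤ C l² (R ε + badm r)`. -/
def S_tailpart : Prop :=
  -1 / 2 < En 2 Hy → ∀ K : ℕ, ∃ C r0 : ℝ, 1 ≤ C ∧ 1 ≤ r0 ∧
    ∀ (r a l R : ℝ) (ψ : (Fin 3 → Om) → ℝ),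
    r0 ≤ r → r ^ 4 ≤ a → a ^ 6 ≤ l → 8 * l ≤ R → WF ψ → nsq ψ = 1 →
    (∀ X, ψ X ≠ 0 → ∀ j, ‖(X j).1‖ ≤ R) →
    (∑ α : Fin 3 → Option (Fin 3), if (∃ τ : Equiv.Perm (Fin 3), α = fun j => some (τ j)) then 0
      else expv (fun X => ‖vdip (yv a l) X‖) (sector (cellPU r (yv a l)) α ψ)) ≤
      C * l ^ 2 * (R * (Qf (yv a l) ψ - En 3 (yv a l)) + 1 / r ^ K)

/-- **F8 (second moments).**  `Y` bounded by `R1`; dyadic sum `∫ ‖x‖² ψ² ≤ t1² + Σ_k (2^{k+1} t1)² nout (2^k t1)`,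
`S_tail` with `g = 1/8`: `nout (2^{k+1} t1) ≤ 48 (ε + 3/(4^k t1²) nout (2^k t1))`, hence
`nout (2^k t1) ≤ C (ε + 16^{-k})` after finitely many steps (start at `k = 3`). -/
def S_mom2 : Prop :=
  ∀ Y : Fin 3 → E3, 1 / 8 ≤ En 2 Y - En 3 Y → ∃ C : ℝ, 1 ≤ C ∧ ∀ (R : ℝ) (ψ : (Fin 3 → Om) → ℝ),
    C ≤ R → WF ψ → nsq ψ = 1 → (∀ X, ψ X ≠ 0 → ∀ j, ‖(X j).1‖ ≤ R) →
    expv (fun X => ‖vdip Y X‖ ^ 2) ψ ≤ C + C * R ^ 2 * (Qf Y ψ - En 3 Y)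

/-- **Theorem D (polar neutral molecule).** -/
def S_thmD : Prop :=
  -1 / 2 < En 2 Hy → ∀ κ D0 : ℝ, 0 < κ →
    ∃ (Y : Fin 3 → E3) (p0 δ0 C R0 : ℝ), (∀ i j, i ≠ j → D0 ≤ ‖Y i - Y j‖) ∧
      Function.Injective Y ∧ p0 ≠ 0 ∧ 0 ≤ δ0 ∧ δ0 ≤ κ * p0 ^ 2 ∧ 1 ≤ C ∧
      1 / 8 ≤ En 2 Y - En 3 Y ∧
      ∀ (R : ℝ) (ψ : (Fin 3 → Om) → ℝ), R0 ≤ R → WF ψ → nsq ψ = 1 →
        (∀ X, ψ X ≠ 0 → ∀ j, ‖(X j).1‖ ≤ R) →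
        (∀ c : Fin 3, |expv (fun X => (vdip Y X) c) ψ - p0 * ec 0 c| ≤
          δ0 + C * R * √(Qf Y ψ - En 3 Y)) ∧
        expv (fun X => ‖vdip Y X‖ ^ 2) ψ ≤ C + C * R ^ 2 * (Qf Y ψ - En 3 Y)

end MolDis.H
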