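import Pool.Agent.Lib.MP_59f35a_mp.Chain
import Pool.Agent.Lib.MP_59f35a_mp.H.Ang
import Pool.Agent.Lib.MP_59f35a_mp.H.Apri
import Pool.Agent.Lib.MP_59f35a_mp.H.Avg
import Pool.Agent.Lib.MP_59f35a_mp.H.Bad
import Pool.Agent.Lib.MP_59f35a_mp.H.Bl
import Pool.Agent.Lib.MP_59f35a_mp.H.Bounds
import Pool.Agent.Lib.MP_59f35a_mp.H.Center
import Pool.Agent.Lib.MP_59f35a_mp.H.Chi
import Pool.Agent.Lib.MP_59f35a_mp.H.Comm
import Pool.Agent.Lib.MP_59f35a_mp.H.Conv
import Pool.Agent.Lib.MP_59f35a_mp.H.Dip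
import Pool.Agent.Lib.MP_59f35a_mp.H.E4a
import Pool.Agent.Lib.MP_59f35a_mp.H.Err
import Pool.Agent.Lib.MP_59f35a_mp.H.Field
import Pool.Agent.Lib.MP_59f35a_mp.H.Form
import Pool.Agent.Lib.MP_59f35a_mp.H.Even
import Pool.Agent.Lib.MP_59f35a_mp.H.E3a
import Pool.Agent.Lib.MP_59f35a_mp.H.E5a
import Pool.Agent.Lib.MP_59f35a_mp.H.GapA
import Pool.Agent.Lib.MP_59f35a_mp.H.Hm
import Pool.Agent.Lib.MP_59f35a_mp.H.Ibp
import Pool.Agent.Lib.MP_59f35a_mp.H.Ion
import Pool.Agent.Lib.MP_59f35a_mp.H.Lift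
import Pool.Agent.Lib.MP_59f35a_mp.H.Link
import Pool.Agent.Lib.MP_59f35a_mp.H.Loc
import Pool.Agent.Lib.MP_59f35a_mp.H.Mh
import Pool.Agent.Lib.MP_59f35a_mp.H.Mom2u
import Pool.Agent.Lib.MP_59f35a_mp.H.MomL
import Pool.Agent.Lib.MP_59f35a_mp.H.Newton
import Pool.Agent.Lib.MP_59f35a_mp.H.Num
import Pool.Agent.Lib.MP_59f35a_mp.H.Odd
import Pool.Agent.Lib.MP_59f35a_mp.H.Par
import Pool.Agent.Lib.MP_59f35a_mp.H.Pgap
import Pool.Agent.Lib.MP_59f35a_mp.H.Potsym
import Pool.Agent.Lib.MP_59f35a_mp.H.Prod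
import Pool.Agent.Lib.MP_59f35a_mp.H.Qd
import Pool.Agent.Lib.MP_59f35a_mp.H.Pv
import Pool.Agent.Lib.MP_59f35a_mp.H.Scalar
import Pool.Agent.Lib.MP_59f35a_mp.H.Sym
import Pool.Agent.Lib.MP_59f35a_mp.H.TailPart
import Pool.Agent.Lib.MP_59f35a_mp.H.ThmD
import Pool.Agent.Lib.MP_59f35a_mp.H.ThmDfin
import Pool.Agent.Lib.MP_59f35a_mp.H.Uniq
import Pool.Agent.Lib.MP_59f35a_mp.H.Up
import Pool.Agent.Lib.MP_59f35a_mp.H.Var
import Pool.Agent.Lib.MP_59f35a_mp.H.WeakA
import Pool.Agent.Lib.MP_59f35a_mp.H.Wgen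
import Pool.Agent.Lib.MP_59f35a_mp.H.Wlist

/-!
# MP_59f35a_mp : the chain of the pieces of Theorem D
-/

namespace MolDis.H.Chain

open MolDis MolDis.H MolDis.Chain

theorem hm : S_hm := p_hm
theorem ibp : S_ibp := p_ibp
theorem div : S_div := p_div
theorem conv : S_conv := p_conv div
theorem odd : S_odd := p_odd hm ibp div
theorem wgen : S_wgen := p_wgen hm ibp
theorem wlist : S_wlist := p_wlist wgen
theorem newton : S_newton := p_newton
theorem ang : S_ang := p_ang hm
theorem harm0 : S_harm0 := p_harm0 hm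
theorem prod : S_prod := p_prod hm
theorem bl : S_bl := p_bl hm prod
theorem form : S_form := p_form prod bl
theorem sym : S_sym := p_sym hm bl
theorem pgap : S_pgap := p_pgap hm prod bl form odd
theorem comm : S_comm := p_comm hm prod bl
theorem lift : S_lift := p_lift hm prod bl form
theorem var : S_var := p_var hm prod bl form
theorem apri : S_apri := p_apri hm prod bl form pgap
theorem uniq : S_uniq := p_uniq prod bl form pgap var apri
theorem pv : S_pv := p_pv
theorem bounds : S_bounds := p_bounds pv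
theorem avg : S_avg := p_avg newton hm prod bounds
theorem field : S_field := p_field
theorem potsym : S_potsym := p_potsym
theorem chi : S_chi := p_chi hm wlist prod bl form lift
theorem momL : S_momL := p_momL wlist lift var apri avg bounds harm0 hm prod bl form
theorem par : S_par := p_par chi var apri avg bounds pgap sym hm prod bl form wlist lift
theorem num : S_num := p_num hm prod ang
theorem err : S_err := p_err par num chi pgap hm bl form
theorem q : S_Q :=
  p_Q hm prod bl form lift var harm0 wlist sym avg bounds apri potsym par err num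
theorem mh : S_Mh := p_Mh prod bl q momL
theorem gapA : S_gapA := p_gapA uniq pgap avg bounds potsym hm prod bl
theorem weakA : S_weakA := p_weakA var hm prod bl
theorem even : S_even := p_even var apri pgap sym potsym avg bounds bl form
theorem e3 : S_E3 :=
  p_E3 gapA var apri avg bounds potsym sym hm prod bl form weakA wlist lift
theorem e5 : S_E5 :=
  p_E5 hm prod bl form sym comm lift wlist var uniq bounds avg potsym e3
theorem e4 : S_E4 :=
  p_E4 e3 weakA lift wlist var avg bounds field mh potsym sym ang hm prod bl form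
theorem dip : S_dip := p_dip e3 e4 e5 mh sym prod bl form
theorem scalar : S_scalar :=
  p_scalar dip mh even uniq avg bounds potsym sym bl
theorem link : S_link := p_link hm prod bl form conv lc
theorem up : S_up := p_up link pas var bl
theorem bad : S_bad := p_bad slice ims cut lc adm en en2
theorem loc (hgap : S_gap) : S_loc := p_loc cut ims pas lc adm en bad up apri hgap avg bounds
theorem ion (hgap : S_gap) : S_ion := p_ion bad up apri hgap avg bounds ims cut lc en adm
theorem center (hgap : S_gap) : S_center :=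
  p_center en (loc hgap) link up uniq avg bounds cut ims bl
theorem tailpart (hgap : S_gap) : S_tailpart :=
  p_tailpart tail lc adm en ims cut (loc hgap) (ion hgap)
theorem mom2u : S_mom2u := p_mom2u tail lc adm en
theorem mom2v (hgap : S_gap) : S_mom2v := by
  intro hE2
  obtain ⟨C, hC, h⟩ := mom2u
  obtain ⟨r4, hr4, hio⟩ := ion hgap hE2
  refine ⟨C, max r4 288, hC, hr4.trans (le_max_left _ _), ?_⟩
  intro r a l R ψ hr hra hal hR hψ hn hs
  have h1 : r4 ≤ r := (le_max_left _ _).trans hr
  have h2 : 288 ≤ r := (le_max_right _ _).trans hr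
  have h3 : r ≤ a := by
    have : r ≤ r ^ 4 := le_self_pow₀ (by linarith) (by norm_num)
    linarith
  have ha1 : 1 ≤ a := by linarith
  have h4 : 2 * a ≤ a ^ 6 := by
    have h5 : a ^ 2 ≤ a ^ 6 := pow_le_pow_right₀ ha1 (by norm_num)
    nlinarith
  have h6 : 288 ≤ l := by linarith
  exact h l R (yv a l) ψ h6 hR (ThmD.norm_yv a l (by linarith) (by linarith))
    (hio r a l h1 hra hal) hψ hn hs

theorem thmD (hgap : S_gap) : -1 / 2 < En 2 Hy → ThmD :=
  ThmD.p_thmD' lc adm en ims cut hgap scalar bounds var (center hgap)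
    (tailpart hgap) (ion hgap) (mom2v hgap) dip mh even

end MolDis.H.Chain
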