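import Mathlib

/-!
# MP_59f35a_mp : definitions

Working class of wave functions and energies (protons only), plus the energies of the
final statement (complex, smooth, arbitrary charges).
-/

noncomputable section

open MeasureTheory

namespace MolDis

/-- physical space -/
abbrev E3 := EuclideanSpace ℝ (Fin 3)

/-- one-electron space: position and spin -/
abbrev Om := E3 × Bool

/-- one-electron measure: Lebesgue times counting -/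
def mu1 : Measure Om := (volume : Measure E3).prod Measure.count

/-- `ι`-electron measure -/
def mu (ι : Type) [Fintype ι] : Measure (ι → Om) := Measure.pi fun _ => mu1

/-- replace the position of electron `j` by `y` -/
def put {ι : Type} [DecidableEq ι] (X : ι → Om) (j : ι) (y : E3) : ι → Om :=
  Function.update X j (y, (X j).2)

/-- real functions of `ι` electrons, Lipschitz in every position, supported in a ball -/
structure LC {ι : Type} [Fintype ι] [DecidableEq ι] (ψ : (ι → Om) → ℝ) : Prop where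
  lip : ∃ K : ℝ, ∀ X j y, |ψ (put X j y) - ψ X| ≤ K * ‖y - (X j).1‖
  supp : ∃ R : ℝ, ∀ X, ψ X ≠ 0 → ∀ j, ‖(X j).1‖ ≤ R

/-- antisymmetry under exchange of the electrons (position and spin) -/
def Anti {ι : Type} [Fintype ι] [DecidableEq ι] (ψ : (ι → Om) → ℝ) : Prop :=
  ∀ (σ : Equiv.Perm ι) (X : ι → Om), ψ (X ∘ σ) = ((Equiv.Perm.sign σ : ℤ) : ℝ) * ψ X

/-- wave functions -/
structure WF {ι : Type} [Fintype ι] [DecidableEq ι] (ψ : (ι → Om) → ℝ) : Prop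
    extends LC ψ where
  anti : Anti ψ

/-- `|∇_j ψ|²` -/
def gradSq {ι : Type} [DecidableEq ι] (ψ : (ι → Om) → ℝ) (j : ι) (X : ι → Om) : ℝ :=
  ‖fderiv ℝ (fun y => ψ (put X j y)) (X j).1‖ ^ 2

/-- `‖ψ‖²` -/
def nsq {ι : Type} [Fintype ι] (ψ : (ι → Om) → ℝ) : ℝ := ∫ X, ψ X ^ 2 ∂(mu ι)

/-- `⟨W⟩_ψ = ∫ W ψ²` -/
def expv {ι : Type} [Fintype ι] (W : (ι → Om) → ℝ) (ψ : (ι → Om) → ℝ) : ℝ :=
  ∫ X, W X * ψ X ^ 2 ∂(mu ι)

/-- kinetic energy of electron `j` -/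
def kin1 {ι : Type} [Fintype ι] [DecidableEq ι] (j : ι) (ψ : (ι → Om) → ℝ) : ℝ :=
  ∫ X, gradSq ψ j X ∂(mu ι)

/-- kinetic energy -/
def kin {ι : Type} [Fintype ι] [DecidableEq ι] (ψ : (ι → Om) → ℝ) : ℝ :=
  ∑ j, kin1 j ψ

/-- the Coulomb kernel (`0` on the diagonal) -/
def cou (x y : E3) : ℝ := ‖x - y‖⁻¹

/-- electron-electron repulsion -/
def repEE {ι : Type} [Fintype ι] (X : ι → Om) : ℝ :=
  (1 / 2) * ∑ j, ∑ k, cou (X j).1 (X k).1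

/-- electron-nuclear attraction (positive), protons at `Y` -/
def attr {ι κ : Type} [Fintype ι] [Fintype κ] (Y : κ → E3) (X : ι → Om) : ℝ :=
  ∑ j, ∑ m, cou (X j).1 (Y m)

/-- nuclear repulsion -/
def repNN {κ : Type} [Fintype κ] (Y : κ → E3) : ℝ :=
  (1 / 2) * ∑ l, ∑ m, cou (Y l) (Y m)

/-- the potential -/
def pot {ι κ : Type} [Fintype ι] [Fintype κ] (Y : κ → E3) (X : ι → Om) : ℝ :=
  - attr Y X + repEE X + repNN Y

/-- the energy form -/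
def Qf {ι κ : Type} [Fintype ι] [DecidableEq ι] [Fintype κ] (Y : κ → E3)
    (ψ : (ι → Om) → ℝ) : ℝ := kin ψ + expv (pot Y) ψ

/-- the ground state energy of `n` electrons in the field of protons at `Y` -/
def En {κ : Type} [Fintype κ] (n : ℕ) (Y : κ → E3) : ℝ :=
  sInf {e | ∃ ψ : (Fin n → Om) → ℝ, WF ψ ∧ nsq ψ = 1 ∧ e = Qf Y ψ}

/-- one proton at the origin -/
def Hy : Unit → E3 := fun _ => 0

/-! ### the final statement -/

/-- smooth compactly supported complex antisymmetric functions of `N` electrons -/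
structure IsState (N : ℕ) (ψ : (Fin N → E3) → (Fin N → Bool) → ℂ) : Prop where
  smooth : ∀ s, ContDiff ℝ (⊤ : ℕ∞) (fun x => ψ x s)
  compact : ∀ s, HasCompactSupport (fun x => ψ x s)
  anti : ∀ (σ : Equiv.Perm (Fin N)) x s,
    ψ (x ∘ σ) (s ∘ σ) = ((Equiv.Perm.sign σ : ℤ) : ℂ) * ψ x s

/-- the Coulomb potential of the molecule with charges `Z` at `Y` -/
def molPot {N M : ℕ} (Y : Fin M → E3) (Z : Fin M → ℕ) (x : Fin N → E3) : ℝ :=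
  - ∑ j, ∑ m, (Z m : ℝ) / ‖x j - Y m‖
  + ∑ j, ∑ k ∈ Finset.univ.filter (fun k => j < k), 1 / ‖x j - x k‖
  + ∑ l, ∑ m ∈ Finset.univ.filter (fun m => l < m), (Z l : ℝ) * (Z m : ℝ) / ‖Y l - Y m‖

/-- `∫ |ψ|²` -/
def stNorm {N : ℕ} (ψ : (Fin N → E3) → (Fin N → Bool) → ℂ) : ℝ :=
  ∑ s, ∫ x : Fin N → E3, ‖ψ x s‖ ^ 2

/-- `⟨ψ, H ψ⟩ = ∫ Σ_j |∇_j ψ|² + V |ψ|²` -/
def stEnergy {N M : ℕ} (Y : Fin M → E3) (Z : Fin M → ℕ)
    (ψ : (Fin N → E3) → (Fin N → Bool) → ℂ) : ℝ :=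
  ∑ s, ∫ x : Fin N → E3,
    ((∑ j, ∑ k, ‖fderiv ℝ (fun x => ψ x s) x (Pi.single j (EuclideanSpace.single k 1))‖ ^ 2)
      + molPot Y Z x * ‖ψ x s‖ ^ 2)

/-- `E_N(Y,Z) = inf ⟨ψ, H_N ψ⟩ / ⟨ψ, ψ⟩`, the bottom of the spectrum of `H_N(Y,Z)` -/
def molEnergy {M : ℕ} (N : ℕ) (Y : Fin M → E3) (Z : Fin M → ℕ) : ℝ :=
  sInf {e | ∃ ψ : (Fin N → E3) → (Fin N → Bool) → ℂ,
    IsState N ψ ∧ stNorm ψ = 1 ∧ e = stEnergy Y Z ψ}

/-- `Q1`: the neutral split is the unique minimiser of the split energies -/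
def NeutralDissociation : Prop :=
  ∀ (M₁ M₂ : ℕ) (Y₁ : Fin M₁ → E3) (Y₂ : Fin M₂ → E3) (Z₁ : Fin M₁ → ℕ) (Z₂ : Fin M₂ → ℕ),
    0 < M₁ → 0 < M₂ → (∀ m, 1 ≤ Z₁ m) → (∀ m, 1 ≤ Z₂ m) →
    Function.Injective (Sum.elim Y₁ Y₂) →
    ∀ N₁ : ℕ, N₁ ≤ ∑ m, Z₁ m + ∑ m, Z₂ m → N₁ ≠ ∑ m, Z₁ m →
      molEnergy (∑ m, Z₁ m) Y₁ Z₁ + molEnergy (∑ m, Z₂ m) Y₂ Z₂
        < molEnergy N₁ Y₁ Z₁ + molEnergy (∑ m, Z₁ m + ∑ m, Z₂ m - N₁) Y₂ Z₂

/-- `Q1` for protons and the working energies -/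
def PQ1 : Prop :=
  ∀ (M₁ M₂ : ℕ) (Y₁ : Fin M₁ → E3) (Y₂ : Fin M₂ → E3), 0 < M₁ → 0 < M₂ →
    Function.Injective Y₁ → Function.Injective Y₂ →
    ∀ N₁ : ℕ, N₁ ≤ M₁ + M₂ → N₁ ≠ M₁ →
      En M₁ Y₁ + En M₂ Y₂ < En N₁ Y₁ + En (M₁ + M₂ - N₁) Y₂

end MolDis
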