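import Pool.Agent.Lib.MP_59f35a_mp.ChainH
import Pool.Agent.Lib.MP_59f35a_mp.H.Gap

/-!
# MP_59f35a_mp : final assembly
-/

namespace MolDis

theorem not_PQ1 : ¬ PQ1 := Chain.main (H.Chain.thmD (H.p_gap H.Chain.hm H.Chain.div))

end MolDis
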