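import Pool.Agent.Lib.MP_59f35a_mp.Stmts2

/-!
# MP_59f35a_mp : statements, batch 3 (upper bounds, multipoles, lattice, composite, array)
-/

noncomputable section

open MeasureTheory

namespace MolDis

/-! ### upper bound for arrays of cells -/

/-- charges of a cell -/
def bq {M : ℕ} {ι : Type} : Fin M ⊕ ι → ℝ := Sum.elim (fun _ => 1) (fun _ => -1)

/-- positions of the charges of a cell -/
def bpos {M : ℕ} {ι : Type} (Y : Fin M → E3) (z : E3) (X : ι → Om) : Fin M ⊕ ι → E3 :=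
  Sum.elim (fun m => z + Y m) (fun j => (X j).1)

/-- expected Coulomb interaction of two independent cells -/
def crossQ {M M' : ℕ} {ι ι' : Type} [Fintype ι] [Fintype ι'] (Y : Fin M → E3) (z : E3)
    (φ : (ι → Om) → ℝ) (Y' : Fin M' → E3) (z' : E3) (φ' : (ι' → Om) → ℝ) : ℝ :=
  expv (fun X => expv (fun X' => ∑ a : Fin M ⊕ ι, ∑ b : Fin M' ⊕ ι',
    bq a * bq b * cou (bpos Y z X a) (bpos Y' z' X' b)) φ') φ

/-- **F1 (upper bound for arrays).** `S_trial` rewritten. -/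
def S_upper : Prop :=
  ∀ (K : Type) [Fintype K] [DecidableEq K] (M n : K → ℕ) (Y : ∀ k, Fin (M k) → E3) (z : K → E3)
    (S : K → Set E3) (φ : ∀ k, (Fin (n k) → Om) → ℝ),
    (∀ k k', k ≠ k' → Disjoint (S k) (S k')) →
    (∀ k, WF (φ k) ∧ nsq (φ k) = 1 ∧ ∀ X, φ k X ≠ 0 → ∀ j, (X j).1 ∈ S k) →
    En (∑ k, n k) (cl z Y) ≤ (∑ k, Qf (fun m => z k + Y k m) (φ k))
      + (1 / 2) * (∑ k, ∑ k', if k = k' then 0 else
        crossQ (Y k) (z k) (φ k) (Y k') (z k') (φ k'))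

/-- the dipole-dipole tensor as a vector -/
def Tvec (w a : E3) : E3 := (1 / ‖w‖ ^ 3) • (a - (3 * inner ℝ a w / ‖w‖ ^ 2) • w)

/-- **F2 (multipole expansions of finite families of charges).**
`f(h) = 1/|w + h|`, `h = u - u'`; Taylor with `|D^k f| ≤ C/|w|^{k+1}` for `|h| ≤ |w|/2`; for
neutral families subtract the values at `u = 0` / `u' = 0` before the expansion (double difference:
`∫∫ ∂_s∂_t f(s u - t u')`). -/
def S_mult : Prop :=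
  ∃ C : ℝ, 1 ≤ C ∧ ∀ (n n' : Type) [Fintype n] [Fintype n'] (q : n → ℝ) (q' : n' → ℝ)
    (x : n → E3) (x' : n' → E3) (z z' : E3), z ≠ z' →
    (∀ i, ‖x i - z‖ ≤ ‖z - z'‖ / 4) → (∀ i, ‖x' i - z'‖ ≤ ‖z - z'‖ / 4) →
    ((∑ i, q i = 0 → ∑ i, q' i = 0 →
      |(∑ i, ∑ j, q i * q' j * cou (x i) (x' j))
        - inner ℝ (Tvec (z - z') (∑ i, q i • (x i - z))) (∑ i, q' i • (x' i - z'))|
      ≤ C / ‖z - z'‖ ^ 4 *
        ((∑ i, |q i| * ‖x i - z‖) * (∑ i, |q' i| * ‖x' i - z'‖ ^ 2)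
        + (∑ i, |q i| * ‖x i - z‖ ^ 2) * (∑ i, |q' i| * ‖x' i - z'‖))) ∧
    (∑ i, q i = 0 →
      |(∑ i, ∑ j, q i * q' j * cou (x i) (x' j))
        + (∑ i, q' i) * inner ℝ (∑ i, q i • (x i - z)) (z - z') / ‖z - z'‖ ^ 3|
      ≤ C / ‖z - z'‖ ^ 3 *
        ((∑ i, |q i| * ‖x i - z‖) * (∑ i, |q' i| * ‖x' i - z'‖)
        + (∑ i, |q i| * ‖x i - z‖ ^ 2) * (∑ i, |q' i|))) ∧
    |(∑ i, ∑ j, q i * q' j * cou (x i) (x' j)) - (∑ i, q i) * (∑ i, q' i) / ‖z - z'‖|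
      ≤ C / ‖z - z'‖ ^ 2 *
        ((∑ i, |q i| * ‖x i - z‖) * (∑ i, |q' i|)
        + (∑ i, |q i|) * (∑ i, |q' i| * ‖x' i - z'‖)))

/-! ### lattice -/

/-- cubic lattice sites in a cube of side `2 K d` -/
def zpos (K : ℕ) (d : ℝ) (i : Fin 3 → Fin (2 * K + 1)) : E3 :=
  WithLp.toLp 2 (fun t => d * (((i t : ℕ) : ℝ) - K))

/-- grid of the extra cells -/
def apos (q : ℕ) (h : ℝ) (X0 : E3) (a : Fin 3 → Fin q) : E3 :=
  X0 + WithLp.toLp 2 (fun t => h * ((a t : ℕ) : ℝ))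

/-- **G1 (lattice sums).**  `(b)`, `(c)`: shells `|k|_∞ = s` have at most `26 s²` points.
`(d)`: split the sum at the largest cube around `i` inside the box, radius `t = K - |i|_∞`
(index centred): the sum over the symmetric cube vanishes by cubic symmetry
(`Σ w_a w_b/|w|⁵ = δ_ab/3 Σ 1/|w|³`), the rest is `≤ C|a|/d³ Σ_{t < s ≤ 2K} 1/s ≤
C|a|/d³ (1+ 2√(2K/(t+1)))`; at most `6(2K+1)²` sites have a given `t`.
`(e)`: nearest lattice point, `‖x - z_j‖ ≥ d|k|_∞/2`, `Σ_{k∈S}|k|⁻² ≤ C T + |S|/T²`, `T = K`. -/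
def S_lat : Prop :=
  ∃ C : ℝ, 1 ≤ C ∧ ∀ (K : ℕ) (d : ℝ), 1 ≤ K → 0 < d →
    (∀ i j, i ≠ j → d ≤ ‖zpos K d i - zpos K d j‖) ∧
    (∀ i, ‖zpos K d i‖ ≤ Real.sqrt 3 * (d * K)) ∧
    (∀ i, (∑ j, if j = i then 0 else 1 / ‖zpos K d i - zpos K d j‖ ^ 4) ≤ C / d ^ 4) ∧
    (∀ i, (∑ j, if j = i then 0 else 1 / ‖zpos K d i - zpos K d j‖ ^ 3)
      ≤ C * Real.sqrt (Real.sqrt K) / d ^ 3) ∧
    (∀ a : E3, (∑ i, ‖∑ j, if j = i then 0 else Tvec (zpos K d i - zpos K d j) a‖)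
      ≤ C * (2 * K + 1) ^ 3 * ‖a‖ / d ^ 3) ∧
    (∀ x : E3, (∑ j, if d / 8 ≤ ‖x - zpos K d j‖ then 1 / ‖x - zpos K d j‖ ^ 2 else 0)
      ≤ C * K / d ^ 2)

/-- **G2 (grid sums).** -/
def S_grid : Prop :=
  ∃ C : ℝ, 1 ≤ C ∧ ∀ (q : ℕ) (h : ℝ) (X0 : E3), 1 ≤ q → 0 < h →
    (∀ a b, a ≠ b → h ≤ ‖apos q h X0 a - apos q h X0 b‖) ∧
    (∀ a, ‖apos q h X0 a - X0‖ ≤ 2 * h * q) ∧
    ((∑ a, ∑ b, if a = b then 0 else 1 / ‖apos q h X0 a - apos q h X0 b‖) ≤ C * q ^ 5 / h) ∧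
    ((∑ a, ∑ b, if a = b then 0 else 1 / ‖apos q h X0 a - apos q h X0 b‖ ^ 2)
      ≤ C * q ^ 4 / h ^ 2)

/-- potential of the reference dipoles of the lattice, one site left out (`some i`) or not -/
def latPot (K : ℕ) (d : ℝ) (P : E3) (o : Option (Fin 3 → Fin (2 * K + 1))) (x : E3) : ℝ :=
  ∑ j, if o = some j then 0 else
    cou x (zpos K d j + (1 / 2 : ℝ) • P) - cou x (zpos K d j - (1 / 2 : ℝ) • P)

/-- **G3 (potentials of the electret).**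
`cou x (z+P/2) - cou x (z-P/2) = ⟨P, x-z⟩/|x-z|³ + O(|P|³/|x-z|⁴)` etc.
`(1)` near the site `i`; `F` = gradient at `z_i` = `- Σ_j Tvec (z_i - z_j) P + O(|P|³ Σ |w|⁻⁵)`;
second derivatives `≤ C|P| Σ |w|⁻⁴`.  `(2)` smeared potential everywhere.  `(3)` the region
around `s·3dK·P/|P|` (distance at least `(3 - 1/4 - √3) dK` from every site). -/
def S_geom : Prop :=
  ∃ C c : ℝ, 1 ≤ C ∧ 0 < c ∧ ∀ (K : ℕ) (d : ℝ) (P : E3), 1 ≤ K → 0 < d → P ≠ 0 → ‖P‖ ≤ d / 32 →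
    (∃ F : (Fin 3 → Fin (2 * K + 1)) → E3,
      (∀ i x, ‖x - zpos K d i‖ ≤ d / 8 →
        |latPot K d P (some i) x| ≤ C * ‖P‖ * K / d ^ 2 ∧
        |latPot K d P (some i) x - latPot K d P (some i) (zpos K d i)
          - inner ℝ (F i) (x - zpos K d i)| ≤ C * ‖P‖ / d ^ 4 * ‖x - zpos K d i‖ ^ 2) ∧
      (∀ i, ‖F i‖ ≤ C * ‖P‖ * Real.sqrt (Real.sqrt K) / d ^ 3) ∧
      (∑ i, ‖F i‖) ≤ C * (2 * K + 1) ^ 3 * ‖P‖ / d ^ 3) ∧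
    (∀ (C0 : ℝ) (Kr : E3 → E3 → ℝ), 1 ≤ C0 → Ker C0 (d / 8) Kr → ∀ x : E3,
      |∑ j, (Kr x (zpos K d j + (1 / 2 : ℝ) • P) - Kr x (zpos K d j - (1 / 2 : ℝ) • P))|
        ≤ C * C0 * ‖P‖ * K / d ^ 2) ∧
    (∀ s : ℝ, (s = 1 ∨ s = -1) → ∀ x x' : E3, ‖x - (s * (3 * d * K) / ‖P‖) • P‖ ≤ d * K / 4 →
      ‖x' - (s * (3 * d * K) / ‖P‖) • P‖ ≤ d * K / 4 →
      c * ‖P‖ * K / d ^ 2 ≤ s * latPot K d P none x ∧
      s * latPot K d P none x ≤ C * ‖P‖ * K / d ^ 2 ∧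
      |latPot K d P none x - latPot K d P none x'| ≤ C * ‖P‖ / d ^ 3 * ‖x - x'‖ ∧
      (∀ j, d * K ≤ ‖x - zpos K d j‖))

/-! ### the array -/

/-- lattice sites and extra sites -/
abbrev Sites (K q : ℕ) : Type := (Fin 3 → Fin (2 * K + 1)) ⊕ (Fin 3 → Fin q)

/-- number of protons (or electrons) of the cells -/
def aM (K q Z Ms : ℕ) : Sites K q → ℕ := Sum.elim (fun _ => Z) (fun _ => Ms)

/-- nuclei of the cells -/
def aY (K q : ℕ) {Z Ms : ℕ} (B : Fin Z → E3) (Ys : Fin Ms → E3) :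
    ∀ k : Sites K q, Fin (aM K q Z Ms k) → E3
  | Sum.inl _ => B
  | Sum.inr _ => Ys

/-- centres of the cells -/
def az (K q : ℕ) (d h : ℝ) (X0 : E3) : Sites K q → E3 := Sum.elim (zpos K d) (apos q h X0)

/-- reference dipoles of the cells -/
def aP (K q : ℕ) (P : E3) : Sites K q → E3 := Sum.elim (fun _ => P) (fun _ => 0)

/-- **G4 (neutral array, lower bound).**  `A` depends only on the constant of the kernel.
Proof: `S_lower` with `Λ = 512 C + 32`, `ρ = d/Λ`; lattice cells: `S_cellB` if `N = Z`, otherwise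
`S_cellQ` with `E = En Z B + γ`, `γ' := γ`, `u = latPot (some i) (z_i)` (slopes `Marg`);
extra cells: `S_cellQ` with `E = En Ms Ys - e0`, `u = latPot none (z_a)`; vacuum by `S_geom`;
`Σ_i err_i ≤ A √ε₁ |P|² n/d³ + γ' n/d³` because `K ≤ v d²/|P|`. -/
def S_arrayLow : Prop :=
  ∀ C : ℝ, 1 ≤ C → (∀ r0 : ℝ, 0 < r0 → ∃ Kr : E3 → E3 → ℝ, Ker C r0 Kr) →
  ∃ A : ℝ, 1 ≤ A ∧ ∀ (Z : ℕ) (B : Fin Z → E3) (P : E3) (ε₁ CB a η : ℝ) (Ms : ℕ)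
    (Ys : Fin Ms → E3) (e0 v γ γ' s : ℝ),
    GoodB B P ε₁ CB → IsAH a → Marg B a η → 0 < η → Function.Injective Ys → 0 ≤ e0 → 0 < v →
    0 < γ → 0 < γ' → (s = 1 ∨ s = -1) →
    ∃ d0 : ℝ, 1 ≤ d0 ∧ ∀ (d h : ℝ) (K q : ℕ) (lam : ℝ), d0 ≤ d → 1 ≤ K → 1 ≤ q →
      ‖P‖ * K ≤ v * d ^ 2 → d ≤ h → 2 * h * q ≤ d * K / 8 →
      a + η + A * v + γ ≤ lam → lam ≤ 1 / 4 - η - A * v - γ →
      (∀ x : E3, ‖x - (s * (3 * d * K) / ‖P‖) • P‖ ≤ 2 * h * q → ∀ N : ℕ,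
        En Ms Ys - e0 ≤ En N Ys + (lam - latPot K d P none x) * ((N : ℝ) - Ms)) →
      (2 * K + 1) ^ 3 * En Z B + q ^ 3 * (En Ms Ys - e0 - γ')
        + DDsum (az K q d h ((s * (3 * d * K) / ‖P‖) • P)) (aP K q P)
        - A * Real.sqrt ε₁ * ‖P‖ ^ 2 * (2 * K + 1) ^ 3 / d ^ 3 - γ' * (2 * K + 1) ^ 3 / d ^ 3
      ≤ En (∑ k, aM K q Z Ms k) (cl (az K q d h ((s * (3 * d * K) / ‖P‖) • P)) (aY K q B Ys))

/-- **G5 (charged array, upper bound).**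
Proof: `S_upper` with the trial states of `S_mom` for `B` (radius `d/64`, excess `C_B/d⁶`; gap from
`Marg`), translated, and a fixed near minimiser (accuracy `η'`) for `Ys` with `Ns` electrons,
translated; `S_mult` in expectation: lattice - lattice:
`= Tvec w p̄ · p̄ + O(C_B/|w|⁴)`, `DDk = Tvec w P · P + O(|P|⁴/|w|⁵)`, `|p̄ - P| ≤ √ε₁|P| + C_B/d²`,
`S_lat (d)` for `Σ Tvec w (p̄-P) · (p̄+P)`; lattice - extra: `-l ⟨p̄, z_a - z_i⟩/|w|³ + O(C/|w|³)`,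
compare with `-l latPot`; extra - extra: `l²/|w| + O(C_s/|w|²)`, `S_grid`. -/
def S_arrayUp : Prop :=
  ∃ A : ℝ, 1 ≤ A ∧ ∀ (Z : ℕ) (B : Fin Z → E3) (P : E3) (ε₁ CB a η : ℝ) (Ms Ns : ℕ)
    (Ys : Fin Ms → E3) (v η' γ' s : ℝ),
    GoodB B P ε₁ CB → IsAH a → Marg B a η → 0 < η → η < 1 / 4 → 0 < v → 0 < η' → 0 < γ' →
    (s = 1 ∨ s = -1) →
    ∃ d0 : ℝ, 1 ≤ d0 ∧ ∀ (d h : ℝ) (K q : ℕ), d0 ≤ d → 1 ≤ K → 1 ≤ q →
      ‖P‖ * K ≤ v * d ^ 2 → d ≤ h → (q : ℝ) ≤ h → 2 * h * q ≤ d * K / 8 →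
      En (∑ k, aM K q Z Ns k) (cl (az K q d h ((s * (3 * d * K) / ‖P‖) • P)) (aY K q B Ys)) ≤
        (2 * K + 1) ^ 3 * En Z B + q ^ 3 * (En Ns Ys + η')
        + DDsum (az K q d h ((s * (3 * d * K) / ‖P‖) • P)) (aP K q P)
        - ((Ns : ℝ) - Ms) *
          (∑ b, latPot K d P none (apos q h ((s * (3 * d * K) / ‖P‖) • P) b))
        + A * ((Ns : ℝ) - Ms) ^ 2 * q ^ 5 / h
        + A * Real.sqrt ε₁ * ‖P‖ ^ 2 * (2 * K + 1) ^ 3 / d ^ 3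
        + A * |(Ns : ℝ) - Ms| * Real.sqrt ε₁ * v * q ^ 3
        + γ' * ((2 * K + 1) ^ 3 / d ^ 3 + q ^ 3)

/-! ### the polar molecule -/

/-- **Theorem D (polar fragment, helper19).** -/
def ThmD : Prop :=
  ∀ (κ D0 : ℝ), 0 < κ → ∃ (y : Fin 3 → E3) (p0 : E3) (δ0 C2 C : ℝ),
    p0 ≠ 0 ∧ ‖p0‖ ≤ 1 ∧ 0 ≤ δ0 ∧ 1 ≤ C2 ∧ 1 ≤ C ∧ δ0 * Real.sqrt C2 ≤ κ * ‖p0‖ ^ 2 ∧
    (∀ i j, i ≠ j → D0 ≤ ‖y i - y j‖) ∧
    ∀ r : ℝ, C ≤ r → ∀ ψ : (Fin 3 → Om) → ℝ, WF ψ → nsq ψ = 1 →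
      (∀ X, ψ X ≠ 0 → ∀ j, ‖(X j).1‖ ≤ r) →
      (∀ t : E3, |expv (fun X => inner ℝ t (vdip y X)) ψ - inner ℝ t p0|
        ≤ ‖t‖ * (δ0 + C * r * Real.sqrt (Qf y ψ - En 3 y))) ∧
      expv (fun X => ‖vdip y X‖ ^ 2) ψ ≤ C2 + C * r ^ 2 * (Qf y ψ - En 3 y)

/-- centres of the copies -/
def cz (M : ℕ) (L : ℝ) (i : Fin M) : E3 := EuclideanSpace.single 0 (((i : ℕ) : ℝ) * L)

/-- `M` copies of `b` on a line, spacing `L` -/
def cY (b : Fin 3 → E3) (M : ℕ) (L : ℝ) : (Σ _ : Fin M, Fin 3) → E3 :=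
  cl (cz M L) (fun _ => b)

/-- every copy has exactly three electrons -/
def goodA {ι : Type} [Fintype ι] {M : ℕ} (α : ι → Option (Fin M)) : Prop :=
  ∀ i : Fin M, Fintype.card {j // α j = some i} = 3

/-- electrons far from all copies -/
def nfar {ι : Type} [Fintype ι] (M : ℕ) (L t : ℝ) (φ : (ι → Om) → ℝ) : ℝ :=
  expv (fun X => ∑ j, if ∀ i : Fin M, t ≤ ‖(X j).1 - cz M L i‖ then (1 : ℝ) else 0) φ

/-- sum of the potentials of the copies -/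
def clPot {ι : Type} [Fintype ι] [DecidableEq ι] (b : Fin 3 → E3) (M : ℕ) (L : ℝ)
    (α : ι → Option (Fin M)) (X : ι → Om) : ℝ :=
  ∑ i : Fin M, pot (fun m => cz M L i + b m) (fun j : {j // α j = some i} => X j.1)

open Classical in
/-- weight of the bad sectors -/
def badW (M : ℕ) (L t : ℝ) (φ : (Fin (3 * M) → Om) → ℝ) : ℝ :=
  ∑ α : Fin (3 * M) → Option (Fin M),
    if goodA α then 0 else nsq (sector (cellPU t (cz M L)) α φ)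

open Classical in
/-- excess energy of the good sectors -/
def goodE (b : Fin 3 → E3) (M : ℕ) (L t : ℝ) (φ : (Fin (3 * M) → Om) → ℝ) : ℝ :=
  ∑ α : Fin (3 * M) → Option (Fin M),
    if goodA α then
      kin (sector (cellPU t (cz M L)) α φ) + expv (clPot b M L α) (sector (cellPU t (cz M L)) α φ)
        - M * En 3 b * nsq (sector (cellPU t (cz M L)) α φ)
    else 0

/-- **H1 (upper bound).** `S_upper` with the trial states of `S_mom` for `b`, radius `L^{3/8}`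
(excess `C L^{-9/4}`), neutral-neutral interaction by `S_mult` `≤ C r²/L³ = C L^{-9/4}`. -/
def S_compUp : Prop :=
  ∀ (b : Fin 3 → E3) (M : ℕ) (a η : ℝ), 1 ≤ M → IsAH a → Marg b a η → 0 < η → η < 1 / 4 →
    ∃ C L0 : ℝ, 1 ≤ C ∧ 1 ≤ L0 ∧ ∀ L : ℝ, L0 ≤ L →
      En (3 * M) (cY b M L) ≤ M * En 3 b + C * L ^ (-(9 / 4 : ℝ))

/-- **H2 (sectors of the composite).**
Proof: `S_ims` with `θ = cellPU t (cz M L)`.  Good `α`: `pot ≥ clPot - C t²/L³` on the sector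
(neutral - neutral, `S_mult`).  Bad `α`: `S_slice` for every copy as in `S_far_lower`:
`kin + ⟨pot⟩ ≥ (Σ_i En (n_i) b - C/t) ‖·‖²` and, with `D = Σ(3-n_i)₊ ≥ 1`, `E = Σ(n_i-3)₊ ≤ D`,
`Σ_i (En (n_i) b - En 3 b) ≥ D(1/4-η) - E(a+η) ≥ g0`.  Localisation error: `puG ≤ 10/t²`, nonzero
only at distance `≥ t/2` from all centres. -/
def S_compSec : Prop :=
  ∀ (b : Fin 3 → E3) (M : ℕ) (a η g0 : ℝ), 1 ≤ M → IsAH a → Marg b a η → 0 < η → 0 < g0 →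
    g0 ≤ 1 / 4 - a - 2 * η →
    ∃ C t0 : ℝ, 1 ≤ C ∧ 1 ≤ t0 ∧ ∀ (L t : ℝ) (φ : (Fin (3 * M) → Om) → ℝ), t0 ≤ t → 16 * t ≤ L →
      WF φ → nsq φ = 1 →
      g0 / 2 * badW M L t φ + goodE b M L t φ ≤
        (Qf (cY b M L) φ - M * En 3 b) + C * t ^ 2 / L ^ 3 + 10 / t ^ 2 * nfar M L (t / 2) φ ∧
      nfar M L t φ ≤ 3 * M * badW M L t φ ∧ 0 ≤ goodE b M L t φ

/-- **H3 (tails of the composite).**
Proof: iterate H2 over `t = 2^{-k} L^{3/8}`, `k = 8,...,0` (each step gains `C/t²`); then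
`nout (C L) ≤ 3 M badW`, and `S_tail` for `t ≥ C L` with dyadic summation. -/
def S_compTail : Prop :=
  ∀ (b : Fin 3 → E3) (M : ℕ) (a η g0 : ℝ), 1 ≤ M → IsAH a → Marg b a η → 0 < η → η < 1 / 4 →
    0 < g0 → g0 ≤ 1 / 4 - a - 2 * η →
    ∃ C L0 : ℝ, 1 ≤ C ∧ 1 ≤ L0 ∧ ∀ (L : ℝ) (φ : (Fin (3 * M) → Om) → ℝ), L0 ≤ L →
      WF φ → nsq φ = 1 →
      badW M L (L ^ (3 / 8 : ℝ)) φ ≤
        C * ((Qf (cY b M L) φ - En (3 * M) (cY b M L)) + L ^ (-(9 / 4 : ℝ))) ∧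
      goodE b M L (L ^ (3 / 8 : ℝ)) φ ≤
        C * ((Qf (cY b M L) φ - En (3 * M) (cY b M L)) + L ^ (-(9 / 4 : ℝ))) ∧
      (∀ ρ : ℝ, 1 ≤ ρ → (∀ X, φ X ≠ 0 → ∀ j, ‖(X j).1‖ ≤ ρ) →
        expv (fun X => ∑ j, if C * L ≤ ‖(X j).1‖ then ‖(X j).1‖ ^ 2 else 0) φ ≤
          C * (L ^ (-(1 / 4 : ℝ)) + ρ ^ 2 * (Qf (cY b M L) φ - En (3 * M) (cY b M L))))

/-- **H4 (dipole of a good sector).**
Proof: `vdip = Σ_i p̂_i`, `p̂_i - p0`; diagonal terms `≤ 2⟨‖p̂_i‖²⟩ + 2`; off-diagonal: `S_slice` on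
the electrons of the copy `i` with the vector `τ = p̂_k - p0` of the other copy as a parameter:
`⟨⟪τ, p̂_i - p0⟫⟩ ≤ ‖τ‖ δ0 ‖·‖² + β'‖τ‖² ‖·‖² + (C² t²/4β') · excess_i` (`x√e ≤ β'x² + e/4β'`);
`⟨‖τ‖²⟩ ≤ (2 C2 + 2)‖·‖² + 2 C t² excess_k`. -/
def S_compGood : Prop :=
  ∀ (b : Fin 3 → E3) (p0 : E3) (δ0 C2 C β : ℝ) (M : ℕ), 1 ≤ M → ‖p0‖ ≤ 1 → 0 ≤ δ0 → δ0 ≤ 1 →
    1 ≤ C2 → 1 ≤ C → 0 < β →
    (∀ r : ℝ, C ≤ r → ∀ ψ : (Fin 3 → Om) → ℝ, WF ψ → nsq ψ = 1 →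
      (∀ X, ψ X ≠ 0 → ∀ j, ‖(X j).1‖ ≤ r) →
      (∀ t : E3, |expv (fun X => inner ℝ t (vdip b X)) ψ - inner ℝ t p0|
        ≤ ‖t‖ * (δ0 + C * r * Real.sqrt (Qf b ψ - En 3 b))) ∧
      expv (fun X => ‖vdip b X‖ ^ 2) ψ ≤ C2 + C * r ^ 2 * (Qf b ψ - En 3 b)) →
    ∃ C' : ℝ, 1 ≤ C' ∧ ∀ (L t : ℝ) (φ : (Fin (3 * M) → Om) → ℝ)
      (α : Fin (3 * M) → Option (Fin M)), C ≤ t → 16 * t ≤ L → WF φ → goodA α →
      expv (fun X => ‖vdip (cY b M L) X - (M : ℝ) • p0‖ ^ 2) (sector (cellPU t (cz M L)) α φ) ≤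
        (M * (2 * C2 + 2) + M ^ 2 * (3 * δ0 * Real.sqrt C2 + β))
          * nsq (sector (cellPU t (cz M L)) α φ)
        + C' * t ^ 2 * (kin (sector (cellPU t (cz M L)) α φ)
            + expv (clPot b M L α) (sector (cellPU t (cz M L)) α φ)
            - M * En 3 b * nsq (sector (cellPU t (cz M L)) α φ))

/-- **H2b (slopes of the composite).**
Proof: `S_far_lower` with the clusters `b`: `D = Σ(3-n_i)₊`, `E = Σ(n_i-3)₊`,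
`Σ_i (En (n_i) b - En 3 b) ≥ D(1/4-η0) - E(a+η0)`; `D - E = k` for `3M - k` electrons: this is
`≥ k(1/4-η0)`; `E - D = k` for `3M + k` electrons: it is `≥ -k(a+η0)`.  `En (3M) (cY) ≤ M En 3 b + ε`
by `S_far_upper`.  Error `C N (3M+1)/L ≤ (η-η0) k/2` for `L ≥ L0(M, η-η0)`. -/
def S_compMarg : Prop :=
  ∀ (b : Fin 3 → E3) (M : ℕ) (a η0 η : ℝ), 1 ≤ M → IsAH a → Marg b a η0 → 0 < η0 → η0 < η →
    2 * η0 ≤ 1 / 4 - a →
    ∃ L0 : ℝ, 1 ≤ L0 ∧ ∀ L : ℝ, L0 ≤ L →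
      (∀ k : ℕ, 1 ≤ k → k ≤ 3 * M →
        k * (1 / 4 - η) ≤ En (3 * M - k) (cY b M L) - En (3 * M) (cY b M L)) ∧
      (∀ k : ℕ, 1 ≤ k → En (3 * M) (cY b M L) - En (3 * M + k) (cY b M L) ≤ k * (a + η))

/-- **H5 (the polar molecule).**  `κ = ε₁/64` in `ThmD`, `D0 ≥ 1` from `S_marg` (for three protons,
`η0 = min(η/2, (1/4-a)/8)`), `g0 = (1/4-a)/2`, `M ≥ 64 C2/(ε₁|p0|²)`, `β = ε₁|p0|²/8`, then `L` large
(`S_compMarg`; `S_compTail`, `S_compGood` with `t = L^{3/8}`); `P = M p0`;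
`‖vdip - P‖² ≤ C_M(L² + Σ|x|² 1_{|x| ≥ CL})` on the bad sectors, so their contribution is
`≤ C_M (L² badW + L^{-1/4} + ρ² ε) ≤ C_M L^{-1/4} + C_B ρ² ε`; good sectors:
`≤ M(2C2+2) + M²(3δ0√C2 + β) + C' L^{3/4} goodE`; fourth moment and `nout` by `S_mom`;
reindex `(Σ _ : Fin M, Fin 3) ≃ Fin (3 * M)` (`S_en`). -/
def S_comp : Prop :=
  ThmD → ∀ (a η ε₁ : ℝ), IsAH a → 0 < η → 0 < ε₁ → ε₁ ≤ 1 →
    ∃ (Z : ℕ) (B : Fin Z → E3) (P : E3) (CB : ℝ), GoodB B P ε₁ CB ∧ Marg B a η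

/-- the best affinity slope of all molecules (all protons) is at most `c` -/
def AffLe (c : ℝ) : Prop :=
  ∀ (M l : ℕ) (Y : Fin M → E3), 1 ≤ M → 1 ≤ l → Function.Injective Y →
    En M Y - En (M + l) Y ≤ l * c

/-- the ionisation slopes of all molecules are at least `c` -/
def IonGe (c : ℝ) : Prop :=
  ∀ (M k : ℕ) (Y : Fin M → E3), 1 ≤ k → k ≤ M → Function.Injective Y →
    k * c ≤ En (M - k) Y - En M Y

/-- **I1 (one array step).**  Sign `s`, `l = Ns - Ms`, `s l > 0`.  `AffLe c`, `IonGe c` are given.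
`a` from `S_aH`; `C` from `S_ker`, `A` = max of the constants of `S_arrayLow`, `S_arrayUp`,
`S_geom`, `S_grid`; `c1` = small constant of `S_geom`.
Hypotheses in words: `lam0` leaves the margin `4 A v` to the slopes of single protons; the
molecule `Ys` satisfies the slope inequality for all potentials in a window of width `2 A δ v`
around any value `u ∈ s [c1 v/2, A v]`, with `lam = lam0` or `lam = lam0 + u` (see `S_final`), and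
`Ns` electrons are optimal up to `c1 v |l|/16`.
Not used directly: it documents the choice of the parameters; `S_final` is the statement to prove. -/
def S_final : Prop :=
  S_en → S_en2 → S_slopes → S_aH → S_ker → S_geom → S_grid → S_arrayLow → S_arrayUp → S_comp →
    ThmD → PQ1 → False

end MolDis
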