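import Pool.Agent.Lib.MP_59f35a_mp.HStmts
import Pool.Agent.Lib.MP_59f35a_mp.Stmts3

/-!
# MP_59f35a_mp : uniform second moments, interface of Theorem D
-/

noncomputable section

open MeasureTheory

namespace MolDis.H

/-- **F8u (second moments, uniform in the geometry).**  `t1 = 4l`; dyadic sum
`∫ Σ‖x‖² ψ² ≤ 3 t1² + Σ_k 4 (2^k t1)² nout (2^k t1)`, `S_tail` with `g = 1/8` (`S_ion`), `R := l`:
`(2^{k+1} t1)² nout (2^{k+1} t1) ≤ 4 (2^k t1)² · 48 ε + 576 nout (2^k t1)` and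
`576 ≤ (2^k t1)²/8` for `r0` large. -/
def S_mom2v : Prop :=
  -1 / 2 < En 2 Hy → ∃ C r0 : ℝ, 1 ≤ C ∧ 1 ≤ r0 ∧
    ∀ (r a l R : ℝ) (ψ : (Fin 3 → Om) → ℝ),
    r0 ≤ r → r ^ 4 ≤ a → a ^ 6 ≤ l → 8 * l ≤ R → WF ψ → nsq ψ = 1 →
    (∀ X, ψ X ≠ 0 → ∀ j, ‖(X j).1‖ ≤ R) →
    expv (fun X => ‖vdip (yv a l) X‖ ^ 2) ψ ≤
      C * l ^ 2 + C * R ^ 2 * (Qf (yv a l) ψ - En 3 (yv a l))

/-- **Theorem D in the form used by the composite.** -/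
def S_thmD' : Prop := -1 / 2 < En 2 Hy → ThmD

end MolDis.H
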