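import Pool.Agent.Lib.MP_59f35a_mp.Stmts1

/-!
# MP_59f35a_mp : elementary facts on the class `LC` (piece A1a)
-/

set_option autoImplicit false
set_option linter.unusedSectionVars false

noncomputable section

open MeasureTheory Set Filter Topology
open scoped ENNReal NNReal

namespace MolDis

namespace LcBasic

variable {ι : Type} [Fintype ι] [DecidableEq ι]

instance sigmaFinite_mu1 : SigmaFinite mu1 := by
  unfold mu1; infer_instance

/-- the box of radius `R` -/
def box (ι : Type) (R : ℝ) : Set (ι → Om) :=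
  Set.univ.pi fun _ => (Metric.closedBall (0 : E3) R) ×ˢ (Set.univ : Set Bool)

omit [Fintype ι] [DecidableEq ι] in
lemma mem_box {R : ℝ} {X : ι → Om} : X ∈ box ι R ↔ ∀ j, ‖(X j).1‖ ≤ R := by
  simp [box]

lemma measurableSet_box (R : ℝ) : MeasurableSet (box ι R) :=
  MeasurableSet.univ_pi fun _ => Metric.isClosed_closedBall.measurableSet.prod MeasurableSet.univ

/-- the one-electron measure of a ball -/
def nu (R : ℝ) : Measure Om :=
  mu1.restrict ((Metric.closedBall (0 : E3) R) ×ˢ (Set.univ : Set Bool))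

lemma nu_eq (R : ℝ) : nu R =
    ((volume : Measure E3).restrict (Metric.closedBall 0 R)).prod Measure.count := by
  unfold nu mu1
  rw [← Measure.prod_restrict, Measure.restrict_univ]

instance finite_nu (R : ℝ) : IsFiniteMeasure (nu R) := by
  rw [nu_eq]
  have : IsFiniteMeasure ((volume : Measure E3).restrict (Metric.closedBall 0 R)) :=
    ⟨by rw [Measure.restrict_apply_univ]; exact measure_closedBall_lt_top⟩
  infer_instance

lemma restrict_box (R : ℝ) : (mu ι).restrict (box ι R) = Measure.pi fun _ : ι => nu R := by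
  unfold mu box nu
  rw [Measure.restrict_pi_pi]

lemma mu_box_lt_top (R : ℝ) : mu ι (box ι R) < ⊤ := by
  have h : ((mu ι).restrict (box ι R)) univ < ⊤ := by
    rw [restrict_box]
    exact measure_lt_top _ _
  rwa [Measure.restrict_apply_univ] at h

lemma measurable_cou_left (a : E3) : Measurable fun x : E3 => cou x a := by
  unfold cou; fun_prop

lemma cou_nonneg (x y : E3) : 0 ≤ cou x y := inv_nonneg.mpr (norm_nonneg _)

lemma cou_self (x : E3) : cou x x = 0 := by simp [cou]

lemma loc_lt_top : ∫⁻ x in Metric.closedBall (0 : E3) 1, ENNReal.ofReal (‖x‖⁻¹) < ⊤ := by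
  have h1 : LocallyIntegrable (fun u : E3 => ‖u‖⁻¹) volume := by
    refine locallyIntegrable_of_norm_le_rpow (C := 1) (α := 1) (by simp) (by simp) ?_ ?_
    · refine Filter.Eventually.of_forall fun x => ?_
      rw [Real.rpow_neg_one, norm_inv, norm_norm, one_mul]
    · exact (measurable_norm.inv).aestronglyMeasurable
  have h2 := (locallyIntegrable_iff.mp h1) _ (isCompact_closedBall (0 : E3) 1)
  have h3 := h2.hasFiniteIntegral
  rw [hasFiniteIntegral_iff_ofReal (ae_of_all _ fun x => by positivity)] at h3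
  exact h3

/-- uniform bound for the Coulomb potential of a ball -/
lemma kernel_bound (R : ℝ) : ∃ C : ℝ≥0∞, C ≠ ⊤ ∧
    ∀ y : E3, ∫⁻ p, ENNReal.ofReal (cou p.1 y) ∂(nu R) ≤ C := by
  set K := ∫⁻ x in Metric.closedBall (0 : E3) 1, ENNReal.ofReal (‖x‖⁻¹) with hK
  refine ⟨(volume (Metric.closedBall (0 : E3) R) + K) * 2, ?_, ?_⟩
  · refine ENNReal.mul_ne_top ?_ (by simp)
    exact ENNReal.add_ne_top.mpr ⟨measure_closedBall_lt_top.ne, loc_lt_top.ne⟩
  intro y
  have hm : Measurable fun x : E3 => ENNReal.ofReal (cou x y) :=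
    (measurable_cou_left y).ennreal_ofReal
  rw [nu_eq, lintegral_prod (fun p : E3 × Bool => ENNReal.ofReal (cou p.1 y))
    (hm.comp measurable_fst).aemeasurable]
  have h1 : ∀ x : E3, ∫⁻ _ : Bool, ENNReal.ofReal (cou x y) ∂Measure.count =
      ENNReal.ofReal (cou x y) * 2 := by
    intro x
    rw [lintegral_const]
    congr 1
    rw [Measure.count_univ]
    simp
  simp_rw [h1]
  rw [lintegral_mul_const _ hm]
  gcongr
  have h2 : ∀ x : E3, ENNReal.ofReal (cou x y) ≤ 1 +
      (Metric.closedBall (0 : E3) 1).indicator (fun z => ENNReal.ofReal (‖z‖⁻¹)) (x - y) := by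
    intro x
    by_cases hx : x - y ∈ Metric.closedBall (0 : E3) 1
    · rw [indicator_of_mem hx]
      unfold cou
      exact le_add_self
    · rw [indicator_of_notMem hx, add_zero]
      rw [mem_closedBall_zero_iff, not_le] at hx
      unfold cou
      rw [ENNReal.ofReal_le_one]
      exact inv_le_one_of_one_le₀ hx.le
  calc ∫⁻ x in Metric.closedBall (0 : E3) R, ENNReal.ofReal (cou x y)
      ≤ ∫⁻ x in Metric.closedBall (0 : E3) R, (1 +
        (Metric.closedBall (0 : E3) 1).indicator (fun z => ENNReal.ofReal (‖z‖⁻¹)) (x - y)) :=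
        lintegral_mono h2
    _ = volume (Metric.closedBall (0 : E3) R) + ∫⁻ x in Metric.closedBall (0 : E3) R,
        (Metric.closedBall (0 : E3) 1).indicator (fun z => ENNReal.ofReal (‖z‖⁻¹)) (x - y) := by
        rw [lintegral_add_left measurable_const, lintegral_const, one_mul,
          Measure.restrict_apply_univ]
    _ ≤ volume (Metric.closedBall (0 : E3) R) + ∫⁻ x : E3,
        (Metric.closedBall (0 : E3) 1).indicator (fun z => ENNReal.ofReal (‖z‖⁻¹)) (x - y) := by
        gcongr
        exact Measure.restrict_le_self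
    _ = volume (Metric.closedBall (0 : E3) R) + K := by
        congr 1
        rw [lintegral_sub_right_eq_self
          (fun z => (Metric.closedBall (0 : E3) 1).indicator (fun z => ENNReal.ofReal (‖z‖⁻¹)) z) y,
          lintegral_indicator Metric.isClosed_closedBall.measurableSet]

/-- integrate out one coordinate -/
lemma lint_pi_lt_top (R : ℝ) (F : (ι → Om) → ℝ≥0∞) (hF : Measurable F) (j : ι) (C : ℝ≥0∞)
    (hC : C ≠ ⊤) (h : ∀ X : ι → Om, ∫⁻ p, F (Function.update X j p) ∂(nu R) ≤ C) :
    ∫⁻ X, F X ∂(Measure.pi fun _ : ι => nu R) < ⊤ := by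
  let x0 : ι → Om := fun _ => (0, false)
  rw [lintegral_eq_lmarginal_univ x0, lmarginal_erase' F hF (Finset.mem_univ j)]
  refine lt_of_le_of_lt (lmarginal_mono (g := fun _ => C) (fun X => h X) x0) ?_
  unfold lmarginal
  rw [lintegral_const]
  exact ENNReal.mul_lt_top (lt_top_iff_ne_top.mpr hC) (measure_lt_top _ _)

lemma integrable_cou_left (R : ℝ) (j : ι) (a : E3) :
    Integrable (fun X : ι → Om => cou (X j).1 a) (Measure.pi fun _ : ι => nu R) := by
  obtain ⟨C, hC, h⟩ := kernel_bound R
  have hm : Measurable fun X : ι → Om => cou (X j).1 a :=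
    (measurable_cou_left a).comp (measurable_pi_apply j).fst
  refine ⟨hm.aestronglyMeasurable, ?_⟩
  rw [hasFiniteIntegral_iff_ofReal (ae_of_all _ fun X => cou_nonneg _ _)]
  refine lint_pi_lt_top R _ hm.ennreal_ofReal j C hC fun X => ?_
  simp only [Function.update_self]
  exact h a

lemma integrable_cou_pair (R : ℝ) (j k : ι) :
    Integrable (fun X : ι → Om => cou (X j).1 (X k).1) (Measure.pi fun _ : ι => nu R) := by
  by_cases hjk : j = k
  · subst hjk
    simp only [cou_self]
    exact integrable_zero _ _ _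
  obtain ⟨C, hC, h⟩ := kernel_bound R
  have hm : Measurable fun X : ι → Om => cou (X j).1 (X k).1 := by
    unfold cou
    fun_prop
  refine ⟨hm.aestronglyMeasurable, ?_⟩
  rw [hasFiniteIntegral_iff_ofReal (ae_of_all _ fun X => cou_nonneg _ _)]
  refine lint_pi_lt_top R _ hm.ennreal_ofReal j C hC fun X => ?_
  simp only [Function.update_self, Function.update_of_ne (Ne.symm hjk)]
  exact h _

omit [Fintype ι] in
@[simp] lemma put_self (X : ι → Om) (j : ι) : put X j (X j).1 = X := by
  unfold put
  simp

/-- changing the positions of the electrons in `S` -/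
lemma lip_finset {ψ : (ι → Om) → ℝ} {K : ℝ}
    (hK : ∀ X j y, |ψ (put X j y) - ψ X| ≤ K * ‖y - (X j).1‖) (s : ι → Bool) (x y : ι → E3)
    (S : Finset ι) :
    |ψ (fun j => (if j ∈ S then y j else x j, s j)) - ψ (fun j => (x j, s j))| ≤
      K * ∑ j ∈ S, ‖y j - x j‖ := by
  induction S using Finset.induction with
  | empty => simp
  | insert i S hi ih =>
    have h1 : (fun j => ((if j ∈ insert i S then y j else x j, s j) : Om)) =
        put (fun j => (if j ∈ S then y j else x j, s j)) i (y i) := by
      funext j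
      unfold put
      by_cases hj : j = i
      · subst hj
        simp
      · rw [Function.update_of_ne hj]
        simp [Finset.mem_insert, hj]
    rw [h1]
    have h2 := hK (fun j => (if j ∈ S then y j else x j, s j)) i (y i)
    simp only [hi, if_false] at h2
    rw [Finset.sum_insert hi, mul_add]
    calc _ = |(ψ (put (fun j => (if j ∈ S then y j else x j, s j)) i (y i)) -
          ψ (fun j => (if j ∈ S then y j else x j, s j))) +
          (ψ (fun j => (if j ∈ S then y j else x j, s j)) - ψ (fun j => (x j, s j)))| := by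
          congr 1; ring
      _ ≤ _ := (abs_add_le _ _).trans (add_le_add h2 ih)

lemma cont_slice {ψ : (ι → Om) → ℝ} (hψ : LC ψ) (s : ι → Bool) :
    Continuous (fun x : ι → E3 => ψ (fun j => (x j, s j))) := by
  obtain ⟨K0, hK0⟩ := hψ.lip
  have hK : ∀ X j y, |ψ (put X j y) - ψ X| ≤ |K0| * ‖y - (X j).1‖ := fun X j y =>
    (hK0 X j y).trans (by gcongr; exact le_abs_self _)
  have hlip : LipschitzWith (Real.toNNReal (|K0| * Fintype.card ι))
      (fun x : ι → E3 => ψ (fun j => (x j, s j))) := by
    refine LipschitzWith.of_dist_le_mul fun y x => ?_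
    rw [Real.coe_toNNReal _ (by positivity), Real.dist_eq]
    have h1 := lip_finset hK s x y Finset.univ
    simp only [Finset.mem_univ, if_true] at h1
    refine h1.trans ?_
    rw [mul_assoc]
    gcongr
    calc ∑ j, ‖y j - x j‖ ≤ ∑ _j : ι, dist y x := Finset.sum_le_sum fun j _ => by
          rw [← dist_eq_norm]; exact dist_le_pi_dist y x j
      _ = _ := by simp
  exact hlip.continuous

lemma continuous_lc {ψ : (ι → Om) → ℝ} (hψ : LC ψ) : Continuous ψ := by
  rw [continuous_iff_continuousAt]
  intro X0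
  have hopen : IsOpen {X : ι → Om | ∀ j, (X j).2 = (X0 j).2} := by
    have : {X : ι → Om | ∀ j, (X j).2 = (X0 j).2} = ⋂ j, {X : ι → Om | (X j).2 = (X0 j).2} := by
      ext X; simp
    rw [this]
    refine isOpen_iInter_of_finite fun j => ?_
    have hc : Continuous fun X : ι → Om => (X j).2 := (continuous_apply j).snd
    exact (isOpen_discrete ({(X0 j).2} : Set Bool)).preimage hc
  have hc : Continuous fun X : ι → Om => (fun j => (X j).1 : ι → E3) := by fun_prop
  have h1 : ContinuousAt (fun X : ι → Om => ψ (fun j => ((X j).1, (X0 j).2))) X0 :=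
    ((cont_slice hψ (fun j => (X0 j).2)).comp hc).continuousAt
  refine h1.congr ?_
  filter_upwards [hopen.mem_nhds (by simp : X0 ∈ {X : ι → Om | ∀ j, (X j).2 = (X0 j).2})]
    with X hX
  congr 1
  funext j
  rw [← hX j]

lemma bounded_lc {ψ : (ι → Om) → ℝ} (hψ : LC ψ) : ∃ B : ℝ, ∀ X, |ψ X| ≤ B := by
  obtain ⟨K0, hK0⟩ := hψ.lip
  obtain ⟨R, hR⟩ := hψ.supp
  rcases isEmpty_or_nonempty ι with he | ⟨⟨j⟩⟩
  · refine ⟨|ψ (fun _ => (0, false))|, fun X => ?_⟩
    rw [Subsingleton.elim X (fun _ => (0, false))]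
  · refine ⟨|K0| * (|R| + 1 + |R|), fun X => ?_⟩
    by_cases hX : ψ X = 0
    · rw [hX, abs_zero]; positivity
    let y : E3 := EuclideanSpace.single 0 (|R| + 1)
    have hy : ‖y‖ = |R| + 1 := by
      rw [PiLp.norm_single, Real.norm_eq_abs, abs_of_nonneg (by positivity)]
    have h0 : ψ (put X j y) = 0 := by
      by_contra hne
      have := hR _ hne j
      unfold put at this
      simp only [Function.update_self] at this
      rw [hy] at this
      linarith [le_abs_self R]
    have h1 := hK0 X j y
    rw [h0, zero_sub, abs_neg] at h1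
    refine h1.trans ?_
    have h2 : ‖y - (X j).1‖ ≤ |R| + 1 + |R| := by
      refine (norm_sub_le _ _).trans ?_
      rw [hy]
      linarith [hR X hX j, le_abs_self R]
    calc K0 * ‖y - (X j).1‖ ≤ |K0| * ‖y - (X j).1‖ := by gcongr; exact le_abs_self _
      _ ≤ _ := by gcongr

lemma continuous_put (j : ι) : Continuous fun p : (ι → Om) × E3 => put p.1 j p.2 := by
  unfold put
  refine continuous_fst.update j ?_
  fun_prop

lemma measurable_gradSq {ψ : (ι → Om) → ℝ} (hψ : LC ψ) (j : ι) : Measurable (gradSq ψ j) := by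
  have hc : Continuous (Function.uncurry fun (X : ι → Om) (y : E3) => ψ (put X j y)) :=
    (continuous_lc hψ).comp (continuous_put j)
  have h1 := measurable_fderiv_with_param ℝ hc
  have h2 : Measurable fun X : ι → Om => (X, (X j).1) :=
    measurable_id.prodMk (measurable_pi_apply j).fst
  exact ((h1.comp h2).norm.pow_const 2)

lemma gradSq_le {ψ : (ι → Om) → ℝ} {K : ℝ} (hK0 : 0 ≤ K)
    (hK : ∀ X j y, |ψ (put X j y) - ψ X| ≤ K * ‖y - (X j).1‖) (j : ι) (X : ι → Om) :
    gradSq ψ j X ≤ K ^ 2 := by
  unfold gradSq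
  refine pow_le_pow_left₀ (norm_nonneg _) ?_ 2
  refine norm_fderiv_le_of_lip' ℝ hK0 (Filter.Eventually.of_forall fun y => ?_)
  rw [put_self, Real.norm_eq_abs]
  exact hK X j y

lemma gradSq_zero {ψ : (ι → Om) → ℝ} {R : ℝ} (hR : ∀ X, ψ X ≠ 0 → ∀ j, ‖(X j).1‖ ≤ R) (j : ι)
    (X : ι → Om) (hX : X ∉ box ι R) : gradSq ψ j X = 0 := by
  rw [mem_box] at hX
  simp only [not_forall, not_le] at hX
  obtain ⟨k, hk⟩ := hX
  unfold gradSq
  have hev : (fun y => ψ (put X j y)) =ᶠ[𝓝 (X j).1] fun _ => 0 := by
    by_cases hjk : k = j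
    · subst hjk
      have hopen : IsOpen {y : E3 | R < ‖y‖} := isOpen_lt continuous_const continuous_norm
      filter_upwards [hopen.mem_nhds hk] with y hy
      by_contra hne
      have := hR _ hne k
      unfold put at this
      simp only [Function.update_self] at this
      exact absurd this (not_le.mpr hy)
    · refine Filter.Eventually.of_forall fun y => ?_
      by_contra hne
      have := hR _ hne k
      unfold put at this
      rw [Function.update_of_ne hjk] at this
      exact absurd this (not_le.mpr hk)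
  rw [hev.fderiv_eq]
  simp

lemma integrable_of_box {F : (ι → Om) → ℝ} {R B : ℝ} (hm : Measurable F)
    (hb : ∀ X, |F X| ≤ B) (h0 : ∀ X, X ∉ box ι R → F X = 0) : Integrable F (mu ι) := by
  rw [← integrableOn_iff_integrable_of_support_subset (s := box ι R)
    (fun X hX => by by_contra hn; exact hX (h0 X hn))]
  exact Measure.integrableOn_of_bounded (mu_box_lt_top R).ne hm.aestronglyMeasurable
    (M := B) (ae_of_all _ fun X => by rw [Real.norm_eq_abs]; exact hb X)

end LcBasic

open LcBasic

theorem p_lc : S_lc := by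
  intro ι _ _ ψ hψ
  obtain ⟨K0, hK0⟩ := hψ.lip
  have hK : ∀ X j y, |ψ (put X j y) - ψ X| ≤ |K0| * ‖y - (X j).1‖ := fun X j y =>
    (hK0 X j y).trans (by gcongr; exact le_abs_self _)
  obtain ⟨R, hR⟩ := hψ.supp
  obtain ⟨B, hB⟩ := bounded_lc hψ
  have hm : Measurable ψ := (continuous_lc hψ).measurable
  have h0 : ∀ X, X ∉ box ι R → ψ X = 0 := fun X hX => by
    by_contra hne
    exact hX (mem_box.mpr (hR X hne))
  have hsq : ∀ X, ψ X ^ 2 ≤ B ^ 2 := fun X => by
    rw [← sq_abs]
    exact pow_le_pow_left₀ (abs_nonneg _) (hB X) 2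
  refine ⟨hm, ⟨B, hB⟩, cont_slice hψ, measurable_gradSq hψ, fun j => ?_, fun W hW => ?_, ?_⟩
  · refine integrable_of_box (measurable_gradSq hψ j) (B := |K0| ^ 2) (R := R) (fun X => ?_)
      (gradSq_zero hR j)
    rw [abs_of_nonneg (by unfold gradSq; positivity)]
    exact gradSq_le (abs_nonneg _) hK j X
  · obtain ⟨C, S, hC⟩ := hW.2 R
    rw [← integrableOn_iff_integrable_of_support_subset (s := box ι R)
      (fun X hX => by
        by_contra hn
        exact hX (by simp [h0 X hn]))]
    have hg : Integrable (fun X : ι → Om => C * (1 + ∑ j, ∑ a ∈ S, cou (X j).1 a +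
        ∑ j, ∑ k, cou (X j).1 (X k).1) * B ^ 2) (Measure.pi fun _ : ι => nu R) := by
      refine Integrable.mul_const (Integrable.const_mul ?_ C) _
      refine Integrable.add (Integrable.add (integrable_const _) ?_) ?_
      · exact integrable_finsetSum _ fun j _ => integrable_finsetSum _ fun a _ =>
          integrable_cou_left R j a
      · exact integrable_finsetSum _ fun j _ => integrable_finsetSum _ fun k _ =>
          integrable_cou_pair R j k
    rw [← restrict_box] at hg
    refine hg.mono' (hW.1.mul (hm.pow_const 2)).aestronglyMeasurable ?_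
    refine (ae_restrict_iff' (measurableSet_box R)).mpr (ae_of_all _ fun X hX => ?_)
    have h1 := hC X (mem_box.mp hX)
    rw [Real.norm_eq_abs, abs_mul, abs_of_nonneg (sq_nonneg (ψ X))]
    exact mul_le_mul h1 (hsq X) (sq_nonneg _) ((abs_nonneg _).trans h1)
  · refine integrable_of_box (hm.pow_const 2) (B := B ^ 2) (R := R) (fun X => ?_)
      (fun X hX => by rw [h0 X hX]; norm_num)
    rw [abs_of_nonneg (sq_nonneg _)]
    exact hsq X

end MolDis
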