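import Pool.Agent.Lib.MP_59f35a_mp.LcBasic

/-!
# MP_59f35a_mp : mollification (helper99)
-/

open MeasureTheory Filter Topology
set_option linter.unusedSectionVars false
noncomputable section
namespace MolDis
namespace Bridge

section Moll
variable {E : Type} [NormedAddCommGroup E] [NormedSpace ℝ E] [FiniteDimensional ℝ E]
  [MeasureSpace E] [BorelSpace E] [(volume : Measure E).IsAddHaarMeasure]

/-- mollification -/
def moll (K g : E → ℝ) (x : E) : ℝ := ∫ t, g t * K (x - t)

/-- smooth probability kernel -/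
structure Ker (K : E → ℝ) : Prop where
  smooth : ContDiff ℝ (⊤ : ℕ∞) K
  supp : HasCompactSupport K
  nonneg : ∀ t, 0 ≤ K t
  one : ∫ t, K t = 1

variable {K g : E → ℝ}

theorem moll_contDiff (hK : Ker K) (hg : Continuous g) : ContDiff ℝ (⊤ : ℕ∞) (moll K g) := by
  have h := hK.supp.contDiff_convolution_right (ContinuousLinearMap.mul ℝ ℝ) (μ := volume)
    (hg.locallyIntegrable (μ := volume)) hK.smooth
  exact h

theorem moll_supp (hK : Ker K) (hg : HasCompactSupport g) : HasCompactSupport (moll K g) :=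
  HasCompactSupport.convolution (ContinuousLinearMap.mul ℝ ℝ) (μ := volume) hg hK.supp

theorem ker_cont (hK : Ker K) : Continuous K := hK.smooth.continuous

theorem ker_shift_int (hK : Ker K) (x : E) : Integrable (fun t => K (x - t)) := by
  have h : Integrable K := (ker_cont hK).integrable_of_hasCompactSupport hK.supp
  exact h.comp_sub_left x

theorem ker_shift_one (hK : Ker K) (x : E) : ∫ t, K (x - t) = 1 := by
  rw [integral_sub_left_eq_self (fun t => K t) volume x]
  exact hK.one

theorem mul_ker_int (hK : Ker K) {D : E → ℝ} (hD : Measurable D) {B : ℝ} (hB : ∀ t, |D t| ≤ B)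
    (x : E) : Integrable (fun t => D t * K (x - t)) := by
  have := (ker_shift_int hK x).bdd_mul (c := B) hD.aestronglyMeasurable (ae_of_all _ hB)
  exact this

theorem moll_lineDeriv (hK : Ker K) {C : NNReal} (hg : LipschitzWith C g)
    (hgs : HasCompactSupport g) (x v : E) :
    lineDeriv ℝ (moll K g) x v = ∫ t, lineDeriv ℝ g t v * K (x - t) := by
  have h1 := hg.integral_inv_smul_sub_mul_tendsto_integral_lineDeriv_mul (μ := volume)
    (g := fun t => K (x - t)) (ker_shift_int hK x) v
  have hd : DifferentiableAt ℝ (moll K g) x :=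
    ((moll_contDiff hK hg.continuous).differentiable (by simp)).differentiableAt
  have h2 := (hd.lineDifferentiableAt (v := v)).hasLineDerivAt.tendsto_slope_zero_right
  refine tendsto_nhds_unique h2 (h1.congr fun h => ?_)
  obtain ⟨B, hB⟩ := hgs.exists_bound_of_continuous hg.continuous
  have e1 : ∀ y : E, Integrable (fun t => g (t + y) * K (x - t)) := fun y =>
    mul_ker_int hK ((hg.continuous.comp (continuous_id.add continuous_const)).measurable)
      (fun t => hB (t + y)) x
  have e2 : moll K g (x + h • v) = ∫ t, g (t + h • v) * K (x - t) := by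
    unfold moll
    rw [← integral_add_right_eq_self (fun t => g t * K (x + h • v - t)) (h • v)]
    refine integral_congr_ae (ae_of_all _ fun t => ?_)
    show g (t + h • v) * K (x + h • v - (t + h • v)) = _
    congr 2
    abel
  have e3 : moll K g x = ∫ t, g t * K (x - t) := rfl
  have e4 : Integrable (fun t => g t * K (x - t)) := by simpa using e1 0
  rw [e2, e3, ← integral_sub (e1 _) e4, ← integral_smul]
  refine integral_congr_ae (ae_of_all _ fun t => ?_)
  simp only [smul_eq_mul]
  ring

theorem jensen (hK : Ker K) {D : E → ℝ} (hD : Measurable D) {B : ℝ} (hB : ∀ t, |D t| ≤ B)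
    (x : E) : (∫ t, D t * K (x - t)) ^ 2 ≤ ∫ t, D t ^ 2 * K (x - t) := by
  obtain ⟨m, hm⟩ : ∃ m, m = ∫ t, D t * K (x - t) := ⟨_, rfl⟩
  rw [← hm]
  have hB2 : ∀ t, |D t ^ 2| ≤ B ^ 2 := fun t => by
    rw [abs_pow]
    exact pow_le_pow_left₀ (abs_nonneg _) (hB t) 2
  have i1 := mul_ker_int hK hD hB x
  have i2 := mul_ker_int hK (hD.pow_const 2) hB2 x
  have i3 := ker_shift_int hK x
  have h0 : 0 ≤ ∫ t, (D t - m) ^ 2 * K (x - t) :=
    integral_nonneg fun t => mul_nonneg (sq_nonneg _) (hK.nonneg _)
  have h1 : ∫ t, (D t - m) ^ 2 * K (x - t)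
      = (∫ t, D t ^ 2 * K (x - t)) - (2 * m) * (∫ t, D t * K (x - t))
        + m ^ 2 * ∫ t, K (x - t) := by
    rw [← integral_const_mul, ← integral_const_mul, ← integral_sub i2 (i1.const_mul _)]
    refine Eq.trans ?_ (integral_add (i2.sub (i1.const_mul (2 * m))) (i3.const_mul (m ^ 2)))
    refine integral_congr_ae (ae_of_all _ fun t => ?_)
    show (D t - m) ^ 2 * K (x - t) = D t ^ 2 * K (x - t) - 2 * m * (D t * K (x - t))
      + m ^ 2 * K (x - t)
    ring
  rw [h1, ker_shift_one hK, ← hm] at h0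
  nlinarith

theorem moll_energy (hK : Ker K) {C : NNReal} (hg : LipschitzWith C g)
    (hgs : HasCompactSupport g) (v : E) :
    ∫ x, (lineDeriv ℝ (moll K g) x v) ^ 2 ≤ ∫ x, (lineDeriv ℝ g x v) ^ 2 := by
  have hm : Measurable fun t => lineDeriv ℝ g t v := measurable_lineDeriv hg.continuous
  have hb : ∀ t, |lineDeriv ℝ g t v| ≤ C * ‖v‖ := fun t => norm_lineDeriv_le_of_lipschitz ℝ hg
  have hz : ∀ t, t ∉ tsupport g → lineDeriv ℝ g t v = 0 := by
    intro t ht
    have h : g =ᶠ[nhds t] fun _ => (0 : ℝ) := notMem_tsupport_iff_eventuallyEq.mp ht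
    rw [h.lineDeriv_eq]
    unfold lineDeriv
    simp
  have hi : Integrable (fun t => (lineDeriv ℝ g t v) ^ 2) := by
    have hc := hgs.isCompact
    have h1 : Integrable (Set.indicator (tsupport g) (fun _ => (C * ‖v‖) ^ 2)) volume := by
      rw [integrable_indicator_iff hc.measurableSet]
      exact integrableOn_const (hs := hc.measure_lt_top.ne)
    refine h1.mono' (hm.pow_const 2).aestronglyMeasurable (ae_of_all _ fun t => ?_)
    by_cases ht : t ∈ tsupport g
    · rw [Set.indicator_of_mem ht, Real.norm_eq_abs, abs_pow]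
      exact pow_le_pow_left₀ (abs_nonneg _) (hb t) 2
    · rw [Set.indicator_of_notMem ht, hz t ht]
      simp
  have hKi : Integrable K := (ker_cont hK).integrable_of_hasCompactSupport hK.supp
  have h2 : ∫ x, (∫ t, (lineDeriv ℝ g t v) ^ 2 * K (x - t)) = ∫ x, (lineDeriv ℝ g x v) ^ 2 := by
    have h3 := integral_convolution (μ := volume) (ν := volume) (ContinuousLinearMap.mul ℝ ℝ)
      hi hKi
    rw [hK.one] at h3
    simpa [convolution] using h3
  have h4 : Integrable (fun x => ∫ t, (lineDeriv ℝ g t v) ^ 2 * K (x - t)) :=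
    Integrable.integrable_convolution (μ := volume) (ContinuousLinearMap.mul ℝ ℝ) hi hKi
  rw [← h2]
  refine integral_mono_of_nonneg (ae_of_all _ fun x => sq_nonneg _) h4 (ae_of_all _ fun x => ?_)
  show (lineDeriv ℝ (moll K g) x v) ^ 2 ≤ ∫ t, (lineDeriv ℝ g t v) ^ 2 * K (x - t)
  rw [moll_lineDeriv hK hg hgs]
  exact jensen hK hm hb x

theorem moll_bound (hK : Ker K) {B : ℝ} (hB : ∀ t, |g t| ≤ B) (x : E) :
    |moll K g x| ≤ B := by
  have h1 : ‖∫ t, g t * K (x - t)‖ ≤ ∫ t, B * K (x - t) := by
    refine norm_integral_le_of_norm_le ((ker_shift_int hK x).const_mul B) (ae_of_all _ fun t => ?_)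
    rw [norm_mul, Real.norm_eq_abs, Real.norm_eq_abs, abs_of_nonneg (hK.nonneg _)]
    exact mul_le_mul_of_nonneg_right (hB t) (hK.nonneg _)
  rw [integral_const_mul, ker_shift_one hK, mul_one] at h1
  exact h1

theorem moll_close (hK : Ker K) {C : NNReal} (hg : LipschitzWith C g)
    (hgs : HasCompactSupport g) {ε : ℝ} (hε : ∀ t, K t ≠ 0 → ‖t‖ ≤ ε) (x : E) :
    |moll K g x - g x| ≤ C * ε := by
  obtain ⟨B, hB⟩ := hgs.exists_bound_of_continuous hg.continuous
  have i1 := mul_ker_int hK hg.continuous.measurable hB x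
  have e1 : moll K g x - g x = ∫ t, (g t - g x) * K (x - t) := by
    have : ∫ t, (g t - g x) * K (x - t) = (∫ t, g t * K (x - t)) - g x * ∫ t, K (x - t) := by
      rw [← integral_const_mul, ← integral_sub i1 ((ker_shift_int hK x).const_mul _)]
      refine integral_congr_ae (ae_of_all _ fun t => ?_)
      simp only
      ring
    rw [this, ker_shift_one hK, mul_one]
    rfl
  rw [e1]
  have h1 : ‖∫ t, (g t - g x) * K (x - t)‖ ≤ ∫ t, (C * ε) * K (x - t) := by
    refine norm_integral_le_of_norm_le ((ker_shift_int hK x).const_mul _) (ae_of_all _ fun t => ?_)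
    rw [norm_mul, Real.norm_eq_abs, Real.norm_eq_abs, abs_of_nonneg (hK.nonneg _)]
    by_cases h0 : K (x - t) = 0
    · rw [h0]; simp
    · refine mul_le_mul_of_nonneg_right ?_ (hK.nonneg _)
      have h2 := hg.dist_le_mul t x
      rw [Real.dist_eq] at h2
      refine h2.trans (mul_le_mul_of_nonneg_left ?_ C.2)
      rw [dist_comm, dist_eq_norm]
      exact hε _ h0
  rw [integral_const_mul, ker_shift_one hK, mul_one] at h1
  exact h1

end Moll
end Bridge
end MolDis
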