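import Pool.Agent.Lib.MP_59f35a_mp.Slices
import Pool.Agent.Lib.MP_59f35a_mp.AdmBasic

/-!
# MP_59f35a_mp : complex states split into two real wave functions (helper99)
-/

open MeasureTheory Filter Topology
set_option linter.unusedSectionVars false
noncomputable section
namespace MolDis
namespace Bridge

variable {ι : Type} [Fintype ι] [DecidableEq ι]

/-- smooth compactly supported slices give an `LC` function -/
theorem lc_of_smooth {F : (ι → Om) → ℝ} (h1 : ∀ s, ContDiff ℝ (⊤ : ℕ∞) (sl F s))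
    (h2 : ∀ s, HasCompactSupport (sl F s)) : LC F := by
  have hl : ∀ s, ∃ C : NNReal, LipschitzWith C (sl F s) := fun s =>
    ContDiff.lipschitzWith_of_hasCompactSupport (h2 s) (h1 s) (by simp)
  choose C hC using hl
  have hb : ∀ s, ∃ R : ℝ, 0 ≤ R ∧ ∀ x, sl F s x ≠ 0 → ‖x‖ ≤ R := by
    intro s
    obtain ⟨R, hR⟩ := (h2 s).isCompact.isBounded.subset_closedBall (0 : ι → E3)
    refine ⟨max R 0, le_max_right _ _, fun x hx => ?_⟩
    have := hR (subset_tsupport _ (Function.mem_support.mpr hx))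
    rw [mem_closedBall_zero_iff] at this
    exact this.trans (le_max_left _ _)
  choose R hR0 hR using hb
  have key : ∀ X : ι → Om, X = conf (fun j => (X j).1) (fun j => (X j).2) := fun X => rfl
  refine ⟨⟨∑ s, (C s : ℝ), fun X j y => ?_⟩, ⟨∑ s, R s, fun X hX j => ?_⟩⟩
  · set s : ι → Bool := fun j => (X j).2 with hs
    set x : ι → E3 := fun j => (X j).1 with hx
    have e1 : X = conf x s := rfl
    have e2 : put X j y = conf (Function.update x j y) s := put_conf x s j y
    rw [e2]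
    have h3 := (hC s).dist_le_mul (Function.update x j y) x
    rw [Real.dist_eq] at h3
    have h4 : dist (Function.update x j y) x ≤ ‖y - x j‖ := by
      rw [dist_pi_le_iff (norm_nonneg _)]
      intro i
      by_cases h : i = j
      · subst h; simp [dist_eq_norm]
      · simp [Function.update_of_ne h]
    have h5 : (C s : ℝ) ≤ ∑ s, (C s : ℝ) :=
      Finset.single_le_sum (f := fun s => (C s : ℝ)) (fun i _ => (C i).2) (Finset.mem_univ s)
    calc |F (conf (Function.update x j y) s) - F X|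
        ≤ C s * dist (Function.update x j y) x := h3
      _ ≤ (∑ s, (C s : ℝ)) * ‖y - x j‖ :=
        mul_le_mul h5 h4 dist_nonneg (Finset.sum_nonneg fun i _ => (C i).2)
  · have h3 : ‖fun j => (X j).1‖ ≤ R (fun j => (X j).2) := hR (fun j => (X j).2) _ hX
    have h4 := (norm_le_pi_norm (fun j => (X j).1) j).trans h3
    exact h4.trans (Finset.single_le_sum (f := R) (fun i _ => hR0 i) (Finset.mem_univ _))

theorem half_sum {κ : Type} [Fintype κ] [LinearOrder κ] (f : κ → κ → ℝ) (hs : ∀ a b, f a b = f b a)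
    (h0 : ∀ a, f a a = 0) :
    (1 / 2) * ∑ a, ∑ b, f a b = ∑ a, ∑ b ∈ Finset.univ.filter (fun b => a < b), f a b := by
  have h1 : ∑ a, ∑ b, f a b = (∑ a, ∑ b ∈ Finset.univ.filter (fun b => a < b), f a b)
      + ∑ a, ∑ b ∈ Finset.univ.filter (fun b => b < a), f a b := by
    rw [← Finset.sum_add_distrib]
    refine Finset.sum_congr rfl fun a _ => ?_
    simp only [Finset.sum_filter]
    rw [← Finset.sum_add_distrib]
    refine Finset.sum_congr rfl fun b _ => ?_
    rcases lt_trichotomy a b with h | h | h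
    · simp [h, h.not_gt]
    · subst h; simp [h0]
    · simp [h, h.not_gt]
  have h2 : ∑ a, ∑ b ∈ Finset.univ.filter (fun b => b < a), f a b
      = ∑ a, ∑ b ∈ Finset.univ.filter (fun b => a < b), f a b := by
    simp only [Finset.sum_filter]
    rw [Finset.sum_comm]
    refine Finset.sum_congr rfl fun a _ => Finset.sum_congr rfl fun b _ => ?_
    rw [hs b a]
  rw [h1, h2]
  ring

theorem cou_comm (x y : E3) : cou x y = cou y x := by
  unfold cou
  rw [norm_sub_rev]

theorem molPot_eq {N M : ℕ} (Y : Fin M → E3) (x : Fin N → E3) (s : Fin N → Bool) :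
    molPot Y (fun _ => 1) x = pot Y (conf x s) := by
  unfold molPot pot attr repEE repNN
  rw [half_sum (fun j k => cou (conf x s j).1 (conf x s k).1) (fun _ _ => cou_comm _ _)
    (fun a => LcBasic.cou_self _), half_sum (fun l m => cou (Y l) (Y m)) (fun _ _ => cou_comm _ _)
    (fun a => LcBasic.cou_self _)]
  simp only [Nat.cast_one, one_div, mul_one, cou, conf]

/-- real part (or imaginary part) of a complex state -/
def part {N : ℕ} (L : ℂ →L[ℝ] ℝ) (ψ : (Fin N → E3) → (Fin N → Bool) → ℂ) (X : Fin N → Om) : ℝ :=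
  L (ψ (fun j => (X j).1) (fun j => (X j).2))

theorem sl_part {N : ℕ} (L : ℂ →L[ℝ] ℝ) (ψ : (Fin N → E3) → (Fin N → Bool) → ℂ)
    (s : Fin N → Bool) : sl (part L ψ) s = fun x => L (ψ x s) := rfl

theorem part_smooth {N : ℕ} (L : ℂ →L[ℝ] ℝ) {ψ : (Fin N → E3) → (Fin N → Bool) → ℂ}
    (h : IsState N ψ) (s : Fin N → Bool) : ContDiff ℝ (⊤ : ℕ∞) (sl (part L ψ) s) := by
  rw [sl_part]
  exact L.contDiff.comp (h.smooth s)

theorem part_wf {N : ℕ} (L : ℂ →L[ℝ] ℝ) {ψ : (Fin N → E3) → (Fin N → Bool) → ℂ}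
    (h : IsState N ψ) : WF (part L ψ) := by
  have h1 : LC (part L ψ) := by
    refine lc_of_smooth (part_smooth L h) fun s => ?_
    rw [sl_part]
    exact (h.compact s).comp_left (map_zero L)
  refine { toLC := h1, anti := fun σ X => ?_ }
  unfold part
  have h2 := h.anti σ (fun j => (X j).1) (fun j => (X j).2)
  have h3 : L (ψ ((fun j => (X j).1) ∘ σ) ((fun j => (X j).2) ∘ σ))
      = ((Equiv.Perm.sign σ : ℤ) : ℝ) * L (ψ (fun j => (X j).1) (fun j => (X j).2)) := by
    rw [h2]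
    have h4 : ((Equiv.Perm.sign σ : ℤ) : ℂ) * ψ (fun j => (X j).1) (fun j => (X j).2)
        = (((Equiv.Perm.sign σ : ℤ) : ℝ)) • ψ (fun j => (X j).1) (fun j => (X j).2) := by
      rw [Complex.real_smul]
      push_cast
      rfl
    rw [h4, map_smul, smul_eq_mul]
  exact h3

theorem lineDeriv_part {N : ℕ} (L : ℂ →L[ℝ] ℝ) {ψ : (Fin N → E3) → (Fin N → Bool) → ℂ}
    (h : IsState N ψ) (s : Fin N → Bool) (x v : Fin N → E3) :
    lineDeriv ℝ (sl (part L ψ) s) x v = L (fderiv ℝ (fun x => ψ x s) x v) := by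
  have hd : DifferentiableAt ℝ (fun x => ψ x s) x :=
    ((h.smooth s).differentiable (by simp)).differentiableAt
  have h1 : HasFDerivAt (sl (part L ψ) s) (L.comp (fderiv ℝ (fun x => ψ x s) x)) x :=
    L.hasFDerivAt.comp x hd.hasFDerivAt
  rw [h1.differentiableAt.lineDeriv_eq_fderiv, h1.fderiv]
  rfl

theorem norm_sq_c (z : ℂ) : ‖z‖ ^ 2 = (Complex.reCLM z) ^ 2 + (Complex.imCLM z) ^ 2 := by
  rw [Complex.sq_norm, Complex.normSq_apply]
  simp [sq]

theorem Qf_eq {κ : Type} [Fintype κ] (Y : κ → E3) {F : (ι → Om) → ℝ} (hF : LC F) :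
    (∀ s : ι → Bool, Integrable (fun x => (∑ j, ∑ k, (lineDeriv ℝ (sl F s) x (dr j k)) ^ 2)
      + pot Y (conf x s) * F (conf x s) ^ 2)) ∧
    Qf Y F = ∑ s : ι → Bool, ∫ x, ((∑ j, ∑ k, (lineDeriv ℝ (sl F s) x (dr j k)) ^ 2)
      + pot Y (conf x s) * F (conf x s) ^ 2) := by
  have hp := int_mu ((p_lc ι F hF).2.2.2.2.2.1 (pot Y)
    ((p_adm ι).2.2.2.2.2.2.1 κ Y).2.2)
  have hi : ∀ s : ι → Bool, Integrable (fun x => ∑ j, ∑ k, (lineDeriv ℝ (sl F s) x (dr j k)) ^ 2) := by
    intro s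
    obtain ⟨C, hC⟩ := sl_lip hF s
    exact integrable_finsetSum _ fun j _ => integrable_finsetSum _ fun k _ =>
      ld_sq_int hC (sl_supp hF s) (dr j k)
  refine ⟨fun s => (hi s).add (hp.1 s), ?_⟩
  unfold Qf kin
  have h1 : expv (pot Y) F = ∑ s : ι → Bool, ∫ x, pot Y (conf x s) * F (conf x s) ^ 2 := hp.2
  rw [h1]
  simp only [kin1_eq hF]
  rw [Finset.sum_comm, ← Finset.sum_add_distrib]
  refine Finset.sum_congr rfl fun s _ => ?_
  rw [integral_add (hi s) (hp.1 s)]
  congr 1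
  obtain ⟨C, hC⟩ := sl_lip hF s
  rw [integral_finsetSum _ fun j _ => integrable_finsetSum _ fun k _ =>
      ld_sq_int hC (sl_supp hF s) (dr j k)]
  refine Finset.sum_congr rfl fun j _ => ?_
  rw [integral_finsetSum _ fun k _ => ld_sq_int hC (sl_supp hF s) (dr j k)]

theorem nsq_eq {F : (ι → Om) → ℝ} (hF : LC F) :
    (∀ s : ι → Bool, Integrable (fun x => F (conf x s) ^ 2)) ∧
    nsq F = ∑ s : ι → Bool, ∫ x, F (conf x s) ^ 2 := int_mu (p_lc ι F hF).2.2.2.2.2.2

theorem st_split {N M : ℕ} (Y : Fin M → E3) {ψ : (Fin N → E3) → (Fin N → Bool) → ℂ}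
    (h : IsState N ψ) :
    stNorm ψ = nsq (part Complex.reCLM ψ) + nsq (part Complex.imCLM ψ) ∧
    stEnergy Y (fun _ => 1) ψ = Qf Y (part Complex.reCLM ψ) + Qf Y (part Complex.imCLM ψ) := by
  have hr := (part_wf Complex.reCLM h).toLC
  have hi := (part_wf Complex.imCLM h).toLC
  constructor
  · rw [(nsq_eq hr).2, (nsq_eq hi).2, ← Finset.sum_add_distrib]
    unfold stNorm
    refine Finset.sum_congr rfl fun s _ => ?_
    rw [← integral_add ((nsq_eq hr).1 s) ((nsq_eq hi).1 s)]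
    refine integral_congr_ae (ae_of_all _ fun x => ?_)
    exact norm_sq_c (ψ x s)
  · rw [(Qf_eq Y hr).2, (Qf_eq Y hi).2, ← Finset.sum_add_distrib]
    unfold stEnergy
    refine Finset.sum_congr rfl fun s _ => ?_
    rw [← integral_add ((Qf_eq Y hr).1 s) ((Qf_eq Y hi).1 s)]
    refine integral_congr_ae (ae_of_all _ fun x => ?_)
    show (∑ j, ∑ k, ‖fderiv ℝ (fun x => ψ x s) x (dr j k)‖ ^ 2)
      + molPot Y (fun _ => 1) x * ‖ψ x s‖ ^ 2 = _
    rw [molPot_eq Y x s, norm_sq_c (ψ x s)]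
    simp only [lineDeriv_part _ h, norm_sq_c, Finset.sum_add_distrib]
    have e1 : part Complex.reCLM ψ (conf x s) = Complex.reCLM (ψ x s) := rfl
    have e2 : part Complex.imCLM ψ (conf x s) = Complex.imCLM (ψ x s) := rfl
    rw [e1, e2]
    ring

end Bridge
end MolDis
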