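import Pool.Agent.Lib.MP_59f35a_mp.Stmts1

/-!
# MP_59f35a_mp : statements, batch 2 (clusters, tails, kernel, cell inequalities, array)
-/

noncomputable section

open MeasureTheory

namespace MolDis

/-! ### reindexing and translation -/

/-- **A10.** reindexing of the electrons -/
def S_reindex : Prop :=
  ∀ (ι ι' : Type) [Fintype ι] [DecidableEq ι] [Fintype ι'] [DecidableEq ι'] (e : ι ≃ ι')
    (φ : (ι → Om) → ℝ),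
    (LC φ → LC (fun X' : ι' → Om => φ (fun j => X' (e j)))) ∧
    (WF φ → WF (fun X' : ι' → Om => φ (fun j => X' (e j)))) ∧
    nsq (fun X' : ι' → Om => φ (fun j => X' (e j))) = nsq φ ∧
    kin (fun X' : ι' → Om => φ (fun j => X' (e j))) = kin φ ∧
    (∀ W : (ι → Om) → ℝ, expv (fun X' : ι' → Om => W (fun j => X' (e j)))
      (fun X' : ι' → Om => φ (fun j => X' (e j))) = expv W φ) ∧
    (∀ (κ : Type) [Fintype κ] (Y : κ → E3),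
      Qf Y (fun X' : ι' → Om => φ (fun j => X' (e j))) = Qf Y φ)

/-- **A11.** translation of the electrons: `φ^a X = φ (X - a)` -/
def S_shift : Prop :=
  ∀ (ι : Type) [Fintype ι] [DecidableEq ι] (a : E3) (φ : (ι → Om) → ℝ),
    (LC φ → LC (fun X => φ (fun j => ((X j).1 - a, (X j).2)))) ∧
    (WF φ → WF (fun X => φ (fun j => ((X j).1 - a, (X j).2)))) ∧
    nsq (fun X => φ (fun j => ((X j).1 - a, (X j).2))) = nsq φ ∧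
    kin (fun X => φ (fun j => ((X j).1 - a, (X j).2))) = kin φ ∧
    (∀ W : (ι → Om) → ℝ, expv (fun X => W (fun j => ((X j).1 - a, (X j).2)))
      (fun X => φ (fun j => ((X j).1 - a, (X j).2))) = expv W φ) ∧
    (∀ (κ : Type) [Fintype κ] (Y : κ → E3),
      Qf (fun m => a + Y m) (fun X => φ (fun j => ((X j).1 - a, (X j).2))) = Qf Y φ)

/-! ### far clusters and slopes -/

/-- union of clusters `Y k` centred at `z k` -/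
def cl {K : Type} {κ : K → Type} (z : K → E3) (Y : ∀ k, κ k → E3) : (Σ k, κ k) → E3 :=
  fun p => z p.1 + Y p.1 p.2

/-- **B1 (far clusters, lower bound).**  `C = 160` works.
Proof: `S_master` with `θ = cellPU (L/4) z`, `T = univ`, `W = pot (cl z Y)`,
`w α (some k) = pot (z k + Y k ·) - En (n_k) (Y k)`, `n_k = card {j // α j = some k}`,
`w α none = 0`, `e α = Σ_k En (n_k) (Y k) - 160 N (Z+1)/L`: electron-nucleus attraction between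
different groups is at most `16/L` per pair, `puG ≤ 160/L² ≤ 160/L`, all other inter-group terms are
`≥ 0`.  Take the `α` with the least `e α`, then put the vacuum electrons into any cluster
(`S_en2`: `En` is antitone in the number of electrons). -/
def S_far_lower : Prop :=
  ∃ C : ℝ, 0 ≤ C ∧ ∀ (K : Type) [Fintype K] [DecidableEq K] [Nonempty K] (M : K → ℕ)
    (Y : ∀ k, Fin (M k) → E3) (z : K → E3) (r L : ℝ),
    (∀ k m, ‖Y k m‖ ≤ r) → 1 ≤ L → 16 * r ≤ L → (∀ k k', k ≠ k' → L ≤ ‖z k - z k'‖) →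
    ∀ N : ℕ, ∃ n : K → ℕ, ∑ k, n k = N ∧
      (∑ k, En (n k) (Y k)) - C * N * ((∑ k, M k : ℕ) + 1) / L ≤ En N (cl z Y)

/-- **B2 (far clusters, upper bound).**
Proof: near minimisers, translated; `S_trial`; all cross terms tend to `0`. -/
def S_far_upper : Prop :=
  ∀ (K : Type) [Fintype K] [DecidableEq K] (M n : K → ℕ) (Y : ∀ k, Fin (M k) → E3) (ε : ℝ),
    0 < ε → ∃ L0 : ℝ, ∀ z : K → E3, (∀ k k', k ≠ k' → L0 ≤ ‖z k - z k'‖) →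
      En (∑ k, n k) (cl z Y) ≤ (∑ k, En (n k) (Y k)) + ε

/-- **B3 (slopes).**  `l`-fold far copies of `Y₁` and `k`-fold far copies of `Y₂`:
for every molecule `Y` with `M` protons, every `p ≥ 1` and `ε > 0` there is an injective `Y'` with
`p M` protons, `En (pM) Y' ≥ p En M Y - ε` and, for a given `j` (with `j ≤ ...`), `En (p j) Y' ≤ p En j Y + ε`
(induction on `p`: add one more copy at a large distance; lower bound by `S_far_lower` for two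
clusters and `PQ1`; upper bound by `S_far_upper`).  Apply `PQ1` to the two unions. -/
def S_slopes : Prop :=
  PQ1 → ∀ (M₁ M₂ k l : ℕ) (Y₁ : Fin M₁ → E3) (Y₂ : Fin M₂ → E3),
    Function.Injective Y₁ → Function.Injective Y₂ → 1 ≤ k → k ≤ M₁ → 1 ≤ M₂ → 1 ≤ l →
    (k : ℝ) * (En M₂ Y₂ - En (M₂ + l) Y₂) ≤ l * (En (M₁ - k) Y₁ - En M₁ Y₁)

/-- `a` is the best affinity slope of one proton -/
def IsAH (a : ℝ) : Prop :=
  0 ≤ a ∧ a < 1 / 4 ∧ (∀ l : ℕ, 1 ≤ l → -1 / 4 - En (1 + l) Hy ≤ l * a) ∧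
  (∀ ε : ℝ, 0 < ε → ∃ l : ℕ, 1 ≤ l ∧ l * (a - ε) ≤ -1 / 4 - En (1 + l) Hy)

/-- **B4.** `a = sup_l (-1/4 - En (1+l) Hy)/l`; `PQ1` with two single protons, `N₁ = 0`, gives
`En 2 Hy > -1/2`, and `S_en2` gives `a ≤ 1/4 - (En 2 Hy + 1/2)/2`. -/
def S_aH : Prop := PQ1 → (∃ a, IsAH a) ∧ -1 / 2 < En 2 Hy

/-- ionisation and affinity slopes of `B` -/
def Marg {Z : ℕ} (B : Fin Z → E3) (a η : ℝ) : Prop :=
  (∀ k : ℕ, 1 ≤ k → k ≤ Z → k * (1 / 4 - η) ≤ En (Z - k) B - En Z B) ∧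
  (∀ k : ℕ, 1 ≤ k → En Z B - En (Z + k) B ≤ k * (a + η))

/-- **B5 (far protons).**  Clusters of one proton: if `Σ n_i = Z - k` and `e` of the `n_i` vanish
then `Σ En (n_i) Hy ≥ -(Z-e)/4 - a (e - k) ≥ -Z/4 + k/4`; if `Σ n_i = Z + k` it is
`≥ -Z/4 - k a`; `En Z B ≤ -Z/4 + ε` by `S_far_upper`; the errors `C N (Z+1)/L` of `S_far_lower` are
at most `η k` in total for `L ≥ L0(Z, η)`. -/
def S_marg : Prop :=
  ∀ (Z : ℕ) (a η : ℝ), 1 ≤ Z → IsAH a → 0 < η → ∃ L0 : ℝ, ∀ B : Fin Z → E3,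
    (∀ i j, i ≠ j → L0 ≤ ‖B i - B j‖) → Marg B a η ∧ |En Z B + Z / 4| ≤ η

/-! ### tails -/

/-- expected number of electrons at distance `≥ t` from the origin -/
def nout {ι : Type} [Fintype ι] (t : ℝ) (φ : (ι → Om) → ℝ) : ℝ :=
  expv (fun X => ∑ j, if t ≤ ‖(X j).1‖ then (1 : ℝ) else 0) φ

/-- **C1 (tail recursion).**
Proof: `S_master` with `K = Option Unit`, `θ = cellPU (2t) (fun _ => 0)`, `W = pot Y + Σ_j puG`;
if `O` is the set of outside electrons (`α j = none`), `O ≠ ∅`: attraction of these `≤ 2/t` per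
pair, so `e α = En (Z - |O|) Y - 2 Z²/t ≥ En Z Y + g/2`; if `O = ∅`, `e α = En Z Y`.
Hence `En Z Y + (g/2) Σ_{O≠∅} nsq ≤ Qf Y φ + (3/t²) nout t φ` and
`Σ_{O≠∅} nsq = ∫ (1 - Π pIn²) φ² ≥ nout (2t) φ / Z`. -/
def S_tail : Prop :=
  ∀ (Z : ℕ) (Y : Fin Z → E3) (R g t : ℝ) (φ : (Fin Z → Om) → ℝ),
    1 ≤ Z → (∀ m, ‖Y m‖ ≤ R) → 0 < g → g ≤ En (Z - 1) Y - En Z Y →
    0 < t → 2 * R ≤ t → 4 * (Z : ℝ) ^ 2 / g ≤ t → WF φ → nsq φ = 1 →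
    nout (2 * t) φ ≤ 2 * Z / g * (Qf Y φ - En Z Y + 3 / t ^ 2 * nout t φ)

/-- **C2 (moments).**  Iterate `S_tail` three times: `nout (8t) φ ≤ C (ε + t⁻⁶)`, `t ≥ t0`; dyadic
sum for the fourth moment.  For the trial state: cut off a near minimiser with
`Π_j pIn ρ (x_j)` (`S_ims` with `K = Option Unit`): the sectors with an outside electron have energy
`≥ En Z Y ‖·‖²`, localisation error `≤ (10/ρ²) nout (ρ/2)`. -/
def S_mom : Prop :=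
  ∀ (Z : ℕ) (Y : Fin Z → E3) (g : ℝ), 1 ≤ Z → 0 < g → g ≤ En (Z - 1) Y - En Z Y →
    ∃ C : ℝ, 1 ≤ C ∧ ∀ ρ : ℝ, C ≤ ρ →
      (∀ φ : (Fin Z → Om) → ℝ, WF φ → nsq φ = 1 → (∀ X, φ X ≠ 0 → ∀ j, ‖(X j).1‖ ≤ ρ) →
        expv (fun X => ∑ j, ‖(X j).1‖ ^ 4) φ ≤ C * (1 + ρ ^ 4 * (Qf Y φ - En Z Y)) ∧
        nout (ρ / 2) φ ≤ C * ((Qf Y φ - En Z Y) + 1 / ρ ^ 6)) ∧
      (∃ φ : (Fin Z → Om) → ℝ, WF φ ∧ nsq φ = 1 ∧ (∀ X, φ X ≠ 0 → ∀ j, ‖(X j).1‖ ≤ ρ) ∧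
        Qf Y φ ≤ En Z Y + C / ρ ^ 6)

/-- **C3 (many electrons).**  No antisymmetry needed.
Proof: choose `r` with `Σ_m 1/|x - Y m| ≤ ε` for `|x| ≥ r`.  With `θ = cellPU (2r) (0)` for one
electron and `S_hyd`: `kin1 j - ⟨attr_j⟩ ≥ - C1 ⟨1_{|x_j| ≤ 2r}⟩ - ε`.  Repulsion: if `p` electrons
are in the ball `2r`, `repEE ≥ p(p-1)/(8r)`; `- C1 p + (7/8) p (p-1)/(8r) ≥ -C`. -/
def S_heavy : Prop :=
  ∀ (κ : Type) [Fintype κ] (Y : κ → E3) (ε : ℝ), 0 < ε → ∃ C : ℝ, 0 ≤ C ∧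
    ∀ (ι : Type) [Fintype ι] [DecidableEq ι] (φ : (ι → Om) → ℝ), LC φ →
      -(C + ε * Fintype.card ι) * nsq φ ≤
        kin φ + expv (fun X => - attr Y X + (7 / 8) * repEE X) φ

/-! ### the kernel -/

/-- properties of the truncated Coulomb kernel at scale `r0` -/
structure Ker (C r0 : ℝ) (K : E3 → E3 → ℝ) : Prop where
  symm : ∀ x y, K x y = K y x
  nonneg : ∀ x y, 0 ≤ K x y
  le : ∀ x y, K x y ≤ C / r0
  le_cou : ∀ x y, x ≠ y → K x y ≤ cou x y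
  eq_cou : ∀ x y, 2 * r0 ≤ ‖x - y‖ → K x y = cou x y
  lip : ∀ x x' y, |K x y - K x' y| ≤ C * ‖x - x'‖ / r0 ^ 2
  psd : ∀ (n : Type) [Fintype n] (q : n → ℝ) (x : n → E3),
    0 ≤ ∑ i, ∑ j, q i * q j * K (x i) (x j)
  neut : ∀ (n : Type) [Fintype n] (q : n → ℝ) (x : n → E3) (z : E3), ∑ i, q i = 0 →
    (∀ i, ‖x i - z‖ ≤ r0) →
    ∑ i, ∑ j, q i * q j * K (x i) (x j) ≤
      C * (‖∑ i, q i • (x i - z)‖ ^ 2 / r0 ^ 3 + (∑ i, |q i| * ‖x i - z‖ ^ 2) ^ 2 / r0 ^ 5)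

/-- **D1 (Fefferman - de la Llave kernel).**  `η x = (max 0 (1-|x|²))²` (`C^{1,1}`),
`J_r(x,y) = ∫ η((x-z)/r) η((y-z)/r) dz`, `K x y = c ∫_{r0}^∞ J_r(x,y) r⁻⁵ dr`,
`1/c = ∫_0^∞ J_r(0,e) r⁻⁵ dr`, `|e| = 1` (independent of `e` by rotation invariance of Lebesgue
measure; scaling gives `c ∫_0^∞ J_r(x,y) r⁻⁵ dr = 1/|x-y|`; `J_r(x,y) = 0` for `|x-y| ≥ 2r`).
`Σ q_i q_j K(x_i,x_j) = c ∫_{r0}^∞ ∫ (Σ_i q_i η((x_i-z)/r))² dz r⁻⁵ dr`, and for a neutral family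
near `z0` Taylor: `|Σ_i q_i η((x_i-z)/r)| ≤ A |p|/r + A S₂/r²`, zero unless `|z - z0| ≤ 2r`. -/
def S_ker : Prop := ∃ C : ℝ, 1 ≤ C ∧ ∀ r0 : ℝ, 0 < r0 → ∃ K : E3 → E3 → ℝ, Ker C r0 K

/-! ### cells -/

/-- charges of a cell minus its reference dipole: protons `+1`, electrons `-1`,
`z + P/2 ↦ -1`, `z - P/2 ↦ +1` -/
def cq {M : ℕ} {ι : Type} : Fin M ⊕ (ι ⊕ Bool) → ℝ :=
  Sum.elim (fun _ => 1) (Sum.elim (fun _ => -1) (fun b => if b then -1 else 1))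

/-- positions of these charges -/
def cpos {M : ℕ} {ι : Type} (Y : Fin M → E3) (z P : E3) (X : ι → Om) :
    Fin M ⊕ (ι ⊕ Bool) → E3 :=
  Sum.elim (fun m => z + Y m) (Sum.elim (fun j => (X j).1)
    (fun b => if b then z + (1 / 2 : ℝ) • P else z - (1 / 2 : ℝ) • P))

/-- self energy -/
def selfE {M : ℕ} {ι : Type} [Fintype ι] (Kr : E3 → E3 → ℝ) (Y : Fin M → E3) (z P : E3)
    (X : ι → Om) : ℝ :=
  ∑ a : Fin M ⊕ (ι ⊕ Bool), ∑ b : Fin M ⊕ (ι ⊕ Bool),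
    cq a * cq b * Kr (cpos Y z P X a) (cpos Y z P X b)

/-- energy in the outer potential `U` -/
def linE {M : ℕ} {ι : Type} [Fintype ι] (U : E3 → ℝ) (Y : Fin M → E3) (z P : E3)
    (X : ι → Om) : ℝ :=
  ∑ a : Fin M ⊕ (ι ⊕ Bool), cq a * U (cpos Y z P X a)

/-- number of electrons of the cell at distance `≥ t` from its centre -/
def cntOut {ι : Type} [Fintype ι] (t : ℝ) (z : E3) (X : ι → Om) : ℝ :=
  ∑ j, if t ≤ ‖(X j).1 - z‖ then (1 : ℝ) else 0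

/-- the cell potential -/
def cellW {M : ℕ} {ι : Type} [Fintype ι] (Kr : E3 → E3 → ℝ) (U : E3 → ℝ) (lam ρ : ℝ)
    (Y : Fin M → E3) (z P : E3) (X : ι → Om) : ℝ :=
  pot (fun m => z + Y m) X + linE U Y z P X - (1 / 2) * selfE Kr Y z P X
    - 10 / ρ ^ 2 * cntOut (ρ / 2) z X + lam * ((Fintype.card ι : ℝ) - M)

/-- potential at `x` of the reference dipoles of all cells except `k` -/
def tauPot {K : Type} [Fintype K] [DecidableEq K] (z P : K → E3) (k : K) (x : E3) : ℝ :=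
  ∑ k', if k' = k then 0 else
    cou x (z k' + (1 / 2 : ℝ) • P k') - cou x (z k' - (1 / 2 : ℝ) • P k')

/-- smeared potential of all reference dipoles -/
def tauPotK {K : Type} [Fintype K] (Kr : E3 → E3 → ℝ) (z P : K → E3) (x : E3) : ℝ :=
  ∑ k, (Kr x (z k + (1 / 2 : ℝ) • P k) - Kr x (z k - (1 / 2 : ℝ) • P k))

/-- interaction of two reference dipoles -/
def DDk (z P z' P' : E3) : ℝ :=
  cou (z + (1 / 2 : ℝ) • P) (z' + (1 / 2 : ℝ) • P') - cou (z + (1 / 2 : ℝ) • P) (z' - (1 / 2 : ℝ) • P')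
  - cou (z - (1 / 2 : ℝ) • P) (z' + (1 / 2 : ℝ) • P')
  + cou (z - (1 / 2 : ℝ) • P) (z' - (1 / 2 : ℝ) • P')

/-- sum of the interactions of the reference dipoles over all pairs of cells -/
def DDsum {K : Type} [Fintype K] [DecidableEq K] (z P : K → E3) : ℝ :=
  (1 / 2) * ∑ k, ∑ k', if k = k' then 0 else DDk (z k) (P k) (z k') (P k')

/-- **E1 (deterministic Onsager inequality).**
Proof: `ω_k` = charges `cq` at `cpos` of the cell `k`, vacuum electrons `-1`.  `psd`: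
`0 ≤ ½ Σ_k self_k + ½ Σ_v Kr(v,v) + Σ_{k<k'} D(ω_k,ω_k') - Σ_{k,v} D_K(ω_k,δ_v) + Σ_{v<v'} Kr(v,v')`;
between charges of different cells the distance is `≥ 2 r0 = d/4`, so `Kr = cou`;
`D(ω_k,ω_k') = D(σ_k,σ_k') - D(ω_k,τ_k') - D(τ_k,ω_k') - D(τ_k,τ_k')`; `Kr ≤ cou` for the
vacuum-electron repulsions; vacuum electron - proton: `cou - Kr ≤ 4/ρ` and it is `0` except for the
protons of at most one cell. -/
def S_onsager : Prop :=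
  ∀ (K ι : Type) [Fintype K] [DecidableEq K] [Fintype ι] [DecidableEq ι] (M : K → ℕ)
    (Y : ∀ k, Fin (M k) → E3) (z P : K → E3) (C d ρ Mx : ℝ) (Kr : E3 → E3 → ℝ)
    (α : ι → Option K) (X : ι → Om),
    1 ≤ C → 0 < d → Ker C (d / 8) Kr → 0 < ρ → ρ ≤ d / 32 →
    (∀ k k', k ≠ k' → d ≤ ‖z k - z k'‖) → (∀ k m, ‖Y k m‖ ≤ ρ / 4) → (∀ k, ‖P k‖ ≤ ρ) →
    (∀ k, (M k : ℝ) ≤ Mx) → 0 ≤ Mx → (∀ k, Function.Injective (Y k)) →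
    Function.Injective (fun j => (X j).1) → (∀ j p, (X j).1 ≠ cl z Y p) →
    (∀ j k, α j = some k → ‖(X j).1 - z k‖ ≤ ρ) →
    (∀ j, α j = none → ∀ k, ρ / 2 ≤ ‖(X j).1 - z k‖) →
    (∑ k, (pot (fun m => z k + Y k m) (fun j : {j // α j = some k} => X j.1)
        + linE (tauPot z P k) (Y k) (z k) (P k) (fun j : {j // α j = some k} => X j.1)
        - (1 / 2) * selfE Kr (Y k) (z k) (P k) (fun j : {j // α j = some k} => X j.1)))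
      + DDsum z P
      + (∑ j : {j // α j = none}, (- tauPotK Kr z P (X j.1).1 - 4 * C / d - 4 * Mx / ρ))
      ≤ pot (cl z Y) X

/-- `Σ B_m - Σ x_j` -/
def vdip {κ ι : Type} [Fintype κ] [Fintype ι] (B : κ → E3) (X : ι → Om) : E3 :=
  ∑ m, B m - ∑ j, (X j).1

/-- a neutral polar molecule: for states in the ball of radius `ρ` the dipole moment is `P` up to
`√ε₁ |P|` and the excess energy -/
def GoodB {Z : ℕ} (B : Fin Z → E3) (P : E3) (ε₁ CB : ℝ) : Prop :=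
  1 ≤ Z ∧ 1 ≤ CB ∧ 0 < ε₁ ∧ ε₁ ≤ 1 ∧ P ≠ 0 ∧ Function.Injective B ∧
  ∀ ρ : ℝ, CB ≤ ρ → ∀ φ : (Fin Z → Om) → ℝ, WF φ → nsq φ = 1 →
    (∀ X, φ X ≠ 0 → ∀ j, ‖(X j).1‖ ≤ ρ) →
    expv (fun X => ‖vdip B X - P‖ ^ 2) φ ≤ ε₁ * ‖P‖ ^ 2 + CB * ρ ^ 2 * (Qf B φ - En Z B) ∧
    expv (fun X => ∑ j, ‖(X j).1‖ ^ 4) φ ≤ CB * (1 + ρ ^ 4 * (Qf B φ - En Z B)) ∧
    nout (ρ / 2) φ ≤ CB * ((Qf B φ - En Z B) + 1 / ρ ^ 6)

/-- **E2 (neutral polar cell).**  `ε = Qf - En ≥ 0` pays: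
`|⟨F·(p̂-P)⟩| ≤ |F|(√ε₁|P| + √(CB) ρ √ε) ≤ √ε₁|P||F| + ε/8 + 2 CB ρ²|F|²`;
`H ⟨Σ|q||x|²⟩ ≤ C'(H + H²ρ⁴) + ε/8`; self energy by `Ker.neut` with `r0 = d/8`:
`≤ 256 C ε₁|P|²/d³ + C'/d⁵ + (C'/d) ε`; localisation `(10/ρ²) nout ≤ C'/d⁸ + (C'/d²) ε`.
Translate by `z` first (`Qf` is translation invariant). -/
def S_cellB : Prop :=
  ∀ (C Λ : ℝ) (Z : ℕ) (B : Fin Z → E3) (P : E3) (ε₁ CB : ℝ), 1 ≤ C → 32 ≤ Λ →
    GoodB B P ε₁ CB →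
    ∃ d0 C' : ℝ, 1 ≤ d0 ∧ 1 ≤ C' ∧ ∀ (d : ℝ) (z F : E3) (H lam : ℝ) (U : E3 → ℝ)
      (Kr : E3 → E3 → ℝ) (φ : (Fin Z → Om) → ℝ), d0 ≤ d → Ker C (d / 8) Kr → 0 ≤ H →
      Measurable U →
      (∀ x, ‖x - z‖ ≤ d / Λ → |U x - U z - inner ℝ F (x - z)| ≤ H * ‖x - z‖ ^ 2) →
      WF φ → (∀ X, φ X ≠ 0 → ∀ j, ‖(X j).1 - z‖ ≤ d / Λ) →
      (En Z B - (Real.sqrt ε₁ * ‖P‖ * ‖F‖ + 256 * C * ε₁ * ‖P‖ ^ 2 / d ^ 3
          + C' * (d ^ 2 * ‖F‖ ^ 2 + H + H ^ 2 * d ^ 4 + 1 / d ^ 4))) * nsq φ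
        ≤ kin φ + expv (cellW Kr U lam (d / Λ) B z P) φ

/-- **E3 (any cell, any number of electrons, error `γ'`).**
Proof: few electrons (`N ≤ N0`): `Qf ≥ En N Y`, everything else is an error `≤ γ'` for large `d`,
small `ω0`: `linE = -u (N-M) + O(ω0 (N+M+2))`, `selfE ≤ (8C/d)(N+M+2)²`.
Many electrons: `S_heavy` with `ε = γ/4`; `D(a+b,a+b) ≤ 2D(a,a) + 2D(b,b)` gives
`½ selfE ≤ (8C/d)(N² + (M+2)²)` and `(1/8) repEE ≥ N(N-1)Λ/(32 d)`, `Λ ≥ 512 C`; what remains is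
`≥ γN/4 - const`. -/
def S_cellQ : Prop :=
  ∀ (C Λ : ℝ) (M : ℕ) (Y : Fin M → E3) (P : E3) (um γ γ' lmax : ℝ), 1 ≤ C → 512 * C ≤ Λ →
    0 ≤ um → 0 < γ → 0 < γ' →
    ∃ d0 ω0 : ℝ, 1 ≤ d0 ∧ 0 < ω0 ∧ ∀ (d : ℝ) (z : E3) (u lam E : ℝ) (U : E3 → ℝ)
      (Kr : E3 → E3 → ℝ) (N : ℕ) (φ : (Fin N → Om) → ℝ), d0 ≤ d → Ker C (d / 8) Kr →
      Measurable U → |u| ≤ um → um + γ ≤ lam → lam ≤ lmax →
      (∀ x, ‖x - z‖ ≤ d / Λ → |U x - u| ≤ ω0) →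
      WF φ → (∀ X, φ X ≠ 0 → ∀ j, ‖(X j).1 - z‖ ≤ d / Λ) →
      E ≤ En M Y + 1 → E ≤ En N Y + (lam - u) * ((N : ℝ) - M) →
      (E - γ') * nsq φ ≤ kin φ + expv (cellW Kr U lam (d / Λ) Y z P) φ

/-- **E4 (lower bound for arrays of cells).**
Proof: `S_master`, `θ = cellPU ρ z`, `N = Σ M_k`, `e α = Σ_k (En (M k) (Y k) - err k) + DDsum z P`
for every `α`, `w α (some k) = cellW ... - (En (M k)(Y k) - err k)`, `w α none = 0`; `S_onsager`,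
`puG ≤ (10/ρ²) 1_{ρ/2 ≤ |x - z_k|}` on the ball `k`, `≤ 10/ρ²` in the vacuum;
`λ (Σ_k (N_k - M_k) + N_v) = 0`.  (Reindex `{j // α j = some k}` to `Fin N_k`.) -/
def S_lower : Prop :=
  ∀ (K : Type) [Fintype K] [DecidableEq K] (M : K → ℕ) (Y : ∀ k, Fin (M k) → E3)
    (z P : K → E3) (C d ρ Mx lam : ℝ) (err : K → ℝ) (Kr : E3 → E3 → ℝ),
    1 ≤ C → 0 < d → Ker C (d / 8) Kr → 0 < ρ → ρ ≤ d / 32 →
    (∀ k k', k ≠ k' → d ≤ ‖z k - z k'‖) → (∀ k m, ‖Y k m‖ ≤ ρ / 4) → (∀ k, ‖P k‖ ≤ ρ) →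
    (∀ k, (M k : ℝ) ≤ Mx) → (∀ k, Function.Injective (Y k)) →
    (∀ (k : K) (N : ℕ) (φ : (Fin N → Om) → ℝ), WF φ →
      (∀ X, φ X ≠ 0 → ∀ j, ‖(X j).1 - z k‖ ≤ ρ) →
      (En (M k) (Y k) - err k) * nsq φ ≤
        kin φ + expv (cellW Kr (tauPot z P k) lam ρ (Y k) (z k) (P k)) φ) →
    (∀ x : E3, (∀ k, ρ / 2 ≤ ‖x - z k‖) →
      tauPotK Kr z P x + 4 * C / d + 4 * Mx / ρ + 10 / ρ ^ 2 ≤ lam) →
    (∑ k, (En (M k) (Y k) - err k)) + DDsum z P ≤ En (∑ k, M k) (cl z Y)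

end MolDis
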