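import Pool.Agent.Lib.MP_59f35a_mp.Stmts3

/-!
# MP_59f35a_mp : statements, batch 4 (final assembly)
-/

noncomputable section

open MeasureTheory

namespace MolDis

/-- **I1 (array step).**  There are absolute constants such that: whenever the extra cell `Ys`
satisfies the slope inequality `(W)` in every potential window, the array has an affinity
(ionisation) slope better than that of `Ys`.

Proof.  `C`: constant of `S_ker`; `A` ≥ the constants of `S_arrayLow` (for that `C`), `S_arrayUp`,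
`S_geom`, `S_grid`; `c` the small constant of `S_geom`.  Put `l = Ns - Ms` (real, `s l > 0`),
`κ = δ c v/(64 A |l|)`, `ε₁ = min 1 ((c² δ/(432·64·32 A²))²)` (also `√ε₁ ≤ c/(32A)`),
`B, P, CB` from `S_comp` (with `η := γ`), `η' = |l| c v/64`,
`γ' = min(|l|cv/128, (|l|cv/32) κ|P|²/(432 v²))`, then `d` large,
`K = ⌊v d²/|P|⌋`, `q = ⌊(κ d K)^{1/3}⌋`, `h = δ d K/(2q)`, `X0 = (s·3dK/|P|) P`.
For `d` large: `|P| ≤ d/32`, `K ≥ v d²/(2|P|)`, `q³ ≥ κ d K/8`, `h ≥ d`, `h ≥ q`, `2hq = δ d K ≤ dK/8`.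
`u0 = latPot none X0`; `s u0 ∈ [c|P|K/d², A|P|K/d²] ⊂ [cv/2, Av]`; for `|x - X0| ≤ 2hq`:
`|latPot none x - u0| ≤ Aδv` (`S_geom (3)`); `lam` from `(W)`.
`S_arrayLow` for the neutral array, `S_arrayUp` for the array with `q³ l` extra electrons; the
`DDsum` terms cancel; divide by `m = q³`:
gain `|l| c v/2`; `A l² q²/h ≤ 2A l²κ/δ ≤ |l|cv/32`;
`2A√ε₁|P|²(2K+1)³/(d³q³) ≤ 432 A√ε₁v²/κ ≤ |l|cv/32`; `A|l|√ε₁v ≤ |l|cv/32`;
`2γ'(2K+1)³/(d³q³) ≤ 432γ'v²/(κ|P|²) ≤ |l|cv/32`; `e0 ≤ |l|cv/32`, `η' + 2γ' ≤ |l|cv/32`.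
The nuclei are reindexed by `Fin Mtot` (`S_en`), injective because `B`, `Ys` are injective and the
cells are far apart. -/
def S_step : Prop :=
  ThmD → ∃ A c : ℝ, 1 ≤ A ∧ 0 < c ∧ c ≤ 1 ∧
    ∀ (a γ δ v e0 s : ℝ) (Ms Ns : ℕ) (Ys : Fin Ms → E3),
      IsAH a → 0 < γ → γ < 1 / 4 → 0 < δ → δ ≤ 1 / 8 → 0 < v → 0 ≤ e0 → (s = 1 ∨ s = -1) →
      Function.Injective Ys → 1 ≤ Ms → 0 < s * ((Ns : ℝ) - Ms) →
      e0 ≤ |(Ns : ℝ) - Ms| * c * v / 32 →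
      (∀ u0 : ℝ, c * v / 2 ≤ s * u0 → s * u0 ≤ A * v →
        ∃ lam : ℝ, a + γ + A * v + γ ≤ lam ∧ lam ≤ 1 / 4 - γ - A * v - γ ∧
          ∀ u : ℝ, |u - u0| ≤ A * δ * v → ∀ N : ℕ,
            En Ms Ys - e0 ≤ En N Ys + (lam - u) * ((N : ℝ) - Ms)) →
      ∃ (Mt Nt q : ℕ) (Y : Fin Mt → E3), 1 ≤ Mt ∧ 1 ≤ q ∧ Function.Injective Y ∧
        (Nt : ℤ) - Mt = q * ((Ns : ℤ) - Ms) ∧
        q * (En Ms Ys - En Ns Ys) + q * (|(Ns : ℝ) - Ms| * c * v / 4) ≤ En Mt Y - En Nt Y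

/-- **I2 (the three cases).**
`cm = sSup {(En M Y - En (M+l) Y)/l}`: bounded by `1/4` (`S_slopes` with one proton, `k = 1`),
`AffLe cm`, `IonGe cm` (`S_slopes`), `a ≤ cm` (`IsAH`).
Case 1: `cm < 1/4`, `a < cm`: `Δ = min(cm-a, 1/4-cm)`, `v = Δ/(16(A+1))`, `γ = v`; take `Ys, l` with
`En Ms Ys - En (Ms+l) Ys ≥ l (cm - cv/16)`, `s = 1`, `δ = min(1/8, lc/(64 A Ms))`,
`e0 = 2 A Ms δ v`, `lam = cm + u0 + Aδv`.  Contradiction with `AffLe cm`.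
Case 2: `cm < 1/4`, `cm ≤ a`: `Ys` = one proton, `l` from `IsAH` with `ε = cv/16`,
`v = (1/4-a)/(16(A+1))`, `γ = v`, `s = 1`, `lam = (a+1/4)/2`, `e0 = 0`, `δ = 1/8`.
Case 3: `cm ≥ 1/4`: `Ys` = one proton, `Ns = 0`, `s = -1`, the rest as in case 2; contradiction with
`IonGe (1/4)`. -/
def S_cases : Prop := S_step → ThmD → PQ1 → False

end MolDis
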