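import Mathlib
import Pool.Agent.Lib.MP_59f35a_mp.Stmts3
import Pool.Agent.Lib.MP_59f35a_mp.Trial

/-!
# MP_59f35a_mp, piece F1: upper bound for arrays of cells
-/

set_option autoImplicit false
set_option linter.all false

noncomputable section

open MeasureTheory

namespace MolDis

namespace Upper

lemma cou_comm (x y : E3) : cou x y = cou y x := by
  unfold cou
  rw [norm_sub_rev]

lemma cross_pt {M M' : ℕ} {ι ι' : Type} [Fintype ι] [Fintype ι'] (Y : Fin M → E3) (z : E3)
    (Y' : Fin M' → E3) (z' : E3) (X : ι → Om) (X' : ι' → Om) :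
    ∑ a : Fin M ⊕ ι, ∑ b : Fin M' ⊕ ι', bq a * bq b * cou (bpos Y z X a) (bpos Y' z' X' b) =
      (∑ m, ∑ m', cou (z + Y m) (z' + Y' m')) - attr (fun m => z + Y m) X'
        - attr (fun m => z' + Y' m) X + ∑ j, ∑ j', cou (X j).1 (X' j').1 := by
  have h1 : attr (fun m => z + Y m) X' = ∑ m, ∑ j, cou (z + Y m) (X' j).1 := by
    unfold attr
    rw [Finset.sum_comm]
    exact Finset.sum_congr rfl fun m _ => Finset.sum_congr rfl fun j _ => cou_comm _ _
  rw [h1]
  unfold attr
  simp only [Fintype.sum_sum_type, bq, bpos, Sum.elim_inl, Sum.elim_inr, Finset.sum_add_distrib,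
    one_mul, neg_mul, mul_neg, neg_neg, Finset.sum_neg_distrib]
  ring

lemma sum_diag {K : Type} [Fintype K] [DecidableEq K] (G : K → K → ℝ) :
    ∑ k, ∑ l, G k l = ∑ k, G k k + ∑ k, ∑ l, (if k = l then 0 else G k l) := by
  rw [← Finset.sum_add_distrib]
  refine Finset.sum_congr rfl fun k _ => ?_
  rw [← Finset.sum_erase_add _ _ (Finset.mem_univ k), add_comm]
  congr 1
  rw [← Finset.sum_erase_add _ _ (Finset.mem_univ k), if_pos rfl, add_zero]
  refine Finset.sum_congr rfl fun l hl => ?_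
  rw [if_neg (Finset.ne_of_mem_erase hl).symm]

lemma sum_off_comm {K : Type} [Fintype K] [DecidableEq K] (G : K → K → ℝ) :
    ∑ k, ∑ l, (if k = l then 0 else G l k) = ∑ k, ∑ l, (if k = l then 0 else G k l) := by
  rw [Finset.sum_comm]
  refine Finset.sum_congr rfl fun k _ => Finset.sum_congr rfl fun l _ => ?_
  by_cases h : k = l
  · rw [if_pos h, if_pos h.symm]
  · rw [if_neg h, if_neg (Ne.symm h)]

lemma attr_cl {K : Type} [Fintype K] {M : K → ℕ} (Y : ∀ k, Fin (M k) → E3) (z : K → E3)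
    {ι : Type} [Fintype ι] (X : ι → Om) :
    attr (cl z Y) X = ∑ l, attr (fun m => z l + Y l m) X := by
  have h1 : ∀ j, ∑ p : (Σ l, Fin (M l)), cou (X j).1 (cl z Y p) =
      ∑ l, ∑ m, cou (X j).1 (z l + Y l m) := fun j =>
    Fintype.sum_sigma (fun p : (Σ l, Fin (M l)) => cou (X j).1 (cl z Y p))
  unfold attr
  simp_rw [h1]
  exact Finset.sum_comm

lemma repNN_cl {K : Type} [Fintype K] {M : K → ℕ} (Y : ∀ k, Fin (M k) → E3) (z : K → E3) :
    repNN (cl z Y) = (1 / 2) * ∑ k, ∑ l, ∑ m, ∑ m', cou (z k + Y k m) (z l + Y l m') := by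
  have h1 : ∀ x : E3, ∑ p : (Σ l, Fin (M l)), cou x (cl z Y p) =
      ∑ l, ∑ m, cou x (z l + Y l m) := fun x =>
    Fintype.sum_sigma (fun p : (Σ l, Fin (M l)) => cou x (cl z Y p))
  unfold repNN
  simp_rw [h1]
  congr 1
  refine (Fintype.sum_sigma (fun p : (Σ l, Fin (M l)) =>
    ∑ l, ∑ m, cou (cl z Y p) (z l + Y l m))).trans ?_
  refine Finset.sum_congr rfl fun k _ => ?_
  exact Finset.sum_comm

lemma attr_meas {ι κ : Type} [Fintype ι] [Fintype κ] (Y : κ → E3) :
    Measurable (attr (ι := ι) Y) := by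
  unfold attr cou
  fun_prop

end Upper

open Trial Upper in
/-- **F1** -/
theorem p_upper (htr : S_trial) (hlc : S_lc) (hadm : S_adm) : S_upper := by
  intro K _ _ M n Y z S φ hS hφ
  have ht := htr K (Σ k, Fin (M k)) (cl z Y) n S φ hS hφ
  refine ht.trans (le_of_eq ?_)
  have hLC : ∀ k, LC (φ k) := fun k => (hφ k).1.toLC
  have h1 : ∀ k, nsq (φ k) = 1 := fun k => (hφ k).2.1
  have hm : ∀ k, Measurable (φ k) := fun k => (hlc _ _ (hLC k)).1
  have hb : ∀ k, ∃ B : ℝ, ∀ X, |φ k X| ≤ B := fun k => (hlc _ _ (hLC k)).2.1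
  have hi : ∀ k, Integrable (fun X => φ k X ^ 2) (mu (Fin (n k))) :=
    fun k => (hlc _ _ (hLC k)).2.2.2.2.2.2
  have hW : ∀ k (W : (Fin (n k) → Om) → ℝ), AdmW W →
      Integrable (fun X => W X * φ k X ^ 2) (mu (Fin (n k))) :=
    fun k => (hlc _ _ (hLC k)).2.2.2.2.2.1
  have hF : LC (prodF φ) := prodF_LC φ hLC hb
  have hFW : ∀ (W : ((Σ k, Fin (n k)) → Om) → ℝ), AdmW W →
      Integrable (fun X => W X * prodF φ X ^ 2) (mu (Σ k, Fin (n k))) :=
    (hlc _ _ hF).2.2.2.2.2.1
  haveI : IsProbabilityMeasure (PP φ) := by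
    haveI := fun k => prob φ hm hi h1 k
    unfold PP
    infer_instance
  have hadmk : ∀ k l, AdmW (attr (ι := Fin (n k)) (fun m => z l + Y l m)) := fun k l =>
    ((hadm (Fin (n k))).2.2.2.2.2.2.1 _ _).1
  have hadmr : ∀ k, AdmW (repEE (ι := Fin (n k))) := fun k =>
    ((hadm (Fin (n k))).2.2.2.2.2.2.1 _ (fun m => z k + Y k m)).2.1
  have hA : ∀ k l, Integrable (fun Z => attr (fun m => z l + Y l m) (Z k)) (PP φ) ∧
      ∫ Z, attr (fun m => z l + Y l m) (Z k) ∂(PP φ) =
        expv (attr (fun m => z l + Y l m)) (φ k) := fun k l =>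
    PP_one φ hm hi h1 k _ (hW k _ (hadmk k l))
  have hC : ∀ k l, k ≠ l → Integrable (fun Z => crs (Z k) (Z l)) (PP φ) ∧
      ∫ Z, crs (Z k) (Z l) ∂(PP φ) = crossEE (φ k) (φ l) := by
    intro k l hkl
    have hint : Integrable (fun Z => crs (Z k) (Z l)) (PP φ) := by
      unfold crs
      refine integrable_finset_sum _ fun i _ => integrable_finset_sum _ fun i' _ => ?_
      exact expv_prodF_int φ hm hi h1 (fun X => cou (X ⟨k, i⟩).1 (X ⟨l, i'⟩).1)
        (hFW _ ((hadm (Σ k, Fin (n k))).2.2.2.2.2.1 ⟨k, i⟩ ⟨l, i'⟩))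
    exact ⟨hint, PP_two φ hm hi h1 hkl (fun X X' => crs X X') crs_meas hint⟩
  -- the cross terms
  have hX : ∀ k l, k ≠ l → crossQ (Y k) (z k) (φ k) (Y l) (z l) (φ l) =
      (∑ m, ∑ m', cou (z k + Y k m) (z l + Y l m')) - expv (attr (fun m => z k + Y k m)) (φ l)
        - expv (attr (fun m => z l + Y l m)) (φ k) + crossEE (φ k) (φ l) := by
    intro k l hkl
    have i1 : Integrable (fun Z : ∀ k, Fin (n k) → Om =>
        (∑ m, ∑ m', cou (z k + Y k m) (z l + Y l m')) - attr (fun m => z k + Y k m) (Z l)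
          - attr (fun m => z l + Y l m) (Z k) + crs (Z k) (Z l)) (PP φ) :=
      (((integrable_const _).sub (hA l k).1).sub (hA k l).1).add (hC k l hkl).1
    have e1 := PP_two φ hm hi h1 hkl (fun X X' =>
        (∑ m, ∑ m', cou (z k + Y k m) (z l + Y l m')) - attr (fun m => z k + Y k m) X'
          - attr (fun m => z l + Y l m) X + crs X X')
      (((measurable_const.sub ((attr_meas _).comp measurable_snd)).sub
        ((attr_meas _).comp measurable_fst)).add crs_meas) i1
    unfold crossQ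
    simp_rw [cross_pt]
    refine e1.symm.trans ?_
    have j1 := integral_add (μ := PP φ)
      (((integrable_const (∑ m, ∑ m', cou (z k + Y k m) (z l + Y l m'))).sub (hA l k).1).sub
        (hA k l).1) (hC k l hkl).1
    have j2 := integral_sub (μ := PP φ)
      ((integrable_const (∑ m, ∑ m', cou (z k + Y k m) (z l + Y l m'))).sub (hA l k).1)
        (hA k l).1
    have j3 := integral_sub (μ := PP φ)
      (integrable_const (∑ m, ∑ m', cou (z k + Y k m) (z l + Y l m'))) (hA l k).1
    simp only [Pi.add_apply, Pi.sub_apply, integral_const, smul_eq_mul] at j1 j2 j3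
    rw [j1, j2, j3, (hA l k).2, (hA k l).2, (hC k l hkl).2]
    simp
  -- the energies of the cells
  have hQ : ∀ k, Qf (fun m => z k + Y k m) (φ k) = kin (φ k)
      - expv (attr (fun m => z k + Y k m)) (φ k) + expv repEE (φ k)
      + (1 / 2) * ∑ m, ∑ m', cou (z k + Y k m) (z k + Y k m') := by
    intro k
    have i1 := hW k _ (hadmk k k)
    have i2 := hW k _ (hadmr k)
    have i3 := (hi k).const_mul (repNN (fun m => z k + Y k m))
    have e : expv (pot (fun m => z k + Y k m)) (φ k) =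
        -expv (attr (fun m => z k + Y k m)) (φ k) + expv repEE (φ k)
          + repNN (fun m => z k + Y k m) * nsq (φ k) := by
      unfold expv nsq pot
      have j1 := integral_add (i1.neg.add i2) i3
      have j2 := integral_add i1.neg i2
      have j3 := integral_neg (μ := mu (Fin (n k)))
        (fun X : Fin (n k) → Om => attr (fun m => z k + Y k m) X * φ k X ^ 2)
      simp only [Pi.add_apply, Pi.neg_apply] at j1 j2 j3
      rw [← integral_const_mul, ← j3, ← j2, ← j1]
      congr 1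
      funext X
      ring
    unfold Qf
    rw [e, h1 k]
    unfold repNN
    ring
  have hAt : ∀ k, expv (attr (cl z Y)) (φ k) = ∑ l, expv (attr (fun m => z l + Y l m)) (φ k) := by
    intro k
    unfold expv
    rw [← integral_finset_sum _ fun l _ => hW k _ (hadmk k l)]
    congr 1
    funext X
    rw [attr_cl, Finset.sum_mul]
  have hX' : ∀ k l, (if k = l then 0 else crossQ (Y k) (z k) (φ k) (Y l) (z l) (φ l)) =
      (if k = l then 0 else ∑ m, ∑ m', cou (z k + Y k m) (z l + Y l m'))
        - (if k = l then 0 else expv (attr (fun m => z k + Y k m)) (φ l))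
        - (if k = l then 0 else expv (attr (fun m => z l + Y l m)) (φ k))
        + (if k = l then 0 else crossEE (φ k) (φ l)) := by
    intro k l
    by_cases h : k = l
    · simp only [h, if_true]; ring
    · simp only [h, if_false]; exact hX k l h
  simp_rw [hX', hQ, hAt, repNN_cl]
  simp only [Finset.sum_add_distrib, Finset.sum_sub_distrib]
  rw [sum_diag (fun k l => ∑ m, ∑ m', cou (z k + Y k m) (z l + Y l m')),
    sum_diag (fun k l => expv (attr (fun m => z l + Y l m)) (φ k)),
    sum_off_comm (fun k l => expv (attr (fun m => z l + Y l m)) (φ k)), ← Finset.mul_sum]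
  ring

end MolDis
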